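import Pool.Agent.H54.RT.WM

/-!
# Module GR: words act on the upper half plane

`gL : z ↦ z/(z+1)`, `gR : z ↦ z + 1`, `gS : z ↦ -1/z`. As matrices: `L S R = S`, `R S L = S`, `R S R = L`, `L S L = -R` (`Subtype.ext`, `Matrix.ext`, `Fin` cases, `Matrix.mul_apply`, `norm_num`; or `decide`-like `simp` with `Matrix.of_mul..`).
`-g` acts on `ℍ` as `g` (`ModularGroup.SL_neg_smul` or `UpperHalfPlane.SLneg_smul`; or from `UpperHalfPlane.coe_specialLinearGroup_apply`). `gS • I = I`.
`rho_gS_rv`: induction on `w`: `rho (t :: w) * gS * rho (rv (t :: w)) = rho [t] * (rho w * gS * rho (rv w)) * rho [!t] = rho [t] * gS * rho [!t] = gS`.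
-/

set_option autoImplicit false

open scoped BigOperators UpperHalfPlane MatrixGroups

namespace SimplVol

/-- The left turn. -/
noncomputable def gL : SL(2, ℝ) := ⟨!![1, 0; 1, 1], by simp [Matrix.det_fin_two_of]⟩

/-- The right turn. -/
noncomputable def gR : SL(2, ℝ) := ⟨!![1, 1; 0, 1], by simp [Matrix.det_fin_two_of]⟩

/-- The half turn. -/
noncomputable def gS : SL(2, ℝ) := ⟨!![0, -1; 1, 0], by simp [Matrix.det_fin_two_of]⟩

/-- The group element of a letter: `false` is the left turn, `true` the right turn. -/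
noncomputable def gT (t : Bool) : SL(2, ℝ) := if t then gR else gL

/-- The group element of a word. -/
noncomputable def rho (w : Wd) : SL(2, ℝ) := (w.map gT).prod

theorem rho_nil : rho [] = 1 := rfl

theorem rho_cons (t : Bool) (w : Wd) : rho (t :: w) = gT t * rho w := by
  simp [rho]

theorem rho_append (v w : Wd) : rho (v ++ w) = rho v * rho w := by
  simp [rho]

theorem gT_gS_gT (t : Bool) : gT t * gS * gT (!t) = gS := by
  apply Subtype.ext
  cases t
  · show (!![1, 0; 1, 1] : Matrix (Fin 2) (Fin 2) ℝ) * !![0, -1; 1, 0] * !![1, 1; 0, 1] =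
      !![0, -1; 1, 0]
    rw [Matrix.mul_fin_two, Matrix.mul_fin_two]
    norm_num
  · show (!![1, 1; 0, 1] : Matrix (Fin 2) (Fin 2) ℝ) * !![0, -1; 1, 0] * !![1, 0; 1, 1] =
      !![0, -1; 1, 0]
    rw [Matrix.mul_fin_two, Matrix.mul_fin_two]
    norm_num

/-- `-g` acts as `g` -/
theorem GR_neg (g h : SL(2, ℝ)) (e : (g : Matrix (Fin 2) (Fin 2) ℝ) = -(h : Matrix (Fin 2) (Fin 2) ℝ))
    (z : ℍ) : g • z = h • z := by
  apply UpperHalfPlane.ext
  rw [UpperHalfPlane.coe_specialLinearGroup_apply, UpperHalfPlane.coe_specialLinearGroup_apply]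
  have h1 : ∀ i j, g i j = -(h i j) := fun i j => congrFun (congrFun e i) j
  rw [h1, h1, h1, h1]
  simp only [map_neg, Complex.ofReal_neg]
  rw [← neg_div_neg_eq]
  congr 1
  · ring
  · ring

/-- A turn, seen from the other branch. -/
theorem turn_smul (t : Bool) (z : ℍ) : (gT t * gS * gT t) • z = gT (!t) • z := by
  cases t
  · refine GR_neg _ _ ?_ z
    show (!![1, 0; 1, 1] : Matrix (Fin 2) (Fin 2) ℝ) * !![0, -1; 1, 0] * !![1, 0; 1, 1] =
      -!![1, 1; 0, 1]
    rw [Matrix.mul_fin_two, Matrix.mul_fin_two]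
    ext i j
    fin_cases i <;> fin_cases j <;> norm_num
  · have h1 : gT true * gS * gT true = gT (!true) := by
      apply Subtype.ext
      show (!![1, 1; 0, 1] : Matrix (Fin 2) (Fin 2) ℝ) * !![0, -1; 1, 0] * !![1, 1; 0, 1] =
        !![1, 0; 1, 1]
      rw [Matrix.mul_fin_two, Matrix.mul_fin_two]
      norm_num
    rw [h1]

theorem gS_smul_I : gS • UpperHalfPlane.I = UpperHalfPlane.I := by
  apply UpperHalfPlane.ext
  rw [UpperHalfPlane.coe_specialLinearGroup_apply]
  have h00 : gS 0 0 = 0 := rfl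
  have h01 : gS 0 1 = -1 := rfl
  have h10 : gS 1 0 = 1 := rfl
  have h11 : gS 1 1 = 0 := rfl
  rw [h00, h01, h10, h11]
  simp

theorem gS_gS_smul (z : ℍ) : gS • gS • z = z := by
  rw [smul_smul]
  have h1 : (gS * gS) • z = (1 : SL(2, ℝ)) • z := by
    refine GR_neg _ _ ?_ z
    show (!![0, -1; 1, 0] : Matrix (Fin 2) (Fin 2) ℝ) * !![0, -1; 1, 0] = -1
    rw [Matrix.mul_fin_two]
    ext i j
    fin_cases i <;> fin_cases j <;> norm_num
  rw [h1, one_smul]

theorem rho_gS_rv (w : Wd) : rho w * gS * rho (rv w) = gS := by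
  induction w with
  | nil => rw [rv_nil, rho_nil, one_mul, mul_one]
  | cons t w ih =>
    rw [rv_cons, rho_append, rho_cons t w, rho_cons (!t) [], rho_nil, mul_one]
    have h1 : gT t * rho w * gS * (rho (rv w) * gT !t) = gT t * (rho w * gS * rho (rv w)) * gT !t := by
      group
    rw [h1, ih, gT_gS_gT]

end SimplVol
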