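import Pool.Agent.H74.SV.PP
import Pool.Agent.H74.SV.AR
import Pool.Agent.H54.RT.GR

/-!
# Module AA: the area of a triangle with vertices far out

* `vol_bad`: for `Re a ≥ 0` (`x = a.re ≥ 0`, `y = a.im`, `|a|² = x² + y²`): `u ∈ ell a` means `u₁² - 2 x u₁ u₂ + |a|² u₂² ≤ y`; if `u₁ u₂ ≤ 0` then `u₁² + |a|² u₂² ≤ y`, so `|u₁| ≤ √y`, `|u₂| ≤ √y/|a|`: the set lies in
  `([-√y, 0] × [0, √y/|a|]) ∪ ([0, √y] × [-√y/|a|, 0])`, of volume `2 y/|a|` (`Measure.prod_prod`, `Real.volume_Icc`, `measure_union_le`).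
* `word_point`: let `rho w = (p q; r s)`: nonnegative integers (real numbers), determinant `1`, `p + q ≥ 1`, `r + s ≥ 1`, `p + q + r + s ≥ |w| + 2` (induction on `w`: multiply by `gL` or `gR` from the LEFT: `(p q; p+r q+s)`, `(p+r q+s; r s)`).
  `a = rho w • I = (p i + q)/(r i + s)`: `a.re = (p r + q s)/(r² + s²) ≥ 0`, `a.im = 1/(r² + s²)`, `|a|² = (p² + q²)/(r² + s²)`, so `a.im/|a| = 1/√((p²+q²)(r²+s²))`, and `(p²+q²)(r²+s²) ≥ ((p+q)²/2)((r+s)²/2)`, `(p+q)(r+s) ≥ (p+q)+(r+s)-1 ≥ |w|+1`: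
  `a.im/|a| ≤ 2/(|w|+1)`. (`UpperHalfPlane.coe_specialLinearGroup_apply`.)
* `area_words`: let `x₀ = gS • a₀`, `x₁ = gL • a₁`, `x₂ = gR • a₂`, `a_j = rho w_j • I`. Good sets: `J₀ : u₁ u₂ < 0`, `J₁ : u₁ (u₂ - u₁) > 0`, `J₂ : (u₁ - u₂) u₂ > 0`; `act gS u ∈ J₀ ↔ u₁ u₂ > 0`, `act gL u ∈ J₁ ↔ u₁ u₂ > 0`, `act gR u ∈ J₂ ↔ u₁ u₂ > 0`. By `ell_act` and
  `act_preserving` the volume of `ell x_j \ J_j` is that of `{u ∈ ell a_j | u₁ u₂ ≤ 0}`, at most `2 (a_j.im/|a_j|) ≤ 4/(|w_j|+1)`. If `u ∈ J₀`, `v ∈ J₁`, `w ∈ J₂` then `dt u v * dt v w * dt w u > 0` (signs: WLOG `u₂, v₂, w₂ > 0`; `dt u v < 0`, `dt v w < 0`, `dt w u > 0`; `nlinarith` or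
  divide by `u₂ v₂ w₂`: slopes `s < 0 < t < 1 < r`). So the set of the positively oriented triples in `ell x₀ × ell x₁ × ell x₂` (volume `π³` in total, `volume_ell`) misses at most the union of three sets of volume `≤ π² * 4/(|w_j|+1)`: `PP x₀ x₁ x₂ ≥ 1 - (4/π) Σ 1/(|w_j|+1)`;
  `PP x₁ x₀ x₂ ≤ 1 - PP x₀ x₁ x₂` (`PP_swap`). `PP_sub`: `area x₀ x₁ x₂ ≥ π - 8 Σ`; `area ≤ π` (module AR: `abs_area_lt` or `PP_sub` and `PP ≤ 1`).
* `area_conf`: `area` is invariant (`area_smul`): apply `(rho w₀)⁻¹ = gS * rho (rv w₀) * gS⁻¹` (from `rho_gS_rv`) to `I`, `rho (w₀ ++ false :: w₁) • I`, `rho (w₀ ++ true :: w₂) • I`: get `gS • rho (rv w₀) • I` (`gS⁻¹ • I = I`), `gL • rho w₁ • I`, `gR • rho w₂ • I`; `|rv w₀| = |w₀|`.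
-/

set_option autoImplicit false

open scoped BigOperators UpperHalfPlane MatrixGroups ENNReal
open MeasureTheory

namespace SimplVol

theorem vol_bad (a : ℍ) (ha : 0 ≤ a.re) :
    volume {u : Pl | u ∈ ell a ∧ u.1 * u.2 ≤ 0} ≤
      ENNReal.ofReal (2 * a.im / Real.sqrt (a.re ^ 2 + a.im ^ 2)) := by
  have hy := a.im_pos
  set N := Real.sqrt (a.re ^ 2 + a.im ^ 2) with hN
  have hNN : N ^ 2 = a.re ^ 2 + a.im ^ 2 := Real.sq_sqrt (by positivity)
  have hNpos : 0 < N := Real.sqrt_pos.2 (by positivity)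
  set S := Real.sqrt a.im with hS
  have hSS : S * S = a.im := Real.mul_self_sqrt hy.le
  have hSpos : 0 < S := Real.sqrt_pos.2 hy
  have hsub : {u : Pl | u ∈ ell a ∧ u.1 * u.2 ≤ 0} ⊆
      (Set.Icc (-S) 0 ×ˢ Set.Icc 0 (S / N)) ∪ (Set.Icc 0 S ×ˢ Set.Icc (-(S / N)) 0) := by
    rintro u ⟨h1, h2⟩
    have h1' : (u.1 - a.re * u.2) ^ 2 + (a.im * u.2) ^ 2 ≤ a.im := h1
    have h3 : 0 ≤ -(a.re * (u.1 * u.2)) := by
      have := mul_nonpos_of_nonneg_of_nonpos ha h2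
      linarith
    have h4 : u.1 ^ 2 + (N * u.2) ^ 2 ≤ a.im := by
      have : (N * u.2) ^ 2 = (a.re ^ 2 + a.im ^ 2) * u.2 ^ 2 := by rw [mul_pow, hNN]
      rw [this]
      nlinarith [h1', h3]
    have h5 : |u.1| ≤ S := Real.abs_le_sqrt (by nlinarith [sq_nonneg (N * u.2)])
    have h6 : |N * u.2| ≤ S := Real.abs_le_sqrt (by nlinarith [sq_nonneg u.1])
    rw [abs_le] at h5 h6
    have h7 : u.2 ≤ S / N := by
      rw [le_div_iff₀ hNpos]
      linarith [h6.2]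
    have h8 : -(S / N) ≤ u.2 := by
      rw [← neg_div, div_le_iff₀ hNpos]
      linarith [h6.1]
    rcases mul_nonpos_iff.1 h2 with ⟨h9, h10⟩ | ⟨h9, h10⟩
    · right
      exact ⟨⟨h9, h5.2⟩, ⟨h8, h10⟩⟩
    · left
      exact ⟨⟨h5.1, h9⟩, ⟨h10, h7⟩⟩
  refine (measure_mono hsub).trans ((measure_union_le _ _).trans ?_)
  have e : (volume : Measure Pl) = (volume : Measure ℝ).prod (volume : Measure ℝ) := rfl
  rw [e, Measure.prod_prod, Measure.prod_prod, Real.volume_Icc, Real.volume_Icc, Real.volume_Icc,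
    Real.volume_Icc]
  have hSN : 0 ≤ S / N := by positivity
  rw [← ENNReal.ofReal_mul (by linarith), ← ENNReal.ofReal_mul (by linarith),
    ← ENNReal.ofReal_add (by nlinarith) (by nlinarith)]
  apply ENNReal.ofReal_le_ofReal
  apply le_of_eq
  rw [← hSS]
  field_simp
  ring

private theorem AA_mul (g h : SL(2, ℝ)) (i j : Fin 2) :
    (g * h) i j = g i 0 * h 0 j + g i 1 * h 1 j := by
  rw [Matrix.SpecialLinearGroup.coe_mul, Matrix.mul_apply, Fin.sum_univ_two]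

private theorem AA_ent (w : Wd) : 0 ≤ rho w 0 0 ∧ 0 ≤ rho w 0 1 ∧ 0 ≤ rho w 1 0 ∧
    0 ≤ rho w 1 1 ∧ 1 ≤ rho w 0 0 + rho w 0 1 ∧ 1 ≤ rho w 1 0 + rho w 1 1 ∧
    (w.length : ℝ) + 2 ≤ rho w 0 0 + rho w 0 1 + rho w 1 0 + rho w 1 1 := by
  induction w with
  | nil =>
    have h00 : rho [] 0 0 = 1 := by rw [rho_nil]; rfl
    have h01 : rho [] 0 1 = 0 := by rw [rho_nil]; rfl
    have h10 : rho [] 1 0 = 0 := by rw [rho_nil]; rfl
    have h11 : rho [] 1 1 = 1 := by rw [rho_nil]; rfl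
    rw [h00, h01, h10, h11]
    norm_num
  | cons t w ih =>
    obtain ⟨h1, h2, h3, h4, h5, h6, h7⟩ := ih
    rw [rho_cons]
    simp only [AA_mul]
    cases t
    · have g00 : gT false 0 0 = 1 := rfl
      have g01 : gT false 0 1 = 0 := rfl
      have g10 : gT false 1 0 = 1 := rfl
      have g11 : gT false 1 1 = 1 := rfl
      rw [g00, g01, g10, g11]
      simp only [List.length_cons, Nat.cast_add, Nat.cast_one]
      refine ⟨?_, ?_, ?_, ?_, ?_, ?_, ?_⟩ <;> linarith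
    · have g00 : gT true 0 0 = 1 := rfl
      have g01 : gT true 0 1 = 1 := rfl
      have g10 : gT true 1 0 = 0 := rfl
      have g11 : gT true 1 1 = 1 := rfl
      rw [g00, g01, g10, g11]
      simp only [List.length_cons, Nat.cast_add, Nat.cast_one]
      refine ⟨?_, ?_, ?_, ?_, ?_, ?_, ?_⟩ <;> linarith

theorem word_point (w : Wd) : 0 ≤ (rho w • UpperHalfPlane.I).re ∧
    (rho w • UpperHalfPlane.I).im /
      Real.sqrt ((rho w • UpperHalfPlane.I).re ^ 2 + (rho w • UpperHalfPlane.I).im ^ 2) ≤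
      2 / ((w.length : ℝ) + 1) := by
  obtain ⟨h1, h2, h3, h4, h5, h6, h7⟩ := AA_ent w
  have hdet : rho w 0 0 * rho w 1 1 - rho w 0 1 * rho w 1 0 = 1 := by
    have h := (rho w).det_coe
    rwa [Matrix.det_fin_two] at h
  have hco : ((rho w • UpperHalfPlane.I : ℍ) : ℂ) =
      ((rho w 0 0 : ℂ) * Complex.I + rho w 0 1) / ((rho w 1 0 : ℂ) * Complex.I + rho w 1 1) :=
    UpperHalfPlane.coe_specialLinearGroup_apply (rho w) UpperHalfPlane.I
  set p := rho w 0 0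
  set q := rho w 0 1
  set r := rho w 1 0
  set s := rho w 1 1
  set D := r ^ 2 + s ^ 2 with hD
  have hDpos : 0 < D := by nlinarith [sq_nonneg (r - s), sq_nonneg (r + s)]
  have hnorm : Complex.normSq ((r : ℂ) * Complex.I + s) = D := by
    rw [Complex.normSq_apply]
    simp
    ring
  have hre : (rho w • UpperHalfPlane.I : ℍ).re = (p * r + q * s) / D := by
    rw [← UpperHalfPlane.coe_re, hco, Complex.div_re, hnorm]
    simp
    ring
  have him : (rho w • UpperHalfPlane.I : ℍ).im = 1 / D := by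
    rw [← UpperHalfPlane.coe_im, hco, Complex.div_im, hnorm, ← hdet]
    simp
    ring
  rw [hre, him]
  refine ⟨by positivity, ?_⟩
  have hsq : ((p * r + q * s) / D) ^ 2 + (1 / D) ^ 2 = (p ^ 2 + q ^ 2) / D := by
    have h8 : (p * r + q * s) ^ 2 + 1 = (p ^ 2 + q ^ 2) * D := by
      have : (1 : ℝ) = (p * s - q * r) ^ 2 := by rw [hdet]; norm_num
      rw [this, hD]
      ring
    rw [div_pow, div_pow, ← add_div, one_pow, h8]
    field_simp
  rw [hsq]
  have hA : 0 < p ^ 2 + q ^ 2 := by nlinarith [sq_nonneg (p - q), sq_nonneg (p + q)]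
  have hQpos : 0 < Real.sqrt ((p ^ 2 + q ^ 2) / D) := Real.sqrt_pos.2 (by positivity)
  have hL : (0 : ℝ) < (w.length : ℝ) + 1 := by positivity
  rw [div_le_div_iff₀ hQpos hL]
  have h9 : 1 / D * ((w.length : ℝ) + 1) / 2 ≤ Real.sqrt ((p ^ 2 + q ^ 2) / D) := by
    apply Real.le_sqrt_of_sq_le
    have h10 : ((w.length : ℝ) + 1) ≤ (p + q) * (r + s) := by nlinarith
    have h11 : ((w.length : ℝ) + 1) ^ 2 ≤ ((p + q) * (r + s)) ^ 2 :=
      pow_le_pow_left₀ hL.le h10 2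
    have h12 : (p + q) ^ 2 ≤ 2 * (p ^ 2 + q ^ 2) := by nlinarith [sq_nonneg (p - q)]
    have h13 : (r + s) ^ 2 ≤ 2 * D := by nlinarith [sq_nonneg (r - s)]
    have h14 : ((p + q) * (r + s)) ^ 2 ≤ (2 * (p ^ 2 + q ^ 2)) * (2 * D) := by
      rw [mul_pow]
      exact mul_le_mul h12 h13 (by positivity) (by positivity)
    have h15 : (1 / D * ((w.length : ℝ) + 1) / 2) ^ 2 = ((w.length : ℝ) + 1) ^ 2 / (4 * D ^ 2) := by
      field_simp
      ring
    rw [h15, div_le_div_iff₀ (by positivity) hDpos]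
    have h16 : ((w.length : ℝ) + 1) ^ 2 ≤ 4 * (p ^ 2 + q ^ 2) * D := by linarith
    nlinarith [h16, hDpos]
  linarith

/-- The measure of a bad set. -/
private theorem AA_bad (g : SL(2, ℝ)) (J : Set Pl) (hJ : MeasurableSet J)
    (hg : ∀ u, 0 < u.1 * u.2 → act g u ∈ J) (w : Wd) :
    volume (ell (g • rho w • UpperHalfPlane.I) \ J) ≤
      ENNReal.ofReal (4 / ((w.length : ℝ) + 1)) := by
  set a : ℍ := rho w • UpperHalfPlane.I with ha
  obtain ⟨h1, h2⟩ := word_point w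
  have hm : MeasurableSet (ell (g • a) \ J) := (ell_measurable _).diff hJ
  rw [← (act_preserving g).measure_preimage hm.nullMeasurableSet]
  have hsub : act g ⁻¹' (ell (g • a) \ J) ⊆ {u : Pl | u ∈ ell a ∧ u.1 * u.2 ≤ 0} := by
    rintro u ⟨h3, h4⟩
    refine ⟨(ell_act g a u).1 h3, ?_⟩
    by_contra h5
    exact h4 (hg u (not_le.1 h5))
  refine (measure_mono hsub).trans ((vol_bad a h1).trans (ENNReal.ofReal_le_ofReal ?_))
  rw [mul_div_assoc]
  calc 2 * (a.im / Real.sqrt (a.re ^ 2 + a.im ^ 2)) ≤ 2 * (2 / ((w.length : ℝ) + 1)) :=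
        mul_le_mul_of_nonneg_left h2 (by norm_num)
    _ = 4 / ((w.length : ℝ) + 1) := by ring

private theorem AA_sign (u v w : Pl) (hu : u.1 * u.2 < 0) (hv : 0 < v.1 * (v.2 - v.1))
    (hw : 0 < (w.1 - w.2) * w.2) : 0 < dt u v * dt v w * dt w u := by
  have hu2 : u.2 ≠ 0 := by
    intro h
    rw [h, mul_zero] at hu
    exact lt_irrefl _ hu
  have hv2 : v.2 ≠ 0 := by
    intro h
    rw [h] at hv
    nlinarith [sq_nonneg v.1]
  have hw2 : w.2 ≠ 0 := by
    intro h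
    rw [h, mul_zero] at hw
    exact lt_irrefl _ hw
  obtain ⟨s, hs⟩ : ∃ s, u.1 = s * u.2 := ⟨u.1 / u.2, by field_simp⟩
  obtain ⟨t, ht⟩ : ∃ t, v.1 = t * v.2 := ⟨v.1 / v.2, by field_simp⟩
  obtain ⟨r, hr⟩ : ∃ r, w.1 = r * w.2 := ⟨w.1 / w.2, by field_simp⟩
  have pu : 0 < u.2 ^ 2 := by positivity
  have pv : 0 < v.2 ^ 2 := by positivity
  have pw : 0 < w.2 ^ 2 := by positivity
  have h1 : s < 0 := by
    have : s * u.2 ^ 2 < 0 := by
      rw [hs] at hu
      linarith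
    by_contra h
    push Not at h
    have := mul_nonneg h pu.le
    linarith
  have h2 : 0 < t * (1 - t) := by
    have h3 : 0 < (t * (1 - t)) * v.2 ^ 2 := by
      rw [ht] at hv
      linarith
    exact pos_of_mul_pos_left h3 pv.le
  have h3 : 0 < t := by
    by_contra h
    push Not at h
    nlinarith
  have h4 : t < 1 := by
    by_contra h
    push Not at h
    nlinarith
  have h5 : 1 < r := by
    have h6 : 0 < (r - 1) * w.2 ^ 2 := by
      rw [hr] at hw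
      linarith
    have := pos_of_mul_pos_left h6 pw.le
    linarith
  have h6 : dt u v * dt v w * dt w u =
      (u.2 ^ 2 * v.2 ^ 2 * w.2 ^ 2) * ((t - s) * (r - t) * (r - s)) := by
    unfold dt
    rw [hs, ht, hr]
    ring
  rw [h6]
  have h7 : 0 < t - s := by linarith
  have h8 : 0 < r - t := by linarith
  have h9 : 0 < r - s := by linarith
  positivity

theorem area_words (w₀ w₁ w₂ : Wd) :
    |area (gS • rho w₀ • UpperHalfPlane.I) (gL • rho w₁ • UpperHalfPlane.I)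
      (gR • rho w₂ • UpperHalfPlane.I) - Real.pi| ≤
      8 * (1 / ((w₀.length : ℝ) + 1) + 1 / ((w₁.length : ℝ) + 1) + 1 / ((w₂.length : ℝ) + 1)) := by
  have hpi := Real.pi_pos
  set x₀ : ℍ := gS • rho w₀ • UpperHalfPlane.I with hx₀
  set x₁ : ℍ := gL • rho w₁ • UpperHalfPlane.I with hx₁
  set x₂ : ℍ := gR • rho w₂ • UpperHalfPlane.I with hx₂
  set Sg : ℝ := 1 / ((w₀.length : ℝ) + 1) + 1 / ((w₁.length : ℝ) + 1) +
    1 / ((w₂.length : ℝ) + 1) with hSg
  set J₀ : Set Pl := {u | u.1 * u.2 < 0} with hJ₀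
  set J₁ : Set Pl := {u | 0 < u.1 * (u.2 - u.1)} with hJ₁
  set J₂ : Set Pl := {u | 0 < (u.1 - u.2) * u.2} with hJ₂
  have m₀ : MeasurableSet J₀ := measurableSet_lt (by fun_prop) measurable_const
  have m₁ : MeasurableSet J₁ := measurableSet_lt measurable_const (by fun_prop)
  have m₂ : MeasurableSet J₂ := measurableSet_lt measurable_const (by fun_prop)
  have b₀ : volume (ell x₀ \ J₀) ≤ ENNReal.ofReal (4 / ((w₀.length : ℝ) + 1)) := by
    refine AA_bad gS J₀ m₀ ?_ w₀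
    intro u hu
    have h00 : gS 0 0 = 0 := rfl
    have h01 : gS 0 1 = -1 := rfl
    have h10 : gS 1 0 = 1 := rfl
    have h11 : gS 1 1 = 0 := rfl
    change (gS 0 0 * u.1 + gS 0 1 * u.2) * (gS 1 0 * u.1 + gS 1 1 * u.2) < 0
    rw [h00, h01, h10, h11]
    linarith
  have b₁ : volume (ell x₁ \ J₁) ≤ ENNReal.ofReal (4 / ((w₁.length : ℝ) + 1)) := by
    refine AA_bad gL J₁ m₁ ?_ w₁
    intro u hu
    have h00 : gL 0 0 = 1 := rfl
    have h01 : gL 0 1 = 0 := rfl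
    have h10 : gL 1 0 = 1 := rfl
    have h11 : gL 1 1 = 1 := rfl
    change 0 < (gL 0 0 * u.1 + gL 0 1 * u.2) *
      ((gL 1 0 * u.1 + gL 1 1 * u.2) - (gL 0 0 * u.1 + gL 0 1 * u.2))
    rw [h00, h01, h10, h11]
    linarith
  have b₂ : volume (ell x₂ \ J₂) ≤ ENNReal.ofReal (4 / ((w₂.length : ℝ) + 1)) := by
    refine AA_bad gR J₂ m₂ ?_ w₂
    intro u hu
    have h00 : gR 0 0 = 1 := rfl
    have h01 : gR 0 1 = 1 := rfl
    have h10 : gR 1 0 = 0 := rfl
    have h11 : gR 1 1 = 1 := rfl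
    change 0 < ((gR 0 0 * u.1 + gR 0 1 * u.2) - (gR 1 0 * u.1 + gR 1 1 * u.2)) *
      (gR 1 0 * u.1 + gR 1 1 * u.2)
    rw [h00, h01, h10, h11]
    linarith
  set E : Set (Pl × Pl × Pl) := ell x₀ ×ˢ (ell x₁ ×ˢ ell x₂) with hE
  set T : Set (Pl × Pl × Pl) := {p | p.1 ∈ ell x₀ ∧ p.2.1 ∈ ell x₁ ∧ p.2.2 ∈ ell x₂ ∧
    0 < dt p.1 p.2.1 * dt p.2.1 p.2.2 * dt p.2.2 p.1} with hT
  have e : (volume : Measure (Pl × Pl × Pl)) =
      (volume : Measure Pl).prod ((volume : Measure Pl).prod (volume : Measure Pl)) := rfl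
  have hEvol : volume E = ENNReal.ofReal (Real.pi ^ 3) := by
    rw [hE, e, Measure.prod_prod, Measure.prod_prod,
      volume_ell, volume_ell, volume_ell, ← ENNReal.ofReal_mul Real.pi_pos.le,
      ← ENNReal.ofReal_mul Real.pi_pos.le]
    congr 1
    ring
  have hcov : E ⊆ T ∪ (((ell x₀ \ J₀) ×ˢ (ell x₁ ×ˢ ell x₂)) ∪
      ((ell x₀ ×ˢ ((ell x₁ \ J₁) ×ˢ ell x₂)) ∪ (ell x₀ ×ˢ (ell x₁ ×ˢ (ell x₂ \ J₂))))) := by
    rintro ⟨u, v, w⟩ ⟨h1, h2, h3⟩
    by_cases c₀ : u ∈ J₀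
    · by_cases c₁ : v ∈ J₁
      · by_cases c₂ : w ∈ J₂
        · left
          exact ⟨h1, h2, h3, AA_sign u v w c₀ c₁ c₂⟩
        · right; right; right
          exact ⟨h1, h2, h3, c₂⟩
      · right; right; left
        exact ⟨h1, ⟨h2, c₁⟩, h3⟩
    · right; left
      exact ⟨⟨h1, c₀⟩, h2, h3⟩
  have hbd : ENNReal.ofReal (Real.pi ^ 3) ≤ volume T +
      ENNReal.ofReal (4 * Real.pi ^ 2 * Sg) := by
    rw [← hEvol]
    refine (measure_mono hcov).trans ((measure_union_le _ _).trans ?_)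
    gcongr
    refine (measure_union_le _ _).trans ?_
    refine (add_le_add le_rfl (measure_union_le _ _)).trans ?_
    rw [e, Measure.prod_prod, Measure.prod_prod, Measure.prod_prod, Measure.prod_prod,
      Measure.prod_prod, Measure.prod_prod, volume_ell, volume_ell, volume_ell]
    have k₀ : volume (ell x₀ \ J₀) * (ENNReal.ofReal Real.pi * ENNReal.ofReal Real.pi) ≤
        ENNReal.ofReal (4 * Real.pi ^ 2 * (1 / ((w₀.length : ℝ) + 1))) := by
      refine (mul_le_mul' b₀ le_rfl).trans ?_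
      rw [← ENNReal.ofReal_mul hpi.le, ← ENNReal.ofReal_mul (by positivity)]
      apply ENNReal.ofReal_le_ofReal
      apply le_of_eq
      ring
    have k₁ : ENNReal.ofReal Real.pi * (volume (ell x₁ \ J₁) * ENNReal.ofReal Real.pi) ≤
        ENNReal.ofReal (4 * Real.pi ^ 2 * (1 / ((w₁.length : ℝ) + 1))) := by
      refine (mul_le_mul' le_rfl (mul_le_mul' b₁ le_rfl)).trans ?_
      rw [← ENNReal.ofReal_mul (by positivity), ← ENNReal.ofReal_mul (by positivity)]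
      apply ENNReal.ofReal_le_ofReal
      apply le_of_eq
      ring
    have k₂ : ENNReal.ofReal Real.pi * (ENNReal.ofReal Real.pi * volume (ell x₂ \ J₂)) ≤
        ENNReal.ofReal (4 * Real.pi ^ 2 * (1 / ((w₂.length : ℝ) + 1))) := by
      refine (mul_le_mul' le_rfl (mul_le_mul' le_rfl b₂)).trans ?_
      rw [← ENNReal.ofReal_mul (by positivity), ← ENNReal.ofReal_mul (by positivity)]
      apply ENNReal.ofReal_le_ofReal
      apply le_of_eq
      ring
    refine (add_le_add k₀ (add_le_add k₁ k₂)).trans ?_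
    rw [← ENNReal.ofReal_add (by positivity) (by positivity),
      ← ENNReal.ofReal_add (by positivity) (by positivity)]
    apply ENNReal.ofReal_le_ofReal
    apply le_of_eq
    rw [hSg]
    ring
  have hTfin : volume T ≠ ⊤ := by
    refine ne_top_of_le_ne_top (b := volume E) ?_ (measure_mono ?_)
    · rw [hEvol]
      exact ENNReal.ofReal_ne_top
    · rintro p ⟨h1, h2, h3, -⟩
      exact ⟨h1, h2, h3⟩
  have hSg0 : 0 ≤ Sg := by positivity
  have hreal : Real.pi ^ 3 ≤ (volume T).toReal + 4 * Real.pi ^ 2 * Sg := by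
    have h1 := ENNReal.toReal_mono
      (ENNReal.add_ne_top.2 ⟨hTfin, ENNReal.ofReal_ne_top⟩) hbd
    rwa [ENNReal.toReal_ofReal (by positivity), ENNReal.toReal_add hTfin ENNReal.ofReal_ne_top,
      ENNReal.toReal_ofReal (by positivity)] at h1
  have hPP : 1 - 4 * Sg / Real.pi ≤ PP x₀ x₁ x₂ := by
    have h1 : PP x₀ x₁ x₂ = (volume T).toReal / Real.pi ^ 3 := rfl
    rw [h1, le_div_iff₀ (by positivity)]
    have h2 : (1 - 4 * Sg / Real.pi) * Real.pi ^ 3 = Real.pi ^ 3 - 4 * Real.pi ^ 2 * Sg := by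
      field_simp
    linarith
  have h1 := PP_swap x₀ x₁ x₂
  have h2 := PP_sub x₀ x₁ x₂
  have h3 := abs_area_lt x₀ x₁ x₂
  rw [abs_lt] at h3
  have h4 : 1 - 8 * Sg / Real.pi ≤ area x₀ x₁ x₂ / Real.pi := by
    rw [← h2]
    have : 8 * Sg / Real.pi = 4 * Sg / Real.pi + 4 * Sg / Real.pi := by ring
    linarith
  rw [le_div_iff₀ hpi] at h4
  have h5 : (1 - 8 * Sg / Real.pi) * Real.pi = Real.pi - 8 * Sg := by
    field_simp
  rw [abs_le]
  constructor <;> linarith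

theorem area_conf (w₀ w₁ w₂ : Wd) :
    |area UpperHalfPlane.I (rho (w₀ ++ false :: w₁) • UpperHalfPlane.I)
      (rho (w₀ ++ true :: w₂) • UpperHalfPlane.I) - Real.pi| ≤
      8 * (1 / ((w₀.length : ℝ) + 1) + 1 / ((w₁.length : ℝ) + 1) + 1 / ((w₂.length : ℝ) + 1)) := by
  have h1 := area_words (rv w₀) w₁ w₂
  have hlen : (rv w₀).length = w₀.length := by simp [rv]
  rw [hlen] at h1
  have h2 : rho w₀ • gS • rho (rv w₀) • UpperHalfPlane.I = UpperHalfPlane.I := by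
    rw [← mul_smul, ← mul_smul, rho_gS_rv, gS_smul_I]
  have h3 : rho (w₀ ++ false :: w₁) • UpperHalfPlane.I =
      rho w₀ • gL • rho w₁ • UpperHalfPlane.I := by
    rw [rho_append, rho_cons, mul_smul, mul_smul]
    rfl
  have h4 : rho (w₀ ++ true :: w₂) • UpperHalfPlane.I =
      rho w₀ • gR • rho w₂ • UpperHalfPlane.I := by
    rw [rho_append, rho_cons, mul_smul, mul_smul]
    rfl
  have h5 : area UpperHalfPlane.I (rho (w₀ ++ false :: w₁) • UpperHalfPlane.I)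
      (rho (w₀ ++ true :: w₂) • UpperHalfPlane.I) =
      area (gS • rho (rv w₀) • UpperHalfPlane.I) (gL • rho w₁ • UpperHalfPlane.I)
        (gR • rho w₂ • UpperHalfPlane.I) := by
    rw [h3, h4]
    have h6 := area_smul (rho w₀) (gS • rho (rv w₀) • UpperHalfPlane.I)
      (gL • rho w₁ • UpperHalfPlane.I) (gR • rho w₂ • UpperHalfPlane.I)
    rwa [h2] at h6
  rw [h5]
  exact h1

end SimplVol
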