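import Pool.Agent.H54.RT.LD

/-!
# Module AL: alternation

* `altL_ofFn`: `(List.ofFn y).length = k` (`List.length_ofFn`); prove first: for every list `l` and every `k` with
  `h : l.length = k`, `altL G l = (1/k!) ∑ σ : Perm (Fin k), sgn σ * G (List.ofFn fun i => l.get (Fin.cast h.symm (σ i)))`
  (`subst h`), and use `List.get_ofFn`.
* `altL_perm`: substitute `σ ↦ π * σ` (`Equiv.sum_comp (Equiv.mulLeft π)`), `sign_mul`.
* `dd_altL` (for a list `List.ofFn y` with `k + 1` entries; `dd_ofFn`): for `i : Fin (k+1)`, `i.succAbove = c_i ∘ Fin.succ` where `c_i = i.cycleRange.symm` (or `i.cycleRange⁻¹`;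
  `Fin.cycleRange_symm_succ`), `sign c_i = (-1)^i` (`Fin.sign_cycleRange`). So
  `altL (dd G) y = (1/(k+1)!) ∑_σ sgn σ ∑_i (-1)^i G (y ∘ σ ∘ c_i ∘ succ) = (1/(k+1)!) ∑_i ∑_σ' sgn σ' G (y ∘ σ' ∘ succ)`
  (`σ' = σ * c_i`) `= (1/k!) ∑_σ' sgn σ' G (y ∘ σ' ∘ succ)`. Every `σ'` is uniquely `c_j * (extension of σ'' : Perm (Fin k)
  fixing 0)` with `j = σ' 0`, so that `σ' ∘ succ = j.succAbove ∘ σ''`, `sgn σ' = (-1)^j sgn σ''`: the map
  `(j, σ'') ↦ c_j * decomposeFin.symm (0, σ'')` is a bijection `Fin (k+1) × Perm (Fin k) → Perm (Fin (k+1))`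
  (injective: apply to `0` to get `j`; `Fintype.bijective_iff_injective_and_card`, `Fintype.card_perm`), see also
  `Equiv.Perm.decomposeFin`, `Equiv.Perm.decomposeFin.symm_sign`, `Matrix.det_succ_row_zero`'s proof. Hence it is
  `∑_j (-1)^j (1/k!) ∑_σ'' sgn σ'' G (y ∘ j.succAbove ∘ σ'') = dd (altL G) y`.
-/

set_option autoImplicit false

open scoped BigOperators Nat

namespace SimplVol

variable {Y : Type}

/-- The alternation of a function of lists. -/
noncomputable def altL (G : List Y → ℝ) (l : List Y) : ℝ :=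
  (1 / ((l.length)! : ℝ)) * ∑ σ : Equiv.Perm (Fin l.length), ((Equiv.Perm.sign σ : ℤ) : ℝ) *
    G (List.ofFn fun i => l.get (σ i))

theorem altL_eq (G : List Y → ℝ) (l : List Y) (k : ℕ) (h : l.length = k) :
    altL G l = (1 / (k ! : ℝ)) * ∑ σ : Equiv.Perm (Fin k), ((Equiv.Perm.sign σ : ℤ) : ℝ) *
      G (List.ofFn fun i => l.get (Fin.cast h.symm (σ i))) := by
  subst h
  rfl

theorem altL_ofFn {k : ℕ} (G : List Y → ℝ) (y : Fin k → Y) :
    altL G (List.ofFn y) = (1 / (k ! : ℝ)) * ∑ σ : Equiv.Perm (Fin k),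
      ((Equiv.Perm.sign σ : ℤ) : ℝ) * G (List.ofFn fun i => y (σ i)) := by
  rw [altL_eq G (List.ofFn y) k List.length_ofFn]
  congr 1
  refine Finset.sum_congr rfl fun σ _ => ?_
  congr 3
  funext i
  rw [List.get_ofFn]
  congr 1

theorem altL_nil (G : List Y → ℝ) : altL G [] = G [] := by
  have := altL_ofFn (k := 0) G (fun i => i.elim0)
  simpa using this

theorem altL_singleton (G : List Y → ℝ) (y : Y) : altL G [y] = G [y] := by
  have := altL_ofFn (k := 1) G (fun _ => y)
  simpa using this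

theorem altL_perm {k : ℕ} (G : List Y → ℝ) (y : Fin k → Y) (π : Equiv.Perm (Fin k)) :
    altL G (List.ofFn fun i => y (π i)) =
      ((Equiv.Perm.sign π : ℤ) : ℝ) * altL G (List.ofFn y) := by
  rw [altL_ofFn, altL_ofFn]
  rw [← Equiv.sum_comp (Equiv.mulLeft π) (fun σ : Equiv.Perm (Fin k) =>
    ((Equiv.Perm.sign σ : ℤ) : ℝ) * G (List.ofFn fun i => y (σ i)))]
  have h1 : ((Equiv.Perm.sign π : ℤ) : ℝ) * ((Equiv.Perm.sign π : ℤ) : ℝ) = 1 := by
    rcases Int.units_eq_one_or (Equiv.Perm.sign π) with h | h <;> rw [h] <;> norm_num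
  rw [mul_left_comm]
  congr 1
  rw [Finset.mul_sum]
  refine Finset.sum_congr rfl fun σ _ => ?_
  rw [Equiv.coe_mulLeft, Equiv.Perm.sign_mul]
  push_cast
  have h2 : (fun i => y ((⇑π ∘ ⇑σ) i)) = fun i => y (π (σ i)) := rfl
  rw [h2]
  linear_combination (-(((Equiv.Perm.sign σ : ℤ) : ℝ) *
    G (List.ofFn fun i => y (π (σ i))))) * h1

theorem altL_add (G H : List Y → ℝ) (l : List Y) :
    altL (fun m => G m + H m) l = altL G l + altL H l := by
  unfold altL
  rw [← mul_add, ← Finset.sum_add_distrib]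
  congr 1
  exact Finset.sum_congr rfl fun σ _ => by ring

theorem altL_sub (G H : List Y → ℝ) (l : List Y) :
    altL (fun m => G m - H m) l = altL G l - altL H l := by
  unfold altL
  rw [← mul_sub, ← Finset.sum_sub_distrib]
  congr 1
  exact Finset.sum_congr rfl fun σ _ => by ring

theorem altL_smul (c : ℝ) (G : List Y → ℝ) (l : List Y) :
    altL (fun m => c * G m) l = c * altL G l := by
  unfold altL
  rw [mul_left_comm]
  congr 1
  rw [Finset.mul_sum]
  exact Finset.sum_congr rfl fun σ _ => by ring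

/-- Only the values on lists of the same length matter. -/
theorem altL_congr (G H : List Y → ℝ) (l : List Y) (h : ∀ m, m.length = l.length → G m = H m) :
    altL G l = altL H l := by
  unfold altL
  congr 1
  exact Finset.sum_congr rfl fun σ _ => by rw [h _ List.length_ofFn]

theorem altL_map {Y' : Type} (f : Y' → Y) (G : List Y → ℝ) (l : List Y') :
    altL G (l.map f) = altL (fun m => G (m.map f)) l := by
  rw [altL_eq G (l.map f) l.length (List.length_map _)]
  unfold altL
  congr 1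
  refine Finset.sum_congr rfl fun σ _ => ?_
  congr 2
  rw [List.map_ofFn]
  congr 1
  funext i
  simp

theorem abs_altL_le (G : List Y → ℝ) (C : ℝ) (l : List Y)
    (h : ∀ m, m.length = l.length → |G m| ≤ C) : |altL G l| ≤ C := by
  unfold altL
  have hpos : (0 : ℝ) < (l.length ! : ℝ) := by exact_mod_cast Nat.factorial_pos _
  rw [abs_mul, abs_of_pos (by positivity)]
  have h1 : |∑ σ : Equiv.Perm (Fin l.length), ((Equiv.Perm.sign σ : ℤ) : ℝ) *
      G (List.ofFn fun i => l.get (σ i))| ≤ (l.length ! : ℝ) * C := by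
    refine (Finset.abs_sum_le_sum_abs _ _).trans ?_
    calc ∑ σ : Equiv.Perm (Fin l.length), |((Equiv.Perm.sign σ : ℤ) : ℝ) *
          G (List.ofFn fun i => l.get (σ i))| ≤ ∑ _σ : Equiv.Perm (Fin l.length), C := by
          refine Finset.sum_le_sum fun σ _ => ?_
          rw [abs_mul]
          have h2 : |((Equiv.Perm.sign σ : ℤ) : ℝ)| = 1 := by
            rcases Int.units_eq_one_or (Equiv.Perm.sign σ) with h | h <;> rw [h] <;> norm_num
          rw [h2, one_mul]
          exact h _ List.length_ofFn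
      _ = (l.length ! : ℝ) * C := by
          rw [Finset.sum_const, Finset.card_univ, Fintype.card_perm, Fintype.card_fin, nsmul_eq_mul]
  calc 1 / (l.length ! : ℝ) * _ ≤ 1 / (l.length ! : ℝ) * ((l.length ! : ℝ) * C) :=
        mul_le_mul_of_nonneg_left h1 (by positivity)
    _ = C := by field_simp

theorem dd_altL_aux (k : ℕ) (G : List Y → ℝ) (y : Fin (k + 1) → Y) :
    ∑ σ : Equiv.Perm (Fin (k + 1)), ((Equiv.Perm.sign σ : ℤ) : ℝ) *
      G (List.ofFn fun i : Fin k => y (σ i.succ)) =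
    ∑ j : Fin (k + 1), (-1 : ℝ) ^ (j : ℕ) * ∑ τ : Equiv.Perm (Fin k),
      ((Equiv.Perm.sign τ : ℤ) : ℝ) * G (List.ofFn fun i : Fin k => y (j.succAbove (τ i))) := by
  classical
  let f : Fin (k + 1) × Equiv.Perm (Fin k) → Equiv.Perm (Fin (k + 1)) := fun q =>
    q.1.cycleRange.symm * Equiv.Perm.decomposeFin.symm (0, q.2)
  have hf0 : ∀ q, f q 0 = q.1 := by
    intro q
    simp only [f, Equiv.Perm.mul_apply, Equiv.Perm.decomposeFin_symm_apply_zero,
      Fin.cycleRange_symm_zero]
  have hinj : Function.Injective f := by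
    rintro ⟨j, τ⟩ ⟨j', τ'⟩ h
    have h0 : j = j' := by
      have := hf0 (j, τ)
      rw [h, hf0] at this
      exact this.symm
    subst h0
    have h1 : Equiv.Perm.decomposeFin.symm ((0 : Fin (k + 1)), τ)
        = Equiv.Perm.decomposeFin.symm ((0 : Fin (k + 1)), τ') := mul_left_cancel h
    have h2 := Equiv.Perm.decomposeFin.symm.injective h1
    rw [(Prod.mk.inj h2).2]
  have hbij : Function.Bijective f := by
    rw [Fintype.bijective_iff_injective_and_card]
    refine ⟨hinj, ?_⟩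
    rw [Fintype.card_prod, Fintype.card_perm, Fintype.card_perm, Fintype.card_fin,
      Fintype.card_fin, Nat.factorial_succ]
  rw [← hbij.sum_comp (fun σ : Equiv.Perm (Fin (k + 1)) => ((Equiv.Perm.sign σ : ℤ) : ℝ) *
      G (List.ofFn fun i : Fin k => y (σ i.succ)))]
  rw [Fintype.sum_prod_type]
  refine Finset.sum_congr rfl fun j _ => ?_
  rw [Finset.mul_sum]
  refine Finset.sum_congr rfl fun τ _ => ?_
  have h1 : Equiv.Perm.sign (f (j, τ)) = (-1) ^ (j : ℕ) * Equiv.Perm.sign τ := by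
    simp only [f, Equiv.Perm.sign_mul, Equiv.Perm.decomposeFin.symm_sign, if_true, one_mul,
      Equiv.Perm.sign_symm, Fin.sign_cycleRange]
  have h2 : ∀ i : Fin k, f (j, τ) i.succ = j.succAbove (τ i) := by
    intro i
    simp only [f, Equiv.Perm.mul_apply, Equiv.Perm.decomposeFin_symm_apply_succ, Equiv.swap_self,
      Equiv.refl_apply, Fin.cycleRange_symm_succ]
  simp only [h1, h2]
  push_cast
  ring

theorem dd_altL (G : List Y → ℝ) (l : List Y) : dd (altL G) l = altL (dd G) l := by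
  classical
  rcases Nat.eq_zero_or_pos l.length with hl | hl
  · rw [List.length_eq_zero_iff] at hl
    subst hl
    rw [altL_nil, dd_nil, dd_nil]
  · obtain ⟨k, hk⟩ : ∃ k, l.length = k + 1 := ⟨l.length - 1, by omega⟩
    obtain ⟨y, rfl⟩ : ∃ y : Fin (k + 1) → Y, l = List.ofFn y := by
      refine ⟨fun i => l.get (Fin.cast hk.symm i), ?_⟩
      apply List.ext_get
      · rw [List.length_ofFn, hk]
      · intro n h1 h2
        rw [List.get_ofFn]
        rfl
    rw [dd_ofFn, altL_ofFn]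
    simp only [altL_ofFn, dd_ofFn]
    have hT : ∀ i : Fin (k + 1),
        ∑ σ : Equiv.Perm (Fin (k + 1)), ((Equiv.Perm.sign σ : ℤ) : ℝ) *
          ((-1 : ℝ) ^ (i : ℕ) * G (List.ofFn fun j => y (σ (i.succAbove j))))
        = ∑ σ : Equiv.Perm (Fin (k + 1)), ((Equiv.Perm.sign σ : ℤ) : ℝ) *
          G (List.ofFn fun j : Fin k => y (σ j.succ)) := by
      intro i
      rw [← Equiv.sum_comp (Equiv.mulRight i.cycleRange.symm)
        (fun σ : Equiv.Perm (Fin (k + 1)) => ((Equiv.Perm.sign σ : ℤ) : ℝ) *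
          G (List.ofFn fun j : Fin k => y (σ j.succ)))]
      refine Finset.sum_congr rfl fun σ _ => ?_
      rw [Equiv.coe_mulRight, Equiv.Perm.sign_mul, Equiv.Perm.sign_symm, Fin.sign_cycleRange]
      have h2 : (fun j : Fin k => y ((σ * i.cycleRange.symm) j.succ))
          = fun j => y (σ (i.succAbove j)) := by
        funext j
        rw [Equiv.Perm.mul_apply, Fin.cycleRange_symm_succ]
      rw [h2]
      push_cast
      ring
    have hsum : ∑ σ : Equiv.Perm (Fin (k + 1)), ((Equiv.Perm.sign σ : ℤ) : ℝ) *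
          ∑ i : Fin (k + 1), (-1 : ℝ) ^ (i : ℕ) * G (List.ofFn fun j => y (σ (i.succAbove j)))
        = ((k : ℝ) + 1) * ∑ σ : Equiv.Perm (Fin (k + 1)), ((Equiv.Perm.sign σ : ℤ) : ℝ) *
          G (List.ofFn fun j : Fin k => y (σ j.succ)) := by
      simp only [Finset.mul_sum]
      rw [Finset.sum_comm]
      have : ∀ i ∈ (Finset.univ : Finset (Fin (k + 1))),
          ∑ σ : Equiv.Perm (Fin (k + 1)), ((Equiv.Perm.sign σ : ℤ) : ℝ) *
          ((-1 : ℝ) ^ (i : ℕ) * G (List.ofFn fun j => y (σ (i.succAbove j))))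
          = ∑ σ : Equiv.Perm (Fin (k + 1)), ((Equiv.Perm.sign σ : ℤ) : ℝ) *
          G (List.ofFn fun j : Fin k => y (σ j.succ)) := fun i _ => hT i
      rw [Finset.sum_congr rfl this, Finset.sum_const, Finset.card_univ, Fintype.card_fin,
        nsmul_eq_mul, Finset.mul_sum]
      push_cast
      rfl
    rw [hsum, dd_altL_aux, Nat.factorial_succ]
    rw [Finset.mul_sum, Finset.mul_sum]
    refine Finset.sum_congr rfl fun j _ => ?_
    have hk0 : (k ! : ℝ) ≠ 0 := by exact_mod_cast (Nat.factorial_pos k).ne'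
    push_cast
    field_simp

end SimplVol
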