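import Pool.Agent.H54.RT.LD

/-!
# Module AW: front faces and back faces

`aw G [(x₀,y₀), …, (x_k,y_k)] = ∑_{p=0}^{k} G [x₀,…,x_p] [y_p,…,y_k]`.
PROOF of `aw_dtot`. Induction on `l`, for all `G`, starting with one-element lists. Write `l = z :: l'`, `x = z.1`,
`y = z.2`, `ys' = l'.map Prod.snd`, `G_x a b := G (x :: a) b`. For nonempty `a`:
 dtot G (x :: a) b = dd (fun u => G u b) (x :: a) + (-1)^|a| dd (G (x :: a)) b = G a b - dtot G_x a b
(as `dd (fun u => G u b) (x :: a) = G a b - dd (fun u => G_x u b) a` and `(-1)^|a| = -(-1)^(|a|-1)`).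
Case `l' = []`: both sides are `G [] [y] + G [x] []` (note `aw G [] = 0`).
Case `l' ≠ []`: in `aw (fun a b => dtot G (x :: a) b) l'` only nonempty `a`, `b` occur (`aw_congr`), so it is
 `aw G l' - aw (dtot G_x) l'`, and by induction `aw (dtot G_x) l' = dd (aw G_x) l' + G [x] ys' + (-1)^(|l'|-1) G (x :: xs') []`.
 `dtot G [x] (y :: ys') = G [] (y :: ys') + G [x] ys' - dd (fun b => G [x] (y :: b)) ys'`.
 `dd (aw G) (z :: l') = aw G l' - dd (fun m => G [x] (y :: m.map snd) + aw G_x m) l'`
 `= aw G l' - dd (fun b => G [x] (y :: b)) ys' - dd (aw G_x) l'` (`dd_map`).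
 Subtract: `aw (dtot G) l - dd (aw G) l = G [] (y :: ys') - (-1)^(|l'|-1) G (x :: xs') []`, and `-(-1)^(|l'|-1) = (-1)^(|l|-1)`.
-/

set_option autoImplicit false

open scoped BigOperators Nat

namespace SimplVol

variable {S Y : Type}

/-- The sum over all decompositions into a front face and a back face. -/
def aw : (List S → List Y → ℝ) → List (S × Y) → ℝ
  | _, [] => 0
  | G, z :: l => G [z.1] (z.2 :: l.map Prod.snd) + aw (fun a b => G (z.1 :: a) b) l

theorem aw_nil (G : List S → List Y → ℝ) : aw G [] = 0 := rfl

theorem aw_cons (G : List S → List Y → ℝ) (z : S × Y) (l : List (S × Y)) :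
    aw G (z :: l) = G [z.1] (z.2 :: l.map Prod.snd) + aw (fun a b => G (z.1 :: a) b) l := rfl

/-- The total coboundary. -/
def dtot (G : List S → List Y → ℝ) (a : List S) (b : List Y) : ℝ :=
  dd (fun u => G u b) a + (-1) ^ (a.length - 1) * dd (G a) b

theorem aw_add (G H : List S → List Y → ℝ) (l : List (S × Y)) :
    aw (fun a b => G a b + H a b) l = aw G l + aw H l := by
  induction l generalizing G H with
  | nil => simp [aw_nil]
  | cons z l ih =>
    rw [aw_cons, aw_cons, aw_cons, ih (fun a b => G (z.1 :: a) b) (fun a b => H (z.1 :: a) b)]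
    ring

theorem aw_sub (G H : List S → List Y → ℝ) (l : List (S × Y)) :
    aw (fun a b => G a b - H a b) l = aw G l - aw H l := by
  induction l generalizing G H with
  | nil => simp [aw_nil]
  | cons z l ih =>
    rw [aw_cons, aw_cons, aw_cons, ih (fun a b => G (z.1 :: a) b) (fun a b => H (z.1 :: a) b)]
    ring

theorem aw_smul (c : ℝ) (G : List S → List Y → ℝ) (l : List (S × Y)) :
    aw (fun a b => c * G a b) l = c * aw G l := by
  induction l generalizing G with
  | nil => simp [aw_nil]
  | cons z l ih =>
    rw [aw_cons, aw_cons, ih (fun a b => G (z.1 :: a) b)]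
    ring

/-- The explicit formula. -/
theorem aw_eq_sum (G : List S → List Y → ℝ) (l : List (S × Y)) :
    aw G l = ∑ p ∈ Finset.range l.length,
      G ((l.map Prod.fst).take (p + 1)) ((l.map Prod.snd).drop p) := by
  induction l generalizing G with
  | nil => simp [aw_nil]
  | cons z l ih =>
    rw [aw_cons, ih, List.length_cons, Finset.sum_range_succ']
    simp only [List.map_cons, List.take_succ_cons, List.drop_succ_cons, List.drop_zero,
      List.take_zero]
    ring

/-- Only nonempty front faces `a` and back faces `b` with `|a| + |b| = |l| + 1` occur. -/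
theorem aw_congr (G H : List S → List Y → ℝ) (l : List (S × Y))
    (h : ∀ (a : List S) (b : List Y), a ≠ [] → b ≠ [] → a.length + b.length = l.length + 1 →
      a <+: l.map Prod.fst → b <:+ l.map Prod.snd → G a b = H a b) : aw G l = aw H l := by
  rw [aw_eq_sum, aw_eq_sum]
  refine Finset.sum_congr rfl fun p hp => ?_
  rw [Finset.mem_range] at hp
  have h1 : ((l.map Prod.fst).take (p + 1)).length = p + 1 := by
    rw [List.length_take, List.length_map]
    omega
  have h2 : ((l.map Prod.snd).drop p).length = l.length - p := by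
    rw [List.length_drop, List.length_map]
  refine h _ _ ?_ ?_ ?_ (List.take_prefix _ _) (List.drop_suffix _ _)
  · intro e
    rw [e, List.length_nil] at h1
    omega
  · intro e
    rw [e, List.length_nil] at h2
    omega
  · rw [h1, h2]
    omega

/-- Naturality. -/
theorem aw_map {S' Y' : Type} (f : S' → S) (g : Y' → Y) (G : List S → List Y → ℝ)
    (l : List (S' × Y')) :
    aw G (l.map (Prod.map f g)) = aw (fun a b => G (a.map f) (b.map g)) l := by
  induction l generalizing G with
  | nil => rfl
  | cons z l ih =>
    have h1 : (l.map (Prod.map f g)).map Prod.snd = (l.map Prod.snd).map g := by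
      rw [List.map_map, List.map_map]
      rfl
    rw [List.map_cons, aw_cons, aw_cons, ih, h1]
    rfl

theorem abs_aw_le (G : List S → List Y → ℝ) (C : ℝ) (l : List (S × Y))
    (h : ∀ (a : List S) (b : List Y), a ≠ [] → b ≠ [] → a.length + b.length = l.length + 1 →
      |G a b| ≤ C) : |aw G l| ≤ l.length * C := by
  rw [aw_eq_sum]
  refine (Finset.abs_sum_le_sum_abs _ _).trans ?_
  have h3 : ∑ p ∈ Finset.range l.length,
      |G ((l.map Prod.fst).take (p + 1)) ((l.map Prod.snd).drop p)| ≤
      ∑ _p ∈ Finset.range l.length, C := by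
    refine Finset.sum_le_sum fun p hp => ?_
    rw [Finset.mem_range] at hp
    have h1 : ((l.map Prod.fst).take (p + 1)).length = p + 1 := by
      rw [List.length_take, List.length_map]
      omega
    have h2 : ((l.map Prod.snd).drop p).length = l.length - p := by
      rw [List.length_drop, List.length_map]
    refine h _ _ ?_ ?_ ?_
    · intro e
      rw [e, List.length_nil] at h1
      omega
    · intro e
      rw [e, List.length_nil] at h2
      omega
    · rw [h1, h2]
      omega
  rw [Finset.sum_const, Finset.card_range, nsmul_eq_mul] at h3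
  exact h3

theorem aw_dtot (G : List S → List Y → ℝ) (l : List (S × Y)) (hl : l ≠ []) :
    aw (dtot G) l = dd (aw G) l + G [] (l.map Prod.snd) +
      (-1) ^ (l.length - 1) * G (l.map Prod.fst) [] := by
  induction l generalizing G with
  | nil => exact absurd rfl hl
  | cons z l ih =>
    by_cases h0 : l = []
    · subst h0
      rw [aw_cons, aw_nil, dd_cons, dd_nil, aw_nil]
      show dtot G [z.1] [z.2] + 0 = 0 - 0 + G [] [z.2] + (-1) ^ 0 * G [z.1] []
      unfold dtot
      rw [dd_cons, dd_cons, dd_nil, dd_nil]
      simp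
    · have hlen : 1 ≤ l.length := by
        rcases l with _ | ⟨w, l⟩
        · exact absurd rfl h0
        · rw [List.length_cons]
          omega
      have hih := ih (fun a b => G (z.1 :: a) b) h0
      have h1 : aw (fun a b => dtot G (z.1 :: a) b) l =
          aw G l - aw (dtot (fun a b => G (z.1 :: a) b)) l := by
        rw [← aw_sub]
        refine aw_congr _ _ _ ?_
        intro a b ha _ _ _ _
        have hal : 1 ≤ a.length := by
          rcases a with _ | ⟨w, a⟩
          · exact absurd rfl ha
          · rw [List.length_cons]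
            omega
        unfold dtot
        rw [dd_cons, List.length_cons, Nat.add_sub_cancel]
        have hp : (-1 : ℝ) ^ a.length = -(-1) ^ (a.length - 1) := by
          obtain ⟨k, hk⟩ : ∃ k, a.length = k + 1 := ⟨a.length - 1, by omega⟩
          rw [hk, Nat.add_sub_cancel, pow_succ]
          ring
        rw [hp]
        ring
      have h2 : dtot G [z.1] (z.2 :: l.map Prod.snd) = G [] (z.2 :: l.map Prod.snd) +
          G [z.1] (l.map Prod.snd) - dd (fun b => G [z.1] (z.2 :: b)) (l.map Prod.snd) := by
        unfold dtot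
        rw [dd_cons, dd_nil, dd_cons, List.length_singleton, Nat.sub_self, pow_zero]
        ring
      have h3 : dd (aw G) (z :: l) = aw G l - (dd (fun b => G [z.1] (z.2 :: b)) (l.map Prod.snd) +
          dd (aw (fun a b => G (z.1 :: a) b)) l) := by
        rw [dd_cons, ← dd_map Prod.snd (fun b => G [z.1] (z.2 :: b)) l, ← dd_add]
        rfl
      have hp : (-1 : ℝ) ^ l.length = -(-1) ^ (l.length - 1) := by
        obtain ⟨k, hk⟩ : ∃ k, l.length = k + 1 := ⟨l.length - 1, by omega⟩
        rw [hk, Nat.add_sub_cancel, pow_succ]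
        ring
      rw [aw_cons, h1, h2, h3, hih, List.length_cons, Nat.add_sub_cancel, List.map_cons,
        List.map_cons, hp]
      ring

end SimplVol
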