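import Pool.Agent.H54.RT.CF

/-!
# Module BD: deletion of a leaf from a plane rooted tree

`t.wf u i` is the word of the path to `i` when the edge above the subtree with leaf set `B` has the word `u B`; `t.wd v = t.wf (v ∘ spl)`.
`resF ι A = {j | ι j ∈ A}`.
* `key_res`: if `Key τ A` and `resF ι A`, its complement are nonempty then `Key (τ.pull ι) (resF ι A)`: if `A = {i}` or `Aᶜ = {i}` then `resF ι A` (or its complement) is a singleton; if `spl A ∈ τ.l`: `resS ι (spl A) = spl (resF ι A)`; if it is `NT` it is in `(τ.pull ι).l`, else one of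
  the two classes has at most one element.
* `coincide` : two pairs `(insert c B, B)`, `(insert c D, D)` of keys with `B, D` nonempty, `c, ρ ∉ B, D`, `c ≠ ρ`, are equal: `insert c B`, `insert c D` are nested (`key_nested`, common element `c`), say `insert c B ⊆ insert c D`, so `B ⊆ D`; if `d ∈ D \ B`, `b ∈ B`: `D ∋ b, d`, `∌ c, ρ`; `insert c B ∋ b, c`, `∌ d, ρ`:
  `Sep (spl D) b d c ρ`, `Sep (spl (insert c B)) b c d ρ`, both in `τ.l` by `key_sep`, against `τ.excl`.
* `delete` (induction on `t`): Let `Rep τ t`, `ρ ∉ t.lv`, `c ∈ t.lv`, `t ≠ leaf c`, `Key τ t.lv`, `c = c₀` with `ι = Fin.succAboveEmb c`. There are `A` with `c ∈ A ⊆ t.lv`, `A.erase c` nonempty, `Key τ A`, `Key τ (A.erase c)`, `b : Bool`, and `t' : BT k` with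
  `Rep (τ.pull ι) t'`, `t'.lv = resF ι t.lv`, and for all `u`, `i` with `ι i ∈ t.lv`: `t'.wf (delU τ c A b u) i = t.wf u (ι i)`, where `delU τ c A b u B' = let B := B'.map ι; if B = A.erase c then u A ++ [b] ++ u B else if Key τ (insert c B) then u (insert c B) else u B`.
  Case `t = node (leaf c) y`: `A = t.lv`, `b = true` (`y` is the right child), `t' =` the tree `y` relabelled (`BT.relabel`: a tree `t'` with `t'.map ι = y` exists as `c ∉ y.lv`; `exists_unmap`). For the subtrees `B` of `y` other than `y` itself, `insert c B` is not a key (`coincide`: `(A, A.erase c)`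
  is such a pair and `B` is a key, `B ≠ A.erase c`), so the words are `u B`; for `y` itself the word is `u A ++ [true] ++ u y.lv`. `t.wf u (ι i) = u A ++ true :: y.wf u (ι i)`.
  Case `t = node x (leaf c)`: the same with `b = false`.
  Case `t = node x y`, `c ∈ x.lv`, `x ≠ leaf c`: induction hypothesis for `x` gives `A ⊆ x.lv`, `b`, `x'`; `y'` with `y'.map ι = y`; `t' = node x' y'`. The word of `t'` for `B' = t'.lv`, `B = t.lv.erase c`: `B ≠ A.erase c` (`B` contains the elements of `y.lv`), `insert c B = t.lv` is a key, so it is `u t.lv`. Subtrees of `y'`: `B ⊆ y.lv`,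
  `B ≠ A.erase c`, `insert c B` is not a key (`coincide`), so `u B`. Order condition of `Rep` for `t'`: the points outside come from points outside. Case `c ∈ y.lv`, `y ≠ leaf c`: the same.
-/

set_option autoImplicit false

open scoped BigOperators

namespace SimplVol

/-- The word of the path to a leaf for words given for sets. -/
def BT.wf {m : ℕ} (u : Finset (Fin m) → Wd) : BT m → Fin m → Wd
  | .leaf j, _ => u {j}
  | .node x y, i => u (x.lv ∪ y.lv) ++
      (if i ∈ x.lv then false :: x.wf u i else true :: y.wf u i)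

theorem wd_eq_wf {m : ℕ} (v : Split m → Wd) (t : BT m) (i : Fin m) :
    t.wd v i = t.wf (fun B => v (spl B)) i := by
  induction t with
  | leaf j => rfl
  | node x y hx hy => simp only [BT.wd, BT.wf, hx, hy]

/-- Relabelling the leaves. -/
def BT.mapL {k m : ℕ} (ι : Fin k ↪ Fin m) : BT k → BT m
  | .leaf i => .leaf (ι i)
  | .node x y => .node (x.mapL ι) (y.mapL ι)

theorem lv_mapL {k m : ℕ} (ι : Fin k ↪ Fin m) (t : BT k) : (t.mapL ι).lv = t.lv.map ι := by
  induction t with
  | leaf j => simp [BT.mapL, BT.lv]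
  | node x y hx hy => simp only [BT.mapL, BT.lv, hx, hy, Finset.map_union]

theorem exists_unmap {k m : ℕ} (ι : Fin k ↪ Fin m) (t : BT m) (h : ∀ i ∈ t.lv, ∃ j, ι j = i) :
    ∃ t' : BT k, t'.mapL ι = t := by
  induction t with
  | leaf i =>
    obtain ⟨j, hj⟩ := h i (by simp [BT.lv])
    exact ⟨.leaf j, by simp [BT.mapL, hj]⟩
  | node x y hx hy =>
    obtain ⟨x', hx'⟩ := hx fun i hi => h i (Finset.mem_union_left _ hi)
    obtain ⟨y', hy'⟩ := hy fun i hi => h i (Finset.mem_union_right _ hi)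
    exact ⟨.node x' y', by simp [BT.mapL, hx', hy']⟩

theorem wf_mapL {k m : ℕ} (ι : Fin k ↪ Fin m) (t : BT k) (u : Finset (Fin m) → Wd) (i : Fin k) :
    (t.mapL ι).wf u (ι i) = t.wf (fun B => u (B.map ι)) i := by
  induction t with
  | leaf j => simp [BT.mapL, BT.wf]
  | node x y hx hy =>
    simp only [BT.mapL, BT.wf, hx, hy, lv_mapL, Finset.map_union, Finset.mem_map']

/-- The restriction of a set of leaves. -/
def resF {k m : ℕ} (ι : Fin k ↪ Fin m) (A : Finset (Fin m)) : Finset (Fin k) :=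
  Finset.univ.filter fun j => ι j ∈ A

theorem BD_mem_resF {k m : ℕ} (ι : Fin k ↪ Fin m) (A : Finset (Fin m)) (j : Fin k) :
    j ∈ resF ι A ↔ ι j ∈ A := by
  simp [resF]

theorem resS_spl {k m : ℕ} (ι : Fin k ↪ Fin m) (A : Finset (Fin m)) :
    resS ι (spl A) = spl (resF ι A) := by
  funext a b
  simp only [resS, spl, BD_mem_resF]

theorem BD_sep {m : ℕ} {A : Finset (Fin m)} {a b c d : Fin m} (ha : a ∈ A) (hb : b ∈ A)
    (hc : c ∉ A) (hd : d ∉ A) : Sep (spl A) a b c d := by
  refine ⟨?_, ?_, ?_⟩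
  · simp [spl, ha, hb]
  · simp [spl, hc, hd]
  · simp [spl, ha, hc]

theorem BD_single {m : ℕ} {C : Finset (Fin m)} (h : C.Nonempty)
    (h1 : ¬ ∃ a ∈ C, ∃ b ∈ C, a ≠ b) : ∃ j, C = {j} := by
  obtain ⟨j, hj⟩ := h
  refine ⟨j, Finset.eq_singleton_iff_unique_mem.mpr ⟨hj, fun x hx => ?_⟩⟩
  by_contra hne
  exact h1 ⟨x, hx, j, hj, hne⟩

theorem key_res {k m : ℕ} (τ : RTree m) (ι : Fin k ↪ Fin m) (A : Finset (Fin m)) (h : Key τ A)
    (h1 : (resF ι A).Nonempty) (h2 : (resF ι A)ᶜ.Nonempty) : Key (τ.pull ι) (resF ι A) := by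
  by_cases hC : ∃ a ∈ resF ι A, ∃ b ∈ resF ι A, a ≠ b
  · by_cases hD : ∃ a ∈ (resF ι A)ᶜ, ∃ b ∈ (resF ι A)ᶜ, a ≠ b
    · obtain ⟨a, ha, b, hb, hab⟩ := hC
      obtain ⟨c, hc, d, hd, hcd⟩ := hD
      rw [Finset.mem_compl] at hc hd
      have hnt : NT (spl (resF ι A)) := ⟨a, b, c, d, hab, hcd, BD_sep ha hb hc hd⟩
      rw [BD_mem_resF] at ha hb hc hd
      have hs : spl A ∈ τ.l := key_sep τ A h (ι a) (ι b) (ι c) (ι d) ha hb
        (fun h => hab (ι.injective h)) hc hd (fun h => hcd (ι.injective h))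
      right
      right
      change spl (resF ι A) ∈ ((τ.l.map (resS ι)).filter fun s => decide (NT s)).dedup
      rw [List.mem_dedup, List.mem_filter, List.mem_map]
      exact ⟨⟨spl A, hs, resS_spl ι A⟩, decide_eq_true hnt⟩
    · right
      left
      exact BD_single h2 hD
  · left
    exact BD_single h1 hC

theorem BD_coin {m : ℕ} (τ : RTree m) (c ρ : Fin m) (hc : c ≠ ρ) (B D : Finset (Fin m))
    (hB : B.Nonempty) (h1 : c ∉ B) (h2 : ρ ∉ B) (h3 : c ∉ D) (h4 : ρ ∉ D)
    (k2 : Key τ (insert c B)) (k3 : Key τ D) (hs : insert c B ⊆ insert c D) : B = D := by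
  have hBD : B ⊆ D := by
    intro x hx
    have h5 := hs (Finset.mem_insert_of_mem hx)
    rcases Finset.mem_insert.mp h5 with h6 | h6
    · exact absurd (h6 ▸ hx) h1
    · exact h6
  by_contra hne
  obtain ⟨d, hd, hdB⟩ : ∃ d ∈ D, d ∉ B := by
    by_contra hcon
    push Not at hcon
    exact hne (Finset.Subset.antisymm hBD hcon)
  obtain ⟨b, hb⟩ := hB
  have hbd : b ≠ d := fun h => hdB (h ▸ hb)
  have hbc : b ≠ c := fun h => h1 (h ▸ hb)
  have hdc : d ≠ c := fun h => h3 (h ▸ hd)
  have hdρ : d ≠ ρ := fun h => h4 (h ▸ hd)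
  have hd' : d ∉ insert c B := by
    rw [Finset.mem_insert]
    push Not
    exact ⟨hdc, hdB⟩
  have hρ' : ρ ∉ insert c B := by
    rw [Finset.mem_insert]
    push Not
    exact ⟨fun h => hc h.symm, h2⟩
  have hb' : b ∈ insert c B := Finset.mem_insert_of_mem hb
  have hc' : c ∈ insert c B := Finset.mem_insert_self _ _
  have s1 : spl D ∈ τ.l := key_sep τ D k3 b d c ρ (hBD hb) hd hbd h3 h4 hc
  have s2 : spl (insert c B) ∈ τ.l := key_sep τ _ k2 b c d ρ hb' hc' hbc hd' hρ' hdρ
  exact τ.excl _ s1 _ s2 b d c ρ (BD_sep (hBD hb) hd h3 h4) (BD_sep hb' hc' hd' hρ')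

theorem coincide {m : ℕ} (τ : RTree m) (c ρ : Fin m) (hc : c ≠ ρ) (B D : Finset (Fin m))
    (hB : B.Nonempty) (hD : D.Nonempty) (h1 : c ∉ B) (h2 : ρ ∉ B) (h3 : c ∉ D) (h4 : ρ ∉ D)
    (k1 : Key τ B) (k2 : Key τ (insert c B)) (k3 : Key τ D) (k4 : Key τ (insert c D)) : B = D := by
  have hr : ∀ C : Finset (Fin m), ρ ∉ C → ρ ∉ insert c C := by
    intro C hC
    rw [Finset.mem_insert]
    push Not
    exact ⟨fun h => hc h.symm, hC⟩
  rcases key_nested τ _ _ k2 k4 ρ c (hr B h2) (hr D h4) (Finset.mem_insert_self _ _)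
    (Finset.mem_insert_self _ _) with h | h
  · exact BD_coin τ c ρ hc B D hB h1 h2 h3 h4 k2 k3 h
  · exact (BD_coin τ c ρ hc D B hD h3 h4 h1 h2 k4 k1 h).symm

open Classical in
/-- The words after the deletion of the leaf `c`. -/
noncomputable def delU {k : ℕ} (τ : RTree (k + 1)) (c : Fin (k + 1)) (A : Finset (Fin (k + 1)))
    (b : Bool) (u : Finset (Fin (k + 1)) → Wd) (B' : Finset (Fin k)) : Wd :=
  if B'.map (Fin.succAboveEmb c) = A.erase c then u A ++ [b] ++ u (A.erase c)
  else if Key τ (insert c (B'.map (Fin.succAboveEmb c))) then u (insert c (B'.map (Fin.succAboveEmb c)))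
  else u (B'.map (Fin.succAboveEmb c))

open Classical in
/-- The same on sets of leaves of the large tree. -/
noncomputable def BD_D {k : ℕ} (τ : RTree (k + 1)) (c : Fin (k + 1)) (A : Finset (Fin (k + 1)))
    (b : Bool) (u : Finset (Fin (k + 1)) → Wd) (B : Finset (Fin (k + 1))) : Wd :=
  if B = A.erase c then u A ++ [b] ++ u (A.erase c)
  else if Key τ (insert c B) then u (insert c B) else u B

theorem BD_wf_del {k : ℕ} (τ : RTree (k + 1)) (c : Fin (k + 1)) (A : Finset (Fin (k + 1)))
    (b : Bool) (u : Finset (Fin (k + 1)) → Wd) (t' : BT k) (i : Fin k) :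
    t'.wf (delU τ c A b u) i =
      (t'.mapL (Fin.succAboveEmb c)).wf (BD_D τ c A b u) (Fin.succAboveEmb c i) := by
  rw [wf_mapL]
  rfl

/-- The word without the word of the root edge. -/
def BD_wf0 {m : ℕ} (u : Finset (Fin m) → Wd) : BT m → Fin m → Wd
  | .leaf _, _ => []
  | .node x y, i => if i ∈ x.lv then false :: x.wf u i else true :: y.wf u i

theorem BD_wf_eq {m : ℕ} (u : Finset (Fin m) → Wd) (t : BT m) (i : Fin m) :
    t.wf u i = u t.lv ++ BD_wf0 u t i := by
  cases t with
  | leaf j => simp [BT.wf, BT.lv, BD_wf0]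
  | node x y => rfl

theorem BD_congr {m : ℕ} (τ : RTree m) (u u' : Finset (Fin m) → Wd) (t : BT m) (i : Fin m)
    (ht : Rep τ t) (hk : Key τ t.lv)
    (h : ∀ B : Finset (Fin m), B ⊆ t.lv → B.Nonempty → Key τ B → u B = u' B) :
    t.wf u i = t.wf u' i := by
  induction t with
  | leaf j => exact h {j} (by simp [BT.lv]) (Finset.singleton_nonempty j) (Or.inl ⟨j, rfl⟩)
  | node x y hx hy =>
    obtain ⟨h1, h2, h3, h4, h5, h6⟩ := ht
    have e1 := hx h5 h3 fun B hB => h B (hB.trans Finset.subset_union_left)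
    have e2 := hy h6 h4 fun B hB => h B (hB.trans Finset.subset_union_right)
    have e3 := h _ (Finset.Subset.refl _) (BT.lv_nonempty (.node x y)) hk
    simp only [BT.wf, e1, e2]
    rw [show u (x.lv ∪ y.lv) = u' (x.lv ∪ y.lv) from e3]

theorem BD_congr0 {m : ℕ} (τ : RTree m) (u u' : Finset (Fin m) → Wd) (t : BT m) (i : Fin m)
    (ht : Rep τ t)
    (h : ∀ B : Finset (Fin m), B ⊆ t.lv → B ≠ t.lv → B.Nonempty → Key τ B → u B = u' B) :
    BD_wf0 u t i = BD_wf0 u' t i := by
  cases t with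
  | leaf j => rfl
  | node x y =>
    obtain ⟨h1, h2, h3, h4, h5, h6⟩ := ht
    have e1 := BD_congr τ u u' x i h5 h3 fun B hB hn hkB => by
      refine h B (hB.trans Finset.subset_union_left) ?_ hn hkB
      intro he
      obtain ⟨z, hz⟩ := y.lv_nonempty
      have hz2 : z ∈ B := by
        rw [he]
        exact Finset.mem_union_right _ hz
      exact Finset.disjoint_left.mp h1 (hB hz2) hz
    have e2 := BD_congr τ u u' y i h6 h4 fun B hB hn hkB => by
      refine h B (hB.trans Finset.subset_union_right) ?_ hn hkB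
      intro he
      obtain ⟨z, hz⟩ := x.lv_nonempty
      have hz2 : z ∈ B := by
        rw [he]
        exact Finset.mem_union_left _ hz
      exact Finset.disjoint_left.mp h1 hz (hB hz2)
    simp only [BD_wf0, e1, e2]

theorem BD_resF_map {k m : ℕ} (ι : Fin k ↪ Fin m) (A : Finset (Fin k)) :
    resF ι (A.map ι) = A := by
  ext j
  rw [BD_mem_resF, Finset.mem_map']

theorem BD_rep {k m : ℕ} (τ : RTree m) (ι : Fin k ↪ Fin m) (t : BT k) (h : Rep τ (t.mapL ι)) :
    Rep (τ.pull ι) t := by
  induction t with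
  | leaf j => trivial
  | node x y hx hy =>
    obtain ⟨h1, h2, h3, h4, h5, h6⟩ := h
    rw [lv_mapL] at h1 h2 h3 h4
    rw [lv_mapL] at h1 h2
    have hd : Disjoint x.lv y.lv := (Finset.disjoint_map ι).mp h1
    have kx := key_res τ ι _ h3
    have ky := key_res τ ι _ h4
    rw [BD_resF_map] at kx ky
    refine ⟨hd, ?_, kx x.lv_nonempty ?_, ky y.lv_nonempty ?_, hx h5, hy h6⟩
    · intro a ha b hb c hc1 hc2
      exact h2 (ι a) ((Finset.mem_map' ι).mpr ha) (ι b) ((Finset.mem_map' ι).mpr hb) (ι c)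
        (fun h => hc1 ((Finset.mem_map' ι).mp h)) (fun h => hc2 ((Finset.mem_map' ι).mp h))
    · obtain ⟨z, hz⟩ := y.lv_nonempty
      exact ⟨z, Finset.mem_compl.mpr (Finset.disjoint_right.mp hd hz)⟩
    · obtain ⟨z, hz⟩ := x.lv_nonempty
      exact ⟨z, Finset.mem_compl.mpr (Finset.disjoint_left.mp hd hz)⟩

theorem BD_unmap {k : ℕ} (c : Fin (k + 1)) (t : BT (k + 1)) (h : c ∉ t.lv) :
    ∃ t' : BT k, t'.mapL (Fin.succAboveEmb c) = t := by
  apply exists_unmap
  intro i hi
  have hic : i ≠ c := fun he => h (he ▸ hi)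
  exact Fin.exists_succAbove_eq hic

theorem BD_lv_unmap {k : ℕ} (c : Fin (k + 1)) (t : BT (k + 1)) (t' : BT k)
    (h : t'.mapL (Fin.succAboveEmb c) = t) : t'.lv = resF (Fin.succAboveEmb c) t.lv := by
  rw [← h, lv_mapL, BD_resF_map]

theorem BD_ne {k : ℕ} (c : Fin (k + 1)) (i : Fin k) : Fin.succAboveEmb c i ≠ c :=
  Fin.succAbove_ne c i

/-- The value of `D` on a key that does not come from `A`. -/
theorem BD_D_other {k : ℕ} (τ : RTree (k + 1)) (c ρ : Fin (k + 1)) (hc : c ≠ ρ)
    (A : Finset (Fin (k + 1))) (b : Bool) (u : Finset (Fin (k + 1)) → Wd)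
    (B : Finset (Fin (k + 1))) (hcA : c ∈ A) (hρA : ρ ∉ A) (hA : (A.erase c).Nonempty)
    (kA : Key τ A) (kE : Key τ (A.erase c)) (hB : B.Nonempty) (hcB : c ∉ B) (hρB : ρ ∉ B)
    (kB : Key τ B) (hne : B ≠ A.erase c) : BD_D τ c A b u B = u B := by
  unfold BD_D
  rw [if_neg hne, if_neg]
  intro hk
  apply hne
  apply coincide τ c ρ hc B (A.erase c) hB hA hcB hρB (Finset.notMem_erase c A)
    (fun h => hρA (Finset.mem_of_mem_erase h)) kB hk kE
  rw [Finset.insert_erase hcA]
  exact kA

/-- The case of a child which is the leaf `c`. -/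
theorem BD_child {k : ℕ} (τ : RTree (k + 1)) (c ρ : Fin (k + 1)) (hc : c ≠ ρ) (y : BT (k + 1))
    (hy : Rep τ y) (ky : Key τ y.lv) (hcy : c ∉ y.lv) (hρy : ρ ∉ y.lv)
    (kA : Key τ (insert c y.lv)) (b : Bool) :
    ∃ t' : BT k, Rep (τ.pull (Fin.succAboveEmb c)) t' ∧
      t'.lv = resF (Fin.succAboveEmb c) (insert c y.lv) ∧
      ∀ (u : Finset (Fin (k + 1)) → Wd) (i : Fin k),
        t'.wf (delU τ c (insert c y.lv) b u) i =
          u (insert c y.lv) ++ (b :: y.wf u (c.succAbove i)) := by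
  obtain ⟨y', hy'⟩ := BD_unmap c y hcy
  have he : (insert c y.lv).erase c = y.lv := Finset.erase_insert hcy
  refine ⟨y', BD_rep τ _ y' (by rw [hy']; exact hy), ?_, ?_⟩
  · rw [BD_lv_unmap c y y' hy']
    ext j
    rw [BD_mem_resF, BD_mem_resF, Finset.mem_insert]
    constructor
    · exact fun h => Or.inr h
    · rintro (h | h)
      · exact absurd h (BD_ne c j)
      · exact h
  · intro u i
    rw [BD_wf_del, hy', BD_wf_eq]
    have h1 : BD_D τ c (insert c y.lv) b u y.lv = u (insert c y.lv) ++ [b] ++ u y.lv := by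
      unfold BD_D
      rw [if_pos he.symm, he]
    have h2 : BD_wf0 (BD_D τ c (insert c y.lv) b u) y (Fin.succAboveEmb c i) =
        BD_wf0 u y (Fin.succAboveEmb c i) := by
      apply BD_congr0 τ _ _ y _ hy
      intro B hB hne hn kB
      refine BD_D_other τ c ρ hc _ b u B (Finset.mem_insert_self _ _) ?_ ?_ kA ?_ hn
        (fun h => hcy (hB h)) (fun h => hρy (hB h)) kB ?_
      · rw [Finset.mem_insert]
        push Not
        exact ⟨fun h => hc h.symm, hρy⟩
      · rw [he]
        exact y.lv_nonempty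
      · rw [he]
        exact ky
      · rw [he]
        exact hne
    rw [h1, h2]
    have h3 : y.wf u (c.succAbove i) = u y.lv ++ BD_wf0 u y (Fin.succAboveEmb c i) :=
      BD_wf_eq u y _
    rw [h3]
    simp

/-- The words in a subtree which does not contain `c`. -/
theorem BD_away {k : ℕ} (τ : RTree (k + 1)) (c ρ : Fin (k + 1)) (hc : c ≠ ρ) (x y : BT (k + 1))
    (y' : BT k) (hy : Rep τ y) (ky : Key τ y.lv) (hcy : c ∉ y.lv) (hρx : ρ ∉ x.lv)
    (hρy : ρ ∉ y.lv) (hd : Disjoint x.lv y.lv) (hy' : y'.mapL (Fin.succAboveEmb c) = y)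
    (A : Finset (Fin (k + 1))) (b : Bool) (hcA : c ∈ A) (hAx : A ⊆ x.lv)
    (hA : (A.erase c).Nonempty) (kA : Key τ A) (kE : Key τ (A.erase c))
    (u : Finset (Fin (k + 1)) → Wd) (i : Fin k) :
    y'.wf (delU τ c A b u) i = y.wf u (c.succAbove i) := by
  rw [BD_wf_del, hy']
  apply BD_congr τ _ _ y _ hy ky
  intro B hB hn kB
  apply BD_D_other τ c ρ hc A b u B hcA (fun h => hρx (hAx h)) hA kA kE hn
    (fun h => hcy (hB h)) (fun h => hρy (hB h)) kB
  intro he
  obtain ⟨z, hz⟩ := hn
  have h1 : z ∈ A.erase c := he ▸ hz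
  exact Finset.disjoint_left.mp hd (hAx (Finset.mem_of_mem_erase h1)) (hB hz)

/-- The word of the root edge. -/
theorem BD_root {k : ℕ} (τ : RTree (k + 1)) (c : Fin (k + 1)) (L : Finset (Fin (k + 1)))
    (A : Finset (Fin (k + 1))) (b : Bool) (hcL : c ∈ L) (kL : Key τ L)
    (hne : ∃ z ∈ L, z ≠ c ∧ z ∉ A) (u : Finset (Fin (k + 1)) → Wd) :
    delU τ c A b u (resF (Fin.succAboveEmb c) L) = u L := by
  have h1 : (resF (Fin.succAboveEmb c) L).map (Fin.succAboveEmb c) = L.erase c := by
    ext z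
    rw [Finset.mem_map, Finset.mem_erase]
    constructor
    · rintro ⟨j, hj, rfl⟩
      exact ⟨BD_ne c j, (BD_mem_resF _ _ _).mp hj⟩
    · rintro ⟨hz, hzL⟩
      obtain ⟨j, hj⟩ := Fin.exists_succAbove_eq hz
      refine ⟨j, (BD_mem_resF _ _ _).mpr ?_, hj⟩
      change c.succAbove j ∈ L
      rw [hj]
      exact hzL
  unfold delU
  rw [h1, if_neg, Finset.insert_erase hcL, if_pos kL]
  intro he
  obtain ⟨z, hz, hzc, hzA⟩ := hne
  have h2 : z ∈ L.erase c := Finset.mem_erase.mpr ⟨hzc, hz⟩
  rw [he] at h2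
  exact hzA (Finset.mem_of_mem_erase h2)

theorem BD_resF_union {k m : ℕ} (ι : Fin k ↪ Fin m) (A B : Finset (Fin m)) :
    resF ι (A ∪ B) = resF ι A ∪ resF ι B := by
  ext j
  simp only [BD_mem_resF, Finset.mem_union]

theorem BD_resF_disj {k m : ℕ} (ι : Fin k ↪ Fin m) (A B : Finset (Fin m)) (h : Disjoint A B) :
    Disjoint (resF ι A) (resF ι B) := by
  rw [Finset.disjoint_left] at h ⊢
  intro j hj hj'
  rw [BD_mem_resF] at hj hj'
  exact h hj hj'

/-- `Rep` for a node of the tree after the deletion. -/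
theorem BD_node {k m : ℕ} (τ : RTree m) (ι : Fin k ↪ Fin m) (x y : BT m) (x' y' : BT k)
    (h : Rep τ (.node x y)) (hx : x'.lv = resF ι x.lv) (hy : y'.lv = resF ι y.lv)
    (rx : Rep (τ.pull ι) x') (ry : Rep (τ.pull ι) y') : Rep (τ.pull ι) (.node x' y') := by
  obtain ⟨h1, h2, h3, h4, h5, h6⟩ := h
  have hd : Disjoint x'.lv y'.lv := by
    rw [hx, hy]
    exact BD_resF_disj ι _ _ h1
  have kx := key_res τ ι _ h3
  have ky := key_res τ ι _ h4
  rw [← hx] at kx
  rw [← hy] at ky
  refine ⟨hd, ?_, kx x'.lv_nonempty ?_, ky y'.lv_nonempty ?_, rx, ry⟩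
  · intro a ha b hb c hc1 hc2
    rw [hx, BD_mem_resF] at ha hc1
    rw [hy, BD_mem_resF] at hb hc2
    exact h2 (ι a) ha (ι b) hb (ι c) hc1 hc2
  · obtain ⟨z, hz⟩ := y'.lv_nonempty
    exact ⟨z, Finset.mem_compl.mpr (Finset.disjoint_right.mp hd hz)⟩
  · obtain ⟨z, hz⟩ := x'.lv_nonempty
    exact ⟨z, Finset.mem_compl.mpr (Finset.disjoint_left.mp hd hz)⟩

theorem delete {k : ℕ} (τ : RTree (k + 1)) (c ρ : Fin (k + 1)) (hc : c ≠ ρ) (t : BT (k + 1))
    (ht : Rep τ t) (hk : Key τ t.lv) (hρ : ρ ∉ t.lv) (hct : c ∈ t.lv) (hne : t ≠ .leaf c) :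
    ∃ (A : Finset (Fin (k + 1))) (b : Bool) (t' : BT k), c ∈ A ∧ A ⊆ t.lv ∧
      (A.erase c).Nonempty ∧ Key τ A ∧ Key τ (A.erase c) ∧
      Rep (τ.pull (Fin.succAboveEmb c)) t' ∧ t'.lv = resF (Fin.succAboveEmb c) t.lv ∧
      ∀ (u : Finset (Fin (k + 1)) → Wd) (i : Fin k), c.succAbove i ∈ t.lv →
        t'.wf (delU τ c A b u) i = t.wf u (c.succAbove i) := by
  induction t with
  | leaf j =>
    exfalso
    have h1 : c = j := by simpa [BT.lv] using hct
    exact hne (by rw [h1])
  | node x y ihx ihy =>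
    have hrep := ht
    obtain ⟨h1, h2, h3, h4, h5, h6⟩ := ht
    have hρx : ρ ∉ x.lv := fun h => hρ (Finset.mem_union_left _ h)
    have hρy : ρ ∉ y.lv := fun h => hρ (Finset.mem_union_right _ h)
    have hlv : (BT.node x y).lv = x.lv ∪ y.lv := rfl
    rcases Finset.mem_union.mp hct with hcx | hcy
    · have hcy : c ∉ y.lv := Finset.disjoint_left.mp h1 hcx
      by_cases hx : x = .leaf c
      · -- the left child is `c`
        have hA : (BT.node x y).lv = insert c y.lv := by
          rw [hlv, hx]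
          ext z
          simp [BT.lv]
        rw [hA] at hk
        obtain ⟨t', r1, r2, r3⟩ := BD_child τ c ρ hc y h6 h4 hcy hρy hk true
        refine ⟨insert c y.lv, true, t', Finset.mem_insert_self _ _, by rw [hA], ?_, hk, ?_, r1,
          by rw [hA]; exact r2, ?_⟩
        · rw [Finset.erase_insert hcy]
          exact y.lv_nonempty
        · rw [Finset.erase_insert hcy]
          exact h4
        · intro u i hi
          rw [r3]
          have h7 : (BT.node x y).wf u (c.succAbove i) = u (x.lv ∪ y.lv) ++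
            (if c.succAbove i ∈ x.lv then false :: x.wf u (c.succAbove i)
              else true :: y.wf u (c.succAbove i)) := rfl
          rw [h7, ← hlv, hA, if_neg]
          rw [hx]
          simp only [BT.lv, Finset.mem_singleton]
          exact Fin.succAbove_ne c i
      · obtain ⟨A, b, x', a1, a2, a3, a4, a5, a6, a7, a8⟩ := ihx h5 h3 hρx hcx hx
        obtain ⟨y', hy'⟩ := BD_unmap c y hcy
        have hyl := BD_lv_unmap c y y' hy'
        refine ⟨A, b, .node x' y', a1, a2.trans Finset.subset_union_left, a3, a4, a5, ?_, ?_, ?_⟩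
        · exact BD_node τ _ x y x' y' hrep a7 hyl a6 (BD_rep τ _ y' (by rw [hy']; exact h6))
        · rw [hlv, BD_resF_union, ← a7, ← hyl]
          rfl
        · intro u i hi
          have h7 : (BT.node x y).wf u (c.succAbove i) = u (x.lv ∪ y.lv) ++
            (if c.succAbove i ∈ x.lv then false :: x.wf u (c.succAbove i)
              else true :: y.wf u (c.succAbove i)) := rfl
          have h8 : (BT.node x' y').wf (delU τ c A b u) i = delU τ c A b u (x'.lv ∪ y'.lv) ++
            (if i ∈ x'.lv then false :: x'.wf (delU τ c A b u) i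
              else true :: y'.wf (delU τ c A b u) i) := rfl
          have h9 : delU τ c A b u (x'.lv ∪ y'.lv) = u (x.lv ∪ y.lv) := by
            rw [a7, hyl, ← BD_resF_union]
            apply BD_root τ c _ A b hct hk
            obtain ⟨z, hz⟩ := y.lv_nonempty
            exact ⟨z, Finset.mem_union_right _ hz, fun h => hcy (h ▸ hz),
              fun h => Finset.disjoint_left.mp h1 (a2 h) hz⟩
          have h10 : i ∈ x'.lv ↔ c.succAbove i ∈ x.lv := by
            rw [a7, BD_mem_resF]
            rfl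
          rw [h7, h8, h9]
          congr 1
          by_cases h11 : c.succAbove i ∈ x.lv
          · rw [if_pos h11, if_pos (h10.mpr h11), a8 u i h11]
          · rw [if_neg h11, if_neg (fun h => h11 (h10.mp h)),
              BD_away τ c ρ hc x y y' h6 h4 hcy hρx hρy h1 hy' A b a1 a2 a3 a4 a5 u i]
    · have hcx : c ∉ x.lv := Finset.disjoint_right.mp h1 hcy
      by_cases hy : y = .leaf c
      · have hA : (BT.node x y).lv = insert c x.lv := by
          rw [hlv, hy]
          ext z
          simp only [BT.lv, Finset.mem_union, Finset.mem_singleton, Finset.mem_insert]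
          exact Or.comm
        rw [hA] at hk
        obtain ⟨t', r1, r2, r3⟩ := BD_child τ c ρ hc x h5 h3 hcx hρx hk false
        refine ⟨insert c x.lv, false, t', Finset.mem_insert_self _ _, by rw [hA], ?_, hk, ?_, r1,
          by rw [hA]; exact r2, ?_⟩
        · rw [Finset.erase_insert hcx]
          exact x.lv_nonempty
        · rw [Finset.erase_insert hcx]
          exact h3
        · intro u i hi
          rw [r3]
          have h7 : (BT.node x y).wf u (c.succAbove i) = u (x.lv ∪ y.lv) ++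
            (if c.succAbove i ∈ x.lv then false :: x.wf u (c.succAbove i)
              else true :: y.wf u (c.succAbove i)) := rfl
          rw [h7, ← hlv, hA, if_pos]
          rw [hA] at hi
          rcases Finset.mem_insert.mp hi with h | h
          · exact absurd h (Fin.succAbove_ne c i)
          · exact h
      · obtain ⟨A, b, y', a1, a2, a3, a4, a5, a6, a7, a8⟩ := ihy h6 h4 hρy hcy hy
        obtain ⟨x', hx'⟩ := BD_unmap c x hcx
        have hxl := BD_lv_unmap c x x' hx'
        refine ⟨A, b, .node x' y', a1, a2.trans Finset.subset_union_right, a3, a4, a5, ?_, ?_, ?_⟩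
        · exact BD_node τ _ x y x' y' hrep hxl a7 (BD_rep τ _ x' (by rw [hx']; exact h5)) a6
        · rw [hlv, BD_resF_union, ← a7, ← hxl]
          rfl
        · intro u i hi
          have h7 : (BT.node x y).wf u (c.succAbove i) = u (x.lv ∪ y.lv) ++
            (if c.succAbove i ∈ x.lv then false :: x.wf u (c.succAbove i)
              else true :: y.wf u (c.succAbove i)) := rfl
          have h8 : (BT.node x' y').wf (delU τ c A b u) i = delU τ c A b u (x'.lv ∪ y'.lv) ++
            (if i ∈ x'.lv then false :: x'.wf (delU τ c A b u) i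
              else true :: y'.wf (delU τ c A b u) i) := rfl
          have h9 : delU τ c A b u (x'.lv ∪ y'.lv) = u (x.lv ∪ y.lv) := by
            rw [a7, hxl, ← BD_resF_union]
            apply BD_root τ c _ A b hct hk
            obtain ⟨z, hz⟩ := x.lv_nonempty
            exact ⟨z, Finset.mem_union_left _ hz, fun h => hcx (h ▸ hz),
              fun h => Finset.disjoint_left.mp h1 hz (a2 h)⟩
          have h10 : i ∈ x'.lv ↔ c.succAbove i ∈ x.lv := by
            rw [hxl, BD_mem_resF]
            rfl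
          rw [h7, h8, h9]
          congr 1
          by_cases h11 : c.succAbove i ∈ x.lv
          · rw [if_pos h11, if_pos (h10.mpr h11),
              BD_away τ c ρ hc y x x' h5 h3 hcx hρy hρx h1.symm hx' A b a1 a2 a3 a4 a5 u i]
          · have h12 : c.succAbove i ∈ y.lv := by
              rcases Finset.mem_union.mp hi with h | h
              · exact absurd h h11
              · exact h
            rw [if_neg h11, if_neg (fun h => h11 (h10.mp h)), a8 u i h12]

end SimplVol
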