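import Pool.Agent.H54.RT.BT

/-!
# Module BE: existence and uniqueness of the plane rooted tree

Fix `ρ`; `a < b` means `τ.o ρ a b = 1`: a strict total order on the leaves `≠ ρ` (transitive: `o_coc` for `ρ, a, b, c`: `o a b c = o ρ b c - o ρ a c + o ρ a b`, all `±1`).
EXISTENCE, by strong induction on `|A|` for keys `A` with `ρ ∉ A`, `A ≠ ∅`: a tree `t` with `t.lv = A`, `Rep τ t`. If `|A| = 1` it is a leaf. Let `|A| ≥ 2`, `a` = the smallest element of `A`.
`A₁` = a key `B` with `a ∈ B ⊊ A` of maximal cardinality (`{a}` is one; `Finset.exists_max_image` on `A.powerset.filter ..`), `A₂ = A \ A₁ ≠ ∅`, `b` = the smallest element of `A₂`, `B` = a key with `b ∈ B ⊊ A` of maximal cardinality.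
(i) `B ∩ A₁ = ∅`: else `B`, `A₁` are nested (`key_nested`); `B ⊆ A₁` is wrong (`b`), so `A₁ ⊊ B ∋ a`, against the maximality of `A₁`.
(ii) `B = A₂`: else let `d ∈ A₂ \ B`, so `a < b < d` (`a` smallest in `A`, `b` smallest in `A₂`). `τ.res` for `ρ, a, b, d`: a division `s ∈ τ.l` with `{ρ,a}|{b,d}`, `{ρ,b}|{a,d}` or `{ρ,d}|{a,b}`; let `C` be its side
without `ρ`; it is a key. `{ρ,b}|{a,d}` is impossible: planar for `Sep s a d ρ b`: `o a d ρ = o a d b`, but `o ρ a d = 1` (rotate) and `o a b d = 1` (from `o_coc`, `a<b<d`), so `o a d b = -1`.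
`{ρ,a}|{b,d}`: `C ∋ b, d`, `a ∉ C`; `C`, `A` are nested (`b` common): `A ⊆ C` is wrong (`a`), so `C ⊊ A`; `C`, `B` nested (common `b`); `d ∈ C \ B`, so `B ⊊ C`, against the maximality of `B`.
`{ρ,d}|{a,b}`: `C ∋ a, b`, `d ∉ C`, so `C ⊊ A` as before; `C`, `A₁` nested (common `a`), `b ∈ C \ A₁`, so `A₁ ⊊ C`: against the maximality of `A₁`.
(iii) for `x ∈ A₁`, `y ∈ A₂`: `x < y`. If `y < x`: `a < y < x` (`a ≠ y`); `x ≠ a`, so `A₁ ∋ a, x`, `∌ y, ρ`, `spl A₁ ∈ τ.l` (`key_sep`), `Sep a x ρ y`: `o a x ρ = o a x y`; `o a x ρ = o ρ a x = 1`, `o a x y = - o a y x = -1`. Contradiction.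
By `key_o` for `A`, `o c x y = o ρ x y = 1` for all `c ∉ A`. The tree is `node t₁ t₂`.
`exists_rep`: `A = {ρ}ᶜ` is a key (its complement is a singleton), nonempty as `m ≥ 2`.
UNIQUENESS, by induction on `t` (for all `t'`), `ρ ∉ t.lv`. If `t` is a leaf, `t'.lv` has one element, `t'` is a leaf (two disjoint nonempty sets have at least two elements). `t = node x y`, `t' = node x' y'`: claim `x.lv = x'.lv` (then `y.lv = y'.lv` by
disjointness, and induction). Both `x.lv < y.lv`, `x'.lv < y'.lv` (all elements). Suppose `u ∈ x.lv \ x'.lv`, so `u ∈ y'.lv`; then `x'.lv ⊆ x.lv`: if `w ∈ x'.lv`, `w ∈ y.lv`: `w < u < w`. So `x'.lv ⊊ x.lv`; choose `a ∈ x'.lv`, `b = u ∈ x.lv ∩ y'.lv`,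
`c ∈ y.lv ⊆ y'.lv` (`c ∉ x'.lv` as `x'.lv ⊆ x.lv`). `x.lv ∋ a, b`, `∌ c, ρ`: `Sep (spl x.lv) a b c ρ`; `y'.lv ∋ b, c`, `∌ a, ρ`: `Sep (spl y'.lv) b c a ρ`; both are in `τ.l` by `key_sep`; against `τ.excl` (`Sep s b a c ρ`, `Sep t b c a ρ`). Symmetrically if `x'.lv ⊄ x.lv`.
`key_of_subtree`: not needed.
-/

set_option autoImplicit false

open scoped BigOperators

namespace SimplVol

theorem be_zero {m : ℕ} (τ : RTree m) (ρ a : Fin m) : τ.o ρ a a = 0 := by
  have := τ.o_swap ρ a a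
  omega

theorem be_zero' {m : ℕ} (τ : RTree m) (ρ a : Fin m) : τ.o ρ ρ a = 0 := by
  rw [← τ.o_rot]
  rw [← τ.o_rot]
  exact be_zero τ a ρ

theorem be_zero'' {m : ℕ} (τ : RTree m) (ρ a : Fin m) : τ.o ρ a ρ = 0 := by
  have := τ.o_swap ρ ρ a
  rw [be_zero'] at this
  simpa using this

theorem be_le {m : ℕ} (τ : RTree m) (a b c : Fin m) : τ.o a b c ≤ 1 ∧ -1 ≤ τ.o a b c := by
  by_cases h1 : a = b
  · subst h1; rw [be_zero']; norm_num
  by_cases h2 : b = c
  · subst h2; rw [be_zero]; norm_num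
  by_cases h3 : a = c
  · subst h3; rw [be_zero'']; norm_num
  rcases τ.o_vals a b c h1 h2 h3 with h | h <;> rw [h] <;> norm_num

theorem be_ne {m : ℕ} (τ : RTree m) {a b c : Fin m} (h : τ.o a b c = 1) :
    a ≠ b ∧ b ≠ c ∧ a ≠ c := by
  refine ⟨?_, ?_, ?_⟩
  · rintro rfl; rw [be_zero'] at h; omega
  · rintro rfl; rw [be_zero] at h; omega
  · rintro rfl; rw [be_zero''] at h; omega

theorem be_asymm {m : ℕ} (τ : RTree m) {a b c : Fin m} (h : τ.o a b c = 1) : τ.o a c b = -1 := by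
  rw [τ.o_swap, h]

theorem be_trans {m : ℕ} (τ : RTree m) {ρ a b c : Fin m} (h1 : τ.o ρ a b = 1) (h2 : τ.o ρ b c = 1) :
    τ.o ρ a c = 1 ∧ τ.o a b c = 1 := by
  have h3 := τ.o_coc ρ a b c
  have h4 := be_le τ a b c
  have h5 := be_le τ ρ a c
  omega

theorem be_tot {m : ℕ} (τ : RTree m) {ρ a b : Fin m} (h1 : ρ ≠ a) (h2 : a ≠ b) (h3 : ρ ≠ b) :
    τ.o ρ a b = 1 ∨ τ.o ρ b a = 1 := by
  rcases τ.o_vals ρ a b h1 h2 h3 with h | h
  · exact Or.inl h
  · right
    rw [τ.o_swap, h]; norm_num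

theorem be_min {m : ℕ} (τ : RTree m) (ρ : Fin m) (A : Finset (Fin m)) (hne : A.Nonempty) :
    ρ ∉ A → ∃ a ∈ A, ∀ b ∈ A, b ≠ a → τ.o ρ a b = 1 := by
  induction hne using Finset.Nonempty.cons_induction with
  | singleton a =>
    intro _
    refine ⟨a, Finset.mem_singleton_self a, ?_⟩
    intro b hb hne
    exact absurd (Finset.mem_singleton.mp hb) hne
  | cons x s hx hs ih =>
    intro hρ
    simp only [Finset.mem_cons, not_or] at hρ
    obtain ⟨a, ha, hmin⟩ := ih hρ.2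
    have hxa : x ≠ a := fun h => hx (h ▸ ha)
    have hρa : ρ ≠ a := fun h => hρ.2 (h ▸ ha)
    rcases be_tot τ hρ.1 hxa hρa with h | h
    · refine ⟨x, Finset.mem_cons_self x s, ?_⟩
      intro b hb hbx
      rcases Finset.mem_cons.mp hb with hb | hb
      · exact absurd hb hbx
      · by_cases hba : b = a
        · rw [hba]; exact h
        · exact (be_trans τ h (hmin b hb hba)).1
    · refine ⟨a, Finset.mem_cons_of_mem ha, ?_⟩
      intro b hb hba
      rcases Finset.mem_cons.mp hb with hb | hb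
      · rw [hb]; exact h
      · exact hmin b hb hba

theorem be_spl_false {m : ℕ} (A : Finset (Fin m)) (a b : Fin m) :
    spl A a b = false ↔ ¬ (a ∈ A ↔ b ∈ A) := by
  rw [← spl_apply, Bool.not_eq_true]

theorem be_max {m : ℕ} (τ : RTree m) (A : Finset (Fin m)) (a : Fin m) (ha : a ∈ A) (h2 : A ≠ {a}) :
    ∃ B : Finset (Fin m), B ⊆ A ∧ a ∈ B ∧ B ≠ A ∧ Key τ B ∧
      ∀ C : Finset (Fin m), C ⊆ A → a ∈ C → C ≠ A → Key τ C → B ⊆ C → B = C := by
  classical
  obtain ⟨B, hB, hmax⟩ := Finset.exists_max_image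
    (A.powerset.filter fun B => a ∈ B ∧ B ≠ A ∧ Key τ B) Finset.card
    ⟨{a}, by
      simp only [Finset.mem_filter, Finset.mem_powerset, Finset.singleton_subset_iff,
        Finset.mem_singleton, true_and]
      exact ⟨ha, fun h => h2 h.symm, Or.inl ⟨a, rfl⟩⟩⟩
  simp only [Finset.mem_filter, Finset.mem_powerset] at hB hmax
  refine ⟨B, hB.1, hB.2.1, hB.2.2.1, hB.2.2.2, ?_⟩
  intro C h1 h3 h4 h5 h6
  exact Finset.eq_of_subset_of_card_le h6 (hmax C ⟨h1, h3, h4, h5⟩)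

theorem exists_rep_key {m : ℕ} (τ : RTree m) (ρ : Fin m) (A : Finset (Fin m)) (hA : Key τ A)
    (hρ : ρ ∉ A) (hne : A.Nonempty) : ∃ t : BT m, t.lv = A ∧ Rep τ t := by
  classical
  induction A using Finset.strongInduction with
  | H A ih =>
  obtain ⟨a, ha, hamin⟩ := be_min τ ρ A hne hρ
  by_cases hsing : A = {a}
  · exact ⟨BT.leaf a, by rw [hsing]; rfl, trivial⟩
  obtain ⟨A₁, hA₁A, haA₁, hA₁ne, hK₁, hmax₁⟩ := be_max τ A a ha hsing
  have hρ₁ : ρ ∉ A₁ := fun h => hρ (hA₁A h)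
  have hA₁ss : A₁ ⊂ A := Finset.ssubset_iff_subset_ne.mpr ⟨hA₁A, hA₁ne⟩
  have hne₂ : (A \ A₁).Nonempty := by
    rw [Finset.sdiff_nonempty]
    intro h
    exact hA₁ne (Finset.Subset.antisymm hA₁A h)
  have hρ₂ : ρ ∉ A \ A₁ := fun h => hρ (Finset.mem_sdiff.mp h).1
  obtain ⟨b, hb, hbmin⟩ := be_min τ ρ (A \ A₁) hne₂ hρ₂
  have hbA : b ∈ A := (Finset.mem_sdiff.mp hb).1
  have hbA₁ : b ∉ A₁ := (Finset.mem_sdiff.mp hb).2
  have hab' : a ≠ b := fun h => hbA₁ (h ▸ haA₁)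
  have hab : τ.o ρ a b = 1 := hamin b hbA hab'.symm
  have hsing' : A ≠ {b} := fun h => hab' (Finset.mem_singleton.mp (h ▸ ha))
  obtain ⟨B, hBA, hbB, hBne, hKB, hmaxB⟩ := be_max τ A b hbA hsing'
  have hρB : ρ ∉ B := fun h => hρ (hBA h)
  have hdisj : ∀ x ∈ B, x ∉ A₁ := by
    intro x hx hx1
    rcases key_nested τ B A₁ hKB hK₁ ρ x hρB hρ₁ hx hx1 with h | h
    · exact hbA₁ (h hbB)
    · have := hmax₁ B hBA (h haA₁) hBne hKB h
      exact hbA₁ (this ▸ hbB)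
  have hBA₂ : B ⊆ A \ A₁ := fun x hx => Finset.mem_sdiff.mpr ⟨hBA hx, hdisj x hx⟩
  have hBeq : B = A \ A₁ := by
    apply Finset.Subset.antisymm hBA₂
    intro d hd
    by_contra hdB
    have hdA : d ∈ A := (Finset.mem_sdiff.mp hd).1
    have hdA₁ : d ∉ A₁ := (Finset.mem_sdiff.mp hd).2
    have hdb : d ≠ b := fun h => hdB (h ▸ hbB)
    have hda : d ≠ a := fun h => hdA₁ (h ▸ haA₁)
    have hbd : τ.o ρ b d = 1 := hbmin d hd hdb
    obtain ⟨had, habd⟩ := be_trans τ hab hbd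
    have hρa : ρ ≠ a := fun h => hρ (h ▸ ha)
    have hρb : ρ ≠ b := fun h => hρ (h ▸ hbA)
    have hρd : ρ ≠ d := fun h => hρ (h ▸ hdA)
    obtain ⟨s, hs, hsep⟩ := τ.res ρ a b d hρa hρb hρd hab' hda.symm hdb.symm
    obtain ⟨C, hρC, hCs, hKC, -, -⟩ := exists_key τ s hs ρ
    subst hCs
    rcases hsep with h | h | h
    · obtain ⟨h1, h2, h3⟩ := h
      rw [spl_apply] at h1 h2
      rw [be_spl_false] at h3
      have haC : a ∉ C := fun h => hρC (h1.mpr h)
      have hbC : b ∈ C := by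
        by_contra hcon
        exact h3 ⟨fun h => absurd h hρC, fun h => absurd h hcon⟩
      have hdC : d ∈ C := h2.mp hbC
      have hCA : C ⊆ A := by
        rcases key_nested τ C A hKC hA ρ b hρC hρ hbC hbA with h | h
        · exact h
        · exact absurd (h ha) haC
      have hCne : C ≠ A := fun h => haC (h ▸ ha)
      rcases key_nested τ C B hKC hKB ρ b hρC hρB hbC hbB with h | h
      · exact hdB (h hdC)
      · have := hmaxB C hCA hbC hCne hKC h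
        exact hdB (this ▸ hdC)
    · obtain ⟨h1, h2, h3⟩ := h
      have h1' := h1
      have h2' := h2
      rw [spl_apply] at h1 h2
      rw [be_spl_false] at h3
      have haC : a ∈ C := by
        by_contra hcon
        exact h3 ⟨fun h => absurd h hρC, fun h => absurd h hcon⟩
      have h3' : spl C a ρ = false := by
        rw [be_spl_false]
        intro h
        exact hρC (h.mp haC)
      have hpl := τ.planar _ hs a d ρ b ⟨h2', h1', h3'⟩
      rw [τ.o_rot ρ a d, had, τ.o_swap a b d, habd] at hpl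
      omega
    · obtain ⟨h1, h2, h3⟩ := h
      rw [spl_apply] at h1 h2
      rw [be_spl_false] at h3
      have hdC : d ∉ C := fun h => hρC (h1.mpr h)
      have haC : a ∈ C := by
        by_contra hcon
        exact h3 ⟨fun h => absurd h hρC, fun h => absurd h hcon⟩
      have hbC : b ∈ C := h2.mp haC
      have hCA : C ⊆ A := by
        rcases key_nested τ C A hKC hA ρ a hρC hρ haC ha with h | h
        · exact h
        · exact absurd (h hdA) hdC
      have hCne : C ≠ A := fun h => hdC (h ▸ hdA)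
      rcases key_nested τ C A₁ hKC hK₁ ρ a hρC hρ₁ haC haA₁ with h | h
      · exact hbA₁ (h hbC)
      · have := hmax₁ C hCA haC hCne hKC h
        exact hbA₁ (this ▸ hbC)
  have hord : ∀ x ∈ A₁, ∀ y ∈ A \ A₁, τ.o ρ x y = 1 := by
    intro x hx y hy
    have hyA : y ∈ A := (Finset.mem_sdiff.mp hy).1
    have hyA₁ : y ∉ A₁ := (Finset.mem_sdiff.mp hy).2
    have hxy : x ≠ y := fun h => hyA₁ (h ▸ hx)
    have hρx : ρ ≠ x := fun h => hρ₁ (h ▸ hx)
    have hρy : ρ ≠ y := fun h => hρ (h ▸ hyA)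
    rcases be_tot τ hρx hxy hρy with h | h
    · exact h
    exfalso
    have hya : y ≠ a := fun h => hyA₁ (h ▸ haA₁)
    have hay : τ.o ρ a y = 1 := hamin y hyA hya
    obtain ⟨hax, hayx⟩ := be_trans τ hay h
    have hxa : x ≠ a := fun hh => by
      rw [hh, be_zero] at hax
      omega
    have hsp : spl A₁ ∈ τ.l := key_sep τ A₁ hK₁ a x y ρ haA₁ hx hxa.symm hyA₁ hρ₁ hρy.symm
    have hsep : Sep (spl A₁) a x ρ y := by
      refine ⟨?_, ?_, ?_⟩
      · rw [spl_apply]; exact ⟨fun _ => hx, fun _ => haA₁⟩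
      · rw [spl_apply]; exact ⟨fun h => absurd h hρ₁, fun h => absurd h hyA₁⟩
      · rw [be_spl_false]; exact fun h => hρ₁ (h.mp haA₁)
    have hpl := τ.planar _ hsp a x ρ y hsep
    rw [τ.o_rot ρ a x, hax, τ.o_swap a y x, hayx] at hpl
    omega
  obtain ⟨t₁, ht₁, hr₁⟩ := ih A₁ hA₁ss hK₁ hρ₁ ⟨a, haA₁⟩
  have hss₂ : A \ A₁ ⊂ A := by
    refine Finset.ssubset_iff_subset_ne.mpr ⟨Finset.sdiff_subset, ?_⟩
    intro h
    have : a ∈ A \ A₁ := by rw [h]; exact ha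
    exact (Finset.mem_sdiff.mp this).2 haA₁
  obtain ⟨t₂, ht₂, hr₂⟩ := ih (A \ A₁) hss₂ (hBeq ▸ hKB) hρ₂ hne₂
  refine ⟨BT.node t₁ t₂, ?_, ?_⟩
  · show t₁.lv ∪ t₂.lv = A
    rw [ht₁, ht₂, Finset.union_sdiff_of_subset hA₁A]
  · show Disjoint t₁.lv t₂.lv ∧
      (∀ a ∈ t₁.lv, ∀ b ∈ t₂.lv, ∀ c, c ∉ t₁.lv → c ∉ t₂.lv → τ.o c a b = 1) ∧
      Key τ t₁.lv ∧ Key τ t₂.lv ∧ Rep τ t₁ ∧ Rep τ t₂
    rw [ht₁, ht₂]
    refine ⟨Finset.disjoint_sdiff, ?_, hK₁, hBeq ▸ hKB, hr₁, hr₂⟩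
    intro x hx y hy c hc1 hc2
    have hcA : c ∉ A := by
      intro h
      exact hc2 (Finset.mem_sdiff.mpr ⟨h, hc1⟩)
    rw [key_o τ A hA x y c ρ (hA₁A hx) (Finset.mem_sdiff.mp hy).1 hcA hρ]
    exact hord x hx y hy

theorem exists_rep {m : ℕ} (hm : 2 ≤ m) (τ : RTree m) (ρ : Fin m) :
    ∃ t : BT m, t.lv = {ρ}ᶜ ∧ Rep τ t := by
  apply exists_rep_key τ ρ
  · exact Or.inr (Or.inl ⟨ρ, compl_compl _⟩)
  · simp
  · rw [← Finset.card_pos, Finset.card_compl, Fintype.card_fin, Finset.card_singleton]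
    omega

theorem be_unique_sub {m : ℕ} (τ : RTree m) (ρ : Fin m) (X Y X' Y' : Finset (Fin m))
    (hY : Y.Nonempty) (hX' : X'.Nonempty)
    (hd : Disjoint X Y) (hd' : Disjoint X' Y')
    (ho : ∀ a ∈ X, ∀ b ∈ Y, τ.o ρ a b = 1) (ho' : ∀ a ∈ X', ∀ b ∈ Y', τ.o ρ a b = 1)
    (hK : Key τ X) (hK' : Key τ Y') (hu : X ∪ Y = X' ∪ Y') (hρ : ρ ∉ X ∪ Y) : X ⊆ X' := by
  classical
  intro u hu1
  by_contra hu2
  have huY' : u ∈ Y' := by
    have : u ∈ X' ∪ Y' := hu ▸ Finset.mem_union_left _ hu1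
    rcases Finset.mem_union.mp this with h | h
    · exact absurd h hu2
    · exact h
  have hsub : X' ⊆ X := by
    intro w hw
    have : w ∈ X ∪ Y := hu ▸ Finset.mem_union_left _ hw
    rcases Finset.mem_union.mp this with h | h
    · exact h
    · exfalso
      have h1 := ho u hu1 w h
      have h2 := ho' w hw u huY'
      have h3 := be_asymm τ h1
      omega
  obtain ⟨a, ha⟩ := hX'
  obtain ⟨c, hc⟩ := hY
  have haX := hsub ha
  have hcX : c ∉ X := fun h => (Finset.disjoint_left.mp hd) h hc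
  have hcY' : c ∈ Y' := by
    have : c ∈ X' ∪ Y' := hu ▸ Finset.mem_union_right _ hc
    rcases Finset.mem_union.mp this with h | h
    · exact absurd (hsub h) hcX
    · exact h
  have hau : u ≠ a := fun h => hu2 (h ▸ ha)
  have hρX : ρ ∉ X := fun h => hρ (Finset.mem_union_left _ h)
  have hρY' : ρ ∉ Y' := fun h => hρ (hu ▸ Finset.mem_union_right _ h)
  have hcρ : c ≠ ρ := fun h => hρ (h ▸ Finset.mem_union_right _ hc)
  have haρ : a ≠ ρ := fun h => hρX (h ▸ haX)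
  have haY' : a ∉ Y' := fun h => (Finset.disjoint_left.mp hd') ha h
  have huc : u ≠ c := fun h => hcX (h ▸ hu1)
  have hs := key_sep τ X hK u a c ρ hu1 haX hau hcX hρX hcρ
  have ht := key_sep τ Y' hK' u c a ρ huY' hcY' huc haY' hρY' haρ
  refine τ.excl _ hs _ ht u a c ρ ⟨?_, ?_, ?_⟩ ⟨?_, ?_, ?_⟩
  · rw [spl_apply]; exact ⟨fun _ => haX, fun _ => hu1⟩
  · rw [spl_apply]; exact ⟨fun h => absurd h hcX, fun h => absurd h hρX⟩
  · rw [be_spl_false]; exact fun h => hcX (h.mp hu1)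
  · rw [spl_apply]; exact ⟨fun _ => hcY', fun _ => huY'⟩
  · rw [spl_apply]; exact ⟨fun h => absurd h haY', fun h => absurd h hρY'⟩
  · rw [be_spl_false]; exact fun h => haY' (h.mp huY')

theorem be_node_ne {m : ℕ} (τ : RTree m) (x y : BT m) (i : Fin m) (h : Rep τ (BT.node x y)) :
    x.lv ∪ y.lv ≠ {i} := by
  intro he
  obtain ⟨a, ha⟩ := x.lv_nonempty
  obtain ⟨b, hb⟩ := y.lv_nonempty
  have h1 : a = i := Finset.mem_singleton.mp (he ▸ Finset.mem_union_left _ ha)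
  have h2 : b = i := Finset.mem_singleton.mp (he ▸ Finset.mem_union_right _ hb)
  rw [h1] at ha
  rw [h2] at hb
  exact (Finset.disjoint_left.mp h.1) ha hb

theorem rep_unique {m : ℕ} (τ : RTree m) (ρ : Fin m) (t t' : BT m) (h : Rep τ t) (h' : Rep τ t')
    (hl : t.lv = t'.lv) (hρ : ρ ∉ t.lv) : t = t' := by
  classical
  induction t generalizing t' with
  | leaf i =>
    cases t' with
    | leaf j =>
      have : ({i} : Finset (Fin m)) = {j} := hl
      rw [Finset.singleton_inj.mp this]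
    | node x' y' => exact absurd hl.symm (be_node_ne τ x' y' i h')
  | node x y ihx ihy =>
    cases t' with
    | leaf j => exact absurd hl (be_node_ne τ x y j h)
    | node x' y' =>
      have hl' : x.lv ∪ y.lv = x'.lv ∪ y'.lv := hl
      have hρ' : ρ ∉ x.lv ∪ y.lv := hρ
      have hρ'' : ρ ∉ x'.lv ∪ y'.lv := hl' ▸ hρ'
      obtain ⟨hd, ho, hKx, hKy, hrx, hry⟩ := h
      obtain ⟨hd', ho', hKx', hKy', hrx', hry'⟩ := h'
      have hρ1 : ρ ∉ x.lv := fun h => hρ' (Finset.mem_union_left _ h)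
      have hρ2 : ρ ∉ y.lv := fun h => hρ' (Finset.mem_union_right _ h)
      have hρ3 : ρ ∉ x'.lv := fun h => hρ'' (Finset.mem_union_left _ h)
      have hρ4 : ρ ∉ y'.lv := fun h => hρ'' (Finset.mem_union_right _ h)
      have hO : ∀ a ∈ x.lv, ∀ b ∈ y.lv, τ.o ρ a b = 1 := fun a ha b hb => ho a ha b hb ρ hρ1 hρ2
      have hO' : ∀ a ∈ x'.lv, ∀ b ∈ y'.lv, τ.o ρ a b = 1 :=
        fun a ha b hb => ho' a ha b hb ρ hρ3 hρ4
      have h1 : x.lv = x'.lv := Finset.Subset.antisymm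
        (be_unique_sub τ ρ _ _ _ _ y.lv_nonempty x'.lv_nonempty hd hd' hO hO' hKx hKy' hl' hρ')
        (be_unique_sub τ ρ _ _ _ _ y'.lv_nonempty x.lv_nonempty hd' hd hO' hO hKx' hKy hl'.symm
          hρ'')
      have h2 : y.lv = y'.lv := by
        have e1 : y.lv = (x.lv ∪ y.lv) \ x.lv := by
          rw [Finset.union_sdiff_left]
          exact (Finset.sdiff_eq_self_of_disjoint hd.symm).symm
        have e2 : y'.lv = (x'.lv ∪ y'.lv) \ x'.lv := by
          rw [Finset.union_sdiff_left]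
          exact (Finset.sdiff_eq_self_of_disjoint hd'.symm).symm
        rw [e1, e2, hl', h1]
      rw [ihx x' hrx hrx' h1 hρ1, ihy y' hry hry' h2 hρ2]

end SimplVol
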