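import Pool.Agent.H54.RT.TB

/-!
# Module BT: plane rooted binary trees (definitions, membership)

* `spl_apply`, `spl_compl`: `decide`. `key_compl`. `mem_key`: a division `s ∈ τ.l` and a point `ρ` give the key `{a | s ρ a = false}`.
* `key_sep`: if `A` is a key with two different elements `a, a'` and two different elements `c, c'` outside, then `spl A ∈ τ.l` (`A` is not a singleton, nor is its complement).
* `key_nested`: two keys `A, B` not containing `ρ` with a common element `x` are nested: else choose `a ∈ A \ B`, `b ∈ B \ A`; both are divisions in the list (`key_sep`: `A` contains `x, a`, not `b, ρ`; `B` contains `x, b`, not `a, ρ`), `Sep (spl A) x a b ρ` and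
  `Sep (spl B) x b a ρ`, against `τ.excl`.
-/

set_option autoImplicit false

open scoped BigOperators

namespace SimplVol

/-- Plane rooted binary trees with labelled leaves. -/
inductive BT (m : ℕ) : Type
  | leaf (i : Fin m) : BT m
  | node (x y : BT m) : BT m
  deriving DecidableEq

/-- The set of leaves. -/
def BT.lv {m : ℕ} : BT m → Finset (Fin m)
  | .leaf i => {i}
  | .node x y => x.lv ∪ y.lv

/-- The division given by a set. -/
def spl {m : ℕ} (A : Finset (Fin m)) : Split m := fun a b => decide (a ∈ A ↔ b ∈ A)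

/-- `A` is a set of leaves cut off by an edge (internal or not) of the tree. -/
def Key {m : ℕ} (τ : RTree m) (A : Finset (Fin m)) : Prop :=
  (∃ i, A = {i}) ∨ (∃ i, Aᶜ = {i}) ∨ spl A ∈ τ.l

/-- `t` is a part of the ranked planar tree `τ`, seen from outside. -/
def Rep {m : ℕ} (τ : RTree m) : BT m → Prop
  | .leaf _ => True
  | .node x y => Disjoint x.lv y.lv ∧
      (∀ a ∈ x.lv, ∀ b ∈ y.lv, ∀ c, c ∉ x.lv → c ∉ y.lv → τ.o c a b = 1) ∧
      Key τ x.lv ∧ Key τ y.lv ∧ Rep τ x ∧ Rep τ y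

theorem BT.lv_nonempty {m : ℕ} (t : BT m) : t.lv.Nonempty := by
  induction t with
  | leaf i => exact Finset.singleton_nonempty i
  | node x y hx _ => exact hx.mono Finset.subset_union_left

theorem spl_apply {m : ℕ} (A : Finset (Fin m)) (a b : Fin m) :
    spl A a b = true ↔ (a ∈ A ↔ b ∈ A) := by
  unfold spl
  exact decide_eq_true_iff

theorem BT_spl_false {m : ℕ} (A : Finset (Fin m)) (a b : Fin m) (h : a ∈ A) (h' : b ∉ A) :
    spl A a b = false := by
  rw [Bool.eq_false_iff, Ne, spl_apply]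
  tauto

theorem spl_compl {m : ℕ} (A : Finset (Fin m)) : spl Aᶜ = spl A := by
  funext a b
  rw [Bool.eq_iff_iff, spl_apply, spl_apply, Finset.mem_compl, Finset.mem_compl, not_iff_not]

theorem spl_inj {m : ℕ} {A B : Finset (Fin m)} {ρ : Fin m} (hA : ρ ∉ A) (hB : ρ ∉ B)
    (h : spl A = spl B) : A = B := by
  ext a
  have h1 := congrFun (congrFun h a) ρ
  rw [Bool.eq_iff_iff, spl_apply, spl_apply] at h1
  tauto

theorem key_compl {m : ℕ} (τ : RTree m) (A : Finset (Fin m)) : Key τ Aᶜ ↔ Key τ A := by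
  unfold Key
  rw [compl_compl, spl_compl]
  tauto

theorem exists_key {m : ℕ} (τ : RTree m) (s : Split m) (hs : s ∈ τ.l) (ρ : Fin m) :
    ∃ A : Finset (Fin m), ρ ∉ A ∧ spl A = s ∧ Key τ A ∧ 2 ≤ A.card ∧ 2 ≤ Aᶜ.card := by
  obtain ⟨f, hf⟩ := τ.split s hs
  obtain ⟨a, b, c, d, h1, h2, h3, h4, h5⟩ := τ.nt s hs
  rw [hf, beq_iff_eq] at h3 h4
  rw [hf] at h5
  have h5' : f a ≠ f c := by
    intro h
    rw [h] at h5
    simp at h5
  have hmem : ∀ x, x ∈ Finset.univ.filter (fun x => f x ≠ f ρ) ↔ f x ≠ f ρ := by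
    intro x
    simp
  have hspl : spl (Finset.univ.filter (fun x => f x ≠ f ρ)) = s := by
    funext x y
    rw [Bool.eq_iff_iff, spl_apply, hmem, hmem, hf, beq_iff_eq]
    generalize f x = u
    generalize f y = v
    generalize f ρ = w
    revert u v w
    decide
  have hcard : ∀ (S : Finset (Fin m)) (x y : Fin m), x ∈ S → y ∈ S → x ≠ y → 2 ≤ S.card := by
    intro S x y hx hy hne
    exact Finset.one_lt_card.2 ⟨x, hx, y, hy, hne⟩
  refine ⟨Finset.univ.filter (fun x => f x ≠ f ρ), ?_, hspl, ?_, ?_, ?_⟩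
  · rw [hmem]
    exact fun h => h rfl
  · refine Or.inr (Or.inr ?_)
    rw [hspl]
    exact hs
  · by_cases h : f a = f ρ
    · refine hcard _ c d ((hmem c).2 ?_) ((hmem d).2 ?_) h2
      · rw [← h]; exact h5'.symm
      · rw [← h4, ← h]; exact h5'.symm
    · exact hcard _ a b ((hmem a).2 h) ((hmem b).2 (by rw [← h3]; exact h)) h1
  · by_cases h : f a = f ρ
    · refine hcard _ a b ?_ ?_ h1
      · rw [Finset.mem_compl, hmem, not_not]; exact h
      · rw [Finset.mem_compl, hmem, not_not, ← h3]; exact h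
    · have h6 : f c = f ρ := by
        revert h h5'
        generalize f a = u
        generalize f c = v
        generalize f ρ = w
        revert u v w
        decide
      refine hcard _ c d ?_ ?_ h2
      · rw [Finset.mem_compl, hmem, not_not]; exact h6
      · rw [Finset.mem_compl, hmem, not_not, ← h4]; exact h6

theorem key_sep {m : ℕ} (τ : RTree m) (A : Finset (Fin m)) (hA : Key τ A) (a a' c c' : Fin m)
    (h1 : a ∈ A) (h2 : a' ∈ A) (h3 : a ≠ a') (h4 : c ∉ A) (h5 : c' ∉ A) (h6 : c ≠ c') :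
    spl A ∈ τ.l := by
  rcases hA with ⟨i, hi⟩ | ⟨i, hi⟩ | h
  · rw [hi, Finset.mem_singleton] at h1 h2
    exact absurd (h1.trans h2.symm) h3
  · rw [← Finset.mem_compl, hi, Finset.mem_singleton] at h4 h5
    exact absurd (h4.trans h5.symm) h6
  · exact h

theorem key_nested {m : ℕ} (τ : RTree m) (A B : Finset (Fin m)) (hA : Key τ A) (hB : Key τ B)
    (ρ x : Fin m) (h1 : ρ ∉ A) (h2 : ρ ∉ B) (h3 : x ∈ A) (h4 : x ∈ B) : A ⊆ B ∨ B ⊆ A := by
  by_contra hcon
  rw [not_or, Finset.not_subset, Finset.not_subset] at hcon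
  obtain ⟨⟨a, ha, ha'⟩, b, hb, hb'⟩ := hcon
  have e1 : x ≠ a := fun h => ha' (h ▸ h4)
  have e2 : x ≠ b := fun h => hb' (h ▸ h3)
  have e3 : b ≠ ρ := fun h => h2 (h ▸ hb)
  have e4 : a ≠ ρ := fun h => h1 (h ▸ ha)
  have hsA := key_sep τ A hA x a b ρ h3 ha e1 hb' h1 e3
  have hsB := key_sep τ B hB x b a ρ h4 hb e2 ha' h2 e4
  refine τ.excl (spl A) hsA (spl B) hsB x a b ρ ⟨?_, ?_, ?_⟩ ⟨?_, ?_, ?_⟩
  · rw [spl_apply]; tauto
  · rw [spl_apply]; tauto
  · exact BT_spl_false A x b h3 hb'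
  · rw [spl_apply]; tauto
  · rw [spl_apply]; tauto
  · exact BT_spl_false B x a h4 ha'

/-- The leaves outside a key see two leaves in the key in the same order. -/
theorem key_o {m : ℕ} (τ : RTree m) (A : Finset (Fin m)) (hA : Key τ A) (a b c d : Fin m)
    (h1 : a ∈ A) (h2 : b ∈ A) (h3 : c ∉ A) (h4 : d ∉ A) : τ.o c a b = τ.o d a b := by
  by_cases hab : a = b
  · subst hab
    rw [τ.o_zero₂₃, τ.o_zero₂₃]
  by_cases hcd : c = d
  · rw [hcd]
  have hs := key_sep τ A hA a b c d h1 h2 hab h3 h4 hcd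
  have hp := τ.planar (spl A) hs a b c d ⟨by rw [spl_apply]; tauto, by rw [spl_apply]; tauto,
    BT_spl_false A a c h1 h3⟩
  have e1 := τ.o_rot c a b
  have e2 := τ.o_rot d a b
  rw [← e1, ← e2, hp]

end SimplVol
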