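import Pool.Agent.H54.RT.BE
import Pool.Agent.H54.RT.GR

/-!
# Module CF: configurations, change of the root

`t.wd v i` is the word of the path from the root to the leaf `i`, with the words `v` of the edges; `conf t ρ v` is the configuration: the root `ρ` at `i`, the leaf `i` at `rho (t.wd v i) • i`.
`rot ρ' t s`: the tree seen from the leaf `ρ'` of `t`, where `s` is the rest seen from the root edge of `t`.
* `rot_spec` (induction on `t`, for all `s`): assume `Rep τ t`, `Rep τ s`, `Key τ t.lv`, `s.lv = t.lvᶜ`, `ρ' ∈ t.lv`; then `Rep τ (rot ρ' t s)` and `(rot ρ' t s).lv = {ρ'}ᶜ`. `t = leaf`: `ρ' = i`, `rot = s`. `t = node x y`, `ρ' ∈ x.lv`: `s' = node y s` satisfies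
  the hypotheses for `x`: `s'.lv = y.lv ∪ (x.lv ∪ y.lv)ᶜ = x.lvᶜ` (`Disjoint x.lv y.lv`), `Key τ y.lv`, `Key τ s.lv` (`key_compl`), and for `b ∈ y.lv`, `c ∈ s.lv`, `a ∉ y.lv`, `a ∉ s.lv`, so `a ∈ x.lv`: `o a b c = 1` from `o c a b = 1` (`o_rot`).
  `ρ' ∈ y.lv` (then `ρ' ∉ x.lv`): `s' = node s x`, for `c ∈ s.lv`, `a ∈ x.lv`, `b ∈ y.lv`: `o b c a = 1`.
* `wd_congr`: if `v`, `v'` agree on all `spl B`, `B ⊆ t.lv`, then `t.wd v i = t.wd v' i`. `wd_eq`: `t.wd v i = v (spl t.lv) ++ t.wd0 v i`.
-/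

set_option autoImplicit false

open scoped BigOperators UpperHalfPlane MatrixGroups

namespace SimplVol

/-- The word of the path from the root to a leaf. -/
def BT.wd {m : ℕ} (v : Split m → Wd) : BT m → Fin m → Wd
  | .leaf j, _ => v (spl {j})
  | .node x y, i => v (spl (x.lv ∪ y.lv)) ++
      (if i ∈ x.lv then false :: x.wd v i else true :: y.wd v i)

/-- The same without the word of the root edge. -/
def BT.wd0 {m : ℕ} (v : Split m → Wd) : BT m → Fin m → Wd
  | .leaf _, _ => []
  | .node x y, i => if i ∈ x.lv then false :: x.wd v i else true :: y.wd v i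

/-- The configuration of points. -/
noncomputable def conf {m : ℕ} (t : BT m) (ρ : Fin m) (v : Split m → Wd) (i : Fin m) : ℍ :=
  if i = ρ then UpperHalfPlane.I else rho (t.wd v i) • UpperHalfPlane.I

/-- The tree seen from the leaf `ρ'` of `t`. -/
def rot {m : ℕ} (ρ' : Fin m) : BT m → BT m → BT m
  | .leaf _, s => s
  | .node x y, s => if ρ' ∈ x.lv then rot ρ' x (.node y s) else rot ρ' y (.node s x)

theorem wd_eq {m : ℕ} (v : Split m → Wd) (t : BT m) (i : Fin m) :
    t.wd v i = v (spl t.lv) ++ t.wd0 v i := by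
  cases t with
  | leaf j => simp [BT.wd, BT.wd0, BT.lv]
  | node x y => rfl

theorem wd_congr {m : ℕ} (v v' : Split m → Wd) (t : BT m)
    (h : ∀ B : Finset (Fin m), B ⊆ t.lv → v (spl B) = v' (spl B)) (i : Fin m) :
    t.wd v i = t.wd v' i := by
  induction t with
  | leaf j => exact h {j} (Finset.Subset.refl _)
  | node x y hx hy =>
    rw [BT.wd, BT.wd, h (x.lv ∪ y.lv) (Finset.Subset.refl _),
      hx (fun B hB => h B (hB.trans Finset.subset_union_left)),
      hy (fun B hB => h B (hB.trans Finset.subset_union_right))]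

theorem rot_spec {m : ℕ} (τ : RTree m) (ρ' : Fin m) (t s : BT m) (ht : Rep τ t) (hs : Rep τ s)
    (hk : Key τ t.lv) (hl : s.lv = t.lvᶜ) (hρ : ρ' ∈ t.lv) :
    Rep τ (rot ρ' t s) ∧ (rot ρ' t s).lv = {ρ'}ᶜ := by
  induction t generalizing s with
  | leaf i =>
    have h1 : ρ' = i := Finset.mem_singleton.1 hρ
    subst h1
    exact ⟨hs, hl⟩
  | node x y hx hy =>
    obtain ⟨hd, ho, kx, ky, rx, ry⟩ := ht
    have hd' := Finset.disjoint_left.1 hd
    have hl' : ∀ c, c ∈ s.lv ↔ (c ∉ x.lv ∧ c ∉ y.lv) := by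
      intro c
      rw [hl]
      simp [BT.lv]
    have ks : Key τ s.lv := by
      rw [hl]
      exact (key_compl τ _).2 hk
    have hρ' : ρ' ∈ x.lv ∨ ρ' ∈ y.lv := Finset.mem_union.1 hρ
    by_cases h : ρ' ∈ x.lv
    · rw [rot, if_pos h]
      refine hx (.node y s) rx ⟨?_, ?_, ky, ks, ry, hs⟩ kx ?_ h
      · rw [Finset.disjoint_left]
        intro c hc hc2
        exact ((hl' c).1 hc2).2 hc
      · intro b hb c hc a ha1 ha2
        have hax : a ∈ x.lv := by
          by_contra h2
          exact ha2 ((hl' a).2 ⟨h2, ha1⟩)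
        have h3 := ho a hax b hb c ((hl' c).1 hc).1 ((hl' c).1 hc).2
        rw [← τ.o_rot] at h3
        exact h3
      · ext c
        have h1 := hl' c
        have h2 := @hd' c
        simp only [BT.lv, Finset.mem_union, Finset.mem_compl]
        tauto
    · have hy' : ρ' ∈ y.lv := hρ'.resolve_left h
      rw [rot, if_neg h]
      refine hy (.node s x) ry ⟨?_, ?_, ks, kx, hs, rx⟩ ky ?_ hy'
      · rw [Finset.disjoint_left]
        intro c hc hc2
        exact ((hl' c).1 hc).1 hc2
      · intro c hc a ha b hb1 hb2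
        have hby : b ∈ y.lv := by
          by_contra h2
          exact hb1 ((hl' b).2 ⟨hb2, h2⟩)
        have h3 := ho a ha b hby c ((hl' c).1 hc).1 ((hl' c).1 hc).2
        rw [← τ.o_rot, ← τ.o_rot] at h3
        exact h3
      · ext c
        have h1 := hl' c
        have h2 := @hd' c
        simp only [BT.lv, Finset.mem_union, Finset.mem_compl]
        tauto

end SimplVol
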