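import Pool.Agent.H54.RT.CF

/-!
# Module CG: change of the root

* `rot_conf` (induction on `t`, for all `s` and `g`): let `ρ ∈ s.lv`, `ρ' ∈ t.lv`, `s.lv = t.lvᶜ`, `Rep τ t` (only the disjointness is used), `v' x = if x ρ ρ' then v x else rv (v x)`. There is `g'` with (a) `(g * rho (t.wd v i)) • I = (g' * rho ((rot ρ' t s).wd v' i)) • I` for `i ∈ t.lv`, `i ≠ ρ'`;
  (b) `(g * rho (t.wd v ρ')) • I = g' • I`; (c) `(g * gS * rho (s.wd0 v' i)) • I = (g' * rho ((rot ρ' t s).wd v' i)) • I` for `i ∈ s.lv`. All these hold with arbitrary points instead of `I` up to sign of matrices; work with the action.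
  `t = leaf ρ'`: `V = v (spl {ρ'})`, `g' = g * rho V * gS`. (b): `gS • I = I`. (c): `s.wd v' i = v' (spl s.lv) ++ s.wd0 v' i`, `spl s.lv = spl {ρ'}` (`spl_compl`), it separates `ρ`, `ρ'`, so `v' (..) = rv V` and `g' * rho (rv V) = g * gS` (`rho_gS_rv`).
  `t = node x y`, `ρ' ∈ x.lv`, `V = v (spl t.lv)`, `g₁ = g * rho V * gL`, `s' = node y s`; apply the induction hypothesis to `x`, `s'`, `g₁`. For `i ∈ x.lv`: `t.wd v i = V ++ false :: x.wd v i`, so (a), (b) for `t` are those for `x`. For `i ∈ y.lv`: `s'.wd0 v' i = false :: y.wd v' i`,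
  `y.wd v' i = y.wd v i` (subsets `B` of `y.lv` contain neither `ρ` nor `ρ'`, so `spl B ρ ρ' = true`), and `g₁ gS gL rho(..) • I = g rho V (gL gS gL) rho(..) • I = g rho V gR rho (y.wd v i) • I` (`turn_smul`) which is `g rho (t.wd v i) • I`: (c) for `s'` gives (a) for `t`.
  For `i ∈ s.lv`: `s'.wd0 v' i = true :: s.wd v' i` (`i ∉ y.lv`), `s.wd v' i = v' (spl s.lv) ++ s.wd0 v' i`, `v' (spl s.lv) = rv V`; `g₁ gS gR rho (rv V) = g rho V (gL gS gR) rho (rv V) = g rho V gS rho (rv V) = g gS` (`gT_gS_gT`, `rho_gS_rv`).
  `ρ' ∈ y.lv`: the same with `g₁ = g * rho V * gR`, `s' = node s x`: for `i ∈ x.lv`: `s'.wd0 v' i = true :: x.wd v' i` (`i ∉ s.lv`), `gR gS gR` acts as `gL`; for `i ∈ s.lv`: `false :: s.wd v' i`, `gR gS gL = gS`.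
* `conf_root`: `t.lv = {ρ}ᶜ`; apply `rot_spec`, `rot_conf` with `s = leaf ρ`, `g = 1` (if `ρ' ≠ ρ`; for `ρ' = ρ`: `v' = v` because `spl`-like divisions... use `s ρ ρ = true` only for the divisions that occur: here `v' x = v x` whenever `x ρ ρ = true`, and `spl B ρ ρ = true`; `t = t'` by `rep_unique`, `g = 1`).
  `Key τ t.lv` as `t.lvᶜ = {ρ}`; `rot ρ' t (leaf ρ) = t'` by `rep_unique`. (c) for `i = ρ`: `(gS * rho []) • I = I = conf t ρ v ρ`.
-/

set_option autoImplicit false

open scoped BigOperators UpperHalfPlane MatrixGroups

namespace SimplVol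

theorem rot_conf {m : ℕ} (τ : RTree m) (ρ ρ' : Fin m) (v : Split m → Wd) (t s : BT m)
    (ht : Rep τ t) (hl : s.lv = t.lvᶜ) (hρ : ρ ∈ s.lv) (hρ' : ρ' ∈ t.lv) (g : SL(2, ℝ)) :
    ∃ g' : SL(2, ℝ),
      (∀ i ∈ t.lv, i ≠ ρ' → (g * rho (t.wd v i)) • UpperHalfPlane.I =
        (g' * rho ((rot ρ' t s).wd (fun x => if x ρ ρ' = false then rv (v x) else v x) i)) •
          UpperHalfPlane.I) ∧
      (g * rho (t.wd v ρ')) • UpperHalfPlane.I = g' • UpperHalfPlane.I ∧
      (∀ i ∈ s.lv, (g * gS * rho (s.wd0 (fun x => if x ρ ρ' = false then rv (v x) else v x) i)) •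
        UpperHalfPlane.I =
        (g' * rho ((rot ρ' t s).wd (fun x => if x ρ ρ' = false then rv (v x) else v x) i)) •
          UpperHalfPlane.I) := by
  induction t generalizing s g with
  | leaf j =>
    have hj : ρ' = j := by simpa [BT.lv] using hρ'
    subst hj
    have hρs : ρ ∉ ({ρ'} : Finset (Fin m)) := by
      rw [hl] at hρ
      simpa [BT.lv] using hρ
    have hsep : (spl ({ρ'} : Finset (Fin m))) ρ ρ' = false := by
      rw [← Bool.not_eq_true, spl_apply]
      intro h
      exact hρs (h.2 (Finset.mem_singleton_self _))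
    have hsp : spl s.lv = spl ({ρ'} : Finset (Fin m)) := by
      rw [hl, spl_compl]; rfl
    refine ⟨g * rho (v (spl {ρ'})) * gS, ?_, ?_, ?_⟩
    · intro i hi hne
      exact absurd (by simpa [BT.lv] using hi) hne
    · rw [mul_smul (g * rho (v (spl {ρ'}))), gS_smul_I]
      rfl
    · intro i hi
      have e1 : (rot ρ' (BT.leaf ρ') s) = s := rfl
      rw [e1, wd_eq, hsp]
      simp only [hsep, if_true]
      rw [rho_append]
      have e2 : g * rho (v (spl {ρ'})) * gS * (rho (rv (v (spl {ρ'}))) *
          rho (s.wd0 (fun x => if x ρ ρ' = false then rv (v x) else v x) i)) =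
          g * (rho (v (spl {ρ'})) * gS * rho (rv (v (spl {ρ'})))) *
          rho (s.wd0 (fun x => if x ρ ρ' = false then rv (v x) else v x) i) := by
        simp only [mul_assoc]
      rw [e2, rho_gS_rv]
  | node x y ihx ihy =>
    obtain ⟨hd, -, -, -, hrx, hry⟩ := ht
    have hlU : s.lv = (x.lv ∪ y.lv)ᶜ := hl
    have hρx : ρ ∉ x.lv := by
      rw [hlU] at hρ
      simp only [Finset.mem_compl, Finset.mem_union, not_or] at hρ
      exact hρ.1
    have hρy : ρ ∉ y.lv := by
      rw [hlU] at hρ
      simp only [Finset.mem_compl, Finset.mem_union, not_or] at hρ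
      exact hρ.2
    have hρU : ρ' ∈ x.lv ∪ y.lv := hρ'
    have hsp : spl s.lv = spl (x.lv ∪ y.lv) := by rw [hlU, spl_compl]
    have hsep : spl (x.lv ∪ y.lv) ρ ρ' = false := by
      rw [← Bool.not_eq_true, spl_apply]
      intro h
      have := h.2 hρU
      rw [Finset.mem_union] at this
      rcases this with h | h
      · exact hρx h
      · exact hρy h
    have hws : ∀ i, s.wd (fun x => if x ρ ρ' = false then rv (v x) else v x) i =
        rv (v (spl (x.lv ∪ y.lv))) ++
          s.wd0 (fun x => if x ρ ρ' = false then rv (v x) else v x) i := by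
      intro i
      rw [wd_eq, hsp]
      simp only [hsep, if_true]
    have hcongr : ∀ z : BT m, ρ ∉ z.lv → ρ' ∉ z.lv → ∀ i,
        z.wd (fun x => if x ρ ρ' = false then rv (v x) else v x) i = z.wd v i := by
      intro z h1 h2 i
      refine wd_congr _ _ z (fun B hB => ?_) i
      have : spl B ρ ρ' = true := by
        rw [spl_apply]
        exact ⟨fun h => absurd (hB h) h1, fun h => absurd (hB h) h2⟩
      simp [this]
    have hgF : gT false = gL := rfl
    have hgTt : gT true = gR := rfl
    by_cases hx : ρ' ∈ x.lv
    · have hy : ρ' ∉ y.lv := fun h => (Finset.disjoint_left.1 hd) hx h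
      have hsl : (BT.node y s).lv = x.lvᶜ := by
        show y.lv ∪ s.lv = x.lvᶜ
        rw [hlU]
        ext a
        simp only [Finset.mem_union, Finset.mem_compl, not_or]
        constructor
        · rintro (h | h)
          · exact fun h' => (Finset.disjoint_left.1 hd) h' h
          · exact h.1
        · intro h
          by_cases h2 : a ∈ y.lv
          · exact Or.inl h2
          · exact Or.inr ⟨h, h2⟩
      have hρs' : ρ ∈ (BT.node y s).lv := by rw [hsl]; simpa using hρx
      obtain ⟨g', ha, hb, hc⟩ := ihx (BT.node y s) hrx hsl hρs' hx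
        (g * rho (v (spl (x.lv ∪ y.lv))) * gL)
      have erot : rot ρ' (BT.node x y) s = rot ρ' x (BT.node y s) := by
        show (if ρ' ∈ x.lv then rot ρ' x (.node y s) else rot ρ' y (.node s x)) = _
        rw [if_pos hx]
      have ewx : ∀ i ∈ x.lv, (BT.node x y).wd v i =
          v (spl (x.lv ∪ y.lv)) ++ false :: x.wd v i := by
        intro i hi
        show v (spl (x.lv ∪ y.lv)) ++
          (if i ∈ x.lv then false :: x.wd v i else true :: y.wd v i) = _
        rw [if_pos hi]
      have ewy : ∀ i, i ∉ x.lv → (BT.node x y).wd v i =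
          v (spl (x.lv ∪ y.lv)) ++ true :: y.wd v i := by
        intro i hi
        show v (spl (x.lv ∪ y.lv)) ++
          (if i ∈ x.lv then false :: x.wd v i else true :: y.wd v i) = _
        rw [if_neg hi]
      refine ⟨g', ?_, ?_, ?_⟩
      · intro i hi hne
        rw [erot]
        by_cases hix : i ∈ x.lv
        · rw [← ha i hix hne, ewx i hix, rho_append, rho_cons, hgF]
          simp only [mul_assoc]
        · have hiy : i ∈ y.lv := by
            have : i ∈ x.lv ∪ y.lv := hi
            rw [Finset.mem_union] at this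
            exact this.resolve_left hix
          have his' : i ∈ (BT.node y s).lv := by
            show i ∈ y.lv ∪ s.lv
            exact Finset.mem_union_left _ hiy
          rw [← hc i his', ewy i hix]
          have e0 : (BT.node y s).wd0 (fun x => if x ρ ρ' = false then rv (v x) else v x) i =
              false :: y.wd v i := by
            show (if i ∈ y.lv then
              false :: y.wd (fun x => if x ρ ρ' = false then rv (v x) else v x) i
              else true :: s.wd (fun x => if x ρ ρ' = false then rv (v x) else v x) i) = _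
            rw [if_pos hiy, hcongr y hρy hy]
          rw [e0, rho_append, rho_cons, rho_cons, hgF, hgTt]
          have e1 : g * rho (v (spl (x.lv ∪ y.lv))) * gL * gS * (gL * rho (y.wd v i)) =
              g * rho (v (spl (x.lv ∪ y.lv))) * (gL * gS * gL) * rho (y.wd v i) := by
            simp only [mul_assoc]
          have e2 : g * (rho (v (spl (x.lv ∪ y.lv))) * (gR * rho (y.wd v i))) =
              g * rho (v (spl (x.lv ∪ y.lv))) * gR * rho (y.wd v i) := by
            simp only [mul_assoc]
          rw [e1, e2, mul_smul _ (rho (y.wd v i)), mul_smul _ (rho (y.wd v i)),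
            mul_smul _ (gL * gS * gL), mul_smul _ gR]
          have e3 := turn_smul false (rho (y.wd v i) • UpperHalfPlane.I)
          simp only [Bool.not_false] at e3
          rw [hgF, hgTt] at e3
          rw [e3]
      · rw [← hb, ewx ρ' hx, rho_append, rho_cons, hgF]
        simp only [mul_assoc]
      · intro i hi
        rw [erot]
        have hiU : i ∉ x.lv ∧ i ∉ y.lv := by
          rw [hlU] at hi
          simpa [not_or] using hi
        have his' : i ∈ (BT.node y s).lv := by
          show i ∈ y.lv ∪ s.lv
          exact Finset.mem_union_right _ hi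
        rw [← hc i his']
        have e0 : (BT.node y s).wd0 (fun x => if x ρ ρ' = false then rv (v x) else v x) i =
            true :: s.wd (fun x => if x ρ ρ' = false then rv (v x) else v x) i := by
          show (if i ∈ y.lv then
            false :: y.wd (fun x => if x ρ ρ' = false then rv (v x) else v x) i
            else true :: s.wd (fun x => if x ρ ρ' = false then rv (v x) else v x) i) = _
          rw [if_neg hiU.2]
        rw [e0, hws, rho_cons, rho_append, hgTt]
        have e1 : g * rho (v (spl (x.lv ∪ y.lv))) * gL * gS * (gR *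
            (rho (rv (v (spl (x.lv ∪ y.lv)))) *
              rho (s.wd0 (fun x => if x ρ ρ' = false then rv (v x) else v x) i))) =
            g * (rho (v (spl (x.lv ∪ y.lv))) * (gL * gS * gR) *
              rho (rv (v (spl (x.lv ∪ y.lv))))) *
              rho (s.wd0 (fun x => if x ρ ρ' = false then rv (v x) else v x) i) := by
          simp only [mul_assoc]
        have e2 := gT_gS_gT false
        simp only [Bool.not_false] at e2
        rw [hgF, hgTt] at e2
        rw [e1, e2, rho_gS_rv]
    · have hy : ρ' ∈ y.lv := by
        rw [Finset.mem_union] at hρU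
        exact hρU.resolve_left hx
      have hsl : (BT.node s x).lv = y.lvᶜ := by
        show s.lv ∪ x.lv = y.lvᶜ
        rw [hlU]
        ext a
        simp only [Finset.mem_union, Finset.mem_compl, not_or]
        constructor
        · rintro (h | h)
          · exact h.2
          · exact fun h' => (Finset.disjoint_left.1 hd) h h'
        · intro h
          by_cases h2 : a ∈ x.lv
          · exact Or.inr h2
          · exact Or.inl ⟨h2, h⟩
      have hρs' : ρ ∈ (BT.node s x).lv := by rw [hsl]; simpa using hρy
      obtain ⟨g', ha, hb, hc⟩ := ihy (BT.node s x) hry hsl hρs' hy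
        (g * rho (v (spl (x.lv ∪ y.lv))) * gR)
      have erot : rot ρ' (BT.node x y) s = rot ρ' y (BT.node s x) := by
        show (if ρ' ∈ x.lv then rot ρ' x (.node y s) else rot ρ' y (.node s x)) = _
        rw [if_neg hx]
      have ewx : ∀ i ∈ x.lv, (BT.node x y).wd v i =
          v (spl (x.lv ∪ y.lv)) ++ false :: x.wd v i := by
        intro i hi
        show v (spl (x.lv ∪ y.lv)) ++
          (if i ∈ x.lv then false :: x.wd v i else true :: y.wd v i) = _
        rw [if_pos hi]
      have ewy : ∀ i, i ∉ x.lv → (BT.node x y).wd v i =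
          v (spl (x.lv ∪ y.lv)) ++ true :: y.wd v i := by
        intro i hi
        show v (spl (x.lv ∪ y.lv)) ++
          (if i ∈ x.lv then false :: x.wd v i else true :: y.wd v i) = _
        rw [if_neg hi]
      refine ⟨g', ?_, ?_, ?_⟩
      · intro i hi hne
        rw [erot]
        by_cases hix : i ∈ x.lv
        · have his' : i ∈ (BT.node s x).lv := by
            show i ∈ s.lv ∪ x.lv
            exact Finset.mem_union_right _ hix
          have his : i ∉ s.lv := by
            rw [hlU]
            simp [hix]
          rw [← hc i his', ewx i hix]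
          have e0 : (BT.node s x).wd0 (fun x => if x ρ ρ' = false then rv (v x) else v x) i =
              true :: x.wd v i := by
            show (if i ∈ s.lv then
              false :: s.wd (fun x => if x ρ ρ' = false then rv (v x) else v x) i
              else true :: x.wd (fun x => if x ρ ρ' = false then rv (v x) else v x) i) = _
            rw [if_neg his, hcongr x hρx hx]
          rw [e0, rho_append, rho_cons, rho_cons, hgF, hgTt]
          have e1 : g * rho (v (spl (x.lv ∪ y.lv))) * gR * gS * (gR * rho (x.wd v i)) =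
              g * rho (v (spl (x.lv ∪ y.lv))) * (gR * gS * gR) * rho (x.wd v i) := by
            simp only [mul_assoc]
          have e2 : g * (rho (v (spl (x.lv ∪ y.lv))) * (gL * rho (x.wd v i))) =
              g * rho (v (spl (x.lv ∪ y.lv))) * gL * rho (x.wd v i) := by
            simp only [mul_assoc]
          rw [e1, e2, mul_smul _ (rho (x.wd v i)), mul_smul _ (rho (x.wd v i)),
            mul_smul _ (gR * gS * gR), mul_smul _ gL]
          have e3 := turn_smul true (rho (x.wd v i) • UpperHalfPlane.I)
          simp only [Bool.not_true] at e3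
          rw [hgF, hgTt] at e3
          rw [e3]
        · have hiy : i ∈ y.lv := by
            have : i ∈ x.lv ∪ y.lv := hi
            rw [Finset.mem_union] at this
            exact this.resolve_left hix
          rw [← ha i hiy hne, ewy i hix, rho_append, rho_cons, hgTt]
          simp only [mul_assoc]
      · rw [← hb, ewy ρ' hx, rho_append, rho_cons, hgTt]
        simp only [mul_assoc]
      · intro i hi
        rw [erot]
        have his' : i ∈ (BT.node s x).lv := by
          show i ∈ s.lv ∪ x.lv
          exact Finset.mem_union_left _ hi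
        rw [← hc i his']
        have e0 : (BT.node s x).wd0 (fun x => if x ρ ρ' = false then rv (v x) else v x) i =
            false :: s.wd (fun x => if x ρ ρ' = false then rv (v x) else v x) i := by
          show (if i ∈ s.lv then
            false :: s.wd (fun x => if x ρ ρ' = false then rv (v x) else v x) i
            else true :: x.wd (fun x => if x ρ ρ' = false then rv (v x) else v x) i) = _
          rw [if_pos hi]
        rw [e0, hws, rho_cons, rho_append, hgF]
        have e1 : g * rho (v (spl (x.lv ∪ y.lv))) * gR * gS * (gL *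
            (rho (rv (v (spl (x.lv ∪ y.lv)))) *
              rho (s.wd0 (fun x => if x ρ ρ' = false then rv (v x) else v x) i))) =
            g * (rho (v (spl (x.lv ∪ y.lv))) * (gR * gS * gL) *
              rho (rv (v (spl (x.lv ∪ y.lv))))) *
              rho (s.wd0 (fun x => if x ρ ρ' = false then rv (v x) else v x) i) := by
          simp only [mul_assoc]
        have e2 := gT_gS_gT true
        simp only [Bool.not_true] at e2
        rw [hgF, hgTt] at e2
        rw [e1, e2, rho_gS_rv]

theorem conf_root {m : ℕ} (τ : RTree m) (ρ ρ' : Fin m) (t t' : BT m) (ht : Rep τ t)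
    (hl : t.lv = {ρ}ᶜ) (ht' : Rep τ t') (hl' : t'.lv = {ρ'}ᶜ) (v : Split m → Wd) :
    ∃ g : SL(2, ℝ), ∀ i, conf t ρ v i =
      g • conf t' ρ' (fun x => if x ρ ρ' = false then rv (v x) else v x) i := by
  by_cases hne : ρ' = ρ
  · subst hne
    have htt : t = t' := by
      refine rep_unique τ ρ' t t' ht ht' (by rw [hl, hl']) ?_
      rw [hl]; simp
    subst htt
    refine ⟨1, fun i => ?_⟩
    rw [one_smul]
    unfold conf
    have : t.wd v i = t.wd (fun x => if x ρ' ρ' = false then rv (v x) else v x) i := by
      refine wd_congr _ _ t (fun B _ => ?_) i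
      have : spl B ρ' ρ' = true := by rw [spl_apply]
      simp [this]
    rw [this]
  · have hkey : Key τ t.lv := Or.inr (Or.inl ⟨ρ, by rw [hl, compl_compl]⟩)
    have hsl : (BT.leaf ρ : BT m).lv = t.lvᶜ := by
      rw [hl, compl_compl]; rfl
    have hρ' : ρ' ∈ t.lv := by rw [hl]; simpa using hne
    have hρs : ρ ∈ (BT.leaf ρ : BT m).lv := by
      show ρ ∈ ({ρ} : Finset (Fin m))
      simp
    obtain ⟨hr, hrl⟩ := rot_spec τ ρ' t (BT.leaf ρ) ht trivial hkey hsl hρ'
    have hrt : rot ρ' t (BT.leaf ρ) = t' := by
      refine rep_unique τ ρ' _ t' hr ht' (by rw [hrl, hl']) ?_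
      rw [hrl]; simp
    obtain ⟨g', ha, hb, hc⟩ := rot_conf τ ρ ρ' v t (BT.leaf ρ) ht hsl hρs hρ' 1
    rw [hrt] at ha hc
    refine ⟨g', fun i => ?_⟩
    by_cases hi : i = ρ
    · subst hi
      have e := hc i hρs
      have e0 : (BT.leaf i : BT m).wd0 (fun x => if x i ρ' = false then rv (v x) else v x) i =
        [] := rfl
      rw [e0, rho_nil, mul_one, one_mul, gS_smul_I, mul_smul] at e
      unfold conf
      rw [if_pos rfl, if_neg (fun h => hne h.symm)]
      exact e
    · by_cases hi' : i = ρ'
      · subst hi'
        rw [one_mul] at hb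
        unfold conf
        rw [if_neg hi, if_pos rfl]
        exact hb
      · have hit : i ∈ t.lv := by rw [hl]; simpa using hi
        have e := ha i hit hi'
        rw [one_mul, mul_smul] at e
        unfold conf
        rw [if_neg hi, if_neg hi']
        exact e

end SimplVol
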