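import Mathlib

/-!
# Module FDL: exact measurable fundamental domains

`R = {x ∈ X | ∀ g, k x < k (T g x) ∨ (k x = k (T g x) ∧ e x ≤ e (T g x))}`.
* measurable: countable intersection of sets given by measurable functions (`measurableSet_lt`, `measurableSet_le`, `measurableSet_eq_fun`).
* existence: for `x ∈ X` the set `{g | k (T g x) ≤ k x}` is finite and contains `1`; let `g` minimise `(k (T g x), e (T g x))` lexicographically in it (`Finset.exists_min_image` with values in `ℝ ×ₗ ℝ`, `toLex`; or first minimise `k`, then `e` among the minimisers); `T g x ∈ R` (`T h (T g x) = T (h * g) x`).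
* uniqueness: if `T g x` and `T h x` are in `R` then each is `≤` the other in the lexicographic order, so `e (T g x) = e (T h x)`, so `T g x = T h x` (`e` injective), `T (h⁻¹ * g) x = x`, `g = h` by freeness.
-/

set_option autoImplicit false

namespace SimplVol

theorem exists_fd {G α : Type} [Group G] [Countable G] [MeasurableSpace α] (T : G → α → α)
    (hT1 : ∀ x, T 1 x = x) (hTm : ∀ g h x, T (g * h) x = T g (T h x))
    (hmeas : ∀ g, Measurable (T g)) (X : Set α) (hX : MeasurableSet X)
    (hinv : ∀ g, ∀ x ∈ X, T g x ∈ X) (hfree : ∀ g, ∀ x ∈ X, T g x = x → g = 1)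
    (k e : α → ℝ) (hk : Measurable k) (he : Measurable e) (hei : Function.Injective e)
    (hfin : ∀ x ∈ X, ∀ r : ℝ, {g : G | k (T g x) ≤ r}.Finite) :
    ∃ R : Set α, MeasurableSet R ∧ R ⊆ X ∧ (∀ x ∈ X, ∃! g : G, T g x ∈ R) ∧
      ∀ x ∈ R, ∀ g : G, k x ≤ k (T g x) := by
  classical
  refine ⟨{x | x ∈ X ∧ ∀ g, k x < k (T g x) ∨ (k x = k (T g x) ∧ e x ≤ e (T g x))}, ?_, ?_, ?_, ?_⟩
  · have h1 : {x | x ∈ X ∧ ∀ g, k x < k (T g x) ∨ (k x = k (T g x) ∧ e x ≤ e (T g x))} =
        X ∩ ⋂ g, ({x | k x < k (T g x)} ∪ ({x | k x = k (T g x)} ∩ {x | e x ≤ e (T g x)})) := by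
      ext x
      simp only [Set.mem_setOf_eq, Set.mem_inter_iff, Set.mem_iInter, Set.mem_union]
    rw [h1]
    refine hX.inter (MeasurableSet.iInter fun g => ?_)
    exact (measurableSet_lt hk (hk.comp (hmeas g))).union
      ((measurableSet_eq_fun hk (hk.comp (hmeas g))).inter (measurableSet_le he (he.comp (hmeas g))))
  · intro x hx
    exact hx.1
  · intro x hx
    have hS : ∀ g, g ∈ (hfin x hx (k x)).toFinset ↔ k (T g x) ≤ k x := by
      intro g
      rw [Set.Finite.mem_toFinset]
      rfl
    have h1S : (1 : G) ∈ (hfin x hx (k x)).toFinset := by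
      rw [hS, hT1]
    obtain ⟨g0, hg0, hmin0⟩ := Finset.exists_min_image (hfin x hx (k x)).toFinset
      (fun g => k (T g x)) ⟨1, h1S⟩
    obtain ⟨g1, hg1, hmin1⟩ := Finset.exists_min_image
      ((hfin x hx (k x)).toFinset.filter (fun g => k (T g x) = k (T g0 x)))
      (fun g => e (T g x)) ⟨g0, Finset.mem_filter.2 ⟨hg0, rfl⟩⟩
    rw [Finset.mem_filter] at hg1
    have hk0 : k (T g0 x) ≤ k x := (hS g0).1 hg0
    refine ⟨g1, ⟨hinv g1 x hx, fun h => ?_⟩, ?_⟩
    · rw [← hTm]
      by_cases hc : k (T (h * g1) x) ≤ k x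
      · have h2 := hmin0 (h * g1) ((hS _).2 hc)
        rcases h2.lt_or_eq with h3 | h3
        · left
          rw [hg1.2]
          exact h3
        · right
          refine ⟨by rw [hg1.2]; exact h3, ?_⟩
          exact hmin1 (h * g1) (Finset.mem_filter.2 ⟨(hS _).2 hc, h3.symm⟩)
      · left
        rw [hg1.2]
        exact lt_of_le_of_lt hk0 (not_le.1 hc)
    · rintro g ⟨_, hg⟩
      have a1 := hg (g1 * g⁻¹)
      rw [← hTm, inv_mul_cancel_right] at a1
      have hR1 : ∀ h, k (T g1 x) < k (T h (T g1 x)) ∨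
          (k (T g1 x) = k (T h (T g1 x)) ∧ e (T g1 x) ≤ e (T h (T g1 x))) := by
        intro h
        rw [← hTm]
        by_cases hc : k (T (h * g1) x) ≤ k x
        · have h2 := hmin0 (h * g1) ((hS _).2 hc)
          rcases h2.lt_or_eq with h3 | h3
          · left
            rw [hg1.2]
            exact h3
          · right
            refine ⟨by rw [hg1.2]; exact h3, ?_⟩
            exact hmin1 (h * g1) (Finset.mem_filter.2 ⟨(hS _).2 hc, h3.symm⟩)
        · left
          rw [hg1.2]
          exact lt_of_le_of_lt hk0 (not_le.1 hc)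
      have a2 := hR1 (g * g1⁻¹)
      rw [← hTm, inv_mul_cancel_right] at a2
      have a3 : e (T g x) = e (T g1 x) := by
        rcases a1 with a1 | a1 <;> rcases a2 with a2 | a2
        · exact absurd (a1.trans a2) (lt_irrefl _)
        · exact absurd a2.1 (ne_of_gt a1)
        · exact absurd a1.1 (ne_of_gt a2)
        · exact le_antisymm a1.2 a2.2
      have a4 := hei a3
      have a5 : T (g1⁻¹ * g) x = x := by
        rw [hTm, a4, ← hTm, inv_mul_cancel, hT1]
      have a6 := hfree _ x hx a5
      rw [inv_mul_eq_one] at a6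
      exact a6.symm
  · rintro x ⟨_, hx⟩ g
    rcases hx g with h | h
    · exact h.le
    · exact h.1.le

end SimplVol
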