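import Pool.Agent.H54.RT.FY

/-!
# Module SF: finitely many Farey edges separate two pairs of vectors

Write `γ = (p q; r s)`, `ps - qr = 1`, `R₁(v) = p v.1 + q v.2 = (act (tR γ) v).1`, `R₂(v) = r v.1 + s v.2`, `cc γ v = R₁(v) R₂(v)`. `dt_act`: `R₁(v) R₂(w) - R₁(w) R₂(v) = dt v w` (up to order).
For `v ∈ {a, b}`, `w ∈ {c, d}`: `cc γ v * cc γ w < 0`, so `R₁(v) R₂(w)` and `R₁(w) R₂(v)` have opposite signs and their difference is `dt v w`: both are at most `|dt v w| ≤ C` in absolute value (`C` = the largest of the four).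
As `dt a b ≠ 0`, one of `|R₁(a) R₂(b)|`, `|R₁(b) R₂(a)|` is at least `m = |dt a b|/2 > 0`. Say `|R₁(a)| |R₂(b)| ≥ m` (the other case: exchange `a` and `b`). For `w, w' ∈ {c, d}`: `|R₂(w)| |R₁(a)| ≤ C`, `|R₁(w')| |R₂(b)| ≤ C`, so
`|R₁(w') R₂(w)| ≤ C²/m`. As `c, d` are a basis of the plane, `p = R₁(e₁)`, `q = R₁(e₂)` are fixed linear combinations of `R₁(c), R₁(d)`: `dt c d * p = R₁(c) d.2 - R₁(d) c.2`, `dt c d * q = - R₁(c) d.1 + R₁(d) c.1`, the same for `r`, `s` with `R₂`. So all products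
`|p r|, |p s|, |q r|, |q s|` are at most some `K` (depending only on `a, b, c, d`). Since `(r, s) ≠ 0` and `(p, q) ≠ 0` are integer vectors, `|p|, |q|, |r|, |s| ≤ K`. Finitely many integer matrices with bounded entries: `Set.Finite.subset` / `Set.Finite.of_injOn`/`Set.Finite.preimage` of the
set of `(p, q, r, s) ∈ [-N, N]^4` under the injective map `γ ↦ (γ 0 0, γ 0 1, γ 1 0, γ 1 1)`.
(`tR γ i j = (γ i j : ℝ)` by `rfl`/`simp [tR]`.)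
-/

set_option autoImplicit false

open scoped BigOperators UpperHalfPlane MatrixGroups

namespace SimplVol

theorem SF_key {x y D : ℝ} (h : x * y < 0) (hD : x - y = D) : |x| ≤ |D| ∧ |y| ≤ |D| := by
  constructor
  · apply sq_le_sq.1
    rw [← hD]
    nlinarith [sq_nonneg y]
  · apply sq_le_sq.1
    rw [← hD]
    nlinarith [sq_nonneg x]

theorem SF_sign {A C D : ℝ} (h1 : A * C < 0) (h2 : 0 < C * D) : A * D < 0 := by
  by_contra h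
  push Not at h
  have h3 : A * C * (C * D) < 0 := mul_neg_of_neg_of_pos h1 h2
  have h4 : 0 ≤ A * D * C ^ 2 := mul_nonneg h (sq_nonneg C)
  nlinarith

theorem SF_PQ {Xa Xb Xc Xd Ya Yb Yc Yd Dab Dac Dad Dbc Dbd : ℝ} (e1 : Xa * Yb - Xb * Ya = Dab)
    (e2 : Xa * Yc - Xc * Ya = Dac) (e3 : Xa * Yd - Xd * Ya = Dad) (e4 : Xb * Yc - Xc * Yb = Dbc)
    (e5 : Xb * Yd - Xd * Yb = Dbd) (h1 : 0 < (Xa * Ya) * (Xb * Yb))
    (h2 : 0 < (Xc * Yc) * (Xd * Yd)) (h3 : (Xa * Ya) * (Xc * Yc) < 0) :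
    (|Xc| + |Xd|) * (|Yc| + |Yd|) * (|Dab| / 2) ≤ (|Dac| + |Dad| + |Dbc| + |Dbd|) ^ 2 := by
  have s1 : (Xa * Ya) * (Xd * Yd) < 0 := SF_sign h3 h2
  have s2 : (Xc * Yc) * (Xb * Yb) < 0 := SF_sign (by rw [mul_comm]; exact h3) h1
  have s2' : (Xb * Yb) * (Xc * Yc) < 0 := by rw [mul_comm]; exact s2
  have s3 : (Xb * Yb) * (Xd * Yd) < 0 := SF_sign s2' h2
  obtain ⟨u1, u2⟩ := SF_key (x := Xa * Yc) (y := Xc * Ya) (by nlinarith) e2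
  obtain ⟨u3, u4⟩ := SF_key (x := Xa * Yd) (y := Xd * Ya) (by nlinarith) e3
  obtain ⟨u5, u6⟩ := SF_key (x := Xb * Yc) (y := Xc * Yb) (by nlinarith) e4
  obtain ⟨u7, u8⟩ := SF_key (x := Xb * Yd) (y := Xd * Yb) (by nlinarith) e5
  rw [abs_mul] at u1 u2 u3 u4 u5 u6 u7 u8
  have n1 := abs_nonneg Dac
  have n2 := abs_nonneg Dad
  have n3 := abs_nonneg Dbc
  have n4 := abs_nonneg Dbd
  have m1 := abs_nonneg Xa
  have m2 := abs_nonneg Xb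
  have m3 := abs_nonneg Xc
  have m4 := abs_nonneg Xd
  have k1 := abs_nonneg Ya
  have k2 := abs_nonneg Yb
  have k3 := abs_nonneg Yc
  have k4 := abs_nonneg Yd
  have v1 : |Xa| * (|Yc| + |Yd|) ≤ |Dac| + |Dad| + |Dbc| + |Dbd| := by
    rw [mul_add]
    linarith
  have v2 : (|Xc| + |Xd|) * |Yb| ≤ |Dac| + |Dad| + |Dbc| + |Dbd| := by
    rw [add_mul]
    linarith
  have v3 : |Xb| * (|Yc| + |Yd|) ≤ |Dac| + |Dad| + |Dbc| + |Dbd| := by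
    rw [mul_add]
    linarith
  have v4 : (|Xc| + |Xd|) * |Ya| ≤ |Dac| + |Dad| + |Dbc| + |Dbd| := by
    rw [add_mul]
    linarith
  generalize |Dac| + |Dad| + |Dbc| + |Dbd| = C at v1 v2 v3 v4
  have w1 : (|Xa| * (|Yc| + |Yd|)) * ((|Xc| + |Xd|) * |Yb|) ≤ C * C :=
    mul_le_mul v1 v2 (by positivity) ((by positivity : (0 : ℝ) ≤ |Xa| * (|Yc| + |Yd|)).trans v1)
  have w2 : (|Xb| * (|Yc| + |Yd|)) * ((|Xc| + |Xd|) * |Ya|) ≤ C * C :=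
    mul_le_mul v3 v4 (by positivity) ((by positivity : (0 : ℝ) ≤ |Xb| * (|Yc| + |Yd|)).trans v3)
  have hP : 0 ≤ (|Xc| + |Xd|) * (|Yc| + |Yd|) := by positivity
  have hD : |Dab| ≤ |Xa| * |Yb| + |Xb| * |Ya| := by
    rw [← e1, ← abs_mul, ← abs_mul]
    exact abs_sub _ _
  have h5 : (|Xc| + |Xd|) * (|Yc| + |Yd|) * |Dab| ≤
      (|Xc| + |Xd|) * (|Yc| + |Yd|) * (|Xa| * |Yb| + |Xb| * |Ya|) :=
    mul_le_mul_of_nonneg_left hD hP
  nlinarith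

theorem SF_ent {D p Xc Xd c2 d2 E : ℝ} (h : D * p = Xc * d2 - Xd * c2) (h1 : |c2| ≤ E)
    (h2 : |d2| ≤ E) : |D| * |p| ≤ (|Xc| + |Xd|) * E := by
  rw [← abs_mul, h]
  refine (abs_sub _ _).trans ?_
  rw [abs_mul, abs_mul, add_mul]
  exact add_le_add (mul_le_mul_of_nonneg_left h2 (abs_nonneg _))
    (mul_le_mul_of_nonneg_left h1 (abs_nonneg _))

theorem SF_int {p q r s : ℤ} {K : ℝ} (hdet : p * s - q * r = 1)
    (h1 : |(p : ℝ)| * |(r : ℝ)| ≤ K) (h2 : |(p : ℝ)| * |(s : ℝ)| ≤ K)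
    (h3 : |(q : ℝ)| * |(r : ℝ)| ≤ K) (h4 : |(q : ℝ)| * |(s : ℝ)| ≤ K) :
    |(p : ℝ)| ≤ K ∧ |(q : ℝ)| ≤ K ∧ |(r : ℝ)| ≤ K ∧ |(s : ℝ)| ≤ K := by
  have hint : ∀ x : ℤ, x ≠ 0 → 1 ≤ |(x : ℝ)| := by
    intro x hx
    have h := Int.one_le_abs hx
    exact_mod_cast h
  have hlin : ∀ {x y : ℝ}, 1 ≤ |y| → |x| * |y| ≤ K → |x| ≤ K := by
    intro x y h5 h6
    nlinarith [abs_nonneg x]
  have hlin' : ∀ {x y : ℝ}, 1 ≤ |x| → |x| * |y| ≤ K → |y| ≤ K := by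
    intro x y h5 h6
    nlinarith [abs_nonneg y]
  have hpq : p ≠ 0 ∨ q ≠ 0 := by
    by_contra h
    push Not at h
    rw [h.1, h.2] at hdet
    simp at hdet
  have hrs : r ≠ 0 ∨ s ≠ 0 := by
    by_contra h
    push Not at h
    rw [h.1, h.2] at hdet
    simp at hdet
  have e1 : |(p : ℝ)| ≤ K ∧ |(q : ℝ)| ≤ K := by
    rcases hrs with h | h
    · exact ⟨hlin (hint r h) h1, hlin (hint r h) h3⟩
    · exact ⟨hlin (hint s h) h2, hlin (hint s h) h4⟩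
  have e2 : |(r : ℝ)| ≤ K ∧ |(s : ℝ)| ≤ K := by
    rcases hpq with h | h
    · exact ⟨hlin' (hint p h) h1, hlin' (hint p h) h2⟩
    · exact ⟨hlin' (hint q h) h3, hlin' (hint q h) h4⟩
  exact ⟨e1.1, e1.2, e2.1, e2.2⟩

theorem SF_fin (K : ℝ) : {γ : SL(2, ℤ) | |((γ 0 0 : ℤ) : ℝ)| ≤ K ∧ |((γ 0 1 : ℤ) : ℝ)| ≤ K ∧
    |((γ 1 0 : ℤ) : ℝ)| ≤ K ∧ |((γ 1 1 : ℤ) : ℝ)| ≤ K}.Finite := by
  have hinj : Function.Injective (fun γ : SL(2, ℤ) => ((γ 0 0 : ℤ), (γ 0 1 : ℤ), (γ 1 0 : ℤ),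
      (γ 1 1 : ℤ))) := by
    intro γ δ h
    simp only [Prod.mk.injEq] at h
    obtain ⟨h1, h2, h3, h4⟩ := h
    apply Matrix.SpecialLinearGroup.ext
    intro i j
    fin_cases i <;> fin_cases j
    · exact h1
    · exact h2
    · exact h3
    · exact h4
  have hfin : (Set.Icc ((-⌈K⌉, -⌈K⌉, -⌈K⌉, -⌈K⌉) : ℤ × ℤ × ℤ × ℤ)
      (⌈K⌉, ⌈K⌉, ⌈K⌉, ⌈K⌉)).Finite := Set.finite_Icc _ _
  refine (hfin.preimage hinj.injOn).subset ?_
  intro γ hγ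
  obtain ⟨h1, h2, h3, h4⟩ := hγ
  have hb : ∀ x : ℤ, |(x : ℝ)| ≤ K → -⌈K⌉ ≤ x ∧ x ≤ ⌈K⌉ := by
    intro x hx
    have h5 : |(x : ℝ)| ≤ (⌈K⌉ : ℝ) := hx.trans (Int.le_ceil K)
    have h6 : |x| ≤ ⌈K⌉ := by exact_mod_cast h5
    exact abs_le.1 h6
  rw [Set.mem_preimage, Set.mem_Icc, Prod.mk_le_mk, Prod.mk_le_mk, Prod.mk_le_mk, Prod.mk_le_mk,
    Prod.mk_le_mk, Prod.mk_le_mk]
  exact ⟨⟨(hb _ h1).1, (hb _ h2).1, (hb _ h3).1, (hb _ h4).1⟩,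
    ⟨(hb _ h1).2, (hb _ h2).2, (hb _ h3).2, (hb _ h4).2⟩⟩

theorem SF_tR (γ : SL(2, ℤ)) (i j : Fin 2) : (tR γ) i j = ((γ i j : ℤ) : ℝ) := by
  simp [tR]

theorem sep_finite (a b c d : Pl) (hab : dt a b ≠ 0) (hcd : dt c d ≠ 0) :
    {γ : SL(2, ℤ) | 0 < cc γ a * cc γ b ∧ 0 < cc γ c * cc γ d ∧ cc γ a * cc γ c < 0}.Finite := by
  refine (SF_fin ((|dt a c| + |dt a d| + |dt b c| + |dt b d|) ^ 2 *
    (|c.1| + |c.2| + |d.1| + |d.2|) ^ 2 / ((dt c d) ^ 2 * (|dt a b| / 2)))).subset ?_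
  intro γ hγ
  obtain ⟨h1, h2, h3⟩ := hγ
  have hdt := fun u v => dt_act (tR γ) u v
  have hdet : (γ 0 0 : ℤ) * γ 1 1 - γ 0 1 * γ 1 0 = 1 := by
    have h := γ.det_coe
    rw [Matrix.det_fin_two] at h
    exact h
  unfold cc act at h1 h2 h3
  unfold act at hdt
  simp only [SF_tR] at h1 h2 h3 hdt
  generalize hp : (γ 0 0 : ℤ) = p at h1 h2 h3 hdt hdet
  generalize hq : (γ 0 1 : ℤ) = q at h1 h2 h3 hdt hdet
  generalize hr : (γ 1 0 : ℤ) = r at h1 h2 h3 hdt hdet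
  generalize hs : (γ 1 1 : ℤ) = s at h1 h2 h3 hdt hdet
  have hPQ := SF_PQ (Xa := p * a.1 + q * a.2) (Xb := p * b.1 + q * b.2) (Xc := p * c.1 + q * c.2)
    (Xd := p * d.1 + q * d.2) (Ya := r * a.1 + s * a.2) (Yb := r * b.1 + s * b.2)
    (Yc := r * c.1 + s * c.2) (Yd := r * d.1 + s * d.2) (Dab := dt a b) (Dac := dt a c)
    (Dad := dt a d) (Dbc := dt b c) (Dbd := dt b d)
    (by rw [← hdt a b]; unfold dt; ring) (by rw [← hdt a c]; unfold dt; ring)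
    (by rw [← hdt a d]; unfold dt; ring) (by rw [← hdt b c]; unfold dt; ring)
    (by rw [← hdt b d]; unfold dt; ring) h1 h2 h3
  have b1 := abs_nonneg c.1
  have b2 := abs_nonneg c.2
  have b3 := abs_nonneg d.1
  have b4 := abs_nonneg d.2
  have hp1 := SF_ent (D := dt c d) (p := (p : ℝ)) (Xc := p * c.1 + q * c.2)
    (Xd := p * d.1 + q * d.2) (c2 := c.2) (d2 := d.2) (E := |c.1| + |c.2| + |d.1| + |d.2|)
    (by unfold dt; ring) (by linarith) (by linarith)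
  have hq1 := SF_ent (D := dt c d) (p := (q : ℝ)) (Xc := p * c.1 + q * c.2)
    (Xd := p * d.1 + q * d.2) (c2 := -c.1) (d2 := -d.1) (E := |c.1| + |c.2| + |d.1| + |d.2|)
    (by unfold dt; ring) (by rw [abs_neg]; linarith) (by rw [abs_neg]; linarith)
  have hr1 := SF_ent (D := dt c d) (p := (r : ℝ)) (Xc := r * c.1 + s * c.2)
    (Xd := r * d.1 + s * d.2) (c2 := c.2) (d2 := d.2) (E := |c.1| + |c.2| + |d.1| + |d.2|)
    (by unfold dt; ring) (by linarith) (by linarith)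
  have hs1 := SF_ent (D := dt c d) (p := (s : ℝ)) (Xc := r * c.1 + s * c.2)
    (Xd := r * d.1 + s * d.2) (c2 := -c.1) (d2 := -d.1) (E := |c.1| + |c.2| + |d.1| + |d.2|)
    (by unfold dt; ring) (by rw [abs_neg]; linarith) (by rw [abs_neg]; linarith)
  have hE : 0 ≤ |c.1| + |c.2| + |d.1| + |d.2| := by positivity
  generalize |c.1| + |c.2| + |d.1| + |d.2| = E at hp1 hq1 hr1 hs1 hE
  have hP0 : 0 ≤ |(p : ℝ) * c.1 + q * c.2| + |(p : ℝ) * d.1 + q * d.2| := by positivity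
  have hQ0 : 0 ≤ |(r : ℝ) * c.1 + s * c.2| + |(r : ℝ) * d.1 + s * d.2| := by positivity
  generalize |(p : ℝ) * c.1 + q * c.2| + |(p : ℝ) * d.1 + q * d.2| = P at hPQ hp1 hq1 hP0
  generalize |(r : ℝ) * c.1 + s * c.2| + |(r : ℝ) * d.1 + s * d.2| = Q at hPQ hr1 hs1 hQ0
  generalize |dt a c| + |dt a d| + |dt b c| + |dt b d| = C at hPQ
  have hm : 0 < |dt a b| / 2 := by positivity
  have hDD : 0 < (dt c d) ^ 2 := by positivity
  have hfin : ∀ x y : ℝ, |dt c d| * |x| ≤ P * E → |dt c d| * |y| ≤ Q * E →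
      |x| * |y| ≤ C ^ 2 * E ^ 2 / ((dt c d) ^ 2 * (|dt a b| / 2)) := by
    intro x y hx hy
    rw [le_div_iff₀ (by positivity)]
    have h5 : (|dt c d| * |x|) * (|dt c d| * |y|) ≤ (P * E) * (Q * E) :=
      mul_le_mul hx hy (by positivity) (by positivity)
    have h6 : (|dt c d| * |x|) * (|dt c d| * |y|) = |x| * |y| * (dt c d) ^ 2 := by
      rw [← sq_abs (dt c d)]
      ring
    rw [h6] at h5
    calc |x| * |y| * ((dt c d) ^ 2 * (|dt a b| / 2)) =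
        (|x| * |y| * (dt c d) ^ 2) * (|dt a b| / 2) := by ring
      _ ≤ ((P * E) * (Q * E)) * (|dt a b| / 2) := mul_le_mul_of_nonneg_right h5 hm.le
      _ = (P * Q * (|dt a b| / 2)) * E ^ 2 := by ring
      _ ≤ C ^ 2 * E ^ 2 := mul_le_mul_of_nonneg_right hPQ (sq_nonneg E)
  have hres := SF_int hdet (hfin _ _ hp1 hr1) (hfin _ _ hp1 hs1) (hfin _ _ hq1 hr1)
    (hfin _ _ hq1 hs1)
  rw [Set.mem_ofPred_eq, hp, hq, hr, hs]
  exact hres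

end SimplVol
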