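import Pool.Agent.H54.RT.SA
import Pool.Agent.H54.RT.FDL
import Pool.Agent.H54.RT.SF

/-!
# Module FZ: a fundamental domain for `SL(2, ℤ)` in the space of matrices

Rows of `A = (p, q)`: `r₁ = (p.1, q.1)`, `r₂ = (p.2, q.2)`. For `γ = (a b; c d)`: the rows of `lm γ A` are `a r₁ + b r₂`, `c r₁ + d r₂`. `Γ = tR.range`.
Use `exists_fd` with `G = tR.range` (countable: image of the countable group `SL(2, ℤ)`, which embeds in `Fin 2 → Fin 2 → ℤ`), `T g = lm g`, `X = XX`, `k A = p.1² + p.2² + q.1² + q.2²`, `e` = any injective measurable function `Pl × Pl → ℝ` (`MeasureTheory.measurableEmbedding_embeddingReal (Pl × Pl)`), free: `lm_free`.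
`hfin`: for `A ∈ XX` the entries of `g = (lm g A) A⁻¹` are bounded in terms of `k (lm g A)` (`g 0 0 = ((lm g A).1.1 A.2.2 - (lm g A).2.1 A.1.2)/dt A.1 A.2` etc.), so finitely many integral matrices.
Finite measure: for `A ∈ R`, minimality for `γ = (1 ±1; 0 1)` and `(1 0; ±1 1)`: `2 |r₁·r₂| ≤ |r₂|²` and `2 |r₁·r₂| ≤ |r₁|²`. So `R ⊆ S₁ ∪ S₂`, `S₁ = {A | 0 < dt ≤ 1, |r₁|² ≤ |r₂|², 2 |r₁·r₂| ≤ |r₁|²}` and `S₂` the same with `r₁`, `r₂` exchanged (the image of `S₁` under the measure preserving map `((p.1, p.2), (q.1, q.2)) ↦ ((p.2, p.1), (q.2, q.1))`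
up to the sign of the determinant: define `S₁` with `0 < |dt A.1 A.2| ≤ 1` to have symmetry). In `S₁`: `dt² = |r₁|²|r₂|² - (r₁·r₂)² ≥ (3/4) |r₁|²|r₂|² ≥ (3/4)|r₁|⁴`, so `|r₁|² ≤ 2`. So `S₁ ⊆ S = {|r₁|² ≤ 2, 0 < |r₁ ∧ r₂| ≤ 1, 2 |r₁·r₂| ≤ |r₁|²}`. After `tr_preserving` (rows as pairs) and Fubini (`Measure.prod_apply`, or
`measure_prod..`/`lintegral` bound): for fixed `r₁ ≠ 0` the slice is the preimage of the box `[-|r₁|²/2, |r₁|²/2] × [-1, 1]` under the linear map `r₂ ↦ (r₁·r₂, r₁ ∧ r₂)` of determinant `|r₁|²`, so its measure is `2` (`Measure.addHaar_preimage_linearMap`, `LinearMap.det_toLin` with `Module.Basis.finTwoProd ℝ` as in `act_preserving` of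
`Pool/Agent/H74/SV/PL.lean`); the slice at `r₁ = 0` is empty. The set of `r₁` with `|r₁|² ≤ 2` has finite measure (bounded). So the measure of `S` is finite.
-/

set_option autoImplicit false

open scoped BigOperators UpperHalfPlane MatrixGroups ENNReal
open MeasureTheory

namespace SimplVol

/-- the region in terms of the rows -/
def FZ_S : Set (Pl × Pl) := {x | 0 < x.1.1 ^ 2 + x.1.2 ^ 2 ∧ x.1.1 ^ 2 + x.1.2 ^ 2 ≤ 2 ∧
  (-1 ≤ x.1.1 * x.2.2 - x.1.2 * x.2.1 ∧ x.1.1 * x.2.2 - x.1.2 * x.2.1 ≤ 1) ∧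
  (-(x.1.1 ^ 2 + x.1.2 ^ 2) / 2 ≤ x.1.1 * x.2.1 + x.1.2 * x.2.2 ∧
    x.1.1 * x.2.1 + x.1.2 * x.2.2 ≤ (x.1.1 ^ 2 + x.1.2 ^ 2) / 2)}

theorem FZ_S_meas : MeasurableSet FZ_S := by
  have h1 : MeasurableSet {x : Pl × Pl | 0 < x.1.1 ^ 2 + x.1.2 ^ 2} :=
    measurableSet_lt measurable_const (by fun_prop)
  have h2 : MeasurableSet {x : Pl × Pl | x.1.1 ^ 2 + x.1.2 ^ 2 ≤ 2} :=
    measurableSet_le (by fun_prop) measurable_const
  have h3 : MeasurableSet {x : Pl × Pl | -1 ≤ x.1.1 * x.2.2 - x.1.2 * x.2.1} :=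
    measurableSet_le measurable_const (by fun_prop)
  have h4 : MeasurableSet {x : Pl × Pl | x.1.1 * x.2.2 - x.1.2 * x.2.1 ≤ 1} :=
    measurableSet_le (by fun_prop) measurable_const
  have h5 : MeasurableSet {x : Pl × Pl | -(x.1.1 ^ 2 + x.1.2 ^ 2) / 2 ≤
      x.1.1 * x.2.1 + x.1.2 * x.2.2} := measurableSet_le (by fun_prop) (by fun_prop)
  have h6 : MeasurableSet {x : Pl × Pl | x.1.1 * x.2.1 + x.1.2 * x.2.2 ≤
      (x.1.1 ^ 2 + x.1.2 ^ 2) / 2} := measurableSet_le (by fun_prop) (by fun_prop)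
  exact h1.inter (h2.inter ((h3.inter h4).inter (h5.inter h6)))

theorem FZ_slice (x : Pl) (hx : 0 < x.1 ^ 2 + x.2 ^ 2) :
    volume {v : Pl | (-1 ≤ x.1 * v.2 - x.2 * v.1 ∧ x.1 * v.2 - x.2 * v.1 ≤ 1) ∧
      (-(x.1 ^ 2 + x.2 ^ 2) / 2 ≤ x.1 * v.1 + x.2 * v.2 ∧
        x.1 * v.1 + x.2 * v.2 ≤ (x.1 ^ 2 + x.2 ^ 2) / 2)} = 2 := by
  have hd : LinearMap.det (Matrix.toLin (Module.Basis.finTwoProd ℝ) (Module.Basis.finTwoProd ℝ)
      !![x.1, x.2; -x.2, x.1]) = x.1 ^ 2 + x.2 ^ 2 := by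
    rw [LinearMap.det_toLin, Matrix.det_fin_two_of]
    ring
  have he : {v : Pl | (-1 ≤ x.1 * v.2 - x.2 * v.1 ∧ x.1 * v.2 - x.2 * v.1 ≤ 1) ∧
      (-(x.1 ^ 2 + x.2 ^ 2) / 2 ≤ x.1 * v.1 + x.2 * v.2 ∧
        x.1 * v.1 + x.2 * v.2 ≤ (x.1 ^ 2 + x.2 ^ 2) / 2)} =
      (Matrix.toLin (Module.Basis.finTwoProd ℝ) (Module.Basis.finTwoProd ℝ)
        !![x.1, x.2; -x.2, x.1]) ⁻¹'
        (Set.Icc (-(x.1 ^ 2 + x.2 ^ 2) / 2) ((x.1 ^ 2 + x.2 ^ 2) / 2) ×ˢ Set.Icc (-1) 1) := by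
    ext v
    rw [Set.mem_preimage, Matrix.toLin_finTwoProd, Set.mem_prod, Set.mem_Icc, Set.mem_Icc]
    have e1 : -x.2 * v.1 + x.1 * v.2 = x.1 * v.2 - x.2 * v.1 := by ring
    change _ ↔ (_ ≤ x.1 * v.1 + x.2 * v.2 ∧ x.1 * v.1 + x.2 * v.2 ≤ _) ∧
      (-1 ≤ -x.2 * v.1 + x.1 * v.2 ∧ -x.2 * v.1 + x.1 * v.2 ≤ 1)
    rw [e1]
    exact and_comm
  rw [he, Measure.addHaar_preimage_linearMap _ (by rw [hd]; exact hx.ne'), hd,
    Measure.volume_eq_prod, Measure.prod_prod, Real.volume_Icc, Real.volume_Icc,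
    ← ENNReal.ofReal_mul (by linarith), ← ENNReal.ofReal_mul (abs_nonneg _),
    abs_of_pos (inv_pos.2 hx)]
  have e2 : (x.1 ^ 2 + x.2 ^ 2)⁻¹ * (((x.1 ^ 2 + x.2 ^ 2) / 2 - -(x.1 ^ 2 + x.2 ^ 2) / 2) *
      (1 - -1)) = 2 := by
    field_simp
    ring
  rw [e2]
  norm_num

theorem FZ_S_fin : volume FZ_S ≠ ⊤ := by
  have hB : volume {x : Pl | x.1 ^ 2 + x.2 ^ 2 ≤ 2} ≠ ⊤ := by
    have hsub : {x : Pl | x.1 ^ 2 + x.2 ^ 2 ≤ 2} ⊆ Set.Icc ((-2, -2) : Pl) (2, 2) := by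
      intro x hx
      have hx' : x.1 ^ 2 + x.2 ^ 2 ≤ 2 := hx
      rw [Set.mem_Icc]
      exact ⟨⟨by nlinarith [sq_nonneg x.2, sq_nonneg (x.1 - 1), sq_nonneg (x.1 + 1)],
        by nlinarith [sq_nonneg x.1, sq_nonneg (x.2 - 1), sq_nonneg (x.2 + 1)]⟩,
        ⟨by nlinarith [sq_nonneg x.2, sq_nonneg (x.1 - 1), sq_nonneg (x.1 + 1)],
        by nlinarith [sq_nonneg x.1, sq_nonneg (x.2 - 1), sq_nonneg (x.2 + 1)]⟩⟩
    exact ((measure_mono hsub).trans_lt (isCompact_Icc.measure_lt_top)).ne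
  have hBm : MeasurableSet {x : Pl | x.1 ^ 2 + x.2 ^ 2 ≤ 2} :=
    measurableSet_le (by fun_prop) measurable_const
  have h1 : volume FZ_S ≤ ∫⁻ x : Pl, Set.indicator {x : Pl | x.1 ^ 2 + x.2 ^ 2 ≤ 2}
      (fun _ => (2 : ℝ≥0∞)) x := by
    rw [Measure.volume_eq_prod, Measure.prod_apply FZ_S_meas]
    refine lintegral_mono fun x => ?_
    by_cases hx : 0 < x.1 ^ 2 + x.2 ^ 2 ∧ x.1 ^ 2 + x.2 ^ 2 ≤ 2
    · rw [Set.indicator_of_mem (show x ∈ {x : Pl | x.1 ^ 2 + x.2 ^ 2 ≤ 2} from hx.2),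
        ← FZ_slice x hx.1]
      exact measure_mono fun v hv => hv.2.2
    · have he : Prod.mk x ⁻¹' FZ_S = ∅ := by
        rw [Set.eq_empty_iff_forall_notMem]
        intro v hv
        exact hx ⟨hv.1, hv.2.1⟩
      rw [he, measure_empty]
      exact zero_le
  rw [lintegral_indicator hBm, setLIntegral_const] at h1
  exact (h1.trans_lt (ENNReal.mul_lt_top (by simp) hB.lt_top)).ne

theorem FZ_reduced {x y z w : ℝ} (hD : 0 < x * w - y * z) (hD1 : x * w - y * z ≤ 1)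
    (h1 : -(x ^ 2 + y ^ 2) ≤ 2 * (x * z + y * w)) (h2 : 2 * (x * z + y * w) ≤ x ^ 2 + y ^ 2)
    (hle : x ^ 2 + y ^ 2 ≤ z ^ 2 + w ^ 2) : 0 < x ^ 2 + y ^ 2 ∧ x ^ 2 + y ^ 2 ≤ 2 := by
  have hL : (x * w - y * z) ^ 2 + (x * z + y * w) ^ 2 = (x ^ 2 + y ^ 2) * (z ^ 2 + w ^ 2) := by
    ring
  have hn0 : 0 ≤ x ^ 2 + y ^ 2 := by positivity
  generalize x ^ 2 + y ^ 2 = n at *
  generalize z ^ 2 + w ^ 2 = m at *
  generalize x * w - y * z = D at *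
  generalize x * z + y * w = e at *
  have hpos : 0 < n := by
    rcases hn0.eq_or_lt with h | h
    · rw [← h] at hL
      nlinarith [sq_nonneg e]
    · exact h
  refine ⟨hpos, ?_⟩
  have h3 : 4 * e ^ 2 ≤ n ^ 2 := by nlinarith
  have h4 : n ^ 2 ≤ n * m := by nlinarith
  have h5 : D ^ 2 ≤ 1 := by nlinarith
  nlinarith

theorem FZ_le {x r : ℝ} (h : x ^ 2 ≤ r) : |x| ≤ |r| + 1 := by
  have h1 := le_abs_self r
  have h2 := sq_abs x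
  nlinarith [abs_nonneg x, abs_nonneg r, sq_nonneg (|x| - 1)]

theorem FZ_finite (A : Pl × Pl) (hA : 0 < dt A.1 A.2) (r : ℝ) :
    {γ : SL(2, ℤ) | (lm (tR γ) A).1.1 ^ 2 + (lm (tR γ) A).1.2 ^ 2 + (lm (tR γ) A).2.1 ^ 2 +
      (lm (tR γ) A).2.2 ^ 2 ≤ r}.Finite := by
  refine (SF_fin (2 * (|r| + 1) * (|A.1.1| + |A.1.2| + |A.2.1| + |A.2.2|) /
    dt A.1 A.2)).subset ?_
  intro γ hγ
  rw [Set.mem_ofPred_eq] at hγ
  unfold lm act at hγ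
  simp only [SF_tR] at hγ
  rw [Set.mem_ofPred_eq]
  generalize (γ 0 0 : ℤ) = a at hγ ⊢
  generalize (γ 0 1 : ℤ) = b at hγ ⊢
  generalize (γ 1 0 : ℤ) = c at hγ ⊢
  generalize (γ 1 1 : ℤ) = d at hγ ⊢
  have n1 := sq_nonneg ((a : ℝ) * A.1.1 + b * A.1.2)
  have n2 := sq_nonneg ((c : ℝ) * A.1.1 + d * A.1.2)
  have n3 := sq_nonneg ((a : ℝ) * A.2.1 + b * A.2.2)
  have n4 := sq_nonneg ((c : ℝ) * A.2.1 + d * A.2.2)
  have m1 := FZ_le (x := (a : ℝ) * A.1.1 + b * A.1.2) (r := r) (by linarith)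
  have m2 := FZ_le (x := (c : ℝ) * A.1.1 + d * A.1.2) (r := r) (by linarith)
  have m3 := FZ_le (x := (a : ℝ) * A.2.1 + b * A.2.2) (r := r) (by linarith)
  have m4 := FZ_le (x := (c : ℝ) * A.2.1 + d * A.2.2) (r := r) (by linarith)
  have b1 := abs_nonneg A.1.1
  have b2 := abs_nonneg A.1.2
  have b3 := abs_nonneg A.2.1
  have b4 := abs_nonneg A.2.2
  have ha := SF_ent (D := dt A.1 A.2) (p := (a : ℝ)) (Xc := a * A.1.1 + b * A.1.2)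
    (Xd := a * A.2.1 + b * A.2.2) (c2 := A.1.2) (d2 := A.2.2)
    (E := |A.1.1| + |A.1.2| + |A.2.1| + |A.2.2|)
    (by unfold dt; ring) (by linarith) (by linarith)
  have hb := SF_ent (D := dt A.1 A.2) (p := (b : ℝ)) (Xc := a * A.1.1 + b * A.1.2)
    (Xd := a * A.2.1 + b * A.2.2) (c2 := -A.1.1) (d2 := -A.2.1)
    (E := |A.1.1| + |A.1.2| + |A.2.1| + |A.2.2|)
    (by unfold dt; ring) (by rw [abs_neg]; linarith) (by rw [abs_neg]; linarith)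
  have hc := SF_ent (D := dt A.1 A.2) (p := (c : ℝ)) (Xc := c * A.1.1 + d * A.1.2)
    (Xd := c * A.2.1 + d * A.2.2) (c2 := A.1.2) (d2 := A.2.2)
    (E := |A.1.1| + |A.1.2| + |A.2.1| + |A.2.2|)
    (by unfold dt; ring) (by linarith) (by linarith)
  have hd := SF_ent (D := dt A.1 A.2) (p := (d : ℝ)) (Xc := c * A.1.1 + d * A.1.2)
    (Xd := c * A.2.1 + d * A.2.2) (c2 := -A.1.1) (d2 := -A.2.1)
    (E := |A.1.1| + |A.1.2| + |A.2.1| + |A.2.2|)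
    (by unfold dt; ring) (by rw [abs_neg]; linarith) (by rw [abs_neg]; linarith)
  rw [abs_of_pos hA] at ha hb hc hd
  have hE : 0 ≤ |A.1.1| + |A.1.2| + |A.2.1| + |A.2.2| := by positivity
  generalize |A.1.1| + |A.1.2| + |A.2.1| + |A.2.2| = E at ha hb hc hd hE ⊢
  have key : ∀ {x X Y : ℝ}, |X| ≤ |r| + 1 → |Y| ≤ |r| + 1 →
      dt A.1 A.2 * |x| ≤ (|X| + |Y|) * E → |x| ≤ 2 * (|r| + 1) * E / dt A.1 A.2 := by
    intro x X Y hX hY h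
    rw [le_div_iff₀ hA, mul_comm]
    refine h.trans (mul_le_mul_of_nonneg_right (by linarith) hE)
  exact ⟨key m1 m3 ha, key m1 m3 hb, key m2 m4 hc, key m2 m4 hd⟩

/-- the four elementary matrices -/
theorem FZ_min {A : Pl × Pl} (h : ∀ g : SL(2, ℤ), A.1.1 ^ 2 + A.1.2 ^ 2 + A.2.1 ^ 2 +
      A.2.2 ^ 2 ≤ (lm (tR g) A).1.1 ^ 2 + (lm (tR g) A).1.2 ^ 2 + (lm (tR g) A).2.1 ^ 2 +
      (lm (tR g) A).2.2 ^ 2) (ε : ℤ) :
    0 ≤ 2 * ε * (A.1.1 * A.1.2 + A.2.1 * A.2.2) + ε ^ 2 * (A.1.2 ^ 2 + A.2.2 ^ 2) ∧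
    0 ≤ 2 * ε * (A.1.1 * A.1.2 + A.2.1 * A.2.2) + ε ^ 2 * (A.1.1 ^ 2 + A.2.1 ^ 2) := by
  constructor
  · have h1 := h ⟨!![1, ε; 0, 1], by simp [Matrix.det_fin_two_of]⟩
    unfold lm act at h1
    simp only [SF_tR] at h1
    simp at h1
    nlinarith
  · have h1 := h ⟨!![1, 0; ε, 1], by simp [Matrix.det_fin_two_of]⟩
    unfold lm act at h1
    simp only [SF_tR] at h1
    simp at h1
    nlinarith

theorem exists_FZ : Countable tR.range ∧ ∃ R : Set (Pl × Pl), FDom tR.range R := by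
  have hcZ : Countable SL(2, ℤ) := by
    have hinj : Function.Injective (fun γ : SL(2, ℤ) => ((γ 0 0 : ℤ), (γ 0 1 : ℤ), (γ 1 0 : ℤ),
        (γ 1 1 : ℤ))) := by
      intro γ δ h
      simp only [Prod.mk.injEq] at h
      obtain ⟨h1, h2, h3, h4⟩ := h
      apply Matrix.SpecialLinearGroup.ext
      intro i j
      fin_cases i <;> fin_cases j
      · exact h1
      · exact h2
      · exact h3
      · exact h4
    exact hinj.countable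
  have hcR : Countable tR.range := tR.rangeRestrict_surjective.countable
  refine ⟨hcR, ?_⟩
  have he := MeasureTheory.measurableEmbedding_embeddingReal (Pl × Pl)
  obtain ⟨R, hRm, hRX, hRu, hRk⟩ := exists_fd (G := tR.range) (α := Pl × Pl)
    (fun g => lm (g : SL(2, ℝ))) (fun x => lm_one x)
    (fun g h x => lm_mul (g : SL(2, ℝ)) (h : SL(2, ℝ)) x)
    (fun g => (lm_preserving (g : SL(2, ℝ))).measurable) XX XX_meas
    (fun g x hx => by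
      show 0 < dt (lm (g : SL(2, ℝ)) x).1 (lm (g : SL(2, ℝ)) x).2 ∧
        dt (lm (g : SL(2, ℝ)) x).1 (lm (g : SL(2, ℝ)) x).2 ≤ 1
      rw [dt_lm]
      exact hx)
    (fun g x hx h => Subtype.ext (lm_free (g : SL(2, ℝ)) x hx.1 h))
    (fun A => A.1.1 ^ 2 + A.1.2 ^ 2 + A.2.1 ^ 2 + A.2.2 ^ 2)
    (MeasureTheory.embeddingReal (Pl × Pl)) (by fun_prop) he.measurable he.injective
    (fun x hx r => by
      refine ((FZ_finite x hx.1 r).image tR.rangeRestrict).subset ?_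
      rintro ⟨g, γ, rfl⟩ hg
      exact ⟨γ, hg, rfl⟩)
  refine ⟨R, hRm, hRX, hRu, ?_⟩
  have hsub : R ⊆ (fun A : Pl × Pl => (((A.1.1, A.2.1), (A.1.2, A.2.2)) : Pl × Pl)) ⁻¹' FZ_S ∪
      (fun A : Pl × Pl => (((A.1.1, A.2.1), (A.1.2, A.2.2)) : Pl × Pl)) ⁻¹'
        (Prod.swap ⁻¹' FZ_S) := by
    intro A hA
    have hX := hRX hA
    have hmin := FZ_min (A := A) (fun g => hRk A hA ⟨tR g, g, rfl⟩)
    obtain ⟨a1, a2⟩ := hmin 1
    obtain ⟨a3, a4⟩ := hmin (-1)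
    push_cast at a1 a2 a3 a4
    obtain ⟨d1, d2⟩ := hX
    unfold dt at d1 d2
    rcases le_total (A.1.1 ^ 2 + A.2.1 ^ 2) (A.1.2 ^ 2 + A.2.2 ^ 2) with hle | hle
    · left
      obtain ⟨r1, r2⟩ := FZ_reduced (x := A.1.1) (y := A.2.1) (z := A.1.2) (w := A.2.2)
        (by linarith) (by linarith) (by linarith) (by linarith) hle
      show (0 < A.1.1 ^ 2 + A.2.1 ^ 2 ∧ A.1.1 ^ 2 + A.2.1 ^ 2 ≤ 2 ∧
        (-1 ≤ A.1.1 * A.2.2 - A.2.1 * A.1.2 ∧ A.1.1 * A.2.2 - A.2.1 * A.1.2 ≤ 1) ∧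
        (-(A.1.1 ^ 2 + A.2.1 ^ 2) / 2 ≤ A.1.1 * A.1.2 + A.2.1 * A.2.2 ∧
          A.1.1 * A.1.2 + A.2.1 * A.2.2 ≤ (A.1.1 ^ 2 + A.2.1 ^ 2) / 2))
      exact ⟨r1, r2, ⟨by linarith, by linarith⟩, ⟨by linarith, by linarith⟩⟩
    · right
      obtain ⟨r1, r2⟩ := FZ_reduced (x := A.2.2) (y := A.1.2) (z := A.2.1) (w := A.1.1)
        (by linarith) (by linarith) (by linarith) (by linarith) (by linarith)
      show (0 < A.1.2 ^ 2 + A.2.2 ^ 2 ∧ A.1.2 ^ 2 + A.2.2 ^ 2 ≤ 2 ∧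
        (-1 ≤ A.1.2 * A.2.1 - A.2.2 * A.1.1 ∧ A.1.2 * A.2.1 - A.2.2 * A.1.1 ≤ 1) ∧
        (-(A.1.2 ^ 2 + A.2.2 ^ 2) / 2 ≤ A.1.2 * A.1.1 + A.2.2 * A.2.1 ∧
          A.1.2 * A.1.1 + A.2.2 * A.2.1 ≤ (A.1.2 ^ 2 + A.2.2 ^ 2) / 2))
      exact ⟨by linarith, by linarith, ⟨by linarith, by linarith⟩, ⟨by linarith, by linarith⟩⟩
  have hswap : MeasurePreserving (Prod.swap : Pl × Pl → Pl × Pl) volume volume :=
    Measure.measurePreserving_swap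
  have m1 := tr_preserving.measure_preimage FZ_S_meas.nullMeasurableSet
  have m2 := tr_preserving.measure_preimage (hswap.measurable FZ_S_meas).nullMeasurableSet
  rw [hswap.measure_preimage FZ_S_meas.nullMeasurableSet] at m2
  refine ((measure_mono hsub).trans (measure_union_le _ _)).trans_lt ?_ |>.ne
  rw [m1, m2]
  exact ENNReal.add_lt_top.2 ⟨FZ_S_fin.lt_top, FZ_S_fin.lt_top⟩

end SimplVol
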