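import Pool.Agent.H54.RT.SA

/-!
# Module SB: averages over a fundamental domain

`FDom Γ R`: `R ⊆ XX` measurable of finite measure, for `A ∈ XX` there is exactly one `γ ∈ Γ` with `lm γ A ∈ R`. `Γ` countable.
* `FDom.pos`: `XX` is contained in the countable union of the sets `(lm γ)⁻¹' R`, of the same measure as `R` (`lm_preserving .measure_preimage`); if it were `0`, `volume XX = 0`, against `XX_pos`.
* `FDom.rm`: for `g ∈ SL(2, ℝ)` the set `(rm g)⁻¹' R` is also a fundamental domain (`lm_rm`, `dt_rm`; `(rm g)` maps `XX` to itself).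
* `FDom.eq`: for two fundamental domains `R`, `R'` and a function `f : Pl × Pl → ℝ` with `f (lm γ A) = f A` for `A ∈ XX`, `γ ∈ Γ`: `∫ A in R, f A = ∫ A in R', f A`. Either by Mathlib: put the action `lm` of `Γ` on `Pl × Pl` as a local instance (`letI : MulAction Γ (Pl × Pl) := ..`), the measure `μ = volume.restrict XX` is
  invariant, `R` and `R'` are fundamental domains for `μ` (`IsFundamentalDomain`, `aedisjoint` from uniqueness), `MeasureTheory.IsFundamentalDomain.setIntegral_eq`, and `μ.restrict R = volume.restrict R` as `R ⊆ XX`. Mathlib's theorem needs `f` invariant everywhere: replace `f` by its product with the indicator of `XX`.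
  Or directly: `R = ⋃_γ R ∩ (lm γ)⁻¹' R'` (disjoint), and `lm γ` maps `R ∩ (lm γ)⁻¹' R'` to `(lm γ⁻¹)⁻¹' R ∩ R'`.
* `Ev_inv`: `∫_{A ∈ R} Φ (sl A * g) = ∫_{A ∈ R} Φ (sl (rm g A)) = ∫_{A ∈ rm g '' R} Φ (sl A)` (`rm_preserving`, `rm g` is a measurable equivalence with inverse `rm g⁻¹`: `MeasurePreserving.setIntegral_preimage_emb` for `(rm g)` and the set `(rm g⁻¹)⁻¹' R`), then `FDom.eq`.
* The rest: linearity and monotonicity of the integral of bounded measurable functions on a set of finite measure (`Integrable` by `Measure.integrableOn_of_bounded`/`Integrable.of_bound`..).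
-/

set_option autoImplicit false

open scoped BigOperators UpperHalfPlane MatrixGroups
open MeasureTheory

namespace SimplVol

variable {Γ : Subgroup SL(2, ℝ)} {R : Set (Pl × Pl)}

theorem SB_lmXX (g : SL(2, ℝ)) (A : Pl × Pl) : lm g A ∈ XX ↔ A ∈ XX := by
  show (0 < dt (lm g A).1 (lm g A).2 ∧ dt (lm g A).1 (lm g A).2 ≤ 1) ↔
    (0 < dt A.1 A.2 ∧ dt A.1 A.2 ≤ 1)
  rw [dt_lm]

theorem SB_rmXX (g : SL(2, ℝ)) (A : Pl × Pl) : rm g A ∈ XX ↔ A ∈ XX := by
  show (0 < dt (rm g A).1 (rm g A).2 ∧ dt (rm g A).1 (rm g A).2 ≤ 1) ↔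
    (0 < dt A.1 A.2 ∧ dt A.1 A.2 ≤ 1)
  rw [dt_rm]

theorem FDom.rm {Γ : Subgroup SL(2, ℝ)} {R : Set (Pl × Pl)} (h : FDom Γ R) (g : SL(2, ℝ)) :
    FDom Γ ((SimplVol.rm g) ⁻¹' R) where
  meas := (rm_preserving g).measurable h.meas
  sub A hA := (SB_rmXX g A).1 (h.sub hA)
  dom A hA := by
    have h1 := h.dom _ ((SB_rmXX g A).2 hA)
    simp only [lm_rm] at h1
    exact h1
  fin := by
    rw [(rm_preserving g).measure_preimage h.meas.nullMeasurableSet]
    exact h.fin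

/-- The action of a subgroup on the pairs of vectors. -/
@[reducible] def SB_act (Γ : Subgroup SL(2, ℝ)) : MulAction Γ (Pl × Pl) where
  smul γ A := lm (γ : SL(2, ℝ)) A
  one_smul A := lm_one A
  mul_smul _ _ A := lm_mul _ _ A

theorem FDom.eq [Countable Γ] {R' : Set (Pl × Pl)} (h : FDom Γ R) (h' : FDom Γ R')
    (f : Pl × Pl → ℝ) (hf : ∀ γ : SL(2, ℝ), γ ∈ Γ → ∀ A ∈ XX, f (lm γ A) = f A) :
    ∫ A in R, f A = ∫ A in R', f A := by
  let i1 : MulAction Γ (Pl × Pl) := SB_act Γ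
  have hsm : ∀ (γ : Γ) (A : Pl × Pl), γ • A = lm (γ : SL(2, ℝ)) A := fun _ _ => rfl
  have i2 : MeasurableConstSMul Γ (Pl × Pl) := ⟨fun γ => (lm_preserving (γ : SL(2, ℝ))).measurable⟩
  have i3 : SMulInvariantMeasure Γ (Pl × Pl) (volume.restrict XX) := ⟨fun γ s hs => by
    have e : (fun x : Pl × Pl => γ • x) ⁻¹' s ∩ XX = (lm (γ : SL(2, ℝ))) ⁻¹' (s ∩ XX) := by
      ext A
      simp only [Set.mem_inter_iff, Set.mem_preimage, SB_lmXX, hsm]
    have hms : MeasurableSet ((fun x : Pl × Pl => γ • x) ⁻¹' s) :=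
      (lm_preserving (γ : SL(2, ℝ))).measurable hs
    rw [Measure.restrict_apply hms, Measure.restrict_apply hs, e,
      (lm_preserving (γ : SL(2, ℝ))).measure_preimage (hs.inter XX_meas).nullMeasurableSet]⟩
  have key : ∀ S : Set (Pl × Pl), FDom Γ S → IsFundamentalDomain Γ S (volume.restrict XX) := by
    intro S hS
    refine ⟨hS.meas.nullMeasurableSet, ?_, ?_⟩
    · rw [ae_restrict_iff' XX_meas]
      exact Filter.Eventually.of_forall fun A hA => (hS.dom A hA).exists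
    · intro γ δ hne
      refine Disjoint.aedisjoint ?_
      rw [Set.disjoint_left]
      rintro x ⟨a, ha, rfl⟩ ⟨b, hb, hab⟩
      apply hne
      have hX : lm (γ : SL(2, ℝ)) a ∈ XX := (SB_lmXX _ _).2 (hS.sub ha)
      have hab' : lm (δ : SL(2, ℝ)) b = lm (γ : SL(2, ℝ)) a := hab
      have h1 : lm ((γ⁻¹ : Γ) : SL(2, ℝ)) (lm (γ : SL(2, ℝ)) a) ∈ S := by
        rw [← lm_mul, ← Subgroup.coe_mul, inv_mul_cancel, Subgroup.coe_one, lm_one]
        exact ha
      have h2 : lm ((δ⁻¹ : Γ) : SL(2, ℝ)) (lm (γ : SL(2, ℝ)) a) ∈ S := by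
        rw [← hab', ← lm_mul, ← Subgroup.coe_mul, inv_mul_cancel, Subgroup.coe_one, lm_one]
        exact hb
      exact inv_injective ((hS.dom _ hX).unique h1 h2)
  have hF : ∀ (γ : Γ) (A : Pl × Pl), XX.indicator f (γ • A) = XX.indicator f A := by
    intro γ A
    rw [hsm]
    by_cases hA : A ∈ XX
    · rw [Set.indicator_of_mem hA, Set.indicator_of_mem ((SB_lmXX _ _).2 hA)]
      exact hf _ γ.2 A hA
    · rw [Set.indicator_of_notMem hA, Set.indicator_of_notMem (fun h => hA ((SB_lmXX _ _).1 h))]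
  have hS : ∀ S : Set (Pl × Pl), FDom Γ S →
      ∫ A in S, XX.indicator f A ∂(volume.restrict XX) = ∫ A in S, f A := by
    intro S hS
    rw [Measure.restrict_restrict hS.meas, Set.inter_eq_left.2 hS.sub]
    refine setIntegral_congr_fun hS.meas fun A hA => ?_
    exact Set.indicator_of_mem (hS.sub hA) f
  rw [← hS R h, ← hS R' h']
  exact (key R h).setIntegral_eq (key R' h') hF

theorem FDom.pos [Countable Γ] (h : FDom Γ R) : 0 < (volume R).toReal := by
  refine ENNReal.toReal_pos ?_ h.fin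
  intro h0
  have h1 : XX ⊆ ⋃ γ : Γ, (lm (γ : SL(2, ℝ))) ⁻¹' R := by
    intro A hA
    obtain ⟨γ, hγ, _⟩ := h.dom A hA
    exact Set.mem_iUnion.2 ⟨γ, hγ⟩
  have h2 : volume (⋃ γ : Γ, (lm (γ : SL(2, ℝ))) ⁻¹' R) = 0 := by
    refine measure_iUnion_null fun γ => ?_
    rw [(lm_preserving (γ : SL(2, ℝ))).measure_preimage h.meas.nullMeasurableSet]
    exact h0
  exact XX_pos.ne' (measure_mono_null h1 h2)

theorem Ev_inv [Countable Γ] (h : FDom Γ R) (Φ : SL(2, ℝ) → ℝ)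
    (hm : Measurable fun A : Pl × Pl => Φ (sl A)) (hΓ : ∀ γ : SL(2, ℝ), γ ∈ Γ → ∀ a, Φ (γ * a) = Φ a)
    (g : SL(2, ℝ)) : Ev R (fun a => Φ (a * g)) = Ev R Φ := by
  unfold Ev
  congr 1
  have e1 : ∫ A in R, Φ (sl A * g) = ∫ A in R, Φ (sl (rm g A)) := by
    refine setIntegral_congr_fun h.meas fun A hA => ?_
    show Φ (sl A * g) = Φ (sl (rm g A))
    rw [sl_rm g A (h.sub hA).1]
  have e2 : R = (rm g) ⁻¹' ((rm g⁻¹) ⁻¹' R) := by
    ext A
    simp only [Set.mem_preimage]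
    rw [← rm_mul, mul_inv_cancel, rm_one]
  have e3 : ∫ A in (rm g) ⁻¹' ((rm g⁻¹) ⁻¹' R), Φ (sl (rm g A)) =
      ∫ B in (rm g⁻¹) ⁻¹' R, Φ (sl B) := by
    have h3 := setIntegral_map (μ := (volume : Measure (Pl × Pl))) (g := rm g)
      (f := fun A : Pl × Pl => Φ (sl A)) (s := (rm g⁻¹) ⁻¹' R)
      ((rm_preserving g⁻¹).measurable h.meas) hm.aestronglyMeasurable
      (rm_preserving g).measurable.aemeasurable
    rw [(rm_preserving g).map_eq] at h3
    exact h3.symm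
  rw [e1]
  rw [← e2] at e3
  rw [e3]
  refine FDom.eq (h.rm g⁻¹) h _ ?_
  intro γ hγ A hA
  rw [sl_lm γ A hA.1]
  exact hΓ γ hγ _

theorem Ev_int (h : FDom Γ R) (Φ : SL(2, ℝ) → ℝ) (hm : Measurable fun A : Pl × Pl => Φ (sl A))
    (C : ℝ) (hC : ∀ A ∈ R, |Φ (sl A)| ≤ C) : IntegrableOn (fun A => Φ (sl A)) R := by
  refine Measure.integrableOn_of_bounded h.fin hm.aestronglyMeasurable (M := C) ?_
  rw [ae_restrict_iff' h.meas]
  exact Filter.Eventually.of_forall fun A hA => by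
    rw [Real.norm_eq_abs]
    exact hC A hA

theorem Ev_const [Countable Γ] (h : FDom Γ R) (c : ℝ) : Ev R (fun _ => c) = c := by
  unfold Ev
  rw [setIntegral_const, smul_eq_mul, Measure.real, ← mul_assoc,
    inv_mul_cancel₀ (FDom.pos h).ne', one_mul]

theorem Ev_add (Φ Ψ : SL(2, ℝ) → ℝ) (h1 : IntegrableOn (fun A => Φ (sl A)) R)
    (h2 : IntegrableOn (fun A => Ψ (sl A)) R) :
    Ev R (fun a => Φ a + Ψ a) = Ev R Φ + Ev R Ψ := by
  unfold Ev
  rw [← mul_add, ← integral_add h1 h2]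

theorem Ev_smul (c : ℝ) (Φ : SL(2, ℝ) → ℝ) : Ev R (fun a => c * Φ a) = c * Ev R Φ := by
  unfold Ev
  rw [integral_const_mul]
  ring

theorem Ev_sum {J : Type} (s : Finset J) (Φ : J → SL(2, ℝ) → ℝ)
    (hi : ∀ j ∈ s, IntegrableOn (fun A => Φ j (sl A)) R) :
    Ev R (fun a => ∑ j ∈ s, Φ j a) = ∑ j ∈ s, Ev R (Φ j) := by
  unfold Ev
  rw [← Finset.mul_sum, integral_finsetSum s hi]

theorem Ev_congr (h : FDom Γ R) (Φ Ψ : SL(2, ℝ) → ℝ) (hΦ : ∀ A ∈ R, Φ (sl A) = Ψ (sl A)) :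
    Ev R Φ = Ev R Ψ := by
  unfold Ev
  rw [setIntegral_congr_fun h.meas (g := fun A => Ψ (sl A)) fun A hA => hΦ A hA]

theorem Ev_nonneg (Φ : SL(2, ℝ) → ℝ) (h : ∀ a, 0 ≤ Φ a) : 0 ≤ Ev R Φ := by
  unfold Ev
  exact mul_nonneg (inv_nonneg.2 ENNReal.toReal_nonneg) (integral_nonneg fun A => h (sl A))

theorem Ev_bdd [Countable Γ] (h : FDom Γ R) (Φ : SL(2, ℝ) → ℝ) (C : ℝ)
    (hC : ∀ A ∈ R, |Φ (sl A)| ≤ C) : |Ev R Φ| ≤ C := by
  have hp := FDom.pos h
  have h1 := norm_setIntegral_le_of_norm_le_const (μ := (volume : Measure (Pl × Pl)))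
    (f := fun A => Φ (sl A)) (C := C) (lt_top_iff_ne_top.2 h.fin) (fun A hA => by
      rw [Real.norm_eq_abs]
      exact hC A hA)
  unfold Ev
  rw [abs_mul, abs_inv, abs_of_pos hp]
  rw [Real.norm_eq_abs, Measure.real] at h1
  calc (volume R).toReal⁻¹ * |∫ A in R, Φ (sl A)|
      ≤ (volume R).toReal⁻¹ * (C * (volume R).toReal) :=
        mul_le_mul_of_nonneg_left h1 (inv_nonneg.2 hp.le)
    _ = C := by field_simp

end SimplVol
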