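import Pool.Agent.H54.RT.FN
import Pool.Agent.H54.RT.SB
import Pool.Agent.H54.RT.FZ
import Pool.Agent.H74.SV.AR

/-!
# Module CS: the natural invariant family

`R` from `exists_FZ`, `M m x τ = Ev R (fun a => NN (fun i => a • x i) τ)`. `NN` is between `0` and `1` (`NN_nonneg`, `NN_one`), measurable along `sl` (`NN_meas`), so `Ev_int`.
* `nonneg`: `Ev_nonneg`. `one`: `Ev_sum`, `NN_one`, `Ev_const`. `inv`: `Ev_inv` with `Φ a = NN (fun i => a • x i) τ`: `Φ (γ * a) = Φ a` for `γ = tR γ'` by `NN_act` (`mul_smul`); `Φ (a * g) = NN (fun i => a • g • x i) τ`. (`Countable tR.range` from `exists_FZ`.)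
* `nat`: `Ev_sum`, `Ev_smul` (constant factors on the right: `mul_comm`), `NN_nat` for `a • x`. `area`: `NN_area`, `area_smul` (`Pool/Agent/H74/SV/AR.lean`), `Ev_const`.
-/

set_option autoImplicit false

open scoped BigOperators UpperHalfPlane MatrixGroups
open MeasureTheory

namespace SimplVol

theorem CS_le_one {m : ℕ} (x : Fin m → ℍ) (τ : RTree m) : NN x τ ≤ 1 := by
  rw [← NN_one x]
  exact Finset.single_le_sum (fun i _ => NN_nonneg x i) (Finset.mem_univ τ)

theorem CS_abs {m : ℕ} (x : Fin m → ℍ) (τ : RTree m) : |NN x τ| ≤ 1 := by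
  rw [abs_of_nonneg (NN_nonneg x τ)]
  exact CS_le_one x τ

theorem CS_int {R : Set (Pl × Pl)} (h : FDom tR.range R) {m : ℕ} (x : Fin m → ℍ) (τ : RTree m) :
    IntegrableOn (fun A => NN (fun i => sl A • x i) τ) R :=
  Ev_int h (fun a => NN (fun i => a • x i) τ) (NN_meas x τ) 1 (fun _ _ => CS_abs _ _)

theorem CS_sum {R : Set (Pl × Pl)} (h : FDom tR.range R) {m : ℕ} (x : Fin m → ℍ)
    (φ : RTree m → ℝ) :
    ∑ τ, Ev R (fun a => NN (fun i => a • x i) τ) * φ τ =
      Ev R (fun a => ∑ τ, NN (fun i => a • x i) τ * φ τ) := by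
  have h1 : Ev R (fun a => ∑ τ, φ τ * NN (fun i => a • x i) τ) =
      ∑ τ, Ev R (fun a => φ τ * NN (fun i => a • x i) τ) := by
    refine Ev_sum Finset.univ (fun τ a => φ τ * NN (fun i => a • x i) τ) fun τ _ => ?_
    exact (CS_int h x τ).const_mul (φ τ)
  have h2 : Ev R (fun a => ∑ τ, NN (fun i => a • x i) τ * φ τ) =
      Ev R (fun a => ∑ τ, φ τ * NN (fun i => a • x i) τ) :=
    Ev_congr h _ _ fun A _ => Finset.sum_congr rfl fun τ _ => mul_comm _ _
  rw [h2, h1]
  refine Finset.sum_congr rfl fun τ _ => ?_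
  rw [Ev_smul, mul_comm]

theorem exists_cstar : ∃ M : ∀ m : ℕ, (Fin m → ℍ) → RTree m → ℝ, CStar M := by
  obtain ⟨hc, R, hR⟩ := exists_FZ
  have : Countable tR.range := hc
  refine ⟨fun m x τ => Ev R (fun a => NN (fun i => a • x i) τ), ?_, ?_, ?_, ?_, ?_⟩
  · intro m x τ
    exact Ev_nonneg _ fun a => NN_nonneg _ _
  · intro m x
    have h1 := CS_sum hR x (fun _ => 1)
    simp only [mul_one] at h1
    rw [h1]
    rw [Ev_congr hR _ (fun _ => 1) fun A _ => NN_one _]
    exact Ev_const hR 1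
  · intro m g x τ
    have h1 := Ev_inv hR (fun a => NN (fun i => a • x i) τ) (NN_meas x τ) ?_ g
    · rw [← h1]
      refine Ev_congr hR _ _ fun A _ => ?_
      simp only [mul_smul]
    · rintro γ ⟨γ', rfl⟩ a
      simp only [mul_smul]
      exact NN_act γ' (fun i => a • x i) τ
  · intro k m ι x φ
    rw [CS_sum hR x (fun τ => φ (τ.pull ι)), CS_sum hR (fun i => x (ι i)) φ]
    exact Ev_congr hR _ _ fun A _ => NN_nat ι (fun i => sl A • x i) φ
  · intro m x a b c
    rw [CS_sum hR x (fun τ => ((τ.o a b c : ℤ) : ℝ))]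
    rw [Ev_congr hR _ (fun _ => area (x a) (x b) (x c) / Real.pi) fun A _ => ?_]
    · exact Ev_const hR _
    · rw [NN_area, area_smul]

end SimplVol
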