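import Pool.Agent.H54.RT.BT

/-!
# Module FL: the list of all edges

`FL τ π`: the divisions given by all edges, internal ones first (in the order of their ranks), then the leaf edges in the order `π` (a list of all leaves); divisions with only one class are dropped and of equal ones the last is kept.
* `mem_FL`: `s ∈ FL τ π ↔ ∃ A, Key τ A ∧ A.Nonempty ∧ Aᶜ.Nonempty ∧ spl A = s` (for `π` containing all leaves): a member of `τ.l` is `spl A` for a key (`exists_key`), `spl {i}`: `A = {i}`; conversely `A = {i}`, `Aᶜ = {i}` (`spl_compl`), `spl A ∈ τ.l`; `ntr (spl A)` iff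
  `A`, `Aᶜ` are nonempty.
* `dedup_map_filter` (general): `((L.filter p).dedup.map r).filter q |>.dedup = ((L.map r).filter q).dedup` if `q (r a) → p a`; (module TB has similar lemmas for `pull_trans`; prove what is needed here independently).
* `FL_pull`: both sides are `(L'.filter ntr).dedup` of lists: the left side is `((τ.l.map r ++ π.map (fun i => r (spl {i}))).filter ntr).dedup`, `r = resS ι`. For `i = ι j`: `r (spl {i}) = spl {j}`; for `i` not in the range of `ι`: `r (spl {i})` has only one class and is dropped.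
  So it is `((τ.l.map r ++ π'.map (fun j => spl {j})).filter ntr).dedup` with `π' = π.filterMap (partialInv ι)`. The right side is the same with `((τ.l.map r).filter NT).dedup` in place of `τ.l.map r`. An element `s = r t`, `t ∈ τ.l`, with `ntr s` but not
  `NT s` has two classes (`τ.split`), one of which is a singleton `{j}`, so `s = spl {j}`, which occurs in `π'.map ..` (all `j` are in `π'`), so it may be dropped in the first part: (lemma: `(L₁ ++ L₂).dedup = (L₁.filter (· ∉ L₂)).dedup ++ L₂.dedup`, `List.dedup_append`, induction on `L₁`).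
-/

set_option autoImplicit false

open scoped BigOperators

namespace SimplVol

/-- The division has more than one class. -/
def ntr {m : ℕ} (s : Split m) : Bool := !(decide (∀ a b, s a b = true))

/-- The list of the divisions of all edges. -/
def FL {m : ℕ} (τ : RTree m) (π : List (Fin m)) : List (Split m) :=
  ((τ.l ++ π.map fun i => spl {i}).filter ntr).dedup

theorem FL_nodup {m : ℕ} (τ : RTree m) (π : List (Fin m)) : (FL τ π).Nodup := List.nodup_dedup _

theorem FL_ntr {m : ℕ} (s : Split m) : ntr s = true ↔ ∃ a b, s a b = false := by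
  unfold ntr
  rw [Bool.not_eq_true', decide_eq_false_iff_not]
  push Not
  simp

theorem ntr_spl {m : ℕ} (A : Finset (Fin m)) : ntr (spl A) = true ↔ A.Nonempty ∧ Aᶜ.Nonempty := by
  rw [FL_ntr]
  constructor
  · rintro ⟨a, b, h⟩
    have h1 : ¬ (a ∈ A ↔ b ∈ A) := by
      intro h2
      rw [(spl_apply A a b).2 h2] at h
      exact Bool.noConfusion h
    by_cases ha : a ∈ A
    · have hb : b ∉ A := fun hb => h1 ⟨fun _ => hb, fun _ => ha⟩
      exact ⟨⟨a, ha⟩, ⟨b, Finset.mem_compl.2 hb⟩⟩
    · have hb : b ∈ A := by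
        by_contra hb
        exact h1 ⟨fun h => absurd h ha, fun h => absurd h hb⟩
      exact ⟨⟨b, hb⟩, ⟨a, Finset.mem_compl.2 ha⟩⟩
  · rintro ⟨⟨a, ha⟩, ⟨b, hb⟩⟩
    refine ⟨a, b, ?_⟩
    rw [Finset.mem_compl] at hb
    rw [Bool.eq_false_iff]
    intro h
    exact hb (((spl_apply A a b).1 h).1 ha)

theorem mem_FL {m : ℕ} (τ : RTree m) (π : List (Fin m)) (hπ : ∀ i, i ∈ π) (s : Split m) :
    s ∈ FL τ π ↔ ∃ A, Key τ A ∧ A.Nonempty ∧ Aᶜ.Nonempty ∧ spl A = s := by
  unfold FL
  rw [List.mem_dedup, List.mem_filter, List.mem_append, List.mem_map]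
  constructor
  · rintro ⟨h | ⟨i, _, rfl⟩, h2⟩
    · obtain ⟨ρ, b, _⟩ := (FL_ntr s).1 h2
      obtain ⟨A, _, hA2, hA3, hA4, hA5⟩ := exists_key τ s h ρ
      exact ⟨A, hA3, Finset.card_pos.1 (by omega), Finset.card_pos.1 (by omega), hA2⟩
    · have h3 := (ntr_spl {i}).1 h2
      exact ⟨{i}, Or.inl ⟨i, rfl⟩, h3.1, h3.2, rfl⟩
  · rintro ⟨A, hA, h1, h2, rfl⟩
    refine ⟨?_, (ntr_spl A).2 ⟨h1, h2⟩⟩
    rcases hA with ⟨i, rfl⟩ | ⟨i, hi⟩ | h
    · exact Or.inr ⟨i, hπ i, rfl⟩
    · refine Or.inr ⟨i, hπ i, ?_⟩
      show spl {i} = spl A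
      rw [← hi, spl_compl]
    · exact Or.inl h

theorem FL_cc {α : Type} [DecidableEq α] (b : α) {X Y : List α} (h : X.dedup = Y.dedup) :
    (b :: X).dedup = (b :: Y).dedup := by
  have hm : b ∈ X ↔ b ∈ Y := by rw [← List.mem_dedup, h, List.mem_dedup]
  by_cases hb : b ∈ X
  · rw [List.dedup_cons_of_mem hb, List.dedup_cons_of_mem (hm.1 hb), h]
  · rw [List.dedup_cons_of_notMem hb, List.dedup_cons_of_notMem (fun h => hb (hm.2 h)), h]

theorem FL_dmf {α β : Type} [DecidableEq α] [DecidableEq β] (L : List α) (r : α → β) (q : β → Bool) :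
    ((L.dedup.map r).filter q).dedup = ((L.map r).filter q).dedup := by
  induction L with
  | nil => rfl
  | cons a L ih =>
    by_cases ha : a ∈ L
    · rw [List.dedup_cons_of_mem ha, List.map_cons, List.filter_cons]
      by_cases hq : q (r a) = true
      · rw [if_pos hq, List.dedup_cons_of_mem, ih]
        exact List.mem_filter.2 ⟨List.mem_map_of_mem ha, hq⟩
      · rw [if_neg hq, ih]
    · rw [List.dedup_cons_of_notMem ha, List.map_cons, List.map_cons, List.filter_cons, List.filter_cons]
      by_cases hq : q (r a) = true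
      · rw [if_pos hq, if_pos hq]
        exact FL_cc _ ih
      · rw [if_neg hq, if_neg hq, ih]

theorem FL_fil {α β : Type} (L : List α) (r : α → β) (p : α → Bool) (q : β → Bool)
    (h : ∀ a, q (r a) = true → p a = true) :
    ((L.filter p).map r).filter q = (L.map r).filter q := by
  induction L with
  | nil => rfl
  | cons a L ih =>
    rw [List.filter_cons, List.map_cons, List.filter_cons (x := r a)]
    by_cases hp : p a = true
    · rw [if_pos hp, List.map_cons, List.filter_cons, ih]
    · have hq : ¬ q (r a) = true := fun hq => hp (h a hq)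
      rw [if_neg hp, if_neg hq, ih]

theorem FL_app {α : Type} [DecidableEq α] (X M : List α) : (X.dedup ++ M).dedup = (X ++ M).dedup := by
  induction X with
  | nil => rfl
  | cons a X ih =>
    by_cases ha : a ∈ X
    · rw [List.dedup_cons_of_mem ha, List.cons_append, List.dedup_cons_of_mem (List.mem_append_left _ ha), ih]
    · rw [List.dedup_cons_of_notMem ha, List.cons_append, List.cons_append]
      exact FL_cc _ ih

theorem FL_two {α : Type} [DecidableEq α] (A M : List α) (p q : α → Bool)
    (hqp : ∀ x, q x = true → p x = true)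
    (hM : ∀ x ∈ A, p x = true → ¬ q x = true → x ∈ M) :
    (A.filter p ++ M).dedup = (A.filter q ++ M).dedup := by
  induction A with
  | nil => rfl
  | cons a A ih =>
    have ih' := ih (fun x hx => hM x (List.mem_cons_of_mem _ hx))
    rw [List.filter_cons, List.filter_cons]
    by_cases hq : q a = true
    · rw [if_pos hq, if_pos (hqp a hq), List.cons_append, List.cons_append]
      exact FL_cc _ ih'
    · by_cases hp : p a = true
      · rw [if_pos hp, if_neg hq, List.cons_append, List.dedup_cons_of_mem, ih']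
        exact List.mem_append_right _ (hM a List.mem_cons_self hp hq)
      · rw [if_neg hp, if_neg hq, ih']

theorem FL_NT {m : ℕ} (s : Split m) (h : NT s) : ntr s = true := by
  obtain ⟨a, b, c, d, _, _, h1⟩ := h
  exact (FL_ntr s).2 ⟨a, c, h1.2.2⟩

theorem FL_leaf {k m : ℕ} (ι : Fin k ↪ Fin m) (π : List (Fin m)) :
    (π.map (fun i => resS ι (spl {i}))).filter ntr =
      ((π.filterMap (Function.partialInv ι)).map (fun j => spl {j})).filter ntr := by
  induction π with
  | nil => rfl
  | cons i π ih =>
    by_cases hi : ∃ j, ι j = i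
    · obtain ⟨j, rfl⟩ := hi
      have h1 : Function.partialInv ι (ι j) = some j := Function.partialInv_left ι.injective j
      have h2 : resS ι (spl {ι j}) = spl {j} := by
        funext a b
        rw [Bool.eq_iff_iff, spl_apply]
        unfold resS
        rw [spl_apply, Finset.mem_singleton, Finset.mem_singleton, Finset.mem_singleton,
          Finset.mem_singleton, ι.injective.eq_iff, ι.injective.eq_iff]
      rw [List.map_cons, List.filterMap_cons_some h1, List.map_cons, List.filter_cons, List.filter_cons,
        ih, h2]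
    · have h1 : Function.partialInv ι i = none := by
        unfold Function.partialInv
        rw [dif_neg hi]
      have h2 : ¬ ntr (resS ι (spl {i})) = true := by
        rw [FL_ntr]
        rintro ⟨a, b, h⟩
        unfold resS at h
        have h3 : spl {i} (ι a) (ι b) = true := by
          rw [spl_apply, Finset.mem_singleton, Finset.mem_singleton]
          exact ⟨fun h => absurd ⟨a, h⟩ hi, fun h => absurd ⟨b, h⟩ hi⟩
        rw [h3] at h
        exact Bool.noConfusion h
      rw [List.map_cons, List.filterMap_cons_none h1, List.filter_cons, if_neg h2, ih]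

theorem FL_one {m : ℕ} (s : Split m) (g : Fin m → Bool) (hg : ∀ a b, s a b = (g a == g b))
    (h1 : ntr s = true) (h2 : ¬ NT s) : ∃ j, s = spl {j} := by
  have key : ∀ (v : Bool) (j : Fin m), g j = v → (∀ a, g a = v → a = j) → s = spl {j} := by
    intro v j hj h
    funext a b
    rw [Bool.eq_iff_iff, spl_apply, hg, Finset.mem_singleton, Finset.mem_singleton, beq_iff_eq]
    have e : ∀ a, a = j ↔ g a = v := fun a => ⟨fun h => by rw [h, hj], h a⟩
    rw [e, e]
    cases hga : g a <;> cases hgb : g b <;> cases v <;> simp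
  obtain ⟨a0, b0, h3⟩ := (FL_ntr s).1 h1
  rw [hg, beq_eq_false_iff_ne] at h3
  by_cases hA : ∀ a, g a = g a0 → a = a0
  · exact ⟨a0, key _ a0 rfl hA⟩
  · by_cases hB : ∀ b, g b = g b0 → b = b0
    · exact ⟨b0, key _ b0 rfl hB⟩
    · exfalso
      push Not at hA hB
      obtain ⟨a, ha, ha'⟩ := hA
      obtain ⟨b, hb, hb'⟩ := hB
      apply h2
      refine ⟨a0, a, b0, b, ha'.symm, hb'.symm, ?_, ?_, ?_⟩
      · rw [hg, ha]
        exact beq_self_eq_true _
      · rw [hg, hb]
        exact beq_self_eq_true _
      · rw [hg, beq_eq_false_iff_ne]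
        exact h3

theorem FL_pull {k m : ℕ} (τ : RTree m) (ι : Fin k ↪ Fin m) (π : List (Fin m))
    (hπ : ∀ i, i ∈ π) :
    (((FL τ π).map (resS ι)).filter ntr).dedup =
      FL (τ.pull ι) (π.filterMap (Function.partialInv ι)) := by
  have hmem : ∀ j, j ∈ π.filterMap (Function.partialInv ι) := fun j =>
    List.mem_filterMap.2 ⟨ι j, hπ _, Function.partialInv_left ι.injective j⟩
  unfold FL
  rw [FL_dmf, FL_fil, List.map_append, List.filter_append, List.map_map]
  · have e1 : (π.map (resS ι ∘ fun i => spl {i})).filter ntr =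
      ((π.filterMap (Function.partialInv ι)).map (fun j => spl {j})).filter ntr := FL_leaf ι π
    rw [e1, List.filter_append]
    have e2 : (τ.pull ι).l = ((τ.l.map (resS ι)).filter fun s => decide (NT s)).dedup := rfl
    have e3 : ((τ.pull ι).l).filter ntr = (τ.pull ι).l := by
      rw [List.filter_eq_self]
      intro s hs
      exact FL_NT s ((τ.pull ι).nt s hs)
    rw [e3, e2, FL_app]
    apply FL_two
    · intro x hx
      exact FL_NT x (of_decide_eq_true hx)
    · intro x hx h1 h2
      rw [decide_eq_true_iff] at h2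
      obtain ⟨t, ht, rfl⟩ := List.mem_map.1 hx
      obtain ⟨f, hf⟩ := τ.split t ht
      obtain ⟨j, hj⟩ := FL_one (resS ι t) (fun a => f (ι a)) (fun a b => hf _ _) h1 h2
      rw [List.mem_filter, List.mem_map]
      exact ⟨⟨j, hmem j, hj.symm⟩, h1⟩
  · intro s hs
    obtain ⟨a, b, h⟩ := (FL_ntr _).1 hs
    exact (FL_ntr s).2 ⟨ι a, ι b, h⟩

end SimplVol
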