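import Pool.Agent.H54.RT.WM

/-!
# Module WJ: iterated means

`JJ M L P`: mean over the words `v s`, `s ∈ L`, the first element of `L` is the outermost (integrated last).
* `JJ_add`, `JJ_smul`, `JJ_const`, `JJ_bdd`: induction on `L`.
* `JJ_indep`: induction on `L₁`; base: the inner function does not depend on `u`: mean of a constant. Step: `fun v => P (update v s' u)` does not depend on `v s` either (`Function.update_comm`, `update_idem`).
* `JJ_rev`: induction on `L`: with `T v := fun x => if X x then rv (v x) else v x`, `T (update v s u) = update (T v) s (if X s then rv u else u)`, `T (fun _ => []) = fun _ => []`; the inner mean for fixed `u` by induction, then `hM.rev`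
  for the bounded function `u ↦ JJ M L (fun v => P (update v s u))`.
* `JJ_map`: induction on `L`, `L.map e = e s :: L'.map e`; for fixed `u` apply the induction hypothesis to the function `w ↦ P (update w (e s) u)`: `P (R (update v s u)) = P (update (R v) (e s) u)`.
* `JJ_left`: (stationarity at `s`) induction on `L₁`; base: `hM.left` for `u ↦ JJ M L₂ (fun v => P (update v s u))`; in `fun v => P (update v s (t :: v s))` the inner update gives `P (update v s (t :: u))`
  (`update_idem`, `update_self`). Step for `s' ≠ s`: `update_comm`. `JJ_right`: the same with `right` : `M P = ½ ∑_t M (P (· ++ [t]))` (from `left` and `rev`: `rv (t :: w) = rv w ++ [!t]`).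
* `JJ_merge₁`: reduce to `L₁ = []` by induction on `L₁` (the elements of `L₁` are different from `s₁, s₂`: `update_comm`). Then with `q w := JJ M (L₂ ++ s₂ :: L₃) (fun v => P (update v s₂ (w ++ v s₂)))` the left side is `M (fun u => q (u ++ [t]))`:
  `P (update (update v s₁ u) s₂ (u ++ [t] ++ v s₂)) = P (update v s₂ (u ++ [t] ++ v s₂))` by independence of `v s₁` (`update_comm`, `update_self`, `update_of_ne`). `q` is bounded and harmonic by `JJ_left`. `hM.key`: it is
  `q [] = JJ M (L₂ ++ s₂ :: L₃) P` (`update_eq_self`).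
* `JJ_merge₂`: the same with `q w := JJ M (L₂ ++ s₂ :: L₃) (fun v => P (update v s₂ (v s₂ ++ w)))`, `q w = ½ ∑_t q (t :: w)` (`JJ_right`) and `M (fun u => q (t :: u)) = q []`, which is `hM.key` for `q ∘ rv` and `hM.rev`.
-/

set_option autoImplicit false

open scoped BigOperators

namespace SimplVol

variable {M : (Wd → ℝ) →ₗ[ℝ] ℝ} {A B : Type} [DecidableEq A] [DecidableEq B]

/-- The iterated mean over the words of the elements of a list. -/
noncomputable def JJ (M : (Wd → ℝ) →ₗ[ℝ] ℝ) : List A → ((A → Wd) → ℝ) → ℝ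
  | [], P => P fun _ => []
  | s :: L, P => M fun u => JJ M L fun v => P (Function.update v s u)

theorem WJ_const (hM : WMean M) (c : ℝ) : M (fun _ => c) = c := by
  have h1 : (fun _ : Wd => c) = c • (fun _ : Wd => (1 : ℝ)) := by
    funext w
    simp
  rw [h1, map_smul, hM.one, smul_eq_mul, mul_one]

theorem WJ_add (P Q : Wd → ℝ) : M (fun w => P w + Q w) = M P + M Q := by
  have h1 : (fun w => P w + Q w) = P + Q := rfl
  rw [h1, map_add]

theorem WJ_smul (c : ℝ) (P : Wd → ℝ) : M (fun w => c * P w) = c * M P := by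
  have h1 : (fun w => c * P w) = c • P := rfl
  rw [h1, map_smul, smul_eq_mul]

theorem JJ_add (L : List A) (P Q : (A → Wd) → ℝ) :
    JJ M L (fun v => P v + Q v) = JJ M L P + JJ M L Q := by
  induction L generalizing P Q with
  | nil => rfl
  | cons s L ih =>
    show M (fun u => JJ M L fun v => P (Function.update v s u) + Q (Function.update v s u)) =
      M (fun u => JJ M L fun v => P (Function.update v s u)) +
      M (fun u => JJ M L fun v => Q (Function.update v s u))
    rw [← WJ_add]
    congr 1
    funext u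
    exact ih _ _

theorem JJ_smul (L : List A) (c : ℝ) (P : (A → Wd) → ℝ) :
    JJ M L (fun v => c * P v) = c * JJ M L P := by
  induction L generalizing P with
  | nil => rfl
  | cons s L ih =>
    show M (fun u => JJ M L fun v => c * P (Function.update v s u)) =
      c * M (fun u => JJ M L fun v => P (Function.update v s u))
    rw [← WJ_smul]
    congr 1
    funext u
    exact ih _

theorem JJ_const (hM : WMean M) (L : List A) (c : ℝ) : JJ M L (fun _ : A → Wd => c) = c := by
  induction L with
  | nil => rfl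
  | cons s L ih =>
    show M (fun u => JJ M L fun _ => c) = c
    rw [ih]
    exact WJ_const hM c

theorem JJ_bdd (hM : WMean M) (L : List A) (P : (A → Wd) → ℝ) (C : ℝ) (h : ∀ v, |P v| ≤ C) :
    |JJ M L P| ≤ C := by
  induction L generalizing P with
  | nil => exact h _
  | cons s L ih => exact hM.bdd _ C fun u => ih _ fun v => h _

theorem JJ_indep (hM : WMean M) (L₁ L₂ : List A) (s : A) (P : (A → Wd) → ℝ)
    (h : ∀ v u, P (Function.update v s u) = P v) :
    JJ M (L₁ ++ s :: L₂) P = JJ M (L₁ ++ L₂) P := by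
  induction L₁ generalizing P with
  | nil =>
    show M (fun u => JJ M L₂ fun v => P (Function.update v s u)) = JJ M L₂ P
    simp only [h]
    exact WJ_const hM _
  | cons s' L₁ ih =>
    show M (fun u => JJ M (L₁ ++ s :: L₂) fun v => P (Function.update v s' u)) =
      M (fun u => JJ M (L₁ ++ L₂) fun v => P (Function.update v s' u))
    congr 1
    funext u
    refine ih _ ?_
    intro v w
    by_cases hs : s = s'
    · subst hs
      rw [Function.update_idem]
    · rw [Function.update_comm hs, h]

theorem JJ_rev (hM : WMean M) (L : List A) (X : A → Prop) [DecidablePred X] (P : (A → Wd) → ℝ)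
    (hP : ∃ C, ∀ v, |P v| ≤ C) :
    JJ M L (fun v => P fun x => if X x then rv (v x) else v x) = JJ M L P := by
  induction L generalizing P with
  | nil =>
    show P (fun x => if X x then rv [] else []) = P fun _ => []
    congr 1
    funext x
    split_ifs <;> rfl
  | cons s L ih =>
    obtain ⟨C, hC⟩ := hP
    show M (fun u => JJ M L fun v => P fun x => if X x then rv (Function.update v s u x)
      else Function.update v s u x) = M (fun u => JJ M L fun v => P (Function.update v s u))
    have h1 : ∀ u : Wd, (JJ M L fun v => P fun x => if X x then rv (Function.update v s u x)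
        else Function.update v s u x) =
        JJ M L fun v => P (Function.update v s (if X s then rv u else u)) := by
      intro u
      rw [← ih (fun v => P (Function.update v s (if X s then rv u else u))) ⟨C, fun v => hC _⟩]
      congr 1
      funext v
      congr 1
      funext x
      by_cases hx : x = s
      · subst hx
        simp
      · simp [Function.update_of_ne hx]
    simp only [h1]
    by_cases hX : X s
    · simp only [hX, if_true]
      exact hM.rev (fun u => JJ M L fun v => P (Function.update v s u))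
        ⟨C, fun u => JJ_bdd hM L _ C fun v => hC _⟩
    · simp only [hX, if_false]

theorem JJ_map (L : List A) (e : A → B) (R : (A → Wd) → (B → Wd))
    (h0 : R (fun _ => []) = fun _ => [])
    (hR : ∀ v, ∀ s ∈ L, ∀ u, R (Function.update v s u) = Function.update (R v) (e s) u)
    (P : (B → Wd) → ℝ) : JJ M L (fun v => P (R v)) = JJ M (L.map e) P := by
  induction L generalizing P with
  | nil =>
    show P (R fun _ => []) = P fun _ => []
    rw [h0]
  | cons s L ih =>
    show M (fun u => JJ M L fun v => P (R (Function.update v s u))) =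
      M (fun u => JJ M (L.map e) fun v => P (Function.update v (e s) u))
    congr 1
    funext u
    rw [← ih (fun v s' hs' u => hR v s' (List.mem_cons_of_mem _ hs') u)
      (fun w => P (Function.update w (e s) u))]
    congr 1
    funext v
    rw [hR v s List.mem_cons_self u]

/-- stationarity in a general form. -/
theorem WJ_st (hM : WMean M) (f g : Wd → Wd)
    (hfg : ∀ P : Wd → ℝ, (∃ C, ∀ w, |P w| ≤ C) →
      M P = (1 / 2) * (M (fun w => P (f w)) + M (fun w => P (g w))))
    (L₁ L₂ : List A) (s : A) (hs : s ∉ L₁)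
    (P : (A → Wd) → ℝ) (hP : ∃ C, ∀ v, |P v| ≤ C) :
    JJ M (L₁ ++ s :: L₂) P =
      (1 / 2) * (JJ M (L₁ ++ s :: L₂) (fun v => P (Function.update v s (f (v s)))) +
        JJ M (L₁ ++ s :: L₂) fun v => P (Function.update v s (g (v s)))) := by
  obtain ⟨C, hC⟩ := hP
  induction L₁ generalizing P with
  | nil =>
    show M (fun u => JJ M L₂ fun v => P (Function.update v s u)) =
      (1 / 2) * (M (fun u => JJ M L₂ fun v => P (Function.update (Function.update v s u) s
        (f (Function.update v s u s)))) +
      M (fun u => JJ M L₂ fun v => P (Function.update (Function.update v s u) s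
        (g (Function.update v s u s)))))
    simp only [Function.update_idem, Function.update_self]
    exact hfg (fun u => JJ M L₂ fun v => P (Function.update v s u))
      ⟨C, fun u => JJ_bdd hM L₂ _ C fun v => hC _⟩
  | cons s' L₁ ih =>
    rw [List.mem_cons, not_or] at hs
    show M (fun u => JJ M (L₁ ++ s :: L₂) fun v => P (Function.update v s' u)) =
      (1 / 2) * (M (fun u => JJ M (L₁ ++ s :: L₂) fun v => P (Function.update (Function.update v s' u) s
        (f (Function.update v s' u s)))) +
      M (fun u => JJ M (L₁ ++ s :: L₂) fun v => P (Function.update (Function.update v s' u) s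
        (g (Function.update v s' u s)))))
    rw [← WJ_add, ← WJ_smul]
    congr 1
    funext u
    rw [ih hs.2 (fun v => P (Function.update v s' u)) fun v => hC _]
    have h1 : ∀ (φ : Wd → Wd), (fun v : A → Wd => P (Function.update (Function.update v s (φ (v s))) s' u)) =
        fun v => P (Function.update (Function.update v s' u) s (φ (Function.update v s' u s))) := by
      intro φ
      funext v
      rw [Function.update_of_ne hs.1, Function.update_comm hs.1]
    rw [h1 f, h1 g]

theorem WJ_right (hM : WMean M) (P : Wd → ℝ) (hP : ∃ C, ∀ w, |P w| ≤ C) :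
    M P = (1 / 2) * (M (fun w => P (w ++ [true])) + M (fun w => P (w ++ [false]))) := by
  obtain ⟨C, hC⟩ := hP
  have h1 := hM.rev P ⟨C, hC⟩
  have h2 := hM.left (fun w => P (rv w)) ⟨C, fun w => hC _⟩
  have h3 := hM.rev (fun w => P (w ++ [true])) ⟨C, fun w => hC _⟩
  have h4 := hM.rev (fun w => P (w ++ [false])) ⟨C, fun w => hC _⟩
  simp only [rv_cons, Bool.not_true, Bool.not_false] at h2
  rw [h1, h3, h4] at h2
  rw [h2, add_comm]

theorem JJ_left (hM : WMean M) (L₁ L₂ : List A) (s : A) (hs : s ∉ L₁) (hs' : s ∉ L₂)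
    (P : (A → Wd) → ℝ) (hP : ∃ C, ∀ v, |P v| ≤ C) :
    JJ M (L₁ ++ s :: L₂) P =
      (1 / 2) * (JJ M (L₁ ++ s :: L₂) (fun v => P (Function.update v s (true :: v s))) +
        JJ M (L₁ ++ s :: L₂) fun v => P (Function.update v s (false :: v s))) :=
  WJ_st hM (fun w => true :: w) (fun w => false :: w) hM.left L₁ L₂ s hs P hP

theorem JJ_right (hM : WMean M) (L₁ L₂ : List A) (s : A) (hs : s ∉ L₁) (hs' : s ∉ L₂)
    (P : (A → Wd) → ℝ) (hP : ∃ C, ∀ v, |P v| ≤ C) :
    JJ M (L₁ ++ s :: L₂) P =
      (1 / 2) * (JJ M (L₁ ++ s :: L₂) (fun v => P (Function.update v s (v s ++ [true]))) +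
        JJ M (L₁ ++ s :: L₂) fun v => P (Function.update v s (v s ++ [false]))) :=
  WJ_st hM (fun w => w ++ [true]) (fun w => w ++ [false]) (WJ_right hM) L₁ L₂ s hs P hP

/-- the outer variables do not matter for a merge. -/
theorem WJ_merge (L₁ L₂ L₃ : List A) (s₁ s₂ : A) (f : Wd → Wd → Wd)
    (h1 : s₁ ∉ L₁) (h2 : s₂ ∉ L₁)
    (hbase : ∀ P : (A → Wd) → ℝ, (∃ C, ∀ v, |P v| ≤ C) → (∀ v u, P (Function.update v s₁ u) = P v) →
      JJ M (s₁ :: (L₂ ++ s₂ :: L₃)) (fun v => P (Function.update v s₂ (f (v s₁) (v s₂)))) =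
        JJ M (L₂ ++ s₂ :: L₃) P)
    (P : (A → Wd) → ℝ) (hP : ∃ C, ∀ v, |P v| ≤ C)
    (h : ∀ v u, P (Function.update v s₁ u) = P v) :
    JJ M (L₁ ++ s₁ :: (L₂ ++ s₂ :: L₃))
      (fun v => P (Function.update v s₂ (f (v s₁) (v s₂)))) =
        JJ M (L₁ ++ (L₂ ++ s₂ :: L₃)) P := by
  obtain ⟨C, hC⟩ := hP
  induction L₁ generalizing P with
  | nil => exact hbase P ⟨C, hC⟩ h
  | cons s' L₁ ih =>
    rw [List.mem_cons, not_or] at h1 h2
    show M (fun u => JJ M (L₁ ++ s₁ :: (L₂ ++ s₂ :: L₃)) fun v =>
      P (Function.update (Function.update v s' u) s₂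
        (f (Function.update v s' u s₁) (Function.update v s' u s₂)))) =
      M (fun u => JJ M (L₁ ++ (L₂ ++ s₂ :: L₃)) fun v => P (Function.update v s' u))
    congr 1
    funext u
    rw [← ih h1.2 h2.2 (fun v => P (Function.update v s' u)) (fun v w => ?_) fun v => hC _]
    · congr 1
      funext v
      rw [Function.update_of_ne h1.1, Function.update_of_ne h2.1, Function.update_comm h2.1]
    · rw [Function.update_comm h1.1, h]

theorem JJ_merge₁ (hM : WMean M) (L₁ L₂ L₃ : List A) (s₁ s₂ : A)
    (hn : (L₁ ++ s₁ :: (L₂ ++ s₂ :: L₃)).Nodup) (P : (A → Wd) → ℝ) (hP : ∃ C, ∀ v, |P v| ≤ C)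
    (h : ∀ v u, P (Function.update v s₁ u) = P v) (t : Bool) :
    JJ M (L₁ ++ s₁ :: (L₂ ++ s₂ :: L₃))
      (fun v => P (Function.update v s₂ (v s₁ ++ [t] ++ v s₂))) =
        JJ M (L₁ ++ (L₂ ++ s₂ :: L₃)) P := by
  rw [List.nodup_append, List.nodup_cons, List.nodup_append, List.nodup_cons] at hn
  obtain ⟨-, ⟨n1, -, ⟨n2, -⟩, n3⟩, n4⟩ := hn
  have e1 : s₁ ∉ L₁ := fun h => n4 _ h _ List.mem_cons_self rfl
  have e2 : s₂ ∉ L₁ := fun h => n4 _ h _ (by simp) rfl
  have e3 : s₁ ≠ s₂ := by
    rintro rfl
    exact n1 (by simp)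
  have e4 : s₂ ∉ L₂ := fun h => n3 _ h _ List.mem_cons_self rfl
  refine WJ_merge L₁ L₂ L₃ s₁ s₂ (fun a b => a ++ [t] ++ b) e1 e2 ?_ P hP h
  rintro Q ⟨C, hC⟩ hQ
  have key := hM.key (fun w => JJ M (L₂ ++ s₂ :: L₃) fun v => Q (Function.update v s₂ (w ++ v s₂)))
    ⟨C, fun w => JJ_bdd hM _ _ C fun v => hC _⟩ ?_ t
  · show M (fun u => JJ M (L₂ ++ s₂ :: L₃) fun v => Q (Function.update (Function.update v s₁ u) s₂
      (Function.update v s₁ u s₁ ++ [t] ++ Function.update v s₁ u s₂))) = _
    have h5 : ∀ (u : Wd), (fun v : A → Wd => Q (Function.update (Function.update v s₁ u) s₂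
        (Function.update v s₁ u s₁ ++ [t] ++ Function.update v s₁ u s₂))) =
        fun v => Q (Function.update v s₂ (u ++ [t] ++ v s₂)) := by
      intro u
      funext v
      rw [Function.update_self, Function.update_of_ne e3.symm, Function.update_comm e3, hQ]
    simp only [h5]
    refine key.trans ?_
    simp only [List.nil_append, Function.update_eq_self]
  · intro u
    have h6 := JJ_left hM L₂ L₃ s₂ e4 n2 (fun v => Q (Function.update v s₂ (u ++ v s₂)))
      ⟨C, fun v => hC _⟩
    simp only [Function.update_idem, Function.update_self] at h6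
    simp only [List.append_assoc, List.singleton_append]
    exact h6

theorem JJ_merge₂ (hM : WMean M) (L₁ L₂ L₃ : List A) (s₁ s₂ : A)
    (hn : (L₁ ++ s₁ :: (L₂ ++ s₂ :: L₃)).Nodup) (P : (A → Wd) → ℝ) (hP : ∃ C, ∀ v, |P v| ≤ C)
    (h : ∀ v u, P (Function.update v s₁ u) = P v) (t : Bool) :
    JJ M (L₁ ++ s₁ :: (L₂ ++ s₂ :: L₃))
      (fun v => P (Function.update v s₂ (v s₂ ++ [t] ++ v s₁))) =
        JJ M (L₁ ++ (L₂ ++ s₂ :: L₃)) P := by
  rw [List.nodup_append, List.nodup_cons, List.nodup_append, List.nodup_cons] at hn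
  obtain ⟨-, ⟨n1, -, ⟨n2, -⟩, n3⟩, n4⟩ := hn
  have e1 : s₁ ∉ L₁ := fun h => n4 _ h _ List.mem_cons_self rfl
  have e2 : s₂ ∉ L₁ := fun h => n4 _ h _ (by simp) rfl
  have e3 : s₁ ≠ s₂ := by
    rintro rfl
    exact n1 (by simp)
  have e4 : s₂ ∉ L₂ := fun h => n3 _ h _ List.mem_cons_self rfl
  refine WJ_merge L₁ L₂ L₃ s₁ s₂ (fun a b => b ++ [t] ++ a) e1 e2 ?_ P hP h
  rintro Q ⟨C, hC⟩ hQ
  have key := hM.key (fun w => JJ M (L₂ ++ s₂ :: L₃) fun v => Q (Function.update v s₂ (v s₂ ++ rv w)))
    ⟨C, fun w => JJ_bdd hM _ _ C fun v => hC _⟩ ?_ (!t)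
  · show M (fun u => JJ M (L₂ ++ s₂ :: L₃) fun v => Q (Function.update (Function.update v s₁ u) s₂
      (Function.update v s₁ u s₂ ++ [t] ++ Function.update v s₁ u s₁))) = _
    have h5 : ∀ (u : Wd), (fun v : A → Wd => Q (Function.update (Function.update v s₁ u) s₂
        (Function.update v s₁ u s₂ ++ [t] ++ Function.update v s₁ u s₁))) =
        fun v => Q (Function.update v s₂ (v s₂ ++ [t] ++ u)) := by
      intro u
      funext v
      rw [Function.update_self, Function.update_of_ne e3.symm, Function.update_comm e3, hQ]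
    simp only [h5]
    have h7 := hM.rev (fun u => JJ M (L₂ ++ s₂ :: L₃) fun v => Q (Function.update v s₂ (v s₂ ++ [t] ++ u)))
      ⟨C, fun w => JJ_bdd hM _ _ C fun v => hC _⟩
    rw [← h7]
    have h8 : ∀ u : Wd, rv (u ++ [!t]) = t :: rv u := by
      intro u
      rw [rv_append]
      simp [rv]
    simp only [h8] at key
    simp only [List.append_assoc, List.singleton_append]
    refine key.trans ?_
    simp only [rv_nil, List.append_nil, Function.update_eq_self]
  · intro u
    have h6 := JJ_right hM L₂ L₃ s₂ e4 n2 (fun v => Q (Function.update v s₂ (v s₂ ++ rv u)))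
      ⟨C, fun v => hC _⟩
    simp only [Function.update_idem, Function.update_self, List.append_assoc,
      List.singleton_append] at h6
    have h8 : ∀ b : Bool, rv (u ++ [b]) = (!b) :: rv u := by
      intro b
      rw [rv_append]
      simp [rv]
    simp only [h8, Bool.not_true, Bool.not_false]
    rw [add_comm]
    exact h6

end SimplVol
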