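import Pool.Agent.H54.RT.BD
import Pool.Agent.H54.RT.FL
import Pool.Agent.H54.RT.WJ

/-!
# Module DE: iterated means and deletion of a leaf

`ι = Fin.succAboveEmb c`, `r = resS ι`, `L = FL τ π`, `L' = FL (τ.pull ι) π'`, so `L' = ((L.map r).filter ntr).dedup` (`FL_pull`).
CASE `k = 1`. `t.lv = {ρ}ᶜ = {c}`; the function is `P (fun _ => I)` (the only `i` has `c.succAbove i = ρ`, as `ρ ≠ c`), a constant: both sides are `P (fun _ => I)` (`JJ_const`; `conf t' ρ' v i` with `i = ρ'`).
CASE `k ≥ 2`. `t ≠ leaf c` (`{ρ}ᶜ` has at least two elements), `Key τ t.lv` (complement a singleton). `delete`: `A, b, t''`, and `t'' = t'` by `rep_unique` (`t''.lv = resF ι {ρ}ᶜ = {ρ'}ᶜ`). Let `s₁ = spl A`, `s₂ = spl (A.erase c)`, `s₀ = spl {c}`; all in `L` (`mem_FL`), distinct (`spl_inj` with `ρ`; `{c} ≠ A`,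
`{c} ≠ A.erase c`). `r s₁ = r s₂ = spl (resF ι A) =: e'`, `r s₀` has only one class.
(I) COINCIDENCES: if `s ≠ s'` in `L`, `r s = r s'`, `ntr (r s)`, then `{s, s'} = {s₁, s₂}`: write `s = spl B`, `s' = spl D`, `ρ ∉ B, D` (`mem_FL`, `key_compl`, `spl_compl`), `resF ι B = resF ι D` (`resS_spl`, `spl_inj` with `ρ'`), so `B`, `D` differ only in `c`: say `D = insert c B`, `c ∉ B`, `B` nonempty;
`coincide` with `(A, A.erase c)`: `B = A.erase c`, `D = A`. And `ntr (r s) = false` for `s ∈ L` iff `s = s₀`.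
(II) Let `s_a, s_b ∈ {s₁, s₂}` be the earlier and the later one in `L` and `Lt = (L.filter (· ≠ s₀)).filter (· ≠ s_a)`. Then `r` is injective on `Lt` and `L' = Lt.map r` (`dedup` keeps the last of the two equal elements; lemma by induction on the list). Let `pick : Split k → Split (k+1)` with `pick (r s) = s` for `s ∈ Lt`
(choice; anything else outside) and `R v s' = if s' ∈ L' then v (pick s') else []`. `R (update v s u) = update (R v) (r s) u` for `s ∈ Lt`.
(III) Let `P' v = P (conf t' ρ' (R v))`. Claim: `P (fun i => conf t ρ v (c.succAbove i)) = P' (update v s_b w)` with `w = v s₁ ++ [b] ++ v s₂` : for `i = ρ'` both points are `I`; else `conf t ρ v (ι i) = rho (t.wd v (ι i)) • I`, `t.wd v (ι i) = t.wf (v ∘ spl) (ι i) = t'.wf (delU τ c A b (v ∘ spl)) i`, and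
`t'.wd (R (update v s_b w)) i = t'.wf (fun B' => R (update v s_b w) (spl B')) i`; only the subtrees `B'` of `t'` occur (`wf_congr`: they are nonempty keys, not containing `ρ'`): with `B = B'.map ι` (`ρ ∉ B`, `c ∉ B`): `B'` is a key of the pulled back tree, so `spl B' ∈ L'`. If `B = A.erase c`: `delU = w`, `spl B' = r s₂`, `pick = s_b`,
value `w` ✓. Else if `insert c B` is a key: `spl (insert c B) ∈ L`, `≠ s₁` (else `B = A.erase c`), `≠ s₂`, `≠ s₀`, so it is in `Lt`, `r` of it is `spl B'`, value `v (spl (insert c B))` ✓. Else `spl B' ∈ L'` comes from some `s = spl D ∈ Lt`, `ρ ∉ D`, `resF ι D = B'`, so `D = B` or `D = insert c B`; the latter is excluded: value `v (spl B)` ✓.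
(IV) `JJ M L (fun v => P' (update v s_b w))`: does not depend on `v s₀` (`R` does not see `s₀`, and `s₀ ≠ s₁, s₂`): `JJ_indep`, list `L.filter (· ≠ s₀)`. `P'` does not depend on `v s_a`. If `s_a = s₁`: `w = v s_a ++ [b] ++ v s_b`: `JJ_merge₁`. If `s_a = s₂`: `w = v s_b ++ [b] ++ v s_a`: `JJ_merge₂`.
Result `JJ M Lt P' = JJ M (Lt.map r) (P ∘ conf t' ρ')` (`JJ_map`, `R (fun _ => []) = fun _ => []`). (Write the lists as `L₁ ++ s :: L₂` with `List.append_of_mem`/`List.mem_iff_append`; `Nodup`.)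
-/

set_option autoImplicit false

open scoped BigOperators UpperHalfPlane MatrixGroups

namespace SimplVol

section DEaux

variable {M : (Wd → ℝ) →ₗ[ℝ] ℝ} {X Y : Type} [DecidableEq X] [DecidableEq Y]

theorem DE_dedup (l₁ l₂ : List Y) (a : Y) (ha : a ∈ l₂) (hn : (l₁ ++ l₂).Nodup) :
    (l₁ ++ a :: l₂).dedup = l₁ ++ l₂ := by
  induction l₁ with
  | nil =>
    rw [List.nil_append, List.nil_append, List.dedup_cons_of_mem ha]
    exact List.Nodup.dedup hn
  | cons x l₁ ih =>
    rw [List.cons_append, List.nodup_cons] at hn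
    rw [List.cons_append, List.dedup_cons_of_notMem, ih hn.2, List.cons_append]
    intro h
    rw [List.mem_append, List.mem_cons] at h
    apply hn.1
    rw [List.mem_append]
    rcases h with h | rfl | h
    · exact Or.inl h
    · exact Or.inr ha
    · exact Or.inr h

/-- deletion of one variable and merging of two. -/
theorem DE_core (hM : WMean M) (r : X → Y) (q : Y → Bool) (L₁ L₂ K₁ K₂ K₃ : List X) (s₀ sa sb : X)
    (hn : (L₁ ++ s₀ :: L₂).Nodup) (hK : L₁ ++ L₂ = K₁ ++ sa :: (K₂ ++ sb :: K₃))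
    (h0 : q (r s₀) = false) (h1 : ∀ s ∈ L₁ ++ L₂, q (r s) = true)
    (hr : r sa = r sb)
    (hinj : ∀ s ∈ L₁ ++ L₂, ∀ s' ∈ L₁ ++ L₂, s ≠ sa → s' ≠ sa → r s = r s' → s = s')
    (f : Wd → Wd → Wd)
    (hmerge : ∀ P : (X → Wd) → ℝ, (∃ C, ∀ v, |P v| ≤ C) →
      (∀ v u, P (Function.update v sa u) = P v) →
      JJ M (K₁ ++ sa :: (K₂ ++ sb :: K₃)) (fun v => P (Function.update v sb (f (v sa) (v sb)))) =
        JJ M (K₁ ++ (K₂ ++ sb :: K₃)) P)
    (Q : (X → Wd) → ℝ) (P₀ : (Y → Wd) → ℝ) (hP : ∃ C, ∀ w, |P₀ w| ≤ C)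
    (hQ : ∀ v w, (∀ s ∈ L₁ ++ L₂, s ≠ sa → s ≠ sb → w (r s) = v s) →
      w (r sb) = f (v sa) (v sb) → Q v = P₀ w) :
    JJ M (L₁ ++ s₀ :: L₂) Q = JJ M ((((L₁ ++ s₀ :: L₂).map r).filter q).dedup) P₀ := by
  classical
  obtain ⟨C, hC⟩ := hP
  have hs0 : s₀ ∉ L₁ ++ L₂ := by
    rw [List.nodup_middle, List.nodup_cons] at hn
    exact hn.1
  have hnK : (L₁ ++ L₂).Nodup := by
    rw [List.nodup_middle, List.nodup_cons] at hn
    exact hn.2
  have hnK' : (K₁ ++ sa :: (K₂ ++ sb :: K₃)).Nodup := hK ▸ hnK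
  have hnK2 := hnK'
  rw [List.nodup_middle, List.nodup_cons] at hnK2
  obtain ⟨hsa, hnLt⟩ := hnK2
  have hmem : ∀ s, s ∈ L₁ ++ L₂ ↔ s = sa ∨ s ∈ K₁ ++ (K₂ ++ sb :: K₃) := by
    intro s
    rw [hK]
    simp only [List.mem_append, List.mem_cons]
    tauto
  have hsb : sb ∈ K₁ ++ (K₂ ++ sb :: K₃) := by simp
  have hsaK : sa ∈ L₁ ++ L₂ := (hmem sa).2 (Or.inl rfl)
  have hsbK : sb ∈ L₁ ++ L₂ := (hmem sb).2 (Or.inr hsb)
  generalize hLt : K₁ ++ (K₂ ++ sb :: K₃) = Lt at hsa hnLt hmem hsb hmerge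
  let R : (X → Wd) → (Y → Wd) := fun v y => if h : ∃ s ∈ Lt, r s = y then v h.choose else []
  have hRdef : ∀ v y, R v y = if h : ∃ s ∈ Lt, r s = y then v h.choose else [] := fun v y => rfl
  have hch : ∀ s ∈ Lt, ∀ h : (∃ s' ∈ Lt, r s' = r s), h.choose = s := by
    intro s hs h
    obtain ⟨h3, h4⟩ := h.choose_spec
    refine hinj _ ((hmem _).2 (Or.inr h3)) _ ((hmem _).2 (Or.inr hs)) ?_ ?_ h4
    · intro h5
      exact hsa (h5 ▸ h3)
    · intro h5
      exact hsa (h5 ▸ hs)
  have hR : ∀ v, ∀ s ∈ Lt, R v (r s) = v s := by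
    intro v s hs
    have hex : ∃ s' ∈ Lt, r s' = r s := ⟨s, hs, rfl⟩
    rw [hRdef, dif_pos hex, hch s hs hex]
  have hRu : ∀ v s u, s ∉ Lt → R (Function.update v s u) = R v := by
    intro v s u hs
    funext y
    rw [hRdef, hRdef]
    split_ifs with h
    · rw [Function.update_of_ne]
      intro h5
      exact hs (h5 ▸ h.choose_spec.1)
    · rfl
  have hRu' : ∀ v, ∀ s ∈ Lt, ∀ u, R (Function.update v s u) = Function.update (R v) (r s) u := by
    intro v s hs u
    funext y
    by_cases hy : y = r s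
    · subst hy
      rw [hR _ s hs, Function.update_self, Function.update_self]
    · rw [Function.update_of_ne hy, hRdef, hRdef]
      split_ifs with h
      · rw [Function.update_of_ne]
        intro h5
        exact hy (by rw [← h.choose_spec.2, h5])
      · rfl
  have hR0 : R (fun _ => []) = fun _ => [] := by
    funext y
    refine (hRdef (fun _ => []) y).trans ?_
    split_ifs <;> rfl
  have hQ' : Q = fun v => P₀ (R (Function.update v sb (f (v sa) (v sb)))) := by
    funext v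
    refine hQ v _ (fun s hs h3 h4 => ?_) ?_
    · have h5 : s ∈ Lt := ((hmem s).1 hs).resolve_left h3
      rw [hR _ s h5, Function.update_of_ne h4]
    · rw [hR _ sb hsb, Function.update_self]
  have hs0Lt : s₀ ∉ Lt := fun h => hs0 ((hmem s₀).2 (Or.inr h))
  have hs0a : sa ≠ s₀ := by
    rintro rfl
    exact hs0 hsaK
  have hs0b : sb ≠ s₀ := by
    rintro rfl
    exact hs0 hsbK
  rw [hQ']
  rw [JJ_indep hM L₁ L₂ s₀ (fun v => P₀ (R (Function.update v sb (f (v sa) (v sb))))) (fun v u => by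
    simp only [Function.update_of_ne hs0a, Function.update_of_ne hs0b]
    rw [Function.update_comm hs0b.symm, hRu _ _ _ hs0Lt]), hK]
  rw [hmerge (fun v => P₀ (R v)) ⟨C, fun v => hC _⟩ (fun v u => by
    show P₀ (R (Function.update v sa u)) = P₀ (R v)
    rw [hRu _ _ _ hsa])]
  rw [JJ_map Lt r R hR0 hRu' P₀]
  have hlist : (((L₁ ++ s₀ :: L₂).map r).filter q).dedup = Lt.map r := by
    have e1 : ((L₁ ++ s₀ :: L₂).map r).filter q = (L₁ ++ L₂).map r := by
      rw [List.map_append, List.map_cons, List.filter_append, List.filter_cons_of_neg (by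
        rw [h0]
        exact Bool.false_ne_true), ← List.filter_append, ← List.map_append]
      rw [List.filter_eq_self]
      intro y hy
      rw [List.mem_map] at hy
      obtain ⟨s, hs, rfl⟩ := hy
      exact h1 s hs
    have hnm : (Lt.map r).Nodup := by
      refine List.Nodup.map_on ?_ hnLt
      intro x hx y hy hxy
      refine hinj x ((hmem _).2 (Or.inr hx)) y ((hmem _).2 (Or.inr hy)) ?_ ?_ hxy
      · intro h5
        exact hsa (h5 ▸ hx)
      · intro h5
        exact hsa (h5 ▸ hy)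
    rw [e1, hK, ← hLt, List.map_append, List.map_cons, DE_dedup, ← List.map_append]
    · rw [hr, List.mem_map]
      exact ⟨sb, by simp, rfl⟩
    · rw [← List.map_append, hLt]
      exact hnm
  rw [hlist]

end DEaux

theorem DE_mem_resF {k m : ℕ} (ι : Fin k ↪ Fin m) (A : Finset (Fin m)) (j : Fin k) :
    j ∈ resF ι A ↔ ι j ∈ A := by
  simp [resF]

theorem DE_resF_map {k : ℕ} (c : Fin (k + 1)) (B' : Finset (Fin k)) :
    resF (Fin.succAboveEmb c) (B'.map (Fin.succAboveEmb c)) = B' := by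
  ext j
  rw [DE_mem_resF, Finset.mem_map']

theorem DE_resF_erase {k : ℕ} (c : Fin (k + 1)) (A : Finset (Fin (k + 1))) :
    resF (Fin.succAboveEmb c) (A.erase c) = resF (Fin.succAboveEmb c) A := by
  ext j
  rw [DE_mem_resF, DE_mem_resF, Finset.mem_erase]
  have h : Fin.succAboveEmb c j ≠ c := Fin.succAbove_ne c j
  tauto

theorem DE_resF_insert {k : ℕ} (c : Fin (k + 1)) (B' : Finset (Fin k)) :
    resF (Fin.succAboveEmb c) (insert c (B'.map (Fin.succAboveEmb c))) = B' := by
  ext j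
  rw [DE_mem_resF, Finset.mem_insert, Finset.mem_map']
  have h : Fin.succAboveEmb c j ≠ c := Fin.succAbove_ne c j
  tauto

theorem DE_notMem_map {k : ℕ} (c : Fin (k + 1)) (B' : Finset (Fin k)) :
    c ∉ B'.map (Fin.succAboveEmb c) := by
  rw [Finset.mem_map]
  rintro ⟨j, _, hj⟩
  exact Fin.succAbove_ne c j hj

theorem DE_map_resF {k : ℕ} (c : Fin (k + 1)) (D : Finset (Fin (k + 1))) :
    (resF (Fin.succAboveEmb c) D).map (Fin.succAboveEmb c) = D.erase c := by
  ext i
  rw [Finset.mem_map, Finset.mem_erase]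
  constructor
  · rintro ⟨j, hj, rfl⟩
    exact ⟨Fin.succAbove_ne c j, (DE_mem_resF _ _ _).1 hj⟩
  · rintro ⟨h1, h2⟩
    obtain ⟨j, hj⟩ := Fin.exists_succAbove_eq h1
    exact ⟨j, (DE_mem_resF _ _ _).2 (by
      show c.succAbove j ∈ D
      rw [hj]
      exact h2), hj⟩

theorem DE_mem {m : ℕ} (τ : RTree m) (π : List (Fin m)) (hπ : ∀ i, i ∈ π) {ρ : Fin m}
    {D : Finset (Fin m)} (hρ : ρ ∉ D) (hne : D.Nonempty) (hk : Key τ D) : spl D ∈ FL τ π :=
  (mem_FL τ π hπ _).2 ⟨D, hk, hne, ⟨ρ, Finset.mem_compl.2 hρ⟩, rfl⟩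

theorem DE_rep {m : ℕ} (τ : RTree m) (π : List (Fin m)) (hπ : ∀ i, i ∈ π) (ρ : Fin m)
    (s : Split m) (hs : s ∈ FL τ π) :
    ∃ D : Finset (Fin m), ρ ∉ D ∧ D.Nonempty ∧ Key τ D ∧ spl D = s := by
  obtain ⟨D, hk, hne, hne', rfl⟩ := (mem_FL τ π hπ s).1 hs
  by_cases h : ρ ∈ D
  · exact ⟨Dᶜ, fun h' => (Finset.mem_compl.1 h') h, hne', (key_compl τ D).2 hk, spl_compl D⟩
  · exact ⟨D, h, hne, hk, rfl⟩

theorem DE_wf_congr {m : ℕ} (σ : RTree m) (u u' : Finset (Fin m) → Wd) (t : BT m) (ht : Rep σ t)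
    (hk : Key σ t.lv) (h : ∀ B : Finset (Fin m), B.Nonempty → B ⊆ t.lv → Key σ B → u B = u' B)
    (i : Fin m) : t.wf u i = t.wf u' i := by
  induction t with
  | leaf j => exact h {j} (Finset.singleton_nonempty j) (Finset.Subset.refl _) hk
  | node x y ihx ihy =>
    obtain ⟨hd, ho, kx, ky, rx, ry⟩ := ht
    have e1 : u (x.lv ∪ y.lv) = u' (x.lv ∪ y.lv) :=
      h _ ((BT.node x y).lv_nonempty) (Finset.Subset.refl _) hk
    have e2 := ihx rx kx (fun B hB hBx kB => h B hB (hBx.trans Finset.subset_union_left) kB)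
    have e3 := ihy ry ky (fun B hB hBx kB => h B hB (hBx.trans Finset.subset_union_right) kB)
    show u (x.lv ∪ y.lv) ++ (if i ∈ x.lv then false :: x.wf u i else true :: y.wf u i) =
      u' (x.lv ∪ y.lv) ++ (if i ∈ x.lv then false :: x.wf u' i else true :: y.wf u' i)
    rw [e1, e2, e3]

/-- a key of the restricted tree comes from a key. -/
theorem DE_key_up {k : ℕ} (τ : RTree (k + 1)) (c ρ : Fin (k + 1)) (ρ' : Fin k)
    (hρ : c.succAbove ρ' = ρ) (π : List (Fin (k + 1))) (hπ : ∀ i, i ∈ π) (B' : Finset (Fin k))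
    (hne : B'.Nonempty) (hB : ρ' ∉ B') (hk : Key (τ.pull (Fin.succAboveEmb c)) B') :
    Key τ (insert c (B'.map (Fin.succAboveEmb c))) ∨ Key τ (B'.map (Fin.succAboveEmb c)) := by
  have hπ' : ∀ j, j ∈ π.filterMap (Function.partialInv (Fin.succAboveEmb c)) := by
    intro j
    rw [List.mem_filterMap]
    exact ⟨Fin.succAboveEmb c j, hπ _,
      Function.partialInv_left (Fin.succAboveEmb c).injective j⟩
  have h1 := DE_mem (τ.pull (Fin.succAboveEmb c)) _ hπ' hB hne hk
  rw [← FL_pull τ (Fin.succAboveEmb c) π hπ, List.mem_dedup, List.mem_filter, List.mem_map] at h1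
  obtain ⟨⟨s, hs, hsB⟩, -⟩ := h1
  obtain ⟨D, hρD, hDne, hDk, rfl⟩ := DE_rep τ π hπ ρ s hs
  rw [resS_spl] at hsB
  have h2 : ρ' ∉ resF (Fin.succAboveEmb c) D := by
    rw [DE_mem_resF]
    show c.succAbove ρ' ∉ D
    rw [hρ]
    exact hρD
  have h3 := spl_inj h2 hB hsB
  have h4 := DE_map_resF c D
  rw [h3] at h4
  rw [h4]
  by_cases hcD : c ∈ D
  · left
    rw [Finset.insert_erase hcD]
    exact hDk
  · right
    rw [Finset.erase_eq_of_notMem hcD]
    exact hDk

theorem JJ_del {M : (Wd → ℝ) →ₗ[ℝ] ℝ} (hM : WMean M) {k : ℕ} (hk : 1 ≤ k) (τ : RTree (k + 1))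
    (c ρ : Fin (k + 1)) (hc : c ≠ ρ) (ρ' : Fin k) (hρ : c.succAbove ρ' = ρ) (t : BT (k + 1))
    (ht : Rep τ t) (hl : t.lv = {ρ}ᶜ) (t' : BT k)
    (ht' : 2 ≤ k → Rep (τ.pull (Fin.succAboveEmb c)) t' ∧ t'.lv = {ρ'}ᶜ)
    (π : List (Fin (k + 1))) (hπ : ∀ i, i ∈ π) (P : (Fin k → ℍ) → ℝ) (hP : ∃ C, ∀ y, |P y| ≤ C) :
    JJ M (FL τ π) (fun v => P fun i => conf t ρ v (c.succAbove i)) =
      JJ M (FL (τ.pull (Fin.succAboveEmb c))
        (π.filterMap (Function.partialInv (Fin.succAboveEmb c)))) (fun v => P (conf t' ρ' v)) := by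
  classical
  rcases Nat.lt_or_ge k 2 with h2 | h2
  · have hk1 : k = 1 := by omega
    subst hk1
    have e1 : (fun v : Split 2 → Wd => P fun i => conf t ρ v (c.succAbove i)) =
        fun _ => P fun _ => UpperHalfPlane.I := by
      funext v
      congr 1
      funext i
      have h3 : i = ρ' := Subsingleton.elim _ _
      rw [h3, hρ]
      unfold conf
      rw [if_pos rfl]
    have e2 : (fun v : Split 1 → Wd => P (conf t' ρ' v)) =
        fun _ => P fun _ => UpperHalfPlane.I := by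
      funext v
      congr 1
      funext i
      have h3 : i = ρ' := Subsingleton.elim _ _
      rw [h3]
      unfold conf
      rw [if_pos rfl]
    rw [e2, JJ_const hM]
    have e3 := JJ_const (A := Split 2) hM (FL τ π) (P fun _ => UpperHalfPlane.I)
    rw [← e1] at e3
    exact e3
  obtain ⟨hR', hl'⟩ := ht' h2
  have hkey : Key τ t.lv := by
    rw [hl]
    exact Or.inr (Or.inl ⟨ρ, compl_compl _⟩)
  have hρt : ρ ∉ t.lv := by
    rw [hl]
    simp
  have hct : c ∈ t.lv := by
    rw [hl]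
    simp [hc]
  have hne : t ≠ .leaf c := by
    rintro rfl
    have h3 : ({c} : Finset (Fin (k + 1))) = {ρ}ᶜ := hl
    have h4 := congrArg Finset.card h3
    rw [Finset.card_singleton, Finset.card_compl, Finset.card_singleton, Fintype.card_fin] at h4
    omega
  obtain ⟨A, b, t'', hcA, hAt, hAne, kA, kAc, hRep, hlv, hwf⟩ :=
    delete τ c ρ hc t ht hkey hρt hct hne
  have hlt : t'' = t' := by
    refine rep_unique (τ.pull (Fin.succAboveEmb c)) ρ' t'' t' hRep hR' ?_ ?_
    · rw [hlv, hl', hl]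
      ext j
      rw [DE_mem_resF, Finset.mem_compl, Finset.mem_compl, Finset.mem_singleton,
        Finset.mem_singleton, ← hρ]
      show ¬ (c.succAbove j = c.succAbove ρ') ↔ ¬ (j = ρ')
      rw [Fin.succAbove_right_inj]
    · rw [hlv, hl, DE_mem_resF, Finset.mem_compl, Finset.mem_singleton, ← hρ]
      exact fun h => h rfl
  subst hlt
  have hρA : ρ ∉ A := fun h => hρt (hAt h)
  have hρAc : ρ ∉ A.erase c := fun h => hρA (Finset.mem_of_mem_erase h)
  have hρc : ρ ∉ ({c} : Finset (Fin (k + 1))) := by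
    rw [Finset.mem_singleton]
    exact hc.symm
  have kc : Key τ {c} := Or.inl ⟨c, rfl⟩
  have m1 : spl A ∈ FL τ π := DE_mem τ π hπ hρA ⟨c, hcA⟩ kA
  have m2 : spl (A.erase c) ∈ FL τ π := DE_mem τ π hπ hρAc hAne kAc
  have m0 : spl {c} ∈ FL τ π := DE_mem τ π hπ hρc (Finset.singleton_nonempty c) kc
  have n12 : spl A ≠ spl (A.erase c) := by
    intro h
    have h3 := spl_inj hρA hρAc h
    rw [h3] at hcA
    exact (Finset.notMem_erase c A) hcA
  have n01 : spl {c} ≠ spl A := by
    intro h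
    have h3 := spl_inj hρc hρA h
    rw [← h3] at hAne
    simp at hAne
  have n02 : spl {c} ≠ spl (A.erase c) := by
    intro h
    have h3 := spl_inj hρc hρAc h
    have h4 : c ∈ A.erase c := by
      rw [← h3]
      exact Finset.mem_singleton_self c
    exact (Finset.notMem_erase c A) h4
  have hr12 : resS (Fin.succAboveEmb c) (spl A) =
      resS (Fin.succAboveEmb c) (spl (A.erase c)) := by
    rw [resS_spl, resS_spl, DE_resF_erase]
  have hntr0 : ntr (resS (Fin.succAboveEmb c) (spl {c})) = false := by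
    rw [resS_spl, ← Bool.not_eq_true, ntr_spl]
    rintro ⟨⟨j, hj⟩, -⟩
    rw [DE_mem_resF, Finset.mem_singleton] at hj
    exact Fin.succAbove_ne c j hj
  have hρr : ∀ D : Finset (Fin (k + 1)), ρ ∉ D → ρ' ∉ resF (Fin.succAboveEmb c) D := by
    intro D hD
    rw [DE_mem_resF]
    show c.succAbove ρ' ∉ D
    rw [hρ]
    exact hD
  have hntr : ∀ s ∈ FL τ π, s ≠ spl {c} → ntr (resS (Fin.succAboveEmb c) s) = true := by
    intro s hs hs0
    obtain ⟨D, hρD, hDne, hDk, rfl⟩ := DE_rep τ π hπ ρ s hs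
    rw [resS_spl, ntr_spl]
    refine ⟨?_, ⟨ρ', Finset.mem_compl.2 (hρr D hρD)⟩⟩
    by_contra hem
    rw [Finset.not_nonempty_iff_eq_empty] at hem
    apply hs0
    have h3 := DE_map_resF c D
    rw [hem, Finset.map_empty] at h3
    have h4 : D = {c} := by
      by_cases hcD : c ∈ D
      · rw [← Finset.insert_erase hcD, ← h3]
        rfl
      · rw [Finset.erase_eq_of_notMem hcD] at h3
        rw [← h3] at hDne
        exact absurd hDne Finset.not_nonempty_empty
    rw [h4]
  have hcoin1 : ∀ D D' : Finset (Fin (k + 1)), ρ ∉ D → ρ ∉ D' → Key τ D → Key τ D' →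
      D'.Nonempty → c ∈ D → c ∉ D' → D.erase c = D' → D = A ∧ D' = A.erase c := by
    intro D D' h3 h4 h5 h6 h7 h8 h9 h10
    have h11 : insert c D' = D := by
      rw [← h10, Finset.insert_erase h8]
    have h12 : D' = A.erase c := by
      refine coincide τ c ρ hc D' (A.erase c) h7 hAne h9 h4 (Finset.notMem_erase c A) hρAc h6 ?_
        kAc ?_
      · rw [h11]
        exact h5
      · rw [Finset.insert_erase hcA]
        exact kA
    refine ⟨?_, h12⟩
    rw [← h11, h12, Finset.insert_erase hcA]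
  have hcoin : ∀ s ∈ FL τ π, ∀ s' ∈ FL τ π,
      resS (Fin.succAboveEmb c) s = resS (Fin.succAboveEmb c) s' →
      s ≠ spl {c} → s' ≠ spl {c} → s = s' ∨ (s = spl A ∧ s' = spl (A.erase c)) ∨
        (s' = spl A ∧ s = spl (A.erase c)) := by
    intro s hs s' hs' h3 hs0 hs0'
    obtain ⟨D, hρD, hDne, hDk, rfl⟩ := DE_rep τ π hπ ρ s hs
    obtain ⟨D', hρD', hDne', hDk', rfl⟩ := DE_rep τ π hπ ρ s' hs'
    rw [resS_spl, resS_spl] at h3
    have h4 := spl_inj (hρr D hρD) (hρr D' hρD') h3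
    have h5 : D.erase c = D'.erase c := by
      rw [← DE_map_resF, ← DE_map_resF, h4]
    by_cases hcD : c ∈ D
    · by_cases hcD' : c ∈ D'
      · left
        rw [← Finset.insert_erase hcD, h5, Finset.insert_erase hcD']
      · right
        left
        rw [Finset.erase_eq_of_notMem hcD'] at h5
        obtain ⟨h6, h7⟩ := hcoin1 D D' hρD hρD' hDk hDk' hDne' hcD hcD' h5
        exact ⟨congrArg spl h6, congrArg spl h7⟩
    · by_cases hcD' : c ∈ D'
      · right
        right
        rw [Finset.erase_eq_of_notMem hcD] at h5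
        obtain ⟨h6, h7⟩ := hcoin1 D' D hρD' hρD hDk' hDk hDne hcD' hcD h5.symm
        exact ⟨congrArg spl h6, congrArg spl h7⟩
      · left
        rw [Finset.erase_eq_of_notMem hcD, Finset.erase_eq_of_notMem hcD'] at h5
        rw [h5]
  have hQ0 : ∀ (v : Split (k + 1) → Wd) (w : Split k → Wd),
      (∀ s ∈ FL τ π, s ≠ spl {c} → s ≠ spl A → s ≠ spl (A.erase c) →
        w (resS (Fin.succAboveEmb c) s) = v s) →
      w (resS (Fin.succAboveEmb c) (spl A)) = v (spl A) ++ [b] ++ v (spl (A.erase c)) →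
      (P fun i => conf t ρ v (c.succAbove i)) = P (conf t'' ρ' w) := by
    intro v w hw1 hw2
    congr 1
    funext i
    unfold conf
    by_cases hi : i = ρ'
    · rw [if_pos hi, if_pos (by rw [hi, hρ])]
    · have hi' : c.succAbove i ≠ ρ := by
        rw [← hρ]
        intro h
        exact hi (Fin.succAbove_right_injective h)
      rw [if_neg hi, if_neg hi', wd_eq_wf, wd_eq_wf]
      have h3 : c.succAbove i ∈ t.lv := by
        rw [hl, Finset.mem_compl, Finset.mem_singleton]
        exact hi'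
      rw [← hwf (fun B => v (spl B)) i h3]
      have hk' : Key (τ.pull (Fin.succAboveEmb c)) t''.lv := by
        rw [hl']
        exact Or.inr (Or.inl ⟨ρ', compl_compl _⟩)
      rw [DE_wf_congr (τ.pull (Fin.succAboveEmb c))
        (delU τ c A b fun B => v (spl B)) (fun B => w (spl B)) t'' hRep hk' ?_ i]
      intro B' hB'ne hB't kB'
      have hρB' : ρ' ∉ B' := by
        intro h
        have h4 := hB't h
        rw [hl'] at h4
        simp at h4
      have hcB := DE_notMem_map c B'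
      have hρB : ρ ∉ B'.map (Fin.succAboveEmb c) := by
        rw [← hρ]
        intro h
        apply hρB'
        have h4 : Fin.succAboveEmb c ρ' ∈ B'.map (Fin.succAboveEmb c) := h
        rwa [Finset.mem_map'] at h4
      have hBne : (B'.map (Fin.succAboveEmb c)).Nonempty := hB'ne.map
      have hρBi : ρ ∉ insert c (B'.map (Fin.succAboveEmb c)) := by
        rw [Finset.mem_insert, not_or]
        exact ⟨hc.symm, hρB⟩
      unfold delU
      by_cases c1 : B'.map (Fin.succAboveEmb c) = A.erase c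
      · rw [if_pos c1]
        have h5 : spl B' = resS (Fin.succAboveEmb c) (spl A) := by
          rw [resS_spl, ← DE_resF_erase, ← c1, DE_resF_map]
        show v (spl A) ++ [b] ++ v (spl (A.erase c)) = w (spl B')
        rw [h5, hw2]
      · rw [if_neg c1]
        by_cases c2 : Key τ (insert c (B'.map (Fin.succAboveEmb c)))
        · rw [if_pos c2]
          show v (spl (insert c (B'.map (Fin.succAboveEmb c)))) = w (spl B')
          have h5 : spl B' = resS (Fin.succAboveEmb c)
              (spl (insert c (B'.map (Fin.succAboveEmb c)))) := by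
            rw [resS_spl, DE_resF_insert]
          rw [h5, hw1 _ (DE_mem τ π hπ hρBi ⟨c, Finset.mem_insert_self _ _⟩ c2)]
          · intro h
            have h6 := spl_inj hρBi hρc h
            obtain ⟨x, hx⟩ := hBne
            have h7 : x ∈ ({c} : Finset (Fin (k + 1))) := by
              rw [← h6]
              exact Finset.mem_insert_of_mem hx
            rw [Finset.mem_singleton] at h7
            rw [h7] at hx
            exact hcB hx
          · intro h
            have h6 := spl_inj hρBi hρA h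
            apply c1
            rw [← h6, Finset.erase_insert hcB]
          · intro h
            have h6 := spl_inj hρBi hρAc h
            have h7 : c ∈ A.erase c := by
              rw [← h6]
              exact Finset.mem_insert_self _ _
            exact Finset.notMem_erase c A h7
        · rw [if_neg c2]
          show v (spl (B'.map (Fin.succAboveEmb c))) = w (spl B')
          have c3 : Key τ (B'.map (Fin.succAboveEmb c)) :=
            (DE_key_up τ c ρ ρ' hρ π hπ B' hB'ne hρB' kB').resolve_left c2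
          have h5 : spl B' = resS (Fin.succAboveEmb c) (spl (B'.map (Fin.succAboveEmb c))) := by
            rw [resS_spl, DE_resF_map]
          rw [h5, hw1 _ (DE_mem τ π hπ hρB hBne c3)]
          · intro h
            have h6 := spl_inj hρB hρc h
            rw [h6] at hcB
            exact hcB (Finset.mem_singleton_self c)
          · intro h
            have h6 := spl_inj hρB hρA h
            rw [h6] at hcB
            exact hcB hcA
          · intro h
            exact c1 (spl_inj hρB hρAc h)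
  rw [← FL_pull τ (Fin.succAboveEmb c) π hπ]
  obtain ⟨C, hC⟩ := hP
  obtain ⟨L₁, L₂, hL⟩ := List.append_of_mem m0
  have hnd := FL_nodup τ π
  have hmem : ∀ s, s ∈ FL τ π ↔ s = spl {c} ∨ s ∈ L₁ ++ L₂ := by
    intro s
    rw [hL]
    simp only [List.mem_append, List.mem_cons]
    tauto
  have hnd' : spl {c} ∉ L₁ ++ L₂ := by
    rw [hL, List.nodup_middle, List.nodup_cons] at hnd
    exact hnd.1
  have hnd2 : (L₁ ++ L₂).Nodup := by
    rw [hL, List.nodup_middle, List.nodup_cons] at hnd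
    exact hnd.2
  have m1' : spl A ∈ L₁ ++ L₂ := ((hmem _).1 m1).resolve_left n01.symm
  have m2' : spl (A.erase c) ∈ L₁ ++ L₂ := ((hmem _).1 m2).resolve_left n02.symm
  have hne0 : ∀ s ∈ L₁ ++ L₂, s ≠ spl {c} := by
    rintro s hs rfl
    exact hnd' hs
  obtain ⟨N₁, N₂, hN⟩ := List.append_of_mem m1'
  have m2'' := m2'
  rw [hN, List.mem_append, List.mem_cons] at m2''
  rcases m2'' with m | m | m
  · obtain ⟨K₁, K₂, hK⟩ := List.append_of_mem m
    have hK' : L₁ ++ L₂ = K₁ ++ spl (A.erase c) :: (K₂ ++ spl A :: N₂) := by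
      rw [hN, hK]
      simp
    have hnK : (K₁ ++ spl (A.erase c) :: (K₂ ++ spl A :: N₂)).Nodup := hK' ▸ hnd2
    have hcore := DE_core hM (resS (Fin.succAboveEmb c)) ntr L₁ L₂ K₁ K₂ N₂ (spl {c})
      (spl (A.erase c)) (spl A) (hL ▸ hnd) hK' hntr0
      (fun s hs => hntr s ((hmem s).2 (Or.inr hs)) (hne0 s hs)) hr12.symm
      (fun s hs s' hs' h3 h4 h5 => by
        rcases hcoin s ((hmem s).2 (Or.inr hs)) s' ((hmem s').2 (Or.inr hs')) h5 (hne0 s hs)
          (hne0 s' hs') with h6 | ⟨h6, h7⟩ | ⟨h6, h7⟩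
        · exact h6
        · exact absurd h7 h4
        · exact absurd h7 h3)
      (fun x y => y ++ [b] ++ x)
      (fun P hP h => JJ_merge₂ hM K₁ K₂ N₂ (spl (A.erase c)) (spl A) hnK P hP h b)
      (fun v => P fun i => conf t ρ v (c.succAbove i)) (fun v => P (conf t'' ρ' v))
      ⟨C, fun w => hC _⟩
      (fun v w h3 h4 => hQ0 v w (fun s hs h5 h6 h7 =>
        h3 s (((hmem s).1 hs).resolve_left h5) h7 h6) h4)
    rw [hL]
    exact hcore
  · exact absurd m.symm n12
  · obtain ⟨K₂, K₃, hK⟩ := List.append_of_mem m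
    have hK' : L₁ ++ L₂ = N₁ ++ spl A :: (K₂ ++ spl (A.erase c) :: K₃) := by
      rw [hN, hK]
    have hnK : (N₁ ++ spl A :: (K₂ ++ spl (A.erase c) :: K₃)).Nodup := hK' ▸ hnd2
    have hcore := DE_core hM (resS (Fin.succAboveEmb c)) ntr L₁ L₂ N₁ K₂ K₃ (spl {c})
      (spl A) (spl (A.erase c)) (hL ▸ hnd) hK' hntr0
      (fun s hs => hntr s ((hmem s).2 (Or.inr hs)) (hne0 s hs)) hr12
      (fun s hs s' hs' h3 h4 h5 => by
        rcases hcoin s ((hmem s).2 (Or.inr hs)) s' ((hmem s').2 (Or.inr hs')) h5 (hne0 s hs)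
          (hne0 s' hs') with h6 | ⟨h6, h7⟩ | ⟨h6, h7⟩
        · exact h6
        · exact absurd h6 h3
        · exact absurd h6 h4)
      (fun x y => x ++ [b] ++ y)
      (fun P hP h => JJ_merge₁ hM N₁ K₂ K₃ (spl A) (spl (A.erase c)) hnK P hP h b)
      (fun v => P fun i => conf t ρ v (c.succAbove i)) (fun v => P (conf t'' ρ' v))
      ⟨C, fun w => hC _⟩
      (fun v w h3 h4 => hQ0 v w (fun s hs h5 h6 h7 =>
        h3 s (((hmem s).1 hs).resolve_left h5) h6 h7) (by rw [hr12, h4]))
    rw [hL]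
    exact hcore

end SimplVol
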