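import Pool.Agent.H74.SV.Defs

/-!
# Ranked planar binary trees and the linear programme

A ranked planar binary tree with `m` labelled leaves is given by the cyclic order of its leaves and by
the list of the divisions of the set of leaves defined by its internal edges, in the order of their
ranks (lowest rank first). The linear programme computes the norm of the volume class of a product of
`n` hyperbolic surfaces.
-/

set_option autoImplicit false

open scoped BigOperators UpperHalfPlane MatrixGroups Nat ENNReal

namespace SimplVol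

/-- A division of `m` points into classes, given by the relation of being in the same class. -/
abbrev Split (m : ℕ) : Type := Fin m → Fin m → Bool

/-- The division `s` separates `{a, b}` from `{c, d}`. -/
def Sep {m : ℕ} (s : Split m) (a b c d : Fin m) : Prop :=
  s a b = true ∧ s c d = true ∧ s a c = false

/-- Two different classes have at least two elements. -/
def NT {m : ℕ} (s : Split m) : Prop := ∃ a b c d, a ≠ b ∧ c ≠ d ∧ Sep s a b c d

instance {m : ℕ} (s : Split m) (a b c d : Fin m) : Decidable (Sep s a b c d) := by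
  unfold Sep; infer_instance

instance {m : ℕ} (s : Split m) : Decidable (NT s) := by unfold NT; infer_instance

/-- A ranked planar binary tree with `m` labelled leaves: `o` is the cyclic order of the leaves (`1` if
`a`, `b`, `c` are in cyclic order, `-1` if `a`, `c`, `b` are), `l` is the list of the divisions of the set
of leaves into two classes defined by the internal edges, lowest rank first. The tree is planar, every four
leaves are separated by an internal edge in one way (so that the tree is binary), and in one way only. -/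
@[ext]
structure RTree (m : ℕ) where
  o : Fin m → Fin m → Fin m → ℤ
  l : List (Split m)
  o_vals : ∀ a b c, a ≠ b → b ≠ c → a ≠ c → o a b c = 1 ∨ o a b c = -1
  o_swap : ∀ a b c, o a c b = - o a b c
  o_rot : ∀ a b c, o b c a = o a b c
  o_coc : ∀ a b c d, o b c d - o a c d + o a b d - o a b c = 0
  nodup : l.Nodup
  split : ∀ s ∈ l, ∃ f : Fin m → Bool, ∀ a b, s a b = (f a == f b)
  nt : ∀ s ∈ l, NT s
  planar : ∀ s ∈ l, ∀ a b c d, Sep s a b c d → o a b c = o a b d
  res : ∀ a b c d, a ≠ b → a ≠ c → a ≠ d → b ≠ c → b ≠ d → c ≠ d →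
    ∃ s ∈ l, Sep s a b c d ∨ Sep s a c b d ∨ Sep s a d b c
  excl : ∀ s ∈ l, ∀ t ∈ l, ∀ a b c d, Sep s a b c d → ¬ Sep t a c b d

/-- The restriction of a division. -/
def resS {k m : ℕ} (ι : Fin k ↪ Fin m) (s : Split m) : Split k := fun a b => s (ι a) (ι b)

/-- The restriction of a ranked planar binary tree to some of the leaves. Divisions with a class of less
than two elements are dropped, and of equal divisions the one of highest rank is kept. -/
def RTree.pull {k m : ℕ} (ι : Fin k ↪ Fin m) (τ : RTree m) : RTree k where
  o a b c := τ.o (ι a) (ι b) (ι c)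
  l := ((τ.l.map (resS ι)).filter fun s => decide (NT s)).dedup
  o_vals a b c hab hbc hac := τ.o_vals _ _ _ (fun h => hab (ι.injective h))
    (fun h => hbc (ι.injective h)) (fun h => hac (ι.injective h))
  o_swap a b c := τ.o_swap _ _ _
  o_rot a b c := τ.o_rot _ _ _
  o_coc a b c d := τ.o_coc _ _ _ _
  nodup := List.nodup_dedup _
  split s hs := by
    rw [List.mem_dedup, List.mem_filter, List.mem_map] at hs
    obtain ⟨⟨t, ht, rfl⟩, _⟩ := hs
    obtain ⟨f, hf⟩ := τ.split t ht
    exact ⟨fun a => f (ι a), fun a b => hf _ _⟩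
  nt s hs := by
    rw [List.mem_dedup, List.mem_filter] at hs
    exact of_decide_eq_true hs.2
  planar s hs a b c d h := by
    rw [List.mem_dedup, List.mem_filter, List.mem_map] at hs
    obtain ⟨⟨t, ht, rfl⟩, _⟩ := hs
    exact τ.planar t ht _ _ _ _ h
  res a b c d h1 h2 h3 h4 h5 h6 := by
    obtain ⟨s, hs, h⟩ := τ.res (ι a) (ι b) (ι c) (ι d) (fun h => h1 (ι.injective h))
      (fun h => h2 (ι.injective h)) (fun h => h3 (ι.injective h)) (fun h => h4 (ι.injective h))
      (fun h => h5 (ι.injective h)) (fun h => h6 (ι.injective h))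
    refine ⟨resS ι s, ?_, h⟩
    rw [List.mem_dedup, List.mem_filter, List.mem_map]
    refine ⟨⟨s, hs, rfl⟩, decide_eq_true ?_⟩
    rcases h with h | h | h
    · exact ⟨a, b, c, d, h1, h6, h⟩
    · exact ⟨a, c, b, d, h2, h5, h⟩
    · exact ⟨a, d, b, c, h3, h4, h⟩
  excl s hs t ht a b c d h1 h2 := by
    rw [List.mem_dedup, List.mem_filter, List.mem_map] at hs ht
    obtain ⟨⟨s', hs', rfl⟩, _⟩ := hs
    obtain ⟨⟨t', ht', rfl⟩, _⟩ := ht
    exact τ.excl s' hs' t' ht' _ _ _ _ h1 h2

/-- The volume cocycle on ranked planar trees: the antisymmetrised product of the orientations,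
`(1 / (2n)!) ∑_σ sgn(σ) ∏_j o_j (0, σ(2j-1), σ(2j))`. -/
noncomputable def treeVol (n : ℕ) (τ : Fin n → RTree (n * 2 + 1)) : ℝ :=
  (1 / ((n * 2)! : ℝ)) * ∑ σ : Equiv.Perm (Fin (n * 2)), ((Equiv.Perm.sign σ : ℤ) : ℝ) *
    ∏ j : Fin n, (((τ j).o 0 (σ (finProdFinEquiv (j, 0))).succ
      (σ (finProdFinEquiv (j, 1))).succ : ℤ) : ℝ)

/-- The value of the linear programme: the least `v` such that for some real function `b` on the
`n`-tuples of ranked planar binary trees with `2n` leaves, the absolute value of `treeVol` plus the
coboundary of `b` is at most `v` on all `n`-tuples of ranked planar binary trees with `2n + 1` leaves. -/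
noncomputable def lpVal (n : ℕ) : ℝ :=
  sInf {v : ℝ | ∃ b : (Fin n → RTree (n * 2)) → ℝ, ∀ τ : Fin n → RTree (n * 2 + 1),
    |treeVol n τ + ∑ i : Fin (n * 2 + 1), (-1 : ℝ) ^ (i : ℕ) *
      b fun j => (τ j).pull (Fin.succAboveEmb i)| ≤ v}

end SimplVol
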