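import Pool.Agent.H54.RT.FY
import Pool.Agent.H74.SV.OA

/-!
# Module EP: independent uniformly distributed vectors in ellipses

* `eP_prob`: `volume_ell`: `volume (ell z) = ENNReal.ofReal π`, which is not `0` or `⊤`.
* `eP_act`: `act_preserving g` restricted: `ell_act`: `act g ⁻¹' ell (g • z) = ell z` (`MeasurePreserving.restrict_preimage`), then scale (`Measure.map_smul`).
* `eP_pi_act`: `MeasureTheory.measurePreserving_pi`.
* `eP_pi_emb`: measurable; the measure `map` is the product measure by `Measure.pi_eq`: for measurable `s : Fin k → Set Pl`, the preimage of `Set.pi univ s` is `Set.pi univ t` with `t j = s i` if `j = ι i`, `univ` if `j` is not in the range (classical; `Function.extend`), and `∏_j eP (x j) (t j) = ∏_i eP (x (ι i)) (s i)` (`Measure.pi_pi`,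
  `Finset.prod_subset`/`Finset.prod_map`, probability measures).
-/

set_option autoImplicit false

open scoped BigOperators UpperHalfPlane MatrixGroups ENNReal
open MeasureTheory

namespace SimplVol

instance eP_prob (z : ℍ) : IsProbabilityMeasure (eP z) := by
  constructor
  rw [eP, Measure.smul_apply, Measure.restrict_apply_univ, volume_ell, smul_eq_mul]
  exact ENNReal.inv_mul_cancel (ENNReal.ofReal_pos.2 Real.pi_pos).ne' ENNReal.ofReal_ne_top

theorem eP_act (g : SL(2, ℝ)) (z : ℍ) : MeasurePreserving (act g) (eP z) (eP (g • z)) := by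
  have h := (act_preserving g).restrict_preimage (ell_measurable (g • z))
  have e : act g ⁻¹' ell (g • z) = ell z := by
    ext u
    exact ell_act g z u
  rw [e] at h
  exact h.smul_measure _

theorem eP_pi_act {m : ℕ} (g : SL(2, ℝ)) (x : Fin m → ℍ) :
    MeasurePreserving (fun (v : Fin m → Pl) i => act g (v i)) (Measure.pi fun i => eP (x i))
      (Measure.pi fun i => eP (g • x i)) :=
  measurePreserving_pi _ _ (fun i => eP_act g (x i))

theorem eP_pi_emb {k m : ℕ} (ι : Fin k ↪ Fin m) (x : Fin m → ℍ) :
    MeasurePreserving (fun (v : Fin m → Pl) i => v (ι i)) (Measure.pi fun i => eP (x i))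
      (Measure.pi fun i => eP (x (ι i))) := by
  classical
  have hm : Measurable (fun (v : Fin m → Pl) (i : Fin k) => v (ι i)) :=
    measurable_pi_lambda _ (fun i => measurable_pi_apply _)
  refine ⟨hm, ?_⟩
  symm
  apply Measure.pi_eq
  intro s hs
  rw [Measure.map_apply hm (MeasurableSet.univ_pi hs)]
  set t : Fin m → Set Pl := fun j => if h : ∃ i, ι i = j then s h.choose else Set.univ with ht
  have ht1 : ∀ i, t (ι i) = s i := by
    intro i
    have h : ∃ i', ι i' = ι i := ⟨i, rfl⟩
    simp only [ht]
    rw [dif_pos h]
    exact congrArg s (ι.injective h.choose_spec)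
  have ht2 : ∀ j, (¬ ∃ i, ι i = j) → t j = Set.univ := by
    intro j h
    simp only [ht]
    rw [dif_neg h]
  have e : (fun (v : Fin m → Pl) (i : Fin k) => v (ι i)) ⁻¹' (Set.univ.pi s) =
      Set.univ.pi t := by
    ext v
    simp only [Set.mem_preimage, Set.mem_univ_pi]
    constructor
    · intro h j
      by_cases hj : ∃ i, ι i = j
      · obtain ⟨i, rfl⟩ := hj
        rw [ht1]
        exact h i
      · rw [ht2 j hj]
        exact Set.mem_univ _
    · intro h i
      have := h (ι i)
      rw [ht1] at this
      exact this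
  rw [e, Measure.pi_pi]
  have h1 : ∏ j ∈ Finset.univ.map ι, eP (x j) (t j) = ∏ j, eP (x j) (t j) := by
    apply Finset.prod_subset (Finset.subset_univ _)
    intro j _ hj
    have hj' : ¬ ∃ i, ι i = j := by
      rintro ⟨i, rfl⟩
      exact hj (Finset.mem_map_of_mem ι (Finset.mem_univ i))
    rw [ht2 j hj', measure_univ]
  rw [← h1, Finset.prod_map]
  apply Finset.prod_congr rfl
  intro i _
  rw [ht1]

end SimplVol
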