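import Pool.Agent.H54.RT.EP

/-!
# Module EQ: almost all configurations are good; the average orientation

* `eP_good`: for each `i` and `(a, b) ≠ 0` the line `{v | a v.1 + b v.2 = 0}` has measure zero in `Pl` (e.g. `Measure.addHaar_affineSubspace`/`addHaar_submodule`, or Fubini), so it is a null set for `eP z` (absolutely continuous) and its preimage under the evaluation at `i` is a null set of the product measure (`measurePreserving_eval`, quasi-measure-preserving).
  For `i ≠ j`: `{v | dt (v i) (v j) = 0}` is null: by `eP_pi_emb` for the embedding `![i, j] : Fin 2 ↪ Fin m` reduce to two vectors; for fixed `v 0 ≠ 0` the set of the `v 1` is a line (`measurePreserving_finTwoArrow`, `Measure.prod`, `Measure.measure_prod_null`/`ae_prod`). Countably many conditions (`ae_all_iff`; `ℤ` is countable).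
* `eP_ori`: `ori_avg` (module `Pool/Agent/H74/SV/OA.lean`: the integral of `ori` over `ell x ×ˢ ell y ×ˢ ell z`) is the statement for the iterated product; transfer to `Fin 3 → Pl` by `measurePreserving_piFinSuccAbove` twice, or show that `v ↦ (v 0, v 1, v 2)` maps
  `Measure.pi` to the product measure (`Measure.prod_eq` on boxes twice). Scalars: `π^3`.
-/

set_option autoImplicit false

open scoped BigOperators UpperHalfPlane MatrixGroups ENNReal
open MeasureTheory

namespace SimplVol

theorem EQ_line (α β : ℝ) (h : α ≠ 0 ∨ β ≠ 0) :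
    (volume : Measure Pl) {v : Pl | α * v.1 + β * v.2 = 0} = 0 := by
  let f : Pl →ₗ[ℝ] ℝ := α • LinearMap.fst ℝ ℝ ℝ + β • LinearMap.snd ℝ ℝ ℝ
  have hf : ∀ v : Pl, f v = α * v.1 + β * v.2 := fun v => by simp [f]
  have e : {v : Pl | α * v.1 + β * v.2 = 0} = (LinearMap.ker f : Set Pl) := by
    ext v
    rw [SetLike.mem_coe, LinearMap.mem_ker, hf]
    rfl
  rw [e]
  apply Measure.addHaar_submodule
  intro htop
  rcases h with h | h
  · have h1 : ((1, 0) : Pl) ∈ LinearMap.ker f := by rw [htop]; trivial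
    rw [LinearMap.mem_ker, hf] at h1
    apply h
    simpa using h1
  · have h1 : ((0, 1) : Pl) ∈ LinearMap.ker f := by rw [htop]; trivial
    rw [LinearMap.mem_ker, hf] at h1
    apply h
    simpa using h1

theorem EQ_ac (z : ℍ) : eP z ≪ (volume : Measure Pl) := by
  unfold eP
  exact Measure.smul_absolutelyContinuous.trans Measure.restrict_le_self.absolutelyContinuous

theorem EQ_line' (z : ℍ) (α β : ℝ) (h : α ≠ 0 ∨ β ≠ 0) :
    ∀ᵐ v ∂(eP z), α * v.1 + β * v.2 ≠ 0 := by
  rw [ae_iff]
  have e : {v : Pl | ¬ (α * v.1 + β * v.2 ≠ 0)} = {v : Pl | α * v.1 + β * v.2 = 0} := by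
    ext v
    simp
  rw [e]
  exact EQ_ac z (EQ_line α β h)

theorem EQ_irr (z : ℍ) : ∀ᵐ v ∂(eP z), Irr v := by
  unfold Irr
  rw [ae_all_iff]
  intro a
  rw [ae_all_iff]
  intro b
  by_cases hab : a ≠ 0 ∨ b ≠ 0
  · have h := EQ_line' z (a : ℝ) (b : ℝ) (by
      rcases hab with h | h
      · exact Or.inl (by exact_mod_cast h)
      · exact Or.inr (by exact_mod_cast h))
    filter_upwards [h] with v hv _
    exact hv
  · exact ae_of_all _ fun v hv => absurd hv hab

theorem EQ_dt_meas : Measurable fun p : Pl × Pl => dt p.1 p.2 :=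
  OA_dt_meas measurable_fst measurable_snd

theorem EQ_dt2 (z w : ℍ) : ∀ᵐ p ∂((eP z).prod (eP w)), dt p.1 p.2 ≠ 0 := by
  have hm : MeasurableSet {p : Pl × Pl | dt p.1 p.2 ≠ 0} :=
    (EQ_dt_meas (measurableSet_singleton (0 : ℝ))).compl
  rw [Measure.ae_prod_iff_ae_ae hm]
  have h0 : ∀ᵐ v ∂(eP z), (1 : ℝ) * v.1 + 0 * v.2 ≠ 0 := EQ_line' z 1 0 (Or.inl one_ne_zero)
  filter_upwards [h0] with v hv
  have hv1 : v.1 ≠ 0 := by
    intro h
    apply hv
    rw [h]
    ring
  have h1 := EQ_line' w (-v.2) v.1 (Or.inr hv1)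
  filter_upwards [h1] with u hu hu2
  apply hu
  unfold dt at hu2
  linarith

theorem EQ_dt {m : ℕ} (x : Fin m → ℍ) (i j : Fin m) (hij : i ≠ j) :
    ∀ᵐ v ∂(Measure.pi fun i => eP (x i)), dt (v i) (v j) ≠ 0 := by
  let ι : Fin 2 ↪ Fin m := ⟨![i, j], by
    intro a b hab
    fin_cases a <;> fin_cases b
    · rfl
    · exact absurd hab hij
    · exact absurd hab hij.symm
    · rfl⟩
  have h1 := eP_pi_emb ι x
  have h2 := measurePreserving_piFinTwo (fun a : Fin 2 => eP (x (ι a)))
  have h3 := (h2.comp h1).quasiMeasurePreserving.ae (EQ_dt2 (x (ι 0)) (x (ι 1)))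
  exact h3

theorem eP_good {m : ℕ} (x : Fin m → ℍ) : ∀ᵐ v ∂(Measure.pi fun i => eP (x i)), Good v := by
  have h1 : ∀ᵐ v ∂(Measure.pi fun i => eP (x i)), ∀ i, Irr (v i) := by
    rw [ae_all_iff]
    intro i
    exact (measurePreserving_eval (fun i => eP (x i)) i).quasiMeasurePreserving.ae (EQ_irr (x i))
  have h2 : ∀ᵐ v ∂(Measure.pi fun i => eP (x i)), ∀ i j, i ≠ j → dt (v i) (v j) ≠ 0 := by
    rw [ae_all_iff]
    intro i
    rw [ae_all_iff]
    intro j
    by_cases hij : i = j
    · exact ae_of_all _ fun v h => absurd hij h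
    · filter_upwards [EQ_dt x i j hij] with v hv _
      exact hv
  filter_upwards [h1, h2] with v hv1 hv2
  exact ⟨hv1, hv2⟩

theorem EQ_triple (x y z : ℍ) :
    ∫ p, ori p.1 p.2.1 p.2.2 ∂((eP x).prod ((eP y).prod (eP z))) = area x y z / Real.pi := by
  have hpi := Real.pi_pos
  have hc : (ENNReal.ofReal Real.pi)⁻¹ ≠ ⊤ := by
    rw [ENNReal.inv_ne_top]
    exact (ENNReal.ofReal_pos.2 hpi).ne'
  have e : (eP x).prod ((eP y).prod (eP z)) =
      (ENNReal.ofReal Real.pi)⁻¹ • (ENNReal.ofReal Real.pi)⁻¹ • (ENNReal.ofReal Real.pi)⁻¹ •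
        (volume : Measure (Pl × Pl × Pl)).restrict (ell x ×ˢ (ell y ×ˢ ell z)) := by
    unfold eP
    rw [Measure.prod_smul_left, Measure.prod_smul_left, Measure.prod_smul_right,
      Measure.prod_smul_right, Measure.prod_smul_right, Measure.prod_restrict,
      Measure.prod_restrict]
    rfl
  rw [e, integral_smul_measure, integral_smul_measure, integral_smul_measure, ori_avg,
    ENNReal.toReal_inv, ENNReal.toReal_ofReal hpi.le]
  simp only [smul_eq_mul]
  field_simp

theorem eP_ori (x : Fin 3 → ℍ) :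
    ∫ v, ori (v 0) (v 1) (v 2) ∂(Measure.pi fun i => eP (x i)) =
      area (x 0) (x 1) (x 2) / Real.pi := by
  have h1 := measurePreserving_piFinSuccAbove (fun i : Fin 3 => eP (x i)) 0
  have h2 := measurePreserving_piFinTwo (fun j : Fin 2 => eP (x (Fin.succAbove 0 j)))
  have h3 := ((MeasurePreserving.id (eP (x 0))).prod h2).comp h1
  have h4 := h3.map_eq
  rw [← EQ_triple]
  change _ = ∫ p, ori p.1 p.2.1 p.2.2 ∂((eP (x 0)).prod
    ((eP (x (Fin.succAbove 0 0))).prod (eP (x (Fin.succAbove 0 1)))))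
  rw [← h4, integral_map h3.measurable.aemeasurable
    (ori_measurable.aestronglyMeasurable)]
  rfl

end SimplVol
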