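import Pool.Agent.H54.RT.LR1

/-!
# Module LR2: properties of the alternated shuffle map `GG` and of its means

Let `F` be a cocycle with `p` points, `p ≥ 2`.
* `GG_map_left`, `GG_map_right`: `ez_map`, `altL_map`, invariance of `F` (the map `Prod.map κ id`, `Prod.map id g`).
* `GG_supp`: `ez F a b'` is computed from values of `F` at lists of length `|a| + |b'| - 1 ≠ p` (`ez_congr` with the zero function; `altL_congr`; for empty lists
  it is `0` anyway). `GG_bdd`: only finitely many pairs `(|a|, |b|)` with `|a| + |b| = p + 1`; `abs_ez_le`, `abs_altL_le`; take the sum of the constants.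
* `GG_total`: as in the proof of `tt_dd`: `dd (fun u => altL (ez F u) b) a = altL (fun b' => dd (fun u => ez F u b') a) b`, `dd (altL (ez F a)) b = altL (dd (ez F a)) b`
  (`dd_altL`), `ez_dd` for `dd F = 0`, `F [] = 0` (`F.supp`).
* `mg_alt`: `m ≥ 1`: `hμ.nat` for the permutation (`k = m`), function `y ↦ GG F a (ofFn y)` (invariant and bounded), and `altL_perm`. `m = 0`: `σ = 1`, `RTree.ext_of_le_two`.
* `mg_total`: `dd (fun u => mg μ G u m τ) a = μ m τ (fun y => dd (fun u => G u (ofFn y)) a)` (`μ` linear; induction on `a`, or expand); for `m = j + 1`: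
  `dT (mg μ G a) (j+1) τ = ∑ (-1)^i mg μ G a j (τ.pull δ_i)`, and `mg μ G a j (τ.pull δ_i) = μ m τ (fun y => G a (ofFn (y ∘ i.succAbove)))` (`hμ.nat` if `j ≥ 1`; if `j = 0`
  both sides are `0` since `G a [] = 0`); `dd_ofFn`; `GG_total` with `b = ofFn y`.
* `mg_two`: `mg_alt` for the transposition and `RTree.ext_of_le_two` (the tree with two leaves is unique), so `x = -x`.
* `mg_three`: `RTree.three_cases`, `mg_alt` for `swap 0 1`, `tplus_o`, and `(tplus.pull (swap 0 1)).o 0 1 2 = tplus.o 1 0 2 = -1`.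
-/

set_option autoImplicit false

open scoped BigOperators UpperHalfPlane MatrixGroups

namespace SimplVol

variable {S : Type} {K : Set (S → S)} {p : ℕ} {F : List (S × ℍ) → ℝ}

theorem lr2_altL_zero (b : List ℍ) : altL (fun _ : List ℍ => (0 : ℝ)) b = 0 := by
  unfold altL
  simp

theorem lr2_ez_zero (a : List S) (b : List ℍ) : ez (fun _ : List (S × ℍ) => (0 : ℝ)) a b = 0 := by
  have h := ez_smul 0 (fun _ : List (S × ℍ) => (0 : ℝ)) a b
  simpa using h

theorem GG_nil_left (F : List (S × ℍ) → ℝ) (b : List ℍ) : GG F [] b = 0 := by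
  unfold GG
  have h : ez F ([] : List S) = fun _ : List ℍ => (0 : ℝ) := funext fun y => ez_nil_left F y
  rw [h, lr2_altL_zero]

theorem GG_nil_right (F : List (S × ℍ) → ℝ) (a : List S) : GG F a [] = 0 := by
  unfold GG
  rw [altL_nil, ez_nil_right]

theorem GG_map_left (hF : Coc (prodK K) p F) (κ : S → S) (hκ : κ ∈ K) (a : List S) (b : List ℍ) :
    GG F (a.map κ) b = GG F a b := by
  unfold GG
  refine altL_congr _ _ _ fun m _ => ?_
  have h := ez_map κ (id : ℍ → ℍ) F a m
  rw [List.map_id] at h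
  rw [h]
  have h2 : (fun m : List (S × ℍ) => F (m.map (Prod.map κ id))) = F := by
    funext m
    exact hF.inv _ (Or.inl ⟨κ, hκ, rfl⟩) m
  rw [h2]

theorem GG_map_right (hF : Coc (prodK K) p F) (g : SL(2, ℝ)) (a : List S) (b : List ℍ) :
    GG F a (b.map fun z => g • z) = GG F a b := by
  unfold GG
  rw [altL_map]
  refine altL_congr _ _ _ fun m _ => ?_
  have h := ez_map (id : S → S) (fun z : ℍ => g • z) F a m
  rw [List.map_id] at h
  rw [h]
  have h2 : (fun m : List (S × ℍ) => F (m.map (Prod.map id fun z : ℍ => g • z))) = F := by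
    funext m
    exact hF.inv _ (Or.inr ⟨g, rfl⟩) m
  rw [h2]

theorem GG_supp (hF : Coc (prodK K) p F) (a : List S) (b : List ℍ)
    (h : a.length + b.length ≠ p + 1) : GG F a b = 0 := by
  unfold GG
  have h1 : altL (ez F a) b = altL (fun _ : List ℍ => (0 : ℝ)) b := by
    refine altL_congr _ _ _ fun m hm => ?_
    rw [ez_congr F (fun _ => 0) a m fun m' hm' => hF.supp m' (by omega), lr2_ez_zero]
  rw [h1, lr2_altL_zero]

theorem GG_bdd (hF : Coc (prodK K) p F) : ∃ C, 0 ≤ C ∧ ∀ a b, |GG F a b| ≤ C := by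
  obtain ⟨C, hC⟩ := hF.bdd
  have hC0 : 0 ≤ C := (abs_nonneg _).trans (hC [])
  choose M hM0 hM using fun i j : ℕ => abs_ez_le (S := S) (Y := ℍ) i j
  have hs : ∀ i j : ℕ, 0 ≤ M i j * C := fun i j => mul_nonneg (hM0 i j) hC0
  refine ⟨∑ i ∈ Finset.range (p + 2), ∑ j ∈ Finset.range (p + 2), M i j * C,
    Finset.sum_nonneg fun i _ => Finset.sum_nonneg fun j _ => hs i j, fun a b => ?_⟩
  by_cases h : a.length + b.length = p + 1
  · have h1 : |GG F a b| ≤ M a.length b.length * C := by
      unfold GG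
      refine abs_altL_le _ _ _ fun m hm => ?_
      exact hM a.length b.length F C hC0 hC a m rfl hm
    refine h1.trans ?_
    have h2 : M a.length b.length * C ≤ ∑ j ∈ Finset.range (p + 2), M a.length j * C :=
      Finset.single_le_sum (f := fun j => M a.length j * C) (fun j _ => hs _ j)
        (Finset.mem_range.2 (by omega))
    refine h2.trans ?_
    exact Finset.single_le_sum (f := fun i => ∑ j ∈ Finset.range (p + 2), M i j * C)
      (fun i _ => Finset.sum_nonneg fun j _ => hs i j) (Finset.mem_range.2 (by omega))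
  · rw [GG_supp hF a b h, abs_zero]
    exact Finset.sum_nonneg fun i _ => Finset.sum_nonneg fun j _ => hs i j

theorem lr2_dd_altL_left (H : List S → List ℍ → ℝ) (a : List S) (b : List ℍ) :
    dd (fun u => altL (H u) b) a = altL (fun b' => dd (fun u => H u b') a) b := by
  unfold altL
  rw [dd_smul, dd_sum]
  congr 1
  refine Finset.sum_congr rfl fun σ _ => ?_
  rw [dd_smul]

theorem GG_total (hF : Coc (prodK K) p F) (hp : 2 ≤ p) (a : List S) (b : List ℍ) (ha : a ≠ [])
    (hb : b ≠ []) :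
    dd (fun u => GG F u b) a + (-1) ^ (a.length - 1) * dd (GG F a) b = 0 := by
  have h1 : dd (fun u => GG F u b) a = altL (fun b' => dd (fun u => ez F u b') a) b :=
    lr2_dd_altL_left (ez F) a b
  have h2 : dd (GG F a) b = altL (dd (ez F a)) b := dd_altL (ez F a) b
  rw [h1, h2, ← altL_smul, ← altL_add]
  have h3 : altL (fun m => dd (fun u => ez F u m) a + (-1) ^ (a.length - 1) * dd (ez F a) m) b =
      altL (fun _ : List ℍ => (0 : ℝ)) b := by
    refine altL_congr _ _ _ fun m hm => ?_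
    have hm0 : m ≠ [] := by
      intro h
      rw [h, List.length_nil] at hm
      exact hb (List.length_eq_zero_iff.1 hm.symm)
    have h4 := ez_dd F a m ha hm0
    have h5 : dd F = fun _ => (0 : ℝ) := funext fun l => hF.coc l
    have h6 : F [] = 0 := hF.supp [] (by rw [List.length_nil]; omega)
    rw [h5, lr2_ez_zero, h6, ite_self, add_zero] at h4
    exact h4.symm
  rw [h3, lr2_altL_zero]

variable {μ : ∀ m, RTree m → ((Fin m → ℍ) → ℝ) →ₗ[ℝ] ℝ}

theorem mg_zero (F : List (S × ℍ) → ℝ) (a : List S) (τ : RTree 0) : mg μ (GG F) a 0 τ = 0 := by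
  unfold mg
  have h : (fun y : Fin 0 → ℍ => GG F a (List.ofFn y)) = 0 := by
    funext y
    rw [List.ofFn_zero, GG_nil_right]
    rfl
  rw [h, map_zero]

theorem mg_nil (F : List (S × ℍ) → ℝ) (m : ℕ) (τ : RTree m) : mg μ (GG F) [] m τ = 0 := by
  unfold mg
  have h : (fun y : Fin m → ℍ => GG F ([] : List S) (List.ofFn y)) = 0 := by
    funext y
    rw [GG_nil_left]
    rfl
  rw [h, map_zero]

theorem lr2_inv (hF : Coc (prodK K) p F) (a : List S) (m : ℕ) :
    InvH fun y : Fin m → ℍ => GG F a (List.ofFn y) := by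
  intro g y
  have h := GG_map_right hF g a (List.ofFn y)
  rw [List.map_ofFn] at h
  exact h

theorem lr2_bdd (hF : Coc (prodK K) p F) (a : List S) (m : ℕ) :
    ∃ C, ∀ y : Fin m → ℍ, |GG F a (List.ofFn y)| ≤ C := by
  obtain ⟨C, _, hC⟩ := GG_bdd hF
  exact ⟨C, fun y => hC a _⟩

theorem mg_alt (hμ : Means μ) (hF : Coc (prodK K) p F) (a : List S) : AltT (mg μ (GG F) a) := by
  intro m σ τ
  rcases Nat.eq_zero_or_pos m with rfl | hm
  · rw [mg_zero, mg_zero, mul_zero]
  · have h := hμ.nat m m σ.toEmbedding τ (fun y => GG F a (List.ofFn y)) hm (lr2_inv hF a m)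
      (lr2_bdd hF a m)
    unfold mg
    rw [← h]
    have h2 : (fun y : Fin m → ℍ => GG F a (List.ofFn fun i => y (σ.toEmbedding i))) =
        ((Equiv.Perm.sign σ : ℤ) : ℝ) • fun y : Fin m → ℍ => GG F a (List.ofFn y) := by
      funext y
      exact altL_perm (ez F a) y σ
    rw [h2, map_smul, smul_eq_mul]

theorem lr2_dd_lin {X : Type} (L : (X → ℝ) →ₗ[ℝ] ℝ) (H : List S → X → ℝ) (a : List S) :
    dd (fun u => L (fun y => H u y)) a = L (fun y => dd (fun u => H u y) a) := by
  induction a generalizing H with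
  | nil =>
    have h : (fun y : X => dd (fun u : List S => H u y) []) = 0 := by
      funext y
      rfl
    rw [h, map_zero]
    rfl
  | cons c a ih =>
    rw [dd_cons, ih (fun u => H (c :: u)), ← map_sub]
    rfl

theorem mg_total (hμ : Means μ) (hF : Coc (prodK K) p F) (hp : 2 ≤ p) (a : List S) (ha : a ≠ [])
    (m : ℕ) (hm : 1 ≤ m) (τ : RTree m) :
    dd (fun u => mg μ (GG F) u m τ) a + (-1) ^ (a.length - 1) * dT (mg μ (GG F) a) m τ = 0 := by
  obtain ⟨j, rfl⟩ : ∃ j, m = j + 1 := ⟨m - 1, by omega⟩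
  have h1 : dd (fun u => mg μ (GG F) u (j + 1) τ) a =
      μ (j + 1) τ (fun y => dd (fun u => GG F u (List.ofFn y)) a) :=
    lr2_dd_lin (μ (j + 1) τ) (fun u y => GG F u (List.ofFn y)) a
  have h2 : ∀ i : Fin (j + 1), mg μ (GG F) a j (τ.pull (Fin.succAboveEmb i)) =
      μ (j + 1) τ (fun y => GG F a (List.ofFn fun k => y (i.succAbove k))) := by
    intro i
    rcases Nat.eq_zero_or_pos j with rfl | hj
    · rw [mg_zero]
      have h : (fun y : Fin (0 + 1) → ℍ => GG F a (List.ofFn fun k => y (i.succAbove k))) = 0 := by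
        funext y
        rw [List.ofFn_zero, GG_nil_right]
        rfl
      rw [h, map_zero]
    · exact (hμ.nat j (j + 1) (Fin.succAboveEmb i) τ (fun y => GG F a (List.ofFn y)) hj
        (lr2_inv hF a j) (lr2_bdd hF a j)).symm
  have h3 : dT (mg μ (GG F) a) (j + 1) τ =
      μ (j + 1) τ (fun y => dd (GG F a) (List.ofFn y)) := by
    rw [dT_succ]
    simp only [h2]
    have h4 : (fun y : Fin (j + 1) → ℍ => dd (GG F a) (List.ofFn y)) =
        ∑ i : Fin (j + 1), ((-1 : ℝ) ^ (i : ℕ)) •
          fun y : Fin (j + 1) → ℍ => GG F a (List.ofFn fun k => y (i.succAbove k)) := by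
      funext y
      rw [dd_ofFn, Finset.sum_apply]
      rfl
    rw [h4, map_sum]
    refine Finset.sum_congr rfl fun i _ => ?_
    rw [map_smul, smul_eq_mul]
  rw [h1, h3, ← smul_eq_mul, ← map_smul, ← map_add]
  have h5 : ((fun y : Fin (j + 1) → ℍ => dd (fun u => GG F u (List.ofFn y)) a) +
      ((-1 : ℝ) ^ (a.length - 1)) • fun y : Fin (j + 1) → ℍ => dd (GG F a) (List.ofFn y)) = 0 := by
    funext y
    refine GG_total hF hp a (List.ofFn y) ha ?_
    intro h
    have h6 := congrArg List.length h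
    rw [List.length_ofFn, List.length_nil] at h6
    omega
  rw [h5, map_zero]

theorem mg_two (hμ : Means μ) (hF : Coc (prodK K) p F) (a : List S) (τ : RTree 2) :
    mg μ (GG F) a 2 τ = 0 := by
  have h := mg_alt hμ hF a 2 (Equiv.swap 0 1) τ
  rw [RTree.ext_of_le_two le_rfl (τ.pull (Equiv.swap (0 : Fin 2) 1).toEmbedding) τ,
    Equiv.Perm.sign_swap (by decide)] at h
  simp only [Units.val_neg, Units.val_one, Int.cast_neg, Int.cast_one] at h
  linarith

theorem mg_three (hμ : Means μ) (hF : Coc (prodK K) p F) (a : List S) (τ : RTree 3) :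
    mg μ (GG F) a 3 τ = mg μ (GG F) a 3 tplus * ((τ.o 0 1 2 : ℤ) : ℝ) := by
  rcases τ.three_cases with rfl | rfl
  · rw [tplus_o]
    simp
  · rw [mg_alt hμ hF a 3 (Equiv.swap 0 1) tplus, Equiv.Perm.sign_swap (by decide)]
    have h : (tplus.pull (Equiv.swap (0 : Fin 3) 1).toEmbedding).o 0 1 2 = -1 := by
      show tplus.o (Equiv.swap (0 : Fin 3) 1 0) (Equiv.swap (0 : Fin 3) 1 1)
        (Equiv.swap (0 : Fin 3) 1 2) = -1
      decide
    rw [h]
    simp

end SimplVol
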