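import Pool.Agent.H54.RT.MN
import Pool.Agent.H54.RT.LR2

/-!
# Module ZX: the iterated evaluation on triangles

`ZZ n F`: the value of `F` on the products of `n` alternated triangles vanishes (iterated shuffle products).
* `swap_smul`: for `x₀ + i v₀`, `x₁ + i v₁` the matrix `λ (a b; c -a)` with `c = v₀ + v₁`, `a = x₀ v₁ + x₁ v₀`, `b = (v₀ + v₁) (x₀ x₁ - v₀ v₁) - (x₀ + x₁) (x₀ v₁ + x₁ v₀)` has determinant
  `λ² (-a² - b c) = λ² v₀ v₁ ((x₀ - x₁)² + (v₀ + v₁)²)` (`ring`), choose `λ > 0`; it exchanges the points: `a y₀ + b = y₁ (c y₀ - a)` (real and imaginary part).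
* `ZZ_mean`: `ZZ n` only involves finite linear combinations: `ez (fun l => μ 3 τ (fun y => G y l)) a b = μ 3 τ (fun y => ez (G y) a b)` (induction as in the definition of `ez`; `map_add`, `map_smul`, `map_zero`), the
  same for `altL`; so induction on `n` with `ZZ n (G y)` for all `y`; `n = 0`: `μ 3 τ (fun y => 0) = 0`.
* `ZZ_exact`: induction on `n`, for all `B`. `n = 0`: `dd B [default] = B [] = 0`. Step: `B̂ l = B (l.map cE)`, so `(dd B) (l.map cE) = dd B̂ l` (`dd_map`). For every list `a` and `y : Fin 3 → ℍ`,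
  `altL (ez (dd B̂) a) (ofFn y) = dd B' a`, `B' u = altL (ez B̂ u) (ofFn y)`: for `a = []` both are `0`; for `a ≠ []`: `ez_dd` (the lists `b'` in `altL` have three elements, so the last term of `ez_dd` is
  `0`), `dd` in the first variable commutes with `altL`, `dd_altL`: the second part is `± dd (altL (ez B̂ a)) (ofFn y) = ± ∑_i ± altL (ez B̂ a) [y_j, y_k]`, and `altL (ez B̂ a) [u, v] = 0` for all `u, v`:
  it is antisymmetric (`altL_perm`) and, with `g` from `swap_smul`, `ez B̂ a (b.map g) = ez B̂ a b` (`ez_map`, invariance), so it is also symmetric. `B'` is invariant under `KK n` (`ez_map`), `B' [] = 0`.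
-/

set_option autoImplicit false

open scoped BigOperators UpperHalfPlane MatrixGroups

namespace SimplVol

theorem ZX_act (g : SL(2, ℝ)) (z w : ℍ) (a b c d : ℝ) (h00 : g 0 0 = a) (h01 : g 0 1 = b)
    (h10 : g 1 0 = c) (h11 : g 1 1 = d)
    (h : (a : ℂ) * z + b = w * ((c : ℂ) * z + d)) (hne : (c : ℂ) * z + d ≠ 0) : g • z = w := by
  apply UpperHalfPlane.ext
  rw [UpperHalfPlane.coe_specialLinearGroup_apply, h00, h01, h10, h11]
  show ((a : ℂ) * z + b) / ((c : ℂ) * z + d) = w
  rw [div_eq_iff hne, h]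

theorem swap_smul (x y : ℍ) : ∃ g : SL(2, ℝ), g • x = y ∧ g • y = x := by
  obtain ⟨x0, hx0⟩ : ∃ t : ℝ, t = x.re := ⟨_, rfl⟩
  obtain ⟨v0, hv0⟩ : ∃ t : ℝ, t = x.im := ⟨_, rfl⟩
  obtain ⟨x1, hx1⟩ : ∃ t : ℝ, t = y.re := ⟨_, rfl⟩
  obtain ⟨v1, hv1⟩ : ∃ t : ℝ, t = y.im := ⟨_, rfl⟩
  have p0 : 0 < v0 := by rw [hv0]; exact x.im_pos
  have p1 : 0 < v1 := by rw [hv1]; exact y.im_pos
  have ex : (x : ℂ) = x0 + v0 * Complex.I := by
    apply Complex.ext
    · simp [hx0]
    · simp [hv0]
  have ey : (y : ℂ) = x1 + v1 * Complex.I := by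
    apply Complex.ext
    · simp [hx1]
    · simp [hv1]
  have hD : 0 < v0 * v1 * ((x0 - x1) ^ 2 + (v0 + v1) ^ 2) := by positivity
  obtain ⟨l, hl0, hl⟩ : ∃ l : ℝ, 0 < l ∧ l ^ 2 * (v0 * v1 * ((x0 - x1) ^ 2 + (v0 + v1) ^ 2)) = 1 := by
    refine ⟨(Real.sqrt (v0 * v1 * ((x0 - x1) ^ 2 + (v0 + v1) ^ 2)))⁻¹, by positivity, ?_⟩
    rw [inv_pow, Real.sq_sqrt hD.le]
    exact inv_mul_cancel₀ hD.ne'
  obtain ⟨a, ha⟩ : ∃ t : ℝ, t = x0 * v1 + x1 * v0 := ⟨_, rfl⟩
  obtain ⟨c, hc⟩ : ∃ t : ℝ, t = v0 + v1 := ⟨_, rfl⟩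
  obtain ⟨b, hb⟩ : ∃ t : ℝ, t = (v0 + v1) * (x0 * x1 - v0 * v1) - (x0 + x1) * (x0 * v1 + x1 * v0) :=
    ⟨_, rfl⟩
  have hdet : (!![l * a, l * b; l * c, -(l * a)] : Matrix (Fin 2) (Fin 2) ℝ).det = 1 := by
    rw [Matrix.det_fin_two_of, ← hl, ha, hb, hc]
    ring
  have hc0 : 0 < c := by rw [hc]; positivity
  have key : (a : ℂ) * ((x : ℂ) + y) + b = c * (x * y) := by
    rw [ex, ey, ha, hb, hc]
    push_cast
    linear_combination (-((v0 : ℂ) + v1) * v0 * v1) * Complex.I_sq
  have hne : ∀ z : ℍ, ((l * c : ℝ) : ℂ) * z + ((-(l * a) : ℝ) : ℂ) ≠ 0 := by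
    intro z h
    have h1 := congrArg Complex.im h
    simp at h1
    rcases h1 with h2 | h2
    · rcases h2 with h3 | h3
      · exact hl0.ne' h3
      · exact hc0.ne' h3
    · exact z.im_pos.ne' h2
  refine ⟨⟨!![l * a, l * b; l * c, -(l * a)], hdet⟩, ?_, ?_⟩
  · refine ZX_act _ x y (l * a) (l * b) (l * c) (-(l * a)) rfl rfl rfl rfl ?_ (hne x)
    push_cast
    linear_combination (l : ℂ) * key
  · refine ZX_act _ y x (l * a) (l * b) (l * c) (-(l * a)) rfl rfl rfl rfl ?_ (hne y)
    push_cast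
    linear_combination (l : ℂ) * key

/-- Adding a factor. -/
def cE (n : ℕ) (z : (Fin n → ℍ) × ℍ) : Fin (n + 1) → ℍ := Fin.cons z.2 z.1

/-- The iterated evaluation on triangles vanishes. -/
def ZZ : ∀ n : ℕ, (List (Fin n → ℍ) → ℝ) → Prop
  | 0, F => F [fun j => j.elim0] = 0
  | n + 1, F => ∀ y : Fin 3 → ℍ, ZZ n fun a => GG (fun l => F (l.map (cE n))) a (List.ofFn y)

theorem ZX_ez {S Y T : Type} (Λ : (T → ℝ) →ₗ[ℝ] ℝ) (k : ℕ) :
    ∀ (G : T → List (S × Y) → ℝ) (a : List S) (b : List Y), a.length + b.length = k →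
      ez (fun l => Λ fun t => G t l) a b = Λ fun t => ez (G t) a b := by
  induction k with
  | zero =>
    intro G a b h
    have ha : a = [] := List.length_eq_zero_iff.1 (by omega)
    subst ha
    simp only [ez_nil_left]
    exact (map_zero Λ).symm
  | succ k ih =>
    intro G a b h
    cases a with
    | nil =>
      simp only [ez_nil_left]
      exact (map_zero Λ).symm
    | cons a x =>
      cases b with
      | nil =>
        simp only [ez_nil_right]
        exact (map_zero Λ).symm
      | cons b y =>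
        simp only [ez_cons]
        simp only [List.length_cons] at h
        have e1 := ih (fun t m => G t ((a, b) :: m)) x (b :: y) (by simp only [List.length_cons]; omega)
        have e2 := ih (fun t m => G t ((a, b) :: m)) (a :: x) y (by simp only [List.length_cons]; omega)
        rw [e1, e2]
        have e3 : (fun t => (if (x.isEmpty && y.isEmpty) = true then G t [(a, b)] else 0) +
            ez (fun m => G t ((a, b) :: m)) x (b :: y) +
            (-1) ^ x.length * ez (fun m => G t ((a, b) :: m)) (a :: x) y) =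
            (fun t => (if (x.isEmpty && y.isEmpty) = true then G t [(a, b)] else 0)) +
            (fun t => ez (fun m => G t ((a, b) :: m)) x (b :: y)) +
            ((-1 : ℝ) ^ x.length) • fun t => ez (fun m => G t ((a, b) :: m)) (a :: x) y := by
          funext t
          simp
        rw [e3, map_add, map_add, map_smul, smul_eq_mul]
        congr 2
        split_ifs
        · rfl
        · exact (map_zero Λ).symm

theorem ZX_altL {Y T : Type} (Λ : (T → ℝ) →ₗ[ℝ] ℝ) (H : T → List Y → ℝ) (l : List Y) :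
    altL (fun m => Λ fun t => H t m) l = Λ fun t => altL (H t) l := by
  unfold altL
  have e : (fun t => (1 / (Nat.factorial l.length : ℝ)) * ∑ σ : Equiv.Perm (Fin l.length),
      ((Equiv.Perm.sign σ : ℤ) : ℝ) * H t (List.ofFn fun i => l.get (σ i))) =
      (1 / (Nat.factorial l.length : ℝ)) • ∑ σ : Equiv.Perm (Fin l.length),
        ((Equiv.Perm.sign σ : ℤ) : ℝ) • fun t => H t (List.ofFn fun i => l.get (σ i)) := by
    funext t
    simp
  rw [e, map_smul, map_sum, smul_eq_mul]
  congr 1
  refine Finset.sum_congr rfl fun σ _ => ?_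
  rw [map_smul, smul_eq_mul]

theorem ZX_GG {S T : Type} (Λ : (T → ℝ) →ₗ[ℝ] ℝ) (G : T → List (S × ℍ) → ℝ) (a : List S)
    (b : List ℍ) : GG (fun l => Λ fun t => G t l) a b = Λ fun t => GG (G t) a b := by
  unfold GG
  rw [← ZX_altL Λ (fun t => ez (G t) a) b]
  refine altL_congr _ _ b fun m _ => ?_
  exact ZX_ez Λ _ G a m rfl

theorem ZZ_mean (μ : ∀ m, RTree m → ((Fin m → ℍ) → ℝ) →ₗ[ℝ] ℝ) (n : ℕ)
    (G : (Fin 3 → ℍ) → List (Fin n → ℍ) → ℝ) (hG : ∀ y, ZZ n (G y)) (τ : RTree 3) :
    ZZ n fun a => μ 3 τ fun y => G y a := by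
  induction n with
  | zero =>
    show μ 3 τ (fun y => G y [fun j => j.elim0]) = 0
    have h1 : (fun y => G y [fun j => j.elim0]) = 0 := by
      funext y
      exact hG y
    rw [h1, map_zero]
  | succ n ih =>
    intro y'
    have h1 := ih (fun y a => GG (fun l => G y (l.map (cE n))) a (List.ofFn y')) fun y => hG y y'
    have h2 : (fun a => GG (fun l => μ 3 τ fun y => G y (l.map (cE n))) a (List.ofFn y')) =
        fun a => μ 3 τ fun y => GG (fun l => G y (l.map (cE n))) a (List.ofFn y') := by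
      funext a
      exact ZX_GG (μ 3 τ) (fun y l => G y (l.map (cE n))) a (List.ofFn y')
    rw [h2]
    exact h1

/-- `dd` commutes with the alternation in another variable. -/
theorem ZX_dd_altL {S Y : Type} (H : List S → List Y → ℝ) (a : List S) (b : List Y) :
    altL (fun m => dd (fun u => H u m) a) b = dd (fun u => altL (H u) b) a := by
  unfold altL
  rw [dd_smul, dd_sum]
  congr 1
  refine Finset.sum_congr rfl fun σ _ => ?_
  rw [dd_smul]

theorem ZX_cE_left (n : ℕ) (g : Fin n → SL(2, ℝ)) (l : List ((Fin n → ℍ) × ℍ)) :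
    (l.map (Prod.map (fun z j => g j • z j) id)).map (cE n) =
      (l.map (cE n)).map fun z j => (Fin.cons 1 g : Fin (n + 1) → SL(2, ℝ)) j • z j := by
  rw [List.map_map, List.map_map]
  refine List.map_congr_left fun z _ => ?_
  funext j
  refine Fin.cases ?_ (fun i => ?_) j
  · simp [cE]
  · simp [cE]

theorem ZX_cE_right (n : ℕ) (g : SL(2, ℝ)) (l : List ((Fin n → ℍ) × ℍ)) :
    (l.map (Prod.map id fun z => g • z)).map (cE n) =
      (l.map (cE n)).map fun z j => (Fin.cons g 1 : Fin (n + 1) → SL(2, ℝ)) j • z j := by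
  rw [List.map_map, List.map_map]
  refine List.map_congr_left fun z _ => ?_
  funext j
  refine Fin.cases ?_ (fun i => ?_) j
  · simp [cE]
  · simp [cE]

theorem ZX_two {S : Type} (F : List (S × ℍ) → ℝ)
    (hF : ∀ (g : SL(2, ℝ)) (l : List (S × ℍ)), F (l.map (Prod.map id fun z => g • z)) = F l)
    (a : List S) (u v : ℍ) : altL (ez F a) [u, v] = 0 := by
  obtain ⟨g, h1, h2⟩ := swap_smul u v
  have e1 : altL (ez F a) [v, u] = altL (ez F a) [u, v] := by
    have e2 := altL_map (fun z : ℍ => g • z) (ez F a) [u, v]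
    have e3 : [u, v].map (fun z : ℍ => g • z) = [v, u] := by
      simp [h1, h2]
    rw [e3] at e2
    rw [e2]
    refine altL_congr _ _ _ fun m _ => ?_
    have e4 := ez_map (id : S → S) (fun z : ℍ => g • z) F a m
    rw [List.map_id] at e4
    rw [e4]
    congr 1
    funext l
    exact hF g l
  have e5 := altL_perm (ez F a) ![u, v] (Equiv.swap 0 1)
  have e6 : (List.ofFn fun i => (![u, v] : Fin 2 → ℍ) (Equiv.swap 0 1 i)) = [v, u] := by
    simp [List.ofFn_succ]
  have e7 : List.ofFn (![u, v] : Fin 2 → ℍ) = [u, v] := by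
    simp [List.ofFn_succ]
  rw [e6, e7, Equiv.Perm.sign_swap (by decide), e1] at e5
  push_cast at e5
  linarith

theorem ZZ_exact (n : ℕ) (B : List (Fin n → ℍ) → ℝ)
    (hB : ∀ (g : Fin n → SL(2, ℝ)) (l : List (Fin n → ℍ)), B (l.map fun z j => g j • z j) = B l)
    (h0 : B [] = 0) : ZZ n (dd B) := by
  induction n with
  | zero =>
    show dd B [fun j => j.elim0] = 0
    rw [dd_cons, dd_nil, h0, sub_zero]
  | succ n ih =>
    intro y
    obtain ⟨B1, hB1⟩ : ∃ B1 : List ((Fin n → ℍ) × ℍ) → ℝ, B1 = fun l => B (l.map (cE n)) := ⟨_, rfl⟩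
    have hdd : (fun l : List ((Fin n → ℍ) × ℍ) => dd B (l.map (cE n))) = dd B1 := by
      funext l
      rw [hB1, dd_map (cE n) B l]
    have hr : ∀ (g : SL(2, ℝ)) (l : List ((Fin n → ℍ) × ℍ)),
        B1 (l.map (Prod.map id fun z => g • z)) = B1 l := by
      intro g l
      rw [hB1]
      show B ((l.map (Prod.map id fun z => g • z)).map (cE n)) = B (l.map (cE n))
      rw [ZX_cE_right]
      exact hB _ _
    have hl : ∀ (g : Fin n → SL(2, ℝ)) (l : List ((Fin n → ℍ) × ℍ)),
        B1 (l.map (Prod.map (fun z j => g j • z j) id)) = B1 l := by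
      intro g l
      rw [hB1]
      show B ((l.map (Prod.map (fun z j => g j • z j) id)).map (cE n)) = B (l.map (cE n))
      rw [ZX_cE_left]
      exact hB _ _
    have hB10 : B1 [] = 0 := by
      rw [hB1]
      exact h0
    have key : (fun a => GG (fun l => dd B (l.map (cE n))) a (List.ofFn y)) =
        dd fun u => altL (ez B1 u) (List.ofFn y) := by
      funext a
      rw [hdd]
      unfold GG
      by_cases ha : a = []
      · subst ha
        rw [dd_nil]
        have e1 : (ez (dd B1) ([] : List (Fin n → ℍ)) : List ℍ → ℝ) = fun _ => 0 := by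
          funext b
          exact ez_nil_left _ _
        rw [e1]
        have e2 := altL_smul 0 (fun _ : List ℍ => (0 : ℝ)) (List.ofFn y)
        simpa using e2
      · have e1 : altL (ez (dd B1) a) (List.ofFn y) =
            altL (fun b => dd (fun u => ez B1 u b) a + (-1) ^ (a.length - 1) * dd (ez B1 a) b)
              (List.ofFn y) := by
          refine altL_congr _ _ _ fun m hm => ?_
          rw [List.length_ofFn] at hm
          have hm0 : m ≠ [] := by
            intro h
            rw [h] at hm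
            simp at hm
          rw [ez_dd B1 a m ha hm0, if_neg (by omega), add_zero]
        rw [e1, altL_add, altL_smul, ZX_dd_altL, ← dd_altL]
        have e2 : dd (altL (ez B1 a)) (List.ofFn y) = 0 := by
          rw [dd_ofFn]
          refine Finset.sum_eq_zero fun i _ => ?_
          have e3 : (List.ofFn fun j : Fin 2 => y (i.succAbove j)) =
              [y (i.succAbove 0), y (i.succAbove 1)] := by
            simp [List.ofFn_succ]
          rw [e3, ZX_two B1 hr, mul_zero]
        rw [e2, mul_zero, add_zero]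
    show ZZ n fun a => GG (fun l => dd B (l.map (cE n))) a (List.ofFn y)
    rw [key]
    refine ih _ ?_ ?_
    · intro g l
      refine altL_congr _ _ _ fun m _ => ?_
      have e4 := ez_map (fun (z : Fin n → ℍ) j => g j • z j) (id : ℍ → ℍ) B1 l m
      rw [List.map_id] at e4
      rw [e4]
      congr 1
      funext l'
      exact hl g l'
    · have e1 : (ez B1 ([] : List (Fin n → ℍ)) : List ℍ → ℝ) = fun _ => 0 := by
        funext b
        exact ez_nil_left _ _
      show altL (ez B1 []) (List.ofFn y) = 0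
      rw [e1]
      have e2 := altL_smul 0 (fun _ : List ℍ => (0 : ℝ)) (List.ofFn y)
      simpa using e2

end SimplVol
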