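import Pool.Agent.H54.RT.LR5
import Pool.Agent.H54.RT.ZX

/-!
# Module EX: means of bounded cocycles are coboundaries

For `F : List (Fin (n+1) → ℍ) → ℝ` put `F̂ l = F (l.map (cE n))`. `coc_hat`: if `Coc (KK (n+1)) p F` then `Coc (prodK (KK n)) p F̂` (`dd_map`; `cE n ∘ Prod.map κ id` for `κ` given by `g` is the
map given by `Fin.cons 1 g` after `cE n`; `cE n ∘ Prod.map id g` is the map given by `Fin.cons g 1` after `cE n`; `Fin.cases` on the index).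
`ex_step`: let `τ : Fin (n+1) → RTree (k+3)`, `τ' j = τ j.succ`. `MM_succ`: `MM (n+1) (k+3) (fun x => F (ofFn x)) τ = MM n (k+3) (fun x => μ (k+3) (τ 0) (fun y => F̂ (ofFn fun i => (x i, y i)))) τ'`
(`(ofFn z).map (cE n) = ofFn (cE n ∘ z)`), and by `lemR` for `F̂` the inner function is `G0 (ofFn x) + G2 (ofFn (x ∘ castAdd 2)) * o + ∑ (-1)^i b (ofFn (x ∘ δ_i)) ((τ 0).pull δ_i)`; `MM_add`, `MM_sum`, `MM_smul`; `MM_nat` for
`castAdd 2` (an embedding `Fin (k+1) ↪ Fin (k+3)`) and for `δ_i`, the functions `x ↦ G2 (ofFn x)` and `x ↦ b (ofFn x) σ` are bounded and `InvN` (elements of `KK n`; `List.map_ofFn`).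
So with `M0 τ' = MM n (k+3) (G0 ∘ ofFn) τ'`, `M2 τ'' = MM n (k+1) (G2 ∘ ofFn) τ''`, `b'' σ τ'' = MM n (k+2) (fun x => b (ofFn x) σ) τ''`:
 `MM (n+1) (k+3) F τ = M0 τ' + M2 (τ' restricted to the first k+1 leaves) * (τ 0).o k (k+1) (k+2) + ∑_i (-1)^i b'' ((τ 0).pull δ_i) (τ'.pull δ_i)`.
If `M0 τ' = ∑_{i : Fin (k+3)} (-1)^i c0 (τ'.pull δ_i)` and `M2 τ'' = ∑_{i : Fin (k+1)} (-1)^i c2 (τ''.pull δ_i)` (for trees with `k+1` leaves) then the whole is the coboundary of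
`σ ↦ c0 σ' + (if k ≥ 1: c2 (σ' restricted to the first k leaves) * (σ 0).o (k-1) k (k+1)) + b'' (σ 0) σ'` on trees with `k + 2` leaves: for `σ = τ.pull δ_i`: `i ≤ k`: the first `k` leaves of `δ_i` are those of the
first `k+1` leaves without `i`, the last three leaves are `k, k+1, k+2`; for `i = k, k+1, k+2` the first `k` leaves of `τ.pull δ_i` are `0..k-1`, the last three are `{k-1,k,k+1,k+2}` without one. So the sum over
`i` of the middle terms is `∑_{i ≤ k} (-1)^i c2 (..) o(k,k+1,k+2)` plus `c2 (first k leaves) * (± (o(k-1,k+1,k+2) - o(k-1,k,k+2) + o(k-1,k,k+1)))` with sign `(-1)^(k+1)`, plus the correction that the term `i = k` of the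
first sum has been counted: precisely `∑_{i<k} (-1)^i c2 (first k+1 leaves without i) o(k,k+1,k+2) + (-1)^k c2 (first k leaves) [o(k-1,k+1,k+2) - o(k-1,k,k+2) + o(k-1,k,k+1)]`, and by `o_coc` (for `k-1,k,k+1,k+2`) the bracket is
`o(k,k+1,k+2)`. `(τ.pull δ_i).pull (castAdd) = τ.pull _` by `pull_trans`, equality of embeddings.
* `ex_V` (induction on `n`, for all `q`). `n = 0`: `q ≥ 1`, let `a` be the value of `F` at the list of `q + 1` copies of the unique point. `dd F` at `q + 2` copies is `(∑_{i<q+2} (-1)^i) a = 0`. If `q` is odd, then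
  `q + 2` is odd and `a = 0`: take `b = 0`. If `q` is even, `∑_{i<q+1} (-1)^i = 1`: take `b = a`. Step: `q > (n+1)*2`, so `q + 1 = k + 3` with `k ≥ 1`; `G0_coc`, `G2_coc` for `F̂`; `G0` has `q + 1` points, `q > n*2`;
  `G2` has `q - 1 = (q - 2) + 1` points, `q - 2 > n*2`: induction hypothesis for both.
* `ex_Z` (induction on `n`). `n = 0`: `F [*] = 0`, `b = 0`. Step: `F` has `(n+1)*2 + 1 = k + 3` points, `k = n*2`; `G0` has `n*2 + 3` points: `ex_V n`; `G2` has `n*2 + 1` points and `ZZ n (G2 μ F̂)` by `ZZ_mean` (`G y a = GG F̂ a (ofFn y)`,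
  `ZZ (n+1) F`): induction hypothesis (if `n = 0` the functions on trees with `0` leaves: `k = 0`, no `c2` term; then `M2 = 0` because `G2 [*] = 0`).
-/

set_option autoImplicit false

open scoped BigOperators UpperHalfPlane MatrixGroups

namespace SimplVol

variable {μ : ∀ m, RTree m → ((Fin m → ℍ) → ℝ) →ₗ[ℝ] ℝ}

theorem coc_hat {n p : ℕ} {F : List (Fin (n + 1) → ℍ) → ℝ} (hF : Coc (KK (n + 1)) p F) :
    Coc (prodK (KK n)) p fun l => F (l.map (cE n)) where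
  supp l hl := hF.supp _ (by rwa [List.length_map])
  bdd := by
    obtain ⟨C, hC⟩ := hF.bdd
    exact ⟨C, fun l => hC _⟩
  inv κ hκ l := by
    rcases hκ with ⟨κ', ⟨g, rfl⟩, rfl⟩ | ⟨g, rfl⟩
    · have h1 : ∀ z : (Fin n → ℍ) × ℍ, cE n (Prod.map (fun z j => g j • z j) id z) =
          fun j => (Fin.cons 1 g : Fin (n + 1) → SL(2, ℝ)) j • cE n z j := by
        intro z
        funext j
        refine Fin.cases ?_ (fun j => ?_) j
        · simp [cE]
        · simp [cE]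
      have h2 := hF.inv (fun z j => (Fin.cons 1 g : Fin (n + 1) → SL(2, ℝ)) j • z j) ⟨_, rfl⟩
        (l.map (cE n))
      rw [List.map_map] at h2
      rw [List.map_map, ← h2]
      congr 1
      apply List.map_congr_left
      intro z _
      exact h1 z
    · have h1 : ∀ z : (Fin n → ℍ) × ℍ, cE n (Prod.map id (fun z => g • z) z) =
          fun j => (Fin.cons g (fun _ => 1) : Fin (n + 1) → SL(2, ℝ)) j • cE n z j := by
        intro z
        funext j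
        refine Fin.cases ?_ (fun j => ?_) j
        · simp [cE]
        · simp [cE]
      have h2 := hF.inv (fun z j => (Fin.cons g (fun _ => 1) : Fin (n + 1) → SL(2, ℝ)) j • z j)
        ⟨_, rfl⟩ (l.map (cE n))
      rw [List.map_map] at h2
      rw [List.map_map, ← h2]
      congr 1
      apply List.map_congr_left
      intro z _
      exact h1 z
  coc l := by
    rw [dd_map]
    exact hF.coc _

theorem EX_inv {n m p : ℕ} {G : List (Fin n → ℍ) → ℝ} (hG : Coc (KK n) p G) :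
    InvN (fun x : Fin m → Fin n → ℍ => G (List.ofFn x)) := by
  intro g x
  have h := hG.inv (fun z j => g j • z j) ⟨g, rfl⟩ (List.ofFn x)
  rw [List.map_ofFn] at h
  exact h

theorem EX_main (hμ : Means μ) {n k : ℕ} {F : List (Fin (n + 1) → ℍ) → ℝ}
    (hF : Coc (KK (n + 1)) (k + 3) F) :
    ∃ B : RTree (k + 2) → (Fin n → RTree (k + 2)) → ℝ, ∀ τ : Fin (n + 1) → RTree (k + 3),
      MM μ (n + 1) (k + 3) (fun x => F (List.ofFn x)) τ =
        MM μ n (k + 3) (fun x => G0 μ (fun l => F (l.map (cE n))) (List.ofFn x))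
          (fun j => τ j.succ) +
        MM μ n (k + 1) (fun x => G2 μ (fun l => F (l.map (cE n))) (List.ofFn x))
          (fun j => (τ j.succ).pull (Fin.castAddEmb 2)) *
          (((τ 0).o ⟨k, by omega⟩ ⟨k + 1, by omega⟩ ⟨k + 2, by omega⟩ : ℤ) : ℝ) +
        ∑ i : Fin (k + 3), (-1 : ℝ) ^ (i : ℕ) *
          B ((τ 0).pull (Fin.succAboveEmb i)) (fun j => (τ j.succ).pull (Fin.succAboveEmb i)) := by
  have hF' := coc_hat hF
  obtain ⟨b, ⟨C, hbC⟩, hbI, hb⟩ := lemR hμ hF'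
  have hG2 : Coc (KK n) (k + 1) (G2 μ fun l => F (l.map (cE n))) := G2_coc hμ hF'
  refine ⟨fun σ ρ => MM μ n (k + 2) (fun x => b (List.ofFn x) σ) ρ, fun τ => ?_⟩
  rw [MM_succ]
  have h1 : (fun x : Fin (k + 3) → Fin n → ℍ => μ (k + 3) (τ 0) fun y =>
      F (List.ofFn fun i => (Fin.cons (y i) (x i) : Fin (n + 1) → ℍ))) = fun x =>
      (G0 μ (fun l => F (l.map (cE n))) (List.ofFn x) +
        (((τ 0).o ⟨k, by omega⟩ ⟨k + 1, by omega⟩ ⟨k + 2, by omega⟩ : ℤ) : ℝ) *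
          G2 μ (fun l => F (l.map (cE n))) (List.ofFn fun i : Fin (k + 1) => x (Fin.castAddEmb 2 i))) +
        ∑ i : Fin (k + 3), (-1 : ℝ) ^ (i : ℕ) *
          b (List.ofFn fun j => x (Fin.succAboveEmb i j)) ((τ 0).pull (Fin.succAboveEmb i)) := by
    funext x
    have h2 := hb x (τ 0)
    have h3 : (fun y : Fin (k + 3) → ℍ =>
        F (List.ofFn fun i => (Fin.cons (y i) (x i) : Fin (n + 1) → ℍ))) =
        fun y => F ((List.ofFn fun i => (x i, y i)).map (cE n)) := by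
      funext y
      rw [List.map_ofFn]
      rfl
    rw [h3, h2]
    rw [mul_comm (G2 μ _ _)]
    rfl
  rw [h1, MM_add, MM_add, MM_smul, MM_sum]
  have h4 := MM_nat hμ (by omega : 1 ≤ k + 1) (Fin.castAddEmb 2 : Fin (k + 1) ↪ Fin (k + 3))
    (fun x => G2 μ (fun l => F (l.map (cE n))) (List.ofFn x)) (EX_inv hG2)
    (by obtain ⟨C', hC'⟩ := hG2.bdd; exact ⟨C', fun x => hC' _⟩) (fun j => τ j.succ)
  rw [h4]
  rw [mul_comm (((τ 0).o ⟨k, by omega⟩ ⟨k + 1, by omega⟩ ⟨k + 2, by omega⟩ : ℤ) : ℝ)]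
  congr 1
  refine Finset.sum_congr rfl fun i _ => ?_
  rw [MM_smul]
  congr 1
  exact MM_nat hμ (by omega : 1 ≤ k + 2) (Fin.succAboveEmb i)
    (fun x => b (List.ofFn x) ((τ 0).pull (Fin.succAboveEmb i))) (by
      intro g x
      have h5 := hbI (fun z j => g j • z j) ⟨g, rfl⟩ (List.ofFn x) ((τ 0).pull (Fin.succAboveEmb i))
      rw [List.map_ofFn] at h5
      exact h5) ⟨C, fun x => hbC _ _⟩ (fun j => τ j.succ)

theorem EX_lt {m : ℕ} (i : Fin (m + 1)) (u : ℕ) (hu : u < m) (h : u < (i : ℕ)) :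
    Fin.succAboveEmb i ⟨u, hu⟩ = ⟨u, by omega⟩ := by
  rw [Fin.succAboveEmb_apply, Fin.succAbove_of_castSucc_lt]
  · rfl
  · exact h

theorem EX_ge {m : ℕ} (i : Fin (m + 1)) (u : ℕ) (hu : u < m) (h : (i : ℕ) ≤ u) :
    Fin.succAboveEmb i ⟨u, hu⟩ = ⟨u + 1, by omega⟩ := by
  rw [Fin.succAboveEmb_apply, Fin.succAbove_of_le_castSucc]
  · rfl
  · exact h

theorem EX_alg {n k : ℕ} (c2 : (Fin n → RTree (k + 1)) → ℝ) (τ0 : RTree (k + 4))
    (τ : Fin n → RTree (k + 4)) :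
    ∑ i : Fin (k + 4), (-1 : ℝ) ^ (i : ℕ) *
      (c2 (fun j => ((τ j).pull (Fin.succAboveEmb i)).pull
          (Fin.castAddEmb 2 : Fin (k + 1) ↪ Fin (k + 3))) *
        (((τ0.pull (Fin.succAboveEmb i)).o (⟨k, by omega⟩ : Fin (k + 3)) ⟨k + 1, by omega⟩
          ⟨k + 2, by omega⟩ : ℤ) : ℝ)) =
    (∑ i : Fin (k + 2), (-1 : ℝ) ^ (i : ℕ) *
      c2 (fun j => ((τ j).pull (Fin.castAddEmb 2 : Fin (k + 2) ↪ Fin (k + 4))).pull
        (Fin.succAboveEmb i))) *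
      ((τ0.o ⟨k + 1, by omega⟩ ⟨k + 2, by omega⟩ ⟨k + 3, by omega⟩ : ℤ) : ℝ) := by
  have hD : ∀ (i : Fin (k + 4)) (i' : Fin (k + 2)), ((i : ℕ) = i' ∨ (k + 1 ≤ (i : ℕ) ∧ (i' : ℕ) = k + 1)) →
      c2 (fun j => ((τ j).pull (Fin.succAboveEmb i)).pull
          (Fin.castAddEmb 2 : Fin (k + 1) ↪ Fin (k + 3))) =
      c2 (fun j => ((τ j).pull (Fin.castAddEmb 2 : Fin (k + 2) ↪ Fin (k + 4))).pull
        (Fin.succAboveEmb i')) := by
    intro i i' h
    congr 1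
    funext j
    rw [RTree.pull_trans, RTree.pull_trans]
    congr 1
    ext u
    have hu := u.2
    simp only [Function.Embedding.trans_apply, Fin.succAboveEmb_apply, Fin.castAddEmb_apply,
      Fin.succAbove, Fin.lt_def]
    split_ifs with h1 h2 h2 <;> simp at h1 h2 ⊢ <;> omega
  rw [Fin.sum_univ_castSucc, Fin.sum_univ_castSucc, Fin.sum_univ_castSucc]
  rw [Fin.sum_univ_castSucc (n := k + 1)]
  have hO1 : ∀ i : Fin (k + 1), (τ0.pull (Fin.succAboveEmb i.castSucc.castSucc.castSucc)).o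
      (⟨k, by omega⟩ : Fin (k + 3)) ⟨k + 1, by omega⟩ ⟨k + 2, by omega⟩ =
      τ0.o ⟨k + 1, by omega⟩ ⟨k + 2, by omega⟩ ⟨k + 3, by omega⟩ := by
    intro i
    have hi := i.2
    change τ0.o (Fin.succAboveEmb _ _) (Fin.succAboveEmb _ _) (Fin.succAboveEmb _ _) = _
    rw [EX_ge _ k (by omega) (by simp <;> omega), EX_ge _ (k + 1) (by omega) (by simp <;> omega),
      EX_ge _ (k + 2) (by omega) (by simp <;> omega)]
  have hO2 : (τ0.pull (Fin.succAboveEmb (Fin.last (k + 1)).castSucc.castSucc)).o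
      (⟨k, by omega⟩ : Fin (k + 3)) ⟨k + 1, by omega⟩ ⟨k + 2, by omega⟩ =
      τ0.o ⟨k, by omega⟩ ⟨k + 2, by omega⟩ ⟨k + 3, by omega⟩ := by
    change τ0.o (Fin.succAboveEmb _ _) (Fin.succAboveEmb _ _) (Fin.succAboveEmb _ _) = _
    rw [EX_lt _ k (by omega) (by simp), EX_ge _ (k + 1) (by omega) (by simp),
      EX_ge _ (k + 2) (by omega) (by simp)]
  have hO3 : (τ0.pull (Fin.succAboveEmb (Fin.last (k + 2)).castSucc)).o
      (⟨k, by omega⟩ : Fin (k + 3)) ⟨k + 1, by omega⟩ ⟨k + 2, by omega⟩ =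
      τ0.o ⟨k, by omega⟩ ⟨k + 1, by omega⟩ ⟨k + 3, by omega⟩ := by
    change τ0.o (Fin.succAboveEmb _ _) (Fin.succAboveEmb _ _) (Fin.succAboveEmb _ _) = _
    rw [EX_lt _ k (by omega) (by simp), EX_lt _ (k + 1) (by omega) (by simp),
      EX_ge _ (k + 2) (by omega) (by simp)]
  have hO4 : (τ0.pull (Fin.succAboveEmb (Fin.last (k + 3)))).o
      (⟨k, by omega⟩ : Fin (k + 3)) ⟨k + 1, by omega⟩ ⟨k + 2, by omega⟩ =
      τ0.o ⟨k, by omega⟩ ⟨k + 1, by omega⟩ ⟨k + 2, by omega⟩ := by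
    change τ0.o (Fin.succAboveEmb _ _) (Fin.succAboveEmb _ _) (Fin.succAboveEmb _ _) = _
    rw [EX_lt _ k (by omega) (by simp), EX_lt _ (k + 1) (by omega) (by simp),
      EX_lt _ (k + 2) (by omega) (by simp)]
  rw [hO2, hO3, hO4, hD (Fin.last (k + 1)).castSucc.castSucc (Fin.last (k + 1)) (by simp),
    hD (Fin.last (k + 2)).castSucc (Fin.last (k + 1)) (by simp),
    hD (Fin.last (k + 3)) (Fin.last (k + 1)) (by simp)]
  have hS : ∀ i : Fin (k + 1), (-1 : ℝ) ^ ((i.castSucc.castSucc.castSucc : Fin (k + 4)) : ℕ) *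
      (c2 (fun j => ((τ j).pull (Fin.succAboveEmb i.castSucc.castSucc.castSucc)).pull
          (Fin.castAddEmb 2 : Fin (k + 1) ↪ Fin (k + 3))) *
        (((τ0.pull (Fin.succAboveEmb i.castSucc.castSucc.castSucc)).o (⟨k, by omega⟩ : Fin (k + 3))
          ⟨k + 1, by omega⟩ ⟨k + 2, by omega⟩ : ℤ) : ℝ)) =
      ((-1 : ℝ) ^ ((i.castSucc : Fin (k + 2)) : ℕ) *
        c2 (fun j => ((τ j).pull (Fin.castAddEmb 2 : Fin (k + 2) ↪ Fin (k + 4))).pull
        (Fin.succAboveEmb i.castSucc))) *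
      ((τ0.o ⟨k + 1, by omega⟩ ⟨k + 2, by omega⟩ ⟨k + 3, by omega⟩ : ℤ) : ℝ) := by
    intro i
    rw [hO1 i, hD i.castSucc.castSucc.castSucc i.castSucc (Or.inl (by simp))]
    simp only [Fin.val_castSucc]
    ring
  rw [Finset.sum_congr rfl fun i _ => hS i, ← Finset.sum_mul]
  have hco := τ0.o_coc ⟨k, by omega⟩ ⟨k + 1, by omega⟩ ⟨k + 2, by omega⟩ ⟨k + 3, by omega⟩
  have hco' : ((τ0.o ⟨k + 1, by omega⟩ ⟨k + 2, by omega⟩ ⟨k + 3, by omega⟩ : ℤ) : ℝ) =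
      ((τ0.o ⟨k, by omega⟩ ⟨k + 2, by omega⟩ ⟨k + 3, by omega⟩ : ℤ) : ℝ) -
      ((τ0.o ⟨k, by omega⟩ ⟨k + 1, by omega⟩ ⟨k + 3, by omega⟩ : ℤ) : ℝ) +
      ((τ0.o ⟨k, by omega⟩ ⟨k + 1, by omega⟩ ⟨k + 2, by omega⟩ : ℤ) : ℝ) := by
    rw [← Int.cast_sub, ← Int.cast_add]
    congr 1
    omega
  rw [add_mul, hco']
  simp only [Fin.val_castSucc, Fin.val_last, pow_succ]
  ring

theorem ex_step (hμ : Means μ) {n k : ℕ} {F : List (Fin (n + 1) → ℍ) → ℝ}
    (hF : Coc (KK (n + 1)) (k + 3) F)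
    (h0 : ∃ c0 : (Fin n → RTree (k + 2)) → ℝ, ∀ τ : Fin n → RTree (k + 3),
      MM μ n (k + 3) (fun x => G0 μ (fun l => F (l.map (cE n))) (List.ofFn x)) τ =
        ∑ i : Fin (k + 3), (-1 : ℝ) ^ (i : ℕ) * c0 fun j => (τ j).pull (Fin.succAboveEmb i))
    (h2 : ∃ c2 : (Fin n → RTree k) → ℝ, ∀ τ : Fin n → RTree (k + 1),
      MM μ n (k + 1) (fun x => G2 μ (fun l => F (l.map (cE n))) (List.ofFn x)) τ =
        if k = 0 then 0 else
        ∑ i : Fin (k + 1), (-1 : ℝ) ^ (i : ℕ) * c2 fun j => (τ j).pull (Fin.succAboveEmb i)) :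
    ∃ b : (Fin (n + 1) → RTree (k + 2)) → ℝ, ∀ τ : Fin (n + 1) → RTree (k + 3),
      MM μ (n + 1) (k + 3) (fun x => F (List.ofFn x)) τ =
        ∑ i : Fin (k + 3), (-1 : ℝ) ^ (i : ℕ) * b fun j => (τ j).pull (Fin.succAboveEmb i) := by
  obtain ⟨B, hB⟩ := EX_main hμ hF
  obtain ⟨c0, hc0⟩ := h0
  obtain ⟨c2, hc2⟩ := h2
  cases k with
  | zero =>
    refine ⟨fun ρ => c0 (fun j => ρ j.succ) + B (ρ 0) (fun j => ρ j.succ), fun τ => ?_⟩
    rw [hB, hc0, hc2, if_pos rfl, zero_mul, add_zero, ← Finset.sum_add_distrib]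
    refine Finset.sum_congr rfl fun i _ => ?_
    ring
  | succ k =>
    refine ⟨fun ρ => c0 (fun j => ρ j.succ) +
      c2 (fun j => (ρ j.succ).pull (Fin.castAddEmb 2 : Fin (k + 1) ↪ Fin (k + 3))) *
        (((ρ 0).o (⟨k, by omega⟩ : Fin (k + 3)) ⟨k + 1, by omega⟩ ⟨k + 2, by omega⟩ : ℤ) : ℝ) +
      B (ρ 0) (fun j => ρ j.succ), fun τ => ?_⟩
    rw [hB, hc0, hc2, if_neg (by omega)]
    have h3 := EX_alg c2 (τ 0) (fun j => τ j.succ)
    rw [← h3, ← Finset.sum_add_distrib, ← Finset.sum_add_distrib]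
    refine Finset.sum_congr rfl fun i _ => ?_
    ring

theorem ex_V (hμ : Means μ) (n : ℕ) : ∀ q : ℕ, n * 2 < q → ∀ F : List (Fin n → ℍ) → ℝ,
    Coc (KK n) (q + 1) F → ∃ b : (Fin n → RTree q) → ℝ, ∀ τ : Fin n → RTree (q + 1),
      MM μ n (q + 1) (fun x => F (List.ofFn x)) τ =
        ∑ i : Fin (q + 1), (-1 : ℝ) ^ (i : ℕ) * b fun j => (τ j).pull (Fin.succAboveEmb i) := by
  induction n with
  | zero =>
    intro q hq F hF
    have hsum : ∀ m : ℕ, ∑ i : Fin m, (-1 : ℝ) ^ (i : ℕ) = if Even m then 0 else 1 := by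
      intro m
      rw [Fin.sum_univ_eq_sum_range (fun i => (-1 : ℝ) ^ i) m, neg_one_geom_sum]
    rcases Nat.even_or_odd q with he | ho
    · refine ⟨fun _ => F (List.ofFn fun (_ : Fin (q + 1)) (j : Fin 0) => j.elim0), fun τ => ?_⟩
      rw [MM_zero, ← Finset.sum_mul, hsum, if_neg (by rw [Nat.not_even_iff_odd]; exact he.add_one),
        one_mul]
    · refine ⟨fun _ => 0, fun τ => ?_⟩
      have h1 := hF.coc (List.ofFn fun (_ : Fin (q + 1 + 1)) (j : Fin 0) => (j.elim0 : ℍ))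
      rw [dd_ofFn, ← Finset.sum_mul, hsum, if_neg (by
        rw [Nat.not_even_iff_odd]; exact ho.add_one.add_one), one_mul] at h1
      rw [MM_zero, h1]
      simp
  | succ n ih =>
    intro q hq F hF
    obtain ⟨k, rfl⟩ : ∃ k, q = k + 2 := ⟨q - 2, by omega⟩
    have hF' := coc_hat hF
    obtain ⟨c0, hc0⟩ := ih (k + 2) (by omega) _ (G0_coc hμ hF' (by omega))
    obtain ⟨c2, hc2⟩ := ih k (by omega) _ (G2_coc (q := k + 1) hμ hF')
    exact ex_step hμ hF ⟨c0, hc0⟩ ⟨c2, fun τ => by rw [if_neg (by omega)]; exact hc2 τ⟩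

theorem EX_Z (hμ : Means μ) (n : ℕ) : ∀ m : ℕ, m = n * 2 → ∀ F : List (Fin n → ℍ) → ℝ,
    Coc (KK n) (m + 1) F → ZZ n F → ∃ b : (Fin n → RTree m) → ℝ,
      ∀ τ : Fin n → RTree (m + 1), MM μ n (m + 1) (fun x => F (List.ofFn x)) τ =
        ∑ i : Fin (m + 1), (-1 : ℝ) ^ (i : ℕ) * b fun j => (τ j).pull (Fin.succAboveEmb i) := by
  induction n with
  | zero =>
    intro m hm F hF hZ
    obtain rfl : m = 0 := by omega
    refine ⟨fun _ => 0, fun τ => ?_⟩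
    rw [MM_zero]
    simp only [mul_zero, Finset.sum_const_zero]
    exact hZ
  | succ n ih =>
    intro m hm F hF hZ
    obtain ⟨k, rfl⟩ : ∃ k, m = k + 2 := ⟨m - 2, by omega⟩
    have hF' := coc_hat hF
    obtain ⟨c0, hc0⟩ := ex_V hμ n (k + 2) (by omega) _ (G0_coc hμ hF' (by omega))
    have hZ2 : ZZ n (G2 μ fun l => F (l.map (cE n))) := ZZ_mean μ n _ hZ tplus
    obtain ⟨c2, hc2⟩ := ih k (by omega) _ (G2_coc (q := k + 1) hμ hF') hZ2
    refine ex_step hμ hF ⟨c0, hc0⟩ ⟨c2, fun τ => ?_⟩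
    split_ifs with hk
    · subst hk
      obtain rfl : n = 0 := by omega
      rw [MM_zero]
      exact hZ2
    · exact hc2 τ

theorem ex_Z (hμ : Means μ) (n : ℕ) : ∀ F : List (Fin n → ℍ) → ℝ,
    Coc (KK n) (n * 2 + 1) F → ZZ n F → ∃ b : (Fin n → RTree (n * 2)) → ℝ,
      ∀ τ : Fin n → RTree (n * 2 + 1), MM μ n (n * 2 + 1) (fun x => F (List.ofFn x)) τ =
        ∑ i : Fin (n * 2 + 1), (-1 : ℝ) ^ (i : ℕ) * b fun j => (τ j).pull (Fin.succAboveEmb i) :=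
  fun F hF hZ => EX_Z hμ n (n * 2) rfl F hF hZ

end SimplVol
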