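import Pool.Agent.H54.RT.LD

/-!
# Module EZ: the shuffle map

`ez F [a₀, …] [b₀, …]` is the sum of the values of `F` over all shuffles, with signs.
PROOF of `ez_dd` (the Leibniz rule). Induction on `x.length + y.length`, for all `F`. Write `x = a :: x'`,
`y = b :: y'`, `A := fun m => F ((a, b) :: m)`, so `A [] = F [(a, b)]`, `(dd F) ((a, b) :: m) = F m - dd A m`.
By definition (`ez_cons`), with `[..]` the `0/1` indicator,
 ez (dd F) x y = [x' = y' = []] * F [] + (ez F x' y - ez (dd A) x' y) + (-1)^|x'| (ez F x y' - ez (dd A) x y')
(linearity `ez_sub`; for `x' = y' = []`, `dd F [(a,b)] = F []`).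
 dd (fun u => ez F u y) x = ez F x' y - dd (fun u => ez F (a :: u) y) x', and
 ez F (a :: u) y = [u = y' = []] A [] + ez A u y + (-1)^|u| ez A (a :: u) y';
 inside `dd (..) x'` only `u` with `|u| + 1 = |x'|` occur (`dd_congr`), so there `(-1)^|u| = -(-1)^|x'|`.
 In the same way dd (fun v => ez F x v) y = ez F x y' - dd (fun v => ez F x (b :: v)) y',
 ez F x (b :: v) = [x' = v = []] A [] + ez A x' (b :: v) + (-1)^|x'| ez A x v.
 Also `dd (fun u => [u = []] c) w = [|w| = 1] c` (small induction).
Insert the induction hypothesis for `(x', y)` if `x' ≠ []` (else `ez _ [] y = 0`) and for `(x, y')` if `y' ≠ []`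
(else `0`), and `dd (fun v => ez A x' v) y = ez A x' y' - dd (fun v => ez A x' (b :: v)) y'`,
`dd (fun u => ez A u y') x = ez A x' y' - dd (fun u => ez A (a :: u) y') x'`. Everything cancels. Four cases
(`x'` empty or not, `y'` empty or not); e.g. for `x' = []`, `y' ≠ []` the term `[|y'| = 1] A []` from the induction
hypothesis cancels against the one from `dd (fun v => [v = []] A []) y'`.
-/

set_option autoImplicit false

open scoped BigOperators Nat

namespace SimplVol

variable {S Y : Type}

/-- The shuffle map. -/
def ez : (List (S × Y) → ℝ) → List S → List Y → ℝ
  | _, [], _ => 0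
  | _, _ :: _, [] => 0
  | F, a :: x, b :: y =>
    (if x.isEmpty && y.isEmpty then F [(a, b)] else 0) +
      ez (fun m => F ((a, b) :: m)) x (b :: y) +
      (-1) ^ x.length * ez (fun m => F ((a, b) :: m)) (a :: x) y
  termination_by _ x y => x.length + y.length

theorem ez_nil_left (F : List (S × Y) → ℝ) (y : List Y) : ez F [] y = 0 := by
  rw [ez]

theorem ez_nil_right (F : List (S × Y) → ℝ) (x : List S) : ez F x [] = 0 := by
  cases x <;> rw [ez]

theorem ez_cons (F : List (S × Y) → ℝ) (a : S) (x : List S) (b : Y) (y : List Y) :
    ez F (a :: x) (b :: y) = (if x.isEmpty && y.isEmpty then F [(a, b)] else 0) +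
      ez (fun m => F ((a, b) :: m)) x (b :: y) +
      (-1) ^ x.length * ez (fun m => F ((a, b) :: m)) (a :: x) y := by
  rw [ez]

theorem ez_add (F G : List (S × Y) → ℝ) (x : List S) (y : List Y) :
    ez (fun m => F m + G m) x y = ez F x y + ez G x y := by
  suffices h : ∀ (n : ℕ) (F G : List (S × Y) → ℝ) (x : List S) (y : List Y),
      x.length + y.length = n → ez (fun m => F m + G m) x y = ez F x y + ez G x y from
    h _ F G x y rfl
  intro n
  induction n with
  | zero =>
    intro F G x y h
    have hx : x = [] := List.length_eq_zero_iff.mp (by omega)
    subst hx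
    simp [ez_nil_left]
  | succ n ih =>
    intro F G x y h
    cases x with
    | nil => simp [ez_nil_left]
    | cons a x =>
      cases y with
      | nil => simp [ez_nil_right]
      | cons b y =>
        rw [List.length_cons, List.length_cons] at h
        rw [ez_cons, ez_cons, ez_cons]
        rw [ih (fun m => F ((a, b) :: m)) (fun m => G ((a, b) :: m)) x (b :: y)
            (by rw [List.length_cons]; omega),
          ih (fun m => F ((a, b) :: m)) (fun m => G ((a, b) :: m)) (a :: x) y
            (by rw [List.length_cons]; omega)]
        split_ifs <;> ring

theorem ez_smul (c : ℝ) (F : List (S × Y) → ℝ) (x : List S) (y : List Y) :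
    ez (fun m => c * F m) x y = c * ez F x y := by
  suffices h : ∀ (n : ℕ) (F : List (S × Y) → ℝ) (x : List S) (y : List Y),
      x.length + y.length = n → ez (fun m => c * F m) x y = c * ez F x y from
    h _ F x y rfl
  intro n
  induction n with
  | zero =>
    intro F x y h
    have hx : x = [] := List.length_eq_zero_iff.mp (by omega)
    subst hx
    simp [ez_nil_left]
  | succ n ih =>
    intro F x y h
    cases x with
    | nil => simp [ez_nil_left]
    | cons a x =>
      cases y with
      | nil => simp [ez_nil_right]
      | cons b y =>
        rw [List.length_cons, List.length_cons] at h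
        rw [ez_cons, ez_cons]
        rw [ih (fun m => F ((a, b) :: m)) x (b :: y)
            (by rw [List.length_cons]; omega),
          ih (fun m => F ((a, b) :: m)) (a :: x) y
            (by rw [List.length_cons]; omega)]
        split_ifs <;> ring

theorem ez_sub (F G : List (S × Y) → ℝ) (x : List S) (y : List Y) :
    ez (fun m => F m - G m) x y = ez F x y - ez G x y := by
  have h := ez_add F (fun m => (-1) * G m) x y
  rw [ez_smul] at h
  have h1 : (fun m => F m - G m) = fun m => F m + (-1) * G m := by
    funext m
    ring
  rw [h1, h]
  ring

/-- Only the values of `F` on lists of length `|x| + |y| - 1` matter. -/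
theorem ez_congr (F G : List (S × Y) → ℝ) (x : List S) (y : List Y)
    (h : ∀ m : List (S × Y), m.length + 1 = x.length + y.length → F m = G m) :
    ez F x y = ez G x y := by
  suffices h' : ∀ (n : ℕ) (F G : List (S × Y) → ℝ) (x : List S) (y : List Y),
      x.length + y.length = n →
      (∀ m : List (S × Y), m.length + 1 = x.length + y.length → F m = G m) →
      ez F x y = ez G x y from h' _ F G x y rfl h
  intro n
  induction n with
  | zero =>
    intro F G x y h _
    have hx : x = [] := List.length_eq_zero_iff.mp (by omega)
    subst hx
    simp [ez_nil_left]
  | succ n ih =>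
    intro F G x y h hFG
    cases x with
    | nil => simp [ez_nil_left]
    | cons a x =>
      cases y with
      | nil => simp [ez_nil_right]
      | cons b y =>
        rw [List.length_cons, List.length_cons] at h
        simp only [List.length_cons] at hFG
        rw [ez_cons, ez_cons]
        rw [ih (fun m => F ((a, b) :: m)) (fun m => G ((a, b) :: m)) x (b :: y)
            (by rw [List.length_cons]; omega)
            (fun m hm => hFG _ (by
              rw [List.length_cons] at hm
              rw [List.length_cons]; omega)),
          ih (fun m => F ((a, b) :: m)) (fun m => G ((a, b) :: m)) (a :: x) y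
            (by rw [List.length_cons]; omega)
            (fun m hm => hFG _ (by
              rw [List.length_cons] at hm
              rw [List.length_cons]; omega))]
        congr 2
        by_cases hc : (x.isEmpty && y.isEmpty) = true
        · rw [if_pos hc, if_pos hc]
          rw [Bool.and_eq_true, List.isEmpty_iff, List.isEmpty_iff] at hc
          obtain ⟨h1, h2⟩ := hc
          subst h1; subst h2
          exact hFG _ rfl
        · rw [if_neg hc, if_neg hc]

/-- Naturality. -/
theorem ez_map {S' Y' : Type} (f : S' → S) (g : Y' → Y) (F : List (S × Y) → ℝ) (x : List S')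
    (y : List Y') : ez F (x.map f) (y.map g) = ez (fun m => F (m.map (Prod.map f g))) x y := by
  suffices h' : ∀ (n : ℕ) (F : List (S × Y) → ℝ) (x : List S') (y : List Y'),
      x.length + y.length = n →
      ez F (x.map f) (y.map g) = ez (fun m => F (m.map (Prod.map f g))) x y from
    h' _ F x y rfl
  intro n
  induction n with
  | zero =>
    intro F x y h
    have hx : x = [] := List.length_eq_zero_iff.mp (by omega)
    subst hx
    simp [ez_nil_left]
  | succ n ih =>
    intro F x y h
    cases x with
    | nil => simp [ez_nil_left]
    | cons a x =>
      cases y with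
      | nil => simp [ez_nil_right]
      | cons b y =>
        rw [List.length_cons, List.length_cons] at h
        have h1 := ih (fun m => F ((f a, g b) :: m)) x (b :: y)
          (by rw [List.length_cons]; omega)
        have h2 := ih (fun m => F ((f a, g b) :: m)) (a :: x) y
          (by rw [List.length_cons]; omega)
        rw [List.map_cons] at h1 h2
        rw [List.map_cons, List.map_cons, ez_cons, ez_cons, h1, h2]
        simp [List.length_map, Prod.map]

/-- A bound that depends only on the lengths. -/
theorem abs_ez_le (p q : ℕ) : ∃ K : ℝ, 0 ≤ K ∧ ∀ (F : List (S × Y) → ℝ) (C : ℝ), 0 ≤ C →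
    (∀ m, |F m| ≤ C) → ∀ (x : List S) (y : List Y), x.length = p → y.length = q →
    |ez F x y| ≤ K * C := by
  suffices h : ∀ (n p q : ℕ), p + q = n → ∃ K : ℝ, 0 ≤ K ∧
      ∀ (F : List (S × Y) → ℝ) (C : ℝ), 0 ≤ C →
      (∀ m, |F m| ≤ C) → ∀ (x : List S) (y : List Y), x.length = p → y.length = q →
      |ez F x y| ≤ K * C from h _ p q rfl
  intro n
  induction n with
  | zero =>
    intro p q h
    refine ⟨0, le_rfl, fun F C _ _ x y hx _ => ?_⟩
    have hx : x = [] := List.length_eq_zero_iff.mp (by omega)
    subst hx
    simp [ez_nil_left]
  | succ n ih =>
    intro p q h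
    cases p with
    | zero =>
      refine ⟨0, le_rfl, fun F C _ _ x y hx _ => ?_⟩
      have hx : x = [] := List.length_eq_zero_iff.mp (by omega)
      subst hx
      simp [ez_nil_left]
    | succ p =>
      cases q with
      | zero =>
        refine ⟨0, le_rfl, fun F C _ _ x y _ hy => ?_⟩
        have hy : y = [] := List.length_eq_zero_iff.mp (by omega)
        subst hy
        simp [ez_nil_right]
      | succ q =>
        obtain ⟨K1, hK1, h1⟩ := ih p (q + 1) (by omega)
        obtain ⟨K2, hK2, h2⟩ := ih (p + 1) q (by omega)
        refine ⟨1 + K1 + K2, by positivity, fun F C hC hF x y hx hy => ?_⟩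
        cases x with
        | nil => simp at hx
        | cons a x =>
          cases y with
          | nil => simp at hy
          | cons b y =>
            rw [List.length_cons] at hx hy
            have e1 := h1 (fun m => F ((a, b) :: m)) C hC (fun m => hF _) x (b :: y)
              (by omega) (by rw [List.length_cons]; omega)
            have e2 := h2 (fun m => F ((a, b) :: m)) C hC (fun m => hF _) (a :: x) y
              (by rw [List.length_cons]; omega) (by omega)
            rw [ez_cons]
            have e3 : |(if x.isEmpty && y.isEmpty then F [(a, b)] else 0 : ℝ)| ≤ C := by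
              split_ifs
              · exact hF _
              · rw [abs_zero]; exact hC
            have e4 : |(-1 : ℝ) ^ x.length * ez (fun m => F ((a, b) :: m)) (a :: x) y| ≤
                K2 * C := by
              rw [abs_mul, abs_pow, abs_neg, abs_one, one_pow, one_mul]
              exact e2
            have e5 := abs_add_le ((if x.isEmpty && y.isEmpty then F [(a, b)] else 0 : ℝ) +
              ez (fun m => F ((a, b) :: m)) x (b :: y))
              ((-1 : ℝ) ^ x.length * ez (fun m => F ((a, b) :: m)) (a :: x) y)
            have e6 := abs_add_le (if x.isEmpty && y.isEmpty then F [(a, b)] else 0 : ℝ)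
              (ez (fun m => F ((a, b) :: m)) x (b :: y))
            linarith

private theorem EZ_dd_ind {Z : Type} (q : Bool) (c : ℝ) (w : List Z) :
    dd (fun u : List Z => if u.isEmpty && q then c else 0) w =
      if w.length = 1 ∧ q = true then c else 0 := by
  cases w with
  | nil => simp
  | cons a w =>
    rw [dd_cons]
    have h0 : dd (fun m : List Z => if (a :: m).isEmpty && q then c else 0) w = 0 := by
      have : (fun m : List Z => if (a :: m).isEmpty && q then c else 0) = fun _ => 0 := by
        funext m
        simp
      rw [this, dd_zero]
    rw [h0, sub_zero]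
    cases w with
    | nil => simp
    | cons b w => simp

private theorem EZ_dd_ind' {Z : Type} (q : Bool) (c : ℝ) (w : List Z) :
    dd (fun u : List Z => if q && u.isEmpty then c else 0) w =
      if w.length = 1 ∧ q = true then c else 0 := by
  rw [← EZ_dd_ind q c w]
  congr 1
  funext u
  rw [Bool.and_comm]

theorem ez_dd (F : List (S × Y) → ℝ) (x : List S) (y : List Y) (hx : x ≠ []) (hy : y ≠ []) :
    ez (dd F) x y = dd (fun u => ez F u y) x + (-1) ^ (x.length - 1) * dd (fun v => ez F x v) y +
      (if x.length = 1 ∧ y.length = 1 then F [] else 0) := by
  suffices h' : ∀ (n : ℕ) (F : List (S × Y) → ℝ) (x : List S) (y : List Y),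
      x.length + y.length = n → x ≠ [] → y ≠ [] →
      ez (dd F) x y = dd (fun u => ez F u y) x + (-1) ^ (x.length - 1) * dd (fun v => ez F x v) y +
        (if x.length = 1 ∧ y.length = 1 then F [] else 0) from h' _ F x y rfl hx hy
  intro n
  induction n with
  | zero =>
    intro F x y h hx _
    exact absurd (List.length_eq_zero_iff.mp (by omega)) hx
  | succ n ih =>
    intro F x y h hx hy
    cases x with
    | nil => exact absurd rfl hx
    | cons a x =>
      cases y with
      | nil => exact absurd rfl hy
      | cons b y =>
        rw [List.length_cons, List.length_cons] at h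
        -- notation
        obtain ⟨A, hA⟩ : ∃ A : List (S × Y) → ℝ, A = fun m => F ((a, b) :: m) := ⟨_, rfl⟩
        have hddF : (fun m => dd F ((a, b) :: m)) = fun m => F m - dd A m := by
          funext m
          rw [dd_cons, hA]
        -- left side
        have hL : ez (dd F) (a :: x) (b :: y) =
            (if x.isEmpty && y.isEmpty then F [] else 0) +
            (ez F x (b :: y) - ez (dd A) x (b :: y)) +
            (-1) ^ x.length * (ez F (a :: x) y - ez (dd A) (a :: x) y) := by
          rw [ez_cons, hddF, ez_sub, ez_sub]
          congr 2
          rw [dd_cons, dd_nil, sub_zero]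
        -- right side, first term
        have hR1 : dd (fun u => ez F u (b :: y)) (a :: x) = ez F x (b :: y) -
            ((if x.length = 1 ∧ y.isEmpty = true then A [] else 0) +
              dd (fun u => ez A u (b :: y)) x +
              (-(-1) ^ x.length) * dd (fun u => ez A (a :: u) y) x) := by
          rw [dd_cons, ← EZ_dd_ind y.isEmpty (A []) x, ← dd_smul, ← dd_add, ← dd_add]
          congr 1
          apply dd_congr
          intro u hu
          rw [ez_cons, ← hu, pow_succ, hA]
          ring
        have hR2 : dd (fun v => ez F (a :: x) v) (b :: y) = ez F (a :: x) y -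
            ((if y.length = 1 ∧ x.isEmpty = true then A [] else 0) +
              dd (fun v => ez A x (b :: v)) y +
              (-1) ^ x.length * dd (fun v => ez A (a :: x) v) y) := by
          rw [dd_cons, ← EZ_dd_ind' x.isEmpty (A []) y, ← dd_smul, ← dd_add, ← dd_add]
          congr 1
          apply dd_congr
          intro v hv
          rw [ez_cons, hA]
        rw [hL, hR1, hR2]
        have hs : ((-1 : ℝ) ^ x.length) * ((-1 : ℝ) ^ x.length) = 1 := by
          rw [← mul_pow]
          norm_num
        cases x with
        | nil =>
          have z1 : (fun v => ez A [] (b :: v)) = fun _ => (0 : ℝ) := by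
            funext v
            rw [ez_nil_left]
          cases y with
          | nil => simp [ez_nil_left, ez_nil_right]
          | cons b' y =>
            have hI2 := ih A [a] (b' :: y) (by
              simp only [List.length_cons, List.length_nil] at h ⊢; omega) (by simp) (by simp)
            rw [hI2, dd_cons, z1, dd_zero]
            simp [ez_nil_left]
            ring
        | cons a' x =>
          have hs1 : (-1 : ℝ) ^ ((a' :: x).length - 1) = - (-1) ^ (a' :: x).length := by
            simp [pow_succ]
          have hI1 := ih A (a' :: x) (b :: y) (by
              simp only [List.length_cons] at h ⊢; omega) (by simp) (by simp)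
          rw [hs1, dd_cons _ b y] at hI1
          cases y with
          | nil =>
            have z1 : (fun u => ez A (a :: u) ([] : List Y)) = fun _ => (0 : ℝ) := by
              funext u
              rw [ez_nil_right]
            rw [hI1, z1, dd_zero]
            simp [ez_nil_right]
            ring
          | cons b' y =>
            have hI2 := ih A (a :: a' :: x) (b' :: y) (by
              simp only [List.length_cons] at h ⊢; omega) (by simp) (by simp)
            rw [dd_cons _ a (a' :: x)] at hI2
            rw [hI1, hI2]
            simp only [List.length_cons, List.isEmpty_cons, Bool.and_false, Bool.false_and,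
              Bool.false_eq_true, if_false, and_false, Nat.add_sub_cancel,
              Nat.add_eq_right, false_and] at hs ⊢
            simp
            ring

end SimplVol
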