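import Pool.Agent.H54.RT.SG

/-!
# Module FM: measurability of the probabilities

`PE_single`: `PE (fl u) (fE u).card (fE u) (fun l => if l = τ.l then 1 else 0) = if τ.l.Nodup ∧ τ.l.toFinset = fE u then wl (fl u) τ.l else 0`. So `pr u τ = if (Good u ∧ τ.o = fo u ∧ τ.l.toFinset = fE u) then wl (fl u) τ.l else 0` (`τ.nodup`).
* `act (tR γ) v` is measurable in `v`, `cc γ` is measurable (`fun_prop` after unfolding, or `act_preserving .measurable`). For every `γ` and every `s : Split m` the set `{u | fs γ u = s}` is measurable: finite intersection over `a, b` of `{u | decide (0 < cc γ (u a) * cc γ (u b)) = s a b}` (`MeasurableSet` of `{x | 0 < f x}` or its complement).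
* `{u | s ∈ fE u}`: union over the countable type `SL(2, ℤ)` (countable: injective map to `Fin 2 → Fin 2 → ℤ`, provide the instance if it is missing; for `s` without `NT s` it is empty). `{u | τ.l.toFinset = fE u}`: finite intersection over `s` of `s ∈ τ.l.toFinset ↔ s ∈ fE u`.
* `{u | Good u}`: countable/finite intersections of `{u | a (u i).1 + b (u i).2 ≠ 0}` (for `(a, b) ≠ 0`), `{u | dt (u i) (u j) ≠ 0}`. `{u | τ.o = fo u}`: finite intersection over `a, b, c` of measurable sets (`fo` takes the values `1, -1, 0` on measurable sets).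
* `u ↦ fl u s` is measurable: `fl u s = (∑' γ, if fs γ u = s then (1 : ENNReal) else 0).toReal`: if the set `{γ | fs γ u = s}` is finite, both sides are its cardinality (`tsum_eq_sum`/`ENNReal.tsum_..`, `Nat.card` of a finite type), if it is infinite, both sides are `0` (`Nat.card_eq_zero_of_infinite`, `ENNReal.tsum_const_eq_top_of_ne_zero` on the
  infinite subtype: `tsum_subtype`). Perhaps `Measure.count` helps: `Measure.count_apply`, or `ENat.card`/`Set.encard` `ENNReal.tsum_one`/`tsum_one_eq..`. Then `Measurable.ennreal_tsum` (or `Measurable.tsum`-type lemma), `.ennreal_toReal`.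
* `wl (fl u) l` is a finite product of quotients of sums: `Finset.measurable_prod`, `Measurable.div`, `List.measurable_sum`/induction on the list. `Measurable.ite`.
-/

set_option autoImplicit false

open scoped BigOperators UpperHalfPlane MatrixGroups
open MeasureTheory

namespace SimplVol

theorem countable_SLZ : Countable SL(2, ℤ) := by
  have : Function.Injective (fun γ : SL(2, ℤ) => (fun i j => γ i j : Fin 2 → Fin 2 → ℤ)) := by
    intro γ δ h
    ext i j
    exact congrFun (congrFun h i) j
  exact this.countable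

theorem FM_dt {m : ℕ} (i j : Fin m) : Measurable fun u : Fin m → Pl => dt (u i) (u j) := by
  unfold dt
  fun_prop

theorem FM_cc {m : ℕ} (γ : SL(2, ℤ)) (a : Fin m) : Measurable fun u : Fin m → Pl => cc γ (u a) := by
  unfold cc act
  fun_prop

theorem measurableSet_good (m : ℕ) : MeasurableSet {u : Fin m → Pl | Good u} := by
  have h : {u : Fin m → Pl | Good u} =
      (⋂ i : Fin m, ⋂ a : ℤ, ⋂ b : ℤ, {u : Fin m → Pl | (a ≠ 0 ∨ b ≠ 0) →
        (a : ℝ) * (u i).1 + (b : ℝ) * (u i).2 ≠ 0}) ∩
      ⋂ i : Fin m, ⋂ j : Fin m, {u : Fin m → Pl | i ≠ j → dt (u i) (u j) ≠ 0} := by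
    ext u
    simp only [Good, Irr, Set.mem_setOf_eq, Set.mem_inter_iff, Set.mem_iInter]
  rw [h]
  refine (MeasurableSet.iInter fun i => MeasurableSet.iInter fun a => MeasurableSet.iInter fun b =>
    ?_).inter (MeasurableSet.iInter fun i => MeasurableSet.iInter fun j => ?_)
  · by_cases hab : a ≠ 0 ∨ b ≠ 0
    · have h1 : {u : Fin m → Pl | (a ≠ 0 ∨ b ≠ 0) → (a : ℝ) * (u i).1 + (b : ℝ) * (u i).2 ≠ 0} =
          {u : Fin m → Pl | (a : ℝ) * (u i).1 + (b : ℝ) * (u i).2 = 0}ᶜ := by
        ext u
        simp only [Set.mem_setOf_eq, Set.mem_compl_iff]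
        exact ⟨fun h => h hab, fun h _ => h⟩
      rw [h1]
      refine MeasurableSet.compl (measurableSet_eq_fun ?_ measurable_const)
      fun_prop
    · have h1 : {u : Fin m → Pl | (a ≠ 0 ∨ b ≠ 0) → (a : ℝ) * (u i).1 + (b : ℝ) * (u i).2 ≠ 0} =
          Set.univ := by
        ext u
        simp only [Set.mem_setOf_eq, Set.mem_univ, iff_true]
        exact fun h => absurd h hab
      rw [h1]
      exact MeasurableSet.univ
  · by_cases hij : i ≠ j
    · have h1 : {u : Fin m → Pl | i ≠ j → dt (u i) (u j) ≠ 0} =
          {u : Fin m → Pl | dt (u i) (u j) = 0}ᶜ := by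
        ext u
        simp only [Set.mem_setOf_eq, Set.mem_compl_iff]
        exact ⟨fun h => h hij, fun h _ => h⟩
      rw [h1]
      exact MeasurableSet.compl (measurableSet_eq_fun (FM_dt i j) measurable_const)
    · have h1 : {u : Fin m → Pl | i ≠ j → dt (u i) (u j) ≠ 0} = Set.univ := by
        ext u
        simp only [Set.mem_setOf_eq, Set.mem_univ, iff_true]
        exact fun h => absurd h hij
      rw [h1]
      exact MeasurableSet.univ

theorem FM_fs {m : ℕ} (γ : SL(2, ℤ)) (s : Split m) : MeasurableSet {u : Fin m → Pl | fs γ u = s} := by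
  have h : {u : Fin m → Pl | fs γ u = s} =
      ⋂ a : Fin m, ⋂ b : Fin m, {u : Fin m → Pl | 0 < cc γ (u a) * cc γ (u b) ↔ s a b = true} := by
    ext u
    simp only [Set.mem_setOf_eq, Set.mem_iInter, fs, funext_iff]
    refine forall_congr' fun a => forall_congr' fun b => ?_
    rcases hs : s a b with _ | _
    · simp
    · simp
  rw [h]
  refine MeasurableSet.iInter fun a => MeasurableSet.iInter fun b => ?_
  have h1 : MeasurableSet {u : Fin m → Pl | 0 < cc γ (u a) * cc γ (u b)} :=
    measurableSet_lt measurable_const ((FM_cc γ a).mul (FM_cc γ b))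
  by_cases hs : s a b = true
  · simpa [hs] using h1
  · have h2 : {u : Fin m → Pl | 0 < cc γ (u a) * cc γ (u b) ↔ s a b = true} =
        {u : Fin m → Pl | 0 < cc γ (u a) * cc γ (u b)}ᶜ := by
      ext u
      simp only [Set.mem_setOf_eq, Set.mem_compl_iff, hs, iff_false]
      simp
    rw [h2]
    exact h1.compl

theorem FM_fE {m : ℕ} (s : Split m) : MeasurableSet {u : Fin m → Pl | s ∈ fE u} := by
  have := countable_SLZ
  by_cases hs : NT s
  · have h : {u : Fin m → Pl | s ∈ fE u} = ⋃ γ : SL(2, ℤ), {u : Fin m → Pl | fs γ u = s} := by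
      ext u
      simp only [fE, Set.mem_setOf_eq, Finset.mem_filter, Finset.mem_univ, true_and, Set.mem_iUnion,
        hs]
    rw [h]
    exact MeasurableSet.iUnion fun γ => FM_fs γ s
  · have h : {u : Fin m → Pl | s ∈ fE u} = ∅ := by
      ext u
      simp only [fE, Set.mem_setOf_eq, Finset.mem_filter, Finset.mem_univ, true_and, hs,
        false_and, Set.mem_empty_iff_false]
    rw [h]
    exact MeasurableSet.empty

theorem FM_fEeq {m : ℕ} (F : Finset (Split m)) : MeasurableSet {u : Fin m → Pl | F = fE u} := by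
  have h : {u : Fin m → Pl | F = fE u} =
      ⋂ s : Split m, {u : Fin m → Pl | s ∈ F ↔ s ∈ fE u} := by
    ext u
    simp only [Set.mem_setOf_eq, Set.mem_iInter, Finset.ext_iff]
  rw [h]
  refine MeasurableSet.iInter fun s => ?_
  by_cases hs : s ∈ F
  · have h1 : {u : Fin m → Pl | s ∈ F ↔ s ∈ fE u} = {u : Fin m → Pl | s ∈ fE u} := by
      ext u
      simp [hs]
    rw [h1]
    exact FM_fE s
  · have h1 : {u : Fin m → Pl | s ∈ F ↔ s ∈ fE u} = {u : Fin m → Pl | s ∈ fE u}ᶜ := by
      ext u
      simp [hs]
    rw [h1]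
    exact (FM_fE s).compl

theorem FM_fo {m : ℕ} (o : Fin m → Fin m → Fin m → ℤ) :
    MeasurableSet {u : Fin m → Pl | o = fo u} := by
  have h : {u : Fin m → Pl | o = fo u} =
      ⋂ a : Fin m, ⋂ b : Fin m, ⋂ c : Fin m, {u : Fin m → Pl | fo u a b c = o a b c} := by
    ext u
    simp only [Set.mem_setOf_eq, Set.mem_iInter, funext_iff]
    exact forall_congr' fun a => forall_congr' fun b => forall_congr' fun c => eq_comm
  rw [h]
  refine MeasurableSet.iInter fun a => MeasurableSet.iInter fun b => MeasurableSet.iInter fun c => ?_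
  have h0 : Measurable fun u : Fin m → Pl => dt (u a) (u b) * dt (u b) (u c) * dt (u c) (u a) :=
    ((FM_dt a b).mul (FM_dt b c)).mul (FM_dt c a)
  have h1 : Measurable fun u : Fin m → Pl => fo u a b c := by
    unfold fo
    exact Measurable.ite (measurableSet_lt measurable_const h0) measurable_const
      (Measurable.ite (measurableSet_lt h0 measurable_const) measurable_const measurable_const)
  exact h1 (measurableSet_singleton _)

theorem FM_fl {m : ℕ} (s : Split m) : Measurable fun u : Fin m → Pl => fl u s := by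
  classical
  have := countable_SLZ
  have h : (fun u : Fin m → Pl => fl u s) =
      fun u => (∑' γ : SL(2, ℤ), if fs γ u = s then (1 : ENNReal) else 0).toReal := by
    funext u
    have h1 : (∑' γ : SL(2, ℤ), if fs γ u = s then (1 : ENNReal) else 0) =
        ∑' γ : {γ : SL(2, ℤ) // fs γ u = s}, (1 : ENNReal) := by
      have := tsum_subtype {γ : SL(2, ℤ) | fs γ u = s} (fun _ => (1 : ENNReal))
      refine Eq.trans ?_ this.symm
      refine tsum_congr fun γ => ?_
      rw [Set.indicator_apply]
      rfl
    rw [h1]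
    unfold fl
    rcases finite_or_infinite {γ : SL(2, ℤ) // fs γ u = s} with hf | hf
    · have := Fintype.ofFinite {γ : SL(2, ℤ) // fs γ u = s}
      rw [tsum_fintype, Finset.sum_const, Nat.card_eq_fintype_card, Finset.card_univ]
      simp
    · rw [Nat.card_eq_zero_of_infinite, ENNReal.tsum_const_eq_top_of_ne_zero one_ne_zero]
      simp
  rw [h]
  refine Measurable.ennreal_toReal (Measurable.tsum fun γ => ?_)
  exact Measurable.ite (FM_fs γ s) measurable_const measurable_const

theorem FM_sum {m : ℕ} (l : List (Split m)) :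
    Measurable fun u : Fin m → Pl => (l.map (fl u)).sum := by
  induction l with
  | nil => simp
  | cons a l ih =>
    simp only [List.map_cons, List.sum_cons]
    exact (FM_fl a).add ih

theorem FM_wl {m : ℕ} (l : List (Split m)) : Measurable fun u : Fin m → Pl => wl (fl u) l := by
  unfold wl
  refine Finset.measurable_prod _ fun i _ => ?_
  exact (FM_fl _).div (FM_sum _)

open Classical in
theorem FM_pr {m : ℕ} (u : Fin m → Pl) (τ : RTree m) :
    pr u τ = if Good u ∧ τ.o = fo u ∧ τ.l.toFinset = fE u then wl (fl u) τ.l else 0 := by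
  have h := PE_single (fl u) (fE u) τ.l
  have h2 : (PE (fl u) (fE u).card (fE u) fun l => if l = τ.l then 1 else 0) =
      if τ.l.toFinset = fE u then wl (fl u) τ.l else 0 := by
    refine Eq.trans ?_ (h.trans ?_)
    · congr!
    · simp only [τ.nodup, true_and]
  unfold pr
  by_cases h1 : Good u ∧ τ.o = fo u
  · rw [if_pos h1]
    refine Eq.trans h2 ?_
    simp only [h1.1, h1.2, true_and]
  · rw [if_neg h1, if_neg]
    rintro ⟨h3, h4, _⟩
    exact h1 ⟨h3, h4⟩

theorem pr_measurable {m : ℕ} (τ : RTree m) : Measurable fun u : Fin m → Pl => pr u τ := by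
  classical
  simp only [FM_pr]
  refine Measurable.ite ?_ (FM_wl _) measurable_const
  exact (measurableSet_good m).inter ((FM_fo _).inter (FM_fEeq _))

end SimplVol
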