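import Pool.Agent.H54.RT.SG

/-!
# Module SA: the space of matrices

`A = (p, q) : Pl × Pl` are the columns of a matrix.
* `tr_preserving`: compose `measurePreserving_prodAssoc`, `Measure.measurePreserving_swap` and products with the identity (`MeasurePreserving.prod`): `((a, b), (c, d)) → (a, (b, (c, d))) → (a, ((b, c), d)) → (a, ((c, b), d)) → (a, (c, (b, d))) → ((a, c), (b, d))`.
* `lm_preserving`: product of `act_preserving g` with itself (`MeasurePreserving.prod`; `volume` on a product is the product measure by `rfl`). `rm_preserving`: `rm g A = tr (lm gᵀ (tr A))` with `tr` the transposition of `tr_preserving` and `gᵀ` the transposed matrix (`⟨(g : Matrix ..)ᵀ, _⟩`, `Matrix.det_transpose`).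
* `dt_lm`: `dt_act`; `dt_rm`: `ring` and `det g = 1`. `sl_lm`, `sl_rm`: both sides are the matrix divided by the same square root; ext over the entries (`Subtype.ext`, `Matrix.ext`, `fin_cases`), `Matrix.mul_apply`, `Fin.sum_univ_two`. `lm_mul`: `act_mul`.
* `sl_entries`: for `0 < dt A.1 A.2` the entries of `sl A` (definition).
* `act_sl_meas`: on the measurable set `{0 < dt A.1 A.2}` the entries are measurable functions; `sl A i j` is measurable in `A` for all `i, j` (`Measurable.ite`-type argument: `A ↦ sl A i j` equals `if 0 < dt A.1 A.2 then .. / √.. else (1 : matrix) i j`), then `act` is a polynomial in the entries.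
* `sl_smul_meas`: `measurableEmbedding_coe.measurable_comp_iff`: it suffices that `A ↦ ((sl A • z : ℍ) : ℂ)` is measurable: `UpperHalfPlane.coe_specialLinearGroup_apply`: a quotient of affine functions of the (measurable) entries (`Complex.measurable_ofReal`). `smul_sl_meas`: composition with the continuous (`continuous_const_smul`) map `z ↦ g • z`, or `g • sl A • z = sl (lm g A) • z`.
* `XX_pos`: `XX` contains the nonempty open set `{A | 0 < dt A.1 A.2 ∧ dt A.1 A.2 < 1}` (contains `((1/2, 0), (0, 1))`); `IsOpen.measure_pos`.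
-/

set_option autoImplicit false

open scoped BigOperators UpperHalfPlane MatrixGroups
open MeasureTheory

namespace SimplVol

theorem tr_preserving : MeasurePreserving
    (fun A : Pl × Pl => (((A.1.1, A.2.1), (A.1.2, A.2.2)) : Pl × Pl)) volume volume := by
  -- `((a, b), (c, d)) → (a, (b, (c, d)))`
  have h1 : MeasurePreserving (MeasurableEquiv.prodAssoc : (ℝ × ℝ) × Pl ≃ᵐ ℝ × (ℝ × Pl))
      volume volume := MeasureTheory.measurePreserving_prodAssoc volume volume volume
  have h2 : MeasurePreserving (MeasurableEquiv.prodAssoc : (ℝ × ℝ) × ℝ ≃ᵐ ℝ × (ℝ × ℝ))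
      volume volume := MeasureTheory.measurePreserving_prodAssoc volume volume volume
  have h3 : MeasurePreserving (Prod.swap : ℝ × ℝ → ℝ × ℝ) volume volume :=
    Measure.measurePreserving_swap
  have hid : MeasurePreserving (id : ℝ → ℝ) volume volume := MeasurePreserving.id _
  -- `(b, (c, d)) → (c, (b, d))`
  have h4 : MeasurePreserving (fun x : ℝ × (ℝ × ℝ) => (x.2.1, (x.1, x.2.2))) volume volume := by
    have h5 : MeasurePreserving (Prod.map (Prod.swap : ℝ × ℝ → ℝ × ℝ) (id : ℝ → ℝ))
        (volume : Measure ((ℝ × ℝ) × ℝ)) volume := h3.prod hid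
    have h6 := (h2.comp h5).comp (MeasurePreserving.symm _ h2)
    exact h6
  have h7 : MeasurePreserving (Prod.map (id : ℝ → ℝ)
      (fun x : ℝ × (ℝ × ℝ) => (x.2.1, (x.1, x.2.2))))
        (volume : Measure (ℝ × (ℝ × (ℝ × ℝ)))) volume := hid.prod h4
  exact ((MeasurePreserving.symm _ h1).comp h7).comp h1

theorem lm_preserving (g : SL(2, ℝ)) : MeasurePreserving (lm g) volume volume := by
  have h : MeasurePreserving (Prod.map (act g) (act g)) (volume : Measure (Pl × Pl)) volume :=
    (act_preserving g).prod (act_preserving g)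
  exact h

theorem rm_preserving (g : SL(2, ℝ)) : MeasurePreserving (rm g) volume volume := by
  have h1 := tr_preserving.comp ((lm_preserving g.transpose).comp tr_preserving)
  have h2 : (rm g) = ((fun A : Pl × Pl => (((A.1.1, A.2.1), (A.1.2, A.2.2)) : Pl × Pl)) ∘
      (lm g.transpose ∘ (fun A : Pl × Pl => (((A.1.1, A.2.1), (A.1.2, A.2.2)) : Pl × Pl)))) := by
    funext A
    simp [rm, lm, act, Matrix.transpose_apply]
  rw [h2]
  exact h1

theorem dt_lm (g : SL(2, ℝ)) (A : Pl × Pl) : dt (lm g A).1 (lm g A).2 = dt A.1 A.2 := dt_act _ _ _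

theorem dt_rm (g : SL(2, ℝ)) (A : Pl × Pl) : dt (rm g A).1 (rm g A).2 = dt A.1 A.2 := by
  have hd := g.det_coe
  rw [Matrix.det_fin_two] at hd
  unfold rm dt
  simp only
  linear_combination (A.1.1 * A.2.2 - A.1.2 * A.2.1) * hd

theorem lm_mul (g h : SL(2, ℝ)) (A : Pl × Pl) : lm (g * h) A = lm g (lm h A) := by
  unfold lm
  rw [act_mul, act_mul]

theorem lm_one (A : Pl × Pl) : lm 1 A = A := by
  unfold lm
  rw [act_one, act_one]

theorem lm_rm (g h : SL(2, ℝ)) (A : Pl × Pl) : lm g (rm h A) = rm h (lm g A) := by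
  unfold lm rm act
  ext <;> simp only <;> ring

theorem rm_mul (g h : SL(2, ℝ)) (A : Pl × Pl) : rm (g * h) A = rm h (rm g A) := by
  unfold rm
  ext <;>
  · simp only [Matrix.SpecialLinearGroup.coe_mul, Matrix.mul_apply, Fin.sum_univ_two]
    ring

theorem rm_one (A : Pl × Pl) : rm 1 A = A := by
  unfold rm
  ext <;> simp

/-- If a matrix is fixed, the group element is trivial. -/
theorem lm_free (g : SL(2, ℝ)) (A : Pl × Pl) (hA : 0 < dt A.1 A.2) (h : lm g A = A) : g = 1 := by
  have h1 : (act g A.1).1 = A.1.1 := congrArg (fun B : Pl × Pl => B.1.1) h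
  have h2 : (act g A.1).2 = A.1.2 := congrArg (fun B : Pl × Pl => B.1.2) h
  have h3 : (act g A.2).1 = A.2.1 := congrArg (fun B : Pl × Pl => B.2.1) h
  have h4 : (act g A.2).2 = A.2.2 := congrArg (fun B : Pl × Pl => B.2.2) h
  simp only [act] at h1 h2 h3 h4
  have hA' : 0 < A.1.1 * A.2.2 - A.1.2 * A.2.1 := hA
  have hne := hA'.ne'
  have e1 : g 0 0 = 1 := by
    have : (A.1.1 * A.2.2 - A.1.2 * A.2.1) * (g 0 0 - 1) = 0 := by
      linear_combination A.2.2 * h1 - A.1.2 * h3
    have := (mul_eq_zero.1 this).resolve_left hne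
    linarith
  have e2 : g 0 1 = 0 := by
    have : (A.1.1 * A.2.2 - A.1.2 * A.2.1) * (g 0 1) = 0 := by
      linear_combination A.1.1 * h3 - A.2.1 * h1
    exact (mul_eq_zero.1 this).resolve_left hne
  have e3 : g 1 0 = 0 := by
    have : (A.1.1 * A.2.2 - A.1.2 * A.2.1) * (g 1 0) = 0 := by
      linear_combination A.2.2 * h2 - A.1.2 * h4
    exact (mul_eq_zero.1 this).resolve_left hne
  have e4 : g 1 1 = 1 := by
    have : (A.1.1 * A.2.2 - A.1.2 * A.2.1) * (g 1 1 - 1) = 0 := by
      linear_combination A.1.1 * h4 - A.2.1 * h2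
    have := (mul_eq_zero.1 this).resolve_left hne
    linarith
  ext i j
  fin_cases i <;> fin_cases j
  · simpa using e1
  · simpa using e2
  · simpa using e3
  · simpa using e4

theorem SA_coe (A : Pl × Pl) (hA : 0 < dt A.1 A.2) : ((sl A : SL(2, ℝ)) : Matrix (Fin 2) (Fin 2) ℝ)
    = !![A.1.1 / Real.sqrt (dt A.1 A.2), A.2.1 / Real.sqrt (dt A.1 A.2);
        A.1.2 / Real.sqrt (dt A.1 A.2), A.2.2 / Real.sqrt (dt A.1 A.2)] := by
  unfold sl
  rw [dif_pos hA]

theorem sl_lm (g : SL(2, ℝ)) (A : Pl × Pl) (hA : 0 < dt A.1 A.2) : sl (lm g A) = g * sl A := by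
  apply Subtype.ext
  rw [Matrix.SpecialLinearGroup.coe_mul, SA_coe A hA, SA_coe _ (by rw [dt_lm]; exact hA), dt_lm]
  ext i j
  fin_cases i <;> fin_cases j <;>
  · simp [Matrix.mul_apply, Fin.sum_univ_two, lm, act]
    ring

theorem sl_rm (g : SL(2, ℝ)) (A : Pl × Pl) (hA : 0 < dt A.1 A.2) : sl (rm g A) = sl A * g := by
  apply Subtype.ext
  rw [Matrix.SpecialLinearGroup.coe_mul, SA_coe A hA, SA_coe _ (by rw [dt_rm]; exact hA), dt_rm]
  ext i j
  fin_cases i <;> fin_cases j <;>
  · simp [Matrix.mul_apply, Fin.sum_univ_two, rm]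
    ring

theorem SA_dt_meas : Measurable fun A : Pl × Pl => dt A.1 A.2 := by
  unfold dt
  fun_prop

theorem SA_set_meas : MeasurableSet {A : Pl × Pl | 0 < dt A.1 A.2} :=
  measurableSet_lt measurable_const SA_dt_meas

open Classical in
theorem sl_entry_meas (i j : Fin 2) : Measurable fun A : Pl × Pl => (sl A : SL(2, ℝ)) i j := by
  have hs : Measurable fun A : Pl × Pl => Real.sqrt (dt A.1 A.2) := SA_dt_meas.sqrt
  have h : (fun A : Pl × Pl => (sl A : SL(2, ℝ)) i j) = fun A =>
      if 0 < dt A.1 A.2 then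
        (!![A.1.1 / Real.sqrt (dt A.1 A.2), A.2.1 / Real.sqrt (dt A.1 A.2);
        A.1.2 / Real.sqrt (dt A.1 A.2), A.2.2 / Real.sqrt (dt A.1 A.2)] :
          Matrix (Fin 2) (Fin 2) ℝ) i j
      else (1 : SL(2, ℝ)) i j := by
    funext A
    by_cases hA : 0 < dt A.1 A.2
    · rw [if_pos hA, ← SA_coe A hA]
    · rw [if_neg hA]
      unfold sl
      rw [dif_neg hA]
  rw [h]
  refine Measurable.ite SA_set_meas ?_ measurable_const
  fin_cases i <;> fin_cases j
  · exact (measurable_fst.comp measurable_fst).div hs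
  · exact (measurable_fst.comp measurable_snd).div hs
  · exact (measurable_snd.comp measurable_fst).div hs
  · exact (measurable_snd.comp measurable_snd).div hs

theorem act_sl_meas : Measurable fun p : (Pl × Pl) × Pl => act (sl p.1) p.2 := by
  have h00 : Measurable fun p : (Pl × Pl) × Pl => (sl p.1 : SL(2, ℝ)) 0 0 :=
    (sl_entry_meas 0 0).comp measurable_fst
  have h01 : Measurable fun p : (Pl × Pl) × Pl => (sl p.1 : SL(2, ℝ)) 0 1 :=
    (sl_entry_meas 0 1).comp measurable_fst
  have h10 : Measurable fun p : (Pl × Pl) × Pl => (sl p.1 : SL(2, ℝ)) 1 0 :=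
    (sl_entry_meas 1 0).comp measurable_fst
  have h11 : Measurable fun p : (Pl × Pl) × Pl => (sl p.1 : SL(2, ℝ)) 1 1 :=
    (sl_entry_meas 1 1).comp measurable_fst
  have hx : Measurable fun p : (Pl × Pl) × Pl => p.2.1 := measurable_fst.comp measurable_snd
  have hy : Measurable fun p : (Pl × Pl) × Pl => p.2.2 := measurable_snd.comp measurable_snd
  exact ((h00.mul hx).add (h01.mul hy)).prodMk ((h10.mul hx).add (h11.mul hy))

theorem SA_smul_meas (z : ℍ) : Measurable fun A : Pl × Pl => sl A • z := by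
  rw [← UpperHalfPlane.measurableEmbedding_coe.measurable_comp_iff]
  have h00 := Complex.measurable_ofReal.comp (sl_entry_meas 0 0)
  have h01 := Complex.measurable_ofReal.comp (sl_entry_meas 0 1)
  have h10 := Complex.measurable_ofReal.comp (sl_entry_meas 1 0)
  have h11 := Complex.measurable_ofReal.comp (sl_entry_meas 1 1)
  have h : (UpperHalfPlane.coe ∘ fun A : Pl × Pl => sl A • z) = fun A : Pl × Pl =>
      (((sl A 0 0 : ℝ) : ℂ) * z + ((sl A 0 1 : ℝ) : ℂ)) /
        (((sl A 1 0 : ℝ) : ℂ) * z + ((sl A 1 1 : ℝ) : ℂ)) := by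
    funext A
    rw [Function.comp_apply, UpperHalfPlane.coe_specialLinearGroup_apply]
    rfl
  rw [h]
  exact ((h00.mul_const _).add h01).div ((h10.mul_const _).add h11)

theorem smul_sl_meas (g : SL(2, ℝ)) (z : ℍ) : Measurable fun A : Pl × Pl => g • sl A • z := by
  exact (continuous_const_smul g).measurable.comp (SA_smul_meas z)

theorem XX_meas : MeasurableSet XX :=
  SA_set_meas.inter (measurableSet_le SA_dt_meas measurable_const)

theorem XX_pos : 0 < volume XX := by
  have hc : Continuous fun A : Pl × Pl => dt A.1 A.2 := by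
    unfold dt
    fun_prop
  have ho : IsOpen {A : Pl × Pl | 0 < dt A.1 A.2 ∧ dt A.1 A.2 < 1} :=
    (isOpen_lt continuous_const hc).inter (isOpen_lt hc continuous_const)
  have hne : ({A : Pl × Pl | 0 < dt A.1 A.2 ∧ dt A.1 A.2 < 1}).Nonempty := by
    refine ⟨((1 / 2, 0), (0, 1)), ?_⟩
    simp only [Set.mem_setOf_eq, dt]
    norm_num
  exact (ho.measure_pos volume hne).trans_le (measure_mono fun A hA => ⟨hA.1, hA.2.le⟩)

end SimplVol
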