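import Pool.Agent.H54.RT.FQ
import Pool.Agent.H54.RT.FM
import Pool.Agent.H54.RT.EQ
import Pool.Agent.H54.RT.SA

/-!
# Module FN: the invariant family for `SL(2, ℤ)`

`NN x τ = ∫ v, pr v τ ∂(Measure.pi fun i => eP (x i))`, `0 ≤ pr ≤ 1` measurable (`pr_measurable`), probability measure: integrable.
* `NN_sum_mul`: `∑ τ, NN x τ * φ τ = ∫ v, ∑ τ, pr v τ * φ τ` (`integral_finsetSum`, `integral_mul_const`).
* `NN_nonneg`: `integral_nonneg`. `NN_one`: `eP_good`, `pr_one`, `integral_congr_ae`.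
* `NN_act`: for `γ ∈ SL(2, ℤ)`: `eP_pi_act (tR γ) x` (`MeasurePreserving.integral_comp'`-like; as the map is measurable use `MeasurePreserving.map_eq` and `integral_map` with measurability of `pr`), `pr_act`.
* `NN_smul` (the same for `g ∈ SL(2, ℝ)`): `NN (fun i => g • x i) τ = ∫ v, pr (fun i => act g (v i)) τ ∂(Measure.pi fun i => eP (x i))`.
* `NN_nat`: `eP_pi_emb`, `pr_nat`, `eP_good`: `∑ τ, NN x τ * φ (τ.pull ι) = ∫ ∑ τ, pr v τ * φ (τ.pull ι) = ∫ ∑ τ', pr (v ∘ ι) τ' * φ τ' ∂(x) = ∫ ∑ τ', pr w τ' * φ τ' ∂(x ∘ ι)`.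
* `NN_area`: for distinct `a, b, c` take `ι = ![a, b, c] : Fin 3 ↪ Fin m`: `τ.o a b c = (τ.pull ι).o 0 1 2`, `NN_nat`, `pr_o`, `eP_ori`. If two of them are equal both sides are `0`: `o_swap`, `o_rot`; `area` with two equal points: `area x x z = 2 (sarg x x + sarg x z + sarg z x) = 0` (`sarg_self`, `sarg_swap` in `Pool/Agent/H74/SV/AR.lean`).
* `NN_meas`: `NN_smul` with `g = sl A`; `(A, v) ↦ pr (fun i => act (sl A) (v i)) τ` is jointly measurable (`act_sl_meas`, `pr_measurable`, `measurable_pi_lambda`), `StronglyMeasurable.integral_prod_right` (`MeasureTheory.StronglyMeasurable.integral_prod_right'`), `.measurable`.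
-/

set_option autoImplicit false

open scoped BigOperators UpperHalfPlane MatrixGroups
open MeasureTheory

namespace SimplVol

theorem FN_int {m : ℕ} (x : Fin m → ℍ) (τ : RTree m) :
    Integrable (fun v => pr v τ) (Measure.pi fun i => eP (x i)) := by
  refine Integrable.of_bound (pr_measurable τ).aestronglyMeasurable 1
    (Filter.Eventually.of_forall fun v => ?_)
  rw [Real.norm_eq_abs, abs_le]
  exact ⟨by linarith [pr_nonneg v τ], pr_le_one v τ⟩

theorem NN_sum_mul {m : ℕ} (x : Fin m → ℍ) (φ : RTree m → ℝ) :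
    ∑ τ, NN x τ * φ τ = ∫ v, ∑ τ, pr v τ * φ τ ∂(Measure.pi fun i => eP (x i)) := by
  rw [integral_finsetSum _ (fun τ _ => (FN_int x τ).mul_const _)]
  refine Finset.sum_congr rfl fun τ _ => ?_
  rw [integral_mul_const]
  rfl

theorem NN_nonneg {m : ℕ} (x : Fin m → ℍ) (τ : RTree m) : 0 ≤ NN x τ :=
  integral_nonneg fun v => pr_nonneg v τ

theorem NN_one {m : ℕ} (x : Fin m → ℍ) : ∑ τ, NN x τ = 1 := by
  have h := NN_sum_mul x (fun _ => (1 : ℝ))
  simp only [mul_one] at h
  rw [h, integral_congr_ae (g := fun _ => (1 : ℝ)) ?_]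
  · simp
  · filter_upwards [eP_good x] with v hv using pr_one v hv

theorem NN_smul {m : ℕ} (g : SL(2, ℝ)) (x : Fin m → ℍ) (τ : RTree m) :
    NN (fun i => g • x i) τ =
      ∫ v, pr (fun i => act g (v i)) τ ∂(Measure.pi fun i => eP (x i)) := by
  have h := eP_pi_act g x
  unfold NN
  rw [← h.map_eq]
  exact integral_map h.measurable.aemeasurable (pr_measurable τ).aestronglyMeasurable

theorem NN_act {m : ℕ} (γ : SL(2, ℤ)) (x : Fin m → ℍ) (τ : RTree m) :
    NN (fun i => tR γ • x i) τ = NN x τ := by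
  rw [NN_smul]
  simp only [pr_act]
  rfl

theorem NN_nat {k m : ℕ} (ι : Fin k ↪ Fin m) (x : Fin m → ℍ) (φ : RTree k → ℝ) :
    ∑ τ, NN x τ * φ (τ.pull ι) = ∑ τ', NN (fun i => x (ι i)) τ' * φ τ' := by
  rw [NN_sum_mul x (fun τ => φ (τ.pull ι)), NN_sum_mul (fun i => x (ι i)) φ]
  have h := eP_pi_emb ι x
  rw [← h.map_eq, integral_map h.measurable.aemeasurable ?_]
  · refine integral_congr_ae ?_
    filter_upwards [eP_good x] with v hv using pr_nat ι v hv φ
  · exact (Finset.measurable_sum _ fun τ _ =>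
      (pr_measurable τ).mul_const _).aestronglyMeasurable

theorem NN_area {m : ℕ} (x : Fin m → ℍ) (a b c : Fin m) :
    ∑ τ, NN x τ * ((τ.o a b c : ℤ) : ℝ) = area (x a) (x b) (x c) / Real.pi := by
  have hz : ∀ (τ : RTree m) (a b : Fin m), τ.o a b b = 0 := fun τ a b => by
    have := τ.o_swap a b b
    omega
  by_cases hab : a = b
  · subst hab
    have h0 : ∀ τ : RTree m, τ.o a a c = 0 := fun τ => by rw [τ.o_rot c a a, hz]
    simp only [h0]
    unfold area
    rw [sarg_self, sarg_swap (x a) (x c)]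
    simp
  by_cases hbc : b = c
  · subst hbc
    simp only [hz]
    unfold area
    rw [sarg_self, sarg_swap (x a) (x b)]
    simp
  by_cases hac : a = c
  · subst hac
    have h0 : ∀ τ : RTree m, τ.o a b a = 0 := fun τ => by rw [← τ.o_rot a b a, hz]
    simp only [h0]
    unfold area
    rw [sarg_self, sarg_swap (x a) (x b)]
    simp
  have hinj : Function.Injective (![a, b, c] : Fin 3 → Fin m) := by
    intro i j hij
    fin_cases i <;> fin_cases j <;> first | rfl | (exfalso; simp at hij; tauto)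
  have h1 := NN_nat ⟨![a, b, c], hinj⟩ x (fun τ' => ((τ'.o 0 1 2 : ℤ) : ℝ))
  have h2 : ∑ τ, NN x τ * ((τ.o a b c : ℤ) : ℝ) =
      ∑ τ : RTree m, NN x τ * (((τ.pull ⟨![a, b, c], hinj⟩).o 0 1 2 : ℤ) : ℝ) := rfl
  rw [h2, h1, NN_sum_mul]
  have h3 := eP_ori (fun i => x ((⟨![a, b, c], hinj⟩ : Fin 3 ↪ Fin m) i))
  refine Eq.trans ?_ h3
  refine integral_congr_ae ?_
  filter_upwards [eP_good fun i => x ((⟨![a, b, c], hinj⟩ : Fin 3 ↪ Fin m) i)] with v hv
  exact pr_o v hv 0 1 2

theorem NN_meas {m : ℕ} (x : Fin m → ℍ) (τ : RTree m) :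
    Measurable fun A : Pl × Pl => NN (fun i => sl A • x i) τ := by
  simp only [NN_smul]
  have h1 : Measurable fun p : (Pl × Pl) × (Fin m → Pl) =>
      pr (fun i => act (sl p.1) (p.2 i)) τ := by
    refine (pr_measurable τ).comp (measurable_pi_lambda _ fun i => ?_)
    exact act_sl_meas.comp (measurable_fst.prodMk ((measurable_pi_apply i).comp measurable_snd))
  exact (h1.stronglyMeasurable.integral_prod_right').measurable

end SimplVol
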