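import Pool.Agent.H54.RT.SG
import Pool.Agent.H54.RT.SF

/-!
# Module FP: the weights of the divisions

`u : Fin m → Pl` with `Good u` (so the `cc γ (u i)` are nonzero, `cc_ne`).
* `fs_finite`: if `NT s` then `{γ | fs γ u = s}` is finite: `NT s` gives `a ≠ b`, `c ≠ d` with `Sep s a b c d`; `fs γ u = s` gives the three sign conditions of `sep_finite` (a product that is not `> 0` is `< 0`), `dt (u a) (u b) ≠ 0`, `dt (u c) (u d) ≠ 0`.
* `fl_pos`: the set is finite and nonempty (`fE`): `Nat.card_pos` / `Finite.card_pos`.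
* `fs_res`: `fs γ (fun i => u (ι i)) = resS ι (fs γ u)` by `rfl`. `good_res`.
* `fE_res`: `b ∈ fE (u ∘ ι) ↔ ∃ e ∈ fE u, π e = some b` for `π e = if NT (resS ι e) then some (resS ι e) else none`: if `NT (resS ι e)` then `NT e` (the same four points, `ι` injective).
* `fl_res`: for `b` with `NT b`: `fl (u ∘ ι) b = ∑ e ∈ (fE u).filter (fun e => π e = some b), fl u e`: the finite set `{γ | resS ι (fs γ u) = b}` is the disjoint union of the sets `{γ | fs γ u = e}` over the `e` with `resS ι e = b` that occur (those are in `fE u` as `NT e`). (`Finset.card_eq_sum_card_fiberwise` with the finset of `fs_finite`; or `Nat.card_sigma`.)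
* `fs_act`: `fs δ (act (tR γ) ∘ u) = fs (δ * γ) u` (`cc_mul`), so `fE_act`, `fl_act` (bijection `δ ↦ δ * γ` of `SL(2, ℤ)`: `Nat.card_congr (Equiv.subtypeEquiv (Equiv.mulRight γ) ..)`). `fo_act`: `dt_act`. `good_act`: `irr_act`, `dt_act`.
-/

set_option autoImplicit false

open scoped BigOperators UpperHalfPlane MatrixGroups

namespace SimplVol

open Classical in
/-- The restriction of divisions, as a partial map. -/
noncomputable def piR {k m : ℕ} (ι : Fin k ↪ Fin m) (e : Split m) : Option (Split k) :=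
  if NT (resS ι e) then some (resS ι e) else none

private theorem FP_res {k m : ℕ} (ι : Fin k ↪ Fin m) (u : Fin m → Pl) (γ : SL(2, ℤ)) :
    fs γ (fun i => u (ι i)) = resS ι (fs γ u) := rfl

private theorem FP_nt {k m : ℕ} (ι : Fin k ↪ Fin m) (e : Split m) (h : NT (resS ι e)) : NT e := by
  obtain ⟨a, b, c, d, hab, hcd, hs⟩ := h
  exact ⟨ι a, ι b, ι c, ι d, fun h => hab (ι.injective h), fun h => hcd (ι.injective h), hs⟩

private theorem FP_pi {k m : ℕ} (ι : Fin k ↪ Fin m) (e : Split m) (b : Split k) :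
    piR ι e = some b ↔ NT (resS ι e) ∧ resS ι e = b := by
  unfold piR
  split_ifs with h
  · simp [h]
  · simp [h]

private theorem FP_memE {m : ℕ} (u : Fin m → Pl) (s : Split m) :
    s ∈ fE u ↔ NT s ∧ ∃ γ : SL(2, ℤ), fs γ u = s := by
  unfold fE
  simp only [Finset.mem_filter, Finset.mem_univ, true_and]

theorem fs_finite {m : ℕ} (u : Fin m → Pl) (hu : Good u) (s : Split m) (hs : NT s) :
    {γ : SL(2, ℤ) | fs γ u = s}.Finite := by
  obtain ⟨a, b, c, d, hab, hcd, h1, h2, h3⟩ := hs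
  refine (sep_finite (u a) (u b) (u c) (u d) (hu.2 a b hab) (hu.2 c d hcd)).subset ?_
  intro γ hγ
  rw [Set.mem_ofPred_eq] at hγ
  rw [← hγ] at h1 h2 h3
  unfold fs at h1 h2 h3
  have h1' := of_decide_eq_true h1
  have h2' := of_decide_eq_true h2
  have h3' := of_decide_eq_false h3
  have h4 : cc γ (u a) * cc γ (u c) ≠ 0 :=
    mul_ne_zero (cc_ne γ _ (hu.1 a)) (cc_ne γ _ (hu.1 c))
  exact ⟨h1', h2', lt_of_le_of_ne (not_lt.1 h3') h4⟩

theorem fl_pos {m : ℕ} (u : Fin m → Pl) (hu : Good u) (s : Split m) (hs : s ∈ fE u) :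
    0 < fl u s := by
  rw [FP_memE] at hs
  obtain ⟨h1, γ, hγ⟩ := hs
  have hf : Finite {γ : SL(2, ℤ) // fs γ u = s} := (fs_finite u hu s h1).to_subtype
  have hn : Nonempty {γ : SL(2, ℤ) // fs γ u = s} := ⟨⟨γ, hγ⟩⟩
  unfold fl
  exact_mod_cast Nat.card_pos

theorem good_res {k m : ℕ} (ι : Fin k ↪ Fin m) (u : Fin m → Pl) (hu : Good u) :
    Good fun i => u (ι i) :=
  ⟨fun i => hu.1 (ι i), fun i j hij => hu.2 _ _ fun h => hij (ι.injective h)⟩

theorem fE_res {k m : ℕ} (ι : Fin k ↪ Fin m) (u : Fin m → Pl) (b : Split k) :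
    b ∈ fE (fun i => u (ι i)) ↔ ∃ e ∈ fE u, piR ι e = some b := by
  rw [FP_memE]
  constructor
  · rintro ⟨h1, γ, hγ⟩
    rw [FP_res] at hγ
    refine ⟨fs γ u, (FP_memE _ _).2 ⟨FP_nt ι _ (by rw [hγ]; exact h1), γ, rfl⟩, ?_⟩
    rw [FP_pi]
    exact ⟨by rw [hγ]; exact h1, hγ⟩
  · rintro ⟨e, he, h⟩
    rw [FP_memE] at he
    rw [FP_pi] at h
    obtain ⟨h1, h2⟩ := h
    obtain ⟨_, γ, hγ⟩ := he
    refine ⟨by rw [← h2]; exact h1, γ, ?_⟩
    rw [FP_res, hγ, h2]

theorem fl_res {k m : ℕ} (ι : Fin k ↪ Fin m) (u : Fin m → Pl) (hu : Good u) (b : Split k)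
    (hb : NT b) : fl (fun i => u (ι i)) b =
      ∑ e ∈ (fE u).filter (fun e => piR ι e = some b), fl u e := by
  classical
  have hfin := fs_finite (fun i => u (ι i)) (good_res ι u hu) b hb
  have h1 : Nat.card {γ : SL(2, ℤ) // fs γ (fun i => u (ι i)) = b} = hfin.toFinset.card := by
    apply Nat.subtype_card
    intro γ
    rw [Set.Finite.mem_toFinset, Set.mem_ofPred_eq]
  have h2 := Finset.card_eq_sum_card_fiberwise (s := hfin.toFinset)
    (t := (fE u).filter (fun e => piR ι e = some b)) (f := fun γ => fs γ u) (by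
      intro γ hγ
      rw [Finset.mem_coe, Set.Finite.mem_toFinset, Set.mem_ofPred_eq, FP_res] at hγ
      rw [Finset.mem_coe, Finset.mem_filter, FP_memE, FP_pi]
      have h3 : NT (resS ι (fs γ u)) := by rw [hγ]; exact hb
      exact ⟨⟨FP_nt ι _ h3, γ, rfl⟩, h3, hγ⟩)
  unfold fl
  rw [h1, h2, Nat.cast_sum]
  apply Finset.sum_congr rfl
  intro e he
  rw [Finset.mem_filter, FP_pi] at he
  congr 1
  symm
  apply Nat.subtype_card
  intro γ
  rw [Finset.mem_filter, Set.Finite.mem_toFinset, Set.mem_ofPred_eq, FP_res]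
  constructor
  · exact fun h => h.2
  · intro h
    exact ⟨by rw [h]; exact he.2.2, h⟩

theorem good_act {m : ℕ} (γ : SL(2, ℤ)) (u : Fin m → Pl) :
    Good (fun i => act (tR γ) (u i)) ↔ Good u := by
  unfold Good
  have h1 : ∀ v, Irr (act (tR γ) v) ↔ Irr v := by
    intro v
    constructor
    · intro h
      have h2 := irr_act γ⁻¹ _ h
      rw [← act_mul, ← map_mul, inv_mul_cancel, map_one, act_one] at h2
      exact h2
    · exact irr_act γ v
  simp only [h1, dt_act]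

theorem fo_act {m : ℕ} (γ : SL(2, ℤ)) (u : Fin m → Pl) :
    fo (fun i => act (tR γ) (u i)) = fo u := by
  unfold fo
  simp only [dt_act]

private theorem FP_fs {m : ℕ} (δ γ : SL(2, ℤ)) (u : Fin m → Pl) :
    fs δ (fun i => act (tR γ) (u i)) = fs (δ * γ) u := by
  unfold fs
  simp only [cc_mul]

theorem fE_act {m : ℕ} (γ : SL(2, ℤ)) (u : Fin m → Pl) :
    fE (fun i => act (tR γ) (u i)) = fE u := by
  ext s
  rw [FP_memE, FP_memE]
  refine and_congr Iff.rfl ⟨?_, ?_⟩
  · rintro ⟨δ, hδ⟩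
    exact ⟨δ * γ, by rw [← FP_fs, hδ]⟩
  · rintro ⟨δ, hδ⟩
    exact ⟨δ * γ⁻¹, by rw [FP_fs, inv_mul_cancel_right, hδ]⟩

theorem fl_act {m : ℕ} (γ : SL(2, ℤ)) (u : Fin m → Pl) :
    fl (fun i => act (tR γ) (u i)) = fl u := by
  ext s
  unfold fl
  congr 1
  apply Nat.card_congr
  refine Equiv.subtypeEquiv (Equiv.mulRight γ) ?_
  intro δ
  rw [FP_fs]
  rfl

end SimplVol
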