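import Pool.Agent.H54.RT.FT
import Pool.Agent.H54.RT.FP

/-!
# Module FQ: the probabilities of the ranked trees

`P u φ := PE (fl u) (fE u).card (fE u) (fun l => ∑ τ, if τ.o = fo u ∧ τ.l = l then φ τ else 0)`.
* `pr_sum_eq`: for `Good u`: `∑ τ, pr u τ * φ τ = P u φ`: `PE_sum`, `PE_smul` (write the inner sum as `∑ τ, (if τ.o = fo u then φ τ else 0) * (if l = τ.l then 1 else 0)`).
* `pr_nonneg`: `PE_nonneg`, `fl_pos`. `pr_one`: `P u 1`: by `PE_congr` only `l` with `l.Nodup`, `l.toFinset = fE u` matter, and for those exactly one `τ` has `τ.o = fo u ∧ τ.l = l` (`exists_tree`, `RTree.ext`), so the function is `1` and `PE_const`.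
* `pr_nat`: `P u (φ ∘ pull ι)`: for `l` with `l.Nodup`, `l.toFinset = fE u` there is a unique `τ₀` with `τ₀.o = fo u`, `τ₀.l = l`, so the inner sum is `φ (τ₀.pull ι)`. The tree `τ₀.pull ι` has the orientation `fo (u ∘ ι)` and the list `(l.filterMap (piR ι)).dedup` (from the definition of `RTree.pull`:
  `((l.map (resS ι)).filter NT).dedup`; `List.filterMap_eq_map..`, or induction on `l`), so the inner sum is also `Q (l.filterMap (piR ι)).dedup` for `Q l' = ∑ τ', if τ'.o = fo (u ∘ ι) ∧ τ'.l = l' then φ τ' else 0`. `PE_merge` with `w = fl u`, `E = fE u`, `π = piR ι`, `E' = fE (u ∘ ι)` (`fE_res`), then `PE_weights` with `fl_res`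
  (`b ∈ fE (u ∘ ι)` has `NT b`), and `pr_sum_eq` for `u ∘ ι` (`good_res`).
* `pr_o`: if `τ.o ≠ fo u` then `pr u τ = 0`; so the sum is `fo u a b c * ∑ pr u τ`.
* `pr_act`: `good_act`, `fo_act`, `fE_act`, `fl_act`.
-/

set_option autoImplicit false

open scoped BigOperators UpperHalfPlane MatrixGroups

namespace SimplVol

open Classical in
/-- The expectation of a function of the tree. -/
noncomputable def FQ_Q {m : ℕ} (o : Fin m → Fin m → Fin m → ℤ) (φ : RTree m → ℝ)
    (l : List (Split m)) : ℝ :=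
  ∑ τ : RTree m, if τ.o = o ∧ τ.l = l then φ τ else 0

theorem FQ_single {m : ℕ} (φ : RTree m → ℝ) (τ : RTree m) : FQ_Q τ.o φ τ.l = φ τ := by
  classical
  unfold FQ_Q
  rw [Finset.sum_eq_single τ]
  · rw [if_pos ⟨rfl, rfl⟩]
  · intro τ' _ h
    rw [if_neg]
    rintro ⟨h1, h2⟩
    exact h (RTree.ext h1 h2)
  · intro h
    exact absurd (Finset.mem_univ _) h

theorem pr_sum_eq {m : ℕ} (u : Fin m → Pl) (hu : Good u) (φ : RTree m → ℝ) :
    ∑ τ, pr u τ * φ τ = PE (fl u) (fE u).card (fE u) (FQ_Q (fo u) φ) := by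
  classical
  have h1 : ∀ τ : RTree m, pr u τ * φ τ = PE (fl u) (fE u).card (fE u)
      (fun l => (if τ.o = fo u then φ τ else 0) * (if l = τ.l then 1 else 0)) := by
    intro τ
    rw [PE_smul]
    unfold pr
    by_cases h : τ.o = fo u
    · rw [if_pos ⟨hu, h⟩, if_pos h, mul_comm]
    · rw [if_neg (fun h2 => h h2.2), if_neg h, zero_mul, zero_mul]
  rw [Finset.sum_congr rfl (fun τ _ => h1 τ), ← PE_sum]
  congr 1
  funext l
  unfold FQ_Q
  refine Finset.sum_congr rfl fun τ _ => ?_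
  by_cases h : τ.o = fo u
  · by_cases h2 : l = τ.l
    · rw [if_pos h, if_pos h2, if_pos ⟨h, h2.symm⟩, mul_one]
    · rw [if_neg h2, mul_zero, if_neg]
      rintro ⟨_, h3⟩
      exact h2 h3.symm
  · rw [if_neg h, zero_mul, if_neg]
    rintro ⟨h3, _⟩
    exact h h3

theorem FQ_list {k m : ℕ} (ι : Fin k ↪ Fin m) (l : List (Split m)) :
    (l.map (resS ι)).filter (fun s => decide (NT s)) = l.filterMap (piR ι) := by
  induction l with
  | nil => rfl
  | cons a l ih =>
    by_cases h : NT (resS ι a)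
    · have h1 : piR ι a = some (resS ι a) := by
        unfold piR
        rw [if_pos h]
      rw [List.map_cons, List.filter_cons_of_pos (p := fun s => decide (NT s)) (decide_eq_true h), ih,
        List.filterMap_cons_some h1]
    · have h1 : piR ι a = none := by
        unfold piR
        rw [if_neg h]
      rw [List.map_cons, List.filter_cons_of_neg (p := fun s => decide (NT s)) (by simpa using h), ih,
        List.filterMap_cons_none h1]

theorem pr_nonneg {m : ℕ} (u : Fin m → Pl) (τ : RTree m) : 0 ≤ pr u τ := by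
  classical
  unfold pr
  split_ifs with h
  · refine PE_nonneg (fl u) (fE u) (fl_pos u h.1) _ (fun l _ _ => ?_)
    split_ifs <;> norm_num
  · exact le_rfl

theorem pr_one {m : ℕ} (u : Fin m → Pl) (hu : Good u) : ∑ τ, pr u τ = 1 := by
  have h1 : ∑ τ, pr u τ = ∑ τ, pr u τ * (fun _ : RTree m => (1 : ℝ)) τ :=
    Finset.sum_congr rfl (fun τ _ => (mul_one _).symm)
  rw [h1, pr_sum_eq u hu, PE_congr _ _ _ (fun _ => (1 : ℝ)) ?_, PE_const _ _ (fl_pos u hu)]
  intro l hl hlE
  obtain ⟨τ, h2, h3⟩ := exists_tree u hu l hl hlE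
  rw [← h2, ← h3]
  exact FQ_single _ τ

theorem pr_le_one {m : ℕ} (u : Fin m → Pl) (τ : RTree m) : pr u τ ≤ 1 := by
  by_cases hu : Good u
  · rw [← pr_one u hu]
    exact Finset.single_le_sum (f := fun τ => pr u τ) (fun τ' _ => pr_nonneg u τ')
      (Finset.mem_univ τ)
  · unfold pr
    rw [if_neg (fun h => hu h.1)]
    norm_num

theorem pr_nat {k m : ℕ} (ι : Fin k ↪ Fin m) (u : Fin m → Pl) (hu : Good u) (φ : RTree k → ℝ) :
    ∑ τ, pr u τ * φ (τ.pull ι) = ∑ τ', pr (fun i => u (ι i)) τ' * φ τ' := by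
  have hu' := good_res ι u hu
  rw [pr_sum_eq u hu (fun τ => φ (τ.pull ι)), pr_sum_eq _ hu' φ,
    PE_congr (fl u) (fE u) _ (fun l => FQ_Q (fo fun i => u (ι i)) φ (l.filterMap (piR ι)).dedup) ?_,
    PE_merge (fl u) (fE u) (fl_pos u hu) (piR ι) (fE fun i => u (ι i)) (fE_res ι u)]
  · refine PE_weights _ _ _ _ (fun b hb => ?_) _
    have hb' : NT b := by
      simp only [fE, Finset.mem_filter, Finset.mem_univ, true_and] at hb
      exact hb.1
    exact (fl_res ι u hu b hb').symm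
  · intro l hl hlE
    obtain ⟨τ, h2, h3⟩ := exists_tree u hu l hl hlE
    have e1 := FQ_single (fun τ => φ (τ.pull ι)) τ
    have e2 := FQ_single φ (τ.pull ι)
    have e3 : (τ.pull ι).o = fo fun i => u (ι i) := by
      show (fun a b c => τ.o (ι a) (ι b) (ι c)) = _
      rw [h2]
      rfl
    have e4 : (τ.pull ι).l = (l.filterMap (piR ι)).dedup := by
      show ((τ.l.map (resS ι)).filter fun s => decide (NT s)).dedup = _
      rw [h3, FQ_list]
    rw [h2, h3] at e1
    rw [e3, e4] at e2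
    rw [e1]
    exact e2.symm

theorem pr_o {m : ℕ} (u : Fin m → Pl) (hu : Good u) (a b c : Fin m) :
    ∑ τ, pr u τ * ((τ.o a b c : ℤ) : ℝ) = ori (u a) (u b) (u c) := by
  have h1 : ∀ τ : RTree m, pr u τ * ((τ.o a b c : ℤ) : ℝ) = pr u τ * ((fo u a b c : ℤ) : ℝ) := by
    intro τ
    by_cases h : τ.o = fo u
    · rw [h]
    · have : pr u τ = 0 := by
        unfold pr
        rw [if_neg (fun h2 => h h2.2)]
      rw [this, zero_mul, zero_mul]
  rw [Finset.sum_congr rfl (fun τ _ => h1 τ), ← Finset.sum_mul, pr_one u hu, one_mul, fo_ori]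

theorem pr_act {m : ℕ} (γ : SL(2, ℤ)) (u : Fin m → Pl) (τ : RTree m) :
    pr (fun i => act (tR γ) (u i)) τ = pr u τ := by
  have hG := good_act γ u
  have hf := fo_act γ u
  have hE := fE_act γ u
  have hl := fl_act γ u
  unfold pr
  by_cases hu : Good u
  · by_cases h : τ.o = fo u
    · rw [if_pos ⟨hG.2 hu, h.trans hf.symm⟩, if_pos ⟨hu, h⟩, hE, hl]
    · rw [if_neg (fun h2 => h (h2.2.trans hf)), if_neg (fun h2 => h h2.2)]
  · rw [if_neg (fun h2 => hu (hG.1 h2.1)), if_neg (fun h2 => hu h2.1)]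

end SimplVol
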