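import Pool.Agent.H54.RT.SR

/-!
# Module SR2: four lines are separated by a Farey edge

For a vector `v` of irrational slope let `arc v = 0` if `v.1 v.2 < 0`, `1` if `v.1 v.2 > 0` and `v.1² < v.2²`, `2` if `v.1 v.2 > 0` and `v.2² < v.1²` (no other case: `v.1² = v.2²` would be a rational slope). Edges: with `ε₀ = 1`, `ε₁ = (1 0; -1 1)`, `ε₂ = (1 -1; 0 1)`:
`cc ε₀ v < 0` iff `arc v = 0`; `cc ε₁ v = v.1 (v.2 - v.1) > 0` iff `arc v = 1`; `cc ε₂ v = (v.1 - v.2) v.2 > 0` iff `arc v = 2`. So if exactly two of the four vectors `act (tR γ) a, …` have `arc = k`, then `ε_k * γ` separates the four vectors in two pairs (`res_of_arc`; finite case check).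
Proof of `farey_res`. `S = (0 -1; 1 0)`: `cc (S γ) v = - cc γ v`.
1. Among the four vectors two have the same sign of `v.1 v.2`; applying `1` or `S` we may assume that two of them, say `x, y`, are positive. (Write the statement symmetrically for a function `v : Fin 4 → Pl` with pairwise independent values, and conclusion: there are `γ` and a two-element subset/`i ≠ j` such that
`cc γ (v i)`, `cc γ (v j)` have the same sign and the other two have the opposite sign; then translate to the three cases at the end by `decide`-like case analysis.)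
2. `sep2` for `x, y` gives `γ` with `x, y` in the arcs `1` and `2` (one in each). Let `n₀, n₁, n₂` be the numbers of the four vectors in the arcs (`n₁, n₂ ≥ 1`, sum `4`). If one of them is `2`: done. Otherwise `(n₀, n₁, n₂) = (0, 1, 3)` or `(0, 3, 1)`.
3. So one of the arcs `k = 1, 2` contains three vectors and the other arc one. With `ε_k γ` the three are positive and the remaining one, `a`, is negative. Apply `sep2` to two of the three positive ones: now `a` is in arc `0`, the two are in arcs `1` and `2`, the fourth vector is somewhere, so some arc contains exactly two: done.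
-/

set_option autoImplicit false

open scoped BigOperators UpperHalfPlane MatrixGroups

namespace SimplVol

/-- The arc of a vector. -/
private noncomputable def SR2_arc (u : Pl) : Fin 3 :=
  if u.1 * u.2 < 0 then 0 else if u.1 ^ 2 < u.2 ^ 2 then 1 else 2

private def SR2_e1 : SL(2, ℤ) := ⟨!![1, 0; -1, 1], by simp [Matrix.det_fin_two_of]⟩
private def SR2_e2 : SL(2, ℤ) := ⟨!![1, -1; 0, 1], by simp [Matrix.det_fin_two_of]⟩
private def SR2_S : SL(2, ℤ) := ⟨!![0, -1; 1, 0], by simp [Matrix.det_fin_two_of]⟩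

private theorem SR2_tR (g : SL(2, ℤ)) (i j : Fin 2) : (tR g) i j = ((g i j : ℤ) : ℝ) := rfl

private theorem SR2_cc1 (u : Pl) : cc SR2_e1 u = u.1 * (u.2 - u.1) := by
  have h1 : SR2_e1 0 0 = 1 := rfl
  have h2 : SR2_e1 0 1 = 0 := rfl
  have h3 : SR2_e1 1 0 = -1 := rfl
  have h4 : SR2_e1 1 1 = 1 := rfl
  simp only [cc, act, SR2_tR, h1, h2, h3, h4]
  push_cast
  ring

private theorem SR2_cc2 (u : Pl) : cc SR2_e2 u = (u.1 - u.2) * u.2 := by
  have h1 : SR2_e2 0 0 = 1 := rfl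
  have h2 : SR2_e2 0 1 = -1 := rfl
  have h3 : SR2_e2 1 0 = 0 := rfl
  have h4 : SR2_e2 1 1 = 1 := rfl
  simp only [cc, act, SR2_tR, h1, h2, h3, h4]
  push_cast
  ring

private theorem SR2_ccS (u : Pl) : cc SR2_S u = - (u.1 * u.2) := by
  have h1 : SR2_S 0 0 = 0 := rfl
  have h2 : SR2_S 0 1 = -1 := rfl
  have h3 : SR2_S 1 0 = 1 := rfl
  have h4 : SR2_S 1 1 = 0 := rfl
  simp only [cc, act, SR2_tR, h1, h2, h3, h4]
  push_cast
  ring

private theorem SR2_irr_ne {u : Pl} (h : Irr u) : u.1 ≠ 0 ∧ u.2 ≠ 0 ∧ u.1 ≠ u.2 ∧ u.1 ≠ -u.2 := by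
  refine ⟨?_, ?_, ?_, ?_⟩
  · have := h 1 0 (Or.inl one_ne_zero)
    simpa using this
  · have := h 0 1 (Or.inr one_ne_zero)
    simpa using this
  · have := h 1 (-1) (Or.inl one_ne_zero)
    intro h1
    apply this
    push_cast
    linarith
  · have := h 1 1 (Or.inl one_ne_zero)
    intro h1
    apply this
    push_cast
    linarith

private theorem SR2_arc0 {u : Pl} : u.1 * u.2 < 0 ↔ SR2_arc u = 0 := by
  unfold SR2_arc
  by_cases h : u.1 * u.2 < 0
  · simp [h]
  · rw [if_neg h]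
    constructor
    · intro h1; exact absurd h1 h
    · intro h1
      split_ifs at h1 <;> exact absurd h1 (by decide)

private theorem SR2_arc1 {u : Pl} (h : Irr u) : 0 < u.1 * (u.2 - u.1) ↔ SR2_arc u = 1 := by
  obtain ⟨h1, h2, h3, h4⟩ := SR2_irr_ne h
  unfold SR2_arc
  by_cases hn : u.1 * u.2 < 0
  · rw [if_pos hn]
    constructor
    · intro h5; nlinarith [sq_nonneg u.1]
    · intro h5; exact absurd h5 (by decide)
  · rw [if_neg hn]
    by_cases hs : u.1 ^ 2 < u.2 ^ 2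
    · rw [if_pos hs]
      refine ⟨fun _ => rfl, fun _ => ?_⟩
      have hp : 0 < u.1 * u.2 := lt_of_le_of_ne (not_lt.1 hn) (Ne.symm (mul_ne_zero h1 h2))
      have h5 : 0 < u.1 ^ 2 := by positivity
      by_contra h6
      have h7 : u.1 * u.2 ≤ u.1 ^ 2 := by nlinarith
      nlinarith [mul_pos hp h5]
    · rw [if_neg hs]
      constructor
      · intro h5
        exfalso
        have h6 : 0 < u.1 ^ 2 := by positivity
        have h7 : u.1 ^ 2 < u.1 * u.2 := by nlinarith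
        apply hs
        have h8 : (u.1 ^ 2) ^ 2 < (u.1 * u.2) ^ 2 := by
          apply pow_lt_pow_left₀ h7 h6.le two_ne_zero
        have h9 : u.1 ^ 2 * u.1 ^ 2 < u.1 ^ 2 * u.2 ^ 2 := by nlinarith
        exact lt_of_mul_lt_mul_left h9 h6.le
      · intro h5; exact absurd h5 (by decide)

private theorem SR2_arc2 {u : Pl} (h : Irr u) : 0 < (u.1 - u.2) * u.2 ↔ SR2_arc u = 2 := by
  obtain ⟨h1, h2, h3, h4⟩ := SR2_irr_ne h
  have hne : u.1 ^ 2 ≠ u.2 ^ 2 := by
    intro h5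
    rcases sq_eq_sq_iff_eq_or_eq_neg.1 h5 with h6 | h6
    · exact h3 h6
    · exact h4 h6
  unfold SR2_arc
  by_cases hn : u.1 * u.2 < 0
  · rw [if_pos hn]
    constructor
    · intro h5; nlinarith [sq_nonneg u.2]
    · intro h5; exact absurd h5 (by decide)
  · rw [if_neg hn]
    by_cases hs : u.1 ^ 2 < u.2 ^ 2
    · rw [if_pos hs]
      constructor
      · intro h5
        exfalso
        have h6 : 0 < u.2 ^ 2 := by positivity
        have h7 : u.2 ^ 2 < u.1 * u.2 := by nlinarith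
        have h8 : (u.2 ^ 2) ^ 2 < (u.1 * u.2) ^ 2 := by
          apply pow_lt_pow_left₀ h7 h6.le two_ne_zero
        have h9 : u.2 ^ 2 * u.2 ^ 2 < u.2 ^ 2 * u.1 ^ 2 := by nlinarith
        have := lt_of_mul_lt_mul_left h9 h6.le
        linarith
      · intro h5; exact absurd h5 (by decide)
    · rw [if_neg hs]
      refine ⟨fun _ => rfl, fun _ => ?_⟩
      have hs' : u.2 ^ 2 < u.1 ^ 2 := lt_of_le_of_ne (not_lt.1 hs) (Ne.symm hne)
      have hp : 0 < u.1 * u.2 := lt_of_le_of_ne (not_lt.1 hn) (Ne.symm (mul_ne_zero h1 h2))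
      have h5 : 0 < u.2 ^ 2 := by positivity
      by_contra h6
      have h7 : u.1 * u.2 ≤ u.2 ^ 2 := by nlinarith
      nlinarith [mul_pos hp h5]

private theorem SR2_two {v : Fin 4 → Pl} (hI : ∀ i, Irr (v i)) (γ : SL(2, ℤ)) (k : Fin 3)
    (hk : (Finset.univ.filter fun i => SR2_arc (act (tR γ) (v i)) = k).card = 2) :
    ∃ δ : SL(2, ℤ), (Finset.univ.filter fun i => 0 < cc δ (v i)).card = 2 := by
  have hI' : ∀ i, Irr (act (tR γ) (v i)) := fun i => irr_act γ _ (hI i)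
  fin_cases k
  · refine ⟨γ, ?_⟩
    have h1 : (Finset.univ.filter fun i => 0 < cc γ (v i)) =
        Finset.univ \ (Finset.univ.filter fun i => SR2_arc (act (tR γ) (v i)) = 0) := by
      ext i
      simp only [Finset.mem_filter, Finset.mem_univ, true_and, Finset.mem_sdiff]
      rw [← SR2_arc0]
      have := cc_ne γ _ (hI i)
      unfold cc at this ⊢
      constructor
      · intro h; exact not_lt.2 h.le
      · intro h; exact lt_of_le_of_ne (not_lt.1 h) (Ne.symm this)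
    have hk' : (Finset.univ.filter fun i => SR2_arc (act (tR γ) (v i)) = 0).card = 2 := hk
    rw [h1, Finset.card_sdiff_of_subset (Finset.subset_univ _), hk']
    rfl
  · refine ⟨SR2_e1 * γ, ?_⟩
    have hk' : (Finset.univ.filter fun i => SR2_arc (act (tR γ) (v i)) = 1).card = 2 := hk
    refine Eq.trans ?_ hk'
    congr 1
    ext i
    simp only [Finset.mem_filter, Finset.mem_univ, true_and]
    rw [cc_mul, SR2_cc1, SR2_arc1 (hI' i)]
  · refine ⟨SR2_e2 * γ, ?_⟩
    have hk' : (Finset.univ.filter fun i => SR2_arc (act (tR γ) (v i)) = 2).card = 2 := hk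
    refine Eq.trans ?_ hk'
    congr 1
    ext i
    simp only [Finset.mem_filter, Finset.mem_univ, true_and]
    rw [cc_mul, SR2_cc2, SR2_arc2 (hI' i)]

set_option maxRecDepth 100000 in
private theorem SR2_comb1 : ∀ A : Fin 4 → Fin 3, (∃ x y, A x = 1 ∧ A y = 2) →
    (∃ k, (Finset.univ.filter fun i => A i = k).card = 2) ∨
    (∃ k, (k = 1 ∨ k = 2) ∧ ∃ a, A a ≠ k ∧ A a ≠ 0 ∧ ∀ i, i ≠ a → A i = k) := by
  decide

set_option maxRecDepth 100000 in
private theorem SR2_comb2 : ∀ A : Fin 4 → Fin 3, (∃ a x y, A a = 0 ∧ A x = 1 ∧ A y = 2) →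
    ∃ k, (Finset.univ.filter fun i => A i = k).card = 2 := by
  decide

private theorem SR2_ex2 : ∀ a : Fin 4, ∃ p q : Fin 4, p ≠ q ∧ p ≠ a ∧ q ≠ a := by
  decide

/-- one step: from positive `v x, v y` to arcs `1`, `2` -/
private theorem SR2_step {v : Fin 4 → Pl} (hI : ∀ i, Irr (v i))
    (hD : ∀ i j, i ≠ j → dt (v i) (v j) ≠ 0) (δ : SL(2, ℤ)) {x y : Fin 4} (hxy : x ≠ y)
    (hx : 0 < cc δ (v x)) (hy : 0 < cc δ (v y)) :
    ∃ γ : SL(2, ℤ), (∃ x y, SR2_arc (act (tR γ) (v x)) = 1 ∧ SR2_arc (act (tR γ) (v y)) = 2) ∧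
      ∀ a, cc δ (v a) < 0 → SR2_arc (act (tR γ) (v a)) = 0 := by
  have hI' : ∀ i, Irr (act (tR δ) (v i)) := fun i => irr_act δ _ (hI i)
  obtain ⟨γ, h1, h2, h3, h4⟩ := sep2 (act (tR δ) (v x)) (act (tR δ) (v y)) (hI' x) (hI' y)
    (by rw [dt_act]; exact hD x y hxy) hx hy
  refine ⟨γ * δ, ?_, ?_⟩
  · have key : ∀ i, act (tR (γ * δ)) (v i) = act (tR γ) (act (tR δ) (v i)) := by
      intro i
      rw [map_mul, act_mul]
    have e1 : ∀ i, 0 < cc γ (act (tR δ) (v i)) →
        (act (tR γ) (act (tR δ) (v i))).1 ^ 2 < (act (tR γ) (act (tR δ) (v i))).2 ^ 2 →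
        SR2_arc (act (tR (γ * δ)) (v i)) = 1 := by
      intro i hi1 hi2
      rw [key]
      have hi3 : 0 < (act (tR γ) (act (tR δ) (v i))).1 * (act (tR γ) (act (tR δ) (v i))).2 := hi1
      unfold SR2_arc
      rw [if_neg (not_lt.2 (le_of_lt hi3)), if_pos hi2]
    have e2 : ∀ i, 0 < cc γ (act (tR δ) (v i)) →
        (act (tR γ) (act (tR δ) (v i))).2 ^ 2 < (act (tR γ) (act (tR δ) (v i))).1 ^ 2 →
        SR2_arc (act (tR (γ * δ)) (v i)) = 2 := by
      intro i hi1 hi2
      rw [key]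
      have hi3 : 0 < (act (tR γ) (act (tR δ) (v i))).1 * (act (tR γ) (act (tR δ) (v i))).2 := hi1
      unfold SR2_arc
      rw [if_neg (not_lt.2 (le_of_lt hi3)), if_neg (not_lt.2 hi2.le)]
    rcases h4 with ⟨h5, h6⟩ | ⟨h5, h6⟩
    · exact ⟨x, y, e1 x h1 h5, e2 y h2 h6⟩
    · exact ⟨y, x, e1 y h2 h5, e2 x h1 h6⟩
  · intro a ha
    have := h3 (act (tR δ) (v a)) ha
    rw [← SR2_arc0]
    rw [← cc_mul] at this
    exact this

private theorem SR2_core {v : Fin 4 → Pl} (hI : ∀ i, Irr (v i))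
    (hD : ∀ i j, i ≠ j → dt (v i) (v j) ≠ 0) :
    ∃ δ : SL(2, ℤ), (Finset.univ.filter fun i => 0 < cc δ (v i)).card = 2 := by
  -- two positive vectors
  obtain ⟨δ, x, y, hxy, hx, hy⟩ : ∃ (δ : SL(2, ℤ)) (x y : Fin 4), x ≠ y ∧ 0 < cc δ (v x) ∧
      0 < cc δ (v y) := by
    have hS : ∀ i, cc SR2_S (v i) = - cc 1 (v i) := by
      intro i
      rw [SR2_ccS]
      unfold cc
      rw [map_one, act_one]
    have h01 : ∀ s : Fin 3 → Prop, ∃ i j : Fin 3, i ≠ j ∧ (s i ↔ s j) := by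
      intro s
      by_cases h0 : s 0 <;> by_cases h1 : s 1 <;> by_cases h2 : s 2
      · exact ⟨0, 1, by decide, by tauto⟩
      · exact ⟨0, 1, by decide, by tauto⟩
      · exact ⟨0, 2, by decide, by tauto⟩
      · exact ⟨1, 2, by decide, by tauto⟩
      · exact ⟨1, 2, by decide, by tauto⟩
      · exact ⟨0, 2, by decide, by tauto⟩
      · exact ⟨0, 1, by decide, by tauto⟩
      · exact ⟨0, 1, by decide, by tauto⟩
    obtain ⟨i, j, hij, hs⟩ := h01 (fun i => 0 < cc 1 (v i.castSucc))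
    have hij' : i.castSucc ≠ j.castSucc := fun h => hij (Fin.castSucc_injective _ h)
    by_cases hp : 0 < cc 1 (v i.castSucc)
    · exact ⟨1, _, _, hij', hp, hs.1 hp⟩
    · have hp' : ¬ 0 < cc 1 (v j.castSucc) := fun h => hp (hs.2 h)
      refine ⟨SR2_S, _, _, hij', ?_, ?_⟩
      · rw [hS]
        have := cc_ne 1 _ (hI i.castSucc)
        have h5 : cc 1 (v i.castSucc) < 0 := lt_of_le_of_ne (not_lt.1 hp) this
        linarith
      · rw [hS]
        have := cc_ne 1 _ (hI j.castSucc)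
        have h5 : cc 1 (v j.castSucc) < 0 := lt_of_le_of_ne (not_lt.1 hp') this
        linarith
  obtain ⟨γ, hγ, -⟩ := SR2_step hI hD δ hxy hx hy
  rcases SR2_comb1 (fun i => SR2_arc (act (tR γ) (v i))) hγ with ⟨k, hk⟩ | ⟨k, hk, a, ha, ha0, hak⟩
  · exact SR2_two hI γ k hk
  · obtain ⟨p, q, hpq, hpa, hqa⟩ := SR2_ex2 a
    have hI' : ∀ i, Irr (act (tR γ) (v i)) := fun i => irr_act γ _ (hI i)
    obtain ⟨δ', h1⟩ : ∃ δ' : SL(2, ℤ), ∀ i, 0 < cc δ' (v i) ↔
        SR2_arc (act (tR γ) (v i)) = k := by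
      rcases hk with rfl | rfl
      · exact ⟨SR2_e1 * γ, fun i => by rw [cc_mul, SR2_cc1, SR2_arc1 (hI' i)]⟩
      · exact ⟨SR2_e2 * γ, fun i => by rw [cc_mul, SR2_cc2, SR2_arc2 (hI' i)]⟩
    have hna : cc δ' (v a) < 0 := by
      have h2 : ¬ 0 < cc δ' (v a) := fun h => ha ((h1 a).1 h)
      exact lt_of_le_of_ne (not_lt.1 h2) (cc_ne δ' _ (hI a))
    obtain ⟨γ', ⟨x', y', h3, h4⟩, h5⟩ := SR2_step hI hD δ' hpq ((h1 p).2 (hak p hpa))
      ((h1 q).2 (hak q hqa))
    obtain ⟨k', hk'⟩ := SR2_comb2 (fun i => SR2_arc (act (tR γ') (v i)))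
      ⟨a, x', y', h5 a hna, h3, h4⟩
    exact SR2_two hI γ' k' hk'

set_option maxRecDepth 100000 in
private theorem SR2_comb3 : ∀ s : Fin 4 → Bool,
    (Finset.univ.filter fun i => s i = true).card = 2 →
    (s 0 = s 1 ∧ s 2 = s 3 ∧ s 0 ≠ s 2) ∨ (s 0 = s 2 ∧ s 1 = s 3 ∧ s 0 ≠ s 1) ∨
      (s 0 = s 3 ∧ s 1 = s 2 ∧ s 0 ≠ s 1) := by
  decide

theorem farey_res (a b c d : Pl) (ha : Irr a) (hb : Irr b) (hc : Irr c) (hd : Irr d)
    (hab : dt a b ≠ 0) (hac : dt a c ≠ 0) (had : dt a d ≠ 0) (hbc : dt b c ≠ 0)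
    (hbd : dt b d ≠ 0) (hcd : dt c d ≠ 0) :
    ∃ γ : SL(2, ℤ), (0 < cc γ a * cc γ b ∧ 0 < cc γ c * cc γ d ∧ cc γ a * cc γ c < 0) ∨
      (0 < cc γ a * cc γ c ∧ 0 < cc γ b * cc γ d ∧ cc γ a * cc γ b < 0) ∨
      (0 < cc γ a * cc γ d ∧ 0 < cc γ b * cc γ c ∧ cc γ a * cc γ b < 0) := by
  have hsymm : ∀ u w : Pl, dt u w ≠ 0 → dt w u ≠ 0 := by
    intro u w h h'
    apply h
    unfold dt at h' ⊢
    linarith
  obtain ⟨γ, hγ⟩ := SR2_core (v := ![a, b, c, d])
    (by intro i; fin_cases i <;> assumption)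
    (by
      intro i j hij
      fin_cases i <;> fin_cases j <;> first | exact absurd rfl hij | skip
      · exact hab
      · exact hac
      · exact had
      · exact hsymm _ _ hab
      · exact hbc
      · exact hbd
      · exact hsymm _ _ hac
      · exact hsymm _ _ hbc
      · exact hcd
      · exact hsymm _ _ had
      · exact hsymm _ _ hbd
      · exact hsymm _ _ hcd)
  refine ⟨γ, ?_⟩
  have hna := cc_ne γ a ha
  have hnb := cc_ne γ b hb
  have hnc := cc_ne γ c hc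
  have hnd := cc_ne γ d hd
  have hsame : ∀ x y : ℝ, x ≠ 0 → y ≠ 0 → (decide (0 < x) = decide (0 < y)) → 0 < x * y := by
    intro x y hx hy h
    by_cases h0 : 0 < x
    · have h1 : 0 < y := by
        rw [decide_eq_true h0] at h
        exact of_decide_eq_true h.symm
      exact mul_pos h0 h1
    · have h1 : ¬ 0 < y := by
        rw [decide_eq_false h0] at h
        exact of_decide_eq_false h.symm
      exact mul_pos_of_neg_of_neg (lt_of_le_of_ne (not_lt.1 h0) hx)
        (lt_of_le_of_ne (not_lt.1 h1) hy)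
  have hdiff : ∀ x y : ℝ, x ≠ 0 → y ≠ 0 → (decide (0 < x) ≠ decide (0 < y)) → x * y < 0 := by
    intro x y hx hy h
    by_cases h0 : 0 < x
    · have h1 : ¬ 0 < y := by
        intro h1
        apply h
        rw [decide_eq_true h0, decide_eq_true h1]
      exact mul_neg_of_pos_of_neg h0 (lt_of_le_of_ne (not_lt.1 h1) hy)
    · have h1 : 0 < y := by
        by_contra h1
        apply h
        rw [decide_eq_false h0, decide_eq_false h1]
      exact mul_neg_of_neg_of_pos (lt_of_le_of_ne (not_lt.1 h0) hx) h1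
  have hs := SR2_comb3 (fun i => decide (0 < cc γ ((![a, b, c, d] : Fin 4 → Pl) i))) (by
    refine Eq.trans ?_ hγ
    congr 1
    ext i
    simp only [Finset.mem_filter, Finset.mem_univ, true_and, decide_eq_true_eq])
  rcases hs with ⟨h1, h2, h3⟩ | ⟨h1, h2, h3⟩ | ⟨h1, h2, h3⟩
  · exact Or.inl ⟨hsame _ _ hna hnb h1, hsame _ _ hnc hnd h2, hdiff _ _ hna hnc h3⟩
  · exact Or.inr (Or.inl ⟨hsame _ _ hna hnc h1, hsame _ _ hnb hnd h2, hdiff _ _ hna hnb h3⟩)
  · exact Or.inr (Or.inr ⟨hsame _ _ hna hnd h1, hsame _ _ hnb hnc h2, hdiff _ _ hna hnb h3⟩)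

end SimplVol
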