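import Pool.Agent.H54.RT.SG
import Pool.Agent.H54.RT.SR2

/-!
# Module FT: the ranked planar trees of a configuration of lines

`u : Fin m → Pl` with `Good u`. `fs γ u a b = true ↔ 0 < cc γ (u a) * cc γ (u b)`, and `= false ↔ ... < 0` (`cc_ne`, the product is nonzero). So `Sep (fs γ u) a b c d ↔ 0 < cc a cc b ∧ 0 < cc c cc d ∧ cc a cc c < 0` (`sep_fs`).
`exists_tree`: `o := fo u`.
* `o_vals`: the three determinants are nonzero for distinct `a, b, c`. `o_swap`: `dt` is antisymmetric, the product `dt a c * dt c b * dt b a` is minus `dt a b * dt b c * dt c a`. `o_rot`: cyclic invariance (commutativity).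
* `o_coc`: if two of `a, b, c, d` are equal it follows from `o_swap`, `o_rot` (and `fo = 0` if two arguments are equal: `dt v v = 0`). Otherwise all six determinants are nonzero; Plücker: `dt a b * dt c d - dt a c * dt b d + dt a d * dt b c = 0` (`ring`). With `x = dt a b, y = dt a c, z = dt a d, p = dt b c, q = dt b d,
  r = dt c d`: `fo b c d = - sign (p q r)`, `fo a c d = - sign (y r z)`, `fo a b d = - sign (x q z)`, `fo a b c = - sign (x p y)`, `x r - y q + z p = 0`: case distinction on the six signs (64 cases; in the bad cases `x r`, `- y q`, `z p` all have the same sign, contradiction by `nlinarith`/`mul_pos`). Reduce the number of cases: e.g. let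
  `A = x r, B = - y q, C = z p` (sum zero, nonzero).
* `nodup`: `hl`. `split`: `s = fs γ u` (`fE`), `f a = decide (0 < cc γ (u a))`; for nonzero reals `0 < s t ↔ (0 < s ↔ 0 < t)`. `nt`: from `fE`. `planar`: `cc_planar` gives `0 < (dt b c * dt c a) * (dt b d * dt d a)`, and `fo a b c = sign (dt a b * (dt b c * dt c a))`, `fo a b d = sign (dt a b * (dt b d * dt d a))`; the same sign.
* `res`: `farey_res` for `u a, u b, u c, u d`, `s = fs γ u` is in `fE u`: `NT s` by the separation itself. `excl`: `cc_excl`.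
-/

set_option autoImplicit false

open scoped BigOperators UpperHalfPlane MatrixGroups

namespace SimplVol

theorem FT_fo {m : ℕ} (u : Fin m → Pl) (a b c : Fin m) :
    fo u a b c = ((SignType.sign (dt (u a) (u b) * dt (u b) (u c) * dt (u c) (u a)) : SignType) : ℤ) := by
  unfold fo
  rw [sign_apply]
  by_cases h1 : 0 < dt (u a) (u b) * dt (u b) (u c) * dt (u c) (u a)
  · rw [if_pos h1, if_pos h1]; rfl
  · rw [if_neg h1, if_neg h1]
    by_cases h2 : dt (u a) (u b) * dt (u b) (u c) * dt (u c) (u a) < 0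
    · rw [if_pos h2, if_pos h2]; rfl
    · rw [if_neg h2, if_neg h2]; rfl

theorem FT_anti (u v : Pl) : dt u v = - dt v u := by
  unfold dt
  ring

theorem FT_fs_true {m : ℕ} (u : Fin m → Pl) (γ : SL(2, ℤ)) (a b : Fin m) :
    fs γ u a b = true ↔ 0 < cc γ (u a) * cc γ (u b) := by
  unfold fs
  exact decide_eq_true_iff

theorem FT_fs_false {m : ℕ} (u : Fin m → Pl) (hu : Good u) (γ : SL(2, ℤ)) (a b : Fin m) :
    fs γ u a b = false ↔ cc γ (u a) * cc γ (u b) < 0 := by
  have hne : cc γ (u a) * cc γ (u b) ≠ 0 :=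
    mul_ne_zero (cc_ne γ _ (hu.1 a)) (cc_ne γ _ (hu.1 b))
  rw [← Bool.not_eq_true, FT_fs_true]
  constructor
  · intro h
    exact lt_of_le_of_ne (not_lt.1 h) hne
  · intro h
    exact not_lt.2 h.le

theorem sep_fs {m : ℕ} (u : Fin m → Pl) (hu : Good u) (γ : SL(2, ℤ)) (a b c d : Fin m) :
    Sep (fs γ u) a b c d ↔ 0 < cc γ (u a) * cc γ (u b) ∧ 0 < cc γ (u c) * cc γ (u d) ∧
      cc γ (u a) * cc γ (u c) < 0 := by
  unfold Sep
  rw [FT_fs_true, FT_fs_true, FT_fs_false u hu]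

theorem fo_ori {m : ℕ} (u : Fin m → Pl) (a b c : Fin m) :
    ((fo u a b c : ℤ) : ℝ) = ori (u a) (u b) (u c) := by
  unfold fo ori
  by_cases h1 : 0 < dt (u a) (u b) * dt (u b) (u c) * dt (u c) (u a)
  · rw [if_pos h1, if_pos h1]; push_cast; ring
  · rw [if_neg h1, if_neg h1]
    by_cases h2 : dt (u a) (u b) * dt (u b) (u c) * dt (u c) (u a) < 0
    · rw [if_pos h2, if_pos h2]; push_cast; ring
    · rw [if_neg h2, if_neg h2]; push_cast; ring

theorem FT_swap {m : ℕ} (u : Fin m → Pl) (a b c : Fin m) : fo u a c b = - fo u a b c := by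
  rw [FT_fo, FT_fo]
  have e : dt (u a) (u c) * dt (u c) (u b) * dt (u b) (u a) =
      - (dt (u a) (u b) * dt (u b) (u c) * dt (u c) (u a)) := by
    unfold dt
    ring
  rw [e, Left.sign_neg, SignType.coe_neg]

theorem FT_rot {m : ℕ} (u : Fin m → Pl) (a b c : Fin m) : fo u b c a = fo u a b c := by
  rw [FT_fo, FT_fo]
  have e : dt (u b) (u c) * dt (u c) (u a) * dt (u a) (u b) =
      (dt (u a) (u b) * dt (u b) (u c) * dt (u c) (u a)) := by
    ring
  rw [e]

theorem FT_self {m : ℕ} (u : Fin m → Pl) (a b : Fin m) : fo u a b b = 0 := by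
  have := FT_swap u a b b
  omega

theorem FT_self2 {m : ℕ} (u : Fin m → Pl) (a b : Fin m) : fo u b b a = 0 := by
  rw [FT_rot]
  exact FT_self u a b

theorem FT_self3 {m : ℕ} (u : Fin m → Pl) (a b : Fin m) : fo u b a b = 0 := by
  rw [← FT_rot]
  exact FT_self u a b

theorem FT_dec : ∀ X Y Z P Q R : SignType, X ≠ 0 → Y ≠ 0 → Z ≠ 0 → P ≠ 0 → Q ≠ 0 → R ≠ 0 →
    ¬ (X * R = -(Y * Q) ∧ X * R = Z * P) →
    ((P * R * (-Q) : SignType) : ℤ) - ((Y * R * (-Z) : SignType) : ℤ) +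
      ((X * Q * (-Z) : SignType) : ℤ) - ((X * P * (-Y) : SignType) : ℤ) = 0 := by
  intro X Y Z P Q R hX hY hZ hP hQ hR
  cases X <;> cases Y <;> cases Z <;> cases P <;> cases Q <;> cases R <;>
    first
    | exact absurd rfl hX
    | exact absurd rfl hY
    | exact absurd rfl hZ
    | exact absurd rfl hP
    | exact absurd rfl hQ
    | exact absurd rfl hR
    | decide

theorem FT_coc {m : ℕ} (u : Fin m → Pl) (hu : Good u) (a b c d : Fin m) :
    fo u b c d - fo u a c d + fo u a b d - fo u a b c = 0 := by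
  by_cases hab : a = b
  · subst hab
    rw [FT_self2, FT_self2]; ring
  by_cases hbc : b = c
  · subst hbc
    rw [FT_self2, FT_self]; ring
  by_cases hcd : c = d
  · subst hcd
    rw [FT_self, FT_self]; ring
  by_cases hac : a = c
  · subst hac
    rw [FT_self2, FT_self3, ← FT_rot u b a d, FT_swap u a b d]; ring
  by_cases had : a = d
  · subst had
    rw [FT_self3, FT_self3, FT_rot u a b c]; ring
  by_cases hbd : b = d
  · subst hbd
    rw [FT_self3, FT_self, FT_swap u a b c]; ring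
  have k1 := hu.2 a b hab
  have k2 := hu.2 a c hac
  have k3 := hu.2 a d had
  have k4 := hu.2 b c hbc
  have k5 := hu.2 b d hbd
  have k6 := hu.2 c d hcd
  have hpl : dt (u a) (u b) * dt (u c) (u d) - dt (u a) (u c) * dt (u b) (u d) +
      dt (u a) (u d) * dt (u b) (u c) = 0 := by
    unfold dt
    ring
  rw [FT_fo, FT_fo, FT_fo, FT_fo, FT_anti (u d) (u b), FT_anti (u d) (u a), FT_anti (u c) (u a)]
  simp only [sign_mul, Left.sign_neg]
  refine FT_dec _ _ _ _ _ _ (sign_ne_zero.2 k1) (sign_ne_zero.2 k2) (sign_ne_zero.2 k3)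
    (sign_ne_zero.2 k4) (sign_ne_zero.2 k5) (sign_ne_zero.2 k6) ?_
  rintro ⟨h1, h2⟩
  rw [← sign_mul, ← sign_mul, ← Left.sign_neg] at h1
  rw [← sign_mul, ← sign_mul] at h2
  have hne : dt (u a) (u b) * dt (u c) (u d) ≠ 0 := mul_ne_zero k1 k6
  rcases lt_or_gt_of_ne hne with h3 | h3
  · rw [sign_neg h3] at h1 h2
    have h4 := sign_eq_neg_one_iff.1 h1.symm
    have h5 := sign_eq_neg_one_iff.1 h2.symm
    linarith
  · rw [sign_pos h3] at h1 h2
    have h4 := sign_eq_one_iff.1 h1.symm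
    have h5 := sign_eq_one_iff.1 h2.symm
    linarith

theorem FT_bool (x y : ℝ) (hx : x ≠ 0) (hy : y ≠ 0) : (0 < x * y) ↔ ((0 < x) ↔ (0 < y)) := by
  rcases lt_or_gt_of_ne hx with h1 | h1 <;> rcases lt_or_gt_of_ne hy with h2 | h2
  · exact iff_of_true (mul_pos_of_neg_of_neg h1 h2) (iff_of_false (not_lt.2 h1.le) (not_lt.2 h2.le))
  · refine iff_of_false (not_lt.2 (mul_neg_of_neg_of_pos h1 h2).le) ?_
    intro h
    exact absurd (h.2 h2) (not_lt.2 h1.le)
  · refine iff_of_false (not_lt.2 (mul_neg_of_pos_of_neg h1 h2).le) ?_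
    intro h
    exact absurd (h.1 h1) (not_lt.2 h2.le)
  · exact iff_of_true (mul_pos h1 h2) (iff_of_true h1 h2)

open Classical in
theorem FT_split {m : ℕ} (u : Fin m → Pl) (hu : Good u) (γ : SL(2, ℤ)) :
    ∃ f : Fin m → Bool, ∀ a b, fs γ u a b = (f a == f b) := by
  refine ⟨fun a => decide (0 < cc γ (u a)), fun a b => ?_⟩
  have h := FT_bool _ _ (cc_ne γ _ (hu.1 a)) (cc_ne γ _ (hu.1 b))
  have h2 := FT_fs_true u γ a b
  by_cases ha : 0 < cc γ (u a) <;> by_cases hb : 0 < cc γ (u b)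
  · have h3 : fs γ u a b = true := h2.2 (h.2 (iff_of_true ha hb))
    rw [h3]
    simp [ha, hb]
  · have h3 : fs γ u a b = false := by
      rw [← Bool.not_eq_true, h2, h]
      exact fun h4 => hb (h4.1 ha)
    rw [h3]
    simp [ha, hb]
  · have h3 : fs γ u a b = false := by
      rw [← Bool.not_eq_true, h2, h]
      exact fun h4 => ha (h4.2 hb)
    rw [h3]
    simp [ha, hb]
  · have h3 : fs γ u a b = true := h2.2 (h.2 (iff_of_false ha hb))
    rw [h3]
    simp [ha, hb]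

theorem FT_fE {m : ℕ} (u : Fin m → Pl) (s : Split m) :
    s ∈ fE u ↔ NT s ∧ ∃ γ : SL(2, ℤ), fs γ u = s := by
  unfold fE
  simp only [Finset.mem_filter, Finset.mem_univ, true_and]

theorem FT_planar {m : ℕ} (u : Fin m → Pl) (hu : Good u) (γ : SL(2, ℤ)) (a b c d : Fin m)
    (h : Sep (fs γ u) a b c d) : fo u a b c = fo u a b d := by
  obtain ⟨h1, h2, h3⟩ := (sep_fs u hu γ a b c d).1 h
  have h4 := cc_planar γ (u a) (u b) (u c) (u d) h1 h2 h3
  rw [FT_fo, FT_fo, mul_assoc, mul_assoc,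
    sign_mul (dt (u a) (u b)) (dt (u b) (u c) * dt (u c) (u a)),
    sign_mul (dt (u a) (u b)) (dt (u b) (u d) * dt (u d) (u a))]
  have h5 : SignType.sign (dt (u b) (u c) * dt (u c) (u a)) =
      SignType.sign (dt (u b) (u d) * dt (u d) (u a)) := by
    rcases pos_and_pos_or_neg_and_neg_of_mul_pos h4 with ⟨h6, h7⟩ | ⟨h6, h7⟩
    · rw [sign_pos h6, sign_pos h7]
    · rw [sign_neg h6, sign_neg h7]
  rw [h5]

theorem exists_tree {m : ℕ} (u : Fin m → Pl) (hu : Good u) (l : List (Split m)) (hl : l.Nodup)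
    (hlE : l.toFinset = fE u) : ∃ τ : RTree m, τ.o = fo u ∧ τ.l = l := by
  have hmem : ∀ s, s ∈ l ↔ NT s ∧ ∃ γ : SL(2, ℤ), fs γ u = s := by
    intro s
    rw [← List.mem_toFinset, hlE, FT_fE]
  refine ⟨RTree.mk (fo u) l ?_ (FT_swap u) (FT_rot u) (FT_coc u hu) hl ?_ ?_ ?_ ?_ ?_, rfl, rfl⟩
  · intro a b c hab hbc hac
    rw [FT_fo]
    have hne : dt (u a) (u b) * dt (u b) (u c) * dt (u c) (u a) ≠ 0 :=
      mul_ne_zero (mul_ne_zero (hu.2 a b hab) (hu.2 b c hbc)) (hu.2 c a (Ne.symm hac))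
    rcases lt_or_gt_of_ne hne with h | h
    · right
      rw [sign_neg h]
      rfl
    · left
      rw [sign_pos h]
      rfl
  · intro s hs
    obtain ⟨_, γ, rfl⟩ := (hmem s).1 hs
    exact FT_split u hu γ
  · intro s hs
    exact ((hmem s).1 hs).1
  · intro s hs a b c d h
    obtain ⟨_, γ, rfl⟩ := (hmem s).1 hs
    exact FT_planar u hu γ a b c d h
  · intro a b c d hab hac had hbc hbd hcd
    obtain ⟨γ, hγ⟩ := farey_res (u a) (u b) (u c) (u d) (hu.1 a) (hu.1 b) (hu.1 c) (hu.1 d)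
      (hu.2 a b hab) (hu.2 a c hac) (hu.2 a d had) (hu.2 b c hbc) (hu.2 b d hbd) (hu.2 c d hcd)
    rw [← sep_fs u hu, ← sep_fs u hu, ← sep_fs u hu] at hγ
    refine ⟨fs γ u, (hmem _).2 ⟨?_, γ, rfl⟩, hγ⟩
    rcases hγ with h | h | h
    · exact ⟨a, b, c, d, hab, hcd, h⟩
    · exact ⟨a, c, b, d, hac, hbd, h⟩
    · exact ⟨a, d, b, c, had, hbc, h⟩
  · intro s hs t ht a b c d h1 h2
    obtain ⟨_, γ, rfl⟩ := (hmem s).1 hs
    obtain ⟨_, δ, rfl⟩ := (hmem t).1 ht
    obtain ⟨k1, k2, k3⟩ := (sep_fs u hu γ a b c d).1 h1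
    obtain ⟨k4, k5, k6⟩ := (sep_fs u hu δ a c b d).1 h2
    exact cc_excl γ δ (u a) (u b) (u c) (u d) k1 k2 k3 k4 k5 k6

end SimplVol
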