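import Pool.Agent.H54.RT.Defs

/-!
# Module TB: basic facts on ranked planar trees

* `pull_trans`: the orientations agree by definition. Lists: `l` is restricted, filtered by `NT`, deduplicated, restricted again,
  filtered, deduplicated. Restriction commutes: `resS κ (resS ι s) = resS (κ.trans ι) s` (`rfl`). If `resS κ t` is `NT` then `t` is `NT`
  (`κ` is injective), so the first filter may be dropped: `(l.filter NT).map r |>.filter NT = (l.map r).filter NT` for such `r`
  (induction on `l`). And `((l.dedup).map r).filter p |>.dedup = ((l.map r).filter p).dedup`: both keep the LAST occurrence of every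
  element. Lemma: `(l.dedup.map r).dedup = (l.map r).dedup` (induction on `l`: `List.dedup_cons_of_mem`,
  `List.dedup_cons_of_notMem`, `List.mem_dedup`; if `a ∈ l` then `r a ∈ l.map r`, `r a ∈ l.dedup.map r`), and
  `(l.filter p).dedup = l.dedup.filter p` (`List.dedup_filter` or induction).
* `pull_refl`: `resS (refl) s = s`, all elements are `NT` (`τ.nt`), `List.Nodup.dedup` (`List.dedup_eq_self`).
* `finite`: `τ ↦ (o, l)` is injective (`RTree.ext`); `o` takes values in `{-1, 0, 1}` (`o_zero₁₂` etc. for equal indices), `l` is a list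
  without repetition over a finite type: `Finite {l : List (Split m) // l.Nodup}`. (`Finite.of_injective` into
  `(Fin m → Fin m → Fin m → Set.Icc (-1 : ℤ) 1) × {l : List (Split m) // l.Nodup}`.)
* `ext_of_le_two`: for `m ≤ 2` two of three indices agree, so `o = 0`; `NT s` needs four different points
  (`Sep s a b c d`, `s` given by `f`: `a, b` in one class, `c, d` in the other) so `l = []` for `m ≤ 3`.
* `three_ext`: for `m = 3`: `l = []`, and `o` is determined by `o 0 1 2` (`Fin` cases; `o_swap`, `o_rot`).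
-/

set_option autoImplicit false

open scoped BigOperators Nat

namespace SimplVol

theorem RTree.o_zero₂₃ {m : ℕ} (τ : RTree m) (a b : Fin m) : τ.o a b b = 0 := by
  have := τ.o_swap a b b
  omega

theorem RTree.o_zero₁₂ {m : ℕ} (τ : RTree m) (a b : Fin m) : τ.o a a b = 0 := by
  rw [← τ.o_rot a a b, ← τ.o_rot a b a]
  exact τ.o_zero₂₃ b a

theorem RTree.o_zero₁₃ {m : ℕ} (τ : RTree m) (a b : Fin m) : τ.o a b a = 0 := by
  rw [← τ.o_rot a b a]
  exact τ.o_zero₂₃ b a

theorem RTree.abs_o_le {m : ℕ} (τ : RTree m) (a b c : Fin m) : |τ.o a b c| ≤ 1 := by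
  by_cases h1 : a = b
  · subst h1
    rw [τ.o_zero₁₂]
    norm_num
  by_cases h2 : b = c
  · subst h2
    rw [τ.o_zero₂₃]
    norm_num
  by_cases h3 : a = c
  · subst h3
    rw [τ.o_zero₁₃]
    norm_num
  rcases τ.o_vals a b c h1 h2 h3 with h | h <;> rw [h] <;> norm_num

/-- A division in the list is an equivalence relation. -/
theorem RTree.s_trans {m : ℕ} (τ : RTree m) {s : Split m} (hs : s ∈ τ.l) {a b c : Fin m}
    (h1 : s a b = true) (h2 : s b c = true) : s a c = true := by
  obtain ⟨f, hf⟩ := τ.split s hs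
  rw [hf, beq_iff_eq] at h1 h2 ⊢
  exact h1.trans h2

theorem RTree.s_symm {m : ℕ} (τ : RTree m) {s : Split m} (hs : s ∈ τ.l) (a b : Fin m) :
    s a b = s b a := by
  obtain ⟨f, hf⟩ := τ.split s hs
  rw [hf, hf, Bool.eq_iff_iff, beq_iff_eq, beq_iff_eq]
  exact eq_comm

theorem RTree.s_refl {m : ℕ} (τ : RTree m) {s : Split m} (hs : s ∈ τ.l) (a : Fin m) :
    s a a = true := by
  obtain ⟨f, hf⟩ := τ.split s hs
  rw [hf, beq_iff_eq]

/-- Duplicates may be removed before a map. -/
theorem TB_dedup_map {α β : Type*} [DecidableEq α] [DecidableEq β] (r : α → β) (p : β → Bool)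
    (l : List α) : ((l.dedup.map r).filter p).dedup = ((l.map r).filter p).dedup := by
  induction l with
  | nil => rfl
  | cons a l ih =>
    have hm : p (r a) = true → (r a ∈ (l.dedup.map r).filter p ↔ r a ∈ (l.map r).filter p) := by
      intro _
      simp only [List.mem_filter, List.mem_map, List.mem_dedup]
    by_cases h : a ∈ l
    · rw [List.dedup_cons_of_mem h, ih, List.map_cons]
      by_cases hp : p (r a) = true
      · rw [List.filter_cons_of_pos hp, List.dedup_cons_of_mem]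
        exact List.mem_filter.2 ⟨List.mem_map_of_mem h, hp⟩
      · rw [List.filter_cons_of_neg hp]
    · rw [List.dedup_cons_of_notMem h, List.map_cons, List.map_cons]
      by_cases hp : p (r a) = true
      · rw [List.filter_cons_of_pos hp, List.filter_cons_of_pos hp]
        by_cases h2 : r a ∈ (l.map r).filter p
        · rw [List.dedup_cons_of_mem h2, List.dedup_cons_of_mem ((hm hp).2 h2), ih]
        · rw [List.dedup_cons_of_notMem h2,
            List.dedup_cons_of_notMem (fun h3 => h2 ((hm hp).1 h3)), ih]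
      · rw [List.filter_cons_of_neg hp, List.filter_cons_of_neg hp, ih]

/-- A filter may be dropped before a map. -/
theorem TB_filter_map {α β : Type*} (r : α → β) (q : α → Bool) (p : β → Bool)
    (l : List α) (h : ∀ t, p (r t) = true → q t = true) :
    ((l.filter q).map r).filter p = (l.map r).filter p := by
  induction l with
  | nil => rfl
  | cons a l ih =>
    by_cases hq : q a = true
    · rw [List.filter_cons_of_pos hq, List.map_cons, List.map_cons]
      by_cases hp : p (r a) = true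
      · rw [List.filter_cons_of_pos hp, List.filter_cons_of_pos hp, ih]
      · rw [List.filter_cons_of_neg hp, List.filter_cons_of_neg hp, ih]
    · rw [List.filter_cons_of_neg hq, List.map_cons, List.filter_cons_of_neg, ih]
      intro hp
      exact hq (h a hp)

theorem RTree.pull_trans {j k m : ℕ} (κ : Fin j ↪ Fin k) (ι : Fin k ↪ Fin m) (τ : RTree m) :
    (τ.pull ι).pull κ = τ.pull (κ.trans ι) := by
  refine RTree.ext rfl ?_
  show (((((τ.l.map (resS ι)).filter fun s => decide (NT s)).dedup).map (resS κ)).filter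
    fun s => decide (NT s)).dedup = ((τ.l.map (resS (κ.trans ι))).filter fun s => decide (NT s)).dedup
  rw [TB_dedup_map, TB_filter_map, List.map_map]
  · rfl
  · intro t ht
    rw [decide_eq_true_eq] at ht ⊢
    obtain ⟨a, b, c, d, h1, h2, h3⟩ := ht
    exact ⟨κ a, κ b, κ c, κ d, fun h => h1 (κ.injective h), fun h => h2 (κ.injective h), h3⟩

theorem RTree.pull_refl {m : ℕ} (τ : RTree m) : τ.pull (Function.Embedding.refl _) = τ := by
  refine RTree.ext rfl ?_
  show ((τ.l.map (resS (Function.Embedding.refl _))).filter fun s => decide (NT s)).dedup = τ.l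
  have h1 : τ.l.map (resS (Function.Embedding.refl _)) = τ.l := by
    conv_rhs => rw [← List.map_id τ.l]
    exact List.map_congr_left (fun s _ => rfl)
  rw [h1, List.filter_eq_self.2 (fun s hs => decide_eq_true (τ.nt s hs)), τ.nodup.dedup]

/-- The restriction depends only on the restrictions of the orientation and of the divisions. -/
theorem RTree.pull_congr {k m : ℕ} (τ : RTree m) (ι ι' : Fin k ↪ Fin m)
    (h1 : ∀ a b c, τ.o (ι a) (ι b) (ι c) = τ.o (ι' a) (ι' b) (ι' c))
    (h2 : ∀ s ∈ τ.l, ∀ a b, s (ι a) (ι b) = s (ι' a) (ι' b)) : τ.pull ι = τ.pull ι' := by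
  refine RTree.ext ?_ ?_
  · funext a b c
    exact h1 a b c
  · show ((τ.l.map (resS ι)).filter fun s => decide (NT s)).dedup =
      ((τ.l.map (resS ι')).filter fun s => decide (NT s)).dedup
    rw [List.map_congr_left (g := resS ι') (fun s hs => by
      funext a b
      exact h2 s hs a b)]

instance RTree.finite (m : ℕ) : Finite (RTree m) := by
  classical
  refine Finite.of_injective (β := (Fin m → Fin m → Fin m → Set.Icc (-1 : ℤ) 1) ×
    {l : List (Split m) // l.Nodup})
    (fun τ => (fun a b c => ⟨τ.o a b c, abs_le.1 (τ.abs_o_le a b c)⟩, ⟨τ.l, τ.nodup⟩)) ?_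
  intro τ τ' h
  rw [Prod.mk.injEq] at h
  refine RTree.ext ?_ ?_
  · funext a b c
    have := congrFun (congrFun (congrFun h.1 a) b) c
    exact congrArg Subtype.val this
  · exact congrArg Subtype.val h.2

theorem RTree.l_eq_nil {m : ℕ} (hm : m ≤ 3) (τ : RTree m) : τ.l = [] := by
  rw [List.eq_nil_iff_forall_not_mem]
  intro s hs
  obtain ⟨f, hf⟩ := τ.split s hs
  obtain ⟨a, b, c, d, h1, h2, h3, h4, h5⟩ := τ.nt s hs
  rw [hf, beq_iff_eq] at h3 h4
  rw [hf] at h5
  have h5' : f a ≠ f c := by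
    intro h
    rw [h] at h5
    simp at h5
  have e1 : a ≠ c := fun h => h5' (by rw [h])
  have e2 : a ≠ d := fun h => h5' (by rw [h, h4])
  have e3 : b ≠ c := fun h => h5' (by rw [h3, h])
  have e4 : b ≠ d := fun h => h5' (by rw [h3, h, h4])
  have f1 := Fin.val_ne_of_ne e1
  have f2 := Fin.val_ne_of_ne e2
  have f3 := Fin.val_ne_of_ne e3
  have f4 := Fin.val_ne_of_ne e4
  have f5 := Fin.val_ne_of_ne h1
  have f6 := Fin.val_ne_of_ne h2
  omega

theorem RTree.l_ne_nil {m : ℕ} (hm : 4 ≤ m) (τ : RTree m) : τ.l ≠ [] := by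
  intro h
  have hne : ∀ i j : ℕ, ∀ hi : i < m, ∀ hj : j < m, i ≠ j → (⟨i, hi⟩ : Fin m) ≠ ⟨j, hj⟩ :=
    fun i j hi hj h1 h2 => h1 (congrArg Fin.val h2)
  obtain ⟨s, hs, _⟩ := τ.res ⟨0, by omega⟩ ⟨1, by omega⟩ ⟨2, by omega⟩ ⟨3, by omega⟩
    (hne _ _ _ _ (by omega)) (hne _ _ _ _ (by omega)) (hne _ _ _ _ (by omega))
    (hne _ _ _ _ (by omega)) (hne _ _ _ _ (by omega)) (hne _ _ _ _ (by omega))
  rw [h] at hs
  exact (List.not_mem_nil hs).elim

theorem RTree.ext_of_le_two {m : ℕ} (hm : m ≤ 2) (τ τ' : RTree m) : τ = τ' := by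
  have h0 : ∀ (σ : RTree m) (a b c : Fin m), σ.o a b c = 0 := by
    intro σ a b c
    by_cases h1 : a = b
    · subst h1
      exact σ.o_zero₁₂ a c
    by_cases h2 : b = c
    · subst h2
      exact σ.o_zero₂₃ a b
    by_cases h3 : a = c
    · subst h3
      exact σ.o_zero₁₃ a b
    have f1 := Fin.val_ne_of_ne h1
    have f2 := Fin.val_ne_of_ne h2
    have f3 := Fin.val_ne_of_ne h3
    omega
  refine RTree.ext ?_ ?_
  · funext a b c
    rw [h0, h0]
  · rw [τ.l_eq_nil (by omega), τ'.l_eq_nil (by omega)]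

theorem RTree.three_ext (τ τ' : RTree 3) (h : τ.o 0 1 2 = τ'.o 0 1 2) : τ = τ' := by
  have h1 : ∀ σ : RTree 3, σ.o 1 2 0 = σ.o 0 1 2 ∧ σ.o 2 0 1 = σ.o 0 1 2 ∧
      σ.o 0 2 1 = -σ.o 0 1 2 ∧ σ.o 2 1 0 = -σ.o 0 1 2 ∧ σ.o 1 0 2 = -σ.o 0 1 2 := by
    intro σ
    have e1 := σ.o_rot 0 1 2
    have e2 := σ.o_rot 1 2 0
    have e3 := σ.o_swap 0 1 2
    have e4 := σ.o_rot 0 2 1
    have e5 := σ.o_rot 2 1 0
    refine ⟨e1, by rw [e2, e1], e3, by rw [e4, e3], by rw [e5, e4, e3]⟩
  refine RTree.ext ?_ (by rw [τ.l_eq_nil le_rfl, τ'.l_eq_nil le_rfl])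
  funext a b c
  by_cases g1 : a = b
  · subst g1
    rw [τ.o_zero₁₂, τ'.o_zero₁₂]
  by_cases g2 : b = c
  · subst g2
    rw [τ.o_zero₂₃, τ'.o_zero₂₃]
  by_cases g3 : a = c
  · subst g3
    rw [τ.o_zero₁₃, τ'.o_zero₁₃]
  obtain ⟨t1, t2, t3, t4, t5⟩ := h1 τ
  obtain ⟨u1, u2, u3, u4, u5⟩ := h1 τ'
  have hd : ∀ a b c : Fin 3, a ≠ b → b ≠ c → a ≠ c → (a = 0 ∧ b = 1 ∧ c = 2) ∨
      (a = 1 ∧ b = 2 ∧ c = 0) ∨ (a = 2 ∧ b = 0 ∧ c = 1) ∨ (a = 0 ∧ b = 2 ∧ c = 1) ∨
      (a = 2 ∧ b = 1 ∧ c = 0) ∨ (a = 1 ∧ b = 0 ∧ c = 2) := by decide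
  rcases hd a b c g1 g2 g3 with ⟨rfl, rfl, rfl⟩ | ⟨rfl, rfl, rfl⟩ | ⟨rfl, rfl, rfl⟩ |
    ⟨rfl, rfl, rfl⟩ | ⟨rfl, rfl, rfl⟩ | ⟨rfl, rfl, rfl⟩
  · exact h
  · rw [t1, u1, h]
  · rw [t2, u2, h]
  · rw [t3, u3, h]
  · rw [t4, u4, h]
  · rw [t5, u5, h]

/-- The positively oriented tree with three leaves. -/
def tplus : RTree 3 where
  o a b c := (((b : ℕ) : ℤ) - ((a : ℕ) : ℤ)) * (((c : ℕ) : ℤ) - ((b : ℕ) : ℤ)) *
    (((c : ℕ) : ℤ) - ((a : ℕ) : ℤ)) / 2
  l := []
  o_vals := by decide
  o_swap := by decide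
  o_rot := by decide
  o_coc := by decide
  nodup := List.nodup_nil
  split := by simp
  nt := by simp
  planar := by simp
  res a b c d h1 h2 h3 h4 h5 h6 := by omega
  excl := by simp

theorem tplus_o : tplus.o 0 1 2 = 1 := by decide

/-- The tree with one leaf. -/
def tone : RTree 1 where
  o _ _ _ := 0
  l := []
  o_vals a b _ h _ _ := absurd (Subsingleton.elim a b) h
  o_swap _ _ _ := by simp
  o_rot _ _ _ := rfl
  o_coc _ _ _ _ := by simp
  nodup := List.nodup_nil
  split := by simp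
  nt := by simp
  planar := by simp
  res a b c d h1 h2 h3 h4 h5 h6 := absurd (Subsingleton.elim a b) h1
  excl := by simp

/-- The two trees with three leaves. -/
theorem RTree.three_cases (τ : RTree 3) :
    τ = tplus ∨ τ = tplus.pull (Equiv.swap (0 : Fin 3) 1).toEmbedding := by
  rcases τ.o_vals 0 1 2 (by decide) (by decide) (by decide) with h | h
  · left
    exact RTree.three_ext _ _ (by rw [h, tplus_o])
  · right
    refine RTree.three_ext _ _ ?_
    rw [h]
    decide

end SimplVol
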