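import Pool.Agent.H54.RT.PY
import Pool.Agent.H54.RT.TB
import Pool.Agent.H74.SV.PL

/-!
# Module FY: matrices, Farey divisions (definitions)
-/

set_option autoImplicit false

open scoped BigOperators UpperHalfPlane MatrixGroups
open MeasureTheory

namespace SimplVol

noncomputable instance RTree.fintype (m : ℕ) : Fintype (RTree m) := Fintype.ofFinite _

/-- The real matrix of an integral matrix. -/
noncomputable def tR : SL(2, ℤ) →* SL(2, ℝ) :=
  Matrix.SpecialLinearGroup.map (Int.castRingHom ℝ)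

/-- The product of the two coordinates of the image of a vector. -/
noncomputable def cc (γ : SL(2, ℤ)) (u : Pl) : ℝ := (act (tR γ) u).1 * (act (tR γ) u).2

open Classical in
/-- The division of vectors by the signs of `cc γ`. -/
noncomputable def fs {m : ℕ} (γ : SL(2, ℤ)) (u : Fin m → Pl) : Split m :=
  fun a b => decide (0 < cc γ (u a) * cc γ (u b))

/-- Vectors of irrational slope. -/
def Irr (v : Pl) : Prop := ∀ a b : ℤ, (a ≠ 0 ∨ b ≠ 0) → (a : ℝ) * v.1 + (b : ℝ) * v.2 ≠ 0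

/-- Pairwise independent vectors of irrational slope. -/
def Good {m : ℕ} (u : Fin m → Pl) : Prop :=
  (∀ i, Irr (u i)) ∧ ∀ i j, i ≠ j → dt (u i) (u j) ≠ 0

open Classical in
/-- The orientation of three lines, as an integer. -/
noncomputable def fo {m : ℕ} (u : Fin m → Pl) (a b c : Fin m) : ℤ :=
  if 0 < dt (u a) (u b) * dt (u b) (u c) * dt (u c) (u a) then 1
  else if dt (u a) (u b) * dt (u b) (u c) * dt (u c) (u a) < 0 then -1 else 0

/-- The number of matrices giving a division. -/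
noncomputable def fl {m : ℕ} (u : Fin m → Pl) (s : Split m) : ℝ :=
  (Nat.card {γ : SL(2, ℤ) // fs γ u = s} : ℝ)

open Classical in
/-- The divisions that occur. -/
noncomputable def fE {m : ℕ} (u : Fin m → Pl) : Finset (Split m) :=
  Finset.univ.filter fun s => NT s ∧ ∃ γ : SL(2, ℤ), fs γ u = s

open Classical in
/-- The probability of a ranked tree: the order of the ranks is chosen by successive sampling (highest
rank first) with the weights `fl u`. -/
noncomputable def pr {m : ℕ} (u : Fin m → Pl) (τ : RTree m) : ℝ :=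
  if Good u ∧ τ.o = fo u then
    PE (fl u) (fE u).card (fE u) fun l => if l = τ.l then 1 else 0
  else 0

/-- Pairs of vectors (the columns of a matrix) with determinant in `(0, 1]`. -/
def XX : Set (Pl × Pl) := {A | 0 < dt A.1 A.2 ∧ dt A.1 A.2 ≤ 1}

/-- Multiplication from the left. -/
def lm (g : SL(2, ℝ)) (A : Pl × Pl) : Pl × Pl := (act g A.1, act g A.2)

/-- Multiplication from the right. -/
def rm (g : SL(2, ℝ)) (A : Pl × Pl) : Pl × Pl :=
  ((g 0 0 * A.1.1 + g 1 0 * A.2.1, g 0 0 * A.1.2 + g 1 0 * A.2.2),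
    (g 0 1 * A.1.1 + g 1 1 * A.2.1, g 0 1 * A.1.2 + g 1 1 * A.2.2))

/-- The normalised matrix. -/
noncomputable def sl (A : Pl × Pl) : SL(2, ℝ) :=
  if h : 0 < dt A.1 A.2 then
    ⟨!![A.1.1 / Real.sqrt (dt A.1 A.2), A.2.1 / Real.sqrt (dt A.1 A.2);
        A.1.2 / Real.sqrt (dt A.1 A.2), A.2.2 / Real.sqrt (dt A.1 A.2)], by
      rw [Matrix.det_fin_two_of, div_mul_div_comm, div_mul_div_comm, Real.mul_self_sqrt h.le,
        ← sub_div]
      exact (div_eq_one_iff_eq h.ne').2 (by unfold dt; ring)⟩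
  else 1

/-- Exact fundamental domains (of finite measure) in the space of matrices. -/
structure FDom (Γ : Subgroup SL(2, ℝ)) (R : Set (Pl × Pl)) : Prop where
  meas : MeasurableSet R
  sub : R ⊆ XX
  dom : ∀ A ∈ XX, ∃! γ : Γ, lm (γ : SL(2, ℝ)) A ∈ R
  fin : volume R ≠ ⊤

/-- The average over a fundamental domain. -/
noncomputable def Ev (R : Set (Pl × Pl)) (Φ : SL(2, ℝ) → ℝ) : ℝ :=
  (volume R).toReal⁻¹ * ∫ A in R, Φ (sl A)

/-- The uniform probability measure on an ellipse. -/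
noncomputable def eP (z : ℍ) : Measure Pl := (ENNReal.ofReal Real.pi)⁻¹ • volume.restrict (ell z)

/-- The distribution of the random tree of points of the upper half plane (invariant under
`SL(2, ℤ)` only). -/
noncomputable def NN {m : ℕ} (x : Fin m → ℍ) (τ : RTree m) : ℝ :=
  ∫ v, pr v τ ∂(Measure.pi fun i => eP (x i))

/-- A natural invariant family of random ranked planar binary trees. -/
structure CStar (M : ∀ m : ℕ, (Fin m → ℍ) → RTree m → ℝ) : Prop where
  nonneg : ∀ m x τ, 0 ≤ M m x τ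
  one : ∀ m x, ∑ τ, M m x τ = 1
  inv : ∀ m (g : SL(2, ℝ)) (x : Fin m → ℍ) τ, M m (fun i => g • x i) τ = M m x τ
  nat : ∀ (k m : ℕ) (ι : Fin k ↪ Fin m) (x : Fin m → ℍ) (φ : RTree k → ℝ),
    ∑ τ, M m x τ * φ (τ.pull ι) = ∑ τ', M k (fun i => x (ι i)) τ' * φ τ'
  area : ∀ m (x : Fin m → ℍ) (a b c : Fin m),
    ∑ τ, M m x τ * ((τ.o a b c : ℤ) : ℝ) = area (x a) (x b) (x c) / Real.pi

/-- Natural averages over roundings of points to an orbit of the group `Γ`. -/
structure Rnd (Γ : Subgroup SL(2, ℝ))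
    (κ : ∀ m, (Fin m → ℍ) → ((Fin m → ℍ) → ℝ) →ₗ[ℝ] ℝ) : Prop where
  bdd : ∀ m x φ (C : ℝ), (∀ y, |φ y| ≤ C) → |κ m x φ| ≤ C
  nat : ∀ (k m : ℕ) (ι : Fin k → Fin m) x φ,
    κ m x (fun y => φ fun i => y (ι i)) = κ k (fun i => x (ι i)) φ
  inv : ∀ m x φ (g : SL(2, ℝ)),
    (∀ γ : SL(2, ℝ), γ ∈ Γ → ∀ y : Fin m → ℍ, φ (fun i => γ • y i) = φ y) →
    κ m (fun i => g • x i) φ = κ m x φ
  area : ∀ m x (a b c : Fin m),
    κ m x (fun y => area (y a) (y b) (y c)) = area (x a) (x b) (x c)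

/-- A rounding map with a fundamental domain. -/
structure Rd (Γ : Subgroup SL(2, ℝ)) (R : Set (Pl × Pl)) (ρ : ℍ → ℍ) : Prop where
  fd : FDom Γ R
  equiv : ∀ γ : SL(2, ℝ), γ ∈ Γ → ∀ z, ρ (γ • z) = γ • ρ z
  fin : ∀ z, {w | ∃ A ∈ R, w = ρ (sl A • z)}.Finite
  meas : ∀ z w, MeasurableSet {A : Pl × Pl | ρ (sl A • z) = w}

end SimplVol
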