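import Pool.Agent.H54.RT.RD
import Pool.Agent.H54.RT.SB

/-!
# Module RE: rounding to an orbit

`D`, `r` from `exists_D`. `R = {A ∈ XX | sl A • I ∈ D}`; for `z : ℍ` let `γ_z ∈ Γ` be the unique element with `γ_z • z ∈ D` and `ρ z = γ_z⁻¹ • I`.
* `equiv`: for `γ ∈ Γ`: `γ_{γ z} = γ_z * γ⁻¹` by uniqueness, so `ρ (γ • z) = γ • ρ z`.
* `fd`: `R` is measurable (`smul_sl_meas 1 I`), `R ⊆ XX`; `sl (lm γ A) • I = γ • sl A • I` (`sl_lm`, `mul_smul`) so exactly one `γ ∈ Γ` has `lm γ A ∈ R` (`lm γ A ∈ XX` by `dt_lm`). Finite measure: `R` is bounded: for `g = sl A`, `z = g • I`: `g 0 0 ^ 2 + g 0 1 ^ 2 + g 1 0 ^ 2 + g 1 1 ^ 2 = 2 cosh (dist z I) ≤ 2 cosh r`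
  (`UpperHalfPlane.cosh_dist`: `cosh (dist z w) = 1 + dist (z:ℂ) w ^ 2/(2 * z.im * w.im)`, with `z = (a i + b)/(c i + d)`, `im z = 1/(c² + d²)`, `ad - bc = 1`), and the entries of `A` are the entries of `sl A` times `√(dt A.1 A.2) ≤ 1`; so `R` is a subset of a closed ball (or of a product of intervals) of finite measure.
* `meas`: `{A | ρ (sl A • z) = w} = ⋃ γ ∈ {γ : Γ | γ⁻¹ • I = w}, {A | γ • sl A • z ∈ D}`: countable union (`rd_countable`), `smul_sl_meas γ z`.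
* `fin`: for `A ∈ R` and `z`: with `γ = γ_{sl A • z}`: `dist (γ • sl A • z) I ≤ r` and `dist (sl A • z) I ≤ dist (sl A • z) (sl A • I) + dist (sl A • I) I ≤ dist z I + r`, so `dist (γ • I) I ≤ dist (γ • I) (γ • sl A • z) + r ≤ dist z I + 2 r`: finitely many `γ` (`rd_finite`), hence finitely many values `γ⁻¹ • I`.
-/

set_option autoImplicit false

open scoped UpperHalfPlane MatrixGroups
open MeasureTheory

namespace SimplVol

theorem RE_cosh (g : SL(2, ℝ)) : Real.cosh (dist (g • UpperHalfPlane.I) UpperHalfPlane.I) =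
    (g 0 0 ^ 2 + g 0 1 ^ 2 + g 1 0 ^ 2 + g 1 1 ^ 2) / 2 := by
  have h : g 0 0 * g 1 1 - g 0 1 * g 1 0 = 1 := by
    have h := g.det_coe
    rwa [Matrix.det_fin_two] at h
  have hco : ((g • UpperHalfPlane.I : ℍ) : ℂ) =
      (((g 0 0 : ℝ) : ℂ) * UpperHalfPlane.I + ((g 0 1 : ℝ) : ℂ)) /
        (((g 1 0 : ℝ) : ℂ) * UpperHalfPlane.I + ((g 1 1 : ℝ) : ℂ)) :=
    UpperHalfPlane.coe_specialLinearGroup_apply g UpperHalfPlane.I
  rw [UpperHalfPlane.coe_I] at hco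
  rw [UpperHalfPlane.cosh_dist, UpperHalfPlane.coe_I, UpperHalfPlane.I_im, dist_eq_norm,
    ← Complex.normSq_eq_norm_sq, ← UpperHalfPlane.coe_im, hco]
  revert h
  generalize g 0 0 = a
  generalize g 0 1 = b
  generalize g 1 0 = c
  generalize g 1 1 = d
  intro h
  have hN : 0 < c ^ 2 + d ^ 2 := by
    rcases eq_or_ne c 0 with h0 | h0
    · have hd : d ≠ 0 := by
        rintro rfl
        rw [h0] at h
        simp at h
      positivity
    · positivity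
  have hns : Complex.normSq ((c : ℂ) * Complex.I + (d : ℂ)) = c ^ 2 + d ^ 2 := by
    rw [Complex.normSq_apply]
    simp
    ring
  have hne : (c : ℂ) * Complex.I + (d : ℂ) ≠ 0 := by
    rw [← Complex.normSq_pos, hns]
    exact hN
  have e1 : ((a : ℂ) * Complex.I + (b : ℂ)) / ((c : ℂ) * Complex.I + (d : ℂ)) - Complex.I =
      (((b + c : ℝ) : ℂ) + ((a - d : ℝ) : ℂ) * Complex.I) / ((c : ℂ) * Complex.I + (d : ℂ)) := by
    rw [eq_div_iff hne, sub_mul, div_mul_cancel₀ _ hne]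
    push_cast
    linear_combination (-(c : ℂ)) * Complex.I_sq
  have e2 : Complex.normSq (((b + c : ℝ) : ℂ) + ((a - d : ℝ) : ℂ) * Complex.I) =
      (b + c) ^ 2 + (a - d) ^ 2 := by
    rw [Complex.normSq_apply]
    simp
    ring
  have e3 : (((a : ℂ) * Complex.I + (b : ℂ)) / ((c : ℂ) * Complex.I + (d : ℂ))).im =
      1 / (c ^ 2 + d ^ 2) := by
    rw [Complex.div_im, hns]
    simp
    rw [← sub_div, h, inv_eq_one_div]
  rw [e1, Complex.normSq_div, hns, e2, e3]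
  field_simp
  linear_combination (-2) * h

theorem RE_entries (A : Pl × Pl) (hA : 0 < dt A.1 A.2) (hA1 : dt A.1 A.2 ≤ 1) {r : ℝ}
    (h : dist (sl A • UpperHalfPlane.I) UpperHalfPlane.I ≤ r) :
    A.1.1 ^ 2 + A.1.2 ^ 2 + A.2.1 ^ 2 + A.2.2 ^ 2 ≤ 2 * Real.cosh r := by
  have h1 := RE_cosh (sl A)
  have h2 : Real.cosh (dist (sl A • UpperHalfPlane.I) UpperHalfPlane.I) ≤ Real.cosh r := by
    rw [Real.cosh_le_cosh, abs_of_nonneg dist_nonneg]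
    exact h.trans (le_abs_self r)
  have hs : sl A = ⟨!![A.1.1 / Real.sqrt (dt A.1 A.2), A.2.1 / Real.sqrt (dt A.1 A.2);
        A.1.2 / Real.sqrt (dt A.1 A.2), A.2.2 / Real.sqrt (dt A.1 A.2)], by
      rw [Matrix.det_fin_two_of, div_mul_div_comm, div_mul_div_comm, Real.mul_self_sqrt hA.le,
        ← sub_div]
      exact (div_eq_one_iff_eq hA.ne').2 (by unfold dt; ring)⟩ := by
    unfold sl
    rw [dif_pos hA]
  have e00 : (sl A) 0 0 = A.1.1 / Real.sqrt (dt A.1 A.2) := by rw [hs]; rfl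
  have e01 : (sl A) 0 1 = A.2.1 / Real.sqrt (dt A.1 A.2) := by rw [hs]; rfl
  have e10 : (sl A) 1 0 = A.1.2 / Real.sqrt (dt A.1 A.2) := by rw [hs]; rfl
  have e11 : (sl A) 1 1 = A.2.2 / Real.sqrt (dt A.1 A.2) := by rw [hs]; rfl
  rw [e00, e01, e10, e11] at h1
  have hsq : Real.sqrt (dt A.1 A.2) ^ 2 = dt A.1 A.2 := Real.sq_sqrt hA.le
  simp only [div_pow, hsq] at h1
  rw [h1] at h2
  have h3 : A.1.1 ^ 2 / dt A.1 A.2 + A.2.1 ^ 2 / dt A.1 A.2 + A.1.2 ^ 2 / dt A.1 A.2 +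
      A.2.2 ^ 2 / dt A.1 A.2 = (A.1.1 ^ 2 + A.2.1 ^ 2 + A.1.2 ^ 2 + A.2.2 ^ 2) / dt A.1 A.2 := by
    ring
  rw [h3] at h2
  have h4 : A.1.1 ^ 2 + A.2.1 ^ 2 + A.1.2 ^ 2 + A.2.2 ^ 2 ≤
      (A.1.1 ^ 2 + A.2.1 ^ 2 + A.1.2 ^ 2 + A.2.2 ^ 2) / dt A.1 A.2 := by
    rw [le_div_iff₀ hA]
    have h5 : 0 ≤ A.1.1 ^ 2 + A.2.1 ^ 2 + A.1.2 ^ 2 + A.2.2 ^ 2 := by positivity
    nlinarith
  linarith

theorem RE_bdd (M : ℝ) :
    volume {A : Pl × Pl | A.1.1 ^ 2 + A.1.2 ^ 2 + A.2.1 ^ 2 + A.2.2 ^ 2 ≤ M} ≠ ⊤ := by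
  have hsub : {A : Pl × Pl | A.1.1 ^ 2 + A.1.2 ^ 2 + A.2.1 ^ 2 + A.2.2 ^ 2 ≤ M} ⊆
      Set.Icc (((-(M + 1), -(M + 1)), (-(M + 1), -(M + 1))) : Pl × Pl)
        ((M + 1, M + 1), (M + 1, M + 1)) := by
    intro x hx
    have hx' : x.1.1 ^ 2 + x.1.2 ^ 2 + x.2.1 ^ 2 + x.2.2 ^ 2 ≤ M := hx
    have n1 := sq_nonneg x.1.1
    have n2 := sq_nonneg x.1.2
    have n3 := sq_nonneg x.2.1
    have n4 := sq_nonneg x.2.2
    have key : ∀ y : ℝ, y ^ 2 ≤ M → -(M + 1) ≤ y ∧ y ≤ M + 1 := by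
      intro y hy
      constructor
      · nlinarith [sq_nonneg (y + 1)]
      · nlinarith [sq_nonneg (y - 1)]
    have k1 := key x.1.1 (by linarith)
    have k2 := key x.1.2 (by linarith)
    have k3 := key x.2.1 (by linarith)
    have k4 := key x.2.2 (by linarith)
    rw [Set.mem_Icc]
    exact ⟨⟨⟨k1.1, k2.1⟩, ⟨k3.1, k4.1⟩⟩, ⟨⟨k1.2, k2.2⟩, ⟨k3.2, k4.2⟩⟩⟩
  exact ((measure_mono hsub).trans_lt (isCompact_Icc.measure_lt_top)).ne

theorem exists_rd (Γ : Subgroup SL(2, ℝ)) (hΓ : IsSurfaceGroup Γ) (hc : CompactSpace (Surf Γ)) :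
    ∃ (R : Set (Pl × Pl)) (ρ : ℍ → ℍ), Rd Γ R ρ := by
  obtain ⟨D, r, hDm, hDu, hDr⟩ := exists_D Γ hΓ hc
  choose c hcD hcu using hDu
  have huniq : ∀ (z : ℍ) (γ : Γ), γ • z ∈ D → γ = c z := fun z γ h => hcu z γ h
  have hRX : ∀ A, A ∈ {A : Pl × Pl | A ∈ XX ∧ sl A • UpperHalfPlane.I ∈ D} ↔
      A ∈ XX ∧ sl A • UpperHalfPlane.I ∈ D := fun A => Iff.rfl
  refine ⟨{A | A ∈ XX ∧ sl A • UpperHalfPlane.I ∈ D}, fun z => (c z)⁻¹ • UpperHalfPlane.I,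
    ?_, ?_, ?_, ?_⟩
  · refine ⟨?_, fun A hA => hA.1, ?_, ?_⟩
    · have h1 := smul_sl_meas 1 UpperHalfPlane.I
      simp only [one_smul] at h1
      exact XX_meas.inter (h1 hDm)
    · intro A hA
      have h1 : ∀ γ : Γ, lm (γ : SL(2, ℝ)) A ∈
          {A : Pl × Pl | A ∈ XX ∧ sl A • UpperHalfPlane.I ∈ D} ↔
          γ • (sl A • UpperHalfPlane.I) ∈ D := by
        intro γ
        rw [hRX, SB_lmXX, sl_lm (γ : SL(2, ℝ)) A hA.1, mul_smul]
        exact ⟨fun h => h.2, fun h => ⟨hA, h⟩⟩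
      refine ⟨c (sl A • UpperHalfPlane.I), (h1 _).2 (hcD _), ?_⟩
      intro γ hγ
      exact huniq _ γ ((h1 γ).1 hγ)
    · have hsub : {A : Pl × Pl | A ∈ XX ∧ sl A • UpperHalfPlane.I ∈ D} ⊆
          {A : Pl × Pl | A.1.1 ^ 2 + A.1.2 ^ 2 + A.2.1 ^ 2 + A.2.2 ^ 2 ≤ 2 * Real.cosh r} := by
        intro A hA
        exact RE_entries A hA.1.1 hA.1.2 (hDr _ hA.2)
      exact ((measure_mono hsub).trans_lt (RE_bdd _).lt_top).ne
  · intro γ hγ z
    have h1 : c z * (⟨γ, hγ⟩ : Γ)⁻¹ = c (γ • z) := by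
      refine huniq (γ • z) _ ?_
      have h2 : (c z * (⟨γ, hγ⟩ : Γ)⁻¹) • (γ • z) = c z • z := by
        have h3 : γ • z = (⟨γ, hγ⟩ : Γ) • z := rfl
        rw [h3, smul_smul, mul_assoc, inv_mul_cancel, mul_one]
      rw [h2]
      exact hcD z
    show (c (γ • z))⁻¹ • UpperHalfPlane.I = γ • (c z)⁻¹ • UpperHalfPlane.I
    rw [← h1, mul_inv_rev, inv_inv, mul_smul]
    rfl
  · intro z
    refine ((rd_finite Γ hΓ UpperHalfPlane.I UpperHalfPlane.I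
      (dist z UpperHalfPlane.I + 2 * r)).image fun γ : Γ => γ⁻¹ • UpperHalfPlane.I).subset ?_
    rintro w ⟨A, hA, rfl⟩
    refine ⟨c (sl A • z), ?_, rfl⟩
    rw [Set.mem_ofPred_eq]
    have d1 : dist (c (sl A • z) • (sl A • z)) UpperHalfPlane.I ≤ r := hDr _ (hcD _)
    have d2 : dist (sl A • UpperHalfPlane.I) UpperHalfPlane.I ≤ r := hDr _ hA.2
    have d3 : dist (c (sl A • z) • UpperHalfPlane.I) (c (sl A • z) • (sl A • z)) =
        dist UpperHalfPlane.I (sl A • z) :=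
      dist_smul ((c (sl A • z) : Γ) : SL(2, ℝ)) UpperHalfPlane.I (sl A • z)
    have d4 : dist (sl A • UpperHalfPlane.I) (sl A • z) = dist UpperHalfPlane.I z :=
      dist_smul (sl A) UpperHalfPlane.I z
    have d5 := dist_triangle (c (sl A • z) • UpperHalfPlane.I) (c (sl A • z) • (sl A • z))
      UpperHalfPlane.I
    have d6 := dist_triangle UpperHalfPlane.I (sl A • UpperHalfPlane.I) (sl A • z)
    rw [dist_comm UpperHalfPlane.I (sl A • UpperHalfPlane.I)] at d6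
    rw [dist_comm UpperHalfPlane.I z] at d4
    linarith
  · intro z w
    have hcount : Countable Γ := rd_countable Γ hΓ
    have he : {A : Pl × Pl | (c (sl A • z))⁻¹ • UpperHalfPlane.I = w} =
        ⋃ γ : Γ, ⋃ (_ : γ⁻¹ • UpperHalfPlane.I = w),
          (fun A : Pl × Pl => (γ : SL(2, ℝ)) • sl A • z) ⁻¹' D := by
      ext A
      simp only [Set.mem_iUnion, Set.mem_preimage, Set.mem_ofPred_eq]
      constructor
      · intro h
        exact ⟨c (sl A • z), h, hcD _⟩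
      · rintro ⟨γ, h1, h2⟩
        rw [← huniq (sl A • z) γ h2]
        exact h1
    show MeasurableSet {A : Pl × Pl | (c (sl A • z))⁻¹ • UpperHalfPlane.I = w}
    rw [he]
    exact MeasurableSet.iUnion fun γ => MeasurableSet.iUnion fun _ =>
      (smul_sl_meas (γ : SL(2, ℝ)) z) hDm

end SimplVol
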