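import Pool.Agent.H54.RT.KP
import Pool.Agent.H54.RT.RE
import Pool.Agent.H54.RT.ZX
import Pool.Agent.H74.SV.AR

/-!
# Module KQ: the average of the area of the rounded triangle

`area_coc`: `area b c d - area a c d + area a b d - area a b c = 0` (unfold, `sarg_swap`, `ring`).
`Rd Γ R ρ`, `κ` as in `exists_kap`. Fix `x₀ x₁ x₂ : ℍ`, for `a ∈ SL(2, ℝ)` let `a_i = a • x_i`, `r_i = ρ (a • x_i)`. For `y₀ y₁ : ℍ` put `h a = area (a • y₀) (ρ (a • y₀)) (ρ (a • y₁)) - area (a • y₀) (a • y₁) (ρ (a • y₁))` and `P y₀ y₁ = Ev R (h)`.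
* `h` is bounded by `2π` (`abs_area_lt`), measurable along `sl` (`sl A • y` is measurable (`smul_sl_meas`), `ρ (sl A • y)` takes countably many values on measurable sets (see module KP: use `kp_meas`-like arguments: for fixed `v`, `A ↦ area (sl A • y₀) v v'` is continuous in `sl A • y₀`, hence measurable: `area` is a continuous/measurable function of its arguments:
  `sarg_eq_arctan`), so it is measurable: e.g. write `A ↦ (sl A • y₀, sl A • y₁, ρ (sl A • y₀), ρ (sl A • y₁))`; it suffices that `A ↦ ρ (sl A • y)` is measurable into `ℍ`: `kp_meas` for the functions `φ = re`, `φ = im` of one point (`m = 1`)).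
* `P (g • y₀) (g • y₁) = P y₀ y₁` by `Ev_inv` (`h (γ * a) = h a` by `area_smul` and `Rd.equiv`).
* `P y₁ y₀ = - P y₀ y₁`: `h_{y₀,y₁} + h_{y₁,y₀} = area a₀ r₀ r₁ - area a₀ a₁ r₁ + area a₁ r₁ r₀ - area a₁ a₀ r₀ = 0` by `area_coc a₀ a₁ r₀ r₁` and antisymmetry. With `swap_smul y₀ y₁` (`g • y₀ = y₁`, `g • y₁ = y₀`): `P y₁ y₀ = P y₀ y₁`. So `P = 0`.
* Prism: `area r₀ r₁ r₂ - area a₀ a₁ a₂ = ± (h_{x₁,x₂} - h_{x₀,x₂} + h_{x₀,x₁})` (a combination of instances of `area_coc`; check: the instances for `(a₀, r₀, r₁, r₂)`, `(a₀, a₁, r₁, r₂)`, `(a₀, a₁, a₂, r₂)`; `linarith`/`linear_combination` after unfolding `area` in terms of `sarg` and using antisymmetry). `area a₀ a₁ a₂ = area x₀ x₁ x₂` (`area_smul`).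
  So `Ev R (area r₀ r₁ r₂) = area x₀ x₁ x₂` (`Ev_add`, `Ev_smul`, `Ev_const`, `Ev_int`).
-/

set_option autoImplicit false

open scoped BigOperators UpperHalfPlane MatrixGroups
open MeasureTheory

namespace SimplVol

theorem area_coc (a b c d : ℍ) : area b c d - area a c d + area a b d - area a b c = 0 := by
  have h1 := sarg_swap b d
  have h2 := sarg_swap a c
  unfold area
  rw [h1, h2]
  ring

/-- real and imaginary part are measurable -/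
def KQ_MM (f : Pl × Pl → ℍ) : Prop :=
  (Measurable fun A => (f A).re) ∧ Measurable fun A => (f A).im

theorem KQ_sarg_meas {f g : Pl × Pl → ℍ} (hf : KQ_MM f) (hg : KQ_MM g) :
    Measurable fun A => sarg (f A) (g A) := by
  simp only [sarg_eq_arctan]
  exact Real.measurable_arctan.comp ((hg.1.sub hf.1).div (hf.2.add hg.2))

theorem KQ_area_meas {f g k : Pl × Pl → ℍ} (hf : KQ_MM f) (hg : KQ_MM g) (hk : KQ_MM k) :
    Measurable fun A => area (f A) (g A) (k A) := by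
  unfold area
  exact (((KQ_sarg_meas hf hg).add (KQ_sarg_meas hg hk)).add (KQ_sarg_meas hk hf)).const_mul 2

theorem KQ_sl_meas (y : ℍ) : KQ_MM fun A => sl A • y := by
  have h := smul_sl_meas 1 y
  simp only [one_smul] at h
  exact ⟨UpperHalfPlane.continuous_re.measurable.comp h,
    UpperHalfPlane.continuous_im.measurable.comp h⟩

theorem KQ_rho_meas {Γ : Subgroup SL(2, ℝ)} {R : Set (Pl × Pl)} {ρ : ℍ → ℍ} [Countable Γ]
    (h : Rd Γ R ρ) (y : ℍ) : KQ_MM fun A => ρ (sl A • y) :=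
  ⟨kp_meas h (m := 1) (fun _ => y) (fun v => (v 0).re),
    kp_meas h (m := 1) (fun _ => y) (fun v => (v 0).im)⟩

/-- the prism function -/
noncomputable def KQ_h (ρ : ℍ → ℍ) (y₀ y₁ : ℍ) (a : SL(2, ℝ)) : ℝ :=
  area (a • y₀) (ρ (a • y₀)) (ρ (a • y₁)) - area (a • y₀) (a • y₁) (ρ (a • y₁))

section KQ

variable {Γ : Subgroup SL(2, ℝ)} {R : Set (Pl × Pl)} {ρ : ℍ → ℍ}

theorem KQ_h_meas [Countable Γ] (h : Rd Γ R ρ) (y₀ y₁ : ℍ) :
    Measurable fun A => KQ_h ρ y₀ y₁ (sl A) :=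
  (KQ_area_meas (KQ_sl_meas y₀) (KQ_rho_meas h y₀) (KQ_rho_meas h y₁)).sub
    (KQ_area_meas (KQ_sl_meas y₀) (KQ_sl_meas y₁) (KQ_rho_meas h y₁))

theorem KQ_h_int [Countable Γ] (h : Rd Γ R ρ) (y₀ y₁ : ℍ) :
    IntegrableOn (fun A => KQ_h ρ y₀ y₁ (sl A)) R := by
  refine Ev_int h.fd (KQ_h ρ y₀ y₁) (KQ_h_meas h y₀ y₁) (Real.pi + Real.pi) fun A _ => ?_
  unfold KQ_h
  refine (abs_sub _ _).trans (add_le_add (abs_area_lt _ _ _).le (abs_area_lt _ _ _).le)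

theorem KQ_h_inv [Countable Γ] (h : Rd Γ R ρ) (y₀ y₁ : ℍ) (g : SL(2, ℝ)) :
    Ev R (KQ_h ρ (g • y₀) (g • y₁)) = Ev R (KQ_h ρ y₀ y₁) := by
  rw [← Ev_inv h.fd (KQ_h ρ y₀ y₁) (KQ_h_meas h y₀ y₁) ?_ g]
  · congr 1
    funext a
    unfold KQ_h
    simp only [mul_smul]
  · intro γ hγ a
    unfold KQ_h
    simp only [mul_smul, h.equiv γ hγ, area_smul]

theorem KQ_h_anti (ρ : ℍ → ℍ) (y₀ y₁ : ℍ) (a : SL(2, ℝ)) :
    KQ_h ρ y₁ y₀ a = (-1) * KQ_h ρ y₀ y₁ a := by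
  unfold KQ_h
  generalize a • y₀ = a₀
  generalize a • y₁ = a₁
  generalize ρ a₀ = r₀
  generalize ρ a₁ = r₁
  have s1 := sarg_swap a₀ a₁
  have s2 := sarg_swap r₀ r₁
  have s3 := sarg_swap a₀ r₀
  have s4 := sarg_swap a₀ r₁
  have s5 := sarg_swap a₁ r₀
  have s6 := sarg_swap a₁ r₁
  unfold area
  linarith

theorem KQ_h_zero [Countable Γ] (h : Rd Γ R ρ) (y₀ y₁ : ℍ) : Ev R (KQ_h ρ y₀ y₁) = 0 := by
  obtain ⟨g, h1, h2⟩ := swap_smul y₀ y₁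
  have e1 := KQ_h_inv h y₀ y₁ g
  rw [h1, h2] at e1
  have e2 : Ev R (KQ_h ρ y₁ y₀) = (-1) * Ev R (KQ_h ρ y₀ y₁) := by
    rw [← Ev_smul]
    congr 1
    funext a
    exact KQ_h_anti ρ y₀ y₁ a
  linarith

end KQ

theorem kq_area {Γ : Subgroup SL(2, ℝ)} {R : Set (Pl × Pl)} {ρ : ℍ → ℍ} [Countable Γ]
    (h : Rd Γ R ρ) (x₀ x₁ x₂ : ℍ) :
    Ev R (fun a => area (ρ (a • x₀)) (ρ (a • x₁)) (ρ (a • x₂))) = area x₀ x₁ x₂ := by
  have hfun : (fun a : SL(2, ℝ) => area (ρ (a • x₀)) (ρ (a • x₁)) (ρ (a • x₂))) =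
      fun a => area x₀ x₁ x₂ + (KQ_h ρ x₀ x₁ a + (KQ_h ρ x₁ x₂ a + (-1) * KQ_h ρ x₀ x₂ a)) := by
    funext a
    rw [← area_smul a x₀ x₁ x₂]
    unfold KQ_h
    generalize a • x₀ = a₀
    generalize a • x₁ = a₁
    generalize a • x₂ = a₂
    generalize ρ a₀ = r₀
    generalize ρ a₁ = r₁
    generalize ρ a₂ = r₂
    have c1 := area_coc a₀ r₀ r₁ r₂
    have c2 := area_coc a₀ a₁ r₁ r₂
    have c3 := area_coc a₀ a₁ a₂ r₂
    linarith
  have i1 : IntegrableOn (fun A => (fun _ : SL(2, ℝ) => area x₀ x₁ x₂) (sl A)) R :=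
    Ev_int h.fd (fun _ => area x₀ x₁ x₂) measurable_const |area x₀ x₁ x₂| fun A _ => le_refl _
  have i01 := KQ_h_int h x₀ x₁
  have i12 := KQ_h_int h x₁ x₂
  have i02 := (KQ_h_int h x₀ x₂).const_mul (-1)
  rw [hfun, Ev_add (fun _ => area x₀ x₁ x₂)
    (fun a => KQ_h ρ x₀ x₁ a + (KQ_h ρ x₁ x₂ a + (-1) * KQ_h ρ x₀ x₂ a)) i1
    (i01.add (i12.add i02)),
    Ev_add (fun a => KQ_h ρ x₀ x₁ a) (fun a => KQ_h ρ x₁ x₂ a + (-1) * KQ_h ρ x₀ x₂ a) i01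
    (i12.add i02),
    Ev_add (fun a => KQ_h ρ x₁ x₂ a) (fun a => (-1) * KQ_h ρ x₀ x₂ a) i12 i02,
    Ev_smul (-1) (fun a => KQ_h ρ x₀ x₂ a), Ev_const h.fd]
  have z01 := KQ_h_zero h x₀ x₁
  have z12 := KQ_h_zero h x₁ x₂
  have z02 := KQ_h_zero h x₀ x₂
  rw [z01, z12, z02]
  ring

theorem exists_rnd (Γ : Subgroup SL(2, ℝ)) (hΓ : IsSurfaceGroup Γ) (hc : CompactSpace (Surf Γ)) :
    ∃ κ : ∀ m, (Fin m → ℍ) → ((Fin m → ℍ) → ℝ) →ₗ[ℝ] ℝ, Rnd Γ κ := by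
  have hcount : Countable Γ := rd_countable Γ hΓ
  obtain ⟨R, ρ, hRd⟩ := exists_rd Γ hΓ hc
  obtain ⟨κ, h1, h2, h3, h4⟩ := exists_kap hRd
  refine ⟨κ, ⟨h2, h3, h4, ?_⟩⟩
  intro m x a b c
  rw [h1]
  exact kq_area hRd (x a) (x b) (x c)

end SimplVol
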