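import Pool.Agent.H54.RT.FY
import Pool.Agent.H74.SV.CP

/-!
# Module KB: Hahn-Banach

* `norm1` is a seminorm: `norm1_add`, `norm1_smul` (`Finsupp.sum` over the union of the supports; the private lemmas of `Pool/Agent/H74/SV/NM.lean` show how), `norm1 w ≥ 0`, `norm1 (single σ a) = |a|`.
* `volPair Γ` is linear: `volL Γ := Finsupp.linearCombination ℝ (fun σ => vol n (fun i j => liftVert ..))`, `volPair Γ w = volL Γ w` (`Finsupp.linearCombination_apply`).
* `exists_dual`: `exists_extension_of_le_sublinear` for the subspace `ker (boundary)`, `f = C • volL` restricted, `N = norm1` gives `g` linear with `g = C volPair` on cycles and `g w ≤ norm1 w` for all `w`; apply it to `-w`: `|g w| ≤ norm1 w`. The functional `g - C volL` vanishes on `ker (boundary)`, so it is `B ∘ boundary` for a linear `B`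
  (`LinearMap.range_dualMap_eq_dualAnnihilator_ker`, `LinearMap.dualMap_apply'`; or `LinearMap.exists_extend` of the induced map on the range: `LinearMap.quotKerEquivRange`, `Submodule.liftQ`).
-/

set_option autoImplicit false

open scoped BigOperators UpperHalfPlane MatrixGroups

namespace SimplVol

private theorem KB_eq {p : ℕ} {X : Type} [TopologicalSpace X] (c : Chain p X)
    (S : Finset (Sing p X)) (hS : c.support ⊆ S) : norm1 c = ∑ σ ∈ S, |c σ| := by
  unfold norm1
  exact Finsupp.sum_of_support_subset c hS _ (fun _ _ => abs_zero)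

private theorem KB_add {p : ℕ} {X : Type} [TopologicalSpace X] (c c' : Chain p X) :
    norm1 (c + c') ≤ norm1 c + norm1 c' := by
  classical
  rw [KB_eq c (c.support ∪ c'.support) Finset.subset_union_left,
    KB_eq c' (c.support ∪ c'.support) Finset.subset_union_right,
    KB_eq (c + c') (c.support ∪ c'.support) Finsupp.support_add, ← Finset.sum_add_distrib]
  refine Finset.sum_le_sum fun σ _ => ?_
  rw [Finsupp.add_apply]
  exact abs_add_le _ _

theorem norm1_single' {p : ℕ} {Y : Type} [TopologicalSpace Y] (σ : Sing p Y) (a : ℝ) :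
    norm1 (Finsupp.single σ a) = |a| := by
  unfold norm1
  exact Finsupp.sum_single_index abs_zero

theorem norm1_smul' {p : ℕ} {Y : Type} [TopologicalSpace Y] (a : ℝ) (w : Chain p Y) :
    norm1 (a • w) = |a| * norm1 w := by
  rw [KB_eq (a • w) w.support Finsupp.support_smul, KB_eq w w.support subset_rfl, Finset.mul_sum]
  refine Finset.sum_congr rfl fun σ _ => ?_
  rw [Finsupp.smul_apply, smul_eq_mul, abs_mul]

/-- `volPair` as a linear map. -/
private noncomputable def KB_volL {n : ℕ} (Γ : Fin n → Subgroup SL(2, ℝ)) :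
    Chain (n * 2 + 1) (∀ j, Surf (Γ j)) →ₗ[ℝ] ℝ :=
  Finsupp.linearCombination ℝ fun σ => vol n fun i j => liftVert (Γ j) ((proj Γ j).comp σ) i

private theorem KB_volL_eq {n : ℕ} (Γ : Fin n → Subgroup SL(2, ℝ))
    (w : Chain (n * 2 + 1) (∀ j, Surf (Γ j))) : KB_volL Γ w = volPair Γ w := by
  unfold KB_volL volPair
  rw [Finsupp.linearCombination_apply]
  simp only [smul_eq_mul]

theorem volPair_smul' {n : ℕ} (Γ : Fin n → Subgroup SL(2, ℝ)) (a : ℝ)
    (w : Chain (n * 2 + 1) (∀ j, Surf (Γ j))) : volPair Γ (a • w) = a * volPair Γ w := by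
  rw [← KB_volL_eq, ← KB_volL_eq, map_smul, smul_eq_mul]

theorem exists_dual {n : ℕ} (Γ : Fin n → Subgroup SL(2, ℝ)) (C : ℝ)
    (hC : ∀ w : Chain (n * 2 + 1) (∀ j, Surf (Γ j)), boundary (n * 2) _ w = 0 →
      C * volPair Γ w ≤ norm1 w) :
    ∃ (g : Chain (n * 2 + 1) (∀ j, Surf (Γ j)) →ₗ[ℝ] ℝ)
      (B : Chain (n * 2) (∀ j, Surf (Γ j)) →ₗ[ℝ] ℝ),
      (∀ w, |g w| ≤ norm1 w) ∧ ∀ w, g w = C * volPair Γ w + B (boundary (n * 2) _ w) := by
  obtain ⟨g, hg1, hg2⟩ := exists_extension_of_le_sublinear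
    (⟨LinearMap.ker (boundary (n * 2) (∀ j, Surf (Γ j))),
      (C • KB_volL Γ).domRestrict (LinearMap.ker (boundary (n * 2) (∀ j, Surf (Γ j))))⟩ :
        Chain (n * 2 + 1) (∀ j, Surf (Γ j)) →ₗ.[ℝ] ℝ) norm1
    (fun c hc x => by rw [norm1_smul', abs_of_pos hc]) (fun x y => KB_add x y)
    (fun x => by
      change (C • KB_volL Γ) (x : Chain (n * 2 + 1) (∀ j, Surf (Γ j))) ≤ norm1 _
      rw [LinearMap.smul_apply, smul_eq_mul, KB_volL_eq]
      exact hC _ (LinearMap.mem_ker.1 x.2))
  have hmem : g - C • KB_volL Γ ∈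
      (LinearMap.ker (boundary (n * 2) (∀ j, Surf (Γ j)))).dualAnnihilator := by
    rw [Submodule.mem_dualAnnihilator]
    intro w hw
    rw [LinearMap.sub_apply, sub_eq_zero]
    exact hg1 ⟨w, hw⟩
  rw [← LinearMap.range_dualMap_eq_dualAnnihilator_ker] at hmem
  obtain ⟨B, hB⟩ := hmem
  refine ⟨g, B, fun w => ?_, fun w => ?_⟩
  · rw [abs_le]
    refine ⟨?_, hg2 w⟩
    have h1 := hg2 (-w)
    have h2 : norm1 (-w) = norm1 w := by
      have h3 := norm1_smul' (-1) w
      rwa [neg_one_smul, abs_neg, abs_one, one_mul] at h3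
    rw [map_neg, h2] at h1
    linarith
  · have h1 := congrArg (fun f => f w) hB
    simp only [LinearMap.dualMap_apply, LinearMap.sub_apply, LinearMap.smul_apply, smul_eq_mul,
      KB_volL_eq] at h1
    linarith

end SimplVol
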