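import Pool.Agent.H54.RT.SS
import Pool.Agent.H54.RT.KB
import Pool.Agent.H74.SV.AR

/-!
# Module SQ: the invariant cochains of a functional

With `st` from `exists_straight`: `stq Γ x : Sing p (∀ j, Surf (Γ j))` is `t ↦ fun j => Quotient.mk _ (st p (fun i => x i j) t)` (continuous: `continuous_pi`, `continuous_quotient_mk'`).
* `stq Γ (fun i j => γ j • x i j) = stq Γ x` for `γ j ∈ Γ j` (`Quotient.sound`, orbit relation). `(stq Γ x).comp (faceMap p i) = stq Γ (fun l => x (i.succAbove l))`.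
* the `j`-th component of `stq Γ x` has the lift `st p (fun i => x i j)`, so by `liftVert_spec` there is `γ j ∈ Γ j` with `liftVert (Γ j) ((proj Γ j).comp (stq Γ x)) i = γ j • x i j`; `vol` is invariant (`area_smul`), so `volPair Γ (single (stq Γ x) 1) = vol n x`.
* With `g`, `B` from `exists_dual` put `f x = g (single (stq Γ x) 1)`, `β x = B (single (stq Γ x) 1)`. `|f x| ≤ norm1 (single _ 1) = 1`. `boundary (single σ 1) = ∑_i (-1)^i single (σ.comp (faceMap _ i)) 1` (`Finsupp.linearCombination_single`), so `f x = C vol n x + ∑_i (-1)^i β (x ∘ i.succAbove)`.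
-/

set_option autoImplicit false

open scoped BigOperators UpperHalfPlane MatrixGroups

namespace SimplVol

theorem vol_smul' {n : ℕ} (g : Fin n → SL(2, ℝ)) (x : Fin (n * 2 + 1) → Fin n → ℍ) :
    vol n (fun i j => g j • x i j) = vol n x := by
  unfold vol
  congr 1
  refine Finset.sum_congr rfl fun σ _ => ?_
  congr 1
  exact Finset.prod_congr rfl fun j _ => area_smul _ _ _ _

/-- The straight singular simplex of the quotient. -/
private noncomputable def SQ_stq (st : ∀ p : ℕ, (Fin p → ℍ) → Sing p ℍ) {n : ℕ}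
    (Γ : Fin n → Subgroup SL(2, ℝ)) {p : ℕ} (x : Fin p → Fin n → ℍ) :
    Sing p (∀ j, Surf (Γ j)) :=
  ⟨fun t j => Quotient.mk _ (st p (fun i => x i j) t),
    continuous_pi fun j => continuous_quotient_mk'.comp (st p fun i => x i j).continuous⟩

private theorem SQ_stq_apply (st : ∀ p : ℕ, (Fin p → ℍ) → Sing p ℍ) {n : ℕ}
    (Γ : Fin n → Subgroup SL(2, ℝ)) {p : ℕ} (x : Fin p → Fin n → ℍ) (t : stdSimplex ℝ (Fin p))
    (j : Fin n) : SQ_stq st Γ x t j = Quotient.mk _ (st p (fun i => x i j) t) := rfl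

private theorem SQ_inv (st : ∀ p : ℕ, (Fin p → ℍ) → Sing p ℍ)
    (h2 : ∀ (p : ℕ) (g : SL(2, ℝ)) (x : Fin p → ℍ) (t : stdSimplex ℝ (Fin p)),
      st p (fun i => g • x i) t = g • st p x t) {n : ℕ}
    (Γ : Fin n → Subgroup SL(2, ℝ)) {p : ℕ} (x : Fin p → Fin n → ℍ)
    (γ : Fin n → SL(2, ℝ)) (hγ : ∀ j, γ j ∈ Γ j) :
    SQ_stq st Γ (fun i j => γ j • x i j) = SQ_stq st Γ x := by
  ext t j
  rw [SQ_stq_apply, SQ_stq_apply, h2]
  refine Quotient.sound ?_
  change (MulAction.orbitRel (Γ j) ℍ) _ _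
  rw [MulAction.orbitRel_apply]
  exact ⟨⟨γ j, hγ j⟩, rfl⟩

private theorem SQ_face (st : ∀ p : ℕ, (Fin p → ℍ) → Sing p ℍ)
    (h3 : ∀ (p : ℕ) (x : Fin (p + 1) → ℍ) (i : Fin (p + 1)),
      (st (p + 1) x).comp (faceMap p i) = st p fun l => x (i.succAbove l)) {n : ℕ}
    (Γ : Fin n → Subgroup SL(2, ℝ)) {p : ℕ} (x : Fin (p + 1) → Fin n → ℍ) (i : Fin (p + 1)) :
    (SQ_stq st Γ x).comp (faceMap p i) = SQ_stq st Γ fun l => x (i.succAbove l) := by
  ext t j
  rw [ContinuousMap.comp_apply, SQ_stq_apply, SQ_stq_apply]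
  have h := congrArg (fun f : Sing p ℍ => f t) (h3 p (fun l => x l j) i)
  simp only [ContinuousMap.comp_apply] at h
  rw [h]

private theorem SQ_vol (st : ∀ p : ℕ, (Fin p → ℍ) → Sing p ℍ)
    (h1 : ∀ (p : ℕ) (x : Fin p → ℍ) (i : Fin p), st p x (stdSimplex.vertex i) = x i) {n : ℕ}
    (Γ : Fin n → Subgroup SL(2, ℝ)) (hΓ : ∀ j, IsSurfaceGroup (Γ j))
    (x : Fin (n * 2 + 1) → Fin n → ℍ) :
    volPair Γ (Finsupp.single (SQ_stq st Γ x) 1) = vol n x := by
  unfold volPair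
  rw [Finsupp.sum_single_index (by simp), one_mul]
  have H : ∀ j, ∃ γ : Γ j, ∀ i, liftVert (Γ j) ((proj Γ j).comp (SQ_stq st Γ x)) i =
      γ • st (n * 2 + 1) (fun i => x i j) (stdSimplex.vertex i) := fun j =>
    liftVert_spec (Γ j) (hΓ j) _ (st (n * 2 + 1) fun i => x i j) fun t => rfl
  choose γ hγ using H
  have e : (fun i j => liftVert (Γ j) ((proj Γ j).comp (SQ_stq st Γ x)) i) =
      fun i j => ((γ j : SL(2, ℝ))) • x i j := by
    funext i j
    rw [hγ j i, h1]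
    rfl
  rw [e, vol_smul']

theorem exists_cochain {n : ℕ} (Γ : Fin n → Subgroup SL(2, ℝ)) (hΓ : ∀ j, IsSurfaceGroup (Γ j))
    (C : ℝ) (hC : ∀ w : Chain (n * 2 + 1) (∀ j, Surf (Γ j)), boundary (n * 2) _ w = 0 →
      C * volPair Γ w ≤ norm1 w) :
    ∃ (f : (Fin (n * 2 + 1) → Fin n → ℍ) → ℝ) (β : (Fin (n * 2) → Fin n → ℍ) → ℝ),
      (∀ x, |f x| ≤ 1) ∧
      (∀ γ : Fin n → SL(2, ℝ), (∀ j, γ j ∈ Γ j) → ∀ x, f (fun i j => γ j • x i j) = f x) ∧
      (∀ γ : Fin n → SL(2, ℝ), (∀ j, γ j ∈ Γ j) → ∀ x, β (fun i j => γ j • x i j) = β x) ∧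
      ∀ x, f x = C * vol n x +
        ∑ i : Fin (n * 2 + 1), (-1 : ℝ) ^ (i : ℕ) * β fun l => x (i.succAbove l) := by
  obtain ⟨st, h1, h2, h3⟩ := exists_straight
  obtain ⟨g, B, hg, hB⟩ := exists_dual Γ C hC
  refine ⟨fun x => g (Finsupp.single (SQ_stq st Γ x) 1),
    fun x => B (Finsupp.single (SQ_stq st Γ x) 1), fun x => ?_, fun γ hγ x => ?_,
    fun γ hγ x => ?_, fun x => ?_⟩
  · refine (hg _).trans ?_
    rw [norm1_single', abs_one]
  · change g (Finsupp.single (SQ_stq st Γ fun i j => γ j • x i j) 1) = _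
    rw [SQ_inv st h2 Γ x γ hγ]
  · change B (Finsupp.single (SQ_stq st Γ fun i j => γ j • x i j) 1) = _
    rw [SQ_inv st h2 Γ x γ hγ]
  · change g (Finsupp.single (SQ_stq st Γ x) 1) = _
    rw [hB, SQ_vol st h1 Γ hΓ]
    congr 1
    rw [boundary, Finsupp.linearCombination_single, one_smul, map_sum]
    refine Finset.sum_congr rfl fun i _ => ?_
    rw [map_smul, smul_eq_mul, SQ_face st h3]

end SimplVol
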