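import Pool.Agent.H54.RT.KI
import Pool.Agent.H54.RT.KQ
import Pool.Agent.H54.RT.SQ

/-!
# Module GF: invariant cochains on the product of upper half planes

`f`, `β` from `exists_cochain`, `κ j` from `exists_rnd (Γ j)` (choose for every `j`). `F = KM n (n*2+1) κ f`, `B = KM n (n*2) κ β`.
`|F| ≤ 1`: `KM_bdd`. Invariance: `KM_inv`. `F x = C vol n x + ∑ (-1)^i B (x ∘ i.succAbove)`: `f = fun x => C * vol n x + ∑ ..` (funext), `KM_add`, `KM_smul`, `KM_vol`, `KM_sum`, `KM_smul`, `KM_nat` with `ι = i.succAbove`.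
-/

set_option autoImplicit false

open scoped BigOperators UpperHalfPlane MatrixGroups

namespace SimplVol

theorem exists_inv {n : ℕ} (Γ : Fin n → Subgroup SL(2, ℝ)) (hΓ : ∀ j, IsSurfaceGroup (Γ j))
    (hc : ∀ j, CompactSpace (Surf (Γ j))) (C : ℝ)
    (hC : ∀ w : Chain (n * 2 + 1) (∀ j, Surf (Γ j)), boundary (n * 2) _ w = 0 →
      C * volPair Γ w ≤ norm1 w) :
    ∃ (F : (Fin (n * 2 + 1) → Fin n → ℍ) → ℝ) (B : (Fin (n * 2) → Fin n → ℍ) → ℝ),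
      (∀ x, |F x| ≤ 1) ∧ InvN F ∧ InvN B ∧ ∀ x, F x = C * vol n x +
        ∑ i : Fin (n * 2 + 1), (-1 : ℝ) ^ (i : ℕ) * B fun l => x (i.succAbove l) := by
  obtain ⟨f, β, hf, hfi, hβi, hfβ⟩ := exists_cochain Γ hΓ C hC
  choose κ hκ using fun j => exists_rnd (Γ j) (hΓ j) (hc j)
  refine ⟨KM n (n * 2 + 1) κ f, KM n (n * 2) κ β, fun x => KM_bdd Γ κ hκ f 1 hf x,
    fun g x => KM_inv Γ κ hκ f hfi g x, fun g x => KM_inv Γ κ hκ β hβi g x, fun x => ?_⟩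
  have e : f = fun x => C * vol n x +
      ∑ i : Fin (n * 2 + 1), (-1 : ℝ) ^ (i : ℕ) * β fun l => x (i.succAbove l) := funext hfβ
  conv_lhs => rw [e]
  rw [KM_add, KM_smul, KM_vol Γ κ hκ,
    KM_sum κ Finset.univ (fun (i : Fin (n * 2 + 1)) (y : Fin (n * 2 + 1) → Fin n → ℍ) =>
      (-1 : ℝ) ^ (i : ℕ) * β fun l => y (i.succAbove l))]
  congr 1
  refine Finset.sum_congr rfl fun i _ => ?_
  rw [KM_smul, KM_nat Γ κ hκ i.succAbove]

end SimplVol
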