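import Mathlib

/-!
# Module PS: permutations and faces

* `exists_perm_face`: `i.succAbove j = (i.cycleRange.symm) j.succ` (`Fin.cycleRange_symm_succ`), `sign i.cycleRange = (-1)^i`
  (`Fin.sign_cycleRange`), `i.cycleRange i = 0` (`Fin.cycleRange_self`). Put `ρ = (σ c).cycleRange * σ * c.cycleRange⁻¹ : Perm (Fin (m+1))`; then
  `ρ 0 = 0`, so `ρ` comes from a permutation `π` of `Fin m` (`ρ j.succ = (π j).succ`), `sign π = sign ρ`
  (`Equiv.Perm.decomposeFin`: `decomposeFin.symm (0, π)`, `Equiv.Perm.decomposeFin.symm_sign`), and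
  `σ (c.succAbove j) = σ (c.cycleRange⁻¹ j.succ) = (σ c).cycleRange⁻¹ (ρ j.succ) = (σ c).succAbove (π j)`.
* `exists_perm_ext`: `decomposeFin.symm (0, π)`.
-/

set_option autoImplicit false

open scoped BigOperators Nat

namespace SimplVol

theorem exists_perm_ext {m : ℕ} (π : Equiv.Perm (Fin m)) :
    ∃ σ : Equiv.Perm (Fin (m + 1)), σ 0 = 0 ∧ (∀ i : Fin m, σ i.succ = (π i).succ) ∧
      Equiv.Perm.sign σ = Equiv.Perm.sign π := by
  refine ⟨Equiv.Perm.decomposeFin.symm (0, π), ?_, ?_, ?_⟩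
  · exact Equiv.Perm.decomposeFin_symm_apply_zero 0 π
  · intro i
    rw [Equiv.Perm.decomposeFin_symm_apply_succ, Equiv.swap_self, Equiv.refl_apply]
  · rw [Equiv.Perm.decomposeFin.symm_sign, if_pos rfl, one_mul]

theorem ps_restrict {m : ℕ} (ρ : Equiv.Perm (Fin (m + 1))) (h0 : ρ 0 = 0) :
    ∃ π : Equiv.Perm (Fin m), (∀ i : Fin m, ρ i.succ = (π i).succ) ∧
      Equiv.Perm.sign π = Equiv.Perm.sign ρ := by
  obtain ⟨⟨p, π⟩, hp⟩ := Equiv.Perm.decomposeFin.symm.surjective ρ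
  have hp0 : p = 0 := by
    rw [← hp, Equiv.Perm.decomposeFin_symm_apply_zero] at h0
    exact h0
  subst hp0
  refine ⟨π, fun i => ?_, ?_⟩
  · rw [← hp, Equiv.Perm.decomposeFin_symm_apply_succ, Equiv.swap_self, Equiv.refl_apply]
  · rw [← hp, Equiv.Perm.decomposeFin.symm_sign, if_pos rfl, one_mul]

theorem exists_perm_face {m : ℕ} (σ : Equiv.Perm (Fin (m + 1))) (c : Fin (m + 1)) :
    ∃ π : Equiv.Perm (Fin m), (∀ i, σ (c.succAbove i) = (σ c).succAbove (π i)) ∧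
      ((Equiv.Perm.sign π : ℤ) : ℝ) =
        ((Equiv.Perm.sign σ : ℤ) : ℝ) * (-1) ^ ((c : ℕ) + ((σ c : Fin (m + 1)) : ℕ)) := by
  obtain ⟨π, h1, h2⟩ := ps_restrict ((σ c).cycleRange * σ * c.cycleRange⁻¹) (by
    show (σ c).cycleRange (σ (c.cycleRange.symm 0)) = 0
    rw [Fin.cycleRange_symm_zero, Fin.cycleRange_self])
  refine ⟨π, fun i => ?_, ?_⟩
  · have h3 : (σ c).cycleRange (σ (c.cycleRange.symm i.succ)) = (π i).succ := h1 i
    rw [Fin.cycleRange_symm_succ] at h3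
    rw [← Fin.cycleRange_symm_succ (σ c) (π i), ← h3, Equiv.symm_apply_apply]
  · rw [h2, Equiv.Perm.sign_mul, Equiv.Perm.sign_mul, Equiv.Perm.sign_inv, Fin.sign_cycleRange,
      Fin.sign_cycleRange]
    push_cast
    rw [pow_add]
    ring

end SimplVol
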