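import Pool.Agent.H54.RT.TB
import Pool.Agent.H54.RT.PS

/-!
# Module TW: alternating functions on trees, twins

* `twin_cancel`: let `σ = swap c c'`, `sign σ = -1`, `σ c = c'`. By `exists_perm_face` there is `π : Perm (Fin m)` with
  `σ (c.succAbove i) = c'.succAbove (π i)`, `sign π = -(-1)^(c+c')`. So `(τ.pull δ_{c'}).pull π = τ.pull (δ_c then σ)` (`pull_trans`; equality of
  the embeddings by `Function.Embedding.ext`). The embeddings `δ_c` then `σ` and `δ_c` differ only in that `c'` is replaced by `c`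
  (note `c.succAbove i ≠ c`, and `swap c c' x = x` for `x ≠ c, c'`, `= c` for `x = c'`). As `c`, `c'` are twins, `pull_congr` gives
  `τ.pull (δ_c then σ) = τ.pull δ_c`: for the orientation distinguish which of the three arguments is `c'` (at most one unless two
  arguments are equal, then both sides are `0`: `o_zero₁₂`, ...; move it to the first place by `o_rot`), for `s ∈ τ.l`: `s c x = s c' x`
  as `s c c' = true` (`s_trans`, `s_symm`). Hence `g m (τ.pull δ_c) = sign π * g m (τ.pull δ_{c'})`, and `(-1)^c * (-(-1)^(c+c')) = -(-1)^c'`.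
-/

set_option autoImplicit false

open scoped BigOperators Nat

namespace SimplVol

/-- A family of functions on trees is alternating. -/
def AltT (g : ∀ m, RTree m → ℝ) : Prop :=
  ∀ (m : ℕ) (σ : Equiv.Perm (Fin m)) (τ : RTree m),
    g m (τ.pull σ.toEmbedding) = ((Equiv.Perm.sign σ : ℤ) : ℝ) * g m τ

/-- Two leaves are twins: no division separates them and they have the same position. -/
def Twin {m : ℕ} (τ : RTree m) (c c' : Fin m) : Prop :=
  c ≠ c' ∧ (∀ s ∈ τ.l, s c c' = true) ∧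
    ∀ x y, x ≠ c → x ≠ c' → y ≠ c → y ≠ c' → τ.o c x y = τ.o c' x y

theorem TW_o {m : ℕ} (τ : RTree m) (c c' : Fin m) (h : Twin τ c c') (x y z : Fin m)
    (hx : x ≠ c) (hy : y ≠ c) (hz : z ≠ c) :
    τ.o (Equiv.swap c c' x) (Equiv.swap c c' y) (Equiv.swap c c' z) = τ.o x y z := by
  have hne : ∀ w, w ≠ c → w ≠ c' → Equiv.swap c c' w = w :=
    fun w h1 h2 => Equiv.swap_apply_of_ne_of_ne h1 h2
  have hr : Equiv.swap c c' c' = c := Equiv.swap_apply_right c c'
  by_cases h1 : x = c'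
  · subst h1
    rw [hr]
    by_cases h2 : y = x
    · subst h2
      rw [hr, τ.o_zero₁₂, τ.o_zero₁₂]
    · rw [hne y hy h2]
      by_cases h3 : z = x
      · subst h3
        rw [hr, τ.o_zero₁₃, τ.o_zero₁₃]
      · rw [hne z hz h3]
        exact h.2.2 y z hy h2 hz h3
  · rw [hne x hx h1]
    by_cases h2 : y = c'
    · subst h2
      rw [hr]
      by_cases h3 : z = y
      · subst h3
        rw [hr, τ.o_zero₂₃, τ.o_zero₂₃]
      · rw [hne z hz h3, ← τ.o_rot x c z, ← τ.o_rot x y z]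
        exact h.2.2 z x hz h3 hx h1
    · rw [hne y hy h2]
      by_cases h3 : z = c'
      · subst h3
        rw [hr, τ.o_rot c x y, τ.o_rot z x y]
        exact h.2.2 x y hx h1 hy h2
      · rw [hne z hz h3]

theorem TW_s1 {m : ℕ} (τ : RTree m) (c c' : Fin m) (h : Twin τ c c') {s : Split m} (hs : s ∈ τ.l)
    (x : Fin m) : s c x = s c' x := by
  have h1 := h.2.1 s hs
  have h2 : s c' c = true := by rw [← τ.s_symm hs c c']; exact h1
  rw [Bool.eq_iff_iff]
  exact ⟨fun h3 => τ.s_trans hs h2 h3, fun h3 => τ.s_trans hs h1 h3⟩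

theorem TW_s {m : ℕ} (τ : RTree m) (c c' : Fin m) (h : Twin τ c c') {s : Split m} (hs : s ∈ τ.l)
    (x y : Fin m) (hx : x ≠ c) (hy : y ≠ c) :
    s (Equiv.swap c c' x) (Equiv.swap c c' y) = s x y := by
  have key : ∀ w v, w ≠ c → s (Equiv.swap c c' w) v = s w v := by
    intro w v hw
    by_cases h1 : w = c'
    · rw [h1, Equiv.swap_apply_right]
      exact TW_s1 τ c c' h hs v
    · rw [Equiv.swap_apply_of_ne_of_ne hw h1]
  rw [key x _ hx, τ.s_symm hs, key y _ hy, τ.s_symm hs]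

theorem twin_cancel (g : ∀ m, RTree m → ℝ) (hg : AltT g) {m : ℕ} (τ : RTree (m + 1))
    (c c' : Fin (m + 1)) (h : Twin τ c c') :
    (-1 : ℝ) ^ (c : ℕ) * g m (τ.pull (Fin.succAboveEmb c)) +
      (-1) ^ (c' : ℕ) * g m (τ.pull (Fin.succAboveEmb c')) = 0 := by
  obtain ⟨π, h1, h2⟩ := exists_perm_face (Equiv.swap c c') c
  rw [Equiv.swap_apply_left] at h1 h2
  rw [Equiv.Perm.sign_swap h.1] at h2
  have h3 := hg m π (τ.pull (Fin.succAboveEmb c'))
  rw [RTree.pull_trans] at h3
  have h4 : τ.pull (π.toEmbedding.trans (Fin.succAboveEmb c')) = τ.pull (Fin.succAboveEmb c) := by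
    refine τ.pull_congr _ _ ?_ ?_
    · intro x y z
      have e : ∀ w : Fin m, (π.toEmbedding.trans (Fin.succAboveEmb c')) w =
          Equiv.swap c c' (c.succAbove w) := fun w => (h1 w).symm
      rw [e, e, e]
      exact TW_o τ c c' h _ _ _ (Fin.succAbove_ne c x) (Fin.succAbove_ne c y) (Fin.succAbove_ne c z)
    · intro s hs x y
      have e : ∀ w : Fin m, (π.toEmbedding.trans (Fin.succAboveEmb c')) w =
          Equiv.swap c c' (c.succAbove w) := fun w => (h1 w).symm
      rw [e, e]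
      exact TW_s τ c c' h hs _ _ (Fin.succAbove_ne c x) (Fin.succAbove_ne c y)
  rw [h4] at h3
  rw [h3, h2]
  have h5 : (-1 : ℝ) ^ (c : ℕ) * (-1) ^ ((c : ℕ) + (c' : ℕ)) = (-1) ^ (c' : ℕ) := by
    rw [pow_add, ← mul_assoc, ← mul_pow]
    norm_num
  push_cast
  linear_combination (-(g m (τ.pull (Fin.succAboveEmb c')))) * h5

/-- The coboundary. -/
noncomputable def dT (g : ∀ m, RTree m → ℝ) : ∀ m, RTree m → ℝ
  | 0, _ => 0
  | m + 1, τ => ∑ i : Fin (m + 1), (-1 : ℝ) ^ (i : ℕ) * g m (τ.pull (Fin.succAboveEmb i))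

theorem dT_succ (g : ∀ m, RTree m → ℝ) (m : ℕ) (τ : RTree (m + 1)) :
    dT g (m + 1) τ = ∑ i : Fin (m + 1), (-1 : ℝ) ^ (i : ℕ) * g m (τ.pull (Fin.succAboveEmb i)) :=
  rfl

end SimplVol
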