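import Pool.Agent.H54.RT.IN4
import Pool.Agent.H54.RT.TW

/-!
# Module HC: the contraction on alternating functions of trees

`hT g τ = ½ ∑ g (τ.ins f)` over the two `f` with `TopSide τ f` (for at least `4` leaves).
* `hT_eq`: for `m ≥ 4` and `TopSide τ f`: the sum over all `f'` has exactly the two nonzero terms `f` and `!f` (`topSide_iff`; `f ≠ !f` at a leaf;
  `Finset.sum_eq_add` or `Finset.sum_pair` after `Finset.sum_subset`).
* `hT_alt`: for `m ≥ 4`, `σ : Perm (Fin m)`, `ι = σ.toEmbedding`: `TopSide (τ.pull ι) (f ∘ σ)` (`topSide_pull`; `eF (f ∘ σ)` is `NT` because `eF f ∈ τ.l` is) and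
  `(τ.pull ι).ins (f ∘ σ) = (τ.ins f).pull (consE ι)` (`ins_pull`), `consE ι` is the embedding of the permutation of `exists_perm_ext`, of the same sign;
  the same for `!f` (`(!f) ∘ σ = !(f ∘ σ)`); use `hT_eq` for both sides.
-/

set_option autoImplicit false

open scoped BigOperators Nat

namespace SimplVol

open Classical in
/-- The contraction. -/
noncomputable def hT (g : ∀ m, RTree m → ℝ) (m : ℕ) (τ : RTree m) : ℝ :=
  if 4 ≤ m then (1 / 2) * ∑ f : Fin m → Bool, (if h : TopSide τ f then g (m + 1) (τ.ins f h) else 0)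
  else 0

theorem hT_of_lt (g : ∀ m, RTree m → ℝ) {m : ℕ} (hm : m < 4) (τ : RTree m) : hT g m τ = 0 := by
  unfold hT
  rw [if_neg (by omega)]

theorem hT_eq (g : ∀ m, RTree m → ℝ) {m : ℕ} (hm : 4 ≤ m) (τ : RTree m) (f : Fin m → Bool)
    (h : TopSide τ f) (h' : TopSide τ fun a => !(f a)) :
    hT g m τ = (1 / 2) * (g (m + 1) (τ.ins f h) + g (m + 1) (τ.ins (fun a => !(f a)) h')) := by
  classical
  unfold hT
  rw [if_pos hm]
  congr 1
  have hne : f ≠ fun a => !(f a) := by
    intro h1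
    have h2 := congrFun h1 ⟨0, by omega⟩
    revert h2
    generalize f ⟨0, by omega⟩ = x
    cases x <;> decide
  rw [Finset.sum_eq_add f (fun a => !(f a)) hne]
  · rw [dif_pos h, dif_pos h']
  · intro c _ hc
    rw [dif_neg]
    intro h1
    rcases (topSide_iff τ f h c).1 h1 with h2 | h2
    · exact hc.1 h2
    · exact hc.2 h2
  · intro h1
    exact absurd (Finset.mem_univ _) h1
  · intro h1
    exact absurd (Finset.mem_univ _) h1

theorem hT_add (g g' : ∀ m, RTree m → ℝ) (m : ℕ) (τ : RTree m) :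
    hT (fun m τ => g m τ + g' m τ) m τ = hT g m τ + hT g' m τ := by
  unfold hT
  by_cases hm : 4 ≤ m
  · rw [if_pos hm, if_pos hm, if_pos hm, ← mul_add, ← Finset.sum_add_distrib]
    congr 1
    refine Finset.sum_congr rfl fun f _ => ?_
    by_cases h : TopSide τ f
    · rw [dif_pos h, dif_pos h, dif_pos h]
    · rw [dif_neg h, dif_neg h, dif_neg h, add_zero]
  · rw [if_neg hm, if_neg hm, if_neg hm, add_zero]

theorem hT_smul (c : ℝ) (g : ∀ m, RTree m → ℝ) (m : ℕ) (τ : RTree m) :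
    hT (fun m τ => c * g m τ) m τ = c * hT g m τ := by
  unfold hT
  by_cases hm : 4 ≤ m
  · rw [if_pos hm, if_pos hm, mul_left_comm, Finset.mul_sum Finset.univ _ c]
    congr 1
    refine Finset.sum_congr rfl fun f _ => ?_
    by_cases h : TopSide τ f
    · rw [dif_pos h, dif_pos h]
    · rw [dif_neg h, dif_neg h, mul_zero]
  · rw [if_neg hm, if_neg hm, mul_zero]

theorem abs_hT_le (g : ∀ m, RTree m → ℝ) (C : ℝ) (m : ℕ) (τ : RTree m)
    (h : ∀ τ' : RTree (m + 1), |g (m + 1) τ'| ≤ C) (hC : 0 ≤ C) : |hT g m τ| ≤ C := by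
  by_cases hm : 4 ≤ m
  · obtain ⟨f, hf⟩ := exists_topSide hm τ
    have hf' : TopSide τ fun a => !(f a) := (topSide_iff τ f hf _).2 (Or.inr rfl)
    rw [hT_eq g hm τ f hf hf']
    have h1 := h (τ.ins f hf)
    have h2 := h (τ.ins (fun a => !(f a)) hf')
    rw [abs_le] at h1 h2 ⊢
    constructor <;> linarith [h1.1, h1.2, h2.1, h2.2]
  · rw [hT_of_lt g (by omega), abs_zero]
    exact hC

theorem hT_nt_perm {m : ℕ} (σ : Equiv.Perm (Fin m)) (f : Fin m → Bool) (h : NT (eF f)) :
    NT (eF fun i => f (σ.toEmbedding i)) := by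
  obtain ⟨a, b, c, d, hab, hcd, h1, h2, h3⟩ := h
  refine ⟨σ.symm a, σ.symm b, σ.symm c, σ.symm d, fun h => hab (σ.symm.injective h),
    fun h => hcd (σ.symm.injective h), ?_, ?_, ?_⟩
  · simpa [eF] using h1
  · simpa [eF] using h2
  · simpa [eF] using h3

theorem hT_alt (g : ∀ m, RTree m → ℝ) (hg : AltT g) : AltT (hT g) := by
  intro m σ τ
  by_cases hm : 4 ≤ m
  · obtain ⟨f, hf⟩ := exists_topSide hm τ
    have hf' : TopSide τ fun a => !(f a) := (topSide_iff τ f hf _).2 (Or.inr rfl)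
    have hn : NT (eF fun i => f (σ.toEmbedding i)) := by
      apply hT_nt_perm
      obtain ⟨l₀, hl⟩ := hf
      exact τ.nt _ (by rw [hl]; simp)
    have hn' : NT (eF fun i => (fun a => !(f a)) (σ.toEmbedding i)) := by
      apply hT_nt_perm σ (fun a => !(f a))
      obtain ⟨l₀, hl⟩ := hf'
      exact τ.nt _ (by rw [hl]; simp)
    obtain ⟨σ', h0, hs, hsign⟩ := exists_perm_ext σ
    have hE : consE σ.toEmbedding = σ'.toEmbedding := by
      refine Function.Embedding.ext fun i => ?_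
      refine Fin.cases ?_ (fun i => ?_) i
      · rw [consE_zero]
        exact h0.symm
      · rw [consE_succ]
        exact (hs i).symm
    have e1 := ins_pull σ.toEmbedding τ f hf hn
    have e2 := ins_pull σ.toEmbedding τ (fun a => !(f a)) hf' hn'
    rw [hE] at e1 e2
    rw [hT_eq g hm (τ.pull σ.toEmbedding) (fun i => f (σ.toEmbedding i))
      (topSide_pull _ τ f hf hn) (topSide_pull _ τ _ hf' hn'), hT_eq g hm τ f hf hf']
    have e3 : g (m + 1) ((τ.pull σ.toEmbedding).ins (fun i => f (σ.toEmbedding i))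
        (topSide_pull _ τ f hf hn)) = ((Equiv.Perm.sign σ : ℤ) : ℝ) * g (m + 1) (τ.ins f hf) := by
      rw [← e1, hg, hsign]
    have e4 : g (m + 1) ((τ.pull σ.toEmbedding).ins (fun i => !(f (σ.toEmbedding i)))
        (topSide_pull _ τ _ hf' hn')) =
        ((Equiv.Perm.sign σ : ℤ) : ℝ) * g (m + 1) (τ.ins (fun a => !(f a)) hf') := by
      rw [← e2, hg, hsign]
    rw [e3, e4]
    ring
  · rw [hT_of_lt g (by omega), hT_of_lt g (by omega), mul_zero]

end SimplVol
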