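import Pool.Agent.H54.RT.HC

/-!
# Module HD: the contraction identity

* `contraction`: let `τ : RTree (m+1)`, `m ≥ 3`, `f` with `TopSide τ f`, `f' = !f`. Both `f₁ ∈ {f, f'}`:
  `dT g (τ.ins f₁) = g τ - ∑_c (-1)^c g ((τ.ins f₁).pull δ_{c+1})` (`dT_succ`, `Fin.sum_univ_succ`, `ins_face_zero`; `(-1)^(c+1) = -(-1)^c`). Put
  `P c f₁ = g ((τ.ins f₁).pull δ_{c.succ})`, `Q c = hT g m (τ.pull δ_c)`. To show: `∑_c (-1)^c (Q c - ½ (P c f + P c f')) = 0`. Call `c` good if
  `NT (eF (f ∘ δ_c))`. For good `c` the term is `0`: then `4 ≤ m` (four different leaves), `hT_eq` for `τ.pull δ_c` and `f ∘ δ_c`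
  (`topSide_pull`), `ins_pull`, `consE_succAbove`. If `c` is not good, then the side of `c` has exactly two elements, `{c, c'}`: both sides have
  at least two elements (`NT (eF f)`); if the side of `c` had three elements `c, x, y` and the other side contains `z ≠ w`, then `x, y, z, w` show that `c` is good.
  Then `c'` is not good either, and `Twin τ c c'`: every `s ∈ τ.l` has `s c c'` (`s = eF f` or `const_side`: if `s` is constant on the side of `c` fine; if `s` is
  constant on the other side `O` and `¬ s c c'`: `s` has two classes, `O` is in the class of `c` or of `c'`, the other class has one element, against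
  `τ.nt`), and `τ.o c x y = τ.o c' x y` for `x, y ≠ c, c'` (`x, y ∈ O`: `o_side`). In the same way `Twin (τ.ins f₁) c.succ c'.succ`: the divisions `extS x s` do not separate;
  the orientation: `x, y` may be the new leaf `0`: then `oI c.succ 0 y'.succ = - gI c y'` with `y' ∈ O` is `±1` depending only on the sides; `oI c.succ x' y'` is `τ.o`.
  (`ins_eq`, unfold.) By `twin_cancel` for `g` and `τ.ins f₁`: `(-1)^(c+1) P c f₁ + (-1)^(c'+1) P c' f₁ = 0`, and by `twin_cancel` for `hT g` (`hT_alt`) and `τ`:
  `(-1)^c Q c + (-1)^c' Q c' = 0`. So the terms of `c` and `c'` cancel: `Finset.sum_involution`-like; simplest: let `t c` be the term; for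
  bad `c` define `p c` = the other element of its side, an involution on the bad `c` with `t c + t (p c) = 0`, `p c ≠ c` (`Finset.sum_involution` on `univ.filter bad`).
-/

set_option autoImplicit false

open scoped BigOperators Nat

namespace SimplVol

/-- the two leaves of a side of two elements are twins -/
theorem HD_twin {m : ℕ} (τ : RTree m) (f : Fin m → Bool) (h : TopSide τ f) (c c' : Fin m)
    (hne : c ≠ c') (hside : ∀ x, f x = f c ↔ x = c ∨ x = c') : Twin τ c c' := by
  have hcc : f c' = f c := (hside c').mpr (Or.inr rfl)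
  refine ⟨hne, ?_, ?_⟩
  · intro s hs
    by_cases hse : s = eF f
    · rw [hse]
      simp [eF, hcc]
    · by_contra hfalse
      obtain ⟨f'', hf''⟩ := τ.split s hs
      have hval : f'' c ≠ f'' c' := by
        intro he
        apply hfalse
        rw [hf'', he]
        simp
      -- constant on the other side
      have hother : ∀ x y, f x ≠ f c → f y ≠ f c → f'' x = f'' y := by
        intro x y hx hy
        rcases const_side τ f h s hs hse with ⟨hA, -⟩ | ⟨hB, -⟩
        · -- constant on `A`
          cases hfc : f c with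
          | true =>
            exfalso
            apply hfalse
            exact hA c c' hfc (by rw [hcc, hfc])
          | false =>
            rw [hfc] at hx hy
            have hx' : f x = true := by simpa using hx
            have hy' : f y = true := by simpa using hy
            have := hA x y hx' hy'
            rw [hf''] at this
            exact eq_of_beq this
        · cases hfc : f c with
          | false =>
            exfalso
            apply hfalse
            exact hB c c' hfc (by rw [hcc, hfc])
          | true =>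
            rw [hfc] at hx hy
            have hx' : f x = false := by simpa using hx
            have hy' : f y = false := by simpa using hy
            have := hB x y hx' hy'
            rw [hf''] at this
            exact eq_of_beq this
      -- a class with one element
      obtain ⟨a, b, a', b', hab, hab', h1, h2, h3⟩ := τ.nt s hs
      rw [hf''] at h1 h2 h3
      have e1 : f'' a = f'' b := eq_of_beq h1
      have e2 : f'' a' = f'' b' := eq_of_beq h2
      have e3 : f'' a ≠ f'' a' := by
        intro he
        rw [he] at h3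
        simp at h3
      -- two different elements with the value of c, or with the value of c'
      have hpair : ∀ u w : Fin m, u ≠ w → f'' u = f'' w → (f u ≠ f c ∨ f w ≠ f c) := by
        intro u w huw he
        by_contra hc
        push Not at hc
        rcases (hside u).mp hc.1 with hu | hu <;> rcases (hside w).mp hc.2 with hw | hw
        · exact huw (hu.trans hw.symm)
        · rw [hu, hw] at he
          exact hval he
        · rw [hu, hw] at he
          exact hval he.symm
        · exact huw (hu.trans hw.symm)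
      -- the pair `a, b` contains `x ∈ O`, the pair `a', b'` contains `y ∈ O`
      obtain ⟨x, hx, hxv⟩ : ∃ x, f x ≠ f c ∧ f'' x = f'' a := by
        rcases hpair a b hab e1 with hu | hu
        · exact ⟨a, hu, rfl⟩
        · exact ⟨b, hu, e1.symm⟩
      obtain ⟨y, hy, hyv⟩ : ∃ y, f y ≠ f c ∧ f'' y = f'' a' := by
        rcases hpair a' b' hab' e2 with hu | hu
        · exact ⟨a', hu, rfl⟩
        · exact ⟨b', hu, e2.symm⟩
      exact e3 (by rw [← hxv, ← hyv, hother x y hx hy])
  · intro x y hxc hxc' hyc hyc'
    have hx : f x ≠ f c := fun he => by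
      rcases (hside x).mp he with he | he
      · exact hxc he
      · exact hxc' he
    have hy : f y ≠ f c := fun he => by
      rcases (hside y).mp he with he | he
      · exact hyc he
      · exact hyc' he
    apply o_side τ f h c c' x y hcc.symm _ (Ne.symm hx)
    cases hfx : f x <;> cases hfy : f y <;> cases hfc : f c <;> simp_all

/-- the same for the tree with the new leaf -/
theorem HD_twin_ins {m : ℕ} (τ : RTree m) (f : Fin m → Bool) (h : TopSide τ f) (c c' : Fin m)
    (hne : c ≠ c') (hside : ∀ x, f x = f c ↔ x = c ∨ x = c') :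
    Twin (τ.ins f h) c.succ c'.succ := by
  obtain ⟨-, hT2, hT3⟩ := HD_twin τ f h c c' hne hside
  have hcc : f c' = f c := (hside c').mpr (Or.inr rfl)
  obtain ⟨p, hp⟩ : ∃ p : Fin m × Fin m, f p.1 = true ∧ f p.2 = false := exists_side τ f h
  rw [ins_eq τ f h p.1 p.2 hp.1 hp.2]
  refine ⟨fun he => hne (Fin.succ_injective _ he), ?_, ?_⟩
  · intro s hs
    rcases (mem_lI τ f h p.1 p.2 hp.1 hp.2 s).mp hs with ⟨t, ht, -, rfl⟩ | ⟨t, ht, -, rfl⟩
    · exact hT2 t ht
    · exact hT2 t ht
  · have hg : ∀ y', y' ≠ c → y' ≠ c' → gI τ f p.1 p.2 c y' = gI τ f p.1 p.2 c' y' := by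
      intro y' h1 h2
      have hy : f y' ≠ f c := fun he => by
        rcases (hside y').mp he with he | he
        · exact h1 he
        · exact h2 he
      unfold gI
      have hy2 : ¬ (f c' = f y') := by
        rw [hcc]
        exact Ne.symm hy
      have hy1 : ¬ (f c = f y') := Ne.symm hy
      rw [if_neg hy1, if_neg hy2]
    intro x y
    change x ≠ c.succ → x ≠ c'.succ → y ≠ c.succ → y ≠ c'.succ →
      oI τ f p.1 p.2 c.succ x y = oI τ f p.1 p.2 c'.succ x y
    refine Fin.cases ?_ (fun x' => ?_) x
    · refine Fin.cases ?_ (fun y' => ?_) y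
      · intro _ _ _ _
        rfl
      · intro _ _ h3 h4
        change - gI τ f p.1 p.2 c y' = - gI τ f p.1 p.2 c' y'
        rw [hg y' (fun he => h3 (by rw [he])) (fun he => h4 (by rw [he]))]
    · refine Fin.cases ?_ (fun y' => ?_) y
      · intro h1 h2 _ _
        change gI τ f p.1 p.2 c x' = gI τ f p.1 p.2 c' x'
        rw [hg x' (fun he => h1 (by rw [he])) (fun he => h2 (by rw [he]))]
      · intro h1 h2 h3 h4
        change τ.o c x' y' = τ.o c' x' y'
        exact hT3 x' y' (fun he => h1 (by rw [he])) (fun he => h2 (by rw [he]))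
          (fun he => h3 (by rw [he])) (fun he => h4 (by rw [he]))

/-- a bad leaf is in a side of two elements -/
theorem HD_bad {m : ℕ} (τ : RTree (m + 1)) (f : Fin (m + 1) → Bool) (h : TopSide τ f)
    (c : Fin (m + 1)) (hbad : ¬ NT (eF fun i => f (Fin.succAboveEmb c i))) :
    ∃ c', c ≠ c' ∧ ∀ x, f x = f c ↔ x = c ∨ x = c' := by
  have hmem : eF f ∈ τ.l := by
    obtain ⟨l₀, hl⟩ := h
    rw [hl]
    simp
  obtain ⟨a, b, a', b', hab, hab', h1, h2, h3⟩ := τ.nt _ hmem
  simp only [eF] at h1 h2 h3
  have e1 : f a = f b := eq_of_beq h1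
  have e2 : f a' = f b' := eq_of_beq h2
  have e3 : f a ≠ f a' := by
    intro he
    rw [he] at h3
    simp at h3
  -- two elements in the side of `c`, two in the other side
  obtain ⟨u, w, z, y, huw, hzy, hu, hw, hz, hy⟩ : ∃ u w z y, u ≠ w ∧ z ≠ y ∧ f u = f c ∧
      f w = f c ∧ f z ≠ f c ∧ f y ≠ f c := by
    by_cases hc : f a = f c
    · exact ⟨a, b, a', b', hab, hab', hc, by rw [← e1, hc], by rw [← hc]; exact Ne.symm e3,
        by rw [← e2, ← hc]; exact Ne.symm e3⟩
    · have hc' : f a' = f c := by
        cases hfa : f a <;> cases hfa' : f a' <;> cases hfc : f c <;> simp_all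
      exact ⟨a', b', a, b, hab', hab, hc', by rw [← e2, hc'], hc, by rw [← e1]; exact hc⟩
  obtain ⟨c', hcc', hfc'⟩ : ∃ c', c ≠ c' ∧ f c' = f c := by
    by_cases hcu : c = u
    · exact ⟨w, by rw [hcu]; exact huw, hw⟩
    · exact ⟨u, hcu, hu⟩
  refine ⟨c', hcc', fun x => ⟨fun hx => ?_, ?_⟩⟩
  · by_contra hcon
    push Not at hcon
    apply hbad
    obtain ⟨i1, hi1⟩ := Fin.exists_succAbove_eq (Ne.symm hcc')
    obtain ⟨i2, hi2⟩ := Fin.exists_succAbove_eq hcon.1
    obtain ⟨i3, hi3⟩ := Fin.exists_succAbove_eq (show z ≠ c by rintro rfl; exact hz rfl)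
    obtain ⟨i4, hi4⟩ := Fin.exists_succAbove_eq (show y ≠ c by rintro rfl; exact hy rfl)
    refine ⟨i1, i2, i3, i4, ?_, ?_, ?_, ?_, ?_⟩
    · rintro rfl
      exact hcon.2 (hi2.symm.trans hi1)
    · rintro rfl
      exact hzy (hi3.symm.trans hi4)
    · simp only [eF, Fin.succAboveEmb_apply, hi1, hi2, hfc', hx]
      simp
    · have hzy' : f z = f y := by
        cases hfz : f z <;> cases hfy : f y <;> cases hfc : f c <;> simp_all
      simp only [eF, Fin.succAboveEmb_apply, hi3, hi4, hzy']
      simp
    · simp only [eF, Fin.succAboveEmb_apply, hi1, hi3, hfc']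
      simpa using Ne.symm hz
  · rintro (rfl | rfl)
    · rfl
    · exact hfc'

theorem HD_bad' {m : ℕ} (f : Fin (m + 1) → Bool) (c c' : Fin (m + 1))
    (hside : ∀ x, f x = f c ↔ x = c ∨ x = c') :
    ¬ NT (eF fun i => f (Fin.succAboveEmb c' i)) := by
  rintro ⟨a, b, a', b', hab, hab', h1, h2, h3⟩
  simp only [eF, Fin.succAboveEmb_apply] at h1 h2 h3
  have e1 : f (c'.succAbove a) = f (c'.succAbove b) := eq_of_beq h1
  have e2 : f (c'.succAbove a') = f (c'.succAbove b') := eq_of_beq h2
  have e3 : f (c'.succAbove a) ≠ f (c'.succAbove a') := by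
    intro he
    rw [he] at h3
    simp at h3
  have key : ∀ u w, u ≠ w → f (c'.succAbove u) = f (c'.succAbove w) →
      f (c'.succAbove u) ≠ f c := by
    intro u w huw he hc
    rcases (hside _).mp hc with hu | hu
    · rw [he] at hc
      rcases (hside _).mp hc with hw | hw
      · exact huw (Fin.succAbove_right_injective (hu.trans hw.symm))
      · exact Fin.succAbove_ne _ _ hw
    · exact Fin.succAbove_ne _ _ hu
  have k1 := key a b hab e1
  have k2 := key a' b' hab' e2
  cases hfa : f (c'.succAbove a) <;> cases hfa' : f (c'.succAbove a') <;> cases hfc : f c <;>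
    simp_all

theorem HD_four {k : ℕ} (s : Split k) (f : Fin k → Bool) (hs : s = eF f) (h : NT s) : 4 ≤ k := by
  obtain ⟨a, b, a', b', hab, hab', h1, h2, h3⟩ := h
  rw [hs] at h1 h2 h3
  simp only [eF] at h1 h2 h3
  have e1 : f a = f b := eq_of_beq h1
  have e2 : f a' = f b' := eq_of_beq h2
  have e3 : f a ≠ f a' := by
    intro he
    rw [he] at h3
    simp at h3
  have n1 : a ≠ a' := fun h => e3 (by rw [h])
  have n2 : a ≠ b' := fun h => e3 (by rw [h, e2])
  have n3 : b ≠ a' := fun h => e3 (by rw [e1, h])
  have n4 : b ≠ b' := fun h => e3 (by rw [e1, h, e2])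
  have hcard : ({a, b, a', b'} : Finset (Fin k)).card = 4 := by
    rw [Finset.card_insert_of_notMem (by simp [hab, n1, n2]),
      Finset.card_insert_of_notMem (by simp [n3, n4]),
      Finset.card_insert_of_notMem (by simp [hab']), Finset.card_singleton]
  have := Finset.card_le_univ ({a, b, a', b'} : Finset (Fin k))
  rw [hcard, Fintype.card_fin] at this
  exact this

theorem contraction (g : ∀ m, RTree m → ℝ) (hg : AltT g) (m : ℕ) (hm : 4 ≤ m) (τ : RTree m) :
    hT (dT g) m τ + dT (hT g) m τ = g m τ := by
  classical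
  obtain ⟨M, rfl⟩ : ∃ M, m = M + 1 := ⟨m - 1, by omega⟩
  obtain ⟨f, h⟩ := exists_topSide hm τ
  have h' : TopSide τ (fun a => !(f a)) := (topSide_iff τ f h _).mpr (Or.inr rfl)
  -- expansion of the first term
  have hexp : ∀ (f₁ : Fin (M + 1) → Bool) (h₁ : TopSide τ f₁),
      dT g (M + 1 + 1) (τ.ins f₁ h₁) = g (M + 1) τ - ∑ c : Fin (M + 1), (-1 : ℝ) ^ (c : ℕ) *
        g (M + 1) ((τ.ins f₁ h₁).pull (Fin.succAboveEmb c.succ)) := by
    intro f₁ h₁
    rw [dT_succ, Fin.sum_univ_succ, ins_face_zero, sub_eq_add_neg, ← Finset.sum_neg_distrib]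
    congr 1
    · simp
    · apply Finset.sum_congr rfl
      intro c _
      rw [Fin.val_succ, pow_succ]
      ring
  rw [hT_eq (dT g) hm τ f h h', hexp f h, hexp _ h', dT_succ]
  have key : ∑ c : Fin (M + 1), ((-1 : ℝ) ^ (c : ℕ) *
      (hT g M (τ.pull (Fin.succAboveEmb c)) -
        (1 / 2) * (g (M + 1) ((τ.ins f h).pull (Fin.succAboveEmb c.succ)) +
          g (M + 1) ((τ.ins _ h').pull (Fin.succAboveEmb c.succ))))) = 0 := by
    -- good leaves
    have hgood : ∀ c : Fin (M + 1), NT (eF fun i => f (Fin.succAboveEmb c i)) →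
        hT g M (τ.pull (Fin.succAboveEmb c)) -
        (1 / 2) * (g (M + 1) ((τ.ins f h).pull (Fin.succAboveEmb c.succ)) +
          g (M + 1) ((τ.ins _ h').pull (Fin.succAboveEmb c.succ))) = 0 := by
      intro c hc
      have hM4 : 4 ≤ M := HD_four _ _ rfl hc
      have heq : (eF fun i => !(f (Fin.succAboveEmb c i))) =
          eF fun i => f (Fin.succAboveEmb c i) := by
        funext a b
        simp [eF]
      have hc' : NT (eF fun i => !(f (Fin.succAboveEmb c i))) := by rw [heq]; exact hc
      have t1 := topSide_pull (Fin.succAboveEmb c) τ f h hc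
      have t2 := topSide_pull (Fin.succAboveEmb c) τ (fun a => !(f a)) h' hc'
      rw [hT_eq g hM4 (τ.pull (Fin.succAboveEmb c)) _ t1 t2]
      have p1 := ins_pull (Fin.succAboveEmb c) τ f h hc
      have p2 := ins_pull (Fin.succAboveEmb c) τ (fun a => !(f a)) h' hc'
      rw [consE_succAbove] at p1 p2
      rw [p1, p2, sub_self]
    -- bad leaves
    have hbad : ∀ c c' : Fin (M + 1), c ≠ c' → (∀ x, f x = f c ↔ x = c ∨ x = c') →
        (-1 : ℝ) ^ (c : ℕ) * (hT g M (τ.pull (Fin.succAboveEmb c)) -
        (1 / 2) * (g (M + 1) ((τ.ins f h).pull (Fin.succAboveEmb c.succ)) +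
          g (M + 1) ((τ.ins _ h').pull (Fin.succAboveEmb c.succ)))) +
        (-1 : ℝ) ^ (c' : ℕ) * (hT g M (τ.pull (Fin.succAboveEmb c')) -
        (1 / 2) * (g (M + 1) ((τ.ins f h).pull (Fin.succAboveEmb c'.succ)) +
          g (M + 1) ((τ.ins _ h').pull (Fin.succAboveEmb c'.succ)))) = 0 := by
      intro c c' hne hside
      have hside' : ∀ x, (!(f x)) = (!(f c)) ↔ x = c ∨ x = c' := by
        intro x
        rw [← hside x]
        constructor
        · intro he
          cases hfx : f x <;> cases hfc : f c <;> simp_all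
        · intro he
          rw [he]
      have q1 := twin_cancel (hT g) (hT_alt g hg) τ c c' (HD_twin τ f h c c' hne hside)
      have q2 := twin_cancel g hg (τ.ins f h) c.succ c'.succ
        (HD_twin_ins τ f h c c' hne hside)
      have q3 := twin_cancel g hg (τ.ins _ h') c.succ c'.succ
        (HD_twin_ins τ _ h' c c' hne hside')
      rw [Fin.val_succ, Fin.val_succ, pow_succ, pow_succ] at q2 q3
      linear_combination q1 + (1 / 2) * q2 + (1 / 2) * q3
    -- the involution
    let P : Fin (M + 1) → Fin (M + 1) := fun c =>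
      if hc : NT (eF fun i => f (Fin.succAboveEmb c i)) then c
      else (HD_bad τ f h c hc).choose
    have hPspec : ∀ c, ¬ NT (eF fun i => f (Fin.succAboveEmb c i)) →
        c ≠ P c ∧ ∀ x, f x = f c ↔ x = c ∨ x = P c := by
      intro c hc
      have e : P c = (HD_bad τ f h c hc).choose := dif_neg hc
      rw [e]
      exact (HD_bad τ f h c hc).choose_spec
    have hPgood : ∀ c, NT (eF fun i => f (Fin.succAboveEmb c i)) → P c = c :=
      fun c hc => dif_pos hc
    refine Finset.sum_involution (fun c _ => P c) ?_ ?_ (fun c _ => Finset.mem_univ _) ?_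
    · intro c _
      by_cases hc : NT (eF fun i => f (Fin.succAboveEmb c i))
      · rw [hPgood c hc, hgood c hc, mul_zero, add_zero]
      · obtain ⟨h1, h2⟩ := hPspec c hc
        exact hbad c (P c) h1 h2
    · intro c _ hne
      by_cases hc : NT (eF fun i => f (Fin.succAboveEmb c i))
      · exact absurd (by rw [hgood c hc, mul_zero]) hne
      · exact (hPspec c hc).1.symm
    · intro c _
      by_cases hc : NT (eF fun i => f (Fin.succAboveEmb c i))
      · simp only [hPgood c hc]
      · obtain ⟨h1, h2⟩ := hPspec c hc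
        have hc' : ¬ NT (eF fun i => f (Fin.succAboveEmb (P c) i)) := HD_bad' f c (P c) h2
        obtain ⟨h3, h4⟩ := hPspec (P c) hc'
        have hPc : f (P c) = f c := (h2 (P c)).mpr (Or.inr rfl)
        rcases (h4 c).mp hPc.symm with h5 | h5
        · exact absurd h5 h1
        · exact h5.symm
  have hsplit : ∑ c : Fin (M + 1), ((-1 : ℝ) ^ (c : ℕ) *
      (hT g M (τ.pull (Fin.succAboveEmb c)) -
        (1 / 2) * (g (M + 1) ((τ.ins f h).pull (Fin.succAboveEmb c.succ)) +
          g (M + 1) ((τ.ins _ h').pull (Fin.succAboveEmb c.succ))))) =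
      (∑ c : Fin (M + 1), (-1 : ℝ) ^ (c : ℕ) * hT g M (τ.pull (Fin.succAboveEmb c))) -
      (1 / 2) * ((∑ c : Fin (M + 1), (-1 : ℝ) ^ (c : ℕ) *
        g (M + 1) ((τ.ins f h).pull (Fin.succAboveEmb c.succ))) +
      ∑ c : Fin (M + 1), (-1 : ℝ) ^ (c : ℕ) *
        g (M + 1) ((τ.ins _ h').pull (Fin.succAboveEmb c.succ))) := by
    rw [← Finset.sum_add_distrib, Finset.mul_sum, ← Finset.sum_sub_distrib]
    apply Finset.sum_congr rfl
    intro c _
    ring
  rw [hsplit] at key
  linear_combination key

end SimplVol
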