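import Pool.Agent.H54.RT.TT

/-!
# Module HH: the homotopy between `tt` and the identity

`hh k F l` is used for lists `l` of length `k`. PROOF of `homotopy`: induction on `k`, for all `F`, `l = z :: l'` with `l'.length = k`.
Put `A := fun m => F (z :: m)`; `(dd F) (z :: m) = F m - dd A m`. By definition and linearity (`hh_sub`, `tt_sub`, `dd_sub`)
 `hh (k+1) (dd F) l = (F l - dd A l) - (tt F l - tt (dd A) l) - (dd (hh k F) l - dd (hh k (dd A)) l)`
 `= F l - tt F l - dd (hh k F) l - X`, `X = dd A l - tt (dd A) l - dd (hh k (dd A)) l`. Claim `X = 0`.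
 If `k = 0`: `l = [z]`, `hh 0 _ = 0`, `dd A [z] = A []`, `tt (dd A) [z] = dd (tt A) [z] = tt A [] = A []` (`tt_dd`).
 If `k = j + 1`: for lists `m` of length `k = j + 1`, by induction `hh (j+1) (dd A) m = A m - tt A m - dd (hh j A) m`; by `dd_congr`
 `dd (hh k (dd A)) l = dd A l - dd (tt A) l - dd (dd (hh j A)) l = dd A l - tt (dd A) l` (`dd_dd`, `tt_dd`).
`hh_map`: for maps `f : S → S`, `g : Y → Y` (the same spaces): induction on `k`; the first element of `l.map _` is `(f × g) z` and
`(fun m => F ((f × g) z :: m))` composed with `List.map` is `fun m => (F ∘ map) (z :: m)`.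
-/

set_option autoImplicit false

open scoped BigOperators Nat

namespace SimplVol

variable {S Y : Type}

/-- The homotopy, defined by recursion on the length. -/
noncomputable def hh : ℕ → (List (S × Y) → ℝ) → List (S × Y) → ℝ
  | 0, _, _ => 0
  | _ + 1, _, [] => 0
  | k + 1, F, z :: l =>
    F (z :: z :: l) - tt (fun m => F (z :: m)) (z :: l) - dd (hh k (fun m => F (z :: m))) (z :: l)

theorem hh_zero (F : List (S × Y) → ℝ) (l : List (S × Y)) : hh 0 F l = 0 := rfl

theorem hh_succ_cons (k : ℕ) (F : List (S × Y) → ℝ) (z : S × Y) (l : List (S × Y)) :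
    hh (k + 1) F (z :: l) = F (z :: z :: l) - tt (fun m => F (z :: m)) (z :: l) -
      dd (hh k (fun m => F (z :: m))) (z :: l) := rfl

theorem hh_sub (k : ℕ) (F G : List (S × Y) → ℝ) (l : List (S × Y)) :
    hh k (fun m => F m - G m) l = hh k F l - hh k G l := by
  induction k generalizing F G l with
  | zero =>
    rw [hh_zero, hh_zero, hh_zero, sub_zero]
  | succ k ih =>
    cases l with
    | nil =>
      show (0 : ℝ) = 0 - 0
      rw [sub_zero]
    | cons z l =>
      rw [hh_succ_cons, hh_succ_cons, hh_succ_cons,
        tt_sub (fun m => F (z :: m)) (fun m => G (z :: m))]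
      have h1 : hh k (fun m => F (z :: m) - G (z :: m)) =
          fun m => hh k (fun m => F (z :: m)) m - hh k (fun m => G (z :: m)) m := by
        funext m
        exact ih (fun m => F (z :: m)) (fun m => G (z :: m)) m
      rw [h1, dd_sub]
      ring

/-- For `|l| = k`, only the values of `F` on lists of length `k + 1` matter. -/
theorem hh_congr (k : ℕ) (F G : List (S × Y) → ℝ) (l : List (S × Y)) (hl : l.length = k)
    (h : ∀ m : List (S × Y), m.length = k + 1 → F m = G m) : hh k F l = hh k G l := by
  induction k generalizing F G l with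
  | zero => rfl
  | succ k ih =>
    cases l with
    | nil => rfl
    | cons z l =>
      rw [List.length_cons] at hl
      rw [hh_succ_cons, hh_succ_cons, h (z :: z :: l) (by simp only [List.length_cons]; omega)]
      have h1 : tt (fun m => F (z :: m)) (z :: l) = tt (fun m => G (z :: m)) (z :: l) := by
        refine tt_congr _ _ _ (fun m hm => h (z :: m) ?_)
        rw [List.length_cons] at hm ⊢
        omega
      have h2 : dd (hh k (fun m => F (z :: m))) (z :: l) =
          dd (hh k (fun m => G (z :: m))) (z :: l) := by
        refine dd_congr _ _ _ (fun m hm => ?_)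
        rw [List.length_cons] at hm
        refine ih (fun m => F (z :: m)) (fun m => G (z :: m)) m (by omega) (fun m' hm' => ?_)
        refine h (z :: m') ?_
        rw [List.length_cons]
        omega
      rw [h1, h2]

theorem hh_zero_fun (k : ℕ) (l : List (S × Y)) : hh k (fun _ : List (S × Y) => (0 : ℝ)) l = 0 := by
  have h := hh_sub k (fun _ : List (S × Y) => (0 : ℝ)) (fun _ => 0) l
  simp only [sub_self] at h
  exact h

theorem hh_map (f : S → S) (g : Y → Y) (k : ℕ) (F : List (S × Y) → ℝ) (l : List (S × Y)) :
    hh k F (l.map (Prod.map f g)) = hh k (fun m => F (m.map (Prod.map f g))) l := by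
  induction k generalizing F l with
  | zero => rfl
  | succ k ih =>
    cases l with
    | nil => rfl
    | cons z l =>
      have h1 := tt_map f g (fun m => F (Prod.map f g z :: m)) (z :: l)
      have h2 : dd (hh k (fun m => F (Prod.map f g z :: m))) ((z :: l).map (Prod.map f g)) =
          dd (hh k (fun m => F (Prod.map f g z :: m.map (Prod.map f g)))) (z :: l) := by
        rw [← dd_map]
        congr 1
        funext m
        exact ih (fun m => F (Prod.map f g z :: m)) m
      rw [List.map_cons] at h1 h2 ⊢
      rw [hh_succ_cons, hh_succ_cons, h1, h2]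
      rfl

theorem abs_hh_le (k : ℕ) : ∃ K : ℝ, 0 ≤ K ∧ ∀ (F : List (S × Y) → ℝ) (C : ℝ), 0 ≤ C →
    (∀ m, |F m| ≤ C) → ∀ l : List (S × Y), l.length = k → |hh k F l| ≤ K * C := by
  induction k with
  | zero =>
    refine ⟨0, le_rfl, fun F C hC _ l _ => ?_⟩
    rw [hh_zero, abs_zero, zero_mul]
  | succ k ih =>
    obtain ⟨K, hK, h⟩ := ih
    obtain ⟨K', hK', h'⟩ := abs_tt_le (S := S) (Y := Y) (k + 1)
    refine ⟨1 + K' + (k + 1) * K, by positivity, fun F C hC hF l hl => ?_⟩
    cases l with
    | nil =>
      rw [List.length_nil] at hl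
      omega
    | cons z l =>
      rw [hh_succ_cons]
      have h1 := hF (z :: z :: l)
      have h2 := h' (fun m => F (z :: m)) C hC (fun m => hF _) (z :: l) hl
      have h3 := abs_dd_le (hh k (fun m => F (z :: m))) (K * C) (z :: l) (fun m hm =>
        h (fun m => F (z :: m)) C hC (fun m => hF _) m (by omega))
      rw [hl] at h3
      push_cast at h3
      have h4 := abs_sub (F (z :: z :: l) - tt (fun m => F (z :: m)) (z :: l))
        (dd (hh k (fun m => F (z :: m))) (z :: l))
      have h5 := abs_sub (F (z :: z :: l)) (tt (fun m => F (z :: m)) (z :: l))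
      have h6 : (1 + K' + (k + 1) * K) * C = C + K' * C + (k + 1) * (K * C) := by ring
      rw [h6]
      linarith

theorem homotopy (k : ℕ) (F : List (S × Y) → ℝ) (l : List (S × Y)) (hl : l.length = k + 1) :
    hh (k + 1) (dd F) l + dd (hh k F) l = F l - tt F l := by
  induction k generalizing F l with
  | zero =>
    obtain ⟨z, rfl⟩ := List.length_eq_one_iff.mp hl
    rw [hh_succ_cons]
    have h1 : (fun m => dd F (z :: m)) = fun m => F m - dd (fun m => F (z :: m)) m := by
      funext m
      rw [dd_cons]
    have h2 : ∀ G : List (S × Y) → ℝ, dd (hh 0 G) [z] = 0 := by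
      intro G
      rw [dd_cons, hh_zero, dd_nil, sub_zero]
    have h3 : tt (dd (fun m => F (z :: m))) [z] = F [z] := by
      rw [tt_dd, dd_cons, dd_nil, tt_nil, sub_zero]
    have h4 : dd F [z, z] = 0 := by
      rw [dd_cons, dd_cons, dd_nil, sub_zero, sub_self]
    rw [h1, h2, h2, h4, tt_sub, h3]
    ring
  | succ j ih =>
    cases l with
    | nil =>
      rw [List.length_nil] at hl
      omega
    | cons z l =>
      rw [hh_succ_cons]
      have h1 : (fun m => dd F (z :: m)) = fun m => F m - dd (fun m => F (z :: m)) m := by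
        funext m
        rw [dd_cons]
      have h2 : hh (j + 1) (fun m => F m - dd (fun m => F (z :: m)) m) =
          fun m => hh (j + 1) F m - hh (j + 1) (dd (fun m => F (z :: m))) m := by
        funext m
        exact hh_sub (j + 1) F (dd (fun m => F (z :: m))) m
      have h3 : dd (hh (j + 1) (dd (fun m => F (z :: m)))) (z :: l) =
          dd (fun m => F (z :: m)) (z :: l) - tt (dd (fun m => F (z :: m))) (z :: l) := by
        have h4 : dd (hh (j + 1) (dd (fun m => F (z :: m)))) (z :: l) =
            dd (fun m => F (z :: m) - tt (fun m => F (z :: m)) m -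
              dd (hh j (fun m => F (z :: m))) m) (z :: l) := by
          refine dd_congr _ _ _ (fun m hm => ?_)
          have h5 := ih (fun m => F (z :: m)) m (by
            rw [List.length_cons] at hm hl
            omega)
          linarith
        rw [h4, dd_sub (fun m => F (z :: m) - tt (fun m => F (z :: m)) m)
          (dd (hh j (fun m => F (z :: m)))), dd_sub (fun m => F (z :: m))
          (tt (fun m => F (z :: m))), dd_dd, tt_dd, sub_zero]
      rw [h1, h2, dd_sub, h3, tt_sub F (dd (fun m => F (z :: m))), dd_cons F z (z :: l)]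
      ring

end SimplVol
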