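import Pool.Agent.H54.RT.TB

/-!
# Module IN: insertion of a leaf on the top edge

`TopSide τ f`: the last (= highest) division of `τ` is `eF f = (f a == f b)`; `A = {f = true}`, `B = {f = false}`. The new leaf (index `0`; the old
leaf `i` becomes `i.succ`) is inserted after `A` and before `B` in the cyclic order. `a₀ ∈ A`, `b₀ ∈ B` are fixed.
`extS x s` puts the new leaf next to `x` in the division `s`.
FACTS. (1) Every `s ∈ τ.l`, `s ≠ eF f`, is constant on `A` or on `B` (`∀ a a', f a = f a' = true → s a a'`, or the same for `B`): else there are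
`a, a' ∈ A` with `¬ s a a'`, `b, b' ∈ B` with `¬ s b b'`; `s` has two classes (`τ.split`), so `s a b, s a' b'` or `s a b', s a' b`;
contradiction to `τ.excl` with `eF f` (`Sep (eF f) a a' b b'`, `Sep s a b a' b'`). It is not constant on both, else it is `eF f` or has
only one class (against `τ.nt`).
(2) `τ.o b₀ q r` for `q, r ∈ A` does not depend on `b₀ ∈ B` (`τ.planar` for `eF f`, `Sep q r b₀ b₀'`, `o_rot`); the same with `A`, `B` exchanged.
THE CONDITIONS FOR `ins`. `gI q r` is the value of `o` on (new, q, r). It is antisymmetric. `o_coc` with the new leaf first: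
`o p q r - gI q r + gI p r - gI p q = 0` (with the sign conventions): if `p, q, r ∈ A` this is `o_coc` for `b₀, p, q, r`; if `p, q ∈ A`, `r ∈ B`:
`gI q r = -1 = gI p r`, `gI p q = o b₀ p q = o r p q = o p q r` (2); the other cases are similar (antisymmetry). If the new leaf is not
first, reduce to this case by `o_swap`/`o_rot` (all four positions), if it occurs twice everything cancels by antisymmetry.
`nodup`: the new divisions restrict (along `Fin.succ`) to the old ones, `eF f` twice; `extS b₀ (eF f) ≠ extS a₀ (eF f)` at `(0, a₀.succ)`.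
`split`: `extS x s` is given by `f' ∘ (Fin.cases x id)`. `nt`: the old witnesses.
`planar`, `excl`, `res` for four leaves: if the new leaf does not occur, use the old tree. All new divisions have the form `extS b₀ s` with `s` constant on `B`
(or `s = eF f`), or `extS a₀ s` with `s` constant on `A` (or `s = eF f`); note that `eF f` is constant on both.
`planar`: `Sep s' a b c d` with the new leaf among them, say (by the symmetries of `Sep`) it is `a` or `b` or `c` or `d`: compare with `b₀` (or `a₀`) in its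
place; the value `gI q r` equals `o b₀ q r` unless one of `q, r` is in `B`...: the statement is that for `s' = extS b₀ s`, `s` constant on `B`,
`Sep s' 0 p q r` (so `b₀ ~ p`, `q ~ r`, `b₀ ≁ q`, hence `q, r ∈ A`) `gI p q = gI p r`: if `p ∈ A` this is `o b₀ p q = o b₀ p r` (planar for `s`),
if `p ∈ B` both are `1`; and the other form of the statement (`o q r 0 = o q r p`): `gI q r = o b₀ q r = o p q r` (planar). The same for `extS a₀ s`.
`res`: for (new, p, q, r) with all of `p, q, r ∈ A`: use `res` of `b₀, p, q, r` (the division found is not `eF f`, and it is not constant on `A`, so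
constant on `B`); two in `A`, one in `B`: `p, q ∈ A`, `r ∈ B`: `extS b₀ (eF f)` separates `{new, r}`, `{p, q}`; one in `A`, two in `B`: `extS a₀ (eF f)`.
`excl`: `extS x s`, `extS x t` with the same `x`: from `excl` at `x`. `extS b₀ s` (`s` constant on `B`) and `extS a₀ t` (`t` constant on `A`): say
`b₀ ~_s p`, `q ~_s r`, `b₀ ≁_s q`, so `q, r ∈ A`; `a₀ ~_t q`, `p ~_t r`, `a₀ ≁_t p`: but `r ∈ A` gives `a₀ ~_t r ~_t p`, contradiction.
-/

set_option autoImplicit false

open scoped BigOperators Nat

namespace SimplVol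

/-- The division given by a function. -/
def eF {m : ℕ} (f : Fin m → Bool) : Split m := fun a b => (f a == f b)

/-- The highest division of the tree is the one given by `f`. -/
def TopSide {m : ℕ} (τ : RTree m) (f : Fin m → Bool) : Prop := ∃ l₀, τ.l = l₀ ++ [eF f]

/-- The division of the larger set in which the new leaf is next to `x`. -/
def extS {m : ℕ} (x : Fin m) (s : Split m) : Split (m + 1) := fun p q =>
  s (Fin.cases x (fun i => i) p) (Fin.cases x (fun i => i) q)

/-- The orientation of (new, `q`, `r`). -/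
def gI {m : ℕ} (τ : RTree m) (f : Fin m → Bool) (a₀ b₀ : Fin m) (q r : Fin m) : ℤ :=
  if f q = f r then (if f q = true then τ.o b₀ q r else τ.o a₀ q r) else (if f r = true then 1 else -1)

/-- The new orientation. -/
def oI {m : ℕ} (τ : RTree m) (f : Fin m → Bool) (a₀ b₀ : Fin m) (p q r : Fin (m + 1)) : ℤ :=
  Fin.cases (motive := fun _ => ℤ)
    (Fin.cases (motive := fun _ => ℤ) 0
      (fun q' => Fin.cases (motive := fun _ => ℤ) 0 (fun r' => gI τ f a₀ b₀ q' r') r) q)
    (fun p' => Fin.cases (motive := fun _ => ℤ)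
      (Fin.cases (motive := fun _ => ℤ) 0 (fun r' => - gI τ f a₀ b₀ p' r') r)
      (fun q' => Fin.cases (motive := fun _ => ℤ) (gI τ f a₀ b₀ p' q')
        (fun r' => τ.o p' q' r') r) q) p

/-- The extension of a division (other than the top one). -/
def extI {m : ℕ} (f : Fin m → Bool) (a₀ b₀ : Fin m) (s : Split m) : Split (m + 1) :=
  if ∀ b b', f b = false → f b' = false → s b b' = true then extS b₀ s else extS a₀ s

/-- The new list. -/
def lI {m : ℕ} (τ : RTree m) (f : Fin m → Bool) (a₀ b₀ : Fin m) : List (Split (m + 1)) :=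
  τ.l.dropLast.map (extI f a₀ b₀) ++ [extS b₀ (eF f), extS a₀ (eF f)]

theorem IN_mem {m : ℕ} (τ : RTree m) (f : Fin m → Bool) (h : TopSide τ f) : eF f ∈ τ.l := by
  obtain ⟨l₀, hl⟩ := h
  rw [hl]
  simp

theorem exists_side {m : ℕ} (τ : RTree m) (f : Fin m → Bool) (h : TopSide τ f) :
    ∃ p : Fin m × Fin m, f p.1 = true ∧ f p.2 = false := by
  obtain ⟨a, b, c, d, -, -, -, -, h3⟩ := τ.nt _ (IN_mem τ f h)
  have h3' : (f a == f c) = false := h3
  cases ha : f a <;> cases hc : f c
  · rw [ha, hc] at h3'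
    exact absurd h3' (by decide)
  · exact ⟨(c, a), hc, ha⟩
  · exact ⟨(a, c), ha, hc⟩
  · rw [ha, hc] at h3'
    exact absurd h3' (by decide)

theorem IN_beq (a b : Bool) : (a == b) = true ↔ a = b := by
  cases a <;> cases b <;> decide

theorem IN_bne (a b : Bool) : (a == b) = false ↔ a ≠ b := by
  cases a <;> cases b <;> decide

theorem IN_not (a b : Bool) (h : a ≠ b) : b = !a := by
  cases a <;> cases b <;> simp_all

/-- Fact (1). -/
theorem const_side {m : ℕ} (τ : RTree m) (f : Fin m → Bool) (h : TopSide τ f) (s : Split m)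
    (hs : s ∈ τ.l) (hne : s ≠ eF f) :
    ((∀ a a', f a = true → f a' = true → s a a' = true) ∧
      ¬ ∀ b b', f b = false → f b' = false → s b b' = true) ∨
    ((∀ b b', f b = false → f b' = false → s b b' = true) ∧
      ¬ ∀ a a', f a = true → f a' = true → s a a' = true) := by
  obtain ⟨g, hg⟩ := τ.split s hs
  have hmem := IN_mem τ f h
  have h1 : (∀ a a', f a = true → f a' = true → s a a' = true) ∨
      (∀ b b', f b = false → f b' = false → s b b' = true) := by
    by_contra hcon
    push Not at hcon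
    obtain ⟨⟨a, a', ha, ha', hsa⟩, ⟨b, b', hb, hb', hsb⟩⟩ := hcon
    have ga : g a ≠ g a' := by
      intro e
      apply hsa
      rw [hg, IN_beq]
      exact e
    have gb : g b ≠ g b' := by
      intro e
      apply hsb
      rw [hg, IN_beq]
      exact e
    by_cases e : g a = g b
    · have e' : g a' = g b' := by
        rw [IN_not _ _ ga, IN_not _ _ gb, e]
      refine τ.excl _ hmem _ hs a a' b b' ⟨?_, ?_, ?_⟩ ⟨?_, ?_, ?_⟩
      · show (f a == f a') = true
        rw [ha, ha']
        rfl
      · show (f b == f b') = true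
        rw [hb, hb']
        rfl
      · show (f a == f b) = false
        rw [ha, hb]
        rfl
      · rw [hg, IN_beq]
        exact e
      · rw [hg, IN_beq]
        exact e'
      · rw [hg, IN_bne]
        exact ga
    · have e1 : g b' = g a := by
        rw [IN_not _ _ gb, IN_not _ _ e, Bool.not_not]
      have e2 : g a' = g b := by
        rw [IN_not _ _ ga, IN_not _ _ e]
      refine τ.excl _ hmem _ hs a a' b' b ⟨?_, ?_, ?_⟩ ⟨?_, ?_, ?_⟩
      · show (f a == f a') = true
        rw [ha, ha']
        rfl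
      · show (f b' == f b) = true
        rw [hb, hb']
        rfl
      · show (f a == f b') = false
        rw [ha, hb']
        rfl
      · rw [hg, IN_beq]
        exact e1.symm
      · rw [hg, IN_beq]
        exact e2
      · rw [hg, IN_bne]
        exact ga
  have h2 : ¬ ((∀ a a', f a = true → f a' = true → s a a' = true) ∧
      (∀ b b', f b = false → f b' = false → s b b' = true)) := by
    rintro ⟨hA, hB⟩
    have hsame : ∀ x y, f x = f y → s x y = true := by
      intro x y hxy
      cases hx : f x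
      · exact hB x y hx (by rw [← hxy]; exact hx)
      · exact hA x y hx (by rw [← hxy]; exact hx)
    obtain ⟨a, -, c, -, -, -, -, -, h3⟩ := τ.nt s hs
    have gac : g a ≠ g c := by
      rw [hg, IN_bne] at h3
      exact h3
    have fac : f a ≠ f c := by
      intro e
      rw [hsame a c e] at h3
      exact absurd h3 (by decide)
    have gof : ∀ x y, f x = f y → g x = g y := by
      intro x y e
      have := hsame x y e
      rw [hg, IN_beq] at this
      exact this
    have key : ∀ x, (f x = f a ∧ g x = g a) ∨ (f x = f c ∧ g x = g c) := by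
      intro x
      by_cases e : f x = f a
      · exact Or.inl ⟨e, gof x a e⟩
      · have e' : f x = f c := by
          rw [IN_not _ _ (Ne.symm e), IN_not _ _ fac]
        exact Or.inr ⟨e', gof x c e'⟩
    apply hne
    funext x y
    show s x y = (f x == f y)
    rw [hg]
    rcases key x with ⟨x1, x2⟩ | ⟨x1, x2⟩ <;> rcases key y with ⟨y1, y2⟩ | ⟨y1, y2⟩ <;>
      rw [x1, x2, y1, y2]
    · rw [(IN_beq (g a) (g a)).2 rfl, (IN_beq (f a) (f a)).2 rfl]
    · rw [(IN_bne (g a) (g c)).2 gac, (IN_bne (f a) (f c)).2 fac]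
    · rw [(IN_bne (g c) (g a)).2 (Ne.symm gac), (IN_bne (f c) (f a)).2 (Ne.symm fac)]
    · rw [(IN_beq (g c) (g c)).2 rfl, (IN_beq (f c) (f c)).2 rfl]
  rcases h1 with hA | hB
  · exact Or.inl ⟨hA, fun hB => h2 ⟨hA, hB⟩⟩
  · exact Or.inr ⟨hB, fun hA => h2 ⟨hA, hB⟩⟩

/-- Fact (2). -/
theorem o_side {m : ℕ} (τ : RTree m) (f : Fin m → Bool) (h : TopSide τ f) (x y q r : Fin m)
    (hxy : f x = f y) (hqr : f q = f r) (hxq : f x ≠ f q) : τ.o x q r = τ.o y q r := by
  have h1 := τ.planar _ (IN_mem τ f h) q r x y ⟨?_, ?_, ?_⟩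
  · rw [← τ.o_rot x q r, ← τ.o_rot y q r]
    exact h1
  · show (f q == f r) = true
    rw [IN_beq]
    exact hqr
  · show (f x == f y) = true
    rw [IN_beq]
    exact hxy
  · show (f q == f x) = false
    rw [IN_bne]
    exact Ne.symm hxq

section evals
variable {m : ℕ} (τ : RTree m) (f : Fin m → Bool) (a₀ b₀ : Fin m)

theorem IN_e1 (x : Fin (m + 1)) : oI τ f a₀ b₀ 0 0 x = 0 := rfl
theorem IN_e2 (q : Fin m) : oI τ f a₀ b₀ 0 q.succ 0 = 0 := rfl
theorem IN_e3 (q r : Fin m) : oI τ f a₀ b₀ 0 q.succ r.succ = gI τ f a₀ b₀ q r := rfl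
theorem IN_e4 (p : Fin m) : oI τ f a₀ b₀ p.succ 0 0 = 0 := rfl
theorem IN_e5 (p r : Fin m) : oI τ f a₀ b₀ p.succ 0 r.succ = - gI τ f a₀ b₀ p r := rfl
theorem IN_e6 (p q : Fin m) : oI τ f a₀ b₀ p.succ q.succ 0 = gI τ f a₀ b₀ p q := rfl
theorem IN_e7 (p q r : Fin m) : oI τ f a₀ b₀ p.succ q.succ r.succ = τ.o p q r := rfl

theorem IN_g1 (q r : Fin m) (hq : f q = true) (hr : f r = true) :
    gI τ f a₀ b₀ q r = τ.o b₀ q r := by
  unfold gI
  rw [if_pos (by rw [hq, hr]), if_pos hq]

theorem IN_g2 (q r : Fin m) (hq : f q = false) (hr : f r = false) :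
    gI τ f a₀ b₀ q r = τ.o a₀ q r := by
  unfold gI
  rw [if_pos (by rw [hq, hr]), if_neg (by rw [hq]; decide)]

theorem IN_g3 (q r : Fin m) (hq : f q = false) (hr : f r = true) :
    gI τ f a₀ b₀ q r = 1 := by
  unfold gI
  rw [if_neg (by rw [hq, hr]; decide), if_pos hr]

theorem IN_g4 (q r : Fin m) (hq : f q = true) (hr : f r = false) :
    gI τ f a₀ b₀ q r = -1 := by
  unfold gI
  rw [if_neg (by rw [hq, hr]; decide), if_neg (by rw [hr]; decide)]

theorem IN_anti (q r : Fin m) : gI τ f a₀ b₀ r q = - gI τ f a₀ b₀ q r := by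
  cases hq : f q <;> cases hr : f r
  · rw [IN_g2 τ f a₀ b₀ q r hq hr, IN_g2 τ f a₀ b₀ r q hr hq]
    exact τ.o_swap _ _ _
  · rw [IN_g3 τ f a₀ b₀ q r hq hr, IN_g4 τ f a₀ b₀ r q hr hq]
  · rw [IN_g4 τ f a₀ b₀ q r hq hr, IN_g3 τ f a₀ b₀ r q hr hq]
    rfl
  · rw [IN_g1 τ f a₀ b₀ q r hq hr, IN_g1 τ f a₀ b₀ r q hr hq]
    exact τ.o_swap _ _ _

end evals

theorem IN_gvals {m : ℕ} (τ : RTree m) (f : Fin m → Bool) (a₀ b₀ : Fin m)
    (ha : f a₀ = true) (hb : f b₀ = false) (q r : Fin m) (h : q ≠ r) :
    gI τ f a₀ b₀ q r = 1 ∨ gI τ f a₀ b₀ q r = -1 := by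
  have hne : ∀ x y : Fin m, f x ≠ f y → x ≠ y := fun x y h1 h2 => h1 (by rw [h2])
  cases hq : f q <;> cases hr : f r
  · rw [IN_g2 τ f a₀ b₀ q r hq hr]
    exact τ.o_vals _ _ _ (hne _ _ (by rw [ha, hq]; decide)) h (hne _ _ (by rw [ha, hr]; decide))
  · rw [IN_g3 τ f a₀ b₀ q r hq hr]
    exact Or.inl rfl
  · rw [IN_g4 τ f a₀ b₀ q r hq hr]
    exact Or.inr rfl
  · rw [IN_g1 τ f a₀ b₀ q r hq hr]
    exact τ.o_vals _ _ _ (hne _ _ (by rw [hb, hq]; decide)) h (hne _ _ (by rw [hb, hr]; decide))

theorem oI_vals {m : ℕ} (τ : RTree m) (f : Fin m → Bool) (h : TopSide τ f) (a₀ b₀ : Fin m)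
    (ha : f a₀ = true) (hb : f b₀ = false) (a b c : Fin (m + 1)) (h1 : a ≠ b) (h2 : b ≠ c)
    (h3 : a ≠ c) : oI τ f a₀ b₀ a b c = 1 ∨ oI τ f a₀ b₀ a b c = -1 := by
  have hG := IN_gvals τ f a₀ b₀ ha hb
  cases a using Fin.cases with
  | zero =>
    cases b using Fin.cases with
    | zero => exact absurd rfl h1
    | succ b =>
      cases c using Fin.cases with
      | zero => exact absurd rfl h3
      | succ c =>
        rw [IN_e3]
        exact hG b c (fun e => h2 (by rw [e]))
  | succ a =>
    cases b using Fin.cases with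
    | zero =>
      cases c using Fin.cases with
      | zero => exact absurd rfl h2
      | succ c =>
        rw [IN_e5]
        rcases hG a c (fun e => h3 (by rw [e])) with h4 | h4
        · exact Or.inr (by rw [h4])
        · exact Or.inl (by rw [h4]; rfl)
    | succ b =>
      cases c using Fin.cases with
      | zero =>
        rw [IN_e6]
        exact hG a b (fun e => h1 (by rw [e]))
      | succ c =>
        rw [IN_e7]
        exact τ.o_vals _ _ _ (fun e => h1 (by rw [e])) (fun e => h2 (by rw [e]))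
          (fun e => h3 (by rw [e]))

theorem oI_swap {m : ℕ} (τ : RTree m) (f : Fin m → Bool) (a₀ b₀ : Fin m)
    (a b c : Fin (m + 1)) : oI τ f a₀ b₀ a c b = - oI τ f a₀ b₀ a b c := by
  cases a using Fin.cases with
  | zero =>
    cases b using Fin.cases with
    | zero =>
      cases c using Fin.cases with
      | zero => rfl
      | succ c => rfl
    | succ b =>
      cases c using Fin.cases with
      | zero => rfl
      | succ c =>
        rw [IN_e3, IN_e3]
        exact IN_anti τ f a₀ b₀ b c
  | succ a =>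
    cases b using Fin.cases with
    | zero =>
      cases c using Fin.cases with
      | zero => rfl
      | succ c => rw [IN_e5, IN_e6, neg_neg]
    | succ b =>
      cases c using Fin.cases with
      | zero => rw [IN_e5, IN_e6]
      | succ c =>
        rw [IN_e7, IN_e7]
        exact τ.o_swap _ _ _

theorem oI_rot {m : ℕ} (τ : RTree m) (f : Fin m → Bool) (a₀ b₀ : Fin m)
    (a b c : Fin (m + 1)) : oI τ f a₀ b₀ b c a = oI τ f a₀ b₀ a b c := by
  cases a using Fin.cases with
  | zero =>
    cases b using Fin.cases with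
    | zero =>
      cases c using Fin.cases with
      | zero => rfl
      | succ c => rfl
    | succ b =>
      cases c using Fin.cases with
      | zero => rfl
      | succ c => rfl
  | succ a =>
    cases b using Fin.cases with
    | zero =>
      cases c using Fin.cases with
      | zero => rfl
      | succ c =>
        rw [IN_e3, IN_e5]
        exact IN_anti τ f a₀ b₀ a c
    | succ b =>
      cases c using Fin.cases with
      | zero =>
        rw [IN_e5, IN_e6, IN_anti τ f a₀ b₀ a b, neg_neg]
      | succ c =>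
        rw [IN_e7, IN_e7]
        exact τ.o_rot _ _ _

theorem IN_K {m : ℕ} (τ : RTree m) (f : Fin m → Bool) (h : TopSide τ f) (a₀ b₀ : Fin m)
    (ha : f a₀ = true) (hb : f b₀ = false) (p q r : Fin m) :
    τ.o p q r - gI τ f a₀ b₀ q r + gI τ f a₀ b₀ p r - gI τ f a₀ b₀ p q = 0 := by
  have hrot := τ.o_rot
  have hsw := τ.o_swap
  cases hp : f p <;> cases hq : f q <;> cases hr : f r
  · rw [IN_g2 τ f a₀ b₀ q r hq hr, IN_g2 τ f a₀ b₀ p r hp hr, IN_g2 τ f a₀ b₀ p q hp hq]
    exact τ.o_coc _ _ _ _
  · rw [IN_g3 τ f a₀ b₀ q r hq hr, IN_g3 τ f a₀ b₀ p r hp hr, IN_g2 τ f a₀ b₀ p q hp hq]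
    have h1 := o_side τ f h r a₀ p q (by rw [hr, ha]) (by rw [hp, hq]) (by rw [hr, hp]; decide)
    have h2 := hrot r p q
    omega
  · rw [IN_g4 τ f a₀ b₀ q r hq hr, IN_g2 τ f a₀ b₀ p r hp hr, IN_g3 τ f a₀ b₀ p q hp hq]
    have h1 := o_side τ f h q a₀ p r (by rw [hq, ha]) (by rw [hp, hr]) (by rw [hq, hp]; decide)
    have h2 := hrot p q r
    have h3 := hsw q p r
    omega
  · rw [IN_g1 τ f a₀ b₀ q r hq hr, IN_g3 τ f a₀ b₀ p r hp hr, IN_g3 τ f a₀ b₀ p q hp hq]
    have h1 := o_side τ f h p b₀ q r (by rw [hp, hb]) (by rw [hq, hr]) (by rw [hp, hq]; decide)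
    omega
  · rw [IN_g2 τ f a₀ b₀ q r hq hr, IN_g4 τ f a₀ b₀ p r hp hr, IN_g4 τ f a₀ b₀ p q hp hq]
    have h1 := o_side τ f h p a₀ q r (by rw [hp, ha]) (by rw [hq, hr]) (by rw [hp, hq]; decide)
    omega
  · rw [IN_g3 τ f a₀ b₀ q r hq hr, IN_g1 τ f a₀ b₀ p r hp hr, IN_g4 τ f a₀ b₀ p q hp hq]
    have h1 := o_side τ f h q b₀ p r (by rw [hq, hb]) (by rw [hp, hr]) (by rw [hq, hp]; decide)
    have h2 := hrot p q r
    have h3 := hsw q p r
    omega
  · rw [IN_g4 τ f a₀ b₀ q r hq hr, IN_g4 τ f a₀ b₀ p r hp hr, IN_g1 τ f a₀ b₀ p q hp hq]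
    have h1 := o_side τ f h r b₀ p q (by rw [hr, hb]) (by rw [hp, hq]) (by rw [hr, hp]; decide)
    have h2 := hrot r p q
    omega
  · rw [IN_g1 τ f a₀ b₀ q r hq hr, IN_g1 τ f a₀ b₀ p r hp hr, IN_g1 τ f a₀ b₀ p q hp hq]
    exact τ.o_coc _ _ _ _

theorem oI_coc {m : ℕ} (τ : RTree m) (f : Fin m → Bool) (h : TopSide τ f) (a₀ b₀ : Fin m)
    (ha : f a₀ = true) (hb : f b₀ = false) (a b c d : Fin (m + 1)) :
    oI τ f a₀ b₀ b c d - oI τ f a₀ b₀ a c d + oI τ f a₀ b₀ a b d - oI τ f a₀ b₀ a b c = 0 := by
  have hK := IN_K τ f h a₀ b₀ ha hb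
  cases a using Fin.cases with
  | zero =>
    cases b using Fin.cases with
    | zero =>
      rw [IN_e1, IN_e1]
      ring
    | succ b =>
      cases c using Fin.cases with
      | zero =>
        rw [IN_e1, IN_e2]
        cases d using Fin.cases with
        | zero =>
          rw [IN_e4, IN_e2]
          ring
        | succ d =>
          rw [IN_e5, IN_e3]
          ring
      | succ c =>
        cases d using Fin.cases with
        | zero =>
          rw [IN_e6, IN_e2, IN_e2, IN_e3]
          ring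
        | succ d =>
          rw [IN_e7, IN_e3, IN_e3, IN_e3]
          exact hK b c d
  | succ a =>
    cases b using Fin.cases with
    | zero =>
      cases c using Fin.cases with
      | zero =>
        rw [IN_e1, IN_e4]
        ring
      | succ c =>
        cases d using Fin.cases with
        | zero =>
          rw [IN_e2, IN_e6, IN_e4, IN_e5]
          ring
        | succ d =>
          rw [IN_e3, IN_e7, IN_e5, IN_e5]
          have := hK a c d
          linarith
    | succ b =>
      cases c using Fin.cases with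
      | zero =>
        cases d using Fin.cases with
        | zero =>
          rw [IN_e4, IN_e4]
          ring
        | succ d =>
          rw [IN_e5, IN_e5, IN_e7, IN_e6]
          have := hK a b d
          linarith
      | succ c =>
        cases d using Fin.cases with
        | zero =>
          rw [IN_e6, IN_e6, IN_e6, IN_e7]
          have := hK a b c
          linarith
        | succ d =>
          rw [IN_e7, IN_e7, IN_e7, IN_e7]
          exact τ.o_coc _ _ _ _

end SimplVol
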