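import Pool.Agent.H54.RT.IN

/-!
# Module IN2: insertion of a leaf, the divisions; definition of `RTree.ins`

See the header of module IN for the proofs (nodup, split, nt, planar, res, excl). Useful first: `mem_lI`: a member `s'` of `lI` is
`extS b₀ s` with `s ∈ τ.l` constant on `B`, or `extS a₀ s` with `s ∈ τ.l` constant on `A` (`eF f ∈ τ.l` is constant on both), and conversely
`extS b₀ s ∈ lI` for `s ∈ τ.l` constant on `B`, `extS a₀ s ∈ lI` for `s ∈ τ.l` constant on `A` (for `s ≠ eF f` by `const_side`
`extI` picks the right one; `τ.l = τ.l.dropLast ++ [eF f]`, `List.dropLast_append_cons`/`List.dropLast_concat`).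
-/

set_option autoImplicit false

open scoped BigOperators Nat

namespace SimplVol

theorem IN2_not_mem {m : ℕ} (τ : RTree m) (f : Fin m → Bool) (l₀ : List (Split m))
    (h : τ.l = l₀ ++ [eF f]) : eF f ∉ l₀ := by
  intro hm
  have h1 := τ.nodup
  rw [h, List.nodup_append] at h1
  exact h1.2.2 _ hm _ (List.mem_singleton.2 rfl) rfl

theorem IN2_lI {m : ℕ} (τ : RTree m) (f : Fin m → Bool) (l₀ : List (Split m))
    (h : τ.l = l₀ ++ [eF f]) (a₀ b₀ : Fin m) :
    lI τ f a₀ b₀ = l₀.map (extI f a₀ b₀) ++ [extS b₀ (eF f), extS a₀ (eF f)] := by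
  unfold lI
  rw [h, List.dropLast_concat]

theorem mem_lI {m : ℕ} (τ : RTree m) (f : Fin m → Bool) (h : TopSide τ f) (a₀ b₀ : Fin m)
    (ha : f a₀ = true) (hb : f b₀ = false) (s' : Split (m + 1)) :
    s' ∈ lI τ f a₀ b₀ ↔
      (∃ s ∈ τ.l, (∀ b b', f b = false → f b' = false → s b b' = true) ∧ s' = extS b₀ s) ∨
      (∃ s ∈ τ.l, (∀ a a', f a = true → f a' = true → s a a' = true) ∧ s' = extS a₀ s) := by
  obtain ⟨l₀, hl⟩ := id h
  have hnm := IN2_not_mem τ f l₀ hl
  rw [IN2_lI τ f l₀ hl, List.mem_append, List.mem_map]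
  have hB : ∀ b b', f b = false → f b' = false → eF f b b' = true := by
    intro b b' h1 h2
    unfold eF
    rw [h1, h2]
    rfl
  have hA : ∀ b b', f b = true → f b' = true → eF f b b' = true := by
    intro b b' h1 h2
    unfold eF
    rw [h1, h2]
    rfl
  have hem : eF f ∈ τ.l := by
    rw [hl]
    exact List.mem_append_right _ (List.mem_singleton.2 rfl)
  constructor
  · rintro (⟨s, hs, rfl⟩ | hs)
    · have hs' : s ∈ τ.l := by
        rw [hl]
        exact List.mem_append_left _ hs
      have hne : s ≠ eF f := fun h0 => hnm (h0 ▸ hs)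
      unfold extI
      rcases const_side τ f h s hs' hne with ⟨h1, h2⟩ | ⟨h1, h2⟩
      · rw [if_neg h2]
        exact Or.inr ⟨s, hs', h1, rfl⟩
      · rw [if_pos h1]
        exact Or.inl ⟨s, hs', h1, rfl⟩
    · rw [List.mem_cons, List.mem_singleton] at hs
      rcases hs with rfl | rfl
      · exact Or.inl ⟨eF f, hem, hB, rfl⟩
      · exact Or.inr ⟨eF f, hem, hA, rfl⟩
  · rintro (⟨s, hs, h1, rfl⟩ | ⟨s, hs, h1, rfl⟩)
    · by_cases hne : s = eF f
      · right
        rw [hne]
        exact List.mem_cons_self
      · left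
        rw [hl, List.mem_append, List.mem_singleton] at hs
        rcases hs with hs | hs
        · refine ⟨s, hs, ?_⟩
          unfold extI
          rw [if_pos h1]
        · exact absurd hs hne
    · by_cases hne : s = eF f
      · right
        rw [hne]
        exact List.mem_cons_of_mem _ (List.mem_singleton.2 rfl)
      · left
        rcases const_side τ f h s hs hne with ⟨_, h2⟩ | ⟨_, h2⟩
        · rw [hl, List.mem_append, List.mem_singleton] at hs
          rcases hs with hs | hs
          · refine ⟨s, hs, ?_⟩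
            unfold extI
            rw [if_neg h2]
          · exact absurd hs hne
        · exact absurd h1 h2

theorem IN2_extI_succ {m : ℕ} (f : Fin m → Bool) (a₀ b₀ : Fin m) (s : Split m) (p q : Fin m) :
    extI f a₀ b₀ s p.succ q.succ = s p q := by
  unfold extI
  split_ifs
  · rfl
  · rfl

/-- uniform form of membership. -/
theorem IN2_cases {m : ℕ} (τ : RTree m) (f : Fin m → Bool) (h : TopSide τ f) (a₀ b₀ : Fin m)
    (ha : f a₀ = true) (hb : f b₀ = false) (s' : Split (m + 1)) :
    s' ∈ lI τ f a₀ b₀ ↔ ∃ x, (x = a₀ ∨ x = b₀) ∧ ∃ s ∈ τ.l,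
      (∀ p q, f p = f x → f q = f x → s p q = true) ∧ s' = extS x s := by
  rw [mem_lI τ f h a₀ b₀ ha hb]
  constructor
  · rintro (⟨s, hs, h1, rfl⟩ | ⟨s, hs, h1, rfl⟩)
    · refine ⟨b₀, Or.inr rfl, s, hs, ?_, rfl⟩
      rw [hb]
      exact h1
    · refine ⟨a₀, Or.inl rfl, s, hs, ?_, rfl⟩
      rw [ha]
      exact h1
  · rintro ⟨x, rfl | rfl, s, hs, h1, rfl⟩
    · rw [ha] at h1
      exact Or.inr ⟨s, hs, h1, rfl⟩
    · rw [hb] at h1
      exact Or.inl ⟨s, hs, h1, rfl⟩

/-- symmetries of the relation of separation. -/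
theorem IN2_sep {m : ℕ} (s : Split m) (hs : ∃ g : Fin m → Bool, ∀ a b, s a b = (g a == g b))
    (a b c d : Fin m) (h : Sep s a b c d) :
    Sep s b a c d ∧ Sep s a b d c ∧ Sep s c d a b := by
  obtain ⟨g, hg⟩ := hs
  unfold Sep at h ⊢
  simp only [hg] at h ⊢
  generalize g a = A at h ⊢
  generalize g b = B at h ⊢
  generalize g c = C at h ⊢
  generalize g d = D at h ⊢
  revert h
  revert A B C D
  decide

theorem lI_nodup {m : ℕ} (τ : RTree m) (f : Fin m → Bool) (h : TopSide τ f) (a₀ b₀ : Fin m)
    (ha : f a₀ = true) (hb : f b₀ = false) : (lI τ f a₀ b₀).Nodup := by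
  obtain ⟨l₀, hl⟩ := h
  have hnm := IN2_not_mem τ f l₀ hl
  have hnd := τ.nodup
  rw [hl, List.nodup_append] at hnd
  have hinj : Function.Injective (extI f a₀ b₀) := by
    intro s t hst
    funext p q
    rw [← IN2_extI_succ f a₀ b₀ s p q, ← IN2_extI_succ f a₀ b₀ t p q, hst]
  have hdiff : ∀ s ∈ l₀, ∀ x : Fin m, extI f a₀ b₀ s ≠ extS x (eF f) := by
    intro s hs x hx
    apply hnm
    have : s = eF f := by
      funext p q
      rw [← IN2_extI_succ f a₀ b₀ s p q, hx]
      rfl
    rw [← this]
    exact hs
  rw [IN2_lI τ f l₀ hl, List.nodup_append]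
  refine ⟨hnd.1.map hinj, ?_, ?_⟩
  · rw [List.nodup_cons]
    refine ⟨?_, List.nodup_singleton _⟩
    rw [List.mem_singleton]
    intro h0
    have h1 := congrFun (congrFun h0 0) a₀.succ
    have h2 : extS b₀ (eF f) 0 a₀.succ = (f b₀ == f a₀) := rfl
    have h3 : extS a₀ (eF f) 0 a₀.succ = (f a₀ == f a₀) := rfl
    rw [h2, h3, ha, hb] at h1
    exact absurd h1 (by decide)
  · intro s hs t ht
    obtain ⟨s', hs', rfl⟩ := List.mem_map.1 hs
    rw [List.mem_cons, List.mem_singleton] at ht
    rcases ht with rfl | rfl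
    · exact hdiff s' hs' _
    · exact hdiff s' hs' _

theorem lI_split {m : ℕ} (τ : RTree m) (f : Fin m → Bool) (h : TopSide τ f) (a₀ b₀ : Fin m)
    (ha : f a₀ = true) (hb : f b₀ = false) (s : Split (m + 1)) (hs : s ∈ lI τ f a₀ b₀) :
    ∃ f' : Fin (m + 1) → Bool, ∀ a b, s a b = (f' a == f' b) := by
  obtain ⟨x, _, t, ht, _, rfl⟩ := (IN2_cases τ f h a₀ b₀ ha hb s).1 hs
  obtain ⟨g, hg⟩ := τ.split t ht
  exact ⟨fun a => g (Fin.cases (motive := fun _ => Fin m) x (fun i => i) a), fun a b => hg _ _⟩

theorem lI_nt {m : ℕ} (τ : RTree m) (f : Fin m → Bool) (h : TopSide τ f) (a₀ b₀ : Fin m)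
    (ha : f a₀ = true) (hb : f b₀ = false) (s : Split (m + 1)) (hs : s ∈ lI τ f a₀ b₀) : NT s := by
  obtain ⟨x, _, t, ht, _, rfl⟩ := (IN2_cases τ f h a₀ b₀ ha hb s).1 hs
  obtain ⟨a, b, c, d, h1, h2, h3⟩ := τ.nt t ht
  exact ⟨a.succ, b.succ, c.succ, d.succ, fun h0 => h1 (Fin.succ_injective _ h0),
    fun h0 => h2 (Fin.succ_injective _ h0), h3⟩

theorem IN2_bool {a b c : Bool} (h1 : a ≠ c) (h2 : b ≠ c) : a = b := by
  revert a b c
  decide

theorem IN2_planar {m : ℕ} (τ : RTree m) (f : Fin m → Bool) (a₀ b₀ : Fin m)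
    (ha : f a₀ = true) (hb : f b₀ = false) (x : Fin m) (hx : x = a₀ ∨ x = b₀) (t : Split m)
    (ht : t ∈ τ.l) (hc : ∀ p q, f p = f x → f q = f x → t p q = true)
    (a b c d : Fin (m + 1)) (hsep : Sep (extS x t) a b c d) :
    oI τ f a₀ b₀ a b c = oI τ f a₀ b₀ a b d := by
  obtain ⟨g, hg⟩ := τ.split t ht
  have tsymm : ∀ p q, t p q = t q p := by
    intro p q
    rw [hg, hg]
    generalize g p = P
    generalize g q = Q
    revert P Q
    decide
  have ttrans : ∀ p q r, t p q = true → t q r = false → t p r = false := by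
    intro p q r
    rw [hg, hg, hg]
    generalize g p = P
    generalize g q = Q
    generalize g r = R
    revert P Q R
    decide
  have trefl : ∀ p, t p p = true := by
    intro p
    rw [hg]
    generalize g p = P
    revert P
    decide
  have G1 : ∀ q r, f q = f r → f q ≠ f x → gI τ f a₀ b₀ q r = τ.o x q r := by
    intro q r h1 h2
    unfold gI
    rw [if_pos h1]
    rcases hx with rfl | rfl
    · rw [ha] at h2
      rw [if_neg h2]
    · rw [hb] at h2
      rw [if_pos (by revert h2; generalize f q = Q; revert Q; decide)]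
  have G2 : ∀ q r, f q ≠ f r → gI τ f a₀ b₀ q r = if f r = true then 1 else -1 := by
    intro q r h1
    unfold gI
    rw [if_neg h1]
  have hne : ∀ c, t x c = false → f c ≠ f x := by
    intro c h1 h2
    rw [hc x c rfl h2] at h1
    exact absurd h1 (by decide)
  have M1 : ∀ b c d, t x b = true → t c d = true → t x c = false →
      gI τ f a₀ b₀ b c = gI τ f a₀ b₀ b d := by
    intro b c d h1 h2 h3
    have h4 : t x d = false := by
      rw [tsymm x d]
      exact ttrans d c x (by rw [tsymm]; exact h2) (by rw [tsymm]; exact h3)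
    have h5 := hne c h3
    have h6 := hne d h4
    have h7 : f c = f d := IN2_bool h5 h6
    by_cases h8 : f b = f c
    · rw [G1 b c h8 (by rw [h8]; exact h5), G1 b d (h8.trans h7) (by rw [h8]; exact h5)]
      exact τ.planar t ht x b c d ⟨h1, h2, h3⟩
    · rw [G2 b c h8, G2 b d (by rw [← h7]; exact h8), h7]
  have M2 : ∀ a b d, t a b = true → t x d = true → t a x = false →
      gI τ f a₀ b₀ a b = τ.o a b d := by
    intro a b d h1 h2 h3
    have h4 : t x a = false := by
      rw [tsymm]
      exact h3
    have h5 : t x b = false := by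
      rw [tsymm]
      exact ttrans b a x (by rw [tsymm]; exact h1) h3
    have h6 := hne a h4
    have h7 := hne b h5
    rw [G1 a b (IN2_bool h6 h7) h6, ← τ.o_rot x a b]
    exact τ.planar t ht a b x d ⟨h1, h2, h3⟩
  induction a using Fin.cases with
  | zero =>
    induction b using Fin.cases with
    | zero => rfl
    | succ b =>
      induction c using Fin.cases with
      | zero =>
        have h1 : t x x = false := hsep.2.2
        rw [trefl] at h1
        exact absurd h1 (by decide)
      | succ c =>
        induction d using Fin.cases with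
        | zero =>
          have h1 : t c x = true := hsep.2.1
          have h2 : t x c = false := hsep.2.2
          rw [tsymm, h1] at h2
          exact absurd h2 (by decide)
        | succ d =>
          show gI τ f a₀ b₀ b c = gI τ f a₀ b₀ b d
          exact M1 b c d hsep.1 hsep.2.1 hsep.2.2
  | succ a =>
    induction b using Fin.cases with
    | zero =>
      have h0 : t a x = true := hsep.1
      induction c using Fin.cases with
      | zero =>
        have h1 : t a x = false := hsep.2.2
        rw [h0] at h1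
        exact absurd h1 (by decide)
      | succ c =>
        have h1 : t a c = false := hsep.2.2
        induction d using Fin.cases with
        | zero =>
          have h2 : t c x = true := hsep.2.1
          have h3 : t c a = false := by
            rw [tsymm]
            exact h1
          have h4 := ttrans x c a (by rw [tsymm]; exact h2) h3
          rw [tsymm, h0] at h4
          exact absurd h4 (by decide)
        | succ d =>
          show - gI τ f a₀ b₀ a c = - gI τ f a₀ b₀ a d
          rw [M1 a c d (by rw [tsymm]; exact h0) hsep.2.1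
            (ttrans x a c (by rw [tsymm]; exact h0) h1)]
    | succ b =>
      have h0 : t a b = true := hsep.1
      induction c using Fin.cases with
      | zero =>
        have h1 : t a x = false := hsep.2.2
        induction d using Fin.cases with
        | zero => rfl
        | succ d =>
          show gI τ f a₀ b₀ a b = τ.o a b d
          exact M2 a b d h0 hsep.2.1 h1
      | succ c =>
        have h1 : t a c = false := hsep.2.2
        induction d using Fin.cases with
        | zero =>
          have h2 : t c x = true := hsep.2.1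
          show τ.o a b c = gI τ f a₀ b₀ a b
          refine (M2 a b c h0 (by rw [tsymm]; exact h2) ?_).symm
          rw [tsymm]
          exact ttrans x c a (by rw [tsymm]; exact h2) (by rw [tsymm]; exact h1)
        | succ d => exact τ.planar t ht a b c d hsep

theorem lI_planar {m : ℕ} (τ : RTree m) (f : Fin m → Bool) (h : TopSide τ f) (a₀ b₀ : Fin m)
    (ha : f a₀ = true) (hb : f b₀ = false) (s : Split (m + 1)) (hs : s ∈ lI τ f a₀ b₀)
    (a b c d : Fin (m + 1)) (hsep : Sep s a b c d) :
    oI τ f a₀ b₀ a b c = oI τ f a₀ b₀ a b d := by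
  obtain ⟨x, hx, t, ht, hc, rfl⟩ := (IN2_cases τ f h a₀ b₀ ha hb s).1 hs
  exact IN2_planar τ f a₀ b₀ ha hb x hx t ht hc a b c d hsep

/-- every old division has an extension. -/
theorem IN2_ext {m : ℕ} (τ : RTree m) (f : Fin m → Bool) (h : TopSide τ f) (a₀ b₀ : Fin m)
    (ha : f a₀ = true) (hb : f b₀ = false) (s : Split m) (hs : s ∈ τ.l) :
    ∃ x : Fin m, extS x s ∈ lI τ f a₀ b₀ := by
  by_cases hne : s = eF f
  · refine ⟨a₀, (mem_lI τ f h a₀ b₀ ha hb _).2 (Or.inr ⟨s, hs, ?_, rfl⟩)⟩
    intro a a' h1 h2
    rw [hne]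
    unfold eF
    rw [h1, h2]
    rfl
  · rcases const_side τ f h s hs hne with ⟨h1, _⟩ | ⟨h1, _⟩
    · exact ⟨a₀, (mem_lI τ f h a₀ b₀ ha hb _).2 (Or.inr ⟨s, hs, h1, rfl⟩)⟩
    · exact ⟨b₀, (mem_lI τ f h a₀ b₀ ha hb _).2 (Or.inl ⟨s, hs, h1, rfl⟩)⟩

theorem IN2_eF {m : ℕ} (τ : RTree m) (f : Fin m → Bool) (h : TopSide τ f) (a₀ b₀ : Fin m)
    (ha : f a₀ = true) (hb : f b₀ = false) (x : Fin m) (hx : x = a₀ ∨ x = b₀) :
    extS x (eF f) ∈ lI τ f a₀ b₀ := by
  rw [IN2_cases τ f h a₀ b₀ ha hb]
  obtain ⟨l₀, hl⟩ := h
  refine ⟨x, hx, eF f, ?_, ?_, rfl⟩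
  · rw [hl]
    exact List.mem_append_right _ (List.mem_singleton.2 rfl)
  · intro p q h1 h2
    unfold eF
    rw [h1, h2]
    exact beq_self_eq_true _

/-- four leaves, the first of them new. -/
theorem IN2_res0 {m : ℕ} (τ : RTree m) (f : Fin m → Bool) (h : TopSide τ f) (a₀ b₀ : Fin m)
    (ha : f a₀ = true) (hb : f b₀ = false) (p q r : Fin m) (h1 : p ≠ q) (h2 : p ≠ r)
    (h3 : q ≠ r) :
    ∃ s ∈ lI τ f a₀ b₀, Sep s 0 p.succ q.succ r.succ ∨ Sep s 0 q.succ p.succ r.succ ∨
      Sep s 0 r.succ p.succ q.succ := by
  have hrep : ∀ v : Bool, ∃ x, (x = a₀ ∨ x = b₀) ∧ f x = v := by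
    intro v
    cases v
    · exact ⟨b₀, Or.inr rfl, hb⟩
    · exact ⟨a₀, Or.inl rfl, ha⟩
  have key : ∀ u v w : Fin m, f u = f v → f w ≠ f u →
      ∃ s ∈ lI τ f a₀ b₀, Sep s 0 w.succ u.succ v.succ := by
    intro u v w huv hw
    obtain ⟨x, hx, hxw⟩ := hrep (f w)
    refine ⟨extS x (eF f), IN2_eF τ f h a₀ b₀ ha hb x hx, ?_, ?_, ?_⟩
    · show (f x == f w) = true
      rw [hxw]
      exact beq_self_eq_true _
    · show (f u == f v) = true
      rw [huv]
      exact beq_self_eq_true _
    · show (f x == f u) = false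
      rw [hxw, beq_eq_false_iff_ne]
      exact hw
  by_cases hpq : f p = f q
  · by_cases hpr : f p = f r
    · obtain ⟨x, hx, hxv⟩ := hrep (!(f p))
      have hxp : f x ≠ f p := by
        rw [hxv]
        generalize f p = P
        revert P
        decide
      obtain ⟨s, hs, hsep⟩ := τ.res x p q r (fun h0 => hxp (by rw [h0]))
        (fun h0 => hxp (by rw [h0, hpq])) (fun h0 => hxp (by rw [h0, hpr])) h1 h2 h3
      obtain ⟨g, hg⟩ := τ.split s hs
      have hnc : ¬ ∀ u v, f u = f p → f v = f p → s u v = true := by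
        intro h0
        have h4 := h0 p q rfl hpq.symm
        have h5 := h0 p r rfl hpr.symm
        have h6 := h0 q r hpq.symm hpr.symm
        unfold Sep at hsep
        simp only [hg] at h4 h5 h6 hsep
        generalize g p = P at h4 h5 h6 hsep
        generalize g q = Q at h4 h5 h6 hsep
        generalize g r = R at h4 h5 h6 hsep
        generalize g x = X at h4 h5 h6 hsep
        revert h4 h5 h6 hsep
        revert P Q R X
        decide
      have hne : s ≠ eF f := by
        intro h0
        apply hnc
        intro u v hu hv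
        rw [h0]
        unfold eF
        rw [hu, hv]
        exact beq_self_eq_true _
      have hcx : ∀ u v, f u = f x → f v = f x → s u v = true := by
        rcases const_side τ f h s hs hne with ⟨h4, h5⟩ | ⟨h4, h5⟩
        · have hfx : f x = true := by
            by_contra h6
            have h7 : f x = false := by
              revert h6
              generalize f x = X
              revert X
              decide
            have h8 : f p = true := by
              rw [h7] at hxp
              revert hxp
              generalize f p = P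
              revert P
              decide
            rw [h8] at hnc
            exact hnc h4
          rw [hfx]
          exact h4
        · have hfx : f x = false := by
            by_contra h6
            have h7 : f x = true := by
              revert h6
              generalize f x = X
              revert X
              decide
            have h8 : f p = false := by
              rw [h7] at hxp
              revert hxp
              generalize f p = P
              revert P
              decide
            rw [h8] at hnc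
            exact hnc h4
          rw [hfx]
          exact h4
      exact ⟨extS x s, (IN2_cases τ f h a₀ b₀ ha hb _).2 ⟨x, hx, s, hs, hcx, rfl⟩, hsep⟩
    · obtain ⟨s, hs, hsep⟩ := key p q r hpq (fun h0 => hpr h0.symm)
      exact ⟨s, hs, Or.inr (Or.inr hsep)⟩
  · by_cases hpr : f p = f r
    · obtain ⟨s, hs, hsep⟩ := key p r q hpr (fun h0 => hpq h0.symm)
      exact ⟨s, hs, Or.inr (Or.inl hsep)⟩
    · have hqr : f q = f r := IN2_bool (fun h0 => hpq h0.symm) (fun h0 => hpr h0.symm)
      obtain ⟨s, hs, hsep⟩ := key q r p hqr hpq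
      exact ⟨s, hs, Or.inl hsep⟩

theorem lI_res {m : ℕ} (τ : RTree m) (f : Fin m → Bool) (h : TopSide τ f) (a₀ b₀ : Fin m)
    (ha : f a₀ = true) (hb : f b₀ = false) (a b c d : Fin (m + 1)) (h1 : a ≠ b) (h2 : a ≠ c)
    (h3 : a ≠ d) (h4 : b ≠ c) (h5 : b ≠ d) (h6 : c ≠ d) :
    ∃ s ∈ lI τ f a₀ b₀, Sep s a b c d ∨ Sep s a c b d ∨ Sep s a d b c := by
  have hsp := lI_split τ f h a₀ b₀ ha hb
  have sc : ∀ {x : Fin m} {y : Fin m}, x.succ ≠ y.succ → x ≠ y := fun h0 h4 => h0 (by rw [h4])
  -- permutations of the four leaves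
  have swap1 : ∀ a b c d : Fin (m + 1),
      (∃ s ∈ lI τ f a₀ b₀, Sep s a b c d ∨ Sep s a c b d ∨ Sep s a d b c) →
      ∃ s ∈ lI τ f a₀ b₀, Sep s b a c d ∨ Sep s b c a d ∨ Sep s b d a c := by
    rintro a b c d ⟨s, hs, hsep⟩
    refine ⟨s, hs, ?_⟩
    obtain ⟨g, hg⟩ := hsp s hs
    unfold Sep at hsep ⊢
    simp only [hg] at hsep ⊢
    generalize g a = A at hsep ⊢
    generalize g b = B at hsep ⊢
    generalize g c = C at hsep ⊢
    generalize g d = D at hsep ⊢
    revert hsep
    revert A B C D
    decide
  have swap2 : ∀ a b c d : Fin (m + 1),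
      (∃ s ∈ lI τ f a₀ b₀, Sep s a b c d ∨ Sep s a c b d ∨ Sep s a d b c) →
      ∃ s ∈ lI τ f a₀ b₀, Sep s a c b d ∨ Sep s a b c d ∨ Sep s a d c b := by
    rintro a b c d ⟨s, hs, hsep⟩
    refine ⟨s, hs, ?_⟩
    obtain ⟨g, hg⟩ := hsp s hs
    unfold Sep at hsep ⊢
    simp only [hg] at hsep ⊢
    generalize g a = A at hsep ⊢
    generalize g b = B at hsep ⊢
    generalize g c = C at hsep ⊢
    generalize g d = D at hsep ⊢
    revert hsep
    revert A B C D
    decide
  have swap3 : ∀ a b c d : Fin (m + 1),
      (∃ s ∈ lI τ f a₀ b₀, Sep s a b c d ∨ Sep s a c b d ∨ Sep s a d b c) →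
      ∃ s ∈ lI τ f a₀ b₀, Sep s a b d c ∨ Sep s a d b c ∨ Sep s a c b d := by
    rintro a b c d ⟨s, hs, hsep⟩
    refine ⟨s, hs, ?_⟩
    obtain ⟨g, hg⟩ := hsp s hs
    unfold Sep at hsep ⊢
    simp only [hg] at hsep ⊢
    generalize g a = A at hsep ⊢
    generalize g b = B at hsep ⊢
    generalize g c = C at hsep ⊢
    generalize g d = D at hsep ⊢
    revert hsep
    revert A B C D
    decide
  induction a using Fin.cases with
  | zero =>
    induction b using Fin.cases with
    | zero => exact absurd rfl h1
    | succ b =>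
      induction c using Fin.cases with
      | zero => exact absurd rfl h2
      | succ c =>
        induction d using Fin.cases with
        | zero => exact absurd rfl h3
        | succ d => exact IN2_res0 τ f h a₀ b₀ ha hb b c d (sc h4) (sc h5) (sc h6)
  | succ a =>
    induction b using Fin.cases with
    | zero =>
      induction c using Fin.cases with
      | zero => exact absurd rfl h4
      | succ c =>
        induction d using Fin.cases with
        | zero => exact absurd rfl h5
        | succ d =>
          exact swap1 _ _ _ _ (IN2_res0 τ f h a₀ b₀ ha hb a c d (sc h2) (sc h3) (sc h6))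
    | succ b =>
      induction c using Fin.cases with
      | zero =>
        induction d using Fin.cases with
        | zero => exact absurd rfl h6
        | succ d =>
          exact swap2 _ _ _ _ (swap1 _ _ _ _
            (IN2_res0 τ f h a₀ b₀ ha hb a b d (sc h1) (sc h3) (sc h5)))
      | succ c =>
        induction d using Fin.cases with
        | zero =>
          exact swap3 _ _ _ _ (swap2 _ _ _ _ (swap1 _ _ _ _
            (IN2_res0 τ f h a₀ b₀ ha hb a b c (sc h1) (sc h2) (sc h4))))
        | succ d =>
          obtain ⟨s, hs, hsep⟩ := τ.res a b c d (sc h1) (sc h2) (sc h3) (sc h4) (sc h5) (sc h6)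
          obtain ⟨x, hx⟩ := IN2_ext τ f h a₀ b₀ ha hb s hs
          exact ⟨extS x s, hx, hsep⟩

/-- exclusion, the first leaf new and the representatives different. -/
theorem IN2_excl0 {m : ℕ} (τ : RTree m) (f : Fin m → Bool) (x y : Fin m) (hxy : f x ≠ f y)
    (s t : Split m) (hs : s ∈ τ.l) (ht : t ∈ τ.l)
    (hcs : ∀ p q, f p = f x → f q = f x → s p q = true)
    (hct : ∀ p q, f p = f y → f q = f y → t p q = true) (b c d : Fin (m + 1))
    (h1 : Sep (extS x s) 0 b c d) : ¬ Sep (extS y t) 0 c b d := by
  intro h2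
  obtain ⟨g, hg⟩ := τ.split s hs
  obtain ⟨k, hk⟩ := τ.split t ht
  induction b using Fin.cases with
  | zero =>
    have h3 : t y y = false := h2.2.2
    rw [hk] at h3
    generalize k y = Y at h3
    revert h3
    revert Y
    decide
  | succ b =>
    induction c using Fin.cases with
    | zero =>
      have h3 : s x x = false := h1.2.2
      rw [hg] at h3
      generalize g x = X at h3
      revert h3
      revert X
      decide
    | succ c =>
      have h3 : s x c = false := h1.2.2
      have h4 : t y b = false := h2.2.2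
      induction d using Fin.cases with
      | zero =>
        have h5 : s c x = true := h1.2.1
        rw [hg] at h3 h5
        generalize g x = X at h3 h5
        generalize g c = C at h3 h5
        revert h3 h5
        revert X C
        decide
      | succ d =>
        have h5 : s c d = true := h1.2.1
        have h6 : t b d = true := h2.2.1
        have h7 : s x d = false := by
          rw [hg] at h3 h5 ⊢
          generalize g x = X at h3 ⊢
          generalize g c = C at h3 h5
          generalize g d = D at h5 ⊢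
          revert h3 h5
          revert X C D
          decide
        have h8 : t y d = false := by
          rw [hk] at h4 h6 ⊢
          generalize k y = X at h4 ⊢
          generalize k b = C at h4 h6
          generalize k d = D at h6 ⊢
          revert h4 h6
          revert X C D
          decide
        have h9 : f d ≠ f x := by
          intro h0
          rw [hcs x d rfl h0] at h7
          exact absurd h7 (by decide)
        have h10 : f d ≠ f y := by
          intro h0
          rw [hct y d rfl h0] at h8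
          exact absurd h8 (by decide)
        exact hxy (IN2_bool (fun h0 => h9 h0.symm) (fun h0 => h10 h0.symm))

theorem lI_excl {m : ℕ} (τ : RTree m) (f : Fin m → Bool) (h : TopSide τ f) (a₀ b₀ : Fin m)
    (ha : f a₀ = true) (hb : f b₀ = false) (s : Split (m + 1)) (hs : s ∈ lI τ f a₀ b₀)
    (t : Split (m + 1)) (ht : t ∈ lI τ f a₀ b₀) (a b c d : Fin (m + 1)) (hsep : Sep s a b c d) :
    ¬ Sep t a c b d := by
  intro hsep2
  have hsp := lI_split τ f h a₀ b₀ ha hb s hs
  have htp := lI_split τ f h a₀ b₀ ha hb t ht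
  obtain ⟨x, hx, s', hs', hcs, rfl⟩ := (IN2_cases τ f h a₀ b₀ ha hb s).1 hs
  obtain ⟨y, hy, t', ht', hct, rfl⟩ := (IN2_cases τ f h a₀ b₀ ha hb t).1 ht
  by_cases hxy : x = y
  · subst hxy
    exact τ.excl s' hs' t' ht' _ _ _ _ hsep hsep2
  · have hf : f x ≠ f y := by
      rcases hx with rfl | rfl
      · rcases hy with rfl | rfl
        · exact absurd rfl hxy
        · rw [ha, hb]
          decide
      · rcases hy with rfl | rfl
        · rw [ha, hb]
          decide
        · exact absurd rfl hxy
    have S1 := IN2_sep (extS x s') hsp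
    have T1 := IN2_sep (extS y t') htp
    have E0 := IN2_excl0 τ f x y hf s' t' hs' ht' hcs hct
    induction a using Fin.cases with
    | zero => exact E0 b c d hsep hsep2
    | succ a =>
      induction b using Fin.cases with
      | zero =>
        -- (b, a, d, c)
        have e1 := ((S1 _ _ _ _ ((S1 _ _ _ _ hsep).1)).2.1)
        have e3 := (T1 _ _ _ _ hsep2).2.2
        exact E0 _ _ _ e1 e3
      | succ b =>
        induction c using Fin.cases with
        | zero =>
          have e1 := (S1 _ _ _ _ hsep).2.2
          have e3 := (T1 _ _ _ _ ((T1 _ _ _ _ hsep2).1)).2.1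
          exact E0 _ _ _ e1 e3
        | succ c =>
          induction d using Fin.cases with
          | zero =>
            have e1 := (S1 _ _ _ _ ((S1 _ _ _ _ ((S1 _ _ _ _ hsep).2.2)).1)).2.1
            have e3 := (T1 _ _ _ _ ((T1 _ _ _ _ ((T1 _ _ _ _ hsep2).2.2)).1)).2.1
            exact E0 _ _ _ e1 e3
          | succ d => exact τ.excl s' hs' t' ht' a b c d hsep hsep2

/-- Insertion of a leaf on the highest edge, with given `a₀`, `b₀`. -/
def insAB {m : ℕ} (τ : RTree m) (f : Fin m → Bool) (h : TopSide τ f) (a₀ b₀ : Fin m)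
    (ha : f a₀ = true) (hb : f b₀ = false) : RTree (m + 1) where
  o := oI τ f a₀ b₀
  l := lI τ f a₀ b₀
  o_vals := oI_vals τ f h a₀ b₀ ha hb
  o_swap := oI_swap τ f a₀ b₀
  o_rot := oI_rot τ f a₀ b₀
  o_coc := oI_coc τ f h a₀ b₀ ha hb
  nodup := lI_nodup τ f h a₀ b₀ ha hb
  split := lI_split τ f h a₀ b₀ ha hb
  nt := lI_nt τ f h a₀ b₀ ha hb
  planar s hs a b c d := lI_planar τ f h a₀ b₀ ha hb s hs a b c d
  res := lI_res τ f h a₀ b₀ ha hb
  excl s hs t ht a b c d := lI_excl τ f h a₀ b₀ ha hb s hs t ht a b c d

/-- Insertion of a leaf on the highest edge. -/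
noncomputable def RTree.ins {m : ℕ} (τ : RTree m) (f : Fin m → Bool) (h : TopSide τ f) :
    RTree (m + 1) :=
  insAB τ f h (exists_side τ f h).choose.1 (exists_side τ f h).choose.2
    (exists_side τ f h).choose_spec.1 (exists_side τ f h).choose_spec.2

end SimplVol
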