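import Pool.Agent.H54.RT.IN2

/-!
# Module IN3: insertion of a leaf and restriction

* `ins_eq`: `ins` does not depend on the choices: the orientations `gI` agree by `o_side`; the extensions agree: for `s` constant on `B`,
  `extS b₀ s = extS b₀' s` (`s b₀ x = s b₀' x` as `s b₀ b₀'`), same for `A`; `eF f b₀ x = eF f b₀' x`. `RTree.ext`.
* `topSide_iff`: if `τ.l = l₀ ++ [eF f] = l₁ ++ [eF f']` then `eF f = eF f'` (`List.append_inj`), so `f' = f` or `f' = !f` (compare at one point `x₀`:
  `f' a = f' x₀` iff `f a = f x₀`; `m ≥ 1` as there are leaves). `exists_topSide`: `τ.l ≠ []`, its last element is given by some `f`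
  (`τ.split`; `List.dropLast_append_getLast`), `funext`.
* `ins_face_zero`: `RTree.ext`; orientation by definition; list: restriction along `Fin.succ` of `extS x s` is `s`; so the restricted list is
  `τ.l.dropLast ++ [eF f, eF f]`, all `NT`, and `dedup` gives `τ.l.dropLast ++ [eF f] = τ.l` (`τ.nodup`).
-/

set_option autoImplicit false

open scoped BigOperators Nat

namespace SimplVol

/-- The embedding that fixes the new leaf. -/
def consE {k m : ℕ} (ι : Fin k ↪ Fin m) : Fin (k + 1) ↪ Fin (m + 1) :=
  ⟨Fin.cons 0 (fun i => (ι i).succ), by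
    intro a b
    refine Fin.cases ?_ (fun a' => ?_) a
    · refine Fin.cases ?_ (fun b' => ?_) b
      · intro _; rfl
      · intro h; exact absurd h (Fin.succ_ne_zero _).symm
    · refine Fin.cases ?_ (fun b' => ?_) b
      · intro h; exact absurd h (Fin.succ_ne_zero _)
      · intro h
        have h2 : (ι a').succ = (ι b').succ := h
        rw [ι.injective (Fin.succ_injective _ h2)]⟩

theorem consE_zero {k m : ℕ} (ι : Fin k ↪ Fin m) : consE ι 0 = 0 := rfl

theorem consE_succ {k m : ℕ} (ι : Fin k ↪ Fin m) (i : Fin k) : consE ι i.succ = (ι i).succ := rfl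

theorem consE_succAbove {m : ℕ} (c : Fin (m + 1)) :
    consE (Fin.succAboveEmb c) = Fin.succAboveEmb c.succ := by
  apply DFunLike.ext
  intro i
  refine Fin.cases ?_ (fun j => ?_) i
  · rw [consE_zero]
    simp [Fin.succAboveEmb_apply]
  · rw [consE_succ]
    simp [Fin.succAboveEmb_apply]

theorem IN3_extS_congr {m : ℕ} (s : Split m)
    (hs : ∃ f : Fin m → Bool, ∀ a b, s a b = (f a == f b)) (x y : Fin m) (hxy : s x y = true) :
    extS x s = extS y s := by
  obtain ⟨f', hf'⟩ := hs
  have h1 : f' x = f' y := by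
    have := hf' x y
    rw [hxy] at this
    exact eq_of_beq this.symm
  funext p q
  refine Fin.cases ?_ (fun p' => ?_) p
  · refine Fin.cases ?_ (fun q' => ?_) q
    · simp only [extS, Fin.cases_zero]
      rw [hf', hf', h1]
    · simp only [extS, Fin.cases_zero, Fin.cases_succ]
      rw [hf', hf', h1]
  · refine Fin.cases ?_ (fun q' => ?_) q
    · simp only [extS, Fin.cases_zero, Fin.cases_succ]
      rw [hf', hf', h1]
    · simp only [extS, Fin.cases_succ]

theorem IN3_ne_eF {m : ℕ} (τ : RTree m) (f : Fin m → Bool) (h : TopSide τ f) (s : Split m)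
    (hs : s ∈ τ.l.dropLast) : s ≠ eF f := by
  obtain ⟨l₀, hl₀⟩ := h
  have hn := τ.nodup
  rw [hl₀] at hn
  rw [hl₀, List.dropLast_concat] at hs
  intro he
  rw [List.nodup_append] at hn
  exact hn.2.2 s hs (eF f) (by simp) he

theorem IN3_gI_eq {m : ℕ} (τ : RTree m) (f : Fin m → Bool) (h : TopSide τ f) (a₀ b₀ a₁ b₁ : Fin m)
    (ha : f a₀ = true) (hb : f b₀ = false) (ha' : f a₁ = true) (hb' : f b₁ = false) :
    gI τ f a₀ b₀ = gI τ f a₁ b₁ := by
  funext q r
  unfold gI
  by_cases h1 : f q = f r
  · rw [if_pos h1, if_pos h1]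
    by_cases h2 : f q = true
    · rw [if_pos h2, if_pos h2]
      exact o_side τ f h b₀ b₁ q r (by rw [hb, hb']) h1 (by rw [hb, h2]; simp)
    · rw [if_neg h2, if_neg h2]
      exact o_side τ f h a₀ a₁ q r (by rw [ha, ha']) h1 (by rw [ha]; exact fun h3 => h2 h3.symm)
  · rw [if_neg h1, if_neg h1]

theorem IN3_insAB_eq {m : ℕ} (τ : RTree m) (f : Fin m → Bool) (h : TopSide τ f)
    (a₀ b₀ a₁ b₁ : Fin m)
    (ha : f a₀ = true) (hb : f b₀ = false) (ha' : f a₁ = true) (hb' : f b₁ = false) :
    insAB τ f h a₀ b₀ ha hb = insAB τ f h a₁ b₁ ha' hb' := by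
  apply RTree.ext
  · change oI τ f a₀ b₀ = oI τ f a₁ b₁
    unfold oI
    rw [IN3_gI_eq τ f h a₀ b₀ a₁ b₁ ha hb ha' hb']
  · change lI τ f a₀ b₀ = lI τ f a₁ b₁
    unfold lI
    have h1 : extS b₀ (eF f) = extS b₁ (eF f) :=
      IN3_extS_congr _ ⟨f, fun _ _ => rfl⟩ _ _ (by rw [hb, hb']; rfl)
    have h2 : extS a₀ (eF f) = extS a₁ (eF f) :=
      IN3_extS_congr _ ⟨f, fun _ _ => rfl⟩ _ _ (by rw [ha, ha']; rfl)
    rw [h1, h2]
    congr 1
    apply List.map_congr_left
    intro s hs
    have hne := IN3_ne_eF τ f h s hs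
    have hmem : s ∈ τ.l := List.mem_of_mem_dropLast hs
    unfold extI
    by_cases h3 : ∀ b b', f b = false → f b' = false → s b b' = true
    · rw [if_pos h3, if_pos h3]
      exact IN3_extS_congr _ (τ.split s hmem) _ _ (h3 _ _ hb hb')
    · rw [if_neg h3, if_neg h3]
      rcases const_side τ f h s hmem hne with h4 | h4
      · exact IN3_extS_congr _ (τ.split s hmem) _ _ (h4.1 _ _ ha ha')
      · exact absurd h4.1 h3

theorem ins_eq {m : ℕ} (τ : RTree m) (f : Fin m → Bool) (h : TopSide τ f) (a₀ b₀ : Fin m)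
    (ha : f a₀ = true) (hb : f b₀ = false) : τ.ins f h = insAB τ f h a₀ b₀ ha hb :=
  IN3_insAB_eq τ f h _ _ _ _ _ _ _ _

theorem exists_topSide {m : ℕ} (hm : 4 ≤ m) (τ : RTree m) : ∃ f, TopSide τ f := by
  have hne := τ.l_ne_nil hm
  obtain ⟨f, hf⟩ := τ.split (τ.l.getLast hne) (List.getLast_mem hne)
  refine ⟨f, τ.l.dropLast, ?_⟩
  have h1 : eF f = τ.l.getLast hne := by
    funext a b
    exact (hf a b).symm
  rw [h1]
  exact (List.dropLast_append_getLast hne).symm

theorem topSide_iff {m : ℕ} (τ : RTree m) (f : Fin m → Bool) (h : TopSide τ f)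
    (f' : Fin m → Bool) : TopSide τ f' ↔ f' = f ∨ f' = fun a => !(f a) := by
  constructor
  · intro h'
    obtain ⟨⟨x₀, y₀⟩, -⟩ := exists_side τ f h
    obtain ⟨l₀, hl₀⟩ := h
    obtain ⟨l₁, hl₁⟩ := h'
    rw [hl₀] at hl₁
    have he : eF f = eF f' := by
      have := (List.append_inj' hl₁ rfl).2
      simpa using this
    have hp : ∀ a, (f a == f x₀) = (f' a == f' x₀) := fun a => congrFun (congrFun he a) x₀
    by_cases hx : f' x₀ = f x₀
    · left
      funext a
      have := hp a
      rw [hx] at this
      revert this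
      generalize f a = u
      generalize f' a = v
      generalize f x₀ = w
      revert u v w
      decide
    · right
      funext a
      have := hp a
      revert this hx
      generalize f a = u
      generalize f' a = v
      generalize f x₀ = w
      generalize f' x₀ = z
      revert u v w z
      decide
  · rintro (rfl | rfl)
    · exact h
    · obtain ⟨l₀, hl₀⟩ := h
      refine ⟨l₀, ?_⟩
      rw [hl₀]
      have : eF f = eF (fun a => !(f a)) := by
        funext a b
        change (f a == f b) = ((!(f a)) == (!(f b)))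
        generalize f a = u
        generalize f b = v
        revert u v
        decide
      rw [this]

theorem IN3_dedup {α : Type} [DecidableEq α] (e : α) : ∀ l : List α, (l ++ [e]).Nodup →
    (l ++ [e, e]).dedup = l ++ [e]
  | [], _ => by
    rw [List.nil_append, List.dedup_cons_of_mem (by simp)]
    rw [List.nil_append]
    exact (List.nodup_singleton e).dedup
  | a :: l, h => by
    rw [List.cons_append, List.nodup_cons] at h
    rw [List.cons_append, List.dedup_cons_of_notMem, IN3_dedup e l h.2, List.cons_append]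
    intro h2
    apply h.1
    simpa using h2

theorem IN3_res_ext {m : ℕ} (x : Fin m) (s : Split m) :
    resS (Fin.succAboveEmb 0) (extS x s) = s := by
  funext a b
  simp only [resS, extS, Fin.succAboveEmb_apply, Fin.zero_succAbove, Fin.cases_succ]

theorem ins_face_zero {m : ℕ} (τ : RTree m) (f : Fin m → Bool) (h : TopSide τ f) :
    (τ.ins f h).pull (Fin.succAboveEmb 0) = τ := by
  apply RTree.ext
  · funext a b c
    change oI τ f (exists_side τ f h).choose.1 (exists_side τ f h).choose.2
      ((Fin.succAboveEmb 0) a) ((Fin.succAboveEmb 0) b) ((Fin.succAboveEmb 0) c) = _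
    simp only [Fin.succAboveEmb_apply, Fin.zero_succAbove, oI, Fin.cases_succ]
  · change (((lI τ f (exists_side τ f h).choose.1 (exists_side τ f h).choose.2).map (resS (Fin.succAboveEmb 0))).filter
      fun s => decide (NT s)).dedup = τ.l
    have h1 : ∀ a₀ b₀ : Fin m, (lI τ f a₀ b₀).map (resS (Fin.succAboveEmb 0)) =
        τ.l.dropLast ++ [eF f, eF f] := by
      intro a₀ b₀
      unfold lI
      rw [List.map_append, List.map_map]
      simp only [List.map_cons, List.map_nil, IN3_res_ext]
      congr 1
      have h2 : ∀ s ∈ τ.l.dropLast, (resS (Fin.succAboveEmb 0) ∘ extI f a₀ b₀) s = id s := by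
        intro s _
        simp only [Function.comp, extI, id]
        split_ifs
        · exact IN3_res_ext _ _
        · exact IN3_res_ext _ _
      rw [List.map_congr_left h2, List.map_id]
    rw [h1]
    obtain ⟨l₀, hl₀⟩ := h
    have hd : τ.l.dropLast = l₀ := by rw [hl₀, List.dropLast_concat]
    rw [hd]
    have h3 : (l₀ ++ [eF f, eF f]).filter (fun s => decide (NT s)) = l₀ ++ [eF f, eF f] := by
      rw [List.filter_eq_self]
      intro s hs
      apply decide_eq_true
      apply τ.nt
      rw [hl₀]
      simpa using hs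
    rw [h3, hl₀]
    apply IN3_dedup
    rw [← hl₀]
    exact τ.nodup

end SimplVol
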