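import Pool.Agent.H54.RT.IN3

/-!
# Module IN4: insertion and restriction

* `topSide_pull`, `ins_pull`: let `ι⁺ = consE ι`. Let `eF f` restricted to `Fin k` be `NT`; it is `eF (f ∘ ι)`. `(τ.pull ι).l = ((τ.l.map r).filter NT).dedup` with
  `τ.l = D ++ [eF f]`, `r = resS ι`; `dedup` keeps the last occurrence, so it is `D' ++ [eF (f ∘ ι)]` with `D' = (((D.map r).filter NT).filter (≠ eF (f ∘ ι))).dedup`
  (lemma `dedup_concat`: `(L ++ [x]).dedup = (L.filter (≠ x)).dedup ++ [x]`, induction). Choose `a₀, b₀` in the range of `ι` (`ins_eq`): `NT` of `eF (f ∘ ι)` gives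
  `a₀ = ι a`, `b₀ = ι b`. Orientations: `oI τ f (ι a) (ι b)` at `ι⁺` is `oI (τ.pull ι) (f ∘ ι) a b` by definition (`Fin.cases`). Lists: `resS ι⁺ (extS (ι x) s) = extS x (resS ι s)`.
  `(ins τ).l = D.map ext ++ [extS b₀ (eF f), extS a₀ (eF f)]`; its restriction, filtered and deduplicated: the last two are `extS b (eF (f ∘ ι))`, `extS a (eF (f ∘ ι))`, both `NT` and
  different. For `s ∈ D`, `s` constant on `B`, say, the restriction is `extS b (r s)`; it is `NT` iff `r s` is `NT` or ... : if `r s = eF (f ∘ ι)` it is
  equal to `extS b (eF (f ∘ ι))` and is dropped as the earlier duplicate; if `r s` is not `NT` then `extS b (r s)` is not `NT`: the class of `b` contains the class `B`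
  restricted, which has ≥ 2 elements (as `eF (f ∘ ι)` is `NT`), so the class which has ≤ 1 element is the other one, and it does not
  change (if `r s` has only one class then so has `extS b (r s)`); if `r s` is `NT`, `≠ eF (f ∘ ι)`, then `extI (f ∘ ι) a b (r s) = extS b (r s)` (it is
  constant on `B` restricted). `extS b` (`extS a`) are injective, and `extS b t ≠ extS a t'` for `t ≠ t'`... (restrict to `Fin.succ`), so `dedup` and `map`
  commute (`List.dedup_map_of_injective`-like; `ext' : t ↦ extI (f ∘ ι) a b t` is injective as its restriction along `Fin.succ` is `t`).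
-/

set_option autoImplicit false

open scoped BigOperators Nat

namespace SimplVol

private theorem in4_dedup_concat {α : Type*} [DecidableEq α] (L : List α) (x : α) :
    (L ++ [x]).dedup = (L.filter fun y => decide (y ≠ x)).dedup ++ [x] := by
  induction L with
  | nil => simp
  | cons a L ih =>
    rw [List.cons_append]
    by_cases hax : a = x
    · subst hax
      rw [List.dedup_cons_of_mem (by simp), ih, List.filter_cons_of_neg (by simp)]
    · rw [List.filter_cons_of_pos (by simpa using hax)]
      by_cases haL : a ∈ L
      · rw [List.dedup_cons_of_mem (List.mem_append_left _ haL), ih,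
          List.dedup_cons_of_mem (List.mem_filter.mpr ⟨haL, by simpa using hax⟩)]
      · rw [List.dedup_cons_of_notMem (by simp [haL, hax]), ih,
          List.dedup_cons_of_notMem (fun hh => haL (List.mem_filter.mp hh).1)]
        rfl

private theorem in4_pull_l {k m : ℕ} (ι : Fin k ↪ Fin m) (τ : RTree m) (f : Fin m → Bool)
    (l₀ : List (Split m)) (h : τ.l = l₀ ++ [eF f]) (hn : NT (eF fun i => f (ι i))) :
    (τ.pull ι).l = (((l₀.map (resS ι)).filter fun s => decide (NT s)).filter
      fun y => decide (y ≠ eF fun i => f (ι i))).dedup ++ [eF fun i => f (ι i)] := by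
  change (((τ.l.map (resS ι)).filter fun s => decide (NT s)).dedup) = _
  rw [h, List.map_append, List.filter_append]
  have e : ((List.map (resS ι) [eF f]).filter fun s => decide (NT s)) = [eF fun i => f (ι i)] := by
    change (([eF fun i => f (ι i)] : List (Split k)).filter fun s => decide (NT s)) = _
    rw [List.filter_cons_of_pos (by simpa using hn)]
    rfl
  rw [e, in4_dedup_concat]

theorem topSide_pull {k m : ℕ} (ι : Fin k ↪ Fin m) (τ : RTree m) (f : Fin m → Bool)
    (h : TopSide τ f) (hn : NT (eF fun i => f (ι i))) :
    TopSide (τ.pull ι) (fun i => f (ι i)) := by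
  obtain ⟨l₀, hl⟩ := h
  exact ⟨_, in4_pull_l ι τ f l₀ hl hn⟩

private theorem in4_res_ext {k m : ℕ} (ι : Fin k ↪ Fin m) (x : Fin k) (s : Split m) :
    resS (consE ι) (extS (ι x) s) = extS x (resS ι s) := by
  funext p q
  refine Fin.cases ?_ (fun p' => ?_) p
  · refine Fin.cases ?_ (fun q' => ?_) q
    · rfl
    · rfl
  · refine Fin.cases ?_ (fun q' => ?_) q
    · rfl
    · rfl

private theorem in4_ext_inj {k : ℕ} {x y : Fin k} {s t : Split k} (h : extS x s = extS y t) :
    s = t := by
  funext p q
  exact congrFun (congrFun h p.succ) q.succ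

private theorem in4_extI_inj {k : ℕ} (f : Fin k → Bool) (a b : Fin k) :
    Function.Injective (extI f a b) := by
  intro s t h
  unfold extI at h
  split_ifs at h
  · exact in4_ext_inj h
  · exact in4_ext_inj h
  · exact in4_ext_inj h
  · exact in4_ext_inj h

private theorem in4_nt_ext {k : ℕ} (x : Fin k) (s : Split k) (h : NT s) : NT (extS x s) := by
  obtain ⟨a, b, c, d, h1, h2, h3⟩ := h
  exact ⟨a.succ, b.succ, c.succ, d.succ, fun e => h1 (Fin.succ_injective _ e),
    fun e => h2 (Fin.succ_injective _ e), h3⟩

private theorem in4_nt_of_ext {k : ℕ} (x x' : Fin k) (s : Split k)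
    (hs : ∃ f : Fin k → Bool, ∀ a b, s a b = (f a == f b)) (hx : x ≠ x') (hxx : s x x' = true)
    (h : NT (extS x s)) : NT s := by
  obtain ⟨f, hf⟩ := hs
  obtain ⟨p, q, u, v, h1, h2, h3, h4, h5⟩ := h
  -- class of `p` and of `u`
  have hxx' : f x = f x' := by
    have := hf x x'
    rw [hxx] at this
    simpa using this.symm
  revert h1 h2 h3 h4 h5
  refine Fin.cases ?_ (fun p' => ?_) p
  · refine Fin.cases ?_ (fun q' => ?_) q
    · intro h1; exact absurd rfl h1
    · refine Fin.cases ?_ (fun u' => ?_) u
      · intro _ _ _ _ h5
        change s x x = false at h5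
        rw [hf] at h5
        simp at h5
      · refine Fin.cases ?_ (fun v' => ?_) v
        · intro _ _ _ h4 h5
          change s u' x = true at h4
          change s x u' = false at h5
          rw [hf] at h4 h5
          simp only [beq_iff_eq, beq_eq_false_iff_ne] at h4 h5
          exact absurd h4.symm h5
        · intro _ h2 _ h4 h5
          exact ⟨x, x', u', v', hx, fun e => h2 (by rw [e]), hxx, h4, h5⟩
  · refine Fin.cases ?_ (fun q' => ?_) q
    · refine Fin.cases ?_ (fun u' => ?_) u
      · intro _ _ h3 _ h5
        change s p' x = true at h3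
        change s p' x = false at h5
        rw [h3] at h5
        exact absurd h5 (by simp)
      · refine Fin.cases ?_ (fun v' => ?_) v
        · intro _ _ h3 h4 h5
          change s p' x = true at h3
          change s u' x = true at h4
          change s p' u' = false at h5
          rw [hf] at h3 h4 h5
          simp only [beq_iff_eq, beq_eq_false_iff_ne] at h3 h4 h5
          exact absurd (h3.trans h4.symm) h5
        · intro _ h2 h3 h4 h5
          change s p' x = true at h3
          change s u' v' = true at h4
          change s p' u' = false at h5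
          refine ⟨x, x', u', v', hx, fun e => h2 (by rw [e]), hxx, h4, ?_⟩
          rw [hf] at h3 h5 ⊢
          simp only [beq_iff_eq, beq_eq_false_iff_ne] at h3 h5 ⊢
          exact fun e => h5 (h3.trans e)
    · refine Fin.cases ?_ (fun u' => ?_) u
      · refine Fin.cases ?_ (fun v' => ?_) v
        · intro _ h2
          exact absurd rfl h2
        · intro h1 _ h3 h4 h5
          change s p' q' = true at h3
          change s p' x = false at h5
          exact ⟨p', q', x, x', fun e => h1 (by rw [e]), hx, h3, hxx, h5⟩
      · refine Fin.cases ?_ (fun v' => ?_) v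
        · intro h1 _ h3 h4 h5
          change s p' q' = true at h3
          change s u' x = true at h4
          change s p' u' = false at h5
          refine ⟨p', q', x, x', fun e => h1 (by rw [e]), hx, h3, hxx, ?_⟩
          rw [hf] at h4 h5 ⊢
          simp only [beq_iff_eq, beq_eq_false_iff_ne] at h4 h5 ⊢
          exact fun e => h5 (e.trans h4.symm)
        · intro h1 h2 h3 h4 h5
          exact ⟨p', q', u', v', fun e => h1 (by rw [e]), fun e => h2 (by rw [e]), h3, h4, h5⟩

private theorem in4_const_both {k : ℕ} (F : Fin k → Bool) (s : Split k)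
    (hs : ∃ f : Fin k → Bool, ∀ a b, s a b = (f a == f b)) (h : NT s)
    (hc : ∀ a b, F a = F b → s a b = true) : s = eF F := by
  obtain ⟨f, hf⟩ := hs
  obtain ⟨a, _, c, _, _, _, _, _, h5⟩ := h
  have hc' : ∀ a b, F a = F b → f a = f b := by
    intro a b hab
    have := hc a b hab
    rw [hf] at this
    simpa using this
  have h5' : f a ≠ f c := by
    rw [hf] at h5
    simpa using h5
  funext p q
  rw [hf]
  change _ = (F p == F q)
  by_cases hpq : F p = F q
  · rw [hpq, hc' p q hpq]
    simp
  · have hne : f p ≠ f q := by
      intro e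
      apply h5'
      have key : ∀ z, f z = f p := by
        intro z
        by_cases hz : F z = F p
        · exact hc' z p hz
        · have : F z = F q := by
            revert hz hpq
            cases F z <;> cases F p <;> cases F q <;> simp
          rw [hc' z q this, e]
      rw [key a, key c]
    have h1 : (f p == f q) = false := by simpa using hne
    have h2 : (F p == F q) = false := by simpa using hpq
    rw [h1, h2]

private theorem in4_list {α β γ : Type*} (D : List α) (g : α → γ) (r : α → β) (e : β → γ)
    (P Q R : γ → Bool) (P' Q' : β → Bool)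
    (h1 : ∀ s ∈ D, (P (g s) = true ∧ Q (g s) = true ∧ R (g s) = true) ↔
      (P' (r s) = true ∧ Q' (r s) = true))
    (h2 : ∀ s ∈ D, P' (r s) = true → Q' (r s) = true → g s = e (r s)) :
    (((D.map g).filter P).filter Q).filter R = (((D.map r).filter P').filter Q').map e := by
  induction D with
  | nil => rfl
  | cons s D ih =>
    have ih' := ih (fun t ht => h1 t (List.mem_cons_of_mem _ ht))
      (fun t ht => h2 t (List.mem_cons_of_mem _ ht))
    simp only [List.map_cons]
    have hs := h1 s (List.mem_cons_self)
    by_cases hb : P' (r s) = true ∧ Q' (r s) = true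
    · obtain ⟨p1, p2, p3⟩ := hs.mpr hb
      rw [List.filter_cons_of_pos (by rw [p1]), List.filter_cons_of_pos (by rw [p2]),
        List.filter_cons_of_pos (by rw [p3]), List.filter_cons_of_pos (by rw [hb.1]),
        List.filter_cons_of_pos (by rw [hb.2]), List.map_cons, ih',
        h2 s (List.mem_cons_self) hb.1 hb.2]
    · have hb' : ¬ (P (g s) = true ∧ Q (g s) = true ∧ R (g s) = true) := fun hh => hb (hs.mp hh)
      have l1 : ((((g s) :: D.map g).filter P).filter Q).filter R
          = (((D.map g).filter P).filter Q).filter R := by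
        by_cases q1 : P (g s) = true
        · rw [List.filter_cons_of_pos q1]
          by_cases q2 : Q (g s) = true
          · rw [List.filter_cons_of_pos q2]
            by_cases q3 : R (g s) = true
            · exact absurd ⟨q1, q2, q3⟩ hb'
            · rw [List.filter_cons_of_neg q3]
          · rw [List.filter_cons_of_neg q2]
        · rw [List.filter_cons_of_neg q1]
      have l2 : (((r s) :: D.map r).filter P').filter Q' = ((D.map r).filter P').filter Q' := by
        by_cases q1 : P' (r s) = true
        · rw [List.filter_cons_of_pos q1]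
          by_cases q2 : Q' (r s) = true
          · exact absurd ⟨q1, q2⟩ hb
          · rw [List.filter_cons_of_neg q2]
        · rw [List.filter_cons_of_neg q1]
      rw [l1, l2, ih']

private theorem in4_pair {k : ℕ} (F : Fin k → Bool) (hn : NT (eF F)) :
    (∃ a a', a ≠ a' ∧ F a = true ∧ F a' = true) ∧ ∃ b b', b ≠ b' ∧ F b = false ∧ F b' = false := by
  obtain ⟨a, b, c, d, h1, h2, h3, h4, h5⟩ := hn
  change (F a == F b) = true at h3
  change (F c == F d) = true at h4
  change (F a == F c) = false at h5
  revert h3 h4 h5
  cases ha : F a <;> cases hb : F b <;> cases hc : F c <;> cases hd : F d <;> intro h3 h4 h5 <;>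
    first
      | exact absurd h3 (by decide)
      | exact absurd h4 (by decide)
      | exact absurd h5 (by decide)
      | exact ⟨⟨a, b, h1, ha, hb⟩, c, d, h2, hc, hd⟩
      | exact ⟨⟨c, d, h2, hc, hd⟩, a, b, h1, ha, hb⟩

theorem ins_pull {k m : ℕ} (ι : Fin k ↪ Fin m) (τ : RTree m) (f : Fin m → Bool)
    (h : TopSide τ f) (hn : NT (eF fun i => f (ι i))) :
    (τ.ins f h).pull (consE ι) = (τ.pull ι).ins (fun i => f (ι i)) (topSide_pull ι τ f h hn) := by
  obtain ⟨⟨a, a', haa, ha, ha'⟩, b, b', hbb, hb, hb'⟩ := in4_pair (fun i => f (ι i)) hn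
  rw [ins_eq τ f h (ι a) (ι b) ha hb, ins_eq (τ.pull ι) (fun i => f (ι i)) _ a b ha hb]
  obtain ⟨l₀, hl⟩ := id h
  have hdrop : τ.l.dropLast = l₀ := by rw [hl, List.dropLast_concat]
  have hdrop' : (τ.pull ι).l.dropLast = (((l₀.map (resS ι)).filter fun s => decide (NT s)).filter
      fun y => decide (y ≠ eF fun i => f (ι i))).dedup := by
    rw [in4_pull_l ι τ f l₀ hl hn, List.dropLast_concat]
  apply RTree.ext
  · funext p q r
    change oI τ f (ι a) (ι b) (consE ι p) (consE ι q) (consE ι r)
      = oI (τ.pull ι) (fun i => f (ι i)) a b p q r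
    refine Fin.cases ?_ (fun p' => ?_) p
    · refine Fin.cases ?_ (fun q' => ?_) q
      · rfl
      · refine Fin.cases ?_ (fun r' => ?_) r
        · rfl
        · rfl
    · refine Fin.cases ?_ (fun q' => ?_) q
      · refine Fin.cases ?_ (fun r' => ?_) r
        · rfl
        · rfl
      · refine Fin.cases ?_ (fun r' => ?_) r
        · rfl
        · rfl
  · change (((lI τ f (ι a) (ι b)).map (resS (consE ι))).filter fun s => decide (NT s)).dedup
      = lI (τ.pull ι) (fun i => f (ι i)) a b
    unfold lI
    rw [hdrop, hdrop', List.map_append, List.filter_append, List.map_map]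
    have e2 : (([extS (ι b) (eF f), extS (ι a) (eF f)].map (resS (consE ι))).filter
        fun s => decide (NT s)) = [extS b (eF fun i => f (ι i)), extS a (eF fun i => f (ι i))] := by
      rw [List.map_cons, List.map_cons, List.map_nil, in4_res_ext, in4_res_ext]
      rw [List.filter_cons_of_pos, List.filter_cons_of_pos]
      · rfl
      · exact decide_eq_true (in4_nt_ext a _ hn)
      · exact decide_eq_true (in4_nt_ext b _ hn)
    have hxy : extS b (eF fun i => f (ι i)) ≠ extS a (eF fun i => f (ι i)) := by
      intro e
      have := congrFun (congrFun e 0) a.succ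
      change (f (ι b) == f (ι a)) = (f (ι a) == f (ι a)) at this
      rw [ha, hb] at this
      simp at this
    rw [e2]
    rw [show ([extS b (eF fun i => f (ι i)), extS a (eF fun i => f (ι i))] : List (Split (k + 1)))
      = [extS b (eF fun i => f (ι i))] ++ [extS a (eF fun i => f (ι i))] from rfl,
      ← List.append_assoc, in4_dedup_concat, List.filter_append]
    rw [List.filter_cons_of_pos (a := extS b (eF fun i => f (ι i))) (by simpa using hxy),
      List.filter_nil, in4_dedup_concat, ← List.append_assoc]
    congr 2
    rw [← List.dedup_map_of_injective (in4_extI_inj (fun i => f (ι i)) a b)]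
    congr 1
    have hmem : ∀ s ∈ l₀, s ∈ τ.l ∧ s ≠ eF f := by
      intro s hs
      refine ⟨by rw [hl]; exact List.mem_append_left _ hs, fun e => ?_⟩
      have hnd := τ.nodup
      rw [hl, List.nodup_append] at hnd
      exact hnd.2.2 s hs (eF f) (by simp) e
    apply in4_list
    · intro s hs
      obtain ⟨hsl, hsne⟩ := hmem s hs
      have hsplit : ∃ f' : Fin k → Bool, ∀ p q, resS ι s p q = (f' p == f' q) := by
        obtain ⟨f', hf'⟩ := τ.split s hsl
        exact ⟨fun p => f' (ι p), fun p q => hf' _ _⟩
      simp only [Function.comp_apply, decide_eq_true_eq]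
      rcases const_side τ f h s hsl hsne with ⟨hA, hB⟩ | ⟨hB, hA⟩
      · have eg : extI f (ι a) (ι b) s = extS (ι a) s := if_neg hB
        rw [eg, in4_res_ext]
        constructor
        · rintro ⟨n1, n2, n3⟩
          refine ⟨in4_nt_of_ext a a' _ hsplit haa (hA _ _ ha ha') n1, fun e => n2 ?_⟩
          rw [e]
        · rintro ⟨n1, n2⟩
          exact ⟨in4_nt_ext a _ n1, fun e => n2 (in4_ext_inj e), fun e => n2 (in4_ext_inj e)⟩
      · have eg : extI f (ι a) (ι b) s = extS (ι b) s := if_pos hB
        rw [eg, in4_res_ext]
        constructor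
        · rintro ⟨n1, n2, n3⟩
          refine ⟨in4_nt_of_ext b b' _ hsplit hbb (hB _ _ hb hb') n1, fun e => n3 ?_⟩
          rw [e]
        · rintro ⟨n1, n2⟩
          exact ⟨in4_nt_ext b _ n1, fun e => n2 (in4_ext_inj e), fun e => n2 (in4_ext_inj e)⟩
    · intro s hs n1 n2
      obtain ⟨hsl, hsne⟩ := hmem s hs
      have hsplit : ∃ f' : Fin k → Bool, ∀ p q, resS ι s p q = (f' p == f' q) := by
        obtain ⟨f', hf'⟩ := τ.split s hsl
        exact ⟨fun p => f' (ι p), fun p q => hf' _ _⟩
      simp only [decide_eq_true_eq] at n1 n2
      simp only [Function.comp_apply]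
      rcases const_side τ f h s hsl hsne with ⟨hA, hB⟩ | ⟨hB, hA⟩
      · have eg : extI f (ι a) (ι b) s = extS (ι a) s := if_neg hB
        rw [eg, in4_res_ext]
        symm
        apply if_neg
        intro hB'
        apply n2
        refine in4_const_both (fun i => f (ι i)) _ hsplit n1 fun p q hpq => ?_
        cases hq : f (ι q) with
        | true => exact hA _ _ (hpq.trans hq) hq
        | false => exact hB' _ _ (hpq.trans hq) hq
      · have eg : extI f (ι a) (ι b) s = extS (ι b) s := if_pos hB
        rw [eg, in4_res_ext]
        symm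
        apply if_pos
        intro p q hp hq
        exact hB _ _ hp hq

end SimplVol
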