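import Pool.Agent.H54.RT.MN
import Pool.Agent.H54.RT.FY

/-!
# Module KI: iterated averages over the roundings

Same structure as `MM` in module `Pool/Agent/H54/RT/MN.lean` (copy those proofs, with `κ j m (x^j)` in the role of `μ m (τ j)`): induction on `n`, `Fin.cons`, `Fin.cases`.
* `KM_add`, `KM_smul`, `KM_sum`: linearity in `F`. `KM_bdd`: `Rnd.bdd`.
* `KM_nat`: for `ι : Fin k → Fin m`: `Rnd.nat` (no conditions on `F`).
* `KM_inv`: if `F` is invariant under `∏_j Γ_j` then `KM n m κ F (g • x) = KM n m κ F x` for `g : Fin n → SL(2, ℝ)`: the inner function `x' ↦ κ 0 m (x^0) (y ↦ F (cons y x'))` is invariant under `∏_{j ≥ 1} Γ_j` (take `γ 0 = 1`), and for fixed `x'` the function `y ↦ F (cons y x')` is invariant under `Γ_0`, so `Rnd.inv` removes `g 0`; induction.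
* `KM_prod`: as `MM_prod`. `KM_vol`: as `MM_vol`: `vol n x = (1/(2n)!) ∑ sgn σ ∏_j area (x 0 j) ..`, `KM_prod` with `f j y = area (y 0) (y a_j) (y b_j)` and `Rnd.area`.
-/

set_option autoImplicit false

open scoped BigOperators UpperHalfPlane MatrixGroups

namespace SimplVol

/-- The iterated averages. -/
noncomputable def KM : ∀ (n m : ℕ),
    (Fin n → ∀ m, (Fin m → ℍ) → ((Fin m → ℍ) → ℝ) →ₗ[ℝ] ℝ) →
    ((Fin m → Fin n → ℍ) → ℝ) → (Fin m → Fin n → ℍ) → ℝ
  | 0, _, _, F, x => F x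
  | n + 1, m, κ, F, x => KM n m (fun j => κ j.succ)
      (fun x' => κ 0 m (fun i => x i 0) fun y => F fun i => Fin.cons (y i) (x' i))
      fun i j => x i j.succ

theorem KI_zero {m : ℕ} (κ : Fin 0 → ∀ m, (Fin m → ℍ) → ((Fin m → ℍ) → ℝ) →ₗ[ℝ] ℝ)
    (F : (Fin m → Fin 0 → ℍ) → ℝ) (x : Fin m → Fin 0 → ℍ) : KM 0 m κ F x = F x := rfl

theorem KI_succ {n m : ℕ} (κ : Fin (n + 1) → ∀ m, (Fin m → ℍ) → ((Fin m → ℍ) → ℝ) →ₗ[ℝ] ℝ)
    (F : (Fin m → Fin (n + 1) → ℍ) → ℝ) (x : Fin m → Fin (n + 1) → ℍ) :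
    KM (n + 1) m κ F x = KM n m (fun j => κ j.succ)
      (fun x' => κ 0 m (fun i => x i 0) fun y => F fun i => Fin.cons (y i) (x' i))
      fun i j => x i j.succ := rfl

theorem KM_add {n m : ℕ} (κ : Fin n → ∀ m, (Fin m → ℍ) → ((Fin m → ℍ) → ℝ) →ₗ[ℝ] ℝ)
    (F G : (Fin m → Fin n → ℍ) → ℝ) (x : Fin m → Fin n → ℍ) :
    KM n m κ (fun y => F y + G y) x = KM n m κ F x + KM n m κ G x := by
  induction n with
  | zero => rfl
  | succ n ih =>
    rw [KI_succ, KI_succ, KI_succ, ← ih]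
    congr 1
    funext x'
    exact map_add (κ 0 m (fun i => x i 0)) (fun y => F fun i => Fin.cons (y i) (x' i))
      (fun y => G fun i => Fin.cons (y i) (x' i))

theorem KM_smul {n m : ℕ} (κ : Fin n → ∀ m, (Fin m → ℍ) → ((Fin m → ℍ) → ℝ) →ₗ[ℝ] ℝ) (c : ℝ)
    (F : (Fin m → Fin n → ℍ) → ℝ) (x : Fin m → Fin n → ℍ) :
    KM n m κ (fun y => c * F y) x = c * KM n m κ F x := by
  induction n with
  | zero => rfl
  | succ n ih =>
    rw [KI_succ, KI_succ, ← ih]
    congr 1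
    funext x'
    exact map_smul (κ 0 m (fun i => x i 0)) c (fun y => F fun i => Fin.cons (y i) (x' i))

theorem KI_null {n m : ℕ} (κ : Fin n → ∀ m, (Fin m → ℍ) → ((Fin m → ℍ) → ℝ) →ₗ[ℝ] ℝ)
    (x : Fin m → Fin n → ℍ) : KM n m κ (fun _ => 0) x = 0 := by
  have h := KM_smul κ 0 (fun _ => (0 : ℝ)) x
  simp only [mul_zero, zero_mul] at h
  exact h

theorem KM_sum {n m : ℕ} (κ : Fin n → ∀ m, (Fin m → ℍ) → ((Fin m → ℍ) → ℝ) →ₗ[ℝ] ℝ) {J : Type}
    (s : Finset J) (F : J → (Fin m → Fin n → ℍ) → ℝ) (x : Fin m → Fin n → ℍ) :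
    KM n m κ (fun y => ∑ i ∈ s, F i y) x = ∑ i ∈ s, KM n m κ (F i) x := by
  classical
  induction s using Finset.induction_on with
  | empty =>
    simp only [Finset.sum_empty]
    exact KI_null κ x
  | insert a s ha ih =>
    rw [Finset.sum_insert ha, ← ih]
    simp only [Finset.sum_insert ha]
    exact KM_add _ _ _ x

theorem KM_bdd {n m : ℕ} (Γ : Fin n → Subgroup SL(2, ℝ))
    (κ : Fin n → ∀ m, (Fin m → ℍ) → ((Fin m → ℍ) → ℝ) →ₗ[ℝ] ℝ) (hκ : ∀ j, Rnd (Γ j) (κ j))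
    (F : (Fin m → Fin n → ℍ) → ℝ) (C : ℝ) (hF : ∀ y, |F y| ≤ C) (x : Fin m → Fin n → ℍ) :
    |KM n m κ F x| ≤ C := by
  induction n with
  | zero => exact hF _
  | succ n ih =>
    rw [KI_succ]
    exact ih (fun j => Γ j.succ) _ (fun j => hκ j.succ) _
      (fun x' => (hκ 0).bdd m _ _ C (fun y => hF _)) _

theorem KM_nat {n k m : ℕ} (Γ : Fin n → Subgroup SL(2, ℝ))
    (κ : Fin n → ∀ m, (Fin m → ℍ) → ((Fin m → ℍ) → ℝ) →ₗ[ℝ] ℝ) (hκ : ∀ j, Rnd (Γ j) (κ j))
    (ι : Fin k → Fin m) (F : (Fin k → Fin n → ℍ) → ℝ) (x : Fin m → Fin n → ℍ) :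
    KM n m κ (fun y => F fun i => y (ι i)) x = KM n k κ F fun i => x (ι i) := by
  induction n with
  | zero => rfl
  | succ n ih =>
    rw [KI_succ, KI_succ]
    have h2 := ih (fun j => Γ j.succ) (fun j => κ j.succ) (fun j => hκ j.succ)
      (fun x' => κ 0 k (fun i => x (ι i) 0) fun y' => F fun i => Fin.cons (y' i) (x' i))
      (fun i j => x i j.succ)
    rw [← h2]
    congr 1
    funext x'
    exact (hκ 0).nat k m ι (fun i => x i 0) (fun y' => F fun i => Fin.cons (y' i) (x' (ι i)))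

theorem KM_inv {n m : ℕ} (Γ : Fin n → Subgroup SL(2, ℝ))
    (κ : Fin n → ∀ m, (Fin m → ℍ) → ((Fin m → ℍ) → ℝ) →ₗ[ℝ] ℝ) (hκ : ∀ j, Rnd (Γ j) (κ j))
    (F : (Fin m → Fin n → ℍ) → ℝ)
    (hF : ∀ γ : Fin n → SL(2, ℝ), (∀ j, γ j ∈ Γ j) → ∀ y, F (fun i j => γ j • y i j) = F y)
    (g : Fin n → SL(2, ℝ)) (x : Fin m → Fin n → ℍ) :
    KM n m κ F (fun i j => g j • x i j) = KM n m κ F x := by
  induction n with
  | zero =>
    rw [KI_zero, KI_zero]
    congr 1
    funext i j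
    exact j.elim0
  | succ n ih =>
    rw [KI_succ, KI_succ]
    have h1 : (fun x' : Fin m → Fin n → ℍ => κ 0 m (fun i => g 0 • x i 0)
          fun y => F fun i => Fin.cons (y i) (x' i)) =
        fun x' => κ 0 m (fun i => x i 0) fun y => F fun i => Fin.cons (y i) (x' i) := by
      funext x'
      refine (hκ 0).inv m (fun i => x i 0) _ (g 0) ?_
      intro γ hγ y
      have h2 := hF (Fin.cons γ 1) (fun j => by
        refine Fin.cases ?_ (fun j => ?_) j
        · simpa using hγ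
        · simpa using (Γ j.succ).one_mem) (fun i => Fin.cons (y i) (x' i))
      show F (fun i => Fin.cons (γ • y i) (x' i)) = F fun i => Fin.cons (y i) (x' i)
      rw [← h2]
      congr 1
      funext i j
      refine Fin.cases ?_ (fun j => ?_) j
      · simp
      · simp
    rw [h1]
    refine ih (fun j => Γ j.succ) (fun j => κ j.succ) (fun j => hκ j.succ) _ ?_ (fun j => g j.succ)
      (fun i j => x i j.succ)
    intro γ hγ x'
    show κ 0 m (fun i => x i 0) (fun y => F fun i => Fin.cons (y i) (fun j => γ j • x' i j)) =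
      κ 0 m (fun i => x i 0) (fun y => F fun i => Fin.cons (y i) (x' i))
    congr 1
    funext y
    have h2 := hF (Fin.cons 1 γ) (fun j => by
      refine Fin.cases ?_ (fun j => ?_) j
      · simpa using (Γ 0).one_mem
      · simpa using hγ j) (fun i => Fin.cons (y i) (x' i))
    rw [← h2]
    congr 1
    funext i j
    refine Fin.cases ?_ (fun j => ?_) j
    · simp
    · simp

theorem KI_prod {n m : ℕ} (κ : Fin n → ∀ m, (Fin m → ℍ) → ((Fin m → ℍ) → ℝ) →ₗ[ℝ] ℝ)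
    (f : Fin n → (Fin m → ℍ) → ℝ) (x : Fin m → Fin n → ℍ) :
    KM n m κ (fun y => ∏ j, f j fun i => y i j) x = ∏ j, κ j m (fun i => x i j) (f j) := by
  induction n with
  | zero =>
    rw [KI_zero, Fin.prod_univ_zero, Fin.prod_univ_zero]
  | succ n ih =>
    rw [KI_succ, Fin.prod_univ_succ, ← ih (fun j => κ j.succ) (fun j => f j.succ)
      (fun i j => x i j.succ), ← KM_smul]
    congr 1
    funext x'
    have h1 : (fun y : Fin m → ℍ => ∏ j : Fin (n + 1),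
        f j fun i => (Fin.cons (y i) (x' i) : Fin (n + 1) → ℍ) j) =
        (∏ j : Fin n, f j.succ fun i => x' i j) • (f 0) := by
      funext y
      rw [Fin.prod_univ_succ]
      simp only [Fin.cons_zero, Fin.cons_succ, Pi.smul_apply, smul_eq_mul]
      rw [mul_comm]
    rw [h1, map_smul, smul_eq_mul, mul_comm]

theorem KM_vol {n : ℕ} (Γ : Fin n → Subgroup SL(2, ℝ))
    (κ : Fin n → ∀ m, (Fin m → ℍ) → ((Fin m → ℍ) → ℝ) →ₗ[ℝ] ℝ) (hκ : ∀ j, Rnd (Γ j) (κ j))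
    (x : Fin (n * 2 + 1) → Fin n → ℍ) : KM n (n * 2 + 1) κ (vol n) x = vol n x := by
  have h0 : vol n = fun x => (1 / ((n * 2).factorial : ℝ)) *
      (∑ σ : Equiv.Perm (Fin (n * 2)), ((Equiv.Perm.sign σ : ℤ) : ℝ) *
        ∏ j : Fin n, area (x 0 j) (x (σ (finProdFinEquiv (j, 0))).succ j)
          (x (σ (finProdFinEquiv (j, 1))).succ j)) := rfl
  have h1 : ∀ σ : Equiv.Perm (Fin (n * 2)), KM n (n * 2 + 1) κ
      (fun x => ((Equiv.Perm.sign σ : ℤ) : ℝ) *
        ∏ j : Fin n, area (x 0 j) (x (σ (finProdFinEquiv (j, 0))).succ j)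
          (x (σ (finProdFinEquiv (j, 1))).succ j)) x =
      ((Equiv.Perm.sign σ : ℤ) : ℝ) *
        ∏ j : Fin n, area (x 0 j) (x (σ (finProdFinEquiv (j, 0))).succ j)
          (x (σ (finProdFinEquiv (j, 1))).succ j) := by
    intro σ
    rw [KM_smul]
    have h2 := KI_prod κ (fun j (y : Fin (n * 2 + 1) → ℍ) =>
      area (y 0) (y (σ (finProdFinEquiv (j, 0))).succ) (y (σ (finProdFinEquiv (j, 1))).succ)) x
    have h3 : ∀ j : Fin n, κ j (n * 2 + 1) (fun i => x i j) (fun y : Fin (n * 2 + 1) → ℍ =>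
        area (y 0) (y (σ (finProdFinEquiv (j, 0))).succ) (y (σ (finProdFinEquiv (j, 1))).succ)) =
        area (x 0 j) (x (σ (finProdFinEquiv (j, 0))).succ j)
          (x (σ (finProdFinEquiv (j, 1))).succ j) := fun j => (hκ j).area _ _ _ _ _
    simp only [h3] at h2
    rw [h2]
  rw [h0, KM_smul, KM_sum]
  simp only [h1]

end SimplVol
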