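import Pool.Agent.H54.RT.SB

/-!
# Module KP: the averages over the roundings

`Rd Γ R ρ`. For `φ : (Fin m → ℍ) → ℝ` and `x : Fin m → ℍ` put `kap φ = Ev R (fun a => φ (fun i => ρ (a • x i)))`.
* `kp_meas`: `A ↦ φ (fun i => ρ (sl A • x i))` restricted to `R`: the values of `A ↦ (ρ (sl A • x i))_i` on `R` lie in a finite set `V ⊆ (Fin m → ℍ)` (`Rd.fin` for every `i`: `Set.Finite.pi`), and for each `v ∈ V` the set of the `A` with this value is measurable (`Rd.meas`, finite intersection). So the function equals on `R` the simple function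
  `∑_{v ∈ V} φ v • indicator`, hence it is integrable on `R` (`kp_int`) (finite measure, finite sum of indicators: `IntegrableOn.congr_fun`, `integrable_finsetSum`, `IntegrableOn.indicator`). Everywhere measurability (`kp_meas'`): `A ↦ ρ (sl A • x i)` has a countable range `{γ • w}`? Not needed if `Ev_inv` is applied to the function in the next item.
* `Ev_inv` needs `Measurable fun A => Φ (sl A)`. Here `Φ a = φ (fun i => ρ (a • x i))`. The set of all values of `ρ` on `{sl A • z | A}` is countable: as `Γ` is countable and `XX ⊆ ⋃_γ (lm γ)⁻¹' R`, `ρ (sl A • z) ∈ ⋃_γ γ⁻¹ • (finite set)` for `A ∈ XX`; if `A ∉ XX`, then either `0 < dt` (scaling `A` by a factor does not change `sl A`, so `sl A = sl A'` with `A' ∈ XX`: `A' = A/√(dt A)`)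
  or `sl A = 1`. So `A ↦ ρ (sl A • z)` takes countably many values, each on a measurable set (`Rd.meas`), so every function of the tuple `(ρ (sl A • x i))_i` is measurable (`measurable_to_countable'`-like; preimage of any set is a countable union of measurable sets).
* `exists_kap`: linear by `Ev_add`, `Ev_smul`, `kp_int`. `bdd`: `Ev_bdd`. `nat`: by `rfl`. `inv`: `Ev_inv`: `Φ (γ * a) = Φ a` for `γ ∈ Γ` by `Rd.equiv`, `mul_smul` and the invariance of `φ`; `Φ (a * g) = φ (fun i => ρ (a • g • x i))`.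
-/

set_option autoImplicit false

open scoped BigOperators UpperHalfPlane MatrixGroups
open MeasureTheory

namespace SimplVol

variable {Γ : Subgroup SL(2, ℝ)} {R : Set (Pl × Pl)} {ρ : ℍ → ℍ}

/-- The normalised matrix does not change under scaling. -/
theorem kp_scale (A : Pl × Pl) (hA : 0 < dt A.1 A.2) : ∃ B ∈ XX, sl B = sl A := by
  obtain ⟨s, hs, hs2⟩ : ∃ s : ℝ, 0 < s ∧ s * s = dt A.1 A.2 :=
    ⟨Real.sqrt (dt A.1 A.2), Real.sqrt_pos.2 hA, Real.mul_self_sqrt hA.le⟩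
  have hsq : Real.sqrt (dt A.1 A.2) = s := by
    rw [← hs2]
    exact Real.sqrt_mul_self hs.le
  have hdt : dt ((A.1.1 / s, A.1.2 / s) : Pl) ((A.2.1 / s, A.2.2 / s) : Pl) = 1 := by
    have e : dt ((A.1.1 / s, A.1.2 / s) : Pl) ((A.2.1 / s, A.2.2 / s) : Pl) =
        dt A.1 A.2 / (s * s) := by
      unfold dt
      field_simp
    rw [e, hs2]
    exact div_self hA.ne'
  refine ⟨((A.1.1 / s, A.1.2 / s), (A.2.1 / s, A.2.2 / s)), ?_, ?_⟩
  · show 0 < dt ((A.1.1 / s, A.1.2 / s) : Pl) ((A.2.1 / s, A.2.2 / s) : Pl) ∧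
      dt ((A.1.1 / s, A.1.2 / s) : Pl) ((A.2.1 / s, A.2.2 / s) : Pl) ≤ 1
    rw [hdt]
    exact ⟨one_pos, le_refl _⟩
  · apply Subtype.ext
    rw [SA_coe A hA, SA_coe _ (by
      show 0 < dt ((A.1.1 / s, A.1.2 / s) : Pl) ((A.2.1 / s, A.2.2 / s) : Pl)
      rw [hdt]
      exact one_pos), hsq]
    simp only [hdt, Real.sqrt_one, div_one]

theorem kp_range [Countable Γ] (h : Rd Γ R ρ) (z : ℍ) :
    (Set.range fun A : Pl × Pl => ρ (sl A • z)).Countable := by
  have hsub : (Set.range fun A : Pl × Pl => ρ (sl A • z)) ⊆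
      {ρ ((1 : SL(2, ℝ)) • z)} ∪
        ⋃ γ : Γ, (fun w : ℍ => ((γ⁻¹ : Γ) : SL(2, ℝ)) • w) '' {w | ∃ A ∈ R, w = ρ (sl A • z)} := by
    rintro _ ⟨A, rfl⟩
    by_cases hA : 0 < dt A.1 A.2
    · right
      obtain ⟨B, hB, hBA⟩ := kp_scale A hA
      obtain ⟨γ, hγ, _⟩ := h.fd.dom B hB
      refine Set.mem_iUnion.2 ⟨γ, ρ (sl (lm (γ : SL(2, ℝ)) B) • z), ⟨_, hγ, rfl⟩, ?_⟩
      show ((γ⁻¹ : Γ) : SL(2, ℝ)) • ρ (sl (lm (γ : SL(2, ℝ)) B) • z) = ρ (sl A • z)
      rw [sl_lm _ B hB.1, mul_smul, h.equiv _ γ.2, ← mul_smul, ← Subgroup.coe_mul,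
        inv_mul_cancel, Subgroup.coe_one, one_smul, hBA]
    · left
      have e : sl A = 1 := by
        unfold sl
        rw [dif_neg hA]
      show ρ (sl A • z) = ρ ((1 : SL(2, ℝ)) • z)
      rw [e]
  refine Set.Countable.mono hsub ?_
  refine (Set.countable_singleton _).union (Set.countable_iUnion fun γ => ?_)
  exact ((h.fin z).countable).image _

theorem kp_meas [Countable Γ] (h : Rd Γ R ρ) {m : ℕ} (x : Fin m → ℍ) (φ : (Fin m → ℍ) → ℝ) :
    Measurable fun A : Pl × Pl => φ fun i => ρ (sl A • x i) := by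
  have hc : (Set.range fun A : Pl × Pl => fun i => ρ (sl A • x i)).Countable := by
    refine Set.Countable.mono ?_ (Set.countable_univ_pi fun i => kp_range h (x i))
    rintro _ ⟨A, rfl⟩ i _
    exact ⟨A, rfl⟩
  intro S _
  have e : (fun A : Pl × Pl => φ fun i => ρ (sl A • x i)) ⁻¹' S =
      ⋃ v ∈ (Set.range fun A : Pl × Pl => fun i => ρ (sl A • x i)) ∩ φ ⁻¹' S,
        ⋂ i : Fin m, {A : Pl × Pl | ρ (sl A • x i) = v i} := by
    ext A
    simp only [Set.mem_preimage, Set.mem_iUnion, Set.mem_iInter, Set.mem_inter_iff]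
    constructor
    · intro hA
      exact ⟨fun i => ρ (sl A • x i), ⟨⟨A, rfl⟩, hA⟩, fun i => rfl⟩
    · rintro ⟨v, ⟨_, hv⟩, hAv⟩
      have e2 : (fun i => ρ (sl A • x i)) = v := funext hAv
      rw [e2]
      exact hv
  rw [e]
  refine MeasurableSet.biUnion (hc.mono Set.inter_subset_left) fun v _ => ?_
  exact MeasurableSet.iInter fun i => h.meas (x i) (v i)

theorem kp_bdd (h : Rd Γ R ρ) {m : ℕ} (x : Fin m → ℍ) (φ : (Fin m → ℍ) → ℝ) :
    ∃ C : ℝ, ∀ A ∈ R, |φ fun i => ρ (sl A • x i)| ≤ C := by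
  have hf : (Set.univ.pi fun i : Fin m => {w | ∃ A ∈ R, w = ρ (sl A • x i)}).Finite :=
    Set.Finite.pi fun i => h.fin (x i)
  obtain ⟨C, hC⟩ := (hf.image fun v => |φ v|).bddAbove
  refine ⟨C, fun A hA => hC ⟨_, ?_, rfl⟩⟩
  intro i _
  exact ⟨A, hA, rfl⟩

theorem kp_int [Countable Γ] (h : Rd Γ R ρ) {m : ℕ} (x : Fin m → ℍ) (φ : (Fin m → ℍ) → ℝ) :
    IntegrableOn (fun A : Pl × Pl => φ fun i => ρ (sl A • x i)) R := by
  obtain ⟨C, hC⟩ := kp_bdd h x φ
  exact Ev_int h.fd (fun a => φ fun i => ρ (a • x i)) (kp_meas h x φ) C hC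

theorem exists_kap [Countable Γ] (h : Rd Γ R ρ) :
    ∃ κ : ∀ m, (Fin m → ℍ) → ((Fin m → ℍ) → ℝ) →ₗ[ℝ] ℝ,
      (∀ m x φ, κ m x φ = Ev R fun a => φ fun i => ρ (a • x i)) ∧
      (∀ m x φ (C : ℝ), (∀ y, |φ y| ≤ C) → |κ m x φ| ≤ C) ∧
      (∀ (k m : ℕ) (ι : Fin k → Fin m) x φ,
        κ m x (fun y => φ fun i => y (ι i)) = κ k (fun i => x (ι i)) φ) ∧
      ∀ m x φ (g : SL(2, ℝ)),
        (∀ γ : SL(2, ℝ), γ ∈ Γ → ∀ y : Fin m → ℍ, φ (fun i => γ • y i) = φ y) →
        κ m (fun i => g • x i) φ = κ m x φ := by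
  refine ⟨fun m x =>
    { toFun := fun φ => Ev R fun a => φ fun i => ρ (a • x i)
      map_add' := fun φ ψ => Ev_add (fun a => φ fun i => ρ (a • x i))
        (fun a => ψ fun i => ρ (a • x i)) (kp_int h x φ) (kp_int h x ψ)
      map_smul' := fun c φ => Ev_smul c (fun a => φ fun i => ρ (a • x i)) },
    fun m x φ => rfl, ?_, fun k m ι x φ => rfl, ?_⟩
  · intro m x φ C hC
    exact Ev_bdd h.fd (fun a => φ fun i => ρ (a • x i)) C fun A _ => hC _
  · intro m x φ g hφ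
    show Ev R (fun a => φ fun i => ρ (a • g • x i)) = Ev R fun a => φ fun i => ρ (a • x i)
    rw [← Ev_inv h.fd (fun a => φ fun i => ρ (a • x i)) (kp_meas h x φ) ?_ g]
    · simp only [mul_smul]
    · intro γ hγ a
      show (φ fun i => ρ ((γ * a) • x i)) = φ fun i => ρ (a • x i)
      rw [← hφ γ hγ (fun i => ρ (a • x i))]
      simp only [mul_smul, h.equiv γ hγ]

end SimplVol
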