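import Pool.Agent.H54.RT.ME

/-!
# Module MN: means on tuples of points of `ℍⁿ`

`MM n m F τ` iterates the means `μ m (τ j)` over the factors `j`.
* `MM_add`, `MM_smul`, `MM_sum`: induction on `n`; `μ m (τ 0)` is linear (`map_add`, `map_smul`; the function `y ↦ F (..) + G (..)` is the sum of functions). `MM_sum` from
  `MM_add` and `MM_smul` (with `c = 0`) by `Finset.induction_on`.
* `MM_bdd`: induction on `n`, `hμ.bdd`. For `n = 0` use that `|F x| ≤ C`.
* `MM_nat`: induction on `n`. `n = 0`: all functions `Fin k → Fin 0 → ℍ` are equal (`Subsingleton`). Step: for every `x : Fin m → Fin n → ℍ`, the inner function is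
  `μ m (τ 0) (fun y => F (fun i => Fin.cons (y (ι i)) (x (ι i)))) = μ k ((τ 0).pull ι) (fun y' => F (fun i => Fin.cons (y' i) (x (ι i))))` by `hμ.nat` (invariant: the element of
  `KK (n+1)` given by `Fin.cons g 1`; bounded). So the inner function is `G (fun i => x (ι i))` with `G x' = μ k ((τ 0).pull ι) (fun y' => F (fun i => Fin.cons (y' i) (x' i)))`, which is
  bounded and invariant (under `g : Fin n → SL(2, ℝ)`: the element `Fin.cons 1 g`), and the induction hypothesis applies to `G`.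
* `MM_prod`: induction on `n`: `Fin.prod_univ_succ`; the inner function is `(∏_{j} f j.succ (fun i => x i j)) * μ m (τ 0) (f 0)` (`map_smul`), then `MM_smul`.
* `MMn_vol`: `vol n x` is `(1/(2n)!) ∑_σ sgn σ ∏_j area ..` : `MM_smul`, `MM_sum`, `MM_prod` with `f j y = area (y 0) (y a_j) (y b_j)`, `hμ.area`; `∏_j (π * o_j) = π^n ∏_j o_j` (`Finset.prod_mul_distrib`).
-/

set_option autoImplicit false

open scoped BigOperators UpperHalfPlane MatrixGroups

namespace SimplVol

/-- The maps of `ℍⁿ` given by `SL(2, ℝ)ⁿ`. -/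
def KK (n : ℕ) : Set ((Fin n → ℍ) → (Fin n → ℍ)) :=
  {f | ∃ g : Fin n → SL(2, ℝ), f = fun z j => g j • z j}

/-- Invariance under `SL(2, ℝ)ⁿ` of a function of tuples of points of `ℍⁿ`. -/
def InvN {n m : ℕ} (F : (Fin m → Fin n → ℍ) → ℝ) : Prop :=
  ∀ (g : Fin n → SL(2, ℝ)) (x : Fin m → Fin n → ℍ), F (fun i j => g j • x i j) = F x

/-- The iterated means. -/
noncomputable def MM (μ : ∀ m, RTree m → ((Fin m → ℍ) → ℝ) →ₗ[ℝ] ℝ) : ∀ (n m : ℕ),
    ((Fin m → Fin n → ℍ) → ℝ) → (Fin n → RTree m) → ℝ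
  | 0, _, F, _ => F fun _ j => j.elim0
  | n + 1, m, F, τ => MM μ n m (fun x => μ m (τ 0) fun y => F fun i => Fin.cons (y i) (x i))
      fun j => τ j.succ

variable {μ : ∀ m, RTree m → ((Fin m → ℍ) → ℝ) →ₗ[ℝ] ℝ}

theorem MM_zero {m : ℕ} (F : (Fin m → Fin 0 → ℍ) → ℝ) (τ : Fin 0 → RTree m) :
    MM μ 0 m F τ = F fun _ j => j.elim0 := rfl

theorem MM_succ {n m : ℕ} (F : (Fin m → Fin (n + 1) → ℍ) → ℝ) (τ : Fin (n + 1) → RTree m) :
    MM μ (n + 1) m F τ =
      MM μ n m (fun x => μ m (τ 0) fun y => F fun i => Fin.cons (y i) (x i)) fun j => τ j.succ :=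
  rfl

theorem MM_add {n m : ℕ} (F G : (Fin m → Fin n → ℍ) → ℝ) (τ : Fin n → RTree m) :
    MM μ n m (fun x => F x + G x) τ = MM μ n m F τ + MM μ n m G τ := by
  induction n with
  | zero => rfl
  | succ n ih =>
    rw [MM_succ, MM_succ, MM_succ, ← ih]
    congr 1
    funext x
    exact map_add (μ m (τ 0)) (fun y => F fun i => Fin.cons (y i) (x i))
      (fun y => G fun i => Fin.cons (y i) (x i))

theorem MM_smul {n m : ℕ} (c : ℝ) (F : (Fin m → Fin n → ℍ) → ℝ) (τ : Fin n → RTree m) :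
    MM μ n m (fun x => c * F x) τ = c * MM μ n m F τ := by
  induction n with
  | zero => rfl
  | succ n ih =>
    rw [MM_succ, MM_succ, ← ih]
    congr 1
    funext x
    exact map_smul (μ m (τ 0)) c (fun y => F fun i => Fin.cons (y i) (x i))

theorem mn_zero {n m : ℕ} (τ : Fin n → RTree m) : MM μ n m (fun _ => 0) τ = 0 := by
  have h := MM_smul (μ := μ) 0 (fun _ => (0 : ℝ)) τ
  simp only [mul_zero, zero_mul] at h
  exact h

theorem MM_sum {n m : ℕ} {J : Type} (s : Finset J) (F : J → (Fin m → Fin n → ℍ) → ℝ)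
    (τ : Fin n → RTree m) :
    MM μ n m (fun x => ∑ j ∈ s, F j x) τ = ∑ j ∈ s, MM μ n m (F j) τ := by
  classical
  induction s using Finset.induction_on with
  | empty =>
    simp only [Finset.sum_empty]
    exact mn_zero τ
  | insert a s ha ih =>
    rw [Finset.sum_insert ha, ← ih]
    simp only [Finset.sum_insert ha]
    exact MM_add _ _ τ

theorem MM_bdd (hμ : Means μ) {n m : ℕ} (F : (Fin m → Fin n → ℍ) → ℝ) (C : ℝ)
    (hF : ∀ x, |F x| ≤ C) (τ : Fin n → RTree m) : |MM μ n m F τ| ≤ C := by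
  induction n with
  | zero => exact hF _
  | succ n ih =>
    rw [MM_succ]
    exact ih _ (fun x => hμ.bdd m (τ 0) _ C (fun y => hF _)) _

theorem MM_nat (hμ : Means μ) {n k m : ℕ} (hk : 1 ≤ k) (ι : Fin k ↪ Fin m)
    (F : (Fin k → Fin n → ℍ) → ℝ) (hI : InvN F) (hF : ∃ C, ∀ x, |F x| ≤ C)
    (τ : Fin n → RTree m) :
    MM μ n m (fun x => F fun i => x (ι i)) τ = MM μ n k F fun j => (τ j).pull ι := by
  induction n with
  | zero => rfl
  | succ n ih =>
    obtain ⟨C, hC⟩ := hF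
    rw [MM_succ, MM_succ]
    have hG : InvN (fun x' : Fin k → Fin n → ℍ => μ k ((τ 0).pull ι)
        fun y' => F fun i => Fin.cons (y' i) (x' i)) := by
      intro g x
      show μ k ((τ 0).pull ι) (fun y' => F fun i => Fin.cons (y' i) (fun j => g j • x i j)) =
        μ k ((τ 0).pull ι) (fun y' => F fun i => Fin.cons (y' i) (x i))
      congr 1
      funext y'
      have h1 := hI (Fin.cons 1 g) (fun i => Fin.cons (y' i) (x i))
      rw [← h1]
      congr 1
      funext i j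
      refine Fin.cases ?_ (fun j => ?_) j
      · simp
      · simp
    have h2 := ih (fun x' => μ k ((τ 0).pull ι) fun y' => F fun i => Fin.cons (y' i) (x' i)) hG
      ⟨C, fun x => hμ.bdd k _ _ C (fun y => hC _)⟩ (fun j => τ j.succ)
    rw [← h2]
    congr 1
    funext x
    refine hμ.nat k m ι (τ 0) (fun y' => F fun i => Fin.cons (y' i) (x (ι i))) hk ?_
      ⟨C, fun y => hC _⟩
    intro g y
    have h1 := hI (Fin.cons g 1) (fun i => Fin.cons (y i) (x (ι i)))
    show F (fun i => Fin.cons (g • y i) (x (ι i))) = F fun i => Fin.cons (y i) (x (ι i))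
    rw [← h1]
    congr 1
    funext i j
    refine Fin.cases ?_ (fun j => ?_) j
    · simp
    · simp

theorem MM_prod {n m : ℕ} (f : Fin n → (Fin m → ℍ) → ℝ) (τ : Fin n → RTree m) :
    MM μ n m (fun x => ∏ j, f j fun i => x i j) τ = ∏ j, μ m (τ j) (f j) := by
  induction n with
  | zero =>
    rw [MM_zero, Fin.prod_univ_zero, Fin.prod_univ_zero]
  | succ n ih =>
    rw [MM_succ, Fin.prod_univ_succ, ← ih (fun j => f j.succ) (fun j => τ j.succ), ← MM_smul]
    congr 1
    funext x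
    have h1 : (fun y : Fin m → ℍ => ∏ j : Fin (n + 1),
        f j fun i => (Fin.cons (y i) (x i) : Fin (n + 1) → ℍ) j) =
        (∏ j : Fin n, f j.succ fun i => x i j) • (f 0) := by
      funext y
      rw [Fin.prod_univ_succ]
      simp only [Fin.cons_zero, Fin.cons_succ, Pi.smul_apply, smul_eq_mul]
      rw [mul_comm]
    rw [h1, map_smul, smul_eq_mul, mul_comm]

theorem MMn_vol (hμ : Means μ) {n : ℕ} (τ : Fin n → RTree (n * 2 + 1)) :
    MM μ n (n * 2 + 1) (vol n) τ = Real.pi ^ n * treeVol n τ := by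
  have h0 : vol n = fun x => (1 / ((n * 2).factorial : ℝ)) *
      (∑ σ : Equiv.Perm (Fin (n * 2)), ((Equiv.Perm.sign σ : ℤ) : ℝ) *
        ∏ j : Fin n, area (x 0 j) (x (σ (finProdFinEquiv (j, 0))).succ j)
          (x (σ (finProdFinEquiv (j, 1))).succ j)) := rfl
  have h1 : ∀ σ : Equiv.Perm (Fin (n * 2)), MM μ n (n * 2 + 1)
      (fun x => ((Equiv.Perm.sign σ : ℤ) : ℝ) *
        ∏ j : Fin n, area (x 0 j) (x (σ (finProdFinEquiv (j, 0))).succ j)
          (x (σ (finProdFinEquiv (j, 1))).succ j)) τ =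
      Real.pi ^ n * (((Equiv.Perm.sign σ : ℤ) : ℝ) * ∏ j : Fin n,
        (((τ j).o 0 (σ (finProdFinEquiv (j, 0))).succ
          (σ (finProdFinEquiv (j, 1))).succ : ℤ) : ℝ)) := by
    intro σ
    rw [MM_smul]
    have h2 := MM_prod (μ := μ) (fun j (y : Fin (n * 2 + 1) → ℍ) =>
      area (y 0) (y (σ (finProdFinEquiv (j, 0))).succ) (y (σ (finProdFinEquiv (j, 1))).succ)) τ
    have h3 : ∀ j : Fin n, μ (n * 2 + 1) (τ j) (fun y : Fin (n * 2 + 1) → ℍ =>
        area (y 0) (y (σ (finProdFinEquiv (j, 0))).succ) (y (σ (finProdFinEquiv (j, 1))).succ)) =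
        Real.pi * (((τ j).o 0 (σ (finProdFinEquiv (j, 0))).succ
          (σ (finProdFinEquiv (j, 1))).succ : ℤ) : ℝ) := fun j => hμ.area _ _ _ _ _
    simp only [h3] at h2
    rw [Finset.prod_mul_distrib, Finset.prod_const, Finset.card_univ, Fintype.card_fin] at h2
    rw [h2]
    ring
  rw [h0, MM_smul, MM_sum]
  simp only [h1]
  rw [← Finset.mul_sum]
  unfold treeVol
  ring

end SimplVol
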