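import Pool.Agent.H54.RT.FY
import Pool.Agent.H54.RT.MN
import Pool.Agent.H74.SV.CP

/-!
# Module LB: the lower bound from a natural invariant family

`CStar M`. For `x : Fin m → Fin n → ℍ` and `τ : Fin n → RTree m` let `W x τ = ∏ j, M m (fun i => x i j) (τ j)`.
* `lb_one`: `∑ τ, W x τ = 1` (`Finset.prod_univ_sum`, `Fintype.piFinset_univ`, `CStar.one`); `W x τ ≥ 0`; `W (g • x) τ = W x τ`.
* `lb_nat`: `∑ τ, W x τ * b (fun j => (τ j).pull ι) = ∑ τ', W (x ∘ ι) τ' * b τ'`: `CStar.nat` with `φ = indicator of τ'` gives `M k (x ∘ ι) τ' = ∑_{τ} if τ.pull ι = τ' then M m x τ else 0`; take products (`Finset.prod_univ_sum`), `∑ τ, W x τ * b (pull τ) = ∑ τ', b τ' * ∑ τ, (if pull τ = τ' then W x τ else 0)` and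
  `(if (fun j => (τ j).pull ι) = τ' then ∏.. else 0) = ∏ j (if (τ j).pull ι = τ' j then .. else 0)`.
* `lb_vol`: `∑ τ, W x τ * treeVol n τ = vol n x / π^n`: unfold `treeVol`, exchange the sums, `∑ τ, ∏_j (M .. (τ j) * o_{τ j}(..)) = ∏_j ∑_{τ_j} .. = ∏_j area .. / π` (`Finset.prod_univ_sum`, `CStar.area`).
* `lower`: let `D b τ = ∑_i (-1)^i b (fun j => (τ j).pull δ_i)`, `Ψ x = ∑ τ, W x τ * (treeVol n τ + D b τ)`. `|Ψ x| ≤ v`. `Ψ x = vol n x / π^n + ∑_i (-1)^i Φ (x ∘ i.succAbove)` with `Φ x' = ∑ τ', W x' τ' * b τ'` (`lb_nat` for `ι = Fin.succAboveEmb i`), `Φ` invariant. Pairing with the cycle `w`: `pairF_coboundary` (`Pool/Agent/H74/SV/CP.lean`):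
  `pairF Γ Ψ w = volPair Γ w / π^n` (`volPair Γ w = pairF Γ (vol n) w` by `rfl`; linearity of `pairF` in the function), and `|pairF Γ Ψ w| ≤ v * norm1 w` (`Finsupp.sum`, `Finset.abs_sum_le_sum_abs`), see `norm1_ge` in `Pool/Agent/H74/SV/LC.lean` for the method.
* `lower_exact`: the statement used for positivity: if `treeVol n τ + D b τ = 0` for all `τ` then `vol n x = ∑_i (-1)^i B (x ∘ i.succAbove)` with `B = - π^n Φ` invariant.
-/

set_option autoImplicit false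

open scoped BigOperators UpperHalfPlane MatrixGroups

namespace SimplVol

variable {M : ∀ m : ℕ, (Fin m → ℍ) → RTree m → ℝ}

/-- The weight of a tuple of trees. -/
noncomputable def LB_W (M : ∀ m : ℕ, (Fin m → ℍ) → RTree m → ℝ) {m n : ℕ} (x : Fin m → Fin n → ℍ)
    (τ : Fin n → RTree m) : ℝ := ∏ j, M m (fun i => x i j) (τ j)

theorem LB_fub {m n : ℕ} (f : Fin n → RTree m → ℝ) :
    ∑ τ : Fin n → RTree m, ∏ j, f j (τ j) = ∏ j, ∑ t, f j t := by
  rw [Finset.prod_univ_sum, Fintype.piFinset_univ]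

theorem LB_nonneg (hM : CStar M) {m n : ℕ} (x : Fin m → Fin n → ℍ) (τ : Fin n → RTree m) :
    0 ≤ LB_W M x τ := Finset.prod_nonneg fun _ _ => hM.nonneg _ _ _

theorem LB_one (hM : CStar M) {m n : ℕ} (x : Fin m → Fin n → ℍ) :
    ∑ τ : Fin n → RTree m, LB_W M x τ = 1 := by
  unfold LB_W
  rw [LB_fub (fun j t => M m (fun i => x i j) t)]
  exact Finset.prod_eq_one fun j _ => hM.one m _

theorem LB_inv (hM : CStar M) {m n : ℕ} (g : Fin n → SL(2, ℝ)) (x : Fin m → Fin n → ℍ)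
    (τ : Fin n → RTree m) : LB_W M (fun i j => g j • x i j) τ = LB_W M x τ :=
  Finset.prod_congr rfl fun j _ => hM.inv m (g j) (fun i => x i j) (τ j)

open Classical in
theorem LB_pull (hM : CStar M) {k m n : ℕ} (ι : Fin k ↪ Fin m) (x : Fin m → Fin n → ℍ)
    (τ' : Fin n → RTree k) : LB_W M (fun l => x (ι l)) τ' =
      ∑ τ : Fin n → RTree m, LB_W M x τ * (if (fun j => (τ j).pull ι) = τ' then 1 else 0) := by
  have h1 : ∀ j, M k (fun i => x (ι i) j) (τ' j) =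
      ∑ t, M m (fun i => x i j) t * (if t.pull ι = τ' j then 1 else 0) := by
    intro j
    have h := hM.nat k m ι (fun i => x i j) (fun s => if s = τ' j then 1 else 0)
    rw [h]
    simp
  have h2 : LB_W M (fun l => x (ι l)) τ' =
      ∏ j, ∑ t, M m (fun i => x i j) t * (if t.pull ι = τ' j then 1 else 0) :=
    Finset.prod_congr rfl fun j _ => h1 j
  rw [h2, ← LB_fub (fun j t => M m (fun i => x i j) t * (if t.pull ι = τ' j then 1 else 0))]
  refine Finset.sum_congr rfl fun τ _ => ?_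
  rw [Finset.prod_mul_distrib, Finset.prod_boole]
  have h3 : (∀ i ∈ (Finset.univ : Finset (Fin n)), (τ i).pull ι = τ' i) ↔
      (fun j => (τ j).pull ι) = τ' :=
    ⟨fun h => funext fun j => h j (Finset.mem_univ j), fun h j _ => congrFun h j⟩
  unfold LB_W
  congr 1
  by_cases h4 : (fun j => (τ j).pull ι) = τ'
  · rw [if_pos h4, if_pos (h3.2 h4)]
  · rw [if_neg h4, if_neg (fun h => h4 (h3.1 h))]

theorem LB_nat (hM : CStar M) {k m n : ℕ} (ι : Fin k ↪ Fin m) (x : Fin m → Fin n → ℍ)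
    (b : (Fin n → RTree k) → ℝ) :
    ∑ τ : Fin n → RTree m, LB_W M x τ * b (fun j => (τ j).pull ι) =
      ∑ τ' : Fin n → RTree k, LB_W M (fun l => x (ι l)) τ' * b τ' := by
  classical
  have h1 : ∀ τ' : Fin n → RTree k, LB_W M (fun l => x (ι l)) τ' * b τ' =
      ∑ τ : Fin n → RTree m, LB_W M x τ * (if (fun j => (τ j).pull ι) = τ' then b τ' else 0) := by
    intro τ'
    rw [LB_pull hM, Finset.sum_mul]
    refine Finset.sum_congr rfl fun τ _ => ?_
    rw [mul_assoc]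
    congr 1
    split_ifs
    · rw [one_mul]
    · rw [zero_mul]
  rw [Finset.sum_congr rfl (fun τ' _ => h1 τ'), Finset.sum_comm]
  refine Finset.sum_congr rfl fun τ _ => ?_
  rw [← Finset.mul_sum]
  congr 1
  rw [Finset.sum_ite_eq, if_pos (Finset.mem_univ _)]

theorem LB_vol (hM : CStar M) {n : ℕ} (x : Fin (n * 2 + 1) → Fin n → ℍ) :
    ∑ τ : Fin n → RTree (n * 2 + 1), LB_W M x τ * treeVol n τ = vol n x / Real.pi ^ n := by
  have h1 : ∀ σ : Equiv.Perm (Fin (n * 2)), ∑ τ : Fin n → RTree (n * 2 + 1), LB_W M x τ *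
      ∏ j : Fin n, (((τ j).o 0 (σ (finProdFinEquiv (j, 0))).succ
        (σ (finProdFinEquiv (j, 1))).succ : ℤ) : ℝ) =
      (∏ j : Fin n, area (x 0 j) (x (σ (finProdFinEquiv (j, 0))).succ j)
        (x (σ (finProdFinEquiv (j, 1))).succ j)) / Real.pi ^ n := by
    intro σ
    have h2 : ∀ τ : Fin n → RTree (n * 2 + 1), LB_W M x τ *
      ∏ j : Fin n, (((τ j).o 0 (σ (finProdFinEquiv (j, 0))).succ
        (σ (finProdFinEquiv (j, 1))).succ : ℤ) : ℝ) = ∏ j : Fin n, (M (n * 2 + 1) (fun i => x i j) (τ j) *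
        (((τ j).o 0 (σ (finProdFinEquiv (j, 0))).succ
        (σ (finProdFinEquiv (j, 1))).succ : ℤ) : ℝ)) := by
      intro τ
      rw [Finset.prod_mul_distrib]
      rfl
    rw [Finset.sum_congr rfl (fun τ _ => h2 τ),
      LB_fub (fun j t => M (n * 2 + 1) (fun i => x i j) t *
        ((t.o 0 (σ (finProdFinEquiv (j, 0))).succ (σ (finProdFinEquiv (j, 1))).succ : ℤ) : ℝ))]
    have h3 : ∀ j : Fin n, ∑ t, M (n * 2 + 1) (fun i => x i j) t *
        ((t.o 0 (σ (finProdFinEquiv (j, 0))).succ (σ (finProdFinEquiv (j, 1))).succ : ℤ) : ℝ) =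
        area (x 0 j) (x (σ (finProdFinEquiv (j, 0))).succ j)
          (x (σ (finProdFinEquiv (j, 1))).succ j) / Real.pi := fun j =>
      hM.area (n * 2 + 1) (fun i => x i j) 0 _ _
    rw [Finset.prod_congr rfl (fun j _ => h3 j), Finset.prod_div_distrib, Finset.prod_const,
      Finset.card_univ, Fintype.card_fin]
  have h4 : ∀ τ : Fin n → RTree (n * 2 + 1), LB_W M x τ * treeVol n τ =
      ∑ σ : Equiv.Perm (Fin (n * 2)), ((1 / ((n * 2).factorial : ℝ)) * ((Equiv.Perm.sign σ : ℤ) : ℝ)) *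
        (LB_W M x τ * ∏ j : Fin n, (((τ j).o 0 (σ (finProdFinEquiv (j, 0))).succ
        (σ (finProdFinEquiv (j, 1))).succ : ℤ) : ℝ)) := by
    intro τ
    unfold treeVol
    rw [Finset.mul_sum, Finset.mul_sum]
    refine Finset.sum_congr rfl fun σ _ => ?_
    ring
  rw [Finset.sum_congr rfl (fun τ _ => h4 τ), Finset.sum_comm]
  have h5 : vol n x = ∑ σ : Equiv.Perm (Fin (n * 2)), ((1 / ((n * 2).factorial : ℝ)) *
      ((Equiv.Perm.sign σ : ℤ) : ℝ)) * ∏ j : Fin n, area (x 0 j) (x (σ (finProdFinEquiv (j, 0))).succ j)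
        (x (σ (finProdFinEquiv (j, 1))).succ j) := by
    unfold vol
    rw [Finset.mul_sum]
    refine Finset.sum_congr rfl fun σ _ => ?_
    ring
  rw [h5, Finset.sum_div]
  refine Finset.sum_congr rfl fun σ _ => ?_
  rw [← Finset.mul_sum, h1 σ, mul_div_assoc]

/-- The averaged cochain. -/
noncomputable def LB_Phi (M : ∀ m : ℕ, (Fin m → ℍ) → RTree m → ℝ) {m n : ℕ}
    (b : (Fin n → RTree m) → ℝ) (x : Fin m → Fin n → ℍ) : ℝ :=
  ∑ τ : Fin n → RTree m, LB_W M x τ * b τ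

theorem LB_Phi_inv (hM : CStar M) {m n : ℕ} (b : (Fin n → RTree m) → ℝ) : InvN (LB_Phi M b) := by
  intro g x
  exact Finset.sum_congr rfl fun τ _ => by rw [LB_inv hM]

theorem LB_main (hM : CStar M) {n : ℕ} (b : (Fin n → RTree (n * 2)) → ℝ)
    (x : Fin (n * 2 + 1) → Fin n → ℍ) :
    ∑ τ : Fin n → RTree (n * 2 + 1), LB_W M x τ * (treeVol n τ + ∑ i : Fin (n * 2 + 1),
      (-1 : ℝ) ^ (i : ℕ) * b fun j => (τ j).pull (Fin.succAboveEmb i)) =
    vol n x / Real.pi ^ n + ∑ i : Fin (n * 2 + 1), (-1 : ℝ) ^ (i : ℕ) *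
      LB_Phi M b fun l => x (i.succAbove l) := by
  simp only [mul_add]
  rw [Finset.sum_add_distrib, LB_vol hM]
  congr 1
  simp only [Finset.mul_sum]
  rw [Finset.sum_comm]
  refine Finset.sum_congr rfl fun i _ => ?_
  have h1 := LB_nat hM (Fin.succAboveEmb i) x b
  unfold LB_Phi
  have h2 : ∑ τ' : Fin n → RTree (n * 2), LB_W M (fun l => x (i.succAbove l)) τ' * b τ' =
      ∑ τ : Fin n → RTree (n * 2 + 1), LB_W M x τ * b (fun j => (τ j).pull (Fin.succAboveEmb i)) :=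
    h1.symm
  rw [h2, Finset.mul_sum]
  refine Finset.sum_congr rfl fun τ _ => ?_
  ring

theorem LB_bd (hM : CStar M) {m n : ℕ} (x : Fin m → Fin n → ℍ) (f : (Fin n → RTree m) → ℝ) (v : ℝ)
    (hv : ∀ τ, |f τ| ≤ v) : |∑ τ : Fin n → RTree m, LB_W M x τ * f τ| ≤ v := by
  calc |∑ τ : Fin n → RTree m, LB_W M x τ * f τ| ≤ ∑ τ : Fin n → RTree m, |LB_W M x τ * f τ| :=
        Finset.abs_sum_le_sum_abs _ _
    _ ≤ ∑ τ : Fin n → RTree m, LB_W M x τ * v := by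
        refine Finset.sum_le_sum fun τ _ => ?_
        rw [abs_mul, abs_of_nonneg (LB_nonneg hM x τ)]
        exact mul_le_mul_of_nonneg_left (hv τ) (LB_nonneg hM x τ)
    _ = v := by rw [← Finset.sum_mul, LB_one hM, one_mul]

theorem LB_pairbd {n p : ℕ} (Γ : Fin n → Subgroup SL(2, ℝ)) (F : (Fin p → Fin n → ℍ) → ℝ) (v : ℝ)
    (hF : ∀ x, |F x| ≤ v) (w : Chain p (∀ j, Surf (Γ j))) : pairF Γ F w ≤ v * norm1 w := by
  unfold pairF norm1 Finsupp.sum
  rw [Finset.mul_sum]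
  refine Finset.sum_le_sum fun σ _ => ?_
  show w σ * F (vtx Γ σ) ≤ v * |w σ|
  calc w σ * F (vtx Γ σ) ≤ |w σ * F (vtx Γ σ)| := le_abs_self _
    _ = |w σ| * |F (vtx Γ σ)| := abs_mul _ _
    _ ≤ |w σ| * v := mul_le_mul_of_nonneg_left (hF _) (abs_nonneg _)
    _ = v * |w σ| := mul_comm _ _

theorem LB_pairadd {n p : ℕ} (Γ : Fin n → Subgroup SL(2, ℝ)) (F G H : (Fin p → Fin n → ℍ) → ℝ) (c : ℝ)
    (h : ∀ x, F x = G x / c + H x) (w : Chain p (∀ j, Surf (Γ j))) :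
    pairF Γ F w = pairF Γ G w / c + pairF Γ H w := by
  unfold pairF Finsupp.sum
  rw [Finset.sum_div, ← Finset.sum_add_distrib]
  refine Finset.sum_congr rfl fun σ _ => ?_
  show w σ * F (vtx Γ σ) = w σ * G (vtx Γ σ) / c + w σ * H (vtx Γ σ)
  rw [h]
  ring

theorem lower (hM : CStar M) {n : ℕ} (Γ : Fin n → Subgroup SL(2, ℝ))
    (hΓ : ∀ j, IsSurfaceGroup (Γ j)) (b : (Fin n → RTree (n * 2)) → ℝ) (v : ℝ)
    (hv : ∀ τ : Fin n → RTree (n * 2 + 1), |treeVol n τ + ∑ i : Fin (n * 2 + 1),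
      (-1 : ℝ) ^ (i : ℕ) * b fun j => (τ j).pull (Fin.succAboveEmb i)| ≤ v)
    (w : Chain (n * 2 + 1) (∀ j, Surf (Γ j))) (hw : boundary (n * 2) _ w = 0)
    (h1 : volPair Γ w = 1) : 1 ≤ Real.pi ^ n * v * norm1 w := by
  have h2 := LB_pairadd Γ (fun x => ∑ τ : Fin n → RTree (n * 2 + 1), LB_W M x τ *
    (treeVol n τ + ∑ i : Fin (n * 2 + 1),
      (-1 : ℝ) ^ (i : ℕ) * b fun j => (τ j).pull (Fin.succAboveEmb i))) (vol n) _ (Real.pi ^ n)
    (LB_main hM b) w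
  rw [pairF_coboundary Γ hΓ (LB_Phi M b) (LB_Phi_inv hM b) w hw, add_zero] at h2
  have h3 : pairF Γ (vol n) w = 1 := h1
  rw [h3] at h2
  have h4 := LB_pairbd Γ (fun x => ∑ τ : Fin n → RTree (n * 2 + 1), LB_W M x τ *
    (treeVol n τ + ∑ i : Fin (n * 2 + 1),
      (-1 : ℝ) ^ (i : ℕ) * b fun j => (τ j).pull (Fin.succAboveEmb i))) v
    (fun x => LB_bd hM x _ v hv) w
  rw [h2, div_le_iff₀ (pow_pos Real.pi_pos n)] at h4
  calc (1 : ℝ) ≤ v * norm1 w * Real.pi ^ n := h4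
    _ = Real.pi ^ n * v * norm1 w := by ring

theorem lower_exact (hM : CStar M) {n : ℕ} (b : (Fin n → RTree (n * 2)) → ℝ)
    (hv : ∀ τ : Fin n → RTree (n * 2 + 1), treeVol n τ + ∑ i : Fin (n * 2 + 1),
      (-1 : ℝ) ^ (i : ℕ) * b (fun j => (τ j).pull (Fin.succAboveEmb i)) = 0) :
    ∃ B : (Fin (n * 2) → Fin n → ℍ) → ℝ, InvN B ∧ ∀ x : Fin (n * 2 + 1) → Fin n → ℍ,
      vol n x = ∑ i : Fin (n * 2 + 1), (-1 : ℝ) ^ (i : ℕ) * B fun l => x (i.succAbove l) := by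
  refine ⟨fun x => -(Real.pi ^ n) * LB_Phi M b x, ?_, ?_⟩
  · intro g x
    show -(Real.pi ^ n) * LB_Phi M b (fun i j => g j • x i j) = -(Real.pi ^ n) * LB_Phi M b x
    rw [LB_Phi_inv hM b g x]
  · intro x
    have h1 := LB_main hM b x
    have h2 : ∑ τ : Fin n → RTree (n * 2 + 1), LB_W M x τ * (treeVol n τ + ∑ i : Fin (n * 2 + 1),
      (-1 : ℝ) ^ (i : ℕ) * b fun j => (τ j).pull (Fin.succAboveEmb i)) = 0 :=
      Finset.sum_eq_zero fun τ _ => by rw [hv τ, mul_zero]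
    rw [h2] at h1
    have hp : Real.pi ^ n ≠ 0 := (pow_pos Real.pi_pos n).ne'
    have h3 : vol n x / Real.pi ^ n = -∑ i : Fin (n * 2 + 1), (-1 : ℝ) ^ (i : ℕ) *
      LB_Phi M b fun l => x (i.succAbove l) := by linarith
    rw [div_eq_iff hp] at h3
    rw [h3, ← Finset.sum_neg_distrib, Finset.sum_mul]
    refine Finset.sum_congr rfl fun i _ => ?_
    ring

end SimplVol
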