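import Mathlib

/-!
# Module LD: functions of lists and their coboundary
-/

set_option autoImplicit false

open scoped BigOperators Nat

namespace SimplVol

/-- The coboundary of a function of lists (with augmentation):
`dd F [z₀, …, z_k] = ∑ i, (-1)^i F [z₀, …, z_i removed, …, z_k]`. -/
def dd {Z : Type} : (List Z → ℝ) → List Z → ℝ
  | _, [] => 0
  | F, a :: l => F l - dd (fun m => F (a :: m)) l

@[simp] theorem dd_nil {Z : Type} (F : List Z → ℝ) : dd F [] = 0 := rfl

theorem dd_cons {Z : Type} (F : List Z → ℝ) (a : Z) (l : List Z) :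
    dd F (a :: l) = F l - dd (fun m => F (a :: m)) l := rfl

theorem dd_zero {Z : Type} (l : List Z) : dd (fun _ : List Z => (0 : ℝ)) l = 0 := by
  induction l with
  | nil => rfl
  | cons a l ih => rw [dd_cons, ih, sub_zero]

theorem dd_add {Z : Type} (F G : List Z → ℝ) (l : List Z) :
    dd (fun m => F m + G m) l = dd F l + dd G l := by
  induction l generalizing F G with
  | nil => simp
  | cons a l ih =>
    rw [dd_cons, dd_cons, dd_cons, ih (fun m => F (a :: m)) (fun m => G (a :: m))]
    ring

theorem dd_smul {Z : Type} (c : ℝ) (F : List Z → ℝ) (l : List Z) :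
    dd (fun m => c * F m) l = c * dd F l := by
  induction l generalizing F with
  | nil => simp
  | cons a l ih =>
    rw [dd_cons, dd_cons, ih (fun m => F (a :: m))]
    ring

theorem dd_sub {Z : Type} (F G : List Z → ℝ) (l : List Z) :
    dd (fun m => F m - G m) l = dd F l - dd G l := by
  induction l generalizing F G with
  | nil => simp
  | cons a l ih =>
    rw [dd_cons, dd_cons, dd_cons, ih (fun m => F (a :: m)) (fun m => G (a :: m))]
    ring

theorem dd_sum {Z J : Type} (s : Finset J) (F : J → List Z → ℝ) (l : List Z) :
    dd (fun m => ∑ j ∈ s, F j m) l = ∑ j ∈ s, dd (F j) l := by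
  classical
  induction s using Finset.induction_on with
  | empty => simp [dd_zero]
  | insert a s ha ih =>
    simp only [Finset.sum_insert ha]
    rw [dd_add, ih]

/-- The coboundary on lists of length `k + 1` depends only on the values on lists of length `k`. -/
theorem dd_congr {Z : Type} (F G : List Z → ℝ) (l : List Z)
    (h : ∀ m : List Z, m.length + 1 = l.length → F m = G m) : dd F l = dd G l := by
  induction l generalizing F G with
  | nil => rfl
  | cons a l ih =>
    rw [dd_cons, dd_cons, h l rfl]
    rw [ih (fun m => F (a :: m)) (fun m => G (a :: m)) fun m hm => h _ (by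
      rw [List.length_cons, List.length_cons, hm])]

theorem dd_dd {Z : Type} (F : List Z → ℝ) (l : List Z) : dd (dd F) l = 0 := by
  induction l generalizing F with
  | nil => rfl
  | cons a l ih =>
    rw [dd_cons]
    have h1 : (fun m => dd F (a :: m)) = fun m => F m - dd (fun m => F (a :: m)) m := by
      funext m
      rw [dd_cons]
    rw [h1, dd_sub, ih]
    ring

theorem dd_map {Z Z' : Type} (f : Z' → Z) (F : List Z → ℝ) (l : List Z') :
    dd (fun m => F (m.map f)) l = dd F (l.map f) := by
  induction l generalizing F with
  | nil => rfl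
  | cons a l ih =>
    rw [dd_cons, List.map_cons, dd_cons]
    rw [← ih (fun m => F (f a :: m))]
    rfl

theorem dd_ofFn {Z : Type} {k : ℕ} (F : List Z → ℝ) (z : Fin (k + 1) → Z) :
    dd F (List.ofFn z) =
      ∑ i : Fin (k + 1), (-1 : ℝ) ^ (i : ℕ) * F (List.ofFn fun j => z (i.succAbove j)) := by
  induction k generalizing F with
  | zero =>
    rw [List.ofFn_succ, dd_cons]
    simp
  | succ k ih =>
    rw [List.ofFn_succ, dd_cons, ih (fun m => F (z 0 :: m)) (fun i => z i.succ)]
    conv_rhs => rw [Fin.sum_univ_succ]
    have h : ∀ i : Fin (k + 1), (List.ofFn fun j => z (i.succ.succAbove j)) =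
        z 0 :: List.ofFn fun j => z (i.succAbove j).succ := by
      intro i
      rw [List.ofFn_succ, Fin.succ_succAbove_zero]
      simp only [Fin.succ_succAbove_succ]
    simp only [h, Fin.val_zero, pow_zero, one_mul, Fin.zero_succAbove, Fin.val_succ, pow_succ]
    rw [sub_eq_add_neg, ← Finset.sum_neg_distrib]
    congr 1
    refine Finset.sum_congr rfl fun i _ => ?_
    ring

theorem abs_dd_le {Z : Type} (F : List Z → ℝ) (C : ℝ) (l : List Z)
    (h : ∀ m : List Z, m.length + 1 = l.length → |F m| ≤ C) : |dd F l| ≤ l.length * C := by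
  induction l generalizing F with
  | nil => simp
  | cons a l ih =>
    rw [dd_cons, List.length_cons, Nat.cast_add, Nat.cast_one, add_mul, one_mul]
    have h1 := h l rfl
    have h2 := ih (fun m => F (a :: m)) fun m hm => h _ (by
      rw [List.length_cons, List.length_cons, hm])
    calc |F l - dd (fun m => F (a :: m)) l| ≤ |F l| + |dd (fun m => F (a :: m)) l| := abs_sub _ _
      _ ≤ _ := by linarith

end SimplVol
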