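import Pool.Agent.H54.RT.LQ
import Pool.Agent.H54.RT.FY

/-!
# Module LPR: `lpVal n` is rational and the minimum is attained

`treeVol n τ = ((1/(2n)!) * ∑ sgn σ ∏_j o_j : ℚ)` (`push_cast`). Apply `lp_rat` with `I = Fin n → RTree (n*2+1)`, `J = Fin n → RTree (n*2)` (finite: `RTree.fintype`), `A τ ρ = ∑_i if (fun j => (τ j).pull δ_i) = ρ then (-1)^i else 0`
(classical decidable equality), so `∑_ρ A τ ρ b ρ = ∑_i (-1)^i b (fun j => (τ j).pull δ_i)` (`Finset.sum_comm`, `Finset.sum_ite_eq`). `lpVal n = sInf S = q` as `q` is the least element (`IsLeast.csInf_eq`).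
-/

set_option autoImplicit false

open scoped BigOperators

namespace SimplVol

theorem lpVal_rat (n : ℕ) (hne : Nonempty (RTree (n * 2 + 1))) : ∃ q : ℚ, lpVal n = q ∧
    ∃ b : (Fin n → RTree (n * 2)) → ℝ, ∀ τ : Fin n → RTree (n * 2 + 1),
      |treeVol n τ + ∑ i : Fin (n * 2 + 1), (-1 : ℝ) ^ (i : ℕ) *
        b fun j => (τ j).pull (Fin.succAboveEmb i)| ≤ q := by
  classical
  let w : (Fin n → RTree (n * 2 + 1)) → ℚ := fun τ =>
    (1 / (((n * 2).factorial : ℕ) : ℚ)) * ∑ σ : Equiv.Perm (Fin (n * 2)),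
      ((Equiv.Perm.sign σ : ℤ) : ℚ) *
      ∏ j : Fin n, (((τ j).o 0 (σ (finProdFinEquiv (j, 0))).succ
        (σ (finProdFinEquiv (j, 1))).succ : ℤ) : ℚ)
  have hw : ∀ τ, ((w τ : ℚ) : ℝ) = treeVol n τ := by
    intro τ
    simp only [w, treeVol]
    push_cast
    rfl
  let A : (Fin n → RTree (n * 2 + 1)) → (Fin n → RTree (n * 2)) → ℚ := fun τ ρ =>
    ∑ i : Fin (n * 2 + 1), if (fun j => (τ j).pull (Fin.succAboveEmb i)) = ρ then
      (-1 : ℚ) ^ (i : ℕ) else 0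
  have hA : ∀ (τ : Fin n → RTree (n * 2 + 1)) (b : (Fin n → RTree (n * 2)) → ℝ),
      ∑ ρ, ((A τ ρ : ℚ) : ℝ) * b ρ = ∑ i : Fin (n * 2 + 1), (-1 : ℝ) ^ (i : ℕ) *
        b fun j => (τ j).pull (Fin.succAboveEmb i) := by
    intro τ b
    simp only [A, Rat.cast_sum, Finset.sum_mul]
    rw [Finset.sum_comm]
    refine Finset.sum_congr rfl fun i _ => ?_
    rw [Finset.sum_eq_single (fun j => (τ j).pull (Fin.succAboveEmb i))]
    · rw [if_pos rfl]
      push_cast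
      rfl
    · intro ρ _ hρ
      rw [if_neg (fun h => hρ h.symm)]
      simp
    · intro h
      exact absurd (Finset.mem_univ _) h
  haveI : Nonempty (Fin n → RTree (n * 2 + 1)) := ⟨fun _ => hne.some⟩
  obtain ⟨q, hq⟩ := lp_rat w A
  have hS : {v : ℝ | ∃ b : (Fin n → RTree (n * 2)) → ℝ, ∀ τ : Fin n → RTree (n * 2 + 1),
      |treeVol n τ + ∑ i : Fin (n * 2 + 1), (-1 : ℝ) ^ (i : ℕ) *
        b fun j => (τ j).pull (Fin.succAboveEmb i)| ≤ v} =
      {v : ℝ | ∃ b : (Fin n → RTree (n * 2)) → ℝ, ∀ i, |((w i : ℚ) : ℝ) +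
        ∑ j, ((A i j : ℚ) : ℝ) * b j| ≤ v} := by
    ext v
    simp only [Set.mem_setOf_eq]
    constructor
    · rintro ⟨b, hb⟩
      refine ⟨b, fun τ => ?_⟩
      rw [hw, hA]
      exact hb τ
    · rintro ⟨b, hb⟩
      refine ⟨b, fun τ => ?_⟩
      have := hb τ
      rw [hw, hA] at this
      exact this
  rw [← hS] at hq
  refine ⟨q, ?_, hq.1⟩
  exact hq.csInf_eq

/-- Every feasible value bounds `lpVal` from above. -/
theorem lpVal_le (n : ℕ) (hne : Nonempty (RTree (n * 2 + 1))) (v : ℝ)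
    (b : (Fin n → RTree (n * 2)) → ℝ) (hb : ∀ τ : Fin n → RTree (n * 2 + 1),
      |treeVol n τ + ∑ i : Fin (n * 2 + 1), (-1 : ℝ) ^ (i : ℕ) *
        b fun j => (τ j).pull (Fin.succAboveEmb i)| ≤ v) : lpVal n ≤ v := by
  refine csInf_le ⟨0, ?_⟩ ⟨b, hb⟩
  rintro x ⟨c, hc⟩
  exact (abs_nonneg _).trans (hc fun _ => hne.some)

end SimplVol
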