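import Mathlib

/-!
# Module LQ: finite linear programmes with rational data have rational optimal values

Fourier-Motzkin elimination.
* `fm_one`: eliminating one real variable `t`. For a list `L` of pairs `(α, f)` (`α` rational, `f` a real number): `(∃ t, ∀ c ∈ L, 0 ≤ α_c t + f_c)` iff (for all `c ∈ L` with `α_c = 0`: `0 ≤ f_c`) and
  (for all `c, c' ∈ L` with `0 < α_c`, `α_c' < 0`: `0 ≤ α_c f_c' - α_c' f_c`). (Lower bounds `-f_c/α_c`, upper bounds `f_c'/(-α_c')`; if there are lower bounds take `t` = the largest one, else any number below all upper bounds.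
  `Finset.exists_max_image` / `List` induction, your choice.)
* `fm`: the projection to `v` of the set given by finitely many rational inequalities is given by finitely many rational inequalities. Induction on `k` (peel off the variable `b 0`: `b = Fin.cons t b'`, `Fin.sum_univ_succ`); the new list of
  constraints consists of the `c` with `c.1 0 = 0` (drop the coordinate `0`) and of the combinations `(α_c) c' - (α_c') c`; finite lists: `List.filter`, `List.product` or `Finset`s, your choice (you may replace lists by finsets of `(Fin k → ℚ) × ℚ × ℚ`, as long as `lp_rat` is as stated).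
* `lp_rat`: the set `S` is given by the constraints `w i + ∑ A i j b j ≤ v` and `-(w i + ∑ ..) ≤ v`. By `fm`, `S = {v | ∀ c ∈ L', 0 ≤ c.1 v + c.2}`. `S` is nonempty (`b = 0`, `v` large), bounded below by `0` (`I` nonempty). So some `c ∈ L'` has `c.1 > 0` (otherwise every smaller
  number would be in `S`). Let `m` be the maximum of `-c.2/c.1` over the `c ∈ L'` with `c.1 > 0`: rational; `m ≤ v` for `v ∈ S`, and `m ∈ S` (constraints with `c.1 ≤ 0`: they hold for `v₀ ∈ S` and `m ≤ v₀`).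
-/

set_option autoImplicit false

open scoped BigOperators

namespace SimplVol

/-- Elimination of one real variable. -/
theorem LQ_one {β : Type} (L : List β) (α f : β → ℝ) :
    (∃ t : ℝ, ∀ c ∈ L, 0 ≤ α c * t + f c) ↔
      (∀ c ∈ L, α c = 0 → 0 ≤ f c) ∧
        ∀ c ∈ L, ∀ c' ∈ L, 0 < α c → α c' < 0 → 0 ≤ α c * f c' - α c' * f c := by
  constructor
  · rintro ⟨t, ht⟩
    refine ⟨?_, ?_⟩
    · intro c hc h0
      have := ht c hc
      rw [h0] at this
      linarith
    · intro c hc c' hc' h1 h2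
      have a1 := ht c hc
      have a2 := ht c' hc'
      nlinarith [mul_nonneg h1.le a2, mul_nonneg (neg_nonneg.2 h2.le) a1]
  · rintro ⟨h0, h1⟩
    have fin : ∀ p : β → Prop, {c | c ∈ L ∧ p c}.Finite := fun p =>
      (List.finite_toSet L).subset (fun c hc => hc.1)
    by_cases hp : {c | c ∈ L ∧ 0 < α c}.Nonempty
    · obtain ⟨c0, ⟨hc0, hα0⟩, hmax⟩ := Set.exists_max_image _ (fun c => -f c / α c) (fin _) hp
      refine ⟨-f c0 / α c0, ?_⟩
      intro c hc
      rcases lt_trichotomy (α c) 0 with h | h | h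
      · have h2 := h1 c0 hc0 c hc hα0 h
        have e : α c * (-f c0 / α c0) + f c = (α c0 * f c - α c * f c0) / α c0 := by
          field_simp
          ring
        rw [e]
        positivity
      · rw [h, zero_mul, zero_add]
        exact h0 c hc h
      · have h2 : -f c / α c ≤ -f c0 / α c0 := hmax c ⟨hc, h⟩
        have h3 := mul_le_mul_of_nonneg_left h2 h.le
        have e : α c * (-f c / α c) = -f c := by field_simp
        rw [e] at h3
        linarith
    · by_cases hn : {c | c ∈ L ∧ α c < 0}.Nonempty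
      · obtain ⟨c0, ⟨hc0, hα0⟩, hmin⟩ := Set.exists_min_image _ (fun c => -f c / α c) (fin _) hn
        refine ⟨-f c0 / α c0, ?_⟩
        intro c hc
        rcases lt_trichotomy (α c) 0 with h | h | h
        · have h2 : -f c0 / α c0 ≤ -f c / α c := hmin c ⟨hc, h⟩
          have h3 := mul_le_mul_of_nonpos_left h2 h.le
          have e : α c * (-f c / α c) = -f c := by
            have := h.ne
            field_simp
          rw [e] at h3
          linarith
        · rw [h, zero_mul, zero_add]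
          exact h0 c hc h
        · exact absurd ⟨c, hc, h⟩ hp
      · refine ⟨0, ?_⟩
        intro c hc
        rcases lt_trichotomy (α c) 0 with h | h | h
        · exact absurd ⟨c, hc, h⟩ hn
        · rw [h, zero_mul, zero_add]
          exact h0 c hc h
        · exact absurd ⟨c, hc, h⟩ hp

/-- The combination of two constraints. -/
def LQ_comb {k : ℕ} (c c' : (Fin (k + 1) → ℚ) × ℚ × ℚ) : (Fin k → ℚ) × ℚ × ℚ :=
  (fun j => c.1 0 * c'.1 j.succ - c'.1 0 * c.1 j.succ,
    c.1 0 * c'.2.1 - c'.1 0 * c.2.1, c.1 0 * c'.2.2 - c'.1 0 * c.2.2)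

/-- The value of a constraint. -/
def LQ_val {k : ℕ} (c : (Fin k → ℚ) × ℚ × ℚ) (b : Fin k → ℝ) (v : ℝ) : ℝ :=
  ∑ j, (c.1 j : ℝ) * b j + (c.2.1 : ℝ) * v + (c.2.2 : ℝ)

/-- Drop the first variable. -/
def LQ_tail {k : ℕ} (c : (Fin (k + 1) → ℚ) × ℚ × ℚ) : (Fin k → ℚ) × ℚ × ℚ :=
  (fun j => c.1 j.succ, c.2)

theorem LQ_val_comb {k : ℕ} (c c' : (Fin (k + 1) → ℚ) × ℚ × ℚ) (b : Fin k → ℝ) (v : ℝ) :
    LQ_val (LQ_comb c c') b v =
      (c.1 0 : ℝ) * LQ_val (LQ_tail c') b v - (c'.1 0 : ℝ) * LQ_val (LQ_tail c) b v := by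
  unfold LQ_val LQ_comb LQ_tail
  simp only
  push_cast
  have e : ∑ j, ((c.1 0 : ℝ) * (c'.1 j.succ : ℝ) - (c'.1 0 : ℝ) * (c.1 j.succ : ℝ)) * b j =
      (c.1 0 : ℝ) * ∑ j, (c'.1 j.succ : ℝ) * b j - (c'.1 0 : ℝ) * ∑ j, (c.1 j.succ : ℝ) * b j := by
    rw [Finset.mul_sum, Finset.mul_sum, ← Finset.sum_sub_distrib]
    apply Finset.sum_congr rfl
    intro j _
    ring
  rw [e]
  ring

theorem LQ_val_succ {k : ℕ} (c : (Fin (k + 1) → ℚ) × ℚ × ℚ) (b : Fin (k + 1) → ℝ) (v : ℝ) :
    LQ_val c b v = (c.1 0 : ℝ) * b 0 + LQ_val (LQ_tail c) (fun j => b j.succ) v := by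
  unfold LQ_val LQ_tail
  rw [Fin.sum_univ_succ]
  ring

theorem fm (k : ℕ) (L : List ((Fin k → ℚ) × ℚ × ℚ)) : ∃ L' : List (ℚ × ℚ), ∀ v : ℝ,
    (∃ b : Fin k → ℝ, ∀ c ∈ L, 0 ≤ ∑ j, (c.1 j : ℝ) * b j + (c.2.1 : ℝ) * v + (c.2.2 : ℝ)) ↔
      ∀ c ∈ L', 0 ≤ (c.1 : ℝ) * v + (c.2 : ℝ) := by
  induction k with
  | zero =>
    refine ⟨L.map (fun c => c.2), ?_⟩
    intro v
    constructor
    · rintro ⟨b, hb⟩ c hc
      obtain ⟨c', hc', rfl⟩ := List.mem_map.1 hc
      have := hb c' hc'
      simpa using this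
    · intro h
      refine ⟨fun _ => 0, ?_⟩
      intro c hc
      have := h c.2 (List.mem_map.2 ⟨c, hc, rfl⟩)
      simpa using this
  | succ k ih =>
    classical
    obtain ⟨L', hL'⟩ := ih ((L.filter (fun c => c.1 0 = 0)).map LQ_tail ++
      ((L.product L).filter (fun p => 0 < p.1.1 0 ∧ p.2.1 0 < 0)).map
        (fun p => LQ_comb p.1 p.2))
    refine ⟨L', ?_⟩
    intro v
    rw [← hL' v]
    have key : ∀ b' : Fin k → ℝ, (∃ t : ℝ, ∀ c ∈ L, 0 ≤ (c.1 0 : ℝ) * t + LQ_val (LQ_tail c) b' v) ↔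
        ∀ c ∈ (L.filter (fun c => c.1 0 = 0)).map LQ_tail ++
          ((L.product L).filter (fun p => 0 < p.1.1 0 ∧ p.2.1 0 < 0)).map
            (fun p => LQ_comb p.1 p.2), 0 ≤ LQ_val c b' v := by
      intro b'
      rw [LQ_one L (fun c => (c.1 0 : ℝ)) (fun c => LQ_val (LQ_tail c) b' v)]
      constructor
      · rintro ⟨h0, h1⟩ c hc
        rcases List.mem_append.1 hc with hc | hc
        · obtain ⟨c', hc', rfl⟩ := List.mem_map.1 hc
          have h2 := List.mem_filter.1 hc'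
          exact h0 c' h2.1 (by
            have : c'.1 0 = 0 := by simpa using h2.2
            rw [this, Rat.cast_zero])
        · obtain ⟨⟨c1, c2⟩, hc', rfl⟩ := List.mem_map.1 hc
          have h2 := List.mem_filter.1 hc'
          have h3 := List.mem_product.1 h2.1
          have h4 : 0 < c1.1 0 ∧ c2.1 0 < 0 := by simpa using h2.2
          rw [LQ_val_comb]
          exact h1 c1 h3.1 c2 h3.2 (by exact_mod_cast h4.1) (by exact_mod_cast h4.2)
      · intro h
        refine ⟨?_, ?_⟩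
        · intro c hc h0
          apply h
          apply List.mem_append_left
          refine List.mem_map.2 ⟨c, List.mem_filter.2 ⟨hc, ?_⟩, rfl⟩
          have h0' : (c.1 0 : ℝ) = 0 := h0
          have : c.1 0 = 0 := by exact_mod_cast h0'
          simpa using this
        · intro c hc c' hc' h0 h1
          have h0' : 0 < (c.1 0 : ℝ) := h0
          have h1' : (c'.1 0 : ℝ) < 0 := h1
          show 0 ≤ (c.1 0 : ℝ) * LQ_val (LQ_tail c') b' v - (c'.1 0 : ℝ) * LQ_val (LQ_tail c) b' v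
          rw [← LQ_val_comb]
          apply h
          apply List.mem_append_right
          refine List.mem_map.2 ⟨(c, c'), List.mem_filter.2 ⟨List.mem_product.2 ⟨hc, hc'⟩, ?_⟩, rfl⟩
          have a1 : 0 < c.1 0 := by exact_mod_cast h0'
          have a2 : c'.1 0 < 0 := by exact_mod_cast h1'
          simpa using And.intro a1 a2
    constructor
    · rintro ⟨b, hb⟩
      refine ⟨fun j => b j.succ, ?_⟩
      refine (key _).1 ⟨b 0, ?_⟩
      intro c hc
      rw [← LQ_val_succ]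
      exact hb c hc
    · rintro ⟨b', hb'⟩
      obtain ⟨t, ht⟩ := (key b').2 hb'
      refine ⟨Fin.cons t b', ?_⟩
      intro c hc
      have h := LQ_val_succ c (Fin.cons t b') v
      have e : (fun j : Fin k => (Fin.cons t b' : Fin (k + 1) → ℝ) j.succ) = b' := by
        funext j
        rw [Fin.cons_succ]
      rw [e, Fin.cons_zero] at h
      have h2 := ht c hc
      rw [← h] at h2
      exact h2

theorem lp_rat {I J : Type} [Fintype I] [Nonempty I] [Fintype J] (w : I → ℚ) (A : I → J → ℚ) :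
    ∃ q : ℚ, IsLeast {v : ℝ | ∃ b : J → ℝ, ∀ i, |(w i : ℝ) + ∑ j, (A i j : ℝ) * b j| ≤ v} q := by
  classical
  set e := Fintype.equivFin J with he
  obtain ⟨L', hL'⟩ := fm (Fintype.card J) ((Finset.univ : Finset I).toList.flatMap (fun i =>
    [((fun j => -A i (e.symm j)), 1, -w i), ((fun j => A i (e.symm j)), 1, w i)]))
  have hS : ∀ v : ℝ, (∃ b : J → ℝ, ∀ i, |(w i : ℝ) + ∑ j, (A i j : ℝ) * b j| ≤ v) ↔
      ∀ c ∈ L', 0 ≤ (c.1 : ℝ) * v + (c.2 : ℝ) := by
    intro v
    rw [← hL' v]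
    have hsum : ∀ (i : I) (b : J → ℝ), ∑ j, (A i j : ℝ) * b j =
        ∑ j : Fin (Fintype.card J), (A i (e.symm j) : ℝ) * b (e.symm j) := by
      intro i b
      exact (Equiv.sum_comp e.symm (fun j => (A i j : ℝ) * b j)).symm
    constructor
    · rintro ⟨b, hb⟩
      refine ⟨fun j => b (e.symm j), ?_⟩
      intro c hc
      obtain ⟨i, -, hi⟩ := List.mem_flatMap.1 hc
      have h := abs_le.1 (hb i)
      rw [hsum] at h
      simp only [List.mem_cons, List.not_mem_nil, or_false] at hi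
      rcases hi with rfl | rfl
      · simp only [Rat.cast_neg, Rat.cast_one, neg_mul, Finset.sum_neg_distrib, one_mul]
        linarith [h.2]
      · simp only [Rat.cast_one, one_mul]
        linarith [h.1]
    · rintro ⟨b, hb⟩
      refine ⟨fun j => b (e j), ?_⟩
      intro i
      rw [hsum]
      have e2 : (fun j : Fin (Fintype.card J) => (A i (e.symm j) : ℝ) * b (e (e.symm j))) =
          fun j => (A i (e.symm j) : ℝ) * b j := by
        funext j
        rw [Equiv.apply_symm_apply]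
      rw [e2]
      have h1 := hb ((fun j => -A i (e.symm j)), 1, -w i) (List.mem_flatMap.2
        ⟨i, Finset.mem_toList.2 (Finset.mem_univ i), by simp⟩)
      have h2 := hb ((fun j => A i (e.symm j)), 1, w i) (List.mem_flatMap.2
        ⟨i, Finset.mem_toList.2 (Finset.mem_univ i), by simp⟩)
      simp only [Rat.cast_neg, Rat.cast_one, neg_mul, Finset.sum_neg_distrib, one_mul] at h1
      simp only [Rat.cast_one, one_mul] at h2
      rw [abs_le]
      constructor <;> linarith
  -- a point of the set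
  obtain ⟨v0, hv0⟩ : ∃ v0 : ℝ, ∃ b : J → ℝ, ∀ i, |(w i : ℝ) + ∑ j, (A i j : ℝ) * b j| ≤ v0 := by
    refine ⟨∑ i, |(w i : ℝ)|, fun _ => 0, ?_⟩
    intro i
    simp only [mul_zero, Finset.sum_const_zero, add_zero]
    exact Finset.single_le_sum (f := fun i => |(w i : ℝ)|) (fun i _ => abs_nonneg _)
      (Finset.mem_univ i)
  have hpos : ∀ v : ℝ, (∃ b : J → ℝ, ∀ i, |(w i : ℝ) + ∑ j, (A i j : ℝ) * b j| ≤ v) → 0 ≤ v := by
    rintro v ⟨b, hb⟩
    obtain ⟨i⟩ := (inferInstance : Nonempty I)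
    exact (abs_nonneg _).trans (hb i)
  have hv0' := (hS v0).1 hv0
  have hv00 := hpos v0 hv0
  have hex : {c | c ∈ L' ∧ 0 < c.1}.Nonempty := by
    by_contra hne
    have h1 : ∀ c ∈ L', 0 ≤ (c.1 : ℝ) * (-1 : ℝ) + (c.2 : ℝ) := by
      intro c hc
      have h2 : c.1 ≤ 0 := by
        by_contra h3
        exact hne ⟨c, hc, not_le.1 h3⟩
      have h2' : (c.1 : ℝ) ≤ 0 := by exact_mod_cast h2
      have h3 := hv0' c hc
      nlinarith
    have h4 := hpos _ ((hS (-1)).2 h1)
    linarith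
  obtain ⟨c0, ⟨hc0, hp0⟩, hmax⟩ := Set.exists_max_image {c | c ∈ L' ∧ 0 < c.1}
    (fun c => -c.2 / c.1) ((List.finite_toSet L').subset (fun c hc => hc.1)) hex
  have hp0' : (0 : ℝ) < (c0.1 : ℝ) := by exact_mod_cast hp0
  have hlow : ∀ v : ℝ, (∃ b : J → ℝ, ∀ i, |(w i : ℝ) + ∑ j, (A i j : ℝ) * b j| ≤ v) →
      ((-c0.2 / c0.1 : ℚ) : ℝ) ≤ v := by
    intro v hv
    have h := (hS v).1 hv c0 hc0
    push_cast
    rw [div_le_iff₀ hp0']
    linarith
  refine ⟨-c0.2 / c0.1, ?_, fun v hv => hlow v hv⟩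
  show ∃ b : J → ℝ, ∀ i, |(w i : ℝ) + ∑ j, (A i j : ℝ) * b j| ≤ ((-c0.2 / c0.1 : ℚ) : ℝ)
  rw [hS]
  intro c hc
  by_cases hcp : 0 < c.1
  · have h2 : -c.2 / c.1 ≤ -c0.2 / c0.1 := hmax c ⟨hc, hcp⟩
    have h3 : 0 ≤ c.1 * (-c0.2 / c0.1) + c.2 := by
      rw [div_le_iff₀ hcp] at h2
      linarith
    exact_mod_cast h3
  · have h2' : (c.1 : ℝ) ≤ 0 := by exact_mod_cast not_lt.1 hcp
    have h3 := hv0' c hc
    have h4 := hlow v0 hv0
    nlinarith

end SimplVol
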