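import Pool.Agent.H54.RT.ME

/-!
# Module LR1: evaluation on lists of leaves

* `ev_ofFn`: `(List.ofFn e).Nodup` (`List.nodup_ofFn`), the length is `k`; prove first: for a list `l` with `h : l.Nodup`, `hk : l.length = k` and `e : Fin k ↪ Fin M` with
  `∀ i, l.get (Fin.cast hk.symm i) = e i`: `g a l.length (τ.pull ⟨l.get, _⟩) = g a k (τ.pull e)` (`subst hk`; the embeddings agree).
* `ev_map`: `(l.map ι).Nodup ↔ l.Nodup` (`List.nodup_map_iff`, `ι.injective`); if not `Nodup` both are `0`; else write `l = List.ofFn e`, `e = ⟨l.get, _⟩`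
  (`List.ofFn_get`), `l.map ι = List.ofFn (e.trans ι)` (`List.map_ofFn`), use `ev_ofFn` and `pull_trans`.
* `dd_ev`: write `l = List.ofFn e`; `l.length = 0`: both `0`; `l.length = k + 1`: `dd_ofFn`, the lists there are `List.ofFn ((Fin.succAboveEmb i).trans e)`, `ev_ofFn`, `pull_trans`, `dT_succ`.
* `ev_alt`: for the list `List.ofFn (e ∘ σ)`: not needed elsewhere.
* `mean_list`: `l = List.ofFn e`; `l.map y = List.ofFn (fun i => y (e i))`; `hμ.nat`.
* `mean_aw`: induction on `L`, for all `G`: `aw G ((z :: L).map ..) = G [z.1] (y z.2 :: (L.map ..).map snd) + aw (fun a b => G (z.1 :: a) b) (L.map ..)`; `μ` is linear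
  (`map_add`); first term: `mean_list` for the list `z.2 :: L.map snd` of leaves (`y z.2 :: (L.map snd).map y = (z.2 :: L.map snd).map y`); second: induction hypothesis for
  `fun a b => G (z.1 :: a) b`, and `ev (mg μ (fun a b => G (z :: a) b)) τ a l = ev (mg μ G) τ (z :: a) l` (by definition).
-/

set_option autoImplicit false

open scoped BigOperators UpperHalfPlane MatrixGroups

namespace SimplVol

variable {S : Type}

/-- The value on a list given by an embedding. -/
theorem LR1_get (g : List S → ∀ m, RTree m → ℝ) {M : ℕ} (τ : RTree M) (a : List S)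
    (l : List (Fin M)) (h : l.Nodup) {k : ℕ} (hk : l.length = k) (e : Fin k ↪ Fin M)
    (he : ∀ i, l.get (Fin.cast hk.symm i) = e i) : ev g τ a l = g a k (τ.pull e) := by
  subst hk
  unfold ev
  rw [dif_pos h]
  congr 2
  ext i
  exact congrArg Fin.val (he i)

theorem ev_ofFn (g : List S → ∀ m, RTree m → ℝ) {k M : ℕ} (τ : RTree M) (a : List S)
    (e : Fin k ↪ Fin M) : ev g τ a (List.ofFn e) = g a k (τ.pull e) := by
  refine LR1_get g τ a (List.ofFn e) (List.nodup_ofFn.2 e.injective) (List.length_ofFn) e fun i => ?_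
  rw [List.get_ofFn]
  rfl

/-- Every list without repetitions comes from an embedding. -/
theorem LR1_ex {M : ℕ} (l : List (Fin M)) (h : l.Nodup) {k : ℕ} (hk : l.length = k) :
    ∃ e : Fin k ↪ Fin M, l = List.ofFn e := by
  subst hk
  exact ⟨⟨l.get, List.nodup_iff_injective_get.1 h⟩, (List.ofFn_get l).symm⟩

theorem ev_map (g : List S → ∀ m, RTree m → ℝ) {M M' : ℕ} (ι : Fin M' ↪ Fin M) (τ : RTree M)
    (a : List S) (l : List (Fin M')) : ev g τ a (l.map ι) = ev g (τ.pull ι) a l := by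
  by_cases h : l.Nodup
  · obtain ⟨k, hk⟩ : ∃ k, l.length = k := ⟨_, rfl⟩
    obtain ⟨e, rfl⟩ := LR1_ex l h hk
    have h1 : (List.ofFn e).map ι = List.ofFn (e.trans ι) := by
      rw [List.map_ofFn]
      rfl
    rw [h1, ev_ofFn, ev_ofFn, RTree.pull_trans]
  · have h' : ¬ (l.map ι).Nodup := by rwa [List.nodup_map_iff ι.injective]
    unfold ev
    rw [dif_neg h, dif_neg h']

theorem ev_of_not_nodup (g : List S → ∀ m, RTree m → ℝ) {M : ℕ} (τ : RTree M)
    (a : List S) (l : List (Fin M)) (h : ¬ l.Nodup) : ev g τ a l = 0 := by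
  unfold ev
  rw [dif_neg h]

theorem dd_ev (g : List S → ∀ m, RTree m → ℝ) {M : ℕ} (τ : RTree M) (a : List S)
    (l : List (Fin M)) (h : l.Nodup) : dd (ev g τ a) l = ev (fun a => dT (g a)) τ a l := by
  cases hk : l.length with
  | zero =>
    obtain ⟨e, rfl⟩ := LR1_ex l h hk
    rw [ev_ofFn]
    rw [List.ofFn_zero, dd_nil]
    rfl
  | succ k =>
    obtain ⟨e, rfl⟩ := LR1_ex l h hk
    rw [ev_ofFn, dd_ofFn, dT_succ]
    refine Finset.sum_congr rfl fun i _ => ?_
    have h1 : (List.ofFn fun j => e (i.succAbove j)) = List.ofFn ((Fin.succAboveEmb i).trans e) := rfl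
    rw [h1, ev_ofFn, RTree.pull_trans]

theorem dd_ev_left (g : List S → ∀ m, RTree m → ℝ) {M : ℕ} (τ : RTree M) (a : List S)
    (l : List (Fin M)) (h : l.Nodup) :
    dd (fun u => ev g τ u l) a = ev (fun a m τ => dd (fun u => g u m τ) a) τ a l := by
  unfold ev
  simp only [dif_pos h]

theorem mean_list {μ : ∀ m, RTree m → ((Fin m → ℍ) → ℝ) →ₗ[ℝ] ℝ} (hμ : Means μ)
    (G : List S → List ℍ → ℝ) (a : List S)
    (hG : ∀ (g : SL(2, ℝ)) (b : List ℍ), G a (b.map fun z => g • z) = G a b)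
    (hb : ∀ n : ℕ, ∃ C, ∀ b : List ℍ, b.length = n → |G a b| ≤ C)
    {M : ℕ} (τ : RTree M) (l : List (Fin M)) (hl : l ≠ []) (hn : l.Nodup) :
    μ M τ (fun y => G a (l.map y)) = ev (mg μ G) τ a l := by
  have hpos : 1 ≤ l.length := List.length_pos_iff.2 hl
  obtain ⟨e, he⟩ := LR1_ex l hn rfl
  generalize l.length = k at hpos e he
  subst he
  rw [ev_ofFn]
  unfold mg
  obtain ⟨C, hC⟩ := hb k
  rw [← hμ.nat k M e τ (fun y => G a (List.ofFn y)) hpos ?_ ⟨C, fun y => hC _ (List.length_ofFn)⟩]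
  · congr 1
    funext y
    rw [List.map_ofFn]
    rfl
  · intro g y
    have := hG g (List.ofFn y)
    rw [List.map_ofFn] at this
    exact this

theorem mean_aw {μ : ∀ m, RTree m → ((Fin m → ℍ) → ℝ) →ₗ[ℝ] ℝ} (hμ : Means μ)
    (G : List S → List ℍ → ℝ)
    (hG : ∀ (a : List S) (g : SL(2, ℝ)) (b : List ℍ), G a (b.map fun z => g • z) = G a b)
    (hb : ∀ (a : List S) (n : ℕ), ∃ C, ∀ b : List ℍ, b.length = n → |G a b| ≤ C)
    {M : ℕ} (τ : RTree M) (L : List (S × Fin M)) (hn : (L.map Prod.snd).Nodup) :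
    μ M τ (fun y => aw G (L.map fun p => (p.1, y p.2))) = aw (ev (mg μ G) τ) L := by
  induction L generalizing G with
  | nil =>
    simp only [List.map_nil, aw_nil]
    exact map_zero (μ M τ)
  | cons z L ih =>
    rw [List.map_cons, List.nodup_cons] at hn
    have h1 : (fun y : Fin M → ℍ => aw G ((z :: L).map fun p => (p.1, y p.2))) =
        (fun y => G [z.1] ((z.2 :: L.map Prod.snd).map y)) +
        fun y => aw (fun a b => G (z.1 :: a) b) (L.map fun p => (p.1, y p.2)) := by
      funext y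
      rw [List.map_cons, aw_cons, Pi.add_apply, List.map_cons, List.map_map, List.map_map]
      rfl
    rw [h1, map_add, aw_cons]
    have h2 := mean_list hμ G [z.1] (hG [z.1]) (hb [z.1]) τ (z.2 :: L.map Prod.snd) (by simp)
      (List.nodup_cons.2 hn)
    have h3 := ih (fun a b => G (z.1 :: a) b) (fun a => hG (z.1 :: a)) (fun a => hb (z.1 :: a)) hn.2
    rw [h2, h3]
    rfl

end SimplVol
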