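import Pool.Agent.H54.RT.LR2
import Pool.Agent.H54.RT.HD

/-!
# Module LR3: the parts of degree zero and two; the part of degree at least three

* `G0_coc`: support `GG_supp` (`|a| + 1 ≠ p + 1`), bound `hμ.bdd` and `GG_bdd`, invariance `GG_map_left`; cocycle: `dd [] = 0`; for `a ≠ []`: `mg_total` with `m = 1`, where
  `dT (..) 1 tone = mg .. 0 .. = 0`.
* `G2_coc`: the same with `m = 3`, `p = q + 2`: `dT (..) 3 tplus` is a sum of values at `m = 2`, `mg_two`.
* `g4`, `gt`. `total_gt`: let `g u := mg μ (GG F) u`, so `g [] = 0`. Case `m ≤ 3`: `hT .. m = 0`, `dT (gt ..) m τ` is a sum of values of `hT` at `m - 1 < 4` (or `0`), so both sides are `0`.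
  Case `m ≥ 4`: `dT (gt μ F a) m τ = (-1)^(|a|-1) dT (hT (g a)) m τ`. If `|a| = 1`: `dd (fun u => gt μ F u m τ) a = gt μ F [] m τ = 0` (`hT` of the zero function), and
  `dT (g a) = 0` on all trees with at least one leaf by `mg_total` (`dd (fun u => g u m τ) [x] = g [] m τ = 0`), so `hT (dT (g a)) m τ = 0`, and `contraction` gives
  `dT (hT (g a)) m τ = g a m τ`. If `|a| ≥ 2`: for `|u| + 1 = |a|` the sign `(-1)^(|u|-1)` is `(-1)^|a|`, so (`dd_congr`) `dd (fun u => gt μ F u m τ) a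
  = (-1)^|a| dd (fun u => hT (g u) m τ) a = (-1)^|a| hT (fun m τ => dd (fun u => g u m τ) a) m τ` (`hT m τ` is a finite linear combination of values: `dd_smul`, `dd_sum`)
  `= (-1)^|a| hT (fun m τ => -(-1)^(|a|-1) dT (g a) m τ) m τ = hT (dT (g a)) m τ` (`mg_total`; `hT` at `m` uses only values at `m + 1 ≥ 1`; `hT_smul`), and `contraction` for `g a` (`mg_alt`).
-/

set_option autoImplicit false

open scoped BigOperators UpperHalfPlane MatrixGroups

namespace SimplVol

variable {S : Type} {K : Set (S → S)} {p : ℕ} {F : List (S × ℍ) → ℝ}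
  {μ : ∀ m, RTree m → ((Fin m → ℍ) → ℝ) →ₗ[ℝ] ℝ}

theorem LR3_supp (hF : Coc (prodK K) p F) (a : List S) (m : ℕ) (τ : RTree m)
    (h : a.length + m ≠ p + 1) : mg μ (GG F) a m τ = 0 := by
  unfold mg
  have h1 : (fun y : Fin m → ℍ => GG F a (List.ofFn y)) = 0 := by
    funext y
    exact GG_supp hF a _ (by rw [List.length_ofFn]; exact h)
  rw [h1, map_zero]

theorem LR3_bdd (hμ : Means μ) (hF : Coc (prodK K) p F) :
    ∃ C, 0 ≤ C ∧ ∀ a m (τ : RTree m), |mg μ (GG F) a m τ| ≤ C := by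
  obtain ⟨C, hC, h⟩ := GG_bdd hF
  exact ⟨C, hC, fun a m τ => hμ.bdd m τ _ C fun y => h a _⟩

theorem LR3_inv (hF : Coc (prodK K) p F) (κ : S → S) (hκ : κ ∈ K) (a : List S) :
    mg μ (GG F) (a.map κ) = mg μ (GG F) a := by
  funext m τ
  unfold mg
  simp only [GG_map_left hF κ hκ]

theorem G0_coc (hμ : Means μ) (hF : Coc (prodK K) p F) (hp : 2 ≤ p) : Coc K p (G0 μ F) := by
  refine ⟨fun l hl => ?_, ?_, fun κ hκ l => ?_, fun l => ?_⟩
  · exact LR3_supp hF l 1 tone (by omega)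
  · obtain ⟨C, -, h⟩ := LR3_bdd hμ hF
    exact ⟨C, fun l => h l 1 tone⟩
  · unfold G0
    rw [LR3_inv hF κ hκ l]
  · by_cases hl : l = []
    · rw [hl, dd_nil]
    · have h := mg_total hμ hF hp l hl 1 le_rfl tone
      have h2 : dT (mg μ (GG F) l) 1 tone = 0 := by
        rw [dT_succ]
        refine Finset.sum_eq_zero fun i _ => ?_
        rw [mg_zero, mul_zero]
      rw [h2, mul_zero, add_zero] at h
      exact h

theorem G2_coc (hμ : Means μ) {q : ℕ} (hF : Coc (prodK K) (q + 2) F) : Coc K q (G2 μ F) := by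
  refine ⟨fun l hl => ?_, ?_, fun κ hκ l => ?_, fun l => ?_⟩
  · exact LR3_supp hF l 3 tplus (by omega)
  · obtain ⟨C, -, h⟩ := LR3_bdd hμ hF
    exact ⟨C, fun l => h l 3 tplus⟩
  · unfold G2
    rw [LR3_inv hF κ hκ l]
  · by_cases hl : l = []
    · rw [hl, dd_nil]
    · have h := mg_total hμ hF (by omega) l hl 3 (by norm_num) tplus
      have h2 : dT (mg μ (GG F) l) 3 tplus = 0 := by
        rw [dT_succ]
        refine Finset.sum_eq_zero fun i _ => ?_
        rw [mg_two hμ hF, mul_zero]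
      rw [h2, mul_zero, add_zero] at h
      exact h

/-- The part with at least four leaves. -/
noncomputable def g4 (μ : ∀ m, RTree m → ((Fin m → ℍ) → ℝ) →ₗ[ℝ] ℝ) (F : List (S × ℍ) → ℝ)
    (a : List S) (m : ℕ) (τ : RTree m) : ℝ := if 4 ≤ m then mg μ (GG F) a m τ else 0

/-- Its primitive. -/
noncomputable def gt (μ : ∀ m, RTree m → ((Fin m → ℍ) → ℝ) →ₗ[ℝ] ℝ) (F : List (S × ℍ) → ℝ)
    (a : List S) (m : ℕ) (τ : RTree m) : ℝ := (-1) ^ (a.length - 1) * hT (mg μ (GG F) a) m τ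

theorem LR3_hT_congr (g g' : ∀ m, RTree m → ℝ) (m : ℕ) (τ : RTree m)
    (h : ∀ τ' : RTree (m + 1), g (m + 1) τ' = g' (m + 1) τ') : hT g m τ = hT g' m τ := by
  unfold hT
  simp only [h]

theorem LR3_hT_zero (m : ℕ) (τ : RTree m) : hT (fun _ _ => 0) m τ = 0 := by
  unfold hT
  simp

theorem LR3_dd_hT (g : List S → ∀ m, RTree m → ℝ) (m : ℕ) (τ : RTree m) (a : List S) :
    dd (fun u => hT (g u) m τ) a = hT (fun m' τ' => dd (fun u => g u m' τ') a) m τ := by
  classical
  unfold hT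
  by_cases hm : 4 ≤ m
  · simp only [if_pos hm]
    rw [dd_smul, dd_sum]
    congr 1
    refine Finset.sum_congr rfl fun f _ => ?_
    by_cases h : TopSide τ f
    · simp only [dif_pos h]
    · simp only [dif_neg h]
      exact dd_zero a
  · simp only [if_neg hm]
    exact dd_zero a

theorem LR3_gt_nil (m : ℕ) (τ : RTree m) : hT (mg μ (GG F) ([] : List S)) m τ = 0 := by
  rw [LR3_hT_congr _ (fun _ _ => 0) m τ fun τ' => mg_nil F (m + 1) τ']
  exact LR3_hT_zero m τ

theorem LR3_dT_smul (c : ℝ) (g : ∀ m, RTree m → ℝ) (m : ℕ) (τ : RTree m) :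
    dT (fun m τ => c * g m τ) m τ = c * dT g m τ := by
  cases m with
  | zero => exact (mul_zero c).symm
  | succ m =>
    rw [dT_succ, dT_succ, Finset.mul_sum]
    refine Finset.sum_congr rfl fun i _ => ?_
    ring

theorem total_gt (hμ : Means μ) (hF : Coc (prodK K) p F) (hp : 2 ≤ p) (a : List S) (ha : a ≠ [])
    (m : ℕ) (hm : 1 ≤ m) (τ : RTree m) :
    dd (fun u => gt μ F u m τ) a + (-1) ^ (a.length - 1) * dT (gt μ F a) m τ = g4 μ F a m τ := by
  by_cases h4 : 4 ≤ m
  · have e0 : ∀ k : ℕ, ((-1 : ℝ) ^ k) * (-1) ^ k = 1 := fun k => by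
      rw [← mul_pow]
      norm_num
    have e1 : dT (gt μ F a) m τ = (-1) ^ (a.length - 1) * dT (hT (mg μ (GG F) a)) m τ :=
      LR3_dT_smul ((-1) ^ (a.length - 1)) (hT (mg μ (GG F) a)) m τ
    have hlen : 1 ≤ a.length := List.length_pos_iff.2 ha
    have e2 : dd (fun u => gt μ F u m τ) a = (-1) ^ a.length * dd (fun u => hT (mg μ (GG F) u) m τ) a := by
      rw [← dd_smul]
      refine dd_congr _ _ a fun u hu => ?_
      unfold gt
      by_cases hu0 : u = []
      · rw [hu0, LR3_gt_nil, mul_zero, mul_zero]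
      · have hul : 1 ≤ u.length := List.length_pos_iff.2 hu0
        congr 1
        rw [← hu]
        obtain ⟨k, hk⟩ := Nat.exists_eq_add_of_le hul
        rw [hk]
        have : 1 + k - 1 = k := by omega
        rw [this, pow_add, pow_add]
        norm_num
    have e3 : hT (fun m' τ' => dd (fun u => mg μ (GG F) u m' τ') a) m τ =
        (-(-1) ^ (a.length - 1)) * hT (dT (mg μ (GG F) a)) m τ := by
      rw [← hT_smul]
      refine LR3_hT_congr _ _ m τ fun τ' => ?_
      have h := mg_total hμ hF hp a ha (m + 1) (by omega) τ'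
      linarith
    have e4 : ((-1 : ℝ) ^ a.length) * (-(-1) ^ (a.length - 1)) = 1 := by
      obtain ⟨k, hk⟩ := Nat.exists_eq_add_of_le hlen
      rw [hk]
      have : 1 + k - 1 = k := by omega
      rw [this, pow_add, pow_one]
      have := e0 k
      linarith
    have e5 := contraction (mg μ (GG F) a) (mg_alt hμ hF a) m h4 τ
    rw [e2, LR3_dd_hT, e3, ← mul_assoc, e4, one_mul, e1, ← mul_assoc, e0, one_mul, e5]
    unfold g4
    rw [if_pos h4]
  · have hz : ∀ (u : List S) (j : ℕ) (τ' : RTree j), j < 4 → gt μ F u j τ' = 0 := by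
      intro u j τ' hj
      unfold gt
      rw [hT_of_lt _ hj, mul_zero]
    have e1 : dd (fun u => gt μ F u m τ) a = 0 := by
      have : (fun u => gt μ F u m τ) = fun _ => 0 := funext fun u => hz u m τ (by omega)
      rw [this, dd_zero]
    have e2 : dT (gt μ F a) m τ = 0 := by
      obtain ⟨j, rfl⟩ := Nat.exists_eq_add_of_le' hm
      rw [dT_succ]
      refine Finset.sum_eq_zero fun i _ => ?_
      rw [hz a j _ (by omega), mul_zero]
    rw [e1, e2]
    unfold g4
    rw [if_neg h4]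
    ring

theorem gt_nil (m : ℕ) (τ : RTree m) : gt μ F [] m τ = 0 := by
  unfold gt
  rw [LR3_gt_nil, mul_zero]

theorem gt_zero (a : List S) (τ : RTree 0) : gt μ F a 0 τ = 0 := by
  unfold gt
  rw [hT_of_lt _ (by norm_num), mul_zero]

theorem gt_bdd (hμ : Means μ) (hF : Coc (prodK K) p F) :
    ∃ C, 0 ≤ C ∧ ∀ a m (τ : RTree m), |gt μ F a m τ| ≤ C := by
  obtain ⟨C, hC, h⟩ := LR3_bdd hμ hF
  refine ⟨C, hC, fun a m τ => ?_⟩
  unfold gt
  rw [abs_mul, abs_pow, abs_neg, abs_one, one_pow, one_mul]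
  exact abs_hT_le _ C m τ (fun τ' => h a (m + 1) τ') hC

theorem gt_inv (hF : Coc (prodK K) p F) (κ : S → S) (hκ : κ ∈ K) (a : List S) (m : ℕ)
    (τ : RTree m) : gt μ F (a.map κ) m τ = gt μ F a m τ := by
  unfold gt
  rw [LR3_inv hF κ hκ a, List.length_map]

end SimplVol
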