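import Pool.Agent.H54.RT.LR3

/-!
# Module LR4: the decomposition according to the number of leaves in the last face

`Lx x = [(x 0, 0), …]`, the list of the pairs (point, leaf).
* `aw_decomp`: `aw_eq_sum` for `l = Lx x`, `l.length = k + 3`, `l.map Prod.fst = ofFn x`, `l.map Prod.snd = ofFn id`. In the sum over `p < k + 3` the back face
  `(ofFn id).drop p` is `ofFn (e_p)` with `e_p : Fin (k+3-p) ↪ Fin (k+3)`, `i ↦ i + p` (`List.drop` of `List.ofFn`; or `List.ext_getElem`), it has `k + 3 - p` elements.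
  `p = k + 2`: front `ofFn x`, back `[last]`, value `mg .. 1 _ = G0` (`RTree.ext_of_le_two`). `p = k + 1`: `mg_two`. `p = k`: front `ofFn (x ∘ castAdd 2)` (`List.take`), back the last three leaves,
  `mg_three`, `(τ.pull e).o 0 1 2 = τ.o k (k+1) (k+2)`. `p < k`: at least four leaves, `g4 = mg`; and for `p ≥ k` the `g4` term is `0`. (`Finset.sum_range_succ` three times.)
* `aw_g4`: `aw_congr` and `total_gt`: for nonempty `a`, `b` with `b` a suffix of `(Lx x).map Prod.snd`, so `b.Nodup`: `dtot (ev (gt μ F) τ) a b = ev (g4 μ F) τ a b` by `dd_ev`, `dd_ev_left`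
  (unfold `ev`; `b.length ≥ 1`). Then `aw_dtot`, with `ev (gt μ F) τ [] _ = 0` (`gt_nil`), `ev (gt μ F) τ _ [] = 0` (`gt_zero`).
* `dd_aw_ofFn`: `dd_ofFn` (for `Lx x = ofFn (fun i => (x i, i))`); the faces are `(Lx (x ∘ i.succAbove)).map (Prod.map id i.succAbove)`; `aw_map`, `ev_map` for `Fin.succAboveEmb i`.
-/

set_option autoImplicit false

open scoped BigOperators UpperHalfPlane MatrixGroups

namespace SimplVol

variable {S : Type} {K : Set (S → S)} {p : ℕ} {F : List (S × ℍ) → ℝ}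
  {μ : ∀ m, RTree m → ((Fin m → ℍ) → ℝ) →ₗ[ℝ] ℝ}

/-- The list of the pairs (point, leaf). -/
def Lx {m : ℕ} (x : Fin m → S) : List (S × Fin m) := List.ofFn fun i => (x i, i)

theorem LR4_drop {α : Type} (p j : ℕ) (f : Fin (p + j) → α) :
    (List.ofFn f).drop p = List.ofFn (fun i : Fin j => f (Fin.natAdd p i)) := by
  rw [List.ofFn_add]
  exact List.drop_left' (by simp)

theorem LR4_take {α : Type} (p j : ℕ) (f : Fin (p + j) → α) :
    (List.ofFn f).take p = List.ofFn (fun i : Fin p => f (Fin.castAdd j i)) := by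
  rw [List.ofFn_add]
  exact List.take_left' (by simp)

theorem LR4_fst {m : ℕ} (x : Fin m → S) : (Lx x).map Prod.fst = List.ofFn x := by
  unfold Lx
  rw [List.map_ofFn]
  rfl

theorem LR4_snd {m : ℕ} (x : Fin m → S) : (Lx x).map Prod.snd = List.ofFn (fun i : Fin m => i) := by
  unfold Lx
  rw [List.map_ofFn]
  rfl

theorem LR4_len {m : ℕ} (x : Fin m → S) : (Lx x).length = m := by
  unfold Lx
  rw [List.length_ofFn]

theorem LR4_ev_zero (g h : List S → ∀ m, RTree m → ℝ) {M : ℕ} (τ : RTree M) (a : List S)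
    (l : List (Fin M)) (H : ∀ τ' : RTree l.length, g a l.length τ' = h a l.length τ') :
    ev g τ a l = ev h τ a l := by
  unfold ev
  split_ifs
  · exact H _
  · rfl

theorem LR4_big {k : ℕ} (τ : RTree (k + 3)) (a : List S) (p : ℕ) (hp : p < k) :
    ev (mg μ (GG F)) τ a ((List.ofFn (fun i : Fin (k + 3) => i)).drop p) -
      ev (g4 μ F) τ a ((List.ofFn (fun i : Fin (k + 3) => i)).drop p) = 0 := by
  rw [sub_eq_zero]
  apply LR4_ev_zero
  intro τ'
  unfold g4
  rw [if_pos]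
  rw [List.length_drop, List.length_ofFn]
  omega

theorem LR4_small {k j : ℕ} (hj : j < 4) (τ : RTree (k + j)) (a : List S) :
    ev (mg μ (GG F)) τ a ((List.ofFn (fun i : Fin (k + j) => i)).drop k) -
      ev (g4 μ F) τ a ((List.ofFn (fun i : Fin (k + j) => i)).drop k) =
      mg μ (GG F) a j (τ.pull (Fin.natAddEmb k)) := by
  rw [LR4_drop]
  have h1 : (fun i : Fin j => Fin.natAdd k i) = (Fin.natAddEmb k : Fin j ↪ Fin (k + j)) := rfl
  rw [h1, ev_ofFn, ev_ofFn]
  unfold g4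
  rw [if_neg (by omega), sub_zero]

theorem aw_decomp (hμ : Means μ) {k : ℕ} (hF : Coc (prodK K) (k + 3) F) (x : Fin (k + 3) → S)
    (τ : RTree (k + 3)) :
    aw (ev (mg μ (GG F)) τ) (Lx x) = G0 μ F (List.ofFn x) +
      G2 μ F (List.ofFn fun i : Fin (k + 1) => x (Fin.castAdd 2 i)) *
        ((τ.o ⟨k, by omega⟩ ⟨k + 1, by omega⟩ ⟨k + 2, by omega⟩ : ℤ) : ℝ) +
      aw (ev (g4 μ F) τ) (Lx x) := by
  have h := aw_sub (ev (mg μ (GG F)) τ) (ev (g4 μ F) τ) (Lx x)
  have h2 : aw (fun a b => ev (mg μ (GG F)) τ a b - ev (g4 μ F) τ a b) (Lx x) =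
      G0 μ F (List.ofFn x) + G2 μ F (List.ofFn fun i : Fin (k + 1) => x (Fin.castAdd 2 i)) *
        ((τ.o ⟨k, by omega⟩ ⟨k + 1, by omega⟩ ⟨k + 2, by omega⟩ : ℤ) : ℝ) := by
    rw [aw_eq_sum, LR4_fst, LR4_snd, LR4_len, Finset.sum_range_succ, Finset.sum_range_succ,
      Finset.sum_range_succ, Finset.sum_eq_zero (fun p hp => LR4_big τ _ p (Finset.mem_range.1 hp))]
    have e3 := LR4_small (μ := μ) (F := F) (j := 3) (by norm_num) τ ((List.ofFn x).take (k + 1))
    have e2 := LR4_small (μ := μ) (F := F) (k := k + 1) (j := 2) (by norm_num) τ ((List.ofFn x).take (k + 1 + 1))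
    have e1 := LR4_small (μ := μ) (F := F) (k := k + 2) (j := 1) (by norm_num) τ ((List.ofFn x).take (k + 2 + 1))
    have e3' : (List.ofFn x).take (k + 1) = List.ofFn fun i : Fin (k + 1) => x (Fin.castAdd 2 i) :=
      LR4_take (k + 1) 2 x
    have e1' : (List.ofFn x).take (k + 2 + 1) = List.ofFn x := by
      apply List.take_of_length_le
      rw [List.length_ofFn]
    rw [mg_three hμ hF] at e3
    rw [mg_two hμ hF] at e2
    rw [e3'] at e3
    rw [e1', RTree.ext_of_le_two (by norm_num) (τ.pull (Fin.natAddEmb (k + 2))) tone] at e1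
    rw [e3', e1']
    refine Eq.trans (congrArg₂ (· + ·) (congrArg₂ (· + ·) (congrArg (0 + ·) e3) e2) e1) ?_
    unfold G0 G2
    have e4 : (τ.pull (Fin.natAddEmb k)).o 0 1 2 =
        τ.o ⟨k, by omega⟩ ⟨k + 1, by omega⟩ ⟨k + 2, by omega⟩ := rfl
    rw [e4]
    ring
  linarith

theorem aw_g4 (hμ : Means μ) (hF : Coc (prodK K) p F) (hp : 2 ≤ p) {m : ℕ} (x : Fin (m + 1) → S)
    (τ : RTree (m + 1)) : aw (ev (g4 μ F) τ) (Lx x) = dd (aw (ev (gt μ F) τ)) (Lx x) := by
  have h1 : aw (ev (g4 μ F) τ) (Lx x) = aw (dtot (ev (gt μ F) τ)) (Lx x) := by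
    apply aw_congr
    intro a b ha hb _ _ hsuf
    have hnd : b.Nodup := by
      refine List.Nodup.sublist hsuf.sublist ?_
      rw [LR4_snd]
      exact List.nodup_ofFn.2 (fun _ _ h => h)
    unfold dtot
    rw [dd_ev _ τ a b hnd, dd_ev_left _ τ a b hnd]
    unfold ev
    rw [dif_pos hnd, dif_pos hnd, dif_pos hnd]
    exact (total_gt hμ hF hp a ha b.length (List.length_pos_iff.2 hb) _).symm
  have hne : Lx x ≠ [] := by
    intro h
    have := congrArg List.length h
    rw [LR4_len] at this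
    simp at this
  rw [h1, aw_dtot _ _ hne]
  have h2 : ev (gt μ F) τ [] ((Lx x).map Prod.snd) = 0 := by
    unfold ev
    split_ifs
    · exact gt_nil _ _
    · rfl
  have h3 : ev (gt μ F) τ ((Lx x).map Prod.fst) [] = 0 := by
    unfold ev
    split_ifs
    · exact gt_zero _ _
    · rfl
  rw [h2, h3]
  ring

theorem dd_aw_ofFn (g : List S → ∀ m, RTree m → ℝ) {m : ℕ} (x : Fin (m + 1) → S)
    (τ : RTree (m + 1)) :
    dd (aw (ev g τ)) (Lx x) = ∑ i : Fin (m + 1), (-1 : ℝ) ^ (i : ℕ) *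
      aw (ev g (τ.pull (Fin.succAboveEmb i))) (Lx fun j => x (i.succAbove j)) := by
  unfold Lx
  rw [dd_ofFn]
  refine Finset.sum_congr rfl (fun i _ => ?_)
  congr 1
  have h1 : (List.ofFn fun j => (x (i.succAbove j), i.succAbove j)) =
      (List.ofFn fun j : Fin m => (x (i.succAbove j), j)).map (Prod.map id (Fin.succAboveEmb i)) := by
    rw [List.map_ofFn]
    rfl
  rw [h1, aw_map]
  congr 1
  funext a b
  rw [List.map_id]
  exact ev_map g (Fin.succAboveEmb i) τ a b

end SimplVol
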