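import Pool.Agent.H54.RT.LR4

/-!
# Module LR5: the mean of a cocycle in the last factor

PROOF of `lemR`. For `z : Fin (k+3) → S × ℍ` the list `List.ofFn z` has length `k + 3`; `homotopy (k+2)`: as `dd F = 0` (function), `hh (k+3) (dd F) = 0` (`hh_zero_fun`), so
`F (ofFn z) = tt F (ofFn z) + dd (hh (k+2) F) (ofFn z)`, and `tt F (ofFn z) = aw (GG F) (ofFn z)` (`tt_of_ne`).
Let `z i = (x i, y i)`. `μ (k+3) τ (fun y => aw (GG F) (ofFn z)) = aw (ev (mg μ (GG F)) τ) (Lx x)` by `mean_aw` (`L = Lx x`; `GG_map_right`, `GG_bdd`). Then `aw_decomp`, `aw_g4`, `dd_aw_ofFn`.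
`dd (hh (k+2) F) (ofFn z) = ∑ i, (-1)^i hh (k+2) F (ofFn (z ∘ i.succAbove))`, and `μ (k+3) τ` of `y ↦ hh (k+2) F (ofFn fun j => (x (i.succAbove j), y (i.succAbove j)))` is
`μ (k+2) (τ.pull δ_i) (y' ↦ hh (k+2) F (ofFn fun j => (x (i.succAbove j), y' j)))` (`hμ.nat`; invariant by `hh_map` with `Prod.map id g`, bounded by `abs_hh_le`).
So with `b a τ' := if a.length = k + 2 then μ (k+2) τ' (fun y => hh (k+2) F (a.zip (ofFn y))) + aw (ev (gt μ F) τ') (a.zip (List.finRange (k+2))) else 0` (note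
`(ofFn x').zip (ofFn y) = ofFn (fun j => (x' j, y j))`, `(ofFn x').zip (List.finRange _) = Lx x'`) the formula holds. `b` is bounded: `abs_hh_le`, `hμ.bdd`, `abs_aw_le`, `gt_bdd` (`|ev ..| ≤ C`);
`b` is invariant: `hh_map` with `Prod.map κ id` (`(a.map κ).zip l = (a.zip l).map (Prod.map κ id)`, `List.zip_map_left`), `aw_map`, `gt_inv`. For the zero length etc. `List.length_map`.
-/

set_option autoImplicit false

open scoped BigOperators UpperHalfPlane MatrixGroups

namespace SimplVol

variable {S : Type} {K : Set (S → S)} {F : List (S × ℍ) → ℝ}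
  {μ : ∀ m, RTree m → ((Fin m → ℍ) → ℝ) →ₗ[ℝ] ℝ}

theorem LR5_zip (n : ℕ) {X Y : Type} (x : Fin n → X) (y : Fin n → Y) :
    (List.ofFn x).zip (List.ofFn y) = List.ofFn fun j => (x j, y j) := by
  apply List.ext_getElem
  · simp
  · intro i h1 h2
    simp

theorem LR5_zip_fin {X : Type} (n : ℕ) (x : Fin n → X) :
    (List.ofFn x).zip (List.finRange n) = Lx x := by
  unfold Lx
  apply List.ext_getElem
  · simp
  · intro i h1 h2
    simp

theorem LR5_ev_abs {g : List S → ∀ m, RTree m → ℝ} {C : ℝ} (hC : 0 ≤ C)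
    (h : ∀ a m (τ : RTree m), |g a m τ| ≤ C) {M : ℕ} (τ : RTree M) (a : List S)
    (l : List (Fin M)) : |ev g τ a l| ≤ C := by
  unfold ev
  split_ifs with hl
  · exact h _ _ _
  · rw [abs_zero]
    exact hC

theorem LR5_hh_inv_left {p : ℕ} (hF : Coc (prodK K) p F) (q : ℕ) (κ : S → S) (hκ : κ ∈ K)
    (l : List (S × ℍ)) : hh q F (l.map (Prod.map κ id)) = hh q F l := by
  rw [hh_map κ (id : ℍ → ℍ) q F l]
  have h2 : (fun m : List (S × ℍ) => F (m.map (Prod.map κ id))) = F := by
    funext m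
    exact hF.inv _ (Or.inl ⟨κ, hκ, rfl⟩) m
  rw [h2]

theorem LR5_hh_inv_right {p : ℕ} (hF : Coc (prodK K) p F) (q : ℕ) (g : SL(2, ℝ))
    (l : List (S × ℍ)) : hh q F (l.map (Prod.map id fun z : ℍ => g • z)) = hh q F l := by
  rw [hh_map (id : S → S) (fun z : ℍ => g • z) q F l]
  have h2 : (fun m : List (S × ℍ) => F (m.map (Prod.map id fun z : ℍ => g • z))) = F := by
    funext m
    exact hF.inv _ (Or.inr ⟨g, rfl⟩) m
  rw [h2]

theorem LR5_hom {p : ℕ} (hF : Coc (prodK K) p F) (q : ℕ) (l : List (S × ℍ)) (hl : l.length = q + 1) :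
    F l = aw (GG F) l + dd (hh q F) l := by
  have h := homotopy q F l hl
  have h5 : dd F = fun _ => (0 : ℝ) := funext fun l => hF.coc l
  rw [h5, hh_zero_fun, zero_add] at h
  have hne : l ≠ [] := by
    intro h0
    rw [h0] at hl
    simp at hl
  have h6 : tt F l = aw (GG F) l := tt_of_ne F l hne
  rw [h6] at h
  linarith

theorem LR5_Lx_snd {m : ℕ} (x : Fin m → S) : ((Lx x).map Prod.snd).Nodup := by
  unfold Lx
  rw [List.map_ofFn, List.nodup_ofFn]
  intro i j h
  exact h

theorem lemR (hμ : Means μ) {k : ℕ} (hF : Coc (prodK K) (k + 3) F) :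
    ∃ b : List S → RTree (k + 2) → ℝ, (∃ C, ∀ a τ, |b a τ| ≤ C) ∧
      (∀ κ ∈ K, ∀ a τ, b (a.map κ) τ = b a τ) ∧
      ∀ (x : Fin (k + 3) → S) (τ : RTree (k + 3)),
        μ (k + 3) τ (fun y => F (List.ofFn fun i => (x i, y i))) =
          G0 μ F (List.ofFn x) +
          G2 μ F (List.ofFn fun i : Fin (k + 1) => x (Fin.castAdd 2 i)) *
            ((τ.o ⟨k, by omega⟩ ⟨k + 1, by omega⟩ ⟨k + 2, by omega⟩ : ℤ) : ℝ) +
          ∑ i : Fin (k + 3), (-1 : ℝ) ^ (i : ℕ) *
            b (List.ofFn fun j => x (i.succAbove j)) (τ.pull (Fin.succAboveEmb i)) := by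
  classical
  obtain ⟨C, hC⟩ := hF.bdd
  have hC0 : 0 ≤ C := (abs_nonneg _).trans (hC [])
  obtain ⟨Kh, hKh0, hKh⟩ := abs_hh_le (S := S) (Y := ℍ) (k + 2)
  obtain ⟨Cg, hCg0, hCg⟩ := gt_bdd hμ hF
  have hhb : ∀ l : List (S × ℍ), l.length = k + 2 → |hh (k + 2) F l| ≤ Kh * C :=
    fun l hl => hKh F C hC0 hC l hl
  refine ⟨fun a τ' => if a.length = k + 2 then
      μ (k + 2) τ' (fun y => hh (k + 2) F (a.zip (List.ofFn y))) +
        aw (ev (gt μ F) τ') (a.zip (List.finRange (k + 2))) else 0,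
    ⟨Kh * C + ((k + 2 : ℕ) : ℝ) * Cg, fun a τ => ?_⟩, fun κ hκ a τ => ?_, fun x τ => ?_⟩
  · show |(if a.length = k + 2 then
      μ (k + 2) τ (fun y => hh (k + 2) F (a.zip (List.ofFn y))) +
        aw (ev (gt μ F) τ) (a.zip (List.finRange (k + 2))) else 0)| ≤ _
    by_cases ha : a.length = k + 2
    · rw [if_pos ha]
      have h1 : |μ (k + 2) τ (fun y => hh (k + 2) F (a.zip (List.ofFn y)))| ≤ Kh * C := by
        refine hμ.bdd _ _ _ _ fun y => hhb _ ?_
        simp [ha]
      have h2 : |aw (ev (gt μ F) τ) (a.zip (List.finRange (k + 2)))| ≤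
          ((k + 2 : ℕ) : ℝ) * Cg := by
        have h3 := abs_aw_le (ev (gt μ F) τ) Cg (a.zip (List.finRange (k + 2)))
          fun a' b' _ _ _ => LR5_ev_abs hCg0 hCg τ a' b'
        have h4 : (a.zip (List.finRange (k + 2))).length = k + 2 := by
          simp [ha]
        rw [h4] at h3
        exact h3
      exact (abs_add_le _ _).trans (add_le_add h1 h2)
    · rw [if_neg ha, abs_zero]
      positivity
  · show (if (a.map κ).length = k + 2 then
      μ (k + 2) τ (fun y => hh (k + 2) F ((a.map κ).zip (List.ofFn y))) +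
        aw (ev (gt μ F) τ) ((a.map κ).zip (List.finRange (k + 2))) else 0) =
      (if a.length = k + 2 then
      μ (k + 2) τ (fun y => hh (k + 2) F (a.zip (List.ofFn y))) +
        aw (ev (gt μ F) τ) (a.zip (List.finRange (k + 2))) else 0)
    rw [List.length_map]
    have h1 : (fun y : Fin (k + 2) → ℍ => hh (k + 2) F ((a.map κ).zip (List.ofFn y))) =
        fun y : Fin (k + 2) → ℍ => hh (k + 2) F (a.zip (List.ofFn y)) := by
      funext y
      rw [List.zip_map_left, LR5_hh_inv_left hF (k + 2) κ hκ]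
    have h2 : aw (ev (gt μ F) τ) ((a.map κ).zip (List.finRange (k + 2))) =
        aw (ev (gt μ F) τ) (a.zip (List.finRange (k + 2))) := by
      rw [List.zip_map_left, aw_map κ (id : Fin (k + 2) → Fin (k + 2))]
      have h3 : (fun (a : List S) (b : List (Fin (k + 2))) =>
          ev (gt μ F) τ (a.map κ) (b.map id)) = ev (gt μ F) τ := by
        funext a' b'
        rw [List.map_id]
        unfold ev
        split_ifs with hn
        · exact gt_inv hF κ hκ a' _ _
        · rfl
      rw [h3]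
    rw [h1, h2]
  · show μ (k + 3) τ (fun y => F (List.ofFn fun i => (x i, y i))) =
          G0 μ F (List.ofFn x) +
          G2 μ F (List.ofFn fun i : Fin (k + 1) => x (Fin.castAdd 2 i)) *
            ((τ.o ⟨k, by omega⟩ ⟨k + 1, by omega⟩ ⟨k + 2, by omega⟩ : ℤ) : ℝ) +
          ∑ i : Fin (k + 3), (-1 : ℝ) ^ (i : ℕ) *
            (if (List.ofFn fun j => x (i.succAbove j)).length = k + 2 then
              μ (k + 2) (τ.pull (Fin.succAboveEmb i)) (fun y => hh (k + 2) F
                ((List.ofFn fun j => x (i.succAbove j)).zip (List.ofFn y))) +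
              aw (ev (gt μ F) (τ.pull (Fin.succAboveEmb i)))
                ((List.ofFn fun j => x (i.succAbove j)).zip (List.finRange (k + 2))) else 0)
    have hF1 : (fun y : Fin (k + 3) → ℍ => F (List.ofFn fun i => (x i, y i))) =
        (fun y : Fin (k + 3) → ℍ => aw (GG F) ((Lx x).map fun p => (p.1, y p.2))) +
        ∑ i : Fin (k + 3), ((-1 : ℝ) ^ (i : ℕ)) • fun y : Fin (k + 3) → ℍ =>
          hh (k + 2) F (List.ofFn fun j => (x (i.succAbove j), y (i.succAbove j))) := by
      funext y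
      rw [Pi.add_apply, Finset.sum_apply]
      have h1 := LR5_hom hF (k + 2) (List.ofFn fun i => (x i, y i)) (by simp)
      rw [h1]
      have h2 : (List.ofFn fun i => (x i, y i)) = (Lx x).map fun p => (p.1, y p.2) := by
        unfold Lx
        rw [List.map_ofFn]
        rfl
      rw [← h2, dd_ofFn]
      rfl
    rw [hF1, map_add, map_sum]
    have hA : μ (k + 3) τ (fun y : Fin (k + 3) → ℍ =>
        aw (GG F) ((Lx x).map fun p => (p.1, y p.2))) = aw (ev (mg μ (GG F)) τ) (Lx x) := by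
      refine mean_aw hμ (GG F) (fun a g b => GG_map_right hF g a b) (fun a n => ?_) τ (Lx x)
        (LR5_Lx_snd x)
      obtain ⟨C', _, hC'⟩ := GG_bdd hF
      exact ⟨C', fun b _ => hC' a b⟩
    have hB : ∀ i : Fin (k + 3), μ (k + 3) τ (((-1 : ℝ) ^ (i : ℕ)) •
        fun y : Fin (k + 3) → ℍ =>
          hh (k + 2) F (List.ofFn fun j => (x (i.succAbove j), y (i.succAbove j)))) =
        (-1 : ℝ) ^ (i : ℕ) * μ (k + 2) (τ.pull (Fin.succAboveEmb i)) (fun y => hh (k + 2) F
                ((List.ofFn fun j => x (i.succAbove j)).zip (List.ofFn y))) := by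
      intro i
      rw [map_smul, smul_eq_mul]
      congr 1
      have h3 : (fun y : Fin (k + 2) → ℍ => hh (k + 2) F
                ((List.ofFn fun j => x (i.succAbove j)).zip (List.ofFn y))) =
          fun y : Fin (k + 2) → ℍ => hh (k + 2) F
            (List.ofFn fun j => (x (i.succAbove j), y j)) := by
        funext y
        rw [LR5_zip]
      rw [h3]
      refine hμ.nat (k + 2) (k + 3) (Fin.succAboveEmb i) τ (fun y : Fin (k + 2) → ℍ =>
        hh (k + 2) F (List.ofFn fun j => (x (i.succAbove j), y j))) (by omega) ?_ ?_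
      · intro g y
        show hh (k + 2) F (List.ofFn fun j => (x (i.succAbove j), g • y j)) =
          hh (k + 2) F (List.ofFn fun j => (x (i.succAbove j), y j))
        rw [← LR5_hh_inv_right hF (k + 2) g (List.ofFn fun j => (x (i.succAbove j), y j)),
          List.map_ofFn]
        rfl
      · exact ⟨Kh * C, fun y => hhb _ (by simp)⟩
    rw [hA, aw_decomp hμ hF x τ, aw_g4 hμ hF (by omega) x τ, dd_aw_ofFn]
    have hD : ∀ i : Fin (k + 3), (if (List.ofFn fun j => x (i.succAbove j)).length = k + 2 then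
              μ (k + 2) (τ.pull (Fin.succAboveEmb i)) (fun y => hh (k + 2) F
                ((List.ofFn fun j => x (i.succAbove j)).zip (List.ofFn y))) +
              aw (ev (gt μ F) (τ.pull (Fin.succAboveEmb i)))
                ((List.ofFn fun j => x (i.succAbove j)).zip (List.finRange (k + 2))) else 0) =
        μ (k + 2) (τ.pull (Fin.succAboveEmb i)) (fun y => hh (k + 2) F
                ((List.ofFn fun j => x (i.succAbove j)).zip (List.ofFn y))) +
              aw (ev (gt μ F) (τ.pull (Fin.succAboveEmb i))) (Lx fun j => x (i.succAbove j)) := by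
      intro i
      rw [if_pos (by simp), LR5_zip_fin]
    simp only [hD, hB, mul_add, Finset.sum_add_distrib]
    ring

end SimplVol
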