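import Pool.Agent.H54.RT.MV
import Pool.Agent.H54.RT.AA

/-!
# Module MA: the system of means, areas

* `JJ_mono`: for bounded `P ≤ Q`: `hM.bdd` for `Q - P - C/2` gives `M (Q - P) ≥ 0` if `0 ≤ Q - P ≤ C`; induction on the list. `JJ_coord`: `JJ M L (fun v => f (v s)) = M f` for `s ∈ L`, `L.Nodup` (`JJ_indep`-like induction: before `s` constants; after `s` the function is constant).
* `muF_tplus`: `Rep tplus (node (leaf 1) (leaf 2))`, leaves `{0}ᶜ`; by `rep_unique` it is the chosen tree. `conf .. v 0 = I`, `conf .. v 1 = rho (v s₀ ++ false :: v s₁) • I`, `conf .. v 2 = rho (v s₀ ++ true :: v s₂) • I`, `s₀ = spl {1, 2}`, `s₁ = spl {1}`, `s₂ = spl {2}`, all in `FL tplus π`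
  (`mem_FL`). `area_conf`, `JJ_mono`, `JJ_coord`, `hM.small`: `|JJ (area) - π| ≤ 8 * 3 * 0 = 0`.
* `muF_area`: if two of `a, b, c` are equal both sides are `0` (`area` is alternating: module AR; `o_zero..`). Else `ι = ![a, b, c]` is injective, `muF_nat` (`InvH`: `area_smul`; bounded: `abs_area_lt` of AR), `RTree.three_cases` for `τ.pull ι`; for `tplus.pull (swap 0 1)` use `muF_nat` for the swap
  and `area y₁ y₀ y₂ = - area y₀ y₁ y₂`.
-/

set_option autoImplicit false

open scoped BigOperators UpperHalfPlane MatrixGroups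

namespace SimplVol

variable {M : (Wd → ℝ) →ₗ[ℝ] ℝ}

theorem MA_mono (hM : WMean M) (f g : Wd → ℝ) (hf : ∃ C, ∀ w, |f w| ≤ C)
    (hg : ∃ C, ∀ w, |g w| ≤ C) (h : ∀ w, f w ≤ g w) : M f ≤ M g := by
  obtain ⟨C, hC⟩ := hf
  obtain ⟨D, hD⟩ := hg
  have h1 := hM.bdd (fun w => (g w + (-1) * f w) + (-((C + D) / 2))) ((C + D) / 2) (fun w => by
    have a1 := abs_le.1 (hC w)
    have a2 := abs_le.1 (hD w)
    have a3 := h w
    rw [abs_le]
    constructor <;> linarith [a1.1, a1.2, a2.1, a2.2])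
  rw [WJ_add, WJ_add, WJ_smul, WJ_const hM, abs_le] at h1
  linarith [h1.1]

/-- Bounded functions: monotonicity. -/
theorem JJ_mono (hM : WMean M) {A : Type} [DecidableEq A] (L : List A) (P Q : (A → Wd) → ℝ)
    (hP : ∃ C, ∀ v, |P v| ≤ C) (hQ : ∃ C, ∀ v, |Q v| ≤ C) (h : ∀ v, P v ≤ Q v) :
    JJ M L P ≤ JJ M L Q := by
  obtain ⟨C, hC⟩ := hP
  obtain ⟨D, hD⟩ := hQ
  induction L generalizing P Q with
  | nil => exact h _
  | cons s L ih =>
    exact MA_mono hM _ _ ⟨C, fun u => JJ_bdd hM L _ C fun v => hC _⟩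
      ⟨D, fun u => JJ_bdd hM L _ D fun v => hD _⟩
      (fun u => ih _ _ (fun v => h _) (fun v => hC _) (fun v => hD _))

theorem JJ_coord (hM : WMean M) {A : Type} [DecidableEq A] (L : List A) (hL : L.Nodup) (s : A)
    (hs : s ∈ L) (f : Wd → ℝ) : JJ M L (fun v => f (v s)) = M f := by
  induction L with
  | nil => exact absurd hs (List.not_mem_nil)
  | cons s' L ih =>
    rw [List.nodup_cons] at hL
    show M (fun u => JJ M L fun v => f (Function.update v s' u s)) = M f
    by_cases h : s = s'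
    · subst h
      simp only [Function.update_self]
      congr 1
      funext u
      exact JJ_const hM L (f u)
    · have hs' : s ∈ L := by
        rcases List.mem_cons.1 hs with h1 | h1
        · exact absurd h1 h
        · exact h1
      simp only [Function.update_of_ne h]
      rw [ih hL.2 hs']
      exact WJ_const hM _

theorem MA_rep : Rep tplus (BT.node (.leaf 1) (.leaf 2)) := by
  refine ⟨?_, ?_, Or.inl ⟨1, rfl⟩, Or.inl ⟨2, rfl⟩, trivial, trivial⟩
  · show Disjoint ({1} : Finset (Fin 3)) {2}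
    decide
  · intro a ha b hb c hc1 hc2
    have h1 : a = 1 := Finset.mem_singleton.1 ha
    have h2 : b = 2 := Finset.mem_singleton.1 hb
    have h3 : c ≠ 1 := fun h => hc1 (Finset.mem_singleton.2 h)
    have h4 : c ≠ 2 := fun h => hc2 (Finset.mem_singleton.2 h)
    have h5 : c = 0 := by
      revert h3 h4
      clear hc1 hc2
      revert c
      decide
    subst h1 h2 h5
    decide

theorem MA_tree0 : tree0 tplus = BT.node (.leaf 1) (.leaf 2) := by
  have h2 : (2 : ℕ) ≤ 2 + 1 := by norm_num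
  have h : tree0 tplus = (exists_rep h2 tplus 0).choose := by
    unfold tree0
    rw [dif_pos h2]
  have hs := (exists_rep h2 tplus 0).choose_spec
  rw [h]
  have hl : (BT.node (.leaf 1) (.leaf 2) : BT 3).lv = {0}ᶜ := by
    show ({1} : Finset (Fin 3)) ∪ {2} = {0}ᶜ
    decide
  refine rep_unique tplus 0 _ _ hs.2 MA_rep (hs.1.trans hl.symm) ?_
  rw [hs.1]
  simp

/-- The error term. -/
noncomputable def MA_err {A : Type} (s₀ s₁ s₂ : A) (v : A → Wd) : ℝ :=
  8 * ((1 / (((v s₀).length : ℝ) + 1) + 1 / (((v s₁).length : ℝ) + 1)) +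
    1 / (((v s₂).length : ℝ) + 1))

theorem MA_inv_bd (w : Wd) : |1 / ((w.length : ℝ) + 1)| ≤ 1 := by
  have h1 : (0 : ℝ) < (w.length : ℝ) + 1 := by positivity
  rw [abs_of_pos (by positivity), div_le_one h1]
  have : (0 : ℝ) ≤ (w.length : ℝ) := by positivity
  linarith

theorem MA_err_bd {A : Type} (s₀ s₁ s₂ : A) (v : A → Wd) : |MA_err s₀ s₁ s₂ v| ≤ 24 := by
  unfold MA_err
  have h0 := abs_le.1 (MA_inv_bd (v s₀))
  have h1 := abs_le.1 (MA_inv_bd (v s₁))
  have h2 := abs_le.1 (MA_inv_bd (v s₂))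
  rw [abs_le]
  constructor <;> linarith [h0.1, h0.2, h1.1, h1.2, h2.1, h2.2]

theorem MA_err_JJ (hM : WMean M) {A : Type} [DecidableEq A] (L : List A) (hL : L.Nodup)
    (s₀ s₁ s₂ : A) (h₀ : s₀ ∈ L) (h₁ : s₁ ∈ L) (h₂ : s₂ ∈ L) :
    JJ M L (MA_err s₀ s₁ s₂) = 0 := by
  have e : ∀ s ∈ L, JJ M L (fun v => 1 / (((v s).length : ℝ) + 1)) = 0 := fun s hs =>
    (JJ_coord hM L hL s hs (fun w => 1 / ((w.length : ℝ) + 1))).trans hM.small
  show JJ M L (fun v => 8 * ((1 / (((v s₀).length : ℝ) + 1) + 1 / (((v s₁).length : ℝ) + 1)) +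
    1 / (((v s₂).length : ℝ) + 1))) = 0
  rw [JJ_smul, JJ_add, JJ_add, e s₀ h₀, e s₁ h₁, e s₂ h₂]
  norm_num

theorem MA_one (hM : WMean M) (π : List (Fin 3)) (hπ : ∀ i, i ∈ π) :
    JJ M (FL tplus π) (fun v => area (conf (BT.node (.leaf 1) (.leaf 2)) 0 v 0)
      (conf (BT.node (.leaf 1) (.leaf 2)) 0 v 1) (conf (BT.node (.leaf 1) (.leaf 2)) 0 v 2)) =
      Real.pi := by
  set s₀ : Split 3 := spl ({1} ∪ {2}) with hs₀
  set s₁ : Split 3 := spl {1} with hs₁
  set s₂ : Split 3 := spl {2} with hs₂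
  have m₀ : s₀ ∈ FL tplus π := by
    rw [mem_FL tplus π hπ]
    exact ⟨{1} ∪ {2}, Or.inr (Or.inl ⟨0, by decide⟩), by decide, by decide, rfl⟩
  have m₁ : s₁ ∈ FL tplus π := by
    rw [mem_FL tplus π hπ]
    exact ⟨{1}, Or.inl ⟨1, rfl⟩, by decide, by decide, rfl⟩
  have m₂ : s₂ ∈ FL tplus π := by
    rw [mem_FL tplus π hπ]
    exact ⟨{2}, Or.inl ⟨2, rfl⟩, by decide, by decide, rfl⟩
  have hE := MA_err_JJ hM (FL tplus π) (FL_nodup tplus π) s₀ s₁ s₂ m₀ m₁ m₂
  have hc : ∀ v : Split 3 → Wd, |area (conf (BT.node (.leaf 1) (.leaf 2)) 0 v 0)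
      (conf (BT.node (.leaf 1) (.leaf 2)) 0 v 1) (conf (BT.node (.leaf 1) (.leaf 2)) 0 v 2) -
      Real.pi| ≤ MA_err s₀ s₁ s₂ v := by
    intro v
    have e0 : conf (BT.node (.leaf 1) (.leaf 2) : BT 3) 0 v 0 = UpperHalfPlane.I := if_pos rfl
    have e1 : conf (BT.node (.leaf 1) (.leaf 2) : BT 3) 0 v 1 =
        rho (v s₀ ++ false :: v s₁) • UpperHalfPlane.I := by
      unfold conf
      rw [if_neg (by decide)]
      rfl
    have e2 : conf (BT.node (.leaf 1) (.leaf 2) : BT 3) 0 v 2 =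
        rho (v s₀ ++ true :: v s₂) • UpperHalfPlane.I := by
      unfold conf
      rw [if_neg (by decide)]
      rfl
    rw [e0, e1, e2]
    exact area_conf (v s₀) (v s₁) (v s₂)
  have hb : ∃ C, ∀ v : Split 3 → Wd, |area (conf (BT.node (.leaf 1) (.leaf 2)) 0 v 0)
      (conf (BT.node (.leaf 1) (.leaf 2)) 0 v 1)
      (conf (BT.node (.leaf 1) (.leaf 2)) 0 v 2)| ≤ C :=
    ⟨Real.pi, fun v => (abs_area_lt _ _ _).le⟩
  apply le_antisymm
  · have h1 := JJ_mono hM (FL tplus π) _ (fun v => Real.pi + MA_err s₀ s₁ s₂ v) hb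
      ⟨Real.pi + 24, fun v => by
        have h2 := abs_le.1 (MA_err_bd s₀ s₁ s₂ v)
        have h3 := Real.pi_pos
        rw [abs_le]
        constructor <;> linarith [h2.1, h2.2]⟩
      (fun v => by linarith [(abs_le.1 (hc v)).2])
    rw [JJ_add, JJ_const hM, hE, add_zero] at h1
    exact h1
  · have h1 := JJ_mono hM (FL tplus π) (fun v => Real.pi + (-1) * MA_err s₀ s₁ s₂ v) _
      ⟨Real.pi + 24, fun v => by
        have h2 := abs_le.1 (MA_err_bd s₀ s₁ s₂ v)
        have h3 := Real.pi_pos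
        rw [abs_le]
        constructor <;> linarith [h2.1, h2.2]⟩ hb
      (fun v => by linarith [(abs_le.1 (hc v)).1])
    rw [JJ_add, JJ_const hM, JJ_smul, hE, mul_zero, add_zero] at h1
    exact h1

theorem muF_tplus (hM : WMean M) :
    muF M 3 tplus (fun y => area (y 0) (y 1) (y 2)) = Real.pi := by
  show MUf M tplus 0 (tree0 tplus) (fun y => area (y 0) (y 1) (y 2)) = Real.pi
  rw [MA_tree0]
  unfold MUf
  rw [PE_congr _ _ _ (fun _ => Real.pi) (fun l hl hlE => MA_one hM l (fun i => by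
    have : i ∈ l.toFinset := by rw [hlE]; exact Finset.mem_univ i
    exact List.mem_toFinset.1 this))]
  exact PE_const _ _ (fun _ _ => one_pos) _

theorem MA_area_xx (x z : ℍ) : area x x z = 0 := by
  unfold area
  rw [sarg_self, sarg_swap x z]
  ring

theorem MA_area_rot (x y z : ℍ) : area y z x = area x y z := by
  unfold area
  ring

theorem MA_area_swap (x y z : ℍ) : area y x z = (-1) * area x y z := by
  unfold area
  rw [sarg_swap x y, sarg_swap z x, sarg_swap y z]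
  ring

theorem muF_area (hM : WMean M) (m : ℕ) (τ : RTree m) (a b c : Fin m) :
    muF M m τ (fun y => area (y a) (y b) (y c)) = Real.pi * ((τ.o a b c : ℤ) : ℝ) := by
  by_cases hab : a = b
  · subst hab
    rw [τ.o_zero₁₂]
    have : (fun y : Fin m → ℍ => area (y a) (y a) (y c)) = 0 := by
      funext y
      exact MA_area_xx _ _
    rw [this, map_zero]
    simp
  by_cases hbc : b = c
  · subst hbc
    rw [τ.o_zero₂₃]
    have : (fun y : Fin m → ℍ => area (y a) (y b) (y b)) = 0 := by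
      funext y
      rw [← MA_area_rot]
      exact MA_area_xx _ _
    rw [this, map_zero]
    simp
  by_cases hac : a = c
  · subst hac
    rw [τ.o_zero₁₃]
    have : (fun y : Fin m → ℍ => area (y a) (y b) (y a)) = 0 := by
      funext y
      rw [MA_area_rot (y a) (y a) (y b)]
      exact MA_area_xx _ _
    rw [this, map_zero]
    simp
  have hinj : Function.Injective (![a, b, c] : Fin 3 → Fin m) := by
    intro i j hij
    fin_cases i <;> fin_cases j <;> simp at hij ⊢ <;> first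
      | exact hab hij
      | exact hac hij
      | exact hbc hij
      | exact hab hij.symm
      | exact hac hij.symm
      | exact hbc hij.symm
  set ι : Fin 3 ↪ Fin m := ⟨![a, b, c], hinj⟩ with hι
  have hI : InvH (fun y : Fin 3 → ℍ => area (y 0) (y 1) (y 2)) := fun g y => area_smul g _ _ _
  have hP : ∃ C, ∀ y : Fin 3 → ℍ, |area (y 0) (y 1) (y 2)| ≤ C :=
    ⟨Real.pi, fun y => (abs_area_lt _ _ _).le⟩
  have h1 := muF_nat hM 3 m ι τ (fun y => area (y 0) (y 1) (y 2)) (by norm_num) hI hP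
  have h2 : (fun y : Fin m → ℍ => (fun y : Fin 3 → ℍ => area (y 0) (y 1) (y 2))
      fun i => y (ι i)) = fun y => area (y a) (y b) (y c) := rfl
  rw [h2] at h1
  rw [h1]
  have h3 : τ.o a b c = (τ.pull ι).o 0 1 2 := rfl
  rw [h3]
  rcases (τ.pull ι).three_cases with h | h
  · rw [h, muF_tplus hM, tplus_o]
    simp
  · rw [h]
    have h4 := muF_nat hM 3 3 (Equiv.swap (0 : Fin 3) 1).toEmbedding tplus
      (fun y => area (y 0) (y 1) (y 2)) (by norm_num) hI hP
    rw [← h4]
    have h5 : (fun y : Fin 3 → ℍ => (fun y : Fin 3 → ℍ => area (y 0) (y 1) (y 2))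
        fun i => y ((Equiv.swap (0 : Fin 3) 1).toEmbedding i)) =
        (-1 : ℝ) • fun y => area (y 0) (y 1) (y 2) := by
      funext y
      exact MA_area_swap (y 0) (y 1) (y 2)
    rw [h5, map_smul, muF_tplus hM]
    have h6 : (tplus.pull (Equiv.swap (0 : Fin 3) 1).toEmbedding).o 0 1 2 = -1 := by decide
    rw [h6]
    simp

theorem exists_means : ∃ μ : ∀ m, RTree m → ((Fin m → ℍ) → ℝ) →ₗ[ℝ] ℝ, Means μ := by
  obtain ⟨M, hM⟩ := exists_wmean
  refine ⟨muF M, ?_, ?_, ?_⟩
  · intro m τ φ C h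
    cases m with
    | zero =>
      show |(0 : ((Fin 0 → ℍ) → ℝ) →ₗ[ℝ] ℝ) φ| ≤ C
      rw [LinearMap.zero_apply, abs_zero]
      exact (abs_nonneg _).trans (h fun i => i.elim0)
    | succ m => exact MUf_bdd hM τ 0 (tree0 τ) φ C h
  · intro k m ι τ φ hk hI hb
    exact muF_nat hM k m ι τ φ hk hI hb
  · intro m τ a b c
    exact muF_area hM m τ a b c

end SimplVol
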