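import Pool.Agent.H54.RT.TW
import Pool.Agent.H54.RT.HH

/-!
# Module ME: systems of means, cocycles (definitions)
-/

set_option autoImplicit false

open scoped BigOperators UpperHalfPlane MatrixGroups

namespace SimplVol

/-- Invariance under `SL(2, ℝ)` of a function of tuples of points of the upper half plane. -/
def InvH {m : ℕ} (φ : (Fin m → ℍ) → ℝ) : Prop :=
  ∀ (g : SL(2, ℝ)) (y : Fin m → ℍ), φ (fun i => g • y i) = φ y

/-- A natural system of means on tuples of points of the upper half plane, indexed by ranked planar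
binary trees. -/
structure Means (μ : ∀ m, RTree m → ((Fin m → ℍ) → ℝ) →ₗ[ℝ] ℝ) : Prop where
  bdd : ∀ (m : ℕ) (τ : RTree m) (φ : (Fin m → ℍ) → ℝ) (C : ℝ), (∀ y, |φ y| ≤ C) → |μ m τ φ| ≤ C
  nat : ∀ (k m : ℕ) (ι : Fin k ↪ Fin m) (τ : RTree m) (φ : (Fin k → ℍ) → ℝ), 1 ≤ k → InvH φ →
    (∃ C, ∀ y, |φ y| ≤ C) → μ m τ (fun y => φ fun i => y (ι i)) = μ k (τ.pull ι) φ
  area : ∀ (m : ℕ) (τ : RTree m) (a b c : Fin m),
    μ m τ (fun y => area (y a) (y b) (y c)) = Real.pi * ((τ.o a b c : ℤ) : ℝ)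

/-- Bounded cocycles with `p` points, invariant under a set of maps. -/
structure Coc {Z : Type} (K : Set (Z → Z)) (p : ℕ) (F : List Z → ℝ) : Prop where
  supp : ∀ l, l.length ≠ p → F l = 0
  bdd : ∃ C, ∀ l, |F l| ≤ C
  inv : ∀ κ ∈ K, ∀ l, F (l.map κ) = F l
  coc : ∀ l, dd F l = 0

/-- The maps of `S × ℍ`. -/
def prodK {S : Type} (K : Set (S → S)) : Set (S × ℍ → S × ℍ) :=
  {f | ∃ κ ∈ K, f = Prod.map κ id} ∪ {f | ∃ g : SL(2, ℝ), f = Prod.map id fun z => g • z}

/-- The value of a function of trees on the restriction of a tree to a list of leaves. -/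
noncomputable def ev {S : Type} (g : List S → ∀ m, RTree m → ℝ) {M : ℕ} (τ : RTree M) (a : List S)
    (l : List (Fin M)) : ℝ :=
  if h : l.Nodup then g a l.length (τ.pull ⟨l.get, List.nodup_iff_injective_get.1 h⟩) else 0

/-- The function of trees given by a function of lists of points. -/
noncomputable def mg {S : Type} (μ : ∀ m, RTree m → ((Fin m → ℍ) → ℝ) →ₗ[ℝ] ℝ)
    (G : List S → List ℍ → ℝ) (a : List S) (m : ℕ) (τ : RTree m) : ℝ :=
  μ m τ fun y => G a (List.ofFn y)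

/-- The alternated shuffle map. -/
noncomputable def GG {S : Type} (F : List (S × ℍ) → ℝ) (a : List S) (b : List ℍ) : ℝ :=
  altL (ez F a) b

/-- The part of degree zero in the last factor. -/
noncomputable def G0 {S : Type} (μ : ∀ m, RTree m → ((Fin m → ℍ) → ℝ) →ₗ[ℝ] ℝ)
    (F : List (S × ℍ) → ℝ) (a : List S) : ℝ := mg μ (GG F) a 1 tone

/-- The part of degree two in the last factor. -/
noncomputable def G2 {S : Type} (μ : ∀ m, RTree m → ((Fin m → ℍ) → ℝ) →ₗ[ℝ] ℝ)
    (F : List (S × ℍ) → ℝ) (a : List S) : ℝ := mg μ (GG F) a 3 tplus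

end SimplVol
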