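import Pool.Agent.H54.RT.BD
import Pool.Agent.H54.RT.CG
import Pool.Agent.H54.RT.FL
import Pool.Agent.H54.RT.WJ

/-!
# Module PM: iterated means, permutations of the leaves and change of the root

* `JJ_perm`: `e = σ.toEmbedding`. `t'.mapL e` represents `τ`: `rep_mapL`: if `Rep (τ.pull e) t'` then `Rep τ (t'.mapL e)` (induction; `lv_mapL`; keys: `Key (τ.pull e) B → Key τ (B.map e)`: singletons, complements of singletons (`(B.map e)ᶜ = Bᶜ.map e` for a bijection), and if `spl B ∈ (τ.pull e).l` then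
  `spl B = resS e s` with `s ∈ τ.l`, so `s = spl (B.map e)` (evaluate at `σ a`)); its leaves are `{σ ρ'}ᶜ`, so it is `t` (`rep_unique`). `conf t (σ ρ') v (σ i) = conf t' ρ' (R v) i` with `R v s' = v (fun a b => s' (σ⁻¹ a) (σ⁻¹ b))` (`wd_eq_wf`, `wf_mapL`; `spl (B.map e) = fun a b => spl B (σ⁻¹ a) (σ⁻¹ b)`).
  `(FL τ π).map (resS e) = FL (τ.pull e) (π.map σ⁻¹)`: by `FL_pull` the right side is `(((FL τ π).map (resS e)).filter ntr).dedup` with `π.filterMap (partialInv e) = π.map σ⁻¹` (`Function.partialInv_left`-like: `partialInv e (σ a) = some a`), and nothing is dropped: `resS e` is injective,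
  `ntr (resS e s) = ntr s`. Then `JJ_map` with the map `resS e`.
* `JJ_root`: for fixed `v`, `conf t ρ v = g • conf t' ρ' v'` (`conf_root`), so `P (conf t ρ v) = P (conf t' ρ' v')` by invariance, and `JJ_rev` with `X x := x ρ ρ' = false`.
-/

set_option autoImplicit false

open scoped BigOperators UpperHalfPlane MatrixGroups

namespace SimplVol

theorem PM_key_map {m : ℕ} (τ : RTree m) (σ : Equiv.Perm (Fin m)) (B : Finset (Fin m))
    (h : Key (τ.pull σ.toEmbedding) B) : Key τ (B.map σ.toEmbedding) := by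
  rcases h with ⟨i, h⟩ | ⟨i, h⟩ | h
  · left
    exact ⟨σ i, by rw [h, Finset.map_singleton]; rfl⟩
  · right; left
    refine ⟨σ i, ?_⟩
    ext x
    rw [Finset.mem_compl, Finset.mem_map_equiv, ← Finset.mem_compl, h, Finset.mem_singleton,
      Finset.mem_singleton, Equiv.symm_apply_eq]
  · right; right
    have h1 : spl B ∈ ((τ.l.map (resS σ.toEmbedding)).filter fun s => decide (NT s)).dedup := h
    rw [List.mem_dedup, List.mem_filter, List.mem_map] at h1
    obtain ⟨⟨s, hs, hs2⟩, _⟩ := h1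
    have h2 : s = spl (B.map σ.toEmbedding) := by
      funext a b
      have h3 := congrFun (congrFun hs2 (σ.symm a)) (σ.symm b)
      have h4 : resS σ.toEmbedding s (σ.symm a) (σ.symm b) = s a b := by
        show s (σ (σ.symm a)) (σ (σ.symm b)) = s a b
        rw [Equiv.apply_symm_apply, Equiv.apply_symm_apply]
      rw [h4] at h3
      rw [h3]
      show decide (σ.symm a ∈ B ↔ σ.symm b ∈ B) = decide (a ∈ B.map σ.toEmbedding ↔ b ∈ B.map σ.toEmbedding)
      simp only [Finset.mem_map_equiv]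
    rw [← h2]
    exact hs

theorem PM_rep_mapL {m : ℕ} (τ : RTree m) (σ : Equiv.Perm (Fin m)) (t' : BT m)
    (h : Rep (τ.pull σ.toEmbedding) t') : Rep τ (t'.mapL σ.toEmbedding) := by
  induction t' with
  | leaf i => trivial
  | node x y hx hy =>
    obtain ⟨h1, h2, h3, h4, h5, h6⟩ := h
    refine ⟨?_, ?_, ?_, ?_, hx h5, hy h6⟩
    · rw [lv_mapL, lv_mapL, Finset.disjoint_map]
      exact h1
    · intro a ha b hb c hc hc'
      rw [lv_mapL, Finset.mem_map_equiv] at ha hb hc hc'
      have h7 := h2 _ ha _ hb _ hc hc'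
      have h8 : τ.o (σ (σ.symm c)) (σ (σ.symm a)) (σ (σ.symm b)) = 1 := h7
      rw [Equiv.apply_symm_apply, Equiv.apply_symm_apply, Equiv.apply_symm_apply] at h8
      exact h8
    · rw [lv_mapL]
      exact PM_key_map τ σ _ h3
    · rw [lv_mapL]
      exact PM_key_map τ σ _ h4

/-- The words of the relabelled divisions. -/
def PM_R {m : ℕ} (σ : Equiv.Perm (Fin m)) (v : Split m → Wd) (s : Split m) : Wd :=
  v fun a b => s (σ.symm a) (σ.symm b)

theorem PM_conf {m : ℕ} (σ : Equiv.Perm (Fin m)) (ρ' : Fin m) (t' : BT m) (v : Split m → Wd)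
    (i : Fin m) : conf (t'.mapL σ.toEmbedding) (σ ρ') v (σ i) = conf t' ρ' (PM_R σ v) i := by
  unfold conf
  by_cases h : i = ρ'
  · rw [if_pos h, if_pos (by rw [h])]
  · rw [if_neg h, if_neg (fun h2 => h (σ.injective h2))]
    have h1 : (t'.mapL σ.toEmbedding).wd v (σ i) = t'.wd (PM_R σ v) i := by
      rw [wd_eq_wf, wd_eq_wf]
      have h2 := wf_mapL σ.toEmbedding t' (fun B => v (spl B)) i
      refine Eq.trans h2 ?_
      congr 1
      funext B
      show v (spl (B.map σ.toEmbedding)) = v fun a b => spl B (σ.symm a) (σ.symm b)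
      congr 1
      funext a b
      show decide (a ∈ B.map σ.toEmbedding ↔ b ∈ B.map σ.toEmbedding) =
        decide (σ.symm a ∈ B ↔ σ.symm b ∈ B)
      simp only [Finset.mem_map_equiv]
    rw [h1]

theorem PM_ext_iff {m : ℕ} (σ : Equiv.Perm (Fin m)) (s s' : Split m) :
    (fun a b => s' (σ.symm a) (σ.symm b)) = s ↔ s' = resS σ.toEmbedding s := by
  constructor
  · intro h
    rw [← h]
    funext a b
    show s' a b = s' (σ.symm (σ a)) (σ.symm (σ b))
    rw [Equiv.symm_apply_apply, Equiv.symm_apply_apply]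
  · intro h
    rw [h]
    funext a b
    show s (σ (σ.symm a)) (σ (σ.symm b)) = s a b
    rw [Equiv.apply_symm_apply, Equiv.apply_symm_apply]

theorem PM_ntr {m : ℕ} (σ : Equiv.Perm (Fin m)) (s : Split m) :
    ntr (resS σ.toEmbedding s) = ntr s := by
  unfold ntr
  congr 1
  rw [decide_eq_decide]
  constructor
  · intro h a b
    have h1 : s (σ (σ.symm a)) (σ (σ.symm b)) = true := h (σ.symm a) (σ.symm b)
    rw [Equiv.apply_symm_apply, Equiv.apply_symm_apply] at h1
    exact h1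
  · intro h a b
    exact h _ _

theorem PM_FL {m : ℕ} (τ : RTree m) (σ : Equiv.Perm (Fin m)) (π : List (Fin m))
    (hπ : ∀ i, i ∈ π) :
    (FL τ π).map (resS σ.toEmbedding) = FL (τ.pull σ.toEmbedding) (π.map σ.symm) := by
  have h1 := FL_pull τ σ.toEmbedding π hπ
  have h2 : π.filterMap (Function.partialInv σ.toEmbedding) = π.map σ.symm := by
    rw [← List.filterMap_eq_map]
    congr 1
    funext b
    have h3 := Function.partialInv_left σ.injective (σ.symm b)
    rw [Equiv.apply_symm_apply] at h3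
    exact h3
  rw [h2] at h1
  rw [← h1]
  have h4 : ((FL τ π).map (resS σ.toEmbedding)).filter ntr = (FL τ π).map (resS σ.toEmbedding) := by
    rw [List.filter_eq_self]
    intro s hs
    rw [List.mem_map] at hs
    obtain ⟨s', hs', rfl⟩ := hs
    rw [PM_ntr]
    have h5 : s' ∈ ((τ.l ++ π.map fun i => spl {i}).filter ntr).dedup := hs'
    rw [List.mem_dedup, List.mem_filter] at h5
    exact h5.2
  rw [h4, List.Nodup.dedup]
  refine List.Nodup.map ?_ (FL_nodup τ π)
  intro s s' h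
  rw [← (PM_ext_iff σ s _).2 rfl, ← (PM_ext_iff σ s' _).2 rfl, h]

theorem JJ_perm {M : (Wd → ℝ) →ₗ[ℝ] ℝ} {m : ℕ} (τ : RTree m) (σ : Equiv.Perm (Fin m))
    (ρ' : Fin m) (t t' : BT m) (ht : Rep τ t) (hl : t.lv = {σ ρ'}ᶜ)
    (ht' : Rep (τ.pull σ.toEmbedding) t') (hl' : t'.lv = {ρ'}ᶜ)
    (π : List (Fin m)) (hπ : ∀ i, i ∈ π) (P : (Fin m → ℍ) → ℝ) :
    JJ M (FL τ π) (fun v => P fun i => conf t (σ ρ') v (σ i)) =
      JJ M (FL (τ.pull σ.toEmbedding) (π.map σ.symm)) (fun v => P (conf t' ρ' v)) := by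
  have h1 : t = t'.mapL σ.toEmbedding := by
    refine rep_unique τ (σ ρ') t _ ht (PM_rep_mapL τ σ t' ht') ?_ ?_
    · rw [hl, lv_mapL, hl']
      ext x
      rw [Finset.mem_map_equiv, Finset.mem_compl, Finset.mem_compl, Finset.mem_singleton,
        Finset.mem_singleton, Equiv.symm_apply_eq]
    · rw [hl, Finset.mem_compl, Finset.mem_singleton]
      exact fun h => h rfl
  rw [← PM_FL τ σ π hπ]
  have h2 : (fun v => P fun i => conf t (σ ρ') v (σ i)) =
      fun v => (fun w => P (conf t' ρ' w)) (PM_R σ v) := by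
    funext v
    show (P fun i => conf t (σ ρ') v (σ i)) = P (conf t' ρ' (PM_R σ v))
    congr 1
    funext i
    rw [h1, PM_conf]
  rw [h2]
  refine JJ_map (FL τ π) (resS σ.toEmbedding) (PM_R σ) rfl ?_ (fun w => P (conf t' ρ' w))
  intro v s _ u
  funext s'
  show Function.update v s u (fun a b => s' (σ.symm a) (σ.symm b)) =
    Function.update (PM_R σ v) (resS σ.toEmbedding s) u s'
  by_cases h : s' = resS σ.toEmbedding s
  · rw [(PM_ext_iff σ s s').2 h, h, Function.update_self, Function.update_self]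
  · rw [Function.update_of_ne h, Function.update_of_ne (fun h3 => h ((PM_ext_iff σ s s').1 h3))]
    rfl

theorem JJ_root {M : (Wd → ℝ) →ₗ[ℝ] ℝ} (hM : WMean M) {m : ℕ} (τ : RTree m) (ρ ρ' : Fin m)
    (t t' : BT m) (ht : Rep τ t) (hl : t.lv = {ρ}ᶜ) (ht' : Rep τ t') (hl' : t'.lv = {ρ'}ᶜ)
    (L : List (Split m)) (P : (Fin m → ℍ) → ℝ) (hI : ∀ (g : SL(2, ℝ)) y, P (fun i => g • y i) = P y)
    (hP : ∃ C, ∀ y, |P y| ≤ C) :
    JJ M L (fun v => P (conf t ρ v)) = JJ M L (fun v => P (conf t' ρ' v)) := by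
  obtain ⟨C, hC⟩ := hP
  rw [← JJ_rev hM L (fun x => x ρ ρ' = false) (fun v => P (conf t' ρ' v)) ⟨C, fun v => hC _⟩]
  congr 1
  funext v
  obtain ⟨g, hg⟩ := conf_root τ ρ ρ' t t' ht hl ht' hl' v
  rw [← hI g (conf t' ρ' fun x => if x ρ ρ' = false then rv (v x) else v x)]
  congr 1
  funext i
  exact hg i

end SimplVol
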