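import Pool.Agent.H54.RT.PX

/-!
# Module PY: successive sampling and merging

* `PE_merge`. General statement, by induction on `n`: for a finite set `I` of colours let `out I l = ((l.filterMap π).dedup).filter (· ∉ I)` and `col E = {b | ∃ e ∈ E, π e = some b}` (a finset: `E.biUnion`/`image`; here given as
  `(E.image π)` filtered), `w E b = ∑_{e ∈ E, π e = some b} ℓ e`. Then `PE ℓ |E| E (fun l => P (out I l)) = PE (w E) |col E \ I| (col E \ I) P`.
  Proof. `n = 0`: `E = ∅`: both are `P []`. Step: call `e ∈ E` ignored if `π e = none` or `π e ∈ I`. For ignored `e`: `out I (l ++ [e]) = out I l`, and `col (E \ e) \ I = col E \ I`, `w (E \ e) b = w E b` for `b ∉ I`, so by induction the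
  term is `(ℓ e / ℓ(E)) X` with `X = PE (w E) .. (col E \ I) P` (the weights matter only on `col E \ I`: `PE_weights`). If `π e = some b`, `b ∉ I`: `out I (l ++ [e]) = out (insert b I) l ++ [b]` (`dedup` keeps the last occurrence), so by induction
  (for `insert b I` and `P (· ++ [b])`) the term is `(ℓ e / ℓ(E)) PE (w E) .. (col E \ I \ {b}) (P (· ++ [b]))` (`col (E \ e) \ insert b I = (col E \ I) \ {b}`, weights of the other colours unchanged). Sum over `e` of colour `b`: `w E b / ℓ(E)`.
  If `col E \ I` is empty, all `e` are ignored, the sum is `X`. Else with `W = ∑_{b ∈ col E \ I} w E b`: the sum over the non-ignored `e` is `(W/ℓ(E)) X` by the recursion for `X`, the ignored ones contribute `((ℓ(E) - W)/ℓ(E)) X`. Take `I = ∅` at the end.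
-/

set_option autoImplicit false

open scoped BigOperators

namespace SimplVol

variable {A B : Type} [DecidableEq A] [DecidableEq B]

theorem py_dedup_append (L : List B) (b : B) :
    (L ++ [b]).dedup = L.dedup.filter (fun x => decide (x ≠ b)) ++ [b] := by
  induction L with
  | nil => simp
  | cons a L ih =>
    by_cases ha : a ∈ L
    · rw [List.cons_append, List.dedup_cons_of_mem (List.mem_append_left _ ha), ih,
        List.dedup_cons_of_mem ha]
    · by_cases hb : a = b
      · subst hb
        rw [List.cons_append, List.dedup_cons_of_mem (by simp), ih,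
          List.dedup_cons_of_notMem ha, List.filter_cons_of_neg (by simp)]
      · rw [List.cons_append, List.dedup_cons_of_notMem (by simp [ha, hb]), ih,
          List.dedup_cons_of_notMem ha, List.filter_cons_of_pos (by simp [hb]), List.cons_append]

/-- The colours of a list outside `I`. -/
def py_out (π : A → Option B) (I : Finset B) (l : List A) : List B :=
  ((l.filterMap π).dedup).filter (fun b => decide (b ∉ I))

omit [DecidableEq A] in
theorem py_out_ign {π : A → Option B} {I : Finset B} {e : A} (h : ∀ b, π e = some b → b ∈ I)
    (l : List A) : py_out π I (l ++ [e]) = py_out π I l := by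
  unfold py_out
  rw [List.filterMap_append]
  rcases hb : π e with _ | b
  · simp [hb]
  · have h1 : List.filterMap π [e] = [b] := by simp [hb]
    have h2 := h b hb
    rw [h1, py_dedup_append, List.filter_append, List.filter_filter]
    have h3 : List.filter (fun b => decide (b ∉ I)) [b] = [] := by simp [h2]
    rw [h3, List.append_nil]
    refine List.filter_congr fun x _ => ?_
    by_cases hx : x ∈ I
    · simp [hx]
    · have : x ≠ b := fun h => hx (h ▸ h2)
      simp [hx, this]

omit [DecidableEq A] in
theorem py_out_some {π : A → Option B} {I : Finset B} {e : A} {b : B} (hb : π e = some b)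
    (h2 : b ∉ I) (l : List A) : py_out π I (l ++ [e]) = py_out π (insert b I) l ++ [b] := by
  unfold py_out
  rw [List.filterMap_append]
  have h1 : List.filterMap π [e] = [b] := by simp [hb]
  rw [h1, py_dedup_append, List.filter_append, List.filter_filter]
  have h3 : List.filter (fun b => decide (b ∉ I)) [b] = [b] := by simp [h2]
  rw [h3]
  congr 1
  refine List.filter_congr fun x _ => ?_
  by_cases hx : x = b
  · simp [hx]
  · simp [hx]

theorem py_main (w : A → ℝ) (π : A → Option B) (n : ℕ) : ∀ (E : Finset A) (I E' : Finset B)
    (P : List B → ℝ), E.card = n → (∀ e ∈ E, 0 < w e) →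
    (∀ b, b ∈ E' ↔ b ∉ I ∧ ∃ e ∈ E, π e = some b) →
    PE w n E (fun l => P (py_out π I l)) =
      PE (fun b => ∑ e ∈ E.filter fun e => π e = some b, w e) E'.card E' P := by
  induction n with
  | zero =>
    intro E I E' P hE hw hE'
    have h1 : E = ∅ := Finset.card_eq_zero.1 hE
    subst h1
    have h2 : E' = ∅ := by
      refine Finset.eq_empty_of_forall_notMem fun b hb => ?_
      obtain ⟨_, e, he, _⟩ := (hE' b).1 hb
      exact absurd he (Finset.notMem_empty e)
    subst h2
    rfl
  | succ n ih =>
    intro E I E' P hE hw hE'
    set wc : B → ℝ := fun b => ∑ e ∈ E.filter fun e => π e = some b, w e with hwc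
    set X : ℝ := PE wc E'.card E' P with hX
    have hY : ∃ Y : B → ℝ, ∀ b, Y b = PE wc (E'.erase b).card (E'.erase b) fun l => P (l ++ [b]) :=
      ⟨_, fun _ => rfl⟩
    obtain ⟨Y, hY⟩ := hY
    have hcard : ∀ e ∈ E, (E.erase e).card = n := by
      intro e he
      rw [Finset.card_erase_of_mem he, hE]
      rfl
    have hne : E.Nonempty := Finset.card_pos.1 (by omega)
    have hW : 0 < ∑ a ∈ E, w a := Finset.sum_pos hw hne
    have hfil : ∀ e b, π e ≠ some b →
        ((E.erase e).filter fun e => π e = some b) = E.filter fun e => π e = some b := by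
      intro e b h
      ext a
      rw [Finset.mem_filter, Finset.mem_filter, Finset.mem_erase]
      constructor
      · rintro ⟨⟨_, h1⟩, h2⟩
        exact ⟨h1, h2⟩
      · rintro ⟨h1, h2⟩
        exact ⟨⟨fun h3 => h (h3 ▸ h2), h1⟩, h2⟩
    have hZ : ∀ e ∈ E, (PE w n (E.erase e) fun l => P (py_out π I (l ++ [e]))) =
        X + ∑ b ∈ E', if π e = some b then Y b - X else 0 := by
      intro e he
      by_cases hig : ∀ b, π e = some b → b ∈ I
      · have h1 : ∀ l, P (py_out π I (l ++ [e])) = P (py_out π I l) := fun l => by
          rw [py_out_ign hig]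
        simp only [h1]
        have hnot : ∀ b ∈ E', π e ≠ some b := fun b hb h => ((hE' b).1 hb).1 (hig b h)
        rw [ih (E.erase e) I E' P (hcard e he) (fun a ha => hw a (Finset.mem_of_mem_erase ha)) ?_]
        · rw [Finset.sum_eq_zero fun b hb => if_neg (hnot b hb), add_zero]
          refine PE_weights _ _ _ _ (fun b hb => ?_) _
          show ∑ e ∈ (E.erase e).filter fun e => π e = some b, w e = wc b
          rw [hfil e b (hnot b hb)]
        · intro b
          rw [hE' b]
          constructor
          · rintro ⟨hbI, a, ha, hab⟩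
            refine ⟨hbI, a, Finset.mem_erase.2 ⟨?_, ha⟩, hab⟩
            rintro rfl
            exact hbI (hig b hab)
          · rintro ⟨h1, a, ha, hab⟩
            exact ⟨h1, a, Finset.mem_of_mem_erase ha, hab⟩
      · push Not at hig
        obtain ⟨b, hb, hbI⟩ := hig
        have hbE : b ∈ E' := (hE' b).2 ⟨hbI, e, he, hb⟩
        have h1 : ∀ l, P (py_out π I (l ++ [e])) =
            (fun l => P (l ++ [b])) (py_out π (insert b I) l) := fun l => by
          rw [py_out_some hb hbI]
        simp only [h1]
        rw [ih (E.erase e) (insert b I) (E'.erase b) (fun l => P (l ++ [b])) (hcard e he)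
          (fun a ha => hw a (Finset.mem_of_mem_erase ha)) ?_]
        · have h2 : ∑ c ∈ E', (if π e = some c then Y c - X else 0) = Y b - X := by
            rw [Finset.sum_eq_single b, if_pos hb]
            · intro c _ hc
              rw [if_neg]
              intro h
              rw [hb] at h
              exact hc (Option.some.inj h).symm
            · intro h
              exact absurd hbE h
          rw [h2, hY b, add_sub_cancel]
          refine PE_weights _ _ _ _ (fun c hc => ?_) _
          show ∑ e ∈ (E.erase e).filter fun e => π e = some c, w e = wc c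
          rw [hfil e c ?_]
          intro h
          rw [hb] at h
          exact (Finset.mem_erase.1 hc).1 (Option.some.inj h).symm
        · intro c
          rw [Finset.mem_erase, hE' c, Finset.mem_insert]
          constructor
          · rintro ⟨hcb, h2, a, ha, hac⟩
            refine ⟨fun h => h.elim hcb h2, a, Finset.mem_erase.2 ⟨?_, ha⟩, hac⟩
            rintro rfl
            rw [hb] at hac
            exact hcb (Option.some.inj hac).symm
          · rintro ⟨h1, a, ha, hac⟩
            exact ⟨fun h => h1 (Or.inl h), fun h => h1 (Or.inr h), a, Finset.mem_of_mem_erase ha,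
              hac⟩
    rw [PE_succ]
    have hsum : ∑ e ∈ E, (w e / ∑ a ∈ E, w a) *
        (PE w n (E.erase e) fun l => P (py_out π I (l ++ [e]))) =
        (∑ e ∈ E, w e * (X + ∑ b ∈ E', if π e = some b then Y b - X else 0)) / ∑ a ∈ E, w a := by
      rw [Finset.sum_div]
      refine Finset.sum_congr rfl fun e he => ?_
      rw [hZ e he]
      ring
    rw [hsum]
    have h3 : ∑ e ∈ E, w e * (X + ∑ b ∈ E', if π e = some b then Y b - X else 0) =
        (∑ a ∈ E, w a) * X + ∑ b ∈ E', wc b * (Y b - X) := by
      simp only [mul_add, Finset.sum_add_distrib, Finset.mul_sum]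
      rw [Finset.sum_mul, Finset.sum_comm]
      congr 1
      refine Finset.sum_congr rfl fun b _ => ?_
      rw [hwc, Finset.sum_mul, Finset.sum_filter]
      refine Finset.sum_congr rfl fun e _ => ?_
      split_ifs <;> simp
    have h4 : ∑ b ∈ E', wc b * (Y b - X) = 0 := by
      rcases Nat.eq_zero_or_pos E'.card with h0 | h0
      · rw [Finset.card_eq_zero.1 h0, Finset.sum_empty]
      · obtain ⟨k, hk⟩ : ∃ k, E'.card = k + 1 := ⟨E'.card - 1, by omega⟩
        have hpos : ∀ b ∈ E', 0 < wc b := by
          intro b hb
          obtain ⟨_, e, he, heb⟩ := (hE' b).1 hb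
          exact Finset.sum_pos (fun a ha => hw a (Finset.mem_filter.1 ha).1)
            ⟨e, Finset.mem_filter.2 ⟨he, heb⟩⟩
        have hW' : 0 < ∑ b ∈ E', wc b := Finset.sum_pos hpos (Finset.card_pos.1 h0)
        have h5 : X = ∑ b ∈ E', (wc b / ∑ a ∈ E', wc a) * Y b := by
          rw [hX, hk, PE_succ]
          refine Finset.sum_congr rfl fun b hb => ?_
          rw [hY b, Finset.card_erase_of_mem hb, hk]
          rfl
        have h6 : (∑ b ∈ E', wc b) * X = ∑ b ∈ E', wc b * Y b := by
          rw [h5, Finset.mul_sum]
          refine Finset.sum_congr rfl fun b _ => ?_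
          rw [← mul_assoc, mul_div_cancel₀ _ hW'.ne']
        simp only [mul_sub, Finset.sum_sub_distrib]
        rw [← h6, Finset.sum_mul, sub_self]
    rw [h3, h4, add_zero, mul_div_cancel_left₀ _ hW.ne']

/-- Merging: the order of the last occurrences of the colours. -/
theorem PE_merge (w : A → ℝ) (E : Finset A) (hw : ∀ e ∈ E, 0 < w e) (π : A → Option B)
    (E' : Finset B) (hE' : ∀ b, b ∈ E' ↔ ∃ e ∈ E, π e = some b) (P : List B → ℝ) :
    PE w E.card E (fun l => P (l.filterMap π).dedup) =
      PE (fun b => ∑ e ∈ E.filter fun e => π e = some b, w e) E'.card E' P := by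
  rw [← py_main w π E.card E ∅ E' P rfl hw fun b => by
    rw [hE' b]
    simp]
  congr 1
  funext l
  unfold py_out
  congr 1
  symm
  refine List.filter_eq_self.2 fun b _ => ?_
  simp

end SimplVol
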