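import Pool.Agent.H54.RT.ME
import Pool.Agent.H54.RT.DE
import Pool.Agent.H54.RT.PM
import Pool.Agent.H54.RT.PY

/-!
# Module MU: the system of means

`MUf M τ ρ t P`: average over the orders `π` of the leaf edges (`PE` with equal weights) of the iterated mean of `P` at the configuration of `t` with root `ρ`.
* `MUf_add`, `MUf_smul`, `MUf_bdd`: `PE_add`, `JJ_add`, ... (`JJ_bdd`, `PE_bdd`).
* `MUf_root`: `PE_congr` and `JJ_root`. (For `m = 1` both configurations are constant.)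
* `MUf_perm`: `PE_congr`: for every ordering `π` (contains all leaves, as `π.toFinset = univ`), `JJ_perm`; then `PE_map` with `e = σ.symm.toEmbedding` (`univ.map e = univ`), weights `1`.
* `MUf_del`: `JJ_del` for every ordering `π` of `Fin (k+1)`; then `PE_merge` with `π := partialInv (Fin.succAboveEmb c) : Fin (k+1) → Option (Fin k)` (`Function.partialInv_of_injective`), `E' = univ`; the lists `l.filterMap _` have no repetition (so `dedup` does nothing); the weights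
  `∑_{e, pinv e = some b} 1 = 1` (`PE_weights`).
-/

set_option autoImplicit false

open scoped BigOperators UpperHalfPlane MatrixGroups

namespace SimplVol

variable {M : (Wd → ℝ) →ₗ[ℝ] ℝ}

/-- The mean for a given root. -/
noncomputable def MUf (M : (Wd → ℝ) →ₗ[ℝ] ℝ) {m : ℕ} (τ : RTree m) (ρ : Fin m) (t : BT m)
    (P : (Fin m → ℍ) → ℝ) : ℝ :=
  PE (fun _ => (1 : ℝ)) (Finset.univ : Finset (Fin m)).card Finset.univ fun π =>
    JJ M (FL τ π) fun v => P (conf t ρ v)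

theorem MUf_add {m : ℕ} (τ : RTree m) (ρ : Fin m) (t : BT m) (P Q : (Fin m → ℍ) → ℝ) :
    MUf M τ ρ t (P + Q) = MUf M τ ρ t P + MUf M τ ρ t Q := by
  unfold MUf
  rw [← PE_add]
  congr 1
  funext π
  exact JJ_add (FL τ π) (fun v => P (conf t ρ v)) (fun v => Q (conf t ρ v))

theorem MUf_smul {m : ℕ} (τ : RTree m) (ρ : Fin m) (t : BT m) (c : ℝ) (P : (Fin m → ℍ) → ℝ) :
    MUf M τ ρ t (c • P) = c • MUf M τ ρ t P := by
  unfold MUf
  rw [smul_eq_mul, ← PE_smul]
  congr 1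
  funext π
  exact JJ_smul (FL τ π) c (fun v => P (conf t ρ v))

theorem MUf_bdd (hM : WMean M) {m : ℕ} (τ : RTree m) (ρ : Fin m) (t : BT m)
    (P : (Fin m → ℍ) → ℝ) (C : ℝ) (h : ∀ y, |P y| ≤ C) : |MUf M τ ρ t P| ≤ C :=
  PE_bdd _ _ (fun _ _ => one_pos) _ C fun π _ _ =>
    JJ_bdd hM (FL τ π) (fun v => P (conf t ρ v)) C fun v => h _

theorem MU_all {m : ℕ} {π : List (Fin m)} (h : π.toFinset = Finset.univ) (i : Fin m) : i ∈ π := by
  rw [← List.mem_toFinset, h]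
  exact Finset.mem_univ i

theorem MUf_root (hM : WMean M) {m : ℕ} (hm : 2 ≤ m) (τ : RTree m) (ρ ρ' : Fin m) (t t' : BT m)
    (ht : Rep τ t) (hl : t.lv = {ρ}ᶜ) (ht' : Rep τ t') (hl' : t'.lv = {ρ'}ᶜ)
    (P : (Fin m → ℍ) → ℝ) (hI : InvH P) (hP : ∃ C, ∀ y, |P y| ≤ C) :
    MUf M τ ρ t P = MUf M τ ρ' t' P :=
  PE_congr _ _ _ _ fun π _ _ => JJ_root hM τ ρ ρ' t t' ht hl ht' hl' (FL τ π) P hI hP

theorem MUf_perm {m : ℕ} (τ : RTree m) (σ : Equiv.Perm (Fin m)) (ρ' : Fin m) (t t' : BT m)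
    (ht : Rep τ t) (hl : t.lv = {σ ρ'}ᶜ) (ht' : Rep (τ.pull σ.toEmbedding) t')
    (hl' : t'.lv = {ρ'}ᶜ) (P : (Fin m → ℍ) → ℝ) :
    MUf M τ (σ ρ') t (fun y => P fun i => y (σ i)) =
      MUf M (τ.pull σ.toEmbedding) ρ' t' P := by
  have h1 : MUf M τ (σ ρ') t (fun y => P fun i => y (σ i)) =
      PE (fun _ => (1 : ℝ)) (Finset.univ : Finset (Fin m)).card Finset.univ fun π =>
        JJ M (FL (τ.pull σ.toEmbedding) (π.map σ.symm)) (fun v => P (conf t' ρ' v)) :=
    PE_congr _ _ _ _ fun π _ hπ => JJ_perm τ σ ρ' t t' ht hl ht' hl' π (MU_all hπ) P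
  rw [h1]
  have h2 := PE_map (fun _ : Fin m => (1 : ℝ)) Finset.univ σ.symm.toEmbedding fun π =>
    JJ M (FL (τ.pull σ.toEmbedding) π) (fun v => P (conf t' ρ' v))
  rw [Finset.map_univ_equiv] at h2
  exact h2.symm

theorem MUf_del (hM : WMean M) {k : ℕ} (hk : 1 ≤ k) (τ : RTree (k + 1)) (c ρ : Fin (k + 1))
    (hc : c ≠ ρ) (ρ' : Fin k) (hρ : c.succAbove ρ' = ρ) (t : BT (k + 1)) (ht : Rep τ t)
    (hl : t.lv = {ρ}ᶜ) (t' : BT k)
    (ht' : 2 ≤ k → Rep (τ.pull (Fin.succAboveEmb c)) t' ∧ t'.lv = {ρ'}ᶜ)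
    (P : (Fin k → ℍ) → ℝ) (hP : ∃ C, ∀ y, |P y| ≤ C) :
    MUf M τ ρ t (fun y => P fun i => y (c.succAbove i)) =
      MUf M (τ.pull (Fin.succAboveEmb c)) ρ' t' P := by
  set pinv : Fin (k + 1) → Option (Fin k) := Function.partialInv (Fin.succAboveEmb c) with hpinv
  have hp : ∀ (e : Fin (k + 1)) (b : Fin k), pinv e = some b ↔ Fin.succAboveEmb c b = e :=
    fun e b => Function.partialInv_of_injective (Fin.succAboveEmb c).injective b e
  have h1 : MUf M τ ρ t (fun y => P fun i => y (c.succAbove i)) =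
      PE (fun _ => (1 : ℝ)) (Finset.univ : Finset (Fin (k + 1))).card Finset.univ fun π =>
        JJ M (FL (τ.pull (Fin.succAboveEmb c)) (π.filterMap pinv).dedup)
          (fun v => P (conf t' ρ' v)) := by
    refine PE_congr _ _ _ _ fun π hn hπ => ?_
    have h2 : (π.filterMap pinv).Nodup := by
      refine List.Nodup.filterMap (fun a a' b hb hb' => ?_) hn
      rw [Option.mem_def, hp] at hb hb'
      rw [← hb, ← hb']
    rw [h2.dedup]
    exact JJ_del hM hk τ c ρ hc ρ' hρ t ht hl t' ht' π (MU_all hπ) P hP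
  rw [h1, PE_merge (fun _ => (1 : ℝ)) Finset.univ (fun _ _ => one_pos) pinv Finset.univ
    (fun b => ⟨fun _ => ⟨Fin.succAboveEmb c b, Finset.mem_univ _, (hp _ _).2 rfl⟩,
      fun _ => Finset.mem_univ _⟩)
    (fun π => JJ M (FL (τ.pull (Fin.succAboveEmb c)) π) (fun v => P (conf t' ρ' v)))]
  refine PE_weights _ _ _ _ (fun b _ => ?_) _
  have h3 : (Finset.univ.filter fun e => pinv e = some b) = {Fin.succAboveEmb c b} := by
    ext e
    rw [Finset.mem_filter, Finset.mem_singleton, hp]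
    exact ⟨fun h => h.2.symm, fun h => ⟨Finset.mem_univ _, h.symm⟩⟩
  rw [h3, Finset.sum_singleton]

end SimplVol
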