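import Pool.Agent.H54.RT.MU

/-!
# Module MV: the system of means, naturality

* `muF`: root `0`, a tree chosen by `exists_rep`. `muF_nat`: induction on `m` (for all `k`, `ι`). If `k = m`: `ι` is bijective (`Finite.injective_iff_bijective`), `ι = σ.toEmbedding` (`Equiv.ofBijective`); `m = 1`: `σ = 1`. Else `MUf_root` to the root `σ 0` and `MUf_perm` with `ρ' = 0`.
  If `k < m`: `m = m' + 1`, some `c` is not in the range of `ι` (cardinality), `ι = ι'.trans (Fin.succAboveEmb c)` (`Fin.exists_succAbove_eq`), `ρ = ι 0 ≠ c`, `ρ' = ι' 0`; `MUf_root` from `0` to `ρ`, then `MUf_del` for the function `y' ↦ P (y' ∘ ι')` (bounded), with `t'` a tree for root `ρ'`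
  (`exists_rep` if `m' ≥ 2`), then `MUf_root` from `ρ'` to `0`, then the induction hypothesis, `pull_trans`.
-/

set_option autoImplicit false

open scoped BigOperators UpperHalfPlane MatrixGroups

namespace SimplVol

variable {M : (Wd → ℝ) →ₗ[ℝ] ℝ}

/-- The chosen tree with root `0`. -/
noncomputable def tree0 {m : ℕ} (τ : RTree (m + 1)) : BT (m + 1) :=
  if h : 2 ≤ m + 1 then (exists_rep h τ 0).choose else .leaf 0

/-- The system of means. -/
noncomputable def muF (M : (Wd → ℝ) →ₗ[ℝ] ℝ) : ∀ m, RTree m → ((Fin m → ℍ) → ℝ) →ₗ[ℝ] ℝ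
  | 0, _ => 0
  | _ + 1, τ =>
    { toFun := fun P => MUf M τ 0 (tree0 τ) P
      map_add' := MUf_add τ 0 (tree0 τ)
      map_smul' := MUf_smul τ 0 (tree0 τ) }

theorem MV_apply (M : (Wd → ℝ) →ₗ[ℝ] ℝ) {m : ℕ} (τ : RTree (m + 1))
    (P : (Fin (m + 1) → ℍ) → ℝ) : muF M (m + 1) τ P = MUf M τ 0 (tree0 τ) P := rfl

theorem MV_tree {m : ℕ} (h : 2 ≤ m + 1) (τ : RTree (m + 1)) :
    Rep τ (tree0 τ) ∧ (tree0 τ).lv = {0}ᶜ := by
  have h1 : tree0 τ = (exists_rep h τ 0).choose := dif_pos h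
  rw [h1]
  exact ⟨(exists_rep h τ 0).choose_spec.2, (exists_rep h τ 0).choose_spec.1⟩

/-- the mean does not depend on the root -/
theorem MV_root (hM : WMean M) {m : ℕ} (h : 2 ≤ m + 1) (τ : RTree (m + 1)) (ρ : Fin (m + 1))
    (t : BT (m + 1)) (ht : Rep τ t) (hl : t.lv = {ρ}ᶜ) (P : (Fin (m + 1) → ℍ) → ℝ) (hI : InvH P)
    (hP : ∃ C, ∀ y, |P y| ≤ C) : muF M (m + 1) τ P = MUf M τ ρ t P := by
  rw [MV_apply]
  exact MUf_root hM h τ 0 ρ _ t (MV_tree h τ).1 (MV_tree h τ).2 ht hl P hI hP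

theorem MV_inv {k m : ℕ} (ι : Fin k → Fin m) (P : (Fin k → ℍ) → ℝ) (hI : InvH P) :
    InvH (fun y : Fin m → ℍ => P fun i => y (ι i)) := by
  intro g y
  exact hI g fun i => y (ι i)

theorem MV_bdd {k m : ℕ} (ι : Fin k → Fin m) (P : (Fin k → ℍ) → ℝ) (hP : ∃ C, ∀ y, |P y| ≤ C) :
    ∃ C, ∀ y : Fin m → ℍ, |P fun i => y (ι i)| ≤ C := by
  obtain ⟨C, hC⟩ := hP
  exact ⟨C, fun y => hC _⟩

theorem MV_perm (hM : WMean M) (m : ℕ) (σ : Equiv.Perm (Fin m)) (τ : RTree m)
    (P : (Fin m → ℍ) → ℝ) (hk : 1 ≤ m) (hI : InvH P) (hP : ∃ C, ∀ y, |P y| ≤ C) :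
    muF M m τ (fun y => P fun i => y (σ i)) = muF M m (τ.pull σ.toEmbedding) P := by
  obtain ⟨m, rfl⟩ : ∃ m', m = m' + 1 := ⟨m - 1, by omega⟩
  by_cases h : 2 ≤ m + 1
  · obtain ⟨t, hl, ht⟩ := exists_rep h τ (σ 0)
    rw [MV_root hM h τ (σ 0) t ht hl _ (MV_inv σ P hI) (MV_bdd σ P hP), MV_apply]
    exact MUf_perm τ σ 0 t _ ht hl (MV_tree h _).1 (MV_tree h _).2 P
  · have hm : m = 0 := by omega
    subst hm
    have hσ : σ = 1 := by
      apply Equiv.ext
      intro i
      exact Subsingleton.elim (α := Fin 1) _ _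
    subst hσ
    have h1 : (1 : Equiv.Perm (Fin (0 + 1))).toEmbedding = Function.Embedding.refl _ := by
      ext i
      rfl
    rw [h1, RTree.pull_refl]
    rfl

theorem MV_del (hM : WMean M) {k : ℕ} (hk : 1 ≤ k) (τ : RTree (k + 1)) (c : Fin (k + 1))
    (P : (Fin k → ℍ) → ℝ) (hI : InvH P) (hP : ∃ C, ∀ y, |P y| ≤ C) :
    muF M (k + 1) τ (fun y => P fun i => y (c.succAbove i)) =
      muF M k (τ.pull (Fin.succAboveEmb c)) P := by
  obtain ⟨k, rfl⟩ : ∃ k', k = k' + 1 := ⟨k - 1, by omega⟩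
  have h2 : 2 ≤ k + 1 + 1 := by omega
  obtain ⟨t, hl, ht⟩ := exists_rep h2 τ (c.succAbove 0)
  rw [MV_root hM h2 τ (c.succAbove 0) t ht hl _ (MV_inv c.succAbove P hI)
    (MV_bdd c.succAbove P hP), MV_apply]
  refine MUf_del hM hk τ c (c.succAbove 0) (Fin.succAbove_ne c 0).symm 0 rfl t ht hl _ ?_ P hP
  intro h
  exact MV_tree h _

theorem muF_nat (hM : WMean M) (k m : ℕ) (ι : Fin k ↪ Fin m) (τ : RTree m)
    (P : (Fin k → ℍ) → ℝ) (hk : 1 ≤ k) (hI : InvH P) (hP : ∃ C, ∀ y, |P y| ≤ C) :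
    muF M m τ (fun y => P fun i => y (ι i)) = muF M k (τ.pull ι) P := by
  induction m with
  | zero => exact (ι ⟨0, hk⟩).elim0
  | succ m ih =>
    have hle : k ≤ m + 1 := by
      have := Fintype.card_le_of_embedding ι
      simpa using this
    rcases Nat.eq_or_lt_of_le hle with h | h
    · subst h
      have hb : Function.Bijective ι := Finite.injective_iff_bijective.1 ι.injective
      have h1 : ι = (Equiv.ofBijective ι hb).toEmbedding := by
        ext i
        rfl
      have h2 := MV_perm hM (m + 1) (Equiv.ofBijective ι hb) τ P hk hI hP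
      rw [← h1] at h2
      exact h2
    · obtain ⟨c, hc⟩ : ∃ c : Fin (m + 1), ∀ i, ι i ≠ c := by
        by_contra hcon
        push Not at hcon
        have hs : Function.Surjective ι := hcon
        have := Fintype.card_le_of_surjective ι hs
        simp at this
        omega
      choose f hf using fun i => Fin.exists_succAbove_eq (hc i)
      have hfi : Function.Injective f := by
        intro a b hab
        apply ι.injective
        rw [← hf a, ← hf b, hab]
      have h1 : ι = (⟨f, hfi⟩ : Fin k ↪ Fin m).trans (Fin.succAboveEmb c) := by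
        ext i
        show ((ι i : Fin (m + 1)) : ℕ) = (c.succAbove (f i) : Fin (m + 1))
        rw [hf i]
      have hm : 1 ≤ m := by omega
      have h2 := MV_del hM hm τ c (fun y => P fun i => y (f i)) (MV_inv f P hI) (MV_bdd f P hP)
      have h3 := ih ⟨f, hfi⟩ (τ.pull (Fin.succAboveEmb c))
      rw [RTree.pull_trans, ← h1] at h3
      have h4 : (fun y : Fin (m + 1) → ℍ => P fun i => y (ι i)) =
          fun y => P fun i => y (c.succAbove (f i)) := by
        funext y
        congr 1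
        funext i
        rw [hf i]
      rw [h4]
      exact h2.trans h3

end SimplVol
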