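import Pool.Agent.H54.RT.EX
import Pool.Agent.H74.SV.AR

/-!
# Module UP: the upper bound from the means

`hμ : Means μ`, `F = C vol + dB` with `|F| ≤ 1`, `F`, `B` invariant, `n ≥ 1`. Let `F' x = F x - C vol n x = ∑_i (-1)^i B (x ∘ i.succAbove)`.
* list functions: `Bl : List (Fin n → ℍ) → ℝ`, `Bl l = if h : l.length = n * 2 then B (fun i => l.get (i.cast h.symm)) else 0`. So `Bl (List.ofFn x) = B x`, `Bl [] = 0` as `n * 2 ≠ 0`; `Bl (l.map κ) = Bl l` for `κ = fun z j => g j • z j`. `Fl = dd Bl`: `Fl (List.ofFn x) = F' x` (`dd_ofFn` in module LD), `Fl l = 0` if `l.length ≠ n * 2 + 1` (`dd_congr` with `0`, `dd_zero`).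
* `Coc (KK n) (n * 2 + 1) Fl`: `supp` as said; `bdd`: `|F' x| ≤ 1 + |C| |vol|`, `|vol n x| ≤ π^n` (each area is at most `π` in absolute value: `abs_area_lt` in `Pool/Agent/H74/SV/AR.lean`; the average over permutations: `(1/(2n)!) * (2n)! * π^n`); `inv`: `dd_map` and the invariance of `Bl`; `coc`: `dd_dd`.
* `ZZ n Fl`: `ZZ_exact`. `ex_Z` gives `b₀` with `MM μ n (n*2+1) F' τ = ∑_i (-1)^i b₀ (..)`.
* `MM μ n _ F τ = C * MM (vol n) τ + MM F' τ = C π^n treeVol n τ + ∑_i (-1)^i b₀ ..` (`MM_add`, `MM_smul`, `MMn_vol`), and it is at most `1` in absolute value (`MM_bdd`).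
-/

set_option autoImplicit false

open scoped BigOperators UpperHalfPlane MatrixGroups

namespace SimplVol

/-- The function of lists given by a function of tuples. -/
noncomputable def UP_l {Z : Type} {k : ℕ} (B : (Fin k → Z) → ℝ) (l : List Z) : ℝ :=
  if h : l.length = k then B (fun i => l.get (i.cast h.symm)) else 0

theorem UP_l_ne {Z : Type} {k : ℕ} (B : (Fin k → Z) → ℝ) (l : List Z) (h : l.length ≠ k) :
    UP_l B l = 0 := dif_neg h

theorem UP_l_ofFn {Z : Type} {k : ℕ} (B : (Fin k → Z) → ℝ) (x : Fin k → Z) :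
    UP_l B (List.ofFn x) = B x := by
  unfold UP_l
  rw [dif_pos (List.length_ofFn)]
  congr 1
  funext i
  simp

theorem UP_ex {Z : Type} {k : ℕ} (l : List Z) (h : l.length = k) :
    ∃ x : Fin k → Z, l = List.ofFn x := by
  subst h
  exact ⟨l.get, (List.ofFn_get l).symm⟩

theorem UP_l_map {Z : Type} {k : ℕ} (B : (Fin k → Z) → ℝ) (κ : Z → Z)
    (hB : ∀ x : Fin k → Z, B (fun i => κ (x i)) = B x) (l : List Z) :
    UP_l B (l.map κ) = UP_l B l := by
  by_cases h : l.length = k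
  · obtain ⟨x, rfl⟩ := UP_ex l h
    rw [List.map_ofFn, UP_l_ofFn, UP_l_ofFn]
    exact hB x
  · rw [UP_l_ne B l h, UP_l_ne B _ (by rwa [List.length_map])]

theorem UP_dd {n k : ℕ} (B : (Fin k → Fin n → ℍ) → ℝ) (x : Fin (k + 1) → Fin n → ℍ) :
    dd (UP_l B) (List.ofFn x) =
      ∑ i : Fin (k + 1), (-1 : ℝ) ^ (i : ℕ) * B fun l => x (i.succAbove l) := by
  rw [dd_ofFn]
  refine Finset.sum_congr rfl fun i _ => ?_
  rw [UP_l_ofFn]

theorem UP_vol {n : ℕ} (x : Fin (n * 2 + 1) → Fin n → ℍ) :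
    |vol n x| ≤ (1 / ((n * 2).factorial : ℝ)) *
      ∑ _σ : Equiv.Perm (Fin (n * 2)), ∏ _j : Fin n, Real.pi := by
  unfold vol
  rw [abs_mul, abs_of_nonneg (by positivity : (0 : ℝ) ≤ 1 / ((n * 2).factorial : ℝ))]
  refine mul_le_mul_of_nonneg_left ?_ (by positivity)
  refine (Finset.abs_sum_le_sum_abs _ _).trans (Finset.sum_le_sum fun σ _ => ?_)
  have h1 : |((Equiv.Perm.sign σ : ℤ) : ℝ)| = 1 := by
    rcases Int.units_eq_one_or (Equiv.Perm.sign σ) with h | h <;> simp [h]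
  rw [abs_mul, h1, one_mul, Finset.abs_prod]
  exact Finset.prod_le_prod (fun _ _ => abs_nonneg _) fun j _ => (abs_area_lt _ _ _).le

theorem upper {μ : ∀ m, RTree m → ((Fin m → ℍ) → ℝ) →ₗ[ℝ] ℝ} (hμ : Means μ) {n : ℕ} (hn : 1 ≤ n)
    (C : ℝ) (F : (Fin (n * 2 + 1) → Fin n → ℍ) → ℝ) (B : (Fin (n * 2) → Fin n → ℍ) → ℝ)
    (hF : ∀ x, |F x| ≤ 1) (hB : InvN B)
    (h : ∀ x, F x = C * vol n x +
      ∑ i : Fin (n * 2 + 1), (-1 : ℝ) ^ (i : ℕ) * B fun l => x (i.succAbove l)) :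
    ∃ b : (Fin n → RTree (n * 2)) → ℝ, ∀ τ : Fin n → RTree (n * 2 + 1),
      |C * (Real.pi ^ n * treeVol n τ) + ∑ i : Fin (n * 2 + 1), (-1 : ℝ) ^ (i : ℕ) *
        b fun j => (τ j).pull (Fin.succAboveEmb i)| ≤ 1 := by
  have hmap : ∀ (g : Fin n → SL(2, ℝ)) (l : List (Fin n → ℍ)),
      UP_l B (l.map fun z j => g j • z j) = UP_l B l := fun g l =>
    UP_l_map B _ (fun x => hB g x) l
  have hdd : ∀ x : Fin (n * 2 + 1) → Fin n → ℍ,
      dd (UP_l B) (List.ofFn x) = F x - C * vol n x := by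
    intro x
    rw [UP_dd, h x]
    ring
  have hC : Coc (KK n) (n * 2 + 1) (dd (UP_l B)) := by
    refine ⟨?_, ?_, ?_, dd_dd _⟩
    · intro l hl
      rw [← dd_zero l]
      exact dd_congr _ _ l fun m hm => UP_l_ne B m (by omega)
    · refine ⟨1 + |C| * ((1 / ((n * 2).factorial : ℝ)) *
        ∑ _σ : Equiv.Perm (Fin (n * 2)), ∏ _j : Fin n, Real.pi), fun l => ?_⟩
      by_cases hl : l.length = n * 2 + 1
      · obtain ⟨x, rfl⟩ := UP_ex l hl
        rw [hdd]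
        refine (abs_sub _ _).trans (add_le_add (hF x) ?_)
        rw [abs_mul]
        exact mul_le_mul_of_nonneg_left (UP_vol x) (abs_nonneg C)
      · have h0 : dd (UP_l B) l = 0 := by
          rw [← dd_zero l]
          exact dd_congr _ _ l fun m hm => UP_l_ne B m (by omega)
        rw [h0, abs_zero]
        have := Real.pi_pos
        positivity
    · rintro κ ⟨g, rfl⟩ l
      rw [← dd_map]
      refine dd_congr _ _ l fun m _ => hmap g m
  obtain ⟨b, hb⟩ := ex_Z hμ n (dd (UP_l B)) hC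
    (ZZ_exact n (UP_l B) hmap (UP_l_ne B [] (by simp only [List.length_nil]; omega)))
  refine ⟨b, fun τ => ?_⟩
  rw [← hb τ, ← MMn_vol hμ τ, ← MM_smul, ← MM_add]
  refine MM_bdd hμ _ 1 (fun x => ?_) τ
  rw [hdd]
  have h2 : C * vol n x + (F x - C * vol n x) = F x := by ring
  rw [h2]
  exact hF x

end SimplVol
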