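import Pool.Agent.H54.RT.ZP
import Pool.Agent.H54.RT.ZX

/-!
# Module ZQ: the volume cocycle is not the coboundary of an invariant function

* `zq_area`: there are `x y z : ℍ` with `area x y z ≠ 0`: e.g. `x = I`, `y = 1 + I`, `z = 2 I`: `sarg_eq_arctan` (`Pool/Agent/H74/SV/AR.lean`): `sarg z w = arctan ((w.re - z.re)/(z.im + w.im))`: `sarg x y = arctan (1/2)`, `sarg y z = arctan (-1/3)`, `sarg z x = 0`, sum `arctan (1/2) - arctan (1/3) > 0`.
* `eev_swap`: for `B` with `InvN B`: `eev B P j u v = eev B P j v u`: `swap_smul u v` gives `g` with `g • u = v`, `g • v = u`; `ept P j v u y k i = (Function.update 1 j g) i • ept P j u v y k i`, so `B (ept P j v u y) = B (ept P j u v y)`.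
* `eev_congr`: `eev B P j u v` depends only on `P i`, `i ≠ j`.
* `vol_not_exact`. Suppose `vol n x = ∑_i (-1)^i B (x ∘ i.succAbove)` for all `x`. Fix `Q : Fin 3 → ℍ` with `a = area (Q 0) (Q 1) (Q 2) ≠ 0`. For `ε : Fin n → Equiv.Perm (Fin 3)` let `P_ε j = Q ∘ ε j`. `area (Q (π 0)) (Q (π 1)) (Q (π 2)) = sign π * a` (`area_or3` and `or3 (π 0) (π 1) (π 2) = sign π`, `decide`-like check of six permutations: `fin_cases π`/
  `Equiv.Perm (Fin 3)`; or use that `area` is alternating and `Equiv.Perm.swap_induction_on`; or `simp [or3]` after enumerating). By `zp_vol`, `zp_formula`: `∏_j (sign (ε j) * a) = ∑_j ∑_i (-1)^i eev B P_ε j (Q (ε j (i.succAbove 0))) (Q (ε j (i.succAbove 1)))`. Multiply by `∏_j sign (ε j)` and sum over all `ε`: the left side is `(3!)^n a^n ≠ 0`.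
  The right side: for fixed `j`, `i` the map `ε ↦ Function.update ε j (ε j * swap (i.succAbove 0) (i.succAbove 1))` is an involution without fixed points that changes the sign `∏_j sign (ε j)` and keeps `eev` (`eev_swap`, `eev_congr`): the sum is `0` (`Finset.sum_involution`, or: reindex by the involution, `S = -S`).
-/

set_option autoImplicit false

open scoped BigOperators UpperHalfPlane MatrixGroups

namespace SimplVol

theorem zq_area : ∃ Q : Fin 3 → ℍ, area (Q 0) (Q 1) (Q 2) ≠ 0 := by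
  refine ⟨![⟨Complex.I, by simp⟩, ⟨1 + Complex.I, by simp⟩, ⟨2 * Complex.I, by simp⟩], ?_⟩
  have e0 : sarg (⟨Complex.I, by simp⟩ : ℍ) ⟨1 + Complex.I, by simp⟩ = Real.arctan (1 / 2) := by
    rw [sarg_eq_arctan]
    congr 1
    simp [UpperHalfPlane.re, UpperHalfPlane.im]
    norm_num
  have e1 : sarg (⟨1 + Complex.I, by simp⟩ : ℍ) ⟨2 * Complex.I, by simp⟩ =
      Real.arctan (-(1 / 3)) := by
    rw [sarg_eq_arctan]
    congr 1
    simp [UpperHalfPlane.re, UpperHalfPlane.im]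
    norm_num
  have e2 : sarg (⟨2 * Complex.I, by simp⟩ : ℍ) ⟨Complex.I, by simp⟩ = 0 := by
    rw [sarg_eq_arctan]
    simp [UpperHalfPlane.re, UpperHalfPlane.im]
  show area (⟨Complex.I, by simp⟩ : ℍ) ⟨1 + Complex.I, by simp⟩ ⟨2 * Complex.I, by simp⟩ ≠ 0
  unfold area
  rw [e0, e1, e2, Real.arctan_neg, add_zero]
  have h : Real.arctan (1 / 3) < Real.arctan (1 / 2) := Real.arctan_strictMono (by norm_num)
  intro h2
  linarith

/-- the integer version of `or3` -/
private def zq_or (a b c : Fin 3) : ℤ :=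
  ((if b = 1 then 1 else 0) - (if a = 1 then 1 else 0)) *
      ((if c = 2 then 1 else 0) - (if a = 2 then 1 else 0)) -
    ((if b = 2 then 1 else 0) - (if a = 2 then 1 else 0)) *
      ((if c = 1 then 1 else 0) - (if a = 1 then 1 else 0))

private theorem zq_or_cast (a b c : Fin 3) : or3 a b c = (zq_or a b c : ℝ) := by
  unfold or3 zq_or
  push_cast
  rfl

private theorem zq_or_sign : ∀ π : Equiv.Perm (Fin 3),
    zq_or (π 0) (π 1) (π 2) = ((Equiv.Perm.sign π : ℤˣ) : ℤ) := by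
  decide

private theorem zq_area_perm (Q : Fin 3 → ℍ) (π : Equiv.Perm (Fin 3)) :
    area (Q (π 0)) (Q (π 1)) (Q (π 2)) =
      (((Equiv.Perm.sign π : ℤˣ) : ℤ) : ℝ) * area (Q 0) (Q 1) (Q 2) := by
  rw [area_or3, zq_or_cast, zq_or_sign]

theorem eev_congr {n : ℕ} (B : (Fin (n * 2) → Fin n → ℍ) → ℝ) (P P' : Fin n → Fin 3 → ℍ)
    (j : Fin n) (u v : ℍ) (h : ∀ i, i ≠ j → P i = P' i) : eev B P j u v = eev B P' j u v := by
  have h1 : ∀ y : Fin (n * 2) → Fin (n * 2) → Bool, ept P j u v y = ept P' j u v y := by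
    intro y
    funext k i
    unfold ept
    split_ifs with hi h2
    · rfl
    · rfl
    · rw [h i hi]
  unfold eev
  simp only [h1]

theorem eev_swap {n : ℕ} (B : (Fin (n * 2) → Fin n → ℍ) → ℝ) (hB : InvN B)
    (P : Fin n → Fin 3 → ℍ) (j : Fin n) (u v : ℍ) : eev B P j v u = eev B P j u v := by
  obtain ⟨g, h1, h2⟩ := swap_smul u v
  have h3 : ∀ y : Fin (n * 2) → Fin (n * 2) → Bool,
      B (ept P j v u y) = B (ept P j u v y) := by
    intro y
    rw [← hB (fun i => if i = j then g else 1) (ept P j u v y)]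
    congr 1
    funext k i
    unfold ept
    by_cases hi : i = j
    · simp only [if_pos hi]
      by_cases hy : y k (finProdFinEquiv (j, 1)) = true
      · rw [if_pos hy, if_pos hy, h2]
      · rw [if_neg hy, if_neg hy, h1]
    · simp only [if_neg hi, one_smul]
  unfold eev
  simp only [h3]

/-- the summand -/
private noncomputable def zq_f {n : ℕ} (B : (Fin (n * 2) → Fin n → ℍ) → ℝ)
    (Q : Fin 3 → ℍ) (j : Fin n) (i : Fin 3) (ε : Fin n → Equiv.Perm (Fin 3)) : ℝ :=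
  (∏ l, (((Equiv.Perm.sign (ε l) : ℤˣ) : ℤ) : ℝ)) *
    eev B (fun l m => Q (ε l m)) j (Q (ε j (i.succAbove 0))) (Q (ε j (i.succAbove 1)))

set_option maxHeartbeats 400000 in
private theorem zq_step {n : ℕ} (B : (Fin (n * 2) → Fin n → ℍ) → ℝ) (hB : InvN B)
    (Q : Fin 3 → ℍ) (j : Fin n) (i : Fin 3) (ε ε' : Fin n → Equiv.Perm (Fin 3))
    (e1 : ε' j = ε j * Equiv.swap (i.succAbove 0) (i.succAbove 1))
    (e2 : ∀ l, l ≠ j → ε' l = ε l) : zq_f B Q j i ε' = - zq_f B Q j i ε := by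
  have hne : i.succAbove (0 : Fin 2) ≠ i.succAbove 1 := by
    intro h
    have := Fin.succAbove_right_injective h
    exact absurd this (by decide)
  have e3 : ∏ l, (((Equiv.Perm.sign (ε' l) : ℤˣ) : ℤ) : ℝ) =
      - ∏ l, (((Equiv.Perm.sign (ε l) : ℤˣ) : ℤ) : ℝ) := by
    rw [← Finset.mul_prod_erase Finset.univ _ (Finset.mem_univ j),
      ← Finset.mul_prod_erase Finset.univ (fun l => (((Equiv.Perm.sign (ε l) : ℤˣ) : ℤ) : ℝ))
        (Finset.mem_univ j), e1]
    have e4 : ∏ l ∈ Finset.univ.erase j, (((Equiv.Perm.sign (ε' l) : ℤˣ) : ℤ) : ℝ) =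
        ∏ l ∈ Finset.univ.erase j, (((Equiv.Perm.sign (ε l) : ℤˣ) : ℤ) : ℝ) := by
      refine Finset.prod_congr rfl fun l hl => ?_
      rw [e2 l (Finset.ne_of_mem_erase hl)]
    rw [e4, Equiv.Perm.sign_mul, Equiv.Perm.sign_swap hne]
    push_cast
    ring
  have e5 : ε' j (i.succAbove 0) = ε j (i.succAbove 1) := by
    rw [e1, Equiv.Perm.mul_apply, Equiv.swap_apply_left]
  have e6 : ε' j (i.succAbove 1) = ε j (i.succAbove 0) := by
    rw [e1, Equiv.Perm.mul_apply, Equiv.swap_apply_right]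
  have e7 : eev B (fun l m => Q (ε' l m)) j (Q (ε j (i.succAbove 1))) (Q (ε j (i.succAbove 0))) =
      eev B (fun l m => Q (ε l m)) j (Q (ε j (i.succAbove 0))) (Q (ε j (i.succAbove 1))) := by
    rw [eev_swap B hB]
    refine eev_congr B _ _ j _ _ fun l hl => ?_
    funext m
    show Q (ε' l m) = Q (ε l m)
    rw [e2 l hl]
  unfold zq_f
  rw [e3, e5, e6, e7]
  ring

set_option maxHeartbeats 400000 in
private theorem zq_zero {n : ℕ} (B : (Fin (n * 2) → Fin n → ℍ) → ℝ) (hB : InvN B)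
    (Q : Fin 3 → ℍ) (j : Fin n) (i : Fin 3) :
    ∑ ε : Fin n → Equiv.Perm (Fin 3), zq_f B Q j i ε = 0 := by
  have h2 : ∑ ε, zq_f B Q j i (Equiv.mulRight
      (Pi.mulSingle j (Equiv.swap (i.succAbove 0) (i.succAbove 1)) :
        Fin n → Equiv.Perm (Fin 3)) ε) = ∑ ε, zq_f B Q j i ε :=
    Equiv.sum_comp (Equiv.mulRight
      (Pi.mulSingle j (Equiv.swap (i.succAbove 0) (i.succAbove 1)) :
        Fin n → Equiv.Perm (Fin 3))) (zq_f B Q j i)
  have h1 : ∀ ε : Fin n → Equiv.Perm (Fin 3), zq_f B Q j i (Equiv.mulRight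
      (Pi.mulSingle j (Equiv.swap (i.succAbove 0) (i.succAbove 1)) :
        Fin n → Equiv.Perm (Fin 3)) ε) = - zq_f B Q j i ε := by
    intro ε
    apply zq_step B hB Q j i
    · show ε j * Pi.mulSingle (M := fun _ => Equiv.Perm (Fin 3)) j
        (Equiv.swap (i.succAbove 0) (i.succAbove 1)) j = _
      rw [Pi.mulSingle_eq_same]
    · intro l hl
      show ε l * Pi.mulSingle (M := fun _ => Equiv.Perm (Fin 3)) j
        (Equiv.swap (i.succAbove 0) (i.succAbove 1)) l = _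
      rw [Pi.mulSingle_eq_of_ne hl, mul_one]
  rw [Finset.sum_congr rfl fun ε _ => h1 ε, Finset.sum_neg_distrib] at h2
  linarith

set_option maxHeartbeats 400000 in
theorem vol_not_exact {n : ℕ} (hn : 1 ≤ n) (B : (Fin (n * 2) → Fin n → ℍ) → ℝ) (hB : InvN B)
    (h : ∀ x : Fin (n * 2 + 1) → Fin n → ℍ, vol n x =
      ∑ i : Fin (n * 2 + 1), (-1 : ℝ) ^ (i : ℕ) * B fun l => x (i.succAbove l)) : False := by
  obtain ⟨Q, hQ⟩ := zq_area
  have key : ∀ P : Fin n → Fin 3 → ℍ, ∏ j, area (P j 0) (P j 1) (P j 2) =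
      ∑ j, ∑ i : Fin 3, (-1 : ℝ) ^ (i : ℕ) *
        eev B P j (P j (i.succAbove 0)) (P j (i.succAbove 1)) := by
    intro P
    rw [← zp_vol P, ← zp_formula hn B P]
    refine Finset.sum_congr rfl fun y _ => ?_
    rw [h]
  have h1 : ∑ ε : Fin n → Equiv.Perm (Fin 3), (∏ l, (((Equiv.Perm.sign (ε l) : ℤˣ) : ℤ) : ℝ)) *
      ∏ j, area (Q (ε j 0)) (Q (ε j 1)) (Q (ε j 2)) = 0 := by
    have e1 : ∀ ε : Fin n → Equiv.Perm (Fin 3),
        (∏ l, (((Equiv.Perm.sign (ε l) : ℤˣ) : ℤ) : ℝ)) *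
          ∏ j, area (Q (ε j 0)) (Q (ε j 1)) (Q (ε j 2)) =
        ∑ j, ∑ i : Fin 3, (-1 : ℝ) ^ (i : ℕ) * zq_f B Q j i ε := by
      intro ε
      rw [key fun l m => Q (ε l m), Finset.mul_sum]
      refine Finset.sum_congr rfl fun j _ => ?_
      rw [Finset.mul_sum]
      refine Finset.sum_congr rfl fun i _ => ?_
      unfold zq_f
      ring
    rw [Finset.sum_congr rfl fun ε _ => e1 ε, Finset.sum_comm]
    refine Finset.sum_eq_zero fun j _ => ?_
    rw [Finset.sum_comm]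
    refine Finset.sum_eq_zero fun i _ => ?_
    rw [← Finset.mul_sum, zq_zero B hB Q j i, mul_zero]
  have h2 : ∀ ε : Fin n → Equiv.Perm (Fin 3), (∏ l, (((Equiv.Perm.sign (ε l) : ℤˣ) : ℤ) : ℝ)) *
      ∏ j, area (Q (ε j 0)) (Q (ε j 1)) (Q (ε j 2)) = area (Q 0) (Q 1) (Q 2) ^ n := by
    intro ε
    rw [← Finset.prod_mul_distrib]
    have e2 : ∀ j : Fin n, (((Equiv.Perm.sign (ε j) : ℤˣ) : ℤ) : ℝ) *
        area (Q (ε j 0)) (Q (ε j 1)) (Q (ε j 2)) = area (Q 0) (Q 1) (Q 2) := by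
      intro j
      rw [zq_area_perm, ← mul_assoc]
      rcases Int.units_eq_one_or (Equiv.Perm.sign (ε j)) with h3 | h3 <;> rw [h3] <;> simp
    rw [Finset.prod_congr rfl fun j _ => e2 j, Finset.prod_const, Finset.card_univ,
      Fintype.card_fin]
  rw [Finset.sum_congr rfl fun ε _ => h2 ε, Finset.sum_const, Finset.card_univ,
    nsmul_eq_mul] at h1
  have h3 : (Fintype.card (Fin n → Equiv.Perm (Fin 3)) : ℝ) ≠ 0 := by
    exact_mod_cast Fintype.card_ne_zero
  exact mul_ne_zero h3 (pow_ne_zero n hQ) h1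

end SimplVol
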