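import Pool.Agent.H54.RT.LPR
import Pool.Agent.H54.RT.CS
import Pool.Agent.H54.RT.LB
import Pool.Agent.H54.RT.UP
import Pool.Agent.H54.RT.GF
import Pool.Agent.H54.RT.ZQ
import Pool.Agent.H54.RT.MA

/-!
# The simplicial volume of products of closed hyperbolic surfaces: assembly
-/

set_option autoImplicit false

open scoped BigOperators UpperHalfPlane MatrixGroups ENNReal

namespace SimplVol

theorem rtree_nonempty (m : ℕ) : Nonempty (RTree m) := by
  obtain ⟨M, hM⟩ := exists_cstar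
  by_contra h
  rw [not_nonempty_iff] at h
  have h1 := hM.one m fun _ => UpperHalfPlane.I
  rw [Finset.univ_eq_empty, Finset.sum_empty] at h1
  exact zero_ne_one h1

theorem lpVal_pos {n : ℕ} (hn : 1 ≤ n) : 0 < lpVal n := by
  obtain ⟨M, hM⟩ := exists_cstar
  obtain ⟨q, hq, b, hb⟩ := lpVal_rat n (rtree_nonempty _)
  rw [hq]
  by_contra h
  obtain ⟨B, hB, hv⟩ := lower_exact hM b fun τ =>
    abs_nonpos_iff.1 ((hb τ).trans (not_lt.1 h))
  exact vol_not_exact hn B hB hv

theorem norm1_nonneg' {p : ℕ} {Y : Type} [TopologicalSpace Y] (w : Chain p Y) : 0 ≤ norm1 w :=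
  Finset.sum_nonneg fun _ _ => abs_nonneg _

/-- If `r ≤ normRatio Γ` then the pairing with `r` times the volume class has norm at most one. -/
theorem mul_volPair_le {n : ℕ} (Γ : Fin n → Subgroup SL(2, ℝ)) (r : NNReal)
    (hr : (r : ℝ≥0∞) ≤ normRatio Γ) (w : Chain (n * 2 + 1) (∀ j, Surf (Γ j)))
    (hw : boundary (n * 2) _ w = 0) : (r : ℝ) * volPair Γ w ≤ norm1 w := by
  rcases le_or_gt (volPair Γ w) 0 with h | h
  · exact (mul_nonpos_of_nonneg_of_nonpos r.2 h).trans (norm1_nonneg' w)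
  · have h1 : normRatio Γ ≤ ENNReal.ofReal (norm1 ((volPair Γ w)⁻¹ • w)) := by
      unfold normRatio
      refine iInf_le_of_le ((volPair Γ w)⁻¹ • w) (iInf_le_of_le ?_ (iInf_le _ ?_))
      · rw [map_smul, hw, smul_zero]
      · rw [volPair_smul', inv_mul_cancel₀ h.ne']
    have h2 := hr.trans h1
    rw [norm1_smul', abs_of_pos (inv_pos.2 h)] at h2
    have h3 : (r : ℝ) ≤ (volPair Γ w)⁻¹ * norm1 w := by
      have h4 := ENNReal.toReal_mono ENNReal.ofReal_ne_top h2
      rwa [ENNReal.coe_toReal, ENNReal.toReal_ofReal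
        (mul_nonneg (inv_pos.2 h).le (norm1_nonneg' w))] at h4
    calc (r : ℝ) * volPair Γ w ≤ (volPair Γ w)⁻¹ * norm1 w * volPair Γ w :=
          mul_le_mul_of_nonneg_right h3 h.le
      _ = norm1 w := by field_simp

theorem normRatio_eq {n : ℕ} (hn : 1 ≤ n) (Γ : Fin n → Subgroup SL(2, ℝ))
    (hΓ : ∀ j, IsSurfaceGroup (Γ j)) (hc : ∀ j, CompactSpace (Surf (Γ j))) :
    normRatio Γ = ENNReal.ofReal (1 / (Real.pi ^ n * lpVal n)) := by
  have hne := rtree_nonempty (n * 2 + 1)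
  have hpos := lpVal_pos hn
  have hpi : 0 < Real.pi ^ n := pow_pos Real.pi_pos n
  apply le_antisymm
  · by_contra hlt
    rw [not_le] at hlt
    obtain ⟨r, hr1, hr2⟩ := ENNReal.lt_iff_exists_nnreal_btwn.1 hlt
    have hr : 1 / (Real.pi ^ n * lpVal n) < (r : ℝ) := by
      rw [ENNReal.ofReal_lt_coe_iff (by positivity)] at hr1
      exact hr1
    have hr0 : 0 < (r : ℝ) := lt_trans (by positivity) hr
    obtain ⟨F, B, hF, hFi, hB, hFB⟩ := exists_inv Γ hΓ hc r
      fun w hw => mul_volPair_le Γ r hr2.le w hw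
    obtain ⟨μ, hμ⟩ := exists_means
    obtain ⟨b, hb⟩ := upper hμ hn r F B hF hB hFB
    have h1 : lpVal n ≤ 1 / ((r : ℝ) * Real.pi ^ n) := by
      refine lpVal_le n hne _ (fun ρ => b ρ / ((r : ℝ) * Real.pi ^ n)) fun τ => ?_
      have h2 : treeVol n τ + ∑ i : Fin (n * 2 + 1), (-1 : ℝ) ^ (i : ℕ) *
          (b (fun j => (τ j).pull (Fin.succAboveEmb i)) / ((r : ℝ) * Real.pi ^ n)) =
          ((r : ℝ) * (Real.pi ^ n * treeVol n τ) + ∑ i : Fin (n * 2 + 1), (-1 : ℝ) ^ (i : ℕ) *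
            b fun j => (τ j).pull (Fin.succAboveEmb i)) / ((r : ℝ) * Real.pi ^ n) := by
        rw [add_div, Finset.sum_div]
        congr 1
        · field_simp
        · exact Finset.sum_congr rfl fun i _ => by rw [mul_div_assoc]
      rw [h2, abs_div, abs_of_pos (mul_pos hr0 hpi)]
      exact div_le_div_of_nonneg_right (hb τ) (mul_pos hr0 hpi).le
    have h3 : (r : ℝ) ≤ 1 / (Real.pi ^ n * lpVal n) := by
      rw [le_div_iff₀ (mul_pos hpi hpos)]
      rw [le_div_iff₀ (mul_pos hr0 hpi)] at h1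
      linarith
    exact absurd hr (not_lt.2 h3)
  · obtain ⟨M, hM⟩ := exists_cstar
    obtain ⟨q, hq, b, hb⟩ := lpVal_rat n hne
    unfold normRatio
    refine le_iInf fun w => le_iInf fun hw => le_iInf fun h1 => ENNReal.ofReal_le_ofReal ?_
    have h2 := lower hM Γ hΓ b q hb w hw h1
    rw [← hq] at h2
    rw [div_le_iff₀ (mul_pos hpi hpos)]
    linarith

/-- **The simplicial volume of products of closed hyperbolic surfaces.** For every `n ≥ 1` the value
`lpVal n` of the finite linear programme is a positive rational number, and for all closed hyperbolic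
surfaces `ℍ/Γ₁, …, ℍ/Γₙ` the quotient of the simplicial volume of the product by its Riemannian volume is
`1 / (πⁿ · lpVal n)`. -/
theorem main (n : ℕ) (hn : 1 ≤ n) : ∃ q : ℚ, 0 < q ∧ lpVal n = q ∧
    ∀ Γ : Fin n → Subgroup SL(2, ℝ), (∀ j, IsSurfaceGroup (Γ j)) →
      (∀ j, CompactSpace (Surf (Γ j))) →
      normRatio Γ = ENNReal.ofReal (1 / (Real.pi ^ n * q)) := by
  obtain ⟨q, hq, -⟩ := lpVal_rat n (rtree_nonempty _)
  have hpos := lpVal_pos hn
  rw [hq] at hpos
  refine ⟨q, by exact_mod_cast hpos, hq, fun Γ hΓ hc => ?_⟩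
  rw [normRatio_eq hn Γ hΓ hc, hq]

end SimplVol
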