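import Mathlib

/-!
# Module PX: successive sampling (Plackett-Luce)

`PE ℓ n E P`: for `n = |E|`, the expectation of `P l` for a random ordering `l` of `E`: the LAST element of `l` is chosen first, with probability proportional to the weights `ℓ`, then the last but one among the others, ...
* `PE_add`, `PE_smul`, `PE_const`, `PE_mono`, `PE_bdd`, `PE_congr`: induction on `n` (for `PE_const`, `PE_bdd`: `∑_{e ∈ E} ℓ e / ∑_E ℓ = 1`, positive weights, `E` nonempty).
* `PE_congr`: only lists `l` with `l.Nodup` and `l.toFinset = E` occur.
* `PE_map`: relabelling by an injective map: induction on `n`, `(E.map e).erase (e a) = (E.erase a).map e`; or `PE_merge`.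
* `PE_single`: for a list `l` without repetition, `PE ℓ |l| l.toFinset (fun l' => if l' = l then 1 else 0) = wl ℓ l` (`wl ℓ (l ++ [e]) = wl ℓ l * ℓ e / (sum of ℓ over l ++ [e])`), and it is `0` if `l.toFinset ≠ E` or `¬ l.Nodup`: induction on `l` from the right (`List.reverseRecOn`).
-/

set_option autoImplicit false

open scoped BigOperators

namespace SimplVol

variable {A B : Type} [DecidableEq A] [DecidableEq B]

/-- Expectation for successive sampling without replacement (`n` is the number of elements of the set). -/
noncomputable def PE (w : A → ℝ) : ℕ → Finset A → (List A → ℝ) → ℝ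
  | 0, _, P => P []
  | n + 1, E, P => ∑ e ∈ E, (w e / ∑ a ∈ E, w a) * PE w n (E.erase e) fun l => P (l ++ [e])

theorem px_nodup (l : List A) (e : A) (E : Finset A) (he : e ∈ E) (hl : l.Nodup)
    (hlE : l.toFinset = E.erase e) : (l ++ [e]).Nodup := by
  rw [List.nodup_append]
  refine ⟨hl, List.nodup_singleton e, fun a ha b hb hab => ?_⟩
  rw [List.mem_singleton] at hb
  subst hb
  subst hab
  have : a ∈ l.toFinset := List.mem_toFinset.2 ha
  rw [hlE] at this
  exact (Finset.notMem_erase a E) this

theorem px_toFinset (l : List A) (e : A) (E : Finset A) (he : e ∈ E)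
    (hlE : l.toFinset = E.erase e) : (l ++ [e]).toFinset = E := by
  rw [List.toFinset_append, hlE]
  ext a
  rw [Finset.mem_union, Finset.mem_erase, List.mem_toFinset, List.mem_singleton]
  constructor
  · rintro (h | h)
    · exact h.2
    · rw [h]; exact he
  · intro h
    by_cases hae : a = e
    · exact Or.inr hae
    · exact Or.inl ⟨hae, h⟩

theorem PE_zero (w : A → ℝ) (E : Finset A) (P : List A → ℝ) : PE w 0 E P = P [] := rfl

theorem PE_succ (w : A → ℝ) (n : ℕ) (E : Finset A) (P : List A → ℝ) :
    PE w (n + 1) E P =
      ∑ e ∈ E, (w e / ∑ a ∈ E, w a) * PE w n (E.erase e) fun l => P (l ++ [e]) := rfl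

theorem PE_add (w : A → ℝ) (n : ℕ) (E : Finset A) (P Q : List A → ℝ) :
    PE w n E (fun l => P l + Q l) = PE w n E P + PE w n E Q := by
  induction n generalizing E P Q with
  | zero => rfl
  | succ n ih =>
    rw [PE_succ, PE_succ, PE_succ, ← Finset.sum_add_distrib]
    refine Finset.sum_congr rfl (fun e _ => ?_)
    rw [ih, mul_add]

theorem PE_smul (w : A → ℝ) (n : ℕ) (E : Finset A) (c : ℝ) (P : List A → ℝ) :
    PE w n E (fun l => c * P l) = c * PE w n E P := by
  induction n generalizing E P with
  | zero => rfl
  | succ n ih =>
    rw [PE_succ, PE_succ, Finset.mul_sum]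
    refine Finset.sum_congr rfl (fun e _ => ?_)
    rw [ih, mul_left_comm]

theorem PE_sum {J : Type} (w : A → ℝ) (n : ℕ) (E : Finset A) (s : Finset J) (P : J → List A → ℝ) :
    PE w n E (fun l => ∑ j ∈ s, P j l) = ∑ j ∈ s, PE w n E (P j) := by
  classical
  induction s using Finset.induction_on with
  | empty =>
    simp only [Finset.sum_empty]
    have h := PE_smul w n E 0 (fun _ => 0)
    simpa using h
  | insert j s hj ih =>
    simp only [Finset.sum_insert hj]
    rw [PE_add, ih]

theorem PE_const (w : A → ℝ) (E : Finset A) (hw : ∀ e ∈ E, 0 < w e) (c : ℝ) :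
    PE w E.card E (fun _ => c) = c := by
  have key : ∀ n, ∀ E : Finset A, E.card = n → (∀ e ∈ E, 0 < w e) → PE w n E (fun _ => c) = c := by
    intro n
    induction n with
    | zero => intro E _ _; rfl
    | succ n ih =>
      intro E hE hw
      rw [PE_succ]
      have h1 : ∀ e ∈ E, (w e / ∑ a ∈ E, w a) * PE w n (E.erase e) (fun _ => c) =
          (w e / ∑ a ∈ E, w a) * c := by
        intro e he
        rw [ih (E.erase e) (by rw [Finset.card_erase_of_mem he, hE]; rfl)
          (fun a ha => hw a (Finset.mem_of_mem_erase ha))]
      have hne : E.Nonempty := by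
        rw [← Finset.card_pos, hE]
        omega
      have hpos : 0 < ∑ a ∈ E, w a := Finset.sum_pos hw hne
      rw [Finset.sum_congr rfl h1, ← Finset.sum_mul, ← Finset.sum_div, div_self hpos.ne', one_mul]
  exact key _ E rfl hw

/-- Only the orderings of `E` matter. -/
theorem PE_congr (w : A → ℝ) (E : Finset A) (P Q : List A → ℝ)
    (h : ∀ l : List A, l.Nodup → l.toFinset = E → P l = Q l) :
    PE w E.card E P = PE w E.card E Q := by
  have key : ∀ n, ∀ E : Finset A, E.card = n → ∀ P Q : List A → ℝ,
      (∀ l : List A, l.Nodup → l.toFinset = E → P l = Q l) → PE w n E P = PE w n E Q := by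
    intro n
    induction n with
    | zero =>
      intro E hE P Q h
      rw [PE_zero, PE_zero]
      exact h [] List.nodup_nil (by rw [Finset.card_eq_zero.1 hE]; rfl)
    | succ n ih =>
      intro E hE P Q h
      rw [PE_succ, PE_succ]
      refine Finset.sum_congr rfl (fun e he => ?_)
      congr 1
      refine ih (E.erase e) (by rw [Finset.card_erase_of_mem he, hE]; rfl) _ _ (fun l hl hlE => ?_)
      exact h _ (px_nodup l e E he hl hlE) (px_toFinset l e E he hlE)
  exact key _ E rfl P Q h

theorem PE_nonneg (w : A → ℝ) (E : Finset A) (hw : ∀ e ∈ E, 0 < w e) (P : List A → ℝ)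
    (h : ∀ l : List A, l.Nodup → l.toFinset = E → 0 ≤ P l) : 0 ≤ PE w E.card E P := by
  have key : ∀ n, ∀ E : Finset A, E.card = n → (∀ e ∈ E, 0 < w e) → ∀ P : List A → ℝ,
      (∀ l : List A, l.Nodup → l.toFinset = E → 0 ≤ P l) → 0 ≤ PE w n E P := by
    intro n
    induction n with
    | zero =>
      intro E hE _ P h
      rw [PE_zero]
      exact h [] List.nodup_nil (by rw [Finset.card_eq_zero.1 hE]; rfl)
    | succ n ih =>
      intro E hE hw P h
      rw [PE_succ]
      refine Finset.sum_nonneg (fun e he => ?_)
      apply mul_nonneg (div_nonneg (hw e he).le (Finset.sum_nonneg (fun a ha => (hw a ha).le)))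
      refine ih (E.erase e) (by rw [Finset.card_erase_of_mem he, hE]; rfl)
        (fun a ha => hw a (Finset.mem_of_mem_erase ha)) _ (fun l hl hlE => ?_)
      exact h _ (px_nodup l e E he hl hlE) (px_toFinset l e E he hlE)
  exact key _ E rfl hw P h

theorem PE_bdd (w : A → ℝ) (E : Finset A) (hw : ∀ e ∈ E, 0 < w e) (P : List A → ℝ) (C : ℝ)
    (h : ∀ l : List A, l.Nodup → l.toFinset = E → |P l| ≤ C) : |PE w E.card E P| ≤ C := by
  have h1 : 0 ≤ PE w E.card E (fun l => C + (-1) * P l) := by
    apply PE_nonneg w E hw
    intro l hl hlE
    have := (abs_le.1 (h l hl hlE)).2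
    linarith
  have h2 : 0 ≤ PE w E.card E (fun l => C + 1 * P l) := by
    apply PE_nonneg w E hw
    intro l hl hlE
    have := (abs_le.1 (h l hl hlE)).1
    linarith
  rw [PE_add w E.card E (fun _ => C) (fun l => (-1) * P l), PE_const w E hw, PE_smul] at h1
  rw [PE_add w E.card E (fun _ => C) (fun l => 1 * P l), PE_const w E hw, PE_smul] at h2
  rw [abs_le]
  constructor <;> linarith

/-- Only the weights of the elements of `E` matter. -/
theorem PE_weights (w w' : A → ℝ) (n : ℕ) (E : Finset A) (h : ∀ e ∈ E, w e = w' e)
    (P : List A → ℝ) : PE w n E P = PE w' n E P := by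
  induction n generalizing E P with
  | zero => rfl
  | succ n ih =>
    rw [PE_succ, PE_succ, Finset.sum_congr rfl h]
    refine Finset.sum_congr rfl (fun e he => ?_)
    rw [h e he, ih (E.erase e) (fun a ha => h a (Finset.mem_of_mem_erase ha))]

/-- Relabelling. -/
theorem PE_map (w : B → ℝ) (E : Finset A) (e : A ↪ B) (P : List B → ℝ) :
    PE w E.card (E.map e) P = PE (fun a => w (e a)) E.card E fun l => P (l.map e) := by
  have key : ∀ n, ∀ E : Finset A, ∀ P : List B → ℝ,
      PE w n (E.map e) P = PE (fun a => w (e a)) n E fun l => P (l.map e) := by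
    intro n
    induction n with
    | zero => intro E P; rfl
    | succ n ih =>
      intro E P
      rw [PE_succ, PE_succ, Finset.sum_map, Finset.sum_map]
      refine Finset.sum_congr rfl (fun a _ => ?_)
      rw [← Finset.map_erase, ih]
      simp only [List.map_append, List.map_cons, List.map_nil]
  exact key _ E P

/-- The probability of an ordering. -/
noncomputable def wl (w : A → ℝ) (l : List A) : ℝ :=
  ∏ i : Fin l.length, w (l.get i) / ((l.take ((i : ℕ) + 1)).map w).sum

theorem px_wl_range (w : A → ℝ) (l : List A) (n : ℕ) (hn : l.length = n) :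
    wl w l = ∏ i ∈ Finset.range n,
      (if h : i < l.length then w (l[i]) / ((l.take (i + 1)).map w).sum else 1) := by
  subst hn
  rw [Finset.prod_range]
  unfold wl
  refine Finset.prod_congr rfl (fun i _ => ?_)
  rw [dif_pos i.2]
  rfl

theorem px_wl (w : A → ℝ) (l : List A) (x : A) :
    wl w (l ++ [x]) = wl w l * (w x / ((l ++ [x]).map w).sum) := by
  have h1 : (l ++ [x]).length = l.length + 1 := by simp
  rw [px_wl_range w (l ++ [x]) _ h1, px_wl_range w l _ rfl, Finset.prod_range_succ]
  congr 1
  · refine Finset.prod_congr rfl (fun i hi => ?_)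
    rw [Finset.mem_range] at hi
    rw [dif_pos (by omega : i < (l ++ [x]).length), dif_pos hi, List.getElem_append_left hi,
      List.take_append_of_le_length (by omega)]
  · rw [dif_pos (by omega : l.length < (l ++ [x]).length)]
    rw [List.getElem_append_right (le_refl _), List.take_of_length_le (by simp)]
    simp

theorem PE_single (w : A → ℝ) (E : Finset A) (l : List A) :
    PE w E.card E (fun l' => if l' = l then 1 else 0) =
      if l.Nodup ∧ l.toFinset = E then wl w l else 0 := by
  induction l using List.reverseRecOn generalizing E with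
  | nil =>
    rcases Finset.eq_empty_or_nonempty E with hE | hE
    · subst hE
      rw [if_pos ⟨List.nodup_nil, rfl⟩]
      rfl
    · rw [if_neg (by
        rintro ⟨_, h⟩
        rw [← h] at hE
        simp at hE)]
      obtain ⟨n, hn⟩ : ∃ n, E.card = n + 1 := ⟨E.card - 1, by have := hE.card_pos; omega⟩
      rw [hn, PE_succ]
      apply Finset.sum_eq_zero
      intro e _
      have h1 : (fun l : List A => if l ++ [e] = [] then (1 : ℝ) else 0) = fun _ => 0 * 0 := by
        funext l
        rw [if_neg (by simp), mul_zero]
      rw [h1, PE_smul, zero_mul, mul_zero]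
  | append_singleton l x ih =>
    rcases Finset.eq_empty_or_nonempty E with hE | hE
    · subst hE
      rw [if_neg (by
        rintro ⟨_, h⟩
        have h2 : x ∈ (l ++ [x]).toFinset := by simp
        rw [h] at h2
        simp at h2)]
      show (if ([] : List A) = l ++ [x] then (1 : ℝ) else 0) = 0
      rw [if_neg (by simp)]
    · obtain ⟨n, hn⟩ : ∃ n, E.card = n + 1 := ⟨E.card - 1, by have := hE.card_pos; omega⟩
      rw [hn, PE_succ]
      have h1 : ∀ e ∈ E, (w e / ∑ a ∈ E, w a) *
          PE w n (E.erase e) (fun l' => if l' ++ [e] = l ++ [x] then (1 : ℝ) else 0) =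
          if e = x then (w x / ∑ a ∈ E, w a) *
            (if l.Nodup ∧ l.toFinset = E.erase x then wl w l else 0) else 0 := by
        intro e he
        by_cases hex : e = x
        · subst hex
          rw [if_pos rfl, ← ih (E.erase e)]
          have h3 : (E.erase e).card = n := by
            rw [Finset.card_erase_of_mem he, hn]
            rfl
          rw [h3]
          congr 2
          funext l'
          by_cases h : l' = l
          · rw [if_pos h, if_pos (by rw [h])]
          · rw [if_neg h, if_neg (fun h' => h (List.append_cancel_right h'))]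
        · rw [if_neg hex]
          have h2 : (fun l' : List A => if l' ++ [e] = l ++ [x] then (1 : ℝ) else 0) =
              fun _ => 0 * 0 := by
            funext l'
            rw [if_neg, mul_zero]
            intro h
            have h4 := congrArg List.getLast? h
            simp at h4
            exact hex h4
          rw [h2, PE_smul, zero_mul, mul_zero]
      rw [Finset.sum_congr rfl h1, Finset.sum_ite_eq']
      by_cases hx : x ∈ E
      · rw [if_pos hx]
        by_cases hc : l.Nodup ∧ l.toFinset = E.erase x
        · have hc2 : (l ++ [x]).Nodup ∧ (l ++ [x]).toFinset = E :=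
            ⟨px_nodup l x E hx hc.1 hc.2, px_toFinset l x E hx hc.2⟩
          rw [if_pos hc, if_pos hc2, px_wl, mul_comm]
          congr 2
          rw [← hc2.2, List.sum_toFinset w hc2.1]
        · rw [if_neg hc, if_neg, mul_zero]
          rintro ⟨h2, h3⟩
          apply hc
          have h4 : x ∉ l := by
            rw [List.nodup_append] at h2
            intro hxl
            exact h2.2.2 x hxl x (by simp) rfl
          refine ⟨(List.nodup_append.1 h2).1, ?_⟩
          rw [← h3]
          ext a
          rw [Finset.mem_erase, List.mem_toFinset, List.mem_toFinset, List.mem_append,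
            List.mem_singleton]
          constructor
          · intro ha
            refine ⟨?_, Or.inl ha⟩
            rintro rfl
            exact h4 ha
          · rintro ⟨ha, hb | hb⟩
            · exact hb
            · exact absurd hb ha
      · rw [if_neg hx, if_neg]
        rintro ⟨_, h3⟩
        apply hx
        rw [← h3]
        simp

end SimplVol
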