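import Pool.Agent.H54.RT.FDL
import Pool.Agent.H74.SV.Defs

/-!
# Module RD: bounded exact fundamental domains in the upper half plane

`Γ` a surface group with compact quotient. `ℍ` is a proper metric space (closed balls are compact; there is an instance), `SL(2, ℝ)` acts by isometries (`dist_smul`), continuously.
* `rd_finite`: `{γ : Γ | dist (γ • z) w ≤ r}` is finite: `γ • z ∈ K = closedBall w (r + dist z w)`, `z ∈ K`, so `γ • K ∩ K ≠ ∅`, and `ProperlyDiscontinuousSMul.finite_disjoint_inter_image` (`hΓ.pd`).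
* `rd_countable`: `Γ = ⋃_n {γ | dist (γ • I) I ≤ n}`, a countable union of finite sets.
* `rd_radius`: there is `r` such that for every `z` there is `γ ∈ Γ` with `dist (γ • z) I ≤ r`: the images in `Surf Γ` of the open balls `ball I n` are open (`isOpenMap_quotient_mk'_mul`) and cover; `CompactSpace`: finite subcover (`IsCompact.elim_directed_cover` or `isCompact_univ.elim_finite_subcover`), the balls are increasing.
* `exists_D`: `exists_fd` with `G = Γ`, `α = ℍ`, `T γ z = γ • z`, `X = univ`, `k z = dist z I`, `e` = a measurable injective function: `embeddingReal ℂ ∘ UpperHalfPlane.coe` (`MeasureTheory.measurableEmbedding_embeddingReal`, `UpperHalfPlane.measurableEmbedding_coe`, `UpperHalfPlane.ext`/`coe_injective`). Free: `hΓ.free`. `Measurable (γ • ·)`: continuous and Borel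
  (`continuous_const_smul`, `.measurable`; the instances `MeasurableSpace ℍ`, `BorelSpace ℍ` are in `Mathlib.Analysis.Complex.UpperHalfPlane.Measure`). For `z ∈ D`: `dist z I ≤ dist (γ • z) I ≤ r` for a suitable `γ`.
-/

set_option autoImplicit false

open scoped UpperHalfPlane MatrixGroups
open MeasureTheory

namespace SimplVol

theorem rd_finite (Γ : Subgroup SL(2, ℝ)) (hΓ : IsSurfaceGroup Γ) (z w : ℍ) (r : ℝ) :
    {γ : Γ | dist (γ • z) w ≤ r}.Finite := by
  have := hΓ.pd
  have hK : IsCompact (Metric.closedBall w (|r| + dist z w)) := isCompact_closedBall _ _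
  refine (ProperlyDiscontinuousSMul.finite_disjoint_inter_image (Γ := Γ) hK hK).subset ?_
  intro γ hγ
  have h1 : dist (γ • z) w ≤ r := hγ
  have h2 : γ • z ∈ (γ • ·) '' Metric.closedBall w (|r| + dist z w) ∩
      Metric.closedBall w (|r| + dist z w) := by
    refine ⟨⟨z, ?_, rfl⟩, ?_⟩
    · rw [Metric.mem_closedBall]
      have := abs_nonneg r
      linarith
    · rw [Metric.mem_closedBall]
      have := le_abs_self r
      have := dist_nonneg (x := z) (y := w)
      linarith
  exact ⟨_, h2⟩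

theorem rd_countable (Γ : Subgroup SL(2, ℝ)) (hΓ : IsSurfaceGroup Γ) : Countable Γ := by
  have h : (Set.univ : Set Γ) = ⋃ n : ℕ, {γ : Γ | dist (γ • UpperHalfPlane.I) UpperHalfPlane.I ≤ n} := by
    symm
    rw [Set.eq_univ_iff_forall]
    intro γ
    obtain ⟨n, hn⟩ := exists_nat_ge (dist (γ • UpperHalfPlane.I) UpperHalfPlane.I)
    exact Set.mem_iUnion.2 ⟨n, hn⟩
  rw [← Set.countable_univ_iff, h]
  exact Set.countable_iUnion fun n => (rd_finite Γ hΓ _ _ _).countable

theorem RD_cont (Γ : Subgroup SL(2, ℝ)) (γ : Γ) : Continuous fun z : ℍ => γ • z :=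
  continuous_const_smul (γ : SL(2, ℝ))

theorem rd_radius (Γ : Subgroup SL(2, ℝ)) (hc : CompactSpace (Surf Γ)) :
    ∃ r : ℝ, ∀ z : ℍ, ∃ γ : Γ, dist (γ • z) UpperHalfPlane.I ≤ r := by
  have : ContinuousConstSMul Γ ℍ := ⟨RD_cont Γ⟩
  have hopen : ∀ n : ℕ, IsOpen ((Quotient.mk _ : ℍ → Surf Γ) ''
      Metric.ball UpperHalfPlane.I (n : ℝ)) := fun n =>
    (isOpenMap_quotient_mk'_mul (Γ := Γ) (T := ℍ)) _ Metric.isOpen_ball
  have hcov : (Set.univ : Set (Surf Γ)) ⊆ ⋃ n : ℕ, (Quotient.mk _ : ℍ → Surf Γ) ''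
      Metric.ball UpperHalfPlane.I (n : ℝ) := by
    intro x _
    obtain ⟨z, rfl⟩ := Quotient.exists_rep x
    obtain ⟨n, hn⟩ := exists_nat_gt (dist z UpperHalfPlane.I)
    exact Set.mem_iUnion.2 ⟨n, z, hn, rfl⟩
  have hdir : Directed (· ⊆ ·) fun n : ℕ => (Quotient.mk _ : ℍ → Surf Γ) ''
      Metric.ball UpperHalfPlane.I (n : ℝ) := by
    refine Monotone.directed_le (fun m n hmn => ?_)
    exact Set.image_mono (Metric.ball_subset_ball (by exact_mod_cast hmn))
  obtain ⟨n, hn⟩ := (isCompact_univ (X := Surf Γ)).elim_directed_cover _ hopen hcov hdir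
  refine ⟨n, fun z => ?_⟩
  obtain ⟨w, hw, he⟩ := hn (Set.mem_univ (Quotient.mk _ z : Surf Γ))
  have h1 : (MulAction.orbitRel Γ ℍ) w z := Quotient.exact he
  rw [MulAction.orbitRel_apply] at h1
  obtain ⟨γ, hγ⟩ := h1
  refine ⟨γ, ?_⟩
  have h2 : γ • z = w := hγ
  rw [h2]
  exact (Metric.mem_ball.1 hw).le

theorem exists_D (Γ : Subgroup SL(2, ℝ)) (hΓ : IsSurfaceGroup Γ) (hc : CompactSpace (Surf Γ)) :
    ∃ (D : Set ℍ) (r : ℝ), MeasurableSet D ∧ (∀ z, ∃! γ : Γ, γ • z ∈ D) ∧
      ∀ z ∈ D, dist z UpperHalfPlane.I ≤ r := by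
  have := rd_countable Γ hΓ
  obtain ⟨r, hr⟩ := rd_radius Γ hc
  obtain ⟨R, hR1, -, hR3, hR4⟩ := exists_fd (G := Γ) (α := ℍ) (fun γ z => γ • z)
    (fun z => one_smul _ z) (fun g h x => mul_smul g h x)
    (fun γ => (RD_cont Γ γ).measurable) Set.univ MeasurableSet.univ
    (fun _ _ _ => Set.mem_univ _) (fun γ z _ h => hΓ.free γ z h)
    (fun z => dist z UpperHalfPlane.I)
    (fun z => MeasureTheory.embeddingReal ℂ (z : ℂ))
    (continuous_id.dist continuous_const).measurable
    ((MeasureTheory.measurableEmbedding_embeddingReal ℂ).measurable.comp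
      UpperHalfPlane.continuous_coe.measurable)
    (fun z w h => UpperHalfPlane.ext
      ((MeasureTheory.measurableEmbedding_embeddingReal ℂ).injective h))
    (fun z _ s => rd_finite Γ hΓ z UpperHalfPlane.I s)
  refine ⟨R, r, hR1, fun z => hR3 z (Set.mem_univ _), fun z hz => ?_⟩
  obtain ⟨γ, hγ⟩ := hr z
  exact (hR4 z hz γ).trans hγ

end SimplVol
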