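import Pool.Agent.H54.RT.FY

/-!
# Module SG: planarity, Farey edges do not cross

Write `γ = (p q; r s)`, `α₁ = (act (tR γ) a).1`, `α₂ = (act (tR γ) a).2`, the same with `β, γ, δ` for `b, c, d`. `dt_act`: `dt a b = α₁ β₂ - α₂ β₁` etc.
* `irr_act`: `act (tR γ) v` satisfies `a v'.1 + b v'.2 = (a p + b r) v.1 + (a q + b s) v.2`, and `(ap + br, aq + bs) ≠ 0` as `γ` is invertible. `cc_ne`: both coordinates of `act (tR γ) v` are nonzero (`(a, b) = (1, 0), (0, 1)`).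
* `cc_mul`: `cc (δ * γ) v = cc δ (act (tR γ) v)`. Write `act_mul : act (g * h) u = act g (act h u)`.
* `cc_planar`: `dt b c = β₁ γ₂ - β₂ γ₁`, and `(β₁ γ₂)(β₂ γ₁) = cc b * cc c < 0`, so `0 < dt b c * (β₁ γ₂)`; `dt c a = γ₁ α₂ - γ₂ α₁`, `0 < dt c a * (γ₁ α₂)`. Product: `0 < dt b c * dt c a * (β₁ α₂) * cc c`. The same for `d`: `0 < dt b d * dt d a * (β₁ α₂) * cc d`.
  Multiply: `0 < (dt b c * dt c a) * (dt b d * dt d a) * (β₁ α₂)² * (cc c * cc d)`.
* `cc_excl`: replace `a, b, c, d` by their images under `γ` and `δ` by `δ γ⁻¹` (`cc_mul`), so assume `γ = 1`: `cc 1 v = v.1 v.2`. Let `δ = (p q; r s)`. If `a, b` have products of coordinates `> 0` and `c, d` have `< 0` (or the other way round, exchange the roles): from `h4`-`h6`: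
  `cc δ a * cc δ b < 0` and `cc δ c * cc δ d < 0`. For vectors `u, v` with `u.1 u.2 > 0`, `v.1 v.2 > 0`: all the products `u.i v.j` have the same sign; if `p q ≥ 0` and `r s ≥ 0` then `R₁(u) R₁(v) = p² u₁v₁ + pq (u₁v₂ + u₂v₁) + q² u₂v₂` has (weakly) this sign and so has `R₂(u) R₂(v)`, so
  `cc δ u * cc δ v ≥ 0`. Hence `p q < 0` or `r s < 0`. For `u.1 u.2 < 0`, `v.1 v.2 < 0`: similarly `p q > 0` or `r s > 0`. So (`pq < 0` and `rs > 0`) or (`pq > 0` and `rs < 0`): `(ps)(qr) = (pq)(rs) < 0`, so `ps`, `qr` are nonzero integers of opposite signs, and `|ps - qr| ≥ 2`, contradiction to `ps - qr = 1`.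
-/

set_option autoImplicit false

open scoped BigOperators UpperHalfPlane MatrixGroups

namespace SimplVol

theorem act_mul (g h : SL(2, ℝ)) (u : Pl) : act (g * h) u = act g (act h u) := by
  unfold act
  ext <;>
  · simp only [Matrix.SpecialLinearGroup.coe_mul, Matrix.mul_apply, Fin.sum_univ_two]
    ring

theorem act_one (u : Pl) : act 1 u = u := by
  unfold act
  ext <;> simp

theorem SG_tR_apply (γ : SL(2, ℤ)) (i j : Fin 2) : (tR γ) i j = ((γ i j : ℤ) : ℝ) := by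
  simp [tR]

theorem SG_det (γ : SL(2, ℤ)) : γ 0 0 * γ 1 1 - γ 0 1 * γ 1 0 = 1 := by
  have h := γ.det_coe
  rw [Matrix.det_fin_two] at h
  exact h

theorem irr_act (γ : SL(2, ℤ)) (v : Pl) (hv : Irr v) : Irr (act (tR γ) v) := by
  intro a b hab h
  have hd := SG_det γ
  simp only [act, SG_tR_apply] at h
  refine hv (a * γ 0 0 + b * γ 1 0) (a * γ 0 1 + b * γ 1 1) ?_ ?_
  · by_contra hcon
    push Not at hcon
    obtain ⟨h1, h2⟩ := hcon
    have ha : a = 0 := by linear_combination γ 1 1 * h1 - γ 1 0 * h2 - a * hd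
    have hb : b = 0 := by linear_combination γ 0 0 * h2 - γ 0 1 * h1 - b * hd
    rcases hab with h3 | h3
    · exact h3 ha
    · exact h3 hb
  · push_cast
    linear_combination h

theorem cc_ne (γ : SL(2, ℤ)) (v : Pl) (hv : Irr v) : cc γ v ≠ 0 := by
  have h := irr_act γ v hv
  unfold cc
  refine mul_ne_zero ?_ ?_
  · have h1 := h 1 0 (Or.inl one_ne_zero)
    intro h2
    apply h1
    push_cast
    rw [h2]
    ring
  · have h1 := h 0 1 (Or.inr one_ne_zero)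
    intro h2
    apply h1
    push_cast
    rw [h2]
    ring

theorem cc_mul (δ γ : SL(2, ℤ)) (v : Pl) : cc (δ * γ) v = cc δ (act (tR γ) v) := by
  unfold cc
  rw [map_mul, act_mul]

theorem SG_aux (x1 x2 y1 y2 : ℝ) (h : (x1 * x2) * (y1 * y2) < 0) :
    0 < (x1 * y2 - x2 * y1) * (x1 * y2) := by
  nlinarith [sq_nonneg (x1 * y2)]

theorem cc_planar (γ : SL(2, ℤ)) (a b c d : Pl) (h1 : 0 < cc γ a * cc γ b)
    (h2 : 0 < cc γ c * cc γ d) (h3 : cc γ a * cc γ c < 0) :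
    0 < (dt b c * dt c a) * (dt b d * dt d a) := by
  have hbc0 : dt b c = dt (act (tR γ) b) (act (tR γ) c) := (dt_act _ _ _).symm
  have hca0 : dt c a = dt (act (tR γ) c) (act (tR γ) a) := (dt_act _ _ _).symm
  have hbd0 : dt b d = dt (act (tR γ) b) (act (tR γ) d) := (dt_act _ _ _).symm
  have hda0 : dt d a = dt (act (tR γ) d) (act (tR γ) a) := (dt_act _ _ _).symm
  rw [hbc0, hca0, hbd0, hda0]
  unfold cc at h1 h2 h3
  generalize act (tR γ) a = A at *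
  generalize act (tR γ) b = B at *
  generalize act (tR γ) c = C at *
  generalize act (tR γ) d = D at *
  unfold dt
  have ha0 : A.1 * A.2 ≠ 0 := by
    intro h
    rw [h, zero_mul] at h3
    exact lt_irrefl _ h3
  have hc0 : C.1 * C.2 ≠ 0 := by
    intro h
    rw [h, mul_zero] at h3
    exact lt_irrefl _ h3
  have hbc : (B.1 * B.2) * (C.1 * C.2) < 0 := by
    have h4 : (A.1 * A.2 * (B.1 * B.2)) * (A.1 * A.2 * (C.1 * C.2)) < 0 := mul_neg_of_pos_of_neg h1 h3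
    have h5 : 0 < (A.1 * A.2) ^ 2 := by positivity
    by_contra hcon
    push Not at hcon
    have h6 : 0 ≤ (A.1 * A.2) ^ 2 * ((B.1 * B.2) * (C.1 * C.2)) := mul_nonneg h5.le hcon
    nlinarith
  have had : (A.1 * A.2) * (D.1 * D.2) < 0 := by
    have h4 : (A.1 * A.2 * (C.1 * C.2)) * (C.1 * C.2 * (D.1 * D.2)) < 0 := mul_neg_of_neg_of_pos h3 h2
    have h5 : 0 < (C.1 * C.2) ^ 2 := by positivity
    by_contra hcon
    push Not at hcon
    have h6 : 0 ≤ (C.1 * C.2) ^ 2 * ((A.1 * A.2) * (D.1 * D.2)) := mul_nonneg h5.le hcon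
    nlinarith
  have hbd : (B.1 * B.2) * (D.1 * D.2) < 0 := by
    have h4 : ((B.1 * B.2) * (C.1 * C.2)) * (C.1 * C.2 * (D.1 * D.2)) < 0 := mul_neg_of_neg_of_pos hbc h2
    have h5 : 0 < (C.1 * C.2) ^ 2 := by positivity
    by_contra hcon
    push Not at hcon
    have h6 : 0 ≤ (C.1 * C.2) ^ 2 * ((B.1 * B.2) * (D.1 * D.2)) := mul_nonneg h5.le hcon
    nlinarith
  have k1 := SG_aux B.1 B.2 C.1 C.2 hbc
  have k2 := SG_aux C.1 C.2 A.1 A.2 (by rw [mul_comm]; exact h3)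
  have k3 := SG_aux B.1 B.2 D.1 D.2 hbd
  have k4 := SG_aux D.1 D.2 A.1 A.2 (by rw [mul_comm]; exact had)
  have k5 := mul_pos (mul_pos k1 k2) (mul_pos k3 k4)
  have k6 : 0 < ((B.1 * C.2 - B.2 * C.1) * (C.1 * A.2 - C.2 * A.1) *
      ((B.1 * D.2 - B.2 * D.1) * (D.1 * A.2 - D.2 * A.1))) *
      ((B.1 * A.2) ^ 2 * (C.1 * C.2 * (D.1 * D.2))) := by
    refine lt_of_lt_of_eq k5 ?_
    ring
  have k7 : 0 ≤ (B.1 * A.2) ^ 2 * (C.1 * C.2 * (D.1 * D.2)) :=
    mul_nonneg (sq_nonneg _) h2.le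
  by_contra hcon
  push Not at hcon
  exact absurd (mul_nonpos_of_nonpos_of_nonneg hcon k7) (not_le.2 k6)

theorem SG_pos (p q u1 u2 v1 v2 : ℝ) (hpq : 0 ≤ p * q) (h1 : 0 < u1 * v1) (h2 : 0 < u1 * v2)
    (h3 : 0 < u2 * v1) (h4 : 0 < u2 * v2) : 0 ≤ (p * u1 + q * u2) * (p * v1 + q * v2) := by
  have e : (p * u1 + q * u2) * (p * v1 + q * v2) =
      p ^ 2 * (u1 * v1) + (p * q) * (u1 * v2 + u2 * v1) + q ^ 2 * (u2 * v2) := by ring
  rw [e]
  have := mul_nonneg (sq_nonneg p) h1.le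
  have := mul_nonneg (sq_nonneg q) h4.le
  have := mul_nonneg hpq (add_pos h2 h3).le
  linarith

/-- Two vectors in quadrants of positive product of coordinates. -/
theorem SG_K (p q r s u1 u2 v1 v2 : ℝ) (hpq : 0 ≤ p * q) (hrs : 0 ≤ r * s) (hu : 0 < u1 * u2)
    (hv : 0 < v1 * v2) :
    0 ≤ ((p * u1 + q * u2) * (r * u1 + s * u2)) * ((p * v1 + q * v2) * (r * v1 + s * v2)) := by
  have e : ((p * u1 + q * u2) * (r * u1 + s * u2)) * ((p * v1 + q * v2) * (r * v1 + s * v2)) =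
      ((p * u1 + q * u2) * (p * v1 + q * v2)) * ((r * u1 + s * u2) * (r * v1 + s * v2)) := by ring
  rw [e]
  rcases lt_or_gt_of_ne (left_ne_zero_of_mul hu.ne') with hu1 | hu1 <;>
    rcases lt_or_gt_of_ne (left_ne_zero_of_mul hv.ne') with hv1 | hv1
  · have hu2 : u2 < 0 := by nlinarith
    have hv2 : v2 < 0 := by nlinarith
    exact mul_nonneg
      (SG_pos p q u1 u2 v1 v2 hpq (mul_pos_of_neg_of_neg hu1 hv1) (mul_pos_of_neg_of_neg hu1 hv2)
        (mul_pos_of_neg_of_neg hu2 hv1) (mul_pos_of_neg_of_neg hu2 hv2))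
      (SG_pos r s u1 u2 v1 v2 hrs (mul_pos_of_neg_of_neg hu1 hv1) (mul_pos_of_neg_of_neg hu1 hv2)
        (mul_pos_of_neg_of_neg hu2 hv1) (mul_pos_of_neg_of_neg hu2 hv2))
  · have hu2 : u2 < 0 := by nlinarith
    have hv2 : 0 < v2 := by nlinarith
    have a1 := SG_pos p q (-u1) (-u2) v1 v2 hpq (mul_pos (neg_pos.2 hu1) hv1)
      (mul_pos (neg_pos.2 hu1) hv2) (mul_pos (neg_pos.2 hu2) hv1) (mul_pos (neg_pos.2 hu2) hv2)
    have a2 := SG_pos r s (-u1) (-u2) v1 v2 hrs (mul_pos (neg_pos.2 hu1) hv1)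
      (mul_pos (neg_pos.2 hu1) hv2) (mul_pos (neg_pos.2 hu2) hv1) (mul_pos (neg_pos.2 hu2) hv2)
    refine le_of_le_of_eq (mul_nonneg a1 a2) ?_
    ring
  · have hu2 : 0 < u2 := by nlinarith
    have hv2 : v2 < 0 := by nlinarith
    have a1 := SG_pos p q u1 u2 (-v1) (-v2) hpq (mul_pos hu1 (neg_pos.2 hv1))
      (mul_pos hu1 (neg_pos.2 hv2)) (mul_pos hu2 (neg_pos.2 hv1)) (mul_pos hu2 (neg_pos.2 hv2))
    have a2 := SG_pos r s u1 u2 (-v1) (-v2) hrs (mul_pos hu1 (neg_pos.2 hv1))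
      (mul_pos hu1 (neg_pos.2 hv2)) (mul_pos hu2 (neg_pos.2 hv1)) (mul_pos hu2 (neg_pos.2 hv2))
    refine le_of_le_of_eq (mul_nonneg a1 a2) ?_
    ring
  · have hu2 : 0 < u2 := by nlinarith
    have hv2 : 0 < v2 := by nlinarith
    exact mul_nonneg
      (SG_pos p q u1 u2 v1 v2 hpq (mul_pos hu1 hv1) (mul_pos hu1 hv2) (mul_pos hu2 hv1)
        (mul_pos hu2 hv2))
      (SG_pos r s u1 u2 v1 v2 hrs (mul_pos hu1 hv1) (mul_pos hu1 hv2) (mul_pos hu2 hv1)
        (mul_pos hu2 hv2))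

theorem SG_K' (p q r s u1 u2 v1 v2 : ℝ) (hpq : p * q ≤ 0) (hrs : r * s ≤ 0) (hu : u1 * u2 < 0)
    (hv : v1 * v2 < 0) :
    0 ≤ ((p * u1 + q * u2) * (r * u1 + s * u2)) * ((p * v1 + q * v2) * (r * v1 + s * v2)) := by
  have h := SG_K p (-q) r (-s) u1 (-u2) v1 (-v2) (by linarith) (by linarith) (by linarith)
    (by linarith)
  refine le_of_le_of_eq h ?_
  ring

theorem SG_sgn3 (x y z w : ℝ) (h4 : 0 < x * z) (h5 : 0 < y * w) (h6 : x * y < 0) : z * w < 0 := by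
  have h7 : (x * z) * (y * w) > 0 := mul_pos h4 h5
  have h8 : 0 < (x * y) * (z * w) := by
    refine lt_of_lt_of_eq h7 ?_
    ring
  by_contra hcon
  push Not at hcon
  exact absurd (mul_nonpos_of_nonpos_of_nonneg h6.le hcon) (not_le.2 h8)

theorem SG_core (δ : SL(2, ℤ)) (A B C D : Pl) (h1 : 0 < (A.1 * A.2) * (B.1 * B.2))
    (h2 : 0 < (C.1 * C.2) * (D.1 * D.2)) (h3 : (A.1 * A.2) * (C.1 * C.2) < 0)
    (hA : 0 < A.1 * A.2) (h6 : cc δ A * cc δ B < 0) (h7 : cc δ C * cc δ D < 0) : False := by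
  have hB : 0 < B.1 * B.2 := (mul_pos_iff_of_pos_left hA).1 h1
  have hC : C.1 * C.2 < 0 := by
    by_contra hcon
    push Not at hcon
    exact absurd (mul_nonneg hA.le hcon) (not_le.2 h3)
  have hD : D.1 * D.2 < 0 := by
    by_contra hcon
    push Not at hcon
    exact absurd (mul_nonpos_of_nonpos_of_nonneg hC.le hcon) (not_le.2 h2)
  have hd := SG_det δ
  simp only [cc, act, SG_tR_apply] at h6 h7
  generalize δ 0 0 = p at *
  generalize δ 0 1 = q at *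
  generalize δ 1 0 = r at *
  generalize δ 1 1 = s at *
  have k1 : ¬ (0 ≤ p * q ∧ 0 ≤ r * s) := by
    rintro ⟨e1, e2⟩
    have e1' : (0 : ℝ) ≤ (p : ℝ) * q := by exact_mod_cast e1
    have e2' : (0 : ℝ) ≤ (r : ℝ) * s := by exact_mod_cast e2
    exact absurd (SG_K p q r s A.1 A.2 B.1 B.2 e1' e2' hA hB) (not_le.2 h6)
  have k2 : ¬ (p * q ≤ 0 ∧ r * s ≤ 0) := by
    rintro ⟨e1, e2⟩
    have e1' : (p : ℝ) * q ≤ 0 := by exact_mod_cast e1
    have e2' : (r : ℝ) * s ≤ 0 := by exact_mod_cast e2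
    exact absurd (SG_K' p q r s C.1 C.2 D.1 D.2 e1' e2' hC hD) (not_le.2 h7)
  have k3 : (p * q) * (r * s) < 0 := by
    rcases lt_trichotomy (p * q) 0 with e | e | e
    · have e2 : 0 < r * s := by
        by_contra hcon
        push Not at hcon
        exact k2 ⟨e.le, hcon⟩
      exact mul_neg_of_neg_of_pos e e2
    · exfalso
      rcases le_total 0 (r * s) with e2 | e2
      · exact k1 ⟨e.ge, e2⟩
      · exact k2 ⟨e.le, e2⟩
    · have e2 : r * s < 0 := by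
        by_contra hcon
        push Not at hcon
        exact k1 ⟨e.le, hcon⟩
      exact mul_neg_of_pos_of_neg e e2
  have k4 : (q * r + 1) * (q * r) < 0 := by
    have e : p * s = q * r + 1 := by linarith
    rw [← e]
    refine lt_of_eq_of_lt ?_ k3
    ring
  rcases le_or_gt 0 (q * r) with e | e
  · exact absurd (mul_nonneg (by linarith) e) (not_le.2 k4)
  · exact absurd (mul_nonneg_of_nonpos_of_nonpos (by linarith [Int.add_one_le_iff.2 e]) e.le)
      (not_le.2 k4)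

theorem cc_excl (γ δ : SL(2, ℤ)) (a b c d : Pl) (h1 : 0 < cc γ a * cc γ b)
    (h2 : 0 < cc γ c * cc γ d) (h3 : cc γ a * cc γ c < 0) (h4 : 0 < cc δ a * cc δ c)
    (h5 : 0 < cc δ b * cc δ d) (h6 : cc δ a * cc δ b < 0) : False := by
  have e : ∀ v, cc δ v = cc (δ * γ⁻¹) (act (tR γ) v) := by
    intro v
    rw [← cc_mul, inv_mul_cancel_right]
  have h7 := SG_sgn3 _ _ _ _ h4 h5 h6
  rw [e a, e b] at h6
  rw [e c, e d] at h7
  unfold cc at h1 h2 h3
  have hne : (act (tR γ) a).1 * (act (tR γ) a).2 ≠ 0 := by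
    intro h
    rw [h, zero_mul] at h3
    exact lt_irrefl _ h3
  rcases lt_or_gt_of_ne hne with ha | ha
  · refine SG_core (δ * γ⁻¹) (act (tR γ) c) (act (tR γ) d) (act (tR γ) a) (act (tR γ) b) h2 h1
      (by rw [mul_comm]; exact h3) ?_ h7 h6
    by_contra hcon
    push Not at hcon
    exact absurd (mul_nonneg_of_nonpos_of_nonpos ha.le hcon) (not_le.2 h3)
  · exact SG_core (δ * γ⁻¹) (act (tR γ) a) (act (tR γ) b) (act (tR γ) c) (act (tR γ) d) h1 h2 h3 ha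
      h6 h7

end SimplVol
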