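import Pool.Agent.H54.RT.SG

/-!
# Module SR: Euclid's algorithm for two vectors

Call a vector positive if the product of its coordinates is `> 0`, negative if it is `< 0`. Work with positive `b, c` of irrational slope, `dt b c ≠ 0`. Up to changing signs of `b` and `c` (everything in `sep2` is unchanged, `act` is linear; or work with squares/absolute values) both coordinates
of `b` and `c` are `> 0`.
`sep2_aux`, by induction on `N : ℕ`: for `b, c` with positive coordinates, irrational slope, `dt b c ≠ 0` and real `P, Q ≥ 1` with `(P b.1 + Q b.2) * (P c.1 + Q c.2) ≤ (P Q + N) * |dt b c|` (so after `N` steps one is done) the conclusion holds. `N = 0`: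
`(P b.1 + Q b.2)(P c.1 + Q c.2) > P Q (b.1 c.2 + b.2 c.1) ≥ P Q |dt b c|` (as `P² b.1 c.1 > 0`), contradiction. Step: `b.1 ≠ b.2`, `c.1 ≠ c.2` (irrational). If `b.1 < b.2` and `c.2 < c.1`, or the other way round: `γ = 1`. If `b.1 > b.2` and `c.1 > c.2`: apply `T = (1 -1; 0 1)`:
`b' = (b.1 - b.2, b.2)`, `c' = (c.1 - c.2, c.2)`, `P' = P`, `Q' = P + Q`: `P' b'.1 + Q' b'.2 = P b.1 + Q b.2`, `dt b' c' = dt b c`, `P'Q' = PQ + P² ≥ PQ + 1`; induction gives `γ'`, take `γ = γ' * T`; a negative vector `a` (`a.1 a.2 < 0`) is mapped by `T` to a negative vector (`(a.1 - a.2) a.2 = a.1 a.2 - a.2² < 0`).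
If `b.1 < b.2` and `c.1 < c.2`: apply `U = (1 0; -1 1)`: `b' = (b.1, b.2 - b.1)`, `P' = P + Q`, `Q' = Q`; same. (`irr_act`, `cc_mul`, `act_mul`.) Start: `P = Q = 1`, `N` large (Archimedean, `|dt b c| > 0`).
-/

set_option autoImplicit false

open scoped BigOperators UpperHalfPlane MatrixGroups

namespace SimplVol

theorem SR_neg (g : SL(2, ℝ)) (v : Pl) : act g (-v) = -act g v := by
  refine Prod.ext ?_ ?_
  · show g 0 0 * (-v.1) + g 0 1 * (-v.2) = -(g 0 0 * v.1 + g 0 1 * v.2)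
    ring
  · show g 1 0 * (-v.1) + g 1 1 * (-v.2) = -(g 1 0 * v.1 + g 1 1 * v.2)
    ring

def SR_T : SL(2, ℤ) := ⟨!![1, -1; 0, 1], by simp [Matrix.det_fin_two_of]⟩

def SR_U : SL(2, ℤ) := ⟨!![1, 0; -1, 1], by simp [Matrix.det_fin_two_of]⟩

theorem SR_tR (g : SL(2, ℤ)) (i j : Fin 2) : (tR g) i j = ((g i j : ℤ) : ℝ) := rfl

theorem SR_actT (v : Pl) : act (tR SR_T) v = (v.1 - v.2, v.2) := by
  refine Prod.ext ?_ ?_
  · show (tR SR_T) 0 0 * v.1 + (tR SR_T) 0 1 * v.2 = v.1 - v.2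
    rw [SR_tR, SR_tR]
    have h1 : SR_T 0 0 = 1 := rfl
    have h2 : SR_T 0 1 = -1 := rfl
    rw [h1, h2]; push_cast; ring
  · show (tR SR_T) 1 0 * v.1 + (tR SR_T) 1 1 * v.2 = v.2
    rw [SR_tR, SR_tR]
    have h1 : SR_T 1 0 = 0 := rfl
    have h2 : SR_T 1 1 = 1 := rfl
    rw [h1, h2]; push_cast; ring

theorem SR_actU (v : Pl) : act (tR SR_U) v = (v.1, v.2 - v.1) := by
  refine Prod.ext ?_ ?_
  · show (tR SR_U) 0 0 * v.1 + (tR SR_U) 0 1 * v.2 = v.1
    rw [SR_tR, SR_tR]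
    have h1 : SR_U 0 0 = 1 := rfl
    have h2 : SR_U 0 1 = 0 := rfl
    rw [h1, h2]; push_cast; ring
  · show (tR SR_U) 1 0 * v.1 + (tR SR_U) 1 1 * v.2 = v.2 - v.1
    rw [SR_tR, SR_tR]
    have h1 : SR_U 1 0 = -1 := rfl
    have h2 : SR_U 1 1 = 1 := rfl
    rw [h1, h2]; push_cast; ring

/-- The conclusion of `sep2`. -/
def SR_C (b c : Pl) (γ : SL(2, ℤ)) : Prop :=
  0 < cc γ b ∧ 0 < cc γ c ∧ (∀ a : Pl, a.1 * a.2 < 0 → cc γ a < 0) ∧
      (((act (tR γ) b).1 ^ 2 < (act (tR γ) b).2 ^ 2 ∧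
          (act (tR γ) c).2 ^ 2 < (act (tR γ) c).1 ^ 2) ∨
        ((act (tR γ) c).1 ^ 2 < (act (tR γ) c).2 ^ 2 ∧
          (act (tR γ) b).2 ^ 2 < (act (tR γ) b).1 ^ 2))

theorem SR_step (b c : Pl) (γ δ : SL(2, ℤ)) (h : SR_C (act (tR δ) b) (act (tR δ) c) γ)
    (hδ : ∀ a : Pl, a.1 * a.2 < 0 → (act (tR δ) a).1 * (act (tR δ) a).2 < 0) :
    SR_C b c (γ * δ) := by
  obtain ⟨h1, h2, h3, h4⟩ := h
  refine ⟨?_, ?_, ?_, ?_⟩
  · rw [cc_mul]; exact h1
  · rw [cc_mul]; exact h2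
  · intro a ha
    rw [cc_mul]
    exact h3 _ (hδ a ha)
  · rw [map_mul, act_mul, act_mul]
    exact h4

theorem SR_one (v : Pl) : act (tR 1) v = v := by
  rw [map_one, act_one]

theorem SR_ne (v : Pl) (hv : Irr v) : v.1 ≠ v.2 := by
  intro h
  have := hv 1 (-1) (Or.inl one_ne_zero)
  apply this
  push_cast
  rw [h]; ring

theorem SR_aux (N : ℕ) : ∀ (b c : Pl) (P Q : ℝ), 0 < b.1 → 0 < b.2 → 0 < c.1 → 0 < c.2 →
    Irr b → Irr c → dt b c ≠ 0 → 1 ≤ P → 1 ≤ Q →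
    (P * b.1 + Q * b.2) * (P * c.1 + Q * c.2) ≤ (P * Q + N) * |dt b c| →
    ∃ γ : SL(2, ℤ), SR_C b c γ := by
  induction N with
  | zero =>
    intro b c P Q hb1 hb2 hc1 hc2 _ _ _ hP hQ h
    exfalso
    have h1 : |dt b c| ≤ b.1 * c.2 + b.2 * c.1 := by
      have e1 : 0 < b.1 * c.2 := mul_pos hb1 hc2
      have e2 : 0 < b.2 * c.1 := mul_pos hb2 hc1
      unfold dt
      rw [abs_le]
      constructor <;> linarith
    have hP0 : 0 < P := by linarith
    have hQ0 : 0 < Q := by linarith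
    have h2 : P * Q * |dt b c| ≤ P * Q * (b.1 * c.2 + b.2 * c.1) :=
      mul_le_mul_of_nonneg_left h1 (mul_pos hP0 hQ0).le
    have h3 : 0 < P * P * (b.1 * c.1) := mul_pos (mul_pos hP0 hP0) (mul_pos hb1 hc1)
    have h4 : 0 < Q * Q * (b.2 * c.2) := mul_pos (mul_pos hQ0 hQ0) (mul_pos hb2 hc2)
    have e : (P * b.1 + Q * b.2) * (P * c.1 + Q * c.2) =
        P * P * (b.1 * c.1) + P * Q * (b.1 * c.2 + b.2 * c.1) + Q * Q * (b.2 * c.2) := by ring
    rw [e] at h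
    push_cast at h
    rw [add_zero] at h
    linarith
  | succ N ih =>
    intro b c P Q hb1 hb2 hc1 hc2 hb hc hd hP hQ h
    have hdp : 0 < |dt b c| := abs_pos.2 hd
    have key : ∀ P' Q' : ℝ, P * Q + 1 ≤ P' * Q' →
        (P * Q + ((N + 1 : ℕ) : ℝ)) * |dt b c| ≤ (P' * Q' + N) * |dt b c| := by
      intro P' Q' hPQ
      refine mul_le_mul_of_nonneg_right ?_ hdp.le
      push_cast
      linarith
    rcases lt_or_gt_of_ne (SR_ne b hb) with hb' | hb'
    · rcases lt_or_gt_of_ne (SR_ne c hc) with hc' | hc'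
      · -- U
        have hd' : dt (act (tR SR_U) b) (act (tR SR_U) c) = dt b c := dt_act _ _ _
        have hb3 := irr_act SR_U b hb
        have hc3 := irr_act SR_U c hc
        have hPQ : P * Q + 1 ≤ (P + Q) * Q := by nlinarith
        have h' := h.trans (key _ _ hPQ)
        obtain ⟨γ, hγ⟩ := ih (act (tR SR_U) b) (act (tR SR_U) c) (P + Q) Q
          (by rw [SR_actU]; exact hb1) (by rw [SR_actU]; exact sub_pos.2 hb')
          (by rw [SR_actU]; exact hc1) (by rw [SR_actU]; exact sub_pos.2 hc') hb3 hc3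
          (by rw [hd']; exact hd) (by linarith) hQ
          (by
            rw [hd', SR_actU, SR_actU]
            have e1 : (P + Q) * b.1 + Q * (b.2 - b.1) = P * b.1 + Q * b.2 := by ring
            have e2 : (P + Q) * c.1 + Q * (c.2 - c.1) = P * c.1 + Q * c.2 := by ring
            rw [e1, e2]
            exact h')
        refine ⟨γ * SR_U, SR_step b c γ SR_U hγ ?_⟩
        intro a ha
        rw [SR_actU]
        show a.1 * (a.2 - a.1) < 0
        nlinarith [sq_nonneg a.1]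
      · refine ⟨1, ?_, ?_, ?_, Or.inl ?_⟩
        · show 0 < (act (tR 1) b).1 * (act (tR 1) b).2
          rw [SR_one]; exact mul_pos hb1 hb2
        · show 0 < (act (tR 1) c).1 * (act (tR 1) c).2
          rw [SR_one]; exact mul_pos hc1 hc2
        · intro a ha
          show (act (tR 1) a).1 * (act (tR 1) a).2 < 0
          rw [SR_one]; exact ha
        · rw [SR_one, SR_one]
          exact ⟨pow_lt_pow_left₀ hb' hb1.le two_ne_zero, pow_lt_pow_left₀ hc' hc2.le two_ne_zero⟩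
    · rcases lt_or_gt_of_ne (SR_ne c hc) with hc' | hc'
      · refine ⟨1, ?_, ?_, ?_, Or.inr ?_⟩
        · show 0 < (act (tR 1) b).1 * (act (tR 1) b).2
          rw [SR_one]; exact mul_pos hb1 hb2
        · show 0 < (act (tR 1) c).1 * (act (tR 1) c).2
          rw [SR_one]; exact mul_pos hc1 hc2
        · intro a ha
          show (act (tR 1) a).1 * (act (tR 1) a).2 < 0
          rw [SR_one]; exact ha
        · rw [SR_one, SR_one]
          exact ⟨pow_lt_pow_left₀ hc' hc1.le two_ne_zero, pow_lt_pow_left₀ hb' hb2.le two_ne_zero⟩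
      · -- T
        have hd' : dt (act (tR SR_T) b) (act (tR SR_T) c) = dt b c := dt_act _ _ _
        have hb3 := irr_act SR_T b hb
        have hc3 := irr_act SR_T c hc
        have hPQ : P * Q + 1 ≤ P * (P + Q) := by nlinarith
        have h' := h.trans (key _ _ hPQ)
        obtain ⟨γ, hγ⟩ := ih (act (tR SR_T) b) (act (tR SR_T) c) P (P + Q)
          (by rw [SR_actT]; exact sub_pos.2 hb') (by rw [SR_actT]; exact hb2)
          (by rw [SR_actT]; exact sub_pos.2 hc') (by rw [SR_actT]; exact hc2) hb3 hc3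
          (by rw [hd']; exact hd) hP (by linarith)
          (by
            rw [hd', SR_actT, SR_actT]
            have e1 : P * (b.1 - b.2) + (P + Q) * b.2 = P * b.1 + Q * b.2 := by ring
            have e2 : P * (c.1 - c.2) + (P + Q) * c.2 = P * c.1 + Q * c.2 := by ring
            rw [e1, e2]
            exact h')
        refine ⟨γ * SR_T, SR_step b c γ SR_T hγ ?_⟩
        intro a ha
        rw [SR_actT]
        show (a.1 - a.2) * a.2 < 0
        nlinarith [sq_nonneg a.2]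

theorem SR_sign (b : Pl) (hb : Irr b) (hb0 : 0 < b.1 * b.2) :
    ∃ b' : Pl, 0 < b'.1 ∧ 0 < b'.2 ∧ Irr b' ∧ (b' = b ∨ b' = -b) := by
  rcases lt_trichotomy b.1 0 with h | h | h
  · have h2 : b.2 < 0 := by
      by_contra hc
      have := mul_nonpos_of_nonpos_of_nonneg h.le (not_lt.1 hc)
      linarith
    refine ⟨-b, neg_pos.2 h, neg_pos.2 h2, ?_, Or.inr rfl⟩
    intro m n hmn h3
    apply hb m n hmn
    have h4 : (m : ℝ) * (-b.1) + (n : ℝ) * (-b.2) = 0 := h3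
    linarith
  · rw [h, zero_mul] at hb0
    exact absurd hb0 (lt_irrefl _)
  · have h2 : 0 < b.2 := by
      by_contra hc
      have := mul_nonpos_of_nonneg_of_nonpos h.le (not_lt.1 hc)
      linarith
    exact ⟨b, h, h2, hb, Or.inl rfl⟩

theorem SR_cc_neg (γ : SL(2, ℤ)) (v : Pl) : cc γ (-v) = cc γ v := by
  unfold cc
  rw [SR_neg]
  show (-(act (tR γ) v).1) * (-(act (tR γ) v).2) = _
  ring

theorem SR_eq (γ : SL(2, ℤ)) (b b' : Pl) (h : b' = b ∨ b' = -b) :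
    cc γ b' = cc γ b ∧ (act (tR γ) b').1 ^ 2 = (act (tR γ) b).1 ^ 2 ∧
      (act (tR γ) b').2 ^ 2 = (act (tR γ) b).2 ^ 2 := by
  rcases h with rfl | rfl
  · exact ⟨rfl, rfl, rfl⟩
  · refine ⟨SR_cc_neg γ b, ?_, ?_⟩
    · rw [SR_neg]
      show (-(act (tR γ) b).1) ^ 2 = _
      ring
    · rw [SR_neg]
      show (-(act (tR γ) b).2) ^ 2 = _
      ring

theorem sep2 (b c : Pl) (hb : Irr b) (hc : Irr c) (hbc : dt b c ≠ 0) (hb0 : 0 < b.1 * b.2)
    (hc0 : 0 < c.1 * c.2) :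
    ∃ γ : SL(2, ℤ), 0 < cc γ b ∧ 0 < cc γ c ∧ (∀ a : Pl, a.1 * a.2 < 0 → cc γ a < 0) ∧
      (((act (tR γ) b).1 ^ 2 < (act (tR γ) b).2 ^ 2 ∧
          (act (tR γ) c).2 ^ 2 < (act (tR γ) c).1 ^ 2) ∨
        ((act (tR γ) c).1 ^ 2 < (act (tR γ) c).2 ^ 2 ∧
          (act (tR γ) b).2 ^ 2 < (act (tR γ) b).1 ^ 2)) := by
  obtain ⟨b', hb1, hb2, hb3, hb4⟩ := SR_sign b hb hb0
  obtain ⟨c', hc1, hc2, hc3, hc4⟩ := SR_sign c hc hc0
  have hd : dt b' c' ≠ 0 := by
    have e1 : dt (-b) c = -dt b c := by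
      show (-b.1) * c.2 - (-b.2) * c.1 = -(b.1 * c.2 - b.2 * c.1)
      ring
    have e2 : dt b (-c) = -dt b c := by
      show b.1 * (-c.2) - b.2 * (-c.1) = -(b.1 * c.2 - b.2 * c.1)
      ring
    have e3 : dt (-b) (-c) = dt b c := by
      show (-b.1) * (-c.2) - (-b.2) * (-c.1) = (b.1 * c.2 - b.2 * c.1)
      ring
    rcases hb4 with rfl | rfl <;> rcases hc4 with rfl | rfl
    · exact hbc
    · rw [e2]; exact neg_ne_zero.2 hbc
    · rw [e1]; exact neg_ne_zero.2 hbc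
    · rw [e3]; exact hbc
  have hdp : 0 < |dt b' c'| := abs_pos.2 hd
  obtain ⟨N, hN⟩ := exists_nat_ge ((1 * b'.1 + 1 * b'.2) * (1 * c'.1 + 1 * c'.2) / |dt b' c'|)
  rw [div_le_iff₀ hdp] at hN
  obtain ⟨γ, g1, g2, g3, g4⟩ := SR_aux N b' c' 1 1 hb1 hb2 hc1 hc2 hb3 hc3 hd le_rfl le_rfl (by
    refine hN.trans (mul_le_mul_of_nonneg_right ?_ hdp.le)
    linarith)
  obtain ⟨b5, b6, b7⟩ := SR_eq γ b b' hb4
  obtain ⟨c5, c6, c7⟩ := SR_eq γ c c' hc4
  rw [b5] at g1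
  rw [c5] at g2
  rw [b6, b7, c6, c7] at g4
  exact ⟨γ, g1, g2, g3, g4⟩

end SimplVol
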