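import Pool.Agent.H54.RT.FY
import Pool.Agent.H74.SV.AF

/-!
# Module SS: straight simplices in the upper half plane

For `x : Fin p → ℍ` and `t` in the simplex put `W = ∑ t_i / y_i`, `Q = ∑ t_i x_i / y_i`, `P = ∑ t_i (x_i² + y_i²) / y_i` (`x_i = (x i).re`, `y_i = (x i).im`). `W > 0` (if `p ≥ 1`), and `P W - Q² ≥ 1 > 0`: `∑_i ∑_j t_i t_j (x_i - x_j)²/(2 y_i y_j) + (∑ t_i y_i)(∑ t_i / y_i) `, and `(∑ t_i y_i)(∑ t_i/y_i) ≥ (∑ t_i)² = 1`
(Cauchy-Schwarz: `Finset.sum_sq_le_sum_mul_sum_of_sq_eq_mul` or `inner_mul_le_norm_mul_norm`, `Finset.sum_mul_sq_le_sq_mul_sq`). The straight point is `w = (Q + i √(P W - Q²)) / W`; it is the unique `w : ℍ` with `(∗) W w² - 2 Q w + P = 0`, that is `∑ t_i (w - z_i)(w - conj z_i)/y_i = 0`.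
* `st1`: the explicit formula gives a continuous map to `ℍ` (`Continuous.subtype_mk`-like: `UpperHalfPlane.mk`; the topology of `ℍ` is induced by the coercion to `ℂ`: `UpperHalfPlane.isEmbedding_coe.continuous_iff`). (For `p = 0` the simplex is empty.)
* `st1_iff`: for `w : ℍ`: `w = st1 x t ↔ (∗)`: a real quadratic polynomial with `W > 0` and negative discriminant has exactly one root in the upper half plane: from `(∗)`: `(W w - Q)² = Q² - P W`, imaginary part: `2 (W re w - Q) W im w = 0` so `re w = Q/W`, real part: `(W im w)² = P W - Q²`.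
* `st1_smul`: let `g = (a b; c d)`, `z' = g • z = (a z + b)/(c z + d)`, `im z' = im z/|c z + d|²`; for `w : ℍ`, `w' = g • w`: `(w' - z')(w' - conj z')/im z' = (w - z)(w - conj z) /(im z * (c w + d)²)` (`w' - z' = (w - z)/((c w + d)(c z + d))`). So `(∗)` for `w`, `x` is `(∗)` for `g • w`, `g • x`.
* `st1_vertex`: at the vertex `i` the equation is `(w - z_i)(w - conj z_i) / y_i = 0`, satisfied by `w = z_i`. `st1_face`: `(∗)` for `faceMap p i t`: `faceMap` is `stdSimplex.map (Fin.succAbove i)`, whose coordinates are `(map s) j = ∑_{l : succAbove i l = j} s_l` (`stdSimplex.map_coe`/ `FunOnFinite.linearMap_apply_apply`..., see how `Pool/Agent/H74/SV/AF.lean` computes with `faceMap`),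
  so `∑_j (faceMap t)_j f j = ∑_l t_l f (i.succAbove l)`.
-/

set_option autoImplicit false

open scoped BigOperators UpperHalfPlane MatrixGroups

namespace SimplVol

private noncomputable def ssW {p : ℕ} (x : Fin p → ℍ) (t : Fin p → ℝ) : ℝ := ∑ i, t i / (x i).im

private noncomputable def ssQ {p : ℕ} (x : Fin p → ℍ) (t : Fin p → ℝ) : ℝ :=
  ∑ i, t i / (x i).im * (x i).re

private noncomputable def ssP {p : ℕ} (x : Fin p → ℍ) (t : Fin p → ℝ) : ℝ :=
  ∑ i, t i / (x i).im * ((x i).re ^ 2 + (x i).im ^ 2)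

private theorem ss_exists_pos {p : ℕ} (t : stdSimplex ℝ (Fin p)) : ∃ i, 0 < t i := by
  by_contra h
  push Not at h
  have h1 : ∑ i, t i = 1 := stdSimplex.sum_eq_one t
  have h2 : ∑ i, t i ≤ 0 := Finset.sum_nonpos fun i _ => h i
  linarith

private theorem ssW_pos {p : ℕ} (x : Fin p → ℍ) (t : stdSimplex ℝ (Fin p)) :
    0 < ssW x (fun i => t i) := by
  obtain ⟨i, hi⟩ := ss_exists_pos t
  refine Finset.sum_pos' (fun j _ => div_nonneg (stdSimplex.zero_le t j) (x j).im_pos.le)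
    ⟨i, Finset.mem_univ i, div_pos hi (x i).im_pos⟩

private theorem ss_quad {p : ℕ} (x : Fin p → ℍ) (t : Fin p → ℝ) (s : ℝ) :
    ssW x t * s ^ 2 - 2 * ssQ x t * s + ssP x t =
      ∑ i, t i / (x i).im * ((s - (x i).re) ^ 2 + (x i).im ^ 2) := by
  unfold ssW ssQ ssP
  rw [Finset.sum_mul, Finset.mul_sum, Finset.sum_mul, ← Finset.sum_sub_distrib,
    ← Finset.sum_add_distrib]
  refine Finset.sum_congr rfl fun i _ => ?_
  ring

private theorem ss_quadC {p : ℕ} (x : Fin p → ℍ) (t : Fin p → ℝ) (w : ℂ) :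
    (ssW x t : ℂ) * w ^ 2 - 2 * (ssQ x t : ℂ) * w + (ssP x t : ℂ) =
      ∑ i, (t i : ℂ) / ((x i).im : ℂ) * ((w - (x i : ℂ)) * (w - (starRingEnd ℂ) (x i : ℂ))) := by
  unfold ssW ssQ ssP
  push_cast
  rw [Finset.sum_mul, Finset.mul_sum, Finset.sum_mul, ← Finset.sum_sub_distrib,
    ← Finset.sum_add_distrib]
  refine Finset.sum_congr rfl fun i _ => ?_
  have h1 : (x i : ℂ) + (starRingEnd ℂ) (x i : ℂ) = 2 * ((x i).re : ℂ) := by
    rw [Complex.add_conj]
    push_cast
    rfl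
  have h2 : (x i : ℂ) * (starRingEnd ℂ) (x i : ℂ) = ((x i).re : ℂ) ^ 2 + ((x i).im : ℂ) ^ 2 := by
    rw [Complex.mul_conj, Complex.normSq_apply]
    push_cast
    show (((x i : ℂ).re : ℂ)) * _ + _ = (((x i : ℂ).re : ℂ)) ^ 2 + (((x i : ℂ).im : ℂ)) ^ 2
    ring
  have h3 : (w - (x i : ℂ)) * (w - (starRingEnd ℂ) (x i : ℂ)) =
      w ^ 2 - ((x i : ℂ) + (starRingEnd ℂ) (x i : ℂ)) * w + (x i : ℂ) * (starRingEnd ℂ) (x i : ℂ) := by
    ring
  rw [h3, h1, h2]
  ring

private theorem ssD_pos {p : ℕ} (x : Fin p → ℍ) (t : stdSimplex ℝ (Fin p)) :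
    0 < ssP x (fun i => t i) * ssW x (fun i => t i) - ssQ x (fun i => t i) ^ 2 := by
  have hW := ssW_pos x t
  have h := ss_quad x (fun i => t i) (ssQ x (fun i => t i) / ssW x (fun i => t i))
  have hp : 0 < ∑ i, t i / (x i).im *
      ((ssQ x (fun i => t i) / ssW x (fun i => t i) - (x i).re) ^ 2 + (x i).im ^ 2) := by
    obtain ⟨i, hi⟩ := ss_exists_pos t
    refine Finset.sum_pos' (fun j _ => mul_nonneg
      (div_nonneg (stdSimplex.zero_le t j) (x j).im_pos.le) (by positivity))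
      ⟨i, Finset.mem_univ i, mul_pos (div_pos hi (x i).im_pos) ?_⟩
    have := (x i).im_pos
    positivity
  rw [← h] at hp
  have h2 : ssP x (fun i => t i) * ssW x (fun i => t i) - ssQ x (fun i => t i) ^ 2 =
      (ssW x (fun i => t i) * (ssQ x (fun i => t i) / ssW x (fun i => t i)) ^ 2 -
        2 * ssQ x (fun i => t i) * (ssQ x (fun i => t i) / ssW x (fun i => t i)) +
        ssP x (fun i => t i)) * ssW x (fun i => t i) := by
    field_simp
    ring
  rw [h2]
  exact mul_pos hp hW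

private noncomputable def ssPt {p : ℕ} (x : Fin p → ℍ) (t : stdSimplex ℝ (Fin p)) : ℍ :=
  ⟨⟨ssQ x (fun i => t i) / ssW x (fun i => t i),
    √(ssP x (fun i => t i) * ssW x (fun i => t i) - ssQ x (fun i => t i) ^ 2) /
      ssW x (fun i => t i)⟩, div_pos (Real.sqrt_pos.2 (ssD_pos x t)) (ssW_pos x t)⟩

private theorem ss_cont {p : ℕ} (x : Fin p → ℍ) : Continuous (ssPt x) := by
  rw [UpperHalfPlane.isEmbedding_coe.continuous_iff]
  have ht : ∀ i, Continuous fun t : stdSimplex ℝ (Fin p) => (t i : ℝ) := fun i =>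
    (continuous_apply i).comp continuous_subtype_val
  have hW : Continuous fun t : stdSimplex ℝ (Fin p) => ssW x (fun i => t i) := by
    unfold ssW
    exact continuous_finsetSum _ fun i _ => (ht i).div_const _
  have hQ : Continuous fun t : stdSimplex ℝ (Fin p) => ssQ x (fun i => t i) := by
    unfold ssQ
    exact continuous_finsetSum _ fun i _ => ((ht i).div_const _).mul_const _
  have hP : Continuous fun t : stdSimplex ℝ (Fin p) => ssP x (fun i => t i) := by
    unfold ssP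
    exact continuous_finsetSum _ fun i _ => ((ht i).div_const _).mul_const _
  have h1 : Continuous fun t : stdSimplex ℝ (Fin p) =>
      ssQ x (fun i => t i) / ssW x (fun i => t i) := hQ.div hW fun t => (ssW_pos x t).ne'
  have h2 : Continuous fun t : stdSimplex ℝ (Fin p) =>
      √(ssP x (fun i => t i) * ssW x (fun i => t i) - ssQ x (fun i => t i) ^ 2) /
      ssW x (fun i => t i) :=
    (((hP.mul hW).sub (hQ.pow 2)).sqrt).div hW fun t => (ssW_pos x t).ne'
  have h3 : Continuous fun t : stdSimplex ℝ (Fin p) =>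
      (((ssQ x (fun i => t i) / ssW x (fun i => t i) : ℝ) : ℂ) +
      ((√(ssP x (fun i => t i) * ssW x (fun i => t i) - ssQ x (fun i => t i) ^ 2) /
      ssW x (fun i => t i) : ℝ) : ℂ) * Complex.I) :=
    (Complex.continuous_ofReal.comp h1).add ((Complex.continuous_ofReal.comp h2).mul
      continuous_const)
  refine h3.congr fun t => ?_
  exact Complex.mk_eq_add_mul_I _ _ |>.symm

/-- The equation of the straight point. -/
private def SSeq {p : ℕ} (x : Fin p → ℍ) (t : Fin p → ℝ) (w : ℂ) : Prop :=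
  ∑ i, (t i : ℂ) / ((x i).im : ℂ) * ((w - (x i : ℂ)) * (w - (starRingEnd ℂ) (x i : ℂ))) = 0

private theorem ss_iff {p : ℕ} (x : Fin p → ℍ) (t : stdSimplex ℝ (Fin p)) (w : ℍ) :
    SSeq x (fun i => t i) w ↔ w = ssPt x t := by
  have hW := ssW_pos x t
  have hD := ssD_pos x t
  unfold SSeq
  rw [← ss_quadC]
  set W := ssW x (fun i => t i)
  set Q := ssQ x (fun i => t i)
  set P := ssP x (fun i => t i)
  have hre : ((W : ℂ) * (w : ℂ) ^ 2 - 2 * (Q : ℂ) * (w : ℂ) + (P : ℂ)).re =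
      W * (w.re ^ 2 - w.im ^ 2) - 2 * Q * w.re + P := by
    simp only [Complex.add_re, Complex.sub_re, Complex.mul_re, Complex.ofReal_re,
      Complex.ofReal_im, pow_two, UpperHalfPlane.coe_re, UpperHalfPlane.coe_im,
      Complex.re_ofNat, Complex.im_ofNat, Complex.mul_im]
    ring
  have him : ((W : ℂ) * (w : ℂ) ^ 2 - 2 * (Q : ℂ) * (w : ℂ) + (P : ℂ)).im =
      2 * (W * w.re - Q) * w.im := by
    simp only [Complex.add_im, Complex.sub_im, Complex.mul_re, Complex.ofReal_re,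
      Complex.ofReal_im, pow_two, UpperHalfPlane.coe_re, UpperHalfPlane.coe_im,
      Complex.re_ofNat, Complex.im_ofNat, Complex.mul_im]
    ring
  have hy := w.im_pos
  constructor
  · intro h
    have h1 := congrArg Complex.im h
    have h2 := congrArg Complex.re h
    rw [him, Complex.zero_im] at h1
    rw [hre, Complex.zero_re] at h2
    have h3 : W * w.re - Q = 0 := by
      rcases mul_eq_zero.1 h1 with h4 | h4
      · linarith
      · exact absurd h4 hy.ne'
    have hx : w.re = Q / W := by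
      field_simp
      linarith
    have h5 : P * W - Q ^ 2 = (W * w.im) ^ 2 := by
      have : Q = W * w.re := by linarith
      rw [this] at h2 ⊢
      nlinarith
    have h6 : √(P * W - Q ^ 2) = W * w.im := by
      rw [h5]
      exact Real.sqrt_sq (by positivity)
    apply UpperHalfPlane.ext
    apply Complex.ext
    · show w.re = Q / W
      exact hx
    · show w.im = √(P * W - Q ^ 2) / W
      rw [h6]
      field_simp
  · intro h
    have hx : w.re = Q / W := by rw [h]; rfl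
    have hyy : w.im = √(P * W - Q ^ 2) / W := by rw [h]; rfl
    apply Complex.ext
    · rw [hre, Complex.zero_re, hx, hyy, div_pow, div_pow, Real.sq_sqrt hD.le]
      field_simp
      ring
    · rw [him, Complex.zero_im, hx]
      have : W * (Q / W) - Q = 0 := by
        field_simp
        ring
      rw [this]
      ring

private theorem ss_smul {p : ℕ} (g : SL(2, ℝ)) (x : Fin p → ℍ) (t : Fin p → ℝ) (w : ℍ)
    (h : SSeq x t w) : SSeq (fun i => g • x i) t ((g • w : ℍ) : ℂ) := by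
  unfold SSeq at *
  have hdet : (g 0 0 : ℂ) * (g 1 1 : ℂ) - (g 0 1 : ℂ) * (g 1 0 : ℂ) = 1 := by
    have := g.det_coe
    rw [Matrix.det_fin_two] at this
    exact_mod_cast this
  have hden : ∀ z : ℂ, z.im ≠ 0 → (g 1 0 : ℂ) * z + (g 1 1 : ℂ) ≠ 0 := by
    intro z hz h0
    have h1 := congrArg Complex.im h0
    have h2 := congrArg Complex.re h0
    simp only [Complex.add_im, Complex.mul_im, Complex.ofReal_re, Complex.ofReal_im, zero_mul,
      add_zero, Complex.zero_im] at h1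
    simp only [Complex.add_re, Complex.mul_re, Complex.ofReal_re, Complex.ofReal_im, zero_mul,
      sub_zero, Complex.zero_re] at h2
    rcases mul_eq_zero.1 h1 with h3 | h3
    · rw [h3, zero_mul, zero_add] at h2
      have := g.det_coe
      rw [Matrix.det_fin_two] at this
      have h4 : (g 1 0 : ℝ) = 0 := h3
      have h5 : (g 1 1 : ℝ) = 0 := h2
      rw [h4, h5] at this
      norm_num at this
    · exact hz h3
  have hw : ((g • w : ℍ) : ℂ) = ((g 0 0 : ℂ) * w + (g 0 1 : ℂ)) / ((g 1 0 : ℂ) * w + (g 1 1 : ℂ)) :=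
    UpperHalfPlane.coe_specialLinearGroup_apply g w
  have hcw := hden w w.im_pos.ne'
  have key : ∀ i, (t i : ℂ) / (((g • x i : ℍ)).im : ℂ) *
      ((((g • w : ℍ) : ℂ) - ((g • x i : ℍ) : ℂ)) *
      (((g • w : ℍ) : ℂ) - (starRingEnd ℂ) ((g • x i : ℍ) : ℂ))) =
      (1 / ((g 1 0 : ℂ) * w + (g 1 1 : ℂ)) ^ 2) * ((t i : ℂ) / ((x i).im : ℂ) *
        (((w : ℂ) - (x i : ℂ)) * ((w : ℂ) - (starRingEnd ℂ) (x i : ℂ)))) := by
    intro i
    have hz : ((g • x i : ℍ) : ℂ) =
        ((g 0 0 : ℂ) * (x i : ℂ) + (g 0 1 : ℂ)) / ((g 1 0 : ℂ) * (x i : ℂ) + (g 1 1 : ℂ)) :=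
      UpperHalfPlane.coe_specialLinearGroup_apply g (x i)
    have hzb : (starRingEnd ℂ) ((g • x i : ℍ) : ℂ) =
        ((g 0 0 : ℂ) * (starRingEnd ℂ) (x i : ℂ) + (g 0 1 : ℂ)) /
        ((g 1 0 : ℂ) * (starRingEnd ℂ) (x i : ℂ) + (g 1 1 : ℂ)) := by
      rw [hz]
      simp only [map_div₀, map_add, map_mul, Complex.conj_ofReal]
    have hcz := hden (x i) (x i).im_pos.ne'
    have hczb := hden ((starRingEnd ℂ) (x i : ℂ)) (by
      rw [Complex.conj_im]
      exact neg_ne_zero.2 (x i).im_pos.ne')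
    have hy1 : ((x i).im : ℂ) = ((x i : ℂ) - (starRingEnd ℂ) (x i : ℂ)) / (2 * Complex.I) := by
      rw [Complex.sub_conj]
      have : (2 * Complex.I) ≠ 0 := by simp
      field_simp
      push_cast
      rw [UpperHalfPlane.coe_im]
      ring
    have hy2 : (((g • x i : ℍ)).im : ℂ) =
        (((g • x i : ℍ) : ℂ) - (starRingEnd ℂ) ((g • x i : ℍ) : ℂ)) / (2 * Complex.I) := by
      rw [Complex.sub_conj]
      have : (2 * Complex.I) ≠ 0 := by simp
      field_simp
      push_cast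
      rw [UpperHalfPlane.coe_im]
      ring
    have hyy : (((g • x i : ℍ)).im : ℂ) = ((x i).im : ℂ) /
        (((g 1 0 : ℂ) * (x i : ℂ) + (g 1 1 : ℂ)) *
          ((g 1 0 : ℂ) * (starRingEnd ℂ) (x i : ℂ) + (g 1 1 : ℂ))) := by
      rw [hy2, hy1, hzb, hz]
      have : (2 * Complex.I) ≠ 0 := by simp
      rw [div_div, div_sub_div _ _ hcz hczb, div_div, div_eq_div_iff
        (mul_ne_zero (mul_ne_zero hcz hczb) this) (mul_ne_zero this (mul_ne_zero hcz hczb))]
      linear_combination (((x i : ℂ) - (starRingEnd ℂ) (x i : ℂ)) * (2 * Complex.I) *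
        (((g 1 0 : ℂ) * (x i : ℂ) + (g 1 1 : ℂ)) *
          ((g 1 0 : ℂ) * (starRingEnd ℂ) (x i : ℂ) + (g 1 1 : ℂ)))) * hdet
    have hyne : ((x i).im : ℂ) ≠ 0 := by exact_mod_cast (x i).im_pos.ne'
    have e1 : ((g • w : ℍ) : ℂ) - ((g • x i : ℍ) : ℂ) = ((w : ℂ) - (x i : ℂ)) /
        (((g 1 0 : ℂ) * w + (g 1 1 : ℂ)) * ((g 1 0 : ℂ) * (x i : ℂ) + (g 1 1 : ℂ))) := by
      rw [hw, hz, div_sub_div _ _ hcw hcz, div_eq_div_iff (mul_ne_zero hcw hcz)
        (mul_ne_zero hcw hcz)]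
      linear_combination (((w : ℂ) - (x i : ℂ)) *
        (((g 1 0 : ℂ) * w + (g 1 1 : ℂ)) * ((g 1 0 : ℂ) * (x i : ℂ) + (g 1 1 : ℂ)))) * hdet
    have e2 : ((g • w : ℍ) : ℂ) - (starRingEnd ℂ) ((g • x i : ℍ) : ℂ) =
        ((w : ℂ) - (starRingEnd ℂ) (x i : ℂ)) /
        (((g 1 0 : ℂ) * w + (g 1 1 : ℂ)) *
          ((g 1 0 : ℂ) * (starRingEnd ℂ) (x i : ℂ) + (g 1 1 : ℂ))) := by
      rw [hw, hzb, div_sub_div _ _ hcw hczb, div_eq_div_iff (mul_ne_zero hcw hczb)
        (mul_ne_zero hcw hczb)]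
      linear_combination (((w : ℂ) - (starRingEnd ℂ) (x i : ℂ)) *
        (((g 1 0 : ℂ) * w + (g 1 1 : ℂ)) *
          ((g 1 0 : ℂ) * (starRingEnd ℂ) (x i : ℂ) + (g 1 1 : ℂ)))) * hdet
    rw [e1, e2, hyy]
    generalize (x i : ℂ) = z at *
    generalize (starRingEnd ℂ) z = zb at *
    generalize (g 1 0 : ℂ) * (w : ℂ) + (g 1 1 : ℂ) = A at *
    generalize (g 1 0 : ℂ) * z + (g 1 1 : ℂ) = B at *
    generalize (g 1 0 : ℂ) * zb + (g 1 1 : ℂ) = C at *
    generalize (((x i).im : ℝ) : ℂ) = y at *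
    field_simp
  calc _ = ∑ i, (1 / ((g 1 0 : ℂ) * w + (g 1 1 : ℂ)) ^ 2) * ((t i : ℂ) / ((x i).im : ℂ) *
        (((w : ℂ) - (x i : ℂ)) * ((w : ℂ) - (starRingEnd ℂ) (x i : ℂ)))) :=
        Finset.sum_congr rfl fun i _ => key i
    _ = 0 := by rw [← Finset.mul_sum, h, mul_zero]

theorem exists_straight : ∃ st : ∀ p : ℕ, (Fin p → ℍ) → Sing p ℍ,
    (∀ (p : ℕ) (x : Fin p → ℍ) (i : Fin p), st p x (stdSimplex.vertex i) = x i) ∧
    (∀ (p : ℕ) (g : SL(2, ℝ)) (x : Fin p → ℍ) (t : stdSimplex ℝ (Fin p)),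
      st p (fun i => g • x i) t = g • st p x t) ∧
    ∀ (p : ℕ) (x : Fin (p + 1) → ℍ) (i : Fin (p + 1)),
      (st (p + 1) x).comp (faceMap p i) = st p fun l => x (i.succAbove l) := by
  refine ⟨fun p x => ⟨ssPt x, ss_cont x⟩, ?_, ?_, ?_⟩
  · intro p x i
    refine ((ss_iff x _ (x i)).1 ?_).symm
    unfold SSeq
    rw [Finset.sum_eq_single i]
    · rw [sub_self, zero_mul, mul_zero]
    · intro k _ hk
      rw [stdSimplex.vertex_coe]
      beta_reduce
      rw [Pi.single_eq_of_ne hk]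
      simp
    · intro h
      exact absurd (Finset.mem_univ i) h
  · intro p g x t
    exact ((ss_iff (fun i => g • x i) t (g • ssPt x t)).1
      (ss_smul g x _ _ ((ss_iff x t _).2 rfl))).symm
  · intro p x i
    apply ContinuousMap.ext
    intro t
    refine (ss_iff (fun l => x (i.succAbove l)) t _).1 ?_
    have h := (ss_iff x (faceMap p i t) (ssPt x (faceMap p i t))).2 rfl
    unfold SSeq at *
    rw [Fin.sum_univ_succAbove _ i] at h
    beta_reduce at h
    rw [faceMap_self] at h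
    simp only [faceMap_succAbove, Complex.ofReal_zero, zero_div, zero_mul, zero_add] at h
    exact h

end SimplVol
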