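import Pool.Agent.H54.RT.EZ
import Pool.Agent.H54.RT.AW
import Pool.Agent.H54.RT.AL

/-!
# Module TT: the natural cochain map `tt`

`tt F l = ∑_p altL (ez F (front face in S)) (back face in Y)`; it is compatible with `dd`.
* `tt_dd`. `l = []`: both sides are `0` (`tt (dd F) [] = dd F [] = 0`). Let `l ≠ []` and `G a b := altL (ez F a) b`, so
  `G [] b = 0` (`ez_nil_left`, `altL` of `0`), `G a [] = 0` (`altL_nil`, `ez_nil_right`). `tt F m = aw G m` for `m ≠ []`,
  `tt F [] = F []`, `aw G [] = 0`: so `tt F m = aw G m + [m = []] F []`, and `dd (tt F) l = dd (aw G) l + [|l| = 1] F []`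
  (`dd_add`; `dd (fun m => if m = [] then c else 0) l = [|l| = 1] c`). `aw_dtot` gives `dd (aw G) l = aw (dtot G) l`. For nonempty `a, b`:
  `dtot G a b = dd (fun u => altL (ez F u) b) a + (-1)^(|a|-1) dd (altL (ez F a)) b`; `altL` at `b` is a finite linear combination
  (unfold `altL`, `dd_smul`, `dd_sum`), so the first term is `altL (fun b' => dd (fun u => ez F u b') a) b`; the second is
  `altL (fun b' => (-1)^(|a|-1) dd (ez F a) b') b` (`dd_altL`). By `altL_congr`, only `b'` with `|b'| = |b|` (nonempty) matter, and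
  by `ez_dd` the sum is `altL (fun b' => ez (dd F) a b' - [|a| = 1 ∧ |b'| = 1] F []) b = altL (ez (dd F) a) b - [|a| = 1 ∧ |b| = 1] F []`.
  Finally `aw (fun a b => [|a| = 1 ∧ |b| = 1] c) l = [|l| = 1] c` (`aw_cons`, `aw_congr`: `|a| + |b| = |l| + 1`).
-/

set_option autoImplicit false

open scoped BigOperators Nat

namespace SimplVol

variable {S Y : Type}

/-- The natural cochain map. -/
noncomputable def tt (F : List (S × Y) → ℝ) : List (S × Y) → ℝ
  | [] => F []
  | z :: l => aw (fun a b => altL (ez F a) b) (z :: l)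

theorem tt_nil (F : List (S × Y) → ℝ) : tt F [] = F [] := rfl

theorem tt_of_ne (F : List (S × Y) → ℝ) (l : List (S × Y)) (hl : l ≠ []) :
    tt F l = aw (fun a b => altL (ez F a) b) l := by
  cases l with
  | nil => exact absurd rfl hl
  | cons z l => rfl

theorem tt_add (F G : List (S × Y) → ℝ) (l : List (S × Y)) :
    tt (fun m => F m + G m) l = tt F l + tt G l := by
  cases l with
  | nil => rfl
  | cons z l =>
    show aw (fun a b => altL (ez (fun m => F m + G m) a) b) (z :: l) =
      aw (fun a b => altL (ez F a) b) (z :: l) + aw (fun a b => altL (ez G a) b) (z :: l)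
    rw [← aw_add]
    congr 1
    funext a b
    rw [← altL_add]
    congr 1
    funext y
    exact ez_add F G a y

theorem tt_sub (F G : List (S × Y) → ℝ) (l : List (S × Y)) :
    tt (fun m => F m - G m) l = tt F l - tt G l := by
  cases l with
  | nil => rfl
  | cons z l =>
    show aw (fun a b => altL (ez (fun m => F m - G m) a) b) (z :: l) =
      aw (fun a b => altL (ez F a) b) (z :: l) - aw (fun a b => altL (ez G a) b) (z :: l)
    rw [← aw_sub]
    congr 1
    funext a b
    rw [← altL_sub]
    congr 1
    funext y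
    exact ez_sub F G a y

theorem tt_smul (c : ℝ) (F : List (S × Y) → ℝ) (l : List (S × Y)) :
    tt (fun m => c * F m) l = c * tt F l := by
  cases l with
  | nil => rfl
  | cons z l =>
    show aw (fun a b => altL (ez (fun m => c * F m) a) b) (z :: l) =
      c * aw (fun a b => altL (ez F a) b) (z :: l)
    rw [← aw_smul]
    congr 1
    funext a b
    rw [← altL_smul]
    congr 1
    funext y
    exact ez_smul c F a y

/-- Only the values of `F` on lists of the same length matter. -/
theorem tt_congr (F G : List (S × Y) → ℝ) (l : List (S × Y))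
    (h : ∀ m : List (S × Y), m.length = l.length → F m = G m) : tt F l = tt G l := by
  cases l with
  | nil => exact h [] rfl
  | cons z l =>
    show aw (fun a b => altL (ez F a) b) (z :: l) = aw (fun a b => altL (ez G a) b) (z :: l)
    refine aw_congr _ _ _ ?_
    intro a b _ _ hab _ _
    refine altL_congr _ _ _ ?_
    intro m hm
    refine ez_congr _ _ _ _ ?_
    intro m' hm'
    refine h m' ?_
    omega

theorem tt_map {S' Y' : Type} (f : S' → S) (g : Y' → Y) (F : List (S × Y) → ℝ)
    (l : List (S' × Y')) :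
    tt F (l.map (Prod.map f g)) = tt (fun m => F (m.map (Prod.map f g))) l := by
  by_cases hl : l = []
  · subst hl
    rfl
  · have hl' : l.map (Prod.map f g) ≠ [] := by
      intro h
      exact hl (List.map_eq_nil_iff.1 h)
    rw [tt_of_ne _ _ hl', tt_of_ne _ _ hl, aw_map]
    congr 1
    funext a b
    rw [altL_map]
    congr 1
    funext m
    exact ez_map f g F a m

theorem abs_tt_le (k : ℕ) : ∃ K : ℝ, 0 ≤ K ∧ ∀ (F : List (S × Y) → ℝ) (C : ℝ), 0 ≤ C →
    (∀ m, |F m| ≤ C) → ∀ l : List (S × Y), l.length = k → |tt F l| ≤ K * C := by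
  choose K hK0 hK using fun p q : ℕ => abs_ez_le (S := S) (Y := Y) p q
  have hs0 : 0 ≤ ∑ p ∈ Finset.range (k + 2), ∑ q ∈ Finset.range (k + 2), K p q :=
    Finset.sum_nonneg fun p _ => Finset.sum_nonneg fun q _ => hK0 p q
  refine ⟨1 + k * ∑ p ∈ Finset.range (k + 2), ∑ q ∈ Finset.range (k + 2), K p q, by positivity, ?_⟩
  intro F C hC hF l hl
  by_cases h : l = []
  · subst h
    have h1 := hF []
    have h2 : 0 ≤ (k * ∑ p ∈ Finset.range (k + 2), ∑ q ∈ Finset.range (k + 2), K p q) * C := by
      positivity
    show |F []| ≤ _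
    linarith
  · rw [tt_of_ne _ _ h]
    have h1 := abs_aw_le (fun a b => altL (ez F a) b)
      ((∑ p ∈ Finset.range (k + 2), ∑ q ∈ Finset.range (k + 2), K p q) * C) l ?_
    · rw [hl] at h1
      calc _ ≤ _ := h1
        _ ≤ _ := by
          have : (k : ℝ) * ((∑ p ∈ Finset.range (k + 2), ∑ q ∈ Finset.range (k + 2), K p q) * C) + C =
            (1 + k * ∑ p ∈ Finset.range (k + 2), ∑ q ∈ Finset.range (k + 2), K p q) * C := by ring
          linarith
    · intro a b _ _ hab
      refine abs_altL_le _ _ _ ?_
      intro m hm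
      have h2 := hK a.length m.length F C hC hF a m rfl rfl
      refine h2.trans (mul_le_mul_of_nonneg_right ?_ hC)
      have hp : a.length ∈ Finset.range (k + 2) := by
        rw [Finset.mem_range]; omega
      have hq : m.length ∈ Finset.range (k + 2) := by
        rw [Finset.mem_range]; omega
      calc K a.length m.length ≤ ∑ q ∈ Finset.range (k + 2), K a.length q :=
            Finset.single_le_sum (fun q _ => hK0 a.length q) hq
        _ ≤ _ := Finset.single_le_sum
            (f := fun p => ∑ q ∈ Finset.range (k + 2), K p q)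
            (fun p _ => Finset.sum_nonneg fun q _ => hK0 p q) hp

theorem TT_altL_zero (l : List Y) : altL (fun _ => 0) l = 0 := by
  unfold altL
  simp

theorem TT_dd_ite {Z : Type} (c : ℝ) (l : List Z) :
    dd (fun m : List Z => if m = [] then c else 0) l = if l.length = 1 then c else 0 := by
  cases l with
  | nil => simp
  | cons a l =>
    rw [dd_cons]
    have h1 : (fun m : List Z => if a :: m = [] then c else 0) = fun _ => 0 := by
      funext m
      simp
    rw [h1, dd_zero]
    cases l <;> simp

theorem TT_dd_altL (H : List S → List Y → ℝ) (a : List S) (b : List Y) :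
    dd (fun u => altL (H u) b) a = altL (fun b' => dd (fun u => H u b') a) b := by
  unfold altL
  rw [dd_smul, dd_sum]
  congr 1
  refine Finset.sum_congr rfl fun σ _ => ?_
  rw [dd_smul]

theorem TT_aw_zero (l : List (S × Y)) : aw (fun _ _ => 0) l = 0 := by
  induction l with
  | nil => rfl
  | cons z l ih =>
    rw [aw_cons, ih, add_zero]

theorem TT_aw_ite (c : ℝ) (l : List (S × Y)) :
    aw (fun a b => if a.length = 1 ∧ b.length = 1 then c else 0) l =
      if l.length = 1 then c else 0 := by
  by_cases h : l.length = 1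
  · obtain ⟨z, rfl⟩ := List.length_eq_one_iff.1 h
    rw [aw_cons, aw_nil]
    simp
  · rw [if_neg h]
    refine Eq.trans (aw_congr _ (fun _ _ => 0) _ ?_) (TT_aw_zero l)
    intro a b _ _ hab _ _
    rw [if_neg]
    rintro ⟨h1, h2⟩
    omega

theorem tt_dd (F : List (S × Y) → ℝ) (l : List (S × Y)) : tt (dd F) l = dd (tt F) l := by
  by_cases hl : l = []
  · subst hl
    rfl
  obtain ⟨G, hG⟩ : ∃ G : List S → List Y → ℝ, G = fun a b => altL (ez F a) b := ⟨_, rfl⟩
  have hG1 : ∀ b, G [] b = 0 := by
    intro b
    rw [hG]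
    show altL (ez F []) b = 0
    have h1 : ez F [] = fun _ => 0 := by
      funext y
      exact ez_nil_left F y
    rw [h1]
    exact TT_altL_zero b
  have hG2 : ∀ a, G a [] = 0 := by
    intro a
    rw [hG]
    show altL (ez F a) [] = 0
    rw [altL_nil, ez_nil_right]
  have hF : tt F = fun m => aw G m + if m = [] then F [] else 0 := by
    funext m
    cases m with
    | nil => simp [tt_nil, aw_nil]
    | cons z m =>
      rw [tt_of_ne _ _ (List.cons_ne_nil z m), hG]
      simp
  rw [hF, dd_add, TT_dd_ite]
  have h3 := aw_dtot G l hl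
  rw [hG1, hG2, mul_zero, add_zero, add_zero] at h3
  rw [← h3, ← TT_aw_ite, ← aw_add, tt_of_ne _ _ hl]
  refine aw_congr _ _ _ ?_
  intro a b ha hb _ _ _
  unfold dtot
  rw [hG]
  show altL (ez (dd F) a) b = dd (fun u => altL (ez F u) b) a +
    (-1) ^ (a.length - 1) * dd (altL (ez F a)) b + _
  rw [TT_dd_altL, dd_altL, ← altL_smul, ← altL_add]
  have h4 : (if a.length = 1 ∧ b.length = 1 then F [] else 0) =
      altL (fun b' : List Y => if a.length = 1 ∧ b'.length = 1 then F [] else 0) b := by
    by_cases h5 : b.length = 1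
    · obtain ⟨y, rfl⟩ := List.length_eq_one_iff.1 h5
      rw [altL_singleton]
    · rw [if_neg (fun h => h5 h.2)]
      refine (Eq.trans (altL_congr _ (fun _ => 0) _ ?_) (TT_altL_zero b)).symm
      intro m hm
      rw [if_neg]
      rintro ⟨_, h6⟩
      omega
  rw [h4, ← altL_add]
  refine altL_congr _ _ _ ?_
  intro m hm
  have hm' : m ≠ [] := by
    rintro rfl
    apply hb
    exact List.length_eq_zero_iff.1 hm.symm
  exact ez_dd F a m ha hm'

end SimplVol
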