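import Mathlib

/-!
# Module WM: the mean on words

`EA a P` is the average of `P` over the `2^a` words of length `a`: `EA 0 P = P []`, `EA (a+1) P = ½ (EA a (P (true :: ·)) + EA a (P (false :: ·)))`.
* `EA` is linear, monotone, `EA a 1 = 1`, `EA (a+1) P = ½ (EA a (P (· ++ [true])) + EA a (P (· ++ [false])))` (induction on `a`), so `EA a (P ∘ rv) = EA a P` (induction, `rv (t :: w) = rv w ++ [!t]`).
* Let `av N P = (1/(N+1)) ∑_{a ≤ N} EA a P`. For bounded `P` (`|P| ≤ C`): `av N P - ½ ∑_t av N (P (t :: ·)) = (1/(N+1)) (EA 0 P - EA (N+1) P)`, at most `2C/(N+1)`.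
* `exists_wmean`: let `U = Filter.hyperfilter ℕ` (an ultrafilter `≤ cofinite = atTop`). For bounded `P` the sequence `av N P` lies in the compact set `[-C, C]`, so it converges along `U` (`IsCompact.ultrafilter_le_nhds`,
  or `Ultrafilter.le_nhds_lim`...). The limit is linear on the submodule of the bounded functions; extend it to a linear map on all functions (`LinearMap.exists_extend`). All properties follow by taking limits
  along `U` (differences that tend to `0` along `atTop` tend to `0` along `U`; `tendsto_nhds_unique`). `small`: `av N (1/(len+1)) = (1/(N+1)) ∑_{a≤N} 1/(a+1) → 0`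
  (Cesàro: `Filter.Tendsto.cesaro`).
* `key`: let `|q| ≤ C`, `q u = ½ (q (u ++ [true]) + q (u ++ [false]))`, `d u = ½ (q (u ++ [true]) - q (u ++ [false]))`. Then `EA a q = q []` for all `a`, `q (u ++ [t]) = q u ± d u`, `EA (a+1) (q²) = EA a (q² + d²)`, so
  `∑_{a ≤ N} EA a (d²) = EA (N+1) (q²) - (q [])² ≤ C²`. By Jensen (`(EA a P)² ≤ EA a (P²)`, induction with `((x+y)/2)² ≤ (x²+y²)/2`) `|EA a (q (· ++ [t])) - q []|² ≤ EA a (d²)` and by Cauchy-Schwarz
  (`inner_mul_le_norm_mul_norm` or `Finset.sum_div_card_le..`, `sq_sum_le_card_mul_sum_sq`) `|av N (q (· ++ [t])) - q []| ≤ C/√(N+1) → 0`.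
-/

set_option autoImplicit false

open scoped BigOperators

namespace SimplVol

/-- Words in two letters (left and right turns). -/
abbrev Wd : Type := List Bool

/-- The word of the reversed path. -/
def rv (w : Wd) : Wd := (w.map fun t => !t).reverse

theorem rv_nil : rv [] = [] := rfl

theorem rv_cons (t : Bool) (w : Wd) : rv (t :: w) = rv w ++ [!t] := by
  simp [rv]

theorem rv_append (v w : Wd) : rv (v ++ w) = rv w ++ rv v := by
  simp [rv]

theorem rv_rv (w : Wd) : rv (rv w) = w := by
  simp [rv, Function.comp_def]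

/-- A mean on words. -/
structure WMean (M : (Wd → ℝ) →ₗ[ℝ] ℝ) : Prop where
  bdd : ∀ (P : Wd → ℝ) (C : ℝ), (∀ w, |P w| ≤ C) → |M P| ≤ C
  one : M (fun _ => 1) = 1
  left : ∀ P : Wd → ℝ, (∃ C, ∀ w, |P w| ≤ C) →
    M P = (1 / 2) * (M (fun w => P (true :: w)) + M (fun w => P (false :: w)))
  rev : ∀ P : Wd → ℝ, (∃ C, ∀ w, |P w| ≤ C) → M (fun w => P (rv w)) = M P
  small : M (fun w => 1 / ((w.length : ℝ) + 1)) = 0
  key : ∀ q : Wd → ℝ, (∃ C, ∀ w, |q w| ≤ C) →
    (∀ u, q u = (1 / 2) * (q (u ++ [true]) + q (u ++ [false]))) →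
    ∀ t : Bool, M (fun u => q (u ++ [t])) = q []

/-- Average over the words of length `a`. -/
noncomputable def WM_EA : ℕ → (Wd → ℝ) → ℝ
  | 0, P => P []
  | a + 1, P => (1 / 2) * (WM_EA a (fun w => P (true :: w)) + WM_EA a (fun w => P (false :: w)))

theorem WM_zero (P : Wd → ℝ) : WM_EA 0 P = P [] := rfl

theorem WM_succ (a : ℕ) (P : Wd → ℝ) : WM_EA (a + 1) P =
    (1 / 2) * (WM_EA a (fun w => P (true :: w)) + WM_EA a (fun w => P (false :: w))) := rfl

theorem WM_add (a : ℕ) (P Q : Wd → ℝ) : WM_EA a (fun w => P w + Q w) = WM_EA a P + WM_EA a Q := by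
  induction a generalizing P Q with
  | zero => rfl
  | succ a ih =>
    rw [WM_succ, WM_succ, WM_succ, ih, ih]
    ring

theorem WM_smul (a : ℕ) (c : ℝ) (P : Wd → ℝ) : WM_EA a (fun w => c * P w) = c * WM_EA a P := by
  induction a generalizing P with
  | zero => rfl
  | succ a ih =>
    rw [WM_succ, WM_succ, ih, ih]
    ring

theorem WM_mono (a : ℕ) (P Q : Wd → ℝ) (h : ∀ w, P w ≤ Q w) : WM_EA a P ≤ WM_EA a Q := by
  induction a generalizing P Q with
  | zero => exact h []
  | succ a ih =>
    rw [WM_succ, WM_succ]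
    have h1 := ih (fun w => P (true :: w)) (fun w => Q (true :: w)) (fun w => h _)
    have h2 := ih (fun w => P (false :: w)) (fun w => Q (false :: w)) (fun w => h _)
    linarith

theorem WM_len (a : ℕ) (g : ℕ → ℝ) : WM_EA a (fun w => g w.length) = g a := by
  induction a generalizing g with
  | zero => rfl
  | succ a ih =>
    rw [WM_succ]
    simp only [List.length_cons]
    rw [ih (fun k => g (k + 1))]
    ring

theorem WM_const (a : ℕ) (c : ℝ) : WM_EA a (fun _ => c) = c := WM_len a (fun _ => c)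

theorem WM_bdd (a : ℕ) (P : Wd → ℝ) (C : ℝ) (h : ∀ w, |P w| ≤ C) : |WM_EA a P| ≤ C := by
  rw [abs_le]
  constructor
  · have := WM_mono a (fun _ => -C) P (fun w => (abs_le.1 (h w)).1)
    rwa [WM_const] at this
  · have := WM_mono a P (fun _ => C) (fun w => (abs_le.1 (h w)).2)
    rwa [WM_const] at this

theorem WM_right (a : ℕ) (P : Wd → ℝ) : WM_EA (a + 1) P =
    (1 / 2) * (WM_EA a (fun w => P (w ++ [true])) + WM_EA a (fun w => P (w ++ [false]))) := by
  induction a generalizing P with
  | zero => rfl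
  | succ a ih =>
    rw [WM_succ, ih, ih, WM_succ a, WM_succ a]
    simp only [List.cons_append]
    ring

theorem WM_rv (a : ℕ) (P : Wd → ℝ) : WM_EA a (fun w => P (rv w)) = WM_EA a P := by
  induction a generalizing P with
  | zero => rfl
  | succ a ih =>
    rw [WM_succ, WM_right]
    simp only [rv_cons, Bool.not_true, Bool.not_false]
    rw [ih (fun w => P (w ++ [false])), ih (fun w => P (w ++ [true]))]
    ring

theorem WM_jensen (a : ℕ) (P : Wd → ℝ) : (WM_EA a P) ^ 2 ≤ WM_EA a (fun w => P w ^ 2) := by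
  induction a generalizing P with
  | zero => exact le_rfl
  | succ a ih =>
    rw [WM_succ, WM_succ]
    have h1 := ih (fun w => P (true :: w))
    have h2 := ih (fun w => P (false :: w))
    nlinarith [sq_nonneg (WM_EA a (fun w => P (true :: w)) - WM_EA a (fun w => P (false :: w)))]

/-- Cesàro averages. -/
noncomputable def WM_av (N : ℕ) (P : Wd → ℝ) : ℝ := (∑ a ∈ Finset.range (N + 1), WM_EA a P) / ((N : ℝ) + 1)

theorem WM_av_add (N : ℕ) (P Q : Wd → ℝ) : WM_av N (fun w => P w + Q w) = WM_av N P + WM_av N Q := by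
  unfold WM_av
  simp only [WM_add, Finset.sum_add_distrib]
  rw [add_div]

theorem WM_av_smul (N : ℕ) (c : ℝ) (P : Wd → ℝ) : WM_av N (fun w => c * P w) = c * WM_av N P := by
  unfold WM_av
  simp only [WM_smul]
  rw [← Finset.mul_sum, mul_div_assoc]

theorem WM_av_bdd (N : ℕ) (P : Wd → ℝ) (C : ℝ) (h : ∀ w, |P w| ≤ C) : |WM_av N P| ≤ C := by
  unfold WM_av
  have hN : (0 : ℝ) < (N : ℝ) + 1 := by positivity
  rw [abs_div, abs_of_pos hN, div_le_iff₀ hN]
  calc |∑ a ∈ Finset.range (N + 1), WM_EA a P| ≤ ∑ a ∈ Finset.range (N + 1), |WM_EA a P| :=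
        Finset.abs_sum_le_sum_abs _ _
    _ ≤ ∑ _a ∈ Finset.range (N + 1), C := Finset.sum_le_sum fun a _ => WM_bdd a P C h
    _ = C * ((N : ℝ) + 1) := by
        rw [Finset.sum_const, Finset.card_range, nsmul_eq_mul]
        push_cast
        ring

theorem WM_av_const (N : ℕ) (c : ℝ) : WM_av N (fun _ => c) = c := by
  unfold WM_av
  simp only [WM_const]
  rw [Finset.sum_const, Finset.card_range, nsmul_eq_mul]
  have hN : (N : ℝ) + 1 ≠ 0 := by positivity
  push_cast
  rw [mul_comm, mul_div_assoc, div_self hN, mul_one]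

theorem WM_av_tele (N : ℕ) (P : Wd → ℝ) :
    WM_av N P - (1 / 2) * (WM_av N (fun w => P (true :: w)) + WM_av N (fun w => P (false :: w))) =
      (WM_EA 0 P - WM_EA (N + 1) P) / ((N : ℝ) + 1) := by
  have h1 : ∑ a ∈ Finset.range (N + 1), (WM_EA (a + 1) P - WM_EA a P) = WM_EA (N + 1) P - WM_EA 0 P :=
    Finset.sum_range_sub (fun a => WM_EA a P) (N + 1)
  have h2 : ∑ a ∈ Finset.range (N + 1), WM_EA (a + 1) P =
      (1 / 2) * (∑ a ∈ Finset.range (N + 1), WM_EA a (fun w => P (true :: w)) +
        ∑ a ∈ Finset.range (N + 1), WM_EA a (fun w => P (false :: w))) := by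
    rw [← Finset.sum_add_distrib, Finset.mul_sum]
    rfl
  rw [Finset.sum_sub_distrib] at h1
  unfold WM_av
  have h3 : ∑ a ∈ Finset.range (N + 1), WM_EA a P -
      (1 / 2) * (∑ a ∈ Finset.range (N + 1), WM_EA a (fun w => P (true :: w)) +
        ∑ a ∈ Finset.range (N + 1), WM_EA a (fun w => P (false :: w))) =
      WM_EA 0 P - WM_EA (N + 1) P := by
    rw [← h2]
    linarith
  rw [← h3]
  ring

/-- the ultrafilter -/
noncomputable def WM_U : Ultrafilter ℕ := Filter.hyperfilter ℕ

theorem WM_U_le : (WM_U : Filter ℕ) ≤ Filter.atTop := Nat.hyperfilter_le_atTop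

theorem WM_lim (P : Wd → ℝ) (C : ℝ) (h : ∀ w, |P w| ≤ C) :
    ∃ L : ℝ, |L| ≤ C ∧ Filter.Tendsto (fun N => WM_av N P) WM_U (nhds L) := by
  have h1 : (Set.Icc (-C) C) ∈ WM_U.map (fun N => WM_av N P) := by
    rw [Ultrafilter.mem_map]
    refine Filter.mem_of_superset Filter.univ_mem fun N _ => ?_
    exact abs_le.1 (WM_av_bdd N P C h)
  obtain ⟨L, hL, hle⟩ := isCompact_Icc.ultrafilter_le_nhds' (WM_U.map (fun N => WM_av N P)) h1
  exact ⟨L, abs_le.2 hL, hle⟩

/-- functions with a limit along the ultrafilter -/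
def WM_S : Submodule ℝ (Wd → ℝ) where
  carrier := {P | ∃ L : ℝ, Filter.Tendsto (fun N => WM_av N P) WM_U (nhds L)}
  zero_mem' := ⟨0, by
    have : (fun N => WM_av N (0 : Wd → ℝ)) = fun _ => 0 := funext fun N => WM_av_const N 0
    rw [this]
    exact tendsto_const_nhds⟩
  add_mem' := by
    rintro P Q ⟨L, hL⟩ ⟨L', hL'⟩
    refine ⟨L + L', ?_⟩
    have : (fun N => WM_av N (P + Q)) = fun N => WM_av N P + WM_av N Q := funext fun N => WM_av_add N P Q
    rw [this]
    exact hL.add hL'
  smul_mem' := by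
    rintro c P ⟨L, hL⟩
    refine ⟨c * L, ?_⟩
    have : (fun N => WM_av N (c • P)) = fun N => c * WM_av N P := funext fun N => WM_av_smul N c P
    rw [this]
    exact hL.const_mul c

theorem WM_exists : ∃ M : (Wd → ℝ) →ₗ[ℝ] ℝ, ∀ (P : Wd → ℝ) (L : ℝ),
    Filter.Tendsto (fun N => WM_av N P) WM_U (nhds L) → M P = L := by
  have hch : ∀ P : WM_S, Filter.Tendsto (fun N => WM_av N P.1) WM_U (nhds P.2.choose) :=
    fun P => P.2.choose_spec
  let M0 : WM_S →ₗ[ℝ] ℝ :=
    { toFun := fun P => P.2.choose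
      map_add' := fun P Q => by
        refine tendsto_nhds_unique (hch (P + Q)) ?_
        have : (fun N => WM_av N (P + Q).1) = fun N => WM_av N P.1 + WM_av N Q.1 :=
          funext fun N => WM_av_add N P.1 Q.1
        rw [this]
        exact (hch P).add (hch Q)
      map_smul' := fun c P => by
        refine tendsto_nhds_unique (hch (c • P)) ?_
        have : (fun N => WM_av N (c • P).1) = fun N => c * WM_av N P.1 :=
          funext fun N => WM_av_smul N c P.1
        rw [this]
        exact (hch P).const_mul c }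
  obtain ⟨M, hM⟩ := M0.exists_extend
  refine ⟨M, fun P L hL => ?_⟩
  have hP : P ∈ WM_S := ⟨L, hL⟩
  have h1 : M P = M0 ⟨P, hP⟩ := LinearMap.congr_fun hM ⟨P, hP⟩
  rw [h1]
  exact tendsto_nhds_unique (hch ⟨P, hP⟩) hL

theorem WM_inv_tendsto : Filter.Tendsto (fun N : ℕ => 1 / ((N : ℝ) + 1)) Filter.atTop (nhds 0) :=
  tendsto_one_div_add_atTop_nhds_zero_nat

theorem exists_wmean : ∃ M : (Wd → ℝ) →ₗ[ℝ] ℝ, WMean M := by
  obtain ⟨M, hM⟩ := WM_exists
  have hMt : ∀ (P : Wd → ℝ) (L : ℝ), Filter.Tendsto (fun N => WM_av N P) Filter.atTop (nhds L) → M P = L :=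
    fun P L h => hM P L (h.mono_left WM_U_le)
  refine ⟨M, ?_, ?_, ?_, ?_, ?_, ?_⟩
  · intro P C h
    obtain ⟨L, hL, ht⟩ := WM_lim P C h
    rw [hM P L ht]
    exact hL
  · refine hM _ 1 ?_
    simp only [WM_av_const]
    exact tendsto_const_nhds
  · rintro P ⟨C, h⟩
    obtain ⟨L, hL, ht⟩ := WM_lim P C h
    obtain ⟨L1, hL1, ht1⟩ := WM_lim (fun w => P (true :: w)) C (fun w => h _)
    obtain ⟨L2, hL2, ht2⟩ := WM_lim (fun w => P (false :: w)) C (fun w => h _)
    rw [hM P L ht, hM _ L1 ht1, hM _ L2 ht2]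
    have h0 : Filter.Tendsto (fun N : ℕ => WM_av N P -
        (1 / 2) * (WM_av N (fun w => P (true :: w)) + WM_av N (fun w => P (false :: w)))) Filter.atTop
        (nhds 0) := by
      simp only [WM_av_tele]
      have hb : ∀ N : ℕ, |(WM_EA 0 P - WM_EA (N + 1) P) / ((N : ℝ) + 1)| ≤ (2 * C) * (1 / ((N : ℝ) + 1)) := by
        intro N
        have hN : (0 : ℝ) < (N : ℝ) + 1 := by positivity
        rw [abs_div, abs_of_pos hN, mul_one_div]
        refine div_le_div_of_nonneg_right ?_ hN.le
        have h1 := WM_bdd 0 P C h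
        have h2 := WM_bdd (N + 1) P C h
        calc |WM_EA 0 P - WM_EA (N + 1) P| ≤ |WM_EA 0 P| + |WM_EA (N + 1) P| := abs_sub _ _
          _ ≤ 2 * C := by linarith
      refine squeeze_zero_norm hb ?_
      have := WM_inv_tendsto.const_mul (2 * C)
      rwa [mul_zero] at this
    have h1 := ht.sub ((ht1.add ht2).const_mul (1 / 2))
    have h2 := tendsto_nhds_unique h1 (h0.mono_left WM_U_le)
    linarith
  · rintro P ⟨C, h⟩
    obtain ⟨L, hL, ht⟩ := WM_lim P C h
    rw [hM P L ht]
    refine hM _ L ?_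
    have : (fun N => WM_av N (fun w => P (rv w))) = fun N => WM_av N P := by
      funext N
      unfold WM_av
      simp only [WM_rv]
    rw [this]
    exact ht
  · refine hMt _ 0 ?_
    have h1 : (fun N => WM_av N (fun w : Wd => 1 / ((w.length : ℝ) + 1))) =
        fun N : ℕ => (((N + 1 : ℕ) : ℝ))⁻¹ * ∑ a ∈ Finset.range (N + 1), 1 / ((a : ℝ) + 1) := by
      funext N
      unfold WM_av
      rw [div_eq_inv_mul]
      push_cast
      congr 1
      refine Finset.sum_congr rfl fun a _ => ?_
      exact WM_len a (fun k => 1 / ((k : ℝ) + 1))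
    rw [h1]
    exact WM_inv_tendsto.cesaro.comp (Filter.tendsto_add_atTop_nat 1)
  · rintro q ⟨C, h⟩ hq t
    set d : Wd → ℝ := fun u => (1 / 2) * (q (u ++ [true]) - q (u ++ [false])) with hd
    have q1 : ∀ u, q (u ++ [true]) = q u + d u := fun u => by
      have := hq u
      simp only [hd]
      linarith
    have q2 : ∀ u, q (u ++ [false]) = q u - d u := fun u => by
      have := hq u
      simp only [hd]
      linarith
    have e1 : ∀ a, WM_EA a q = q [] := by
      intro a
      induction a with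
      | zero => rfl
      | succ a ih =>
        rw [WM_right, ← WM_add, ← WM_smul]
        have : (fun w => (1 / 2 : ℝ) * (q (w ++ [true]) + q (w ++ [false]))) = q :=
          funext fun w => (hq w).symm
        rw [this, ih]
    have e2 : ∀ a, WM_EA (a + 1) (fun w => q w ^ 2) = WM_EA a (fun w => q w ^ 2) +
        WM_EA a (fun w => d w ^ 2) := by
      intro a
      rw [WM_right, ← WM_add, ← WM_smul, ← WM_add]
      congr 1
      funext w
      rw [q1, q2]
      ring
    have e3 : ∀ N : ℕ, ∑ a ∈ Finset.range (N + 1), WM_EA a (fun w => d w ^ 2) ≤ C ^ 2 := by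
      intro N
      have h1 : ∑ a ∈ Finset.range (N + 1), WM_EA a (fun w => d w ^ 2) =
          WM_EA (N + 1) (fun w => q w ^ 2) - WM_EA 0 (fun w => q w ^ 2) := by
        rw [← Finset.sum_range_sub (fun a => WM_EA a (fun w => q w ^ 2)) (N + 1)]
        refine Finset.sum_congr rfl fun a _ => ?_
        rw [e2]
        ring
      rw [h1]
      have h2 : WM_EA (N + 1) (fun w => q w ^ 2) ≤ C ^ 2 := by
        have := WM_mono (N + 1) (fun w => q w ^ 2) (fun _ => C ^ 2) (fun w => by
          have h3 := h w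
          rw [← sq_abs]
          exact pow_le_pow_left₀ (abs_nonneg _) h3 2)
        rwa [WM_const] at this
      have h4 : 0 ≤ WM_EA 0 (fun w => q w ^ 2) := sq_nonneg (q [])
      linarith
    have e4 : ∀ N : ℕ, (WM_av N d) ^ 2 ≤ C ^ 2 * (1 / ((N : ℝ) + 1)) := by
      intro N
      have hN : (0 : ℝ) < (N : ℝ) + 1 := by positivity
      unfold WM_av
      rw [div_pow, mul_one_div, div_le_div_iff₀ (by positivity) hN]
      have h1 : (∑ a ∈ Finset.range (N + 1), WM_EA a d) ^ 2 ≤
          ((N : ℝ) + 1) * ∑ a ∈ Finset.range (N + 1), WM_EA a (fun w => d w ^ 2) := by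
        have h2 := sq_sum_le_card_mul_sum_sq (s := Finset.range (N + 1)) (f := fun a => WM_EA a d)
        rw [Finset.card_range] at h2
        push_cast at h2
        refine h2.trans (mul_le_mul_of_nonneg_left ?_ hN.le)
        exact Finset.sum_le_sum fun a _ => WM_jensen a d
      have h3 := mul_le_mul_of_nonneg_left (e3 N) hN.le
      calc (∑ a ∈ Finset.range (N + 1), WM_EA a d) ^ 2 * ((N : ℝ) + 1)
          ≤ (((N : ℝ) + 1) * C ^ 2) * ((N : ℝ) + 1) :=
            mul_le_mul_of_nonneg_right (h1.trans h3) hN.le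
        _ = C ^ 2 * ((N : ℝ) + 1) ^ 2 := by ring
    have e5 : Filter.Tendsto (fun N => WM_av N d) Filter.atTop (nhds 0) := by
      have h1 : Filter.Tendsto (fun N => (WM_av N d) ^ 2) Filter.atTop (nhds 0) := by
        refine squeeze_zero (fun N => sq_nonneg _) e4 ?_
        have := WM_inv_tendsto.const_mul (C ^ 2)
        rwa [mul_zero] at this
      have h2 := (Real.continuous_sqrt.tendsto 0).comp h1
      rw [Real.sqrt_zero] at h2
      rw [tendsto_zero_iff_abs_tendsto_zero]
      refine h2.congr fun N => ?_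
      simp only [Function.comp_apply]
      rw [Real.sqrt_sq_eq_abs]
    have e6 : ∀ N, WM_av N q = q [] := by
      intro N
      have : WM_av N q = WM_av N (fun _ => q []) := by
        unfold WM_av
        simp only [e1, WM_const]
      rw [this, WM_av_const]
    refine hMt _ _ ?_
    cases t with
    | true =>
      have h1 : (fun N => WM_av N (fun u => q (u ++ [true]))) = fun N => q [] + WM_av N d := by
        funext N
        simp only [q1]
        rw [WM_av_add, e6]
      rw [h1]
      have := e5.const_add (q [])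
      rwa [add_zero] at this
    | false =>
      have h1 : (fun N => WM_av N (fun u => q (u ++ [false]))) = fun N => q [] + (-1) * WM_av N d := by
        funext N
        have h2 : (fun u => q (u ++ [false])) = fun u => q u + (-1) * d u := by
          funext u
          rw [q2]
          ring
        rw [h2, WM_av_add N q (fun u => (-1) * d u), WM_av_smul, e6]
      rw [h1]
      have := (e5.const_mul (-1)).const_add (q [])
      rwa [mul_zero, add_zero] at this

end SimplVol
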