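import Pool.Agent.H54.RT.MN
import Pool.Agent.H74.SV.BC
import Pool.Agent.H74.SV.EV
import Pool.Agent.H74.SV.AR

/-!
# Module ZP: evaluation of cochains on the chain of the cube

Let `IY` be `ℍ` with the indiscrete topology (`def IY : Type := ℍ`, `instance : TopologicalSpace IY := ⊤`), so every map to `IY` is continuous (`continuous_top`). For `P : Fin n → Fin 3 → ℍ` let `σ j : Sing 3 IY` be a map with `σ j (vertex i) = P j i` (e.g. `t ↦ if t = vertex 1 then P j 1 else if t = vertex 2 then P j 2 else P j 0`;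
the vertices are distinct).
For `B : (Fin p → Fin n → ℍ) → ℝ` let `ZP_ev B : Chain p (∀ _ : Fin n, IY) →ₗ[ℝ] ℝ := Finsupp.linearCombination ℝ fun τ => B fun i j => τ (stdSimplex.vertex i) j`.
* `ZP_ev (dB) w = ZP_ev B (boundary p _ w)` for `dB x = ∑_i (-1)^i B (x ∘ i.succAbove)` (check on `single τ a`; `faceMap p i (vertex l) = vertex (i.succAbove l)`: `stdSimplex.map_vertex`), as in `pairF_coboundary` in `Pool/Agent/H74/SV/CP.lean`.
* vertices of the cells: `cell σ y (vertex k) j = σ j (vertex (ty (y k) j)) = P j (ty (y k) j)` (`tri_vertex` in `Pool/Agent/H74/SV/AF.lean`); `ecell j σ e y (vertex k) i` is `P i (ty (y k) i)` for `i ≠ j` and `e (vertex (if y k (finProdFinEquiv (j, 1)) then 1 else 0))` for `i = j` (`col` at a vertex is `1` or `0`, `edgeMap` at `0`, `1` is the vertex `0`, `1`: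
  see `tri_vertex` and the lemmas of module AF for the method); for `e = (σ j).comp (faceMap 2 i)` this is `P j (i.succAbove (if .. then 1 else 0))`.
* `zp_formula`: `ZP_ev (dB) (cubeChain σ) = ZP_ev B (boundary _ _ (cubeChain σ))`, `boundary_cubeChain hn σ`, unfold `edgeChain`.
* `zp_vol`: `vol n (fun k j => P j (ty (y k) j)) = (∏_j area (P j 0) (P j 1) (P j 2)) * wvol n y` (`area_or3`, as in `vol_cell` of `Pool/Agent/H74/SV/PR.lean`), and `cub_wvol`.
-/

set_option autoImplicit false

open scoped BigOperators UpperHalfPlane MatrixGroups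

namespace SimplVol

/-- The vertices of the cell of an edge. -/
def ept {n : ℕ} (P : Fin n → Fin 3 → ℍ) (j : Fin n) (u v : ℍ) {p : ℕ}
    (y : Fin p → Fin (n * 2) → Bool) (k : Fin p) (i : Fin n) : ℍ :=
  if i = j then (if y k (finProdFinEquiv (j, 1)) = true then v else u) else P i (ty (y k) i)

/-- The evaluation on the chain of an edge. -/
noncomputable def eev {n : ℕ} (B : (Fin (n * 2) → Fin n → ℍ) → ℝ) (P : Fin n → Fin 3 → ℍ)
    (j : Fin n) (u v : ℍ) : ℝ :=
  ∑ y : Fin (n * 2) → Fin (n * 2) → Bool,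
    if ∀ k, y k (finProdFinEquiv (j, 0)) = true then
      fc (n * 2) (finProdFinEquiv (j, 0)) y * B (ept P j u v y) else 0

/-- The upper half plane with the indiscrete topology. -/
def ZPY : Type := ℍ

instance zpTop : TopologicalSpace ZPY := ⊤

open Classical in
/-- A singular triangle with given vertices. -/
noncomputable def zpS (Q : Fin 3 → ℍ) : Sing 3 ZPY :=
  ⟨fun t => if t 1 = 1 then Q 1 else if t 2 = 1 then Q 2 else Q 0, continuous_top⟩

theorem zpS_vertex (Q : Fin 3 → ℍ) (i : Fin 3) : zpS Q (stdSimplex.vertex i) = Q i := by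
  classical
  have h : zpS Q (stdSimplex.vertex i) =
      (if (stdSimplex.vertex i : stdSimplex ℝ (Fin 3)) 1 = 1 then Q 1 else
        if (stdSimplex.vertex i : stdSimplex ℝ (Fin 3)) 2 = 1 then Q 2 else Q 0 : ℍ) := by
    unfold zpS
    simp only [ContinuousMap.coe_mk]
    congr
  rw [h, stdSimplex.vertex_coe]
  fin_cases i <;> simp

/-- Evaluation of a cochain which depends on the vertices only. -/
noncomputable def zpE {n p : ℕ} (B : (Fin p → Fin n → ℍ) → ℝ) :
    Chain p (∀ _ : Fin n, ZPY) →ₗ[ℝ] ℝ :=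
  Finsupp.linearCombination ℝ fun τ : Sing p (∀ _ : Fin n, ZPY) =>
    B fun i j => τ (stdSimplex.vertex i) j

theorem zpE_boundary {n p : ℕ} (B : (Fin p → Fin n → ℍ) → ℝ)
    (w : Chain (p + 1) (∀ _ : Fin n, ZPY)) :
    zpE (fun x => ∑ i : Fin (p + 1), (-1 : ℝ) ^ (i : ℕ) * B (fun l => x (i.succAbove l))) w =
      zpE B (boundary p _ w) := by
  have key : zpE (fun x => ∑ i : Fin (p + 1), (-1 : ℝ) ^ (i : ℕ) *
      B (fun l => x (i.succAbove l))) = (zpE B) ∘ₗ (boundary p (∀ _ : Fin n, ZPY)) := by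
    refine Finsupp.lhom_ext fun σ a => ?_
    rw [LinearMap.comp_apply, zpE, boundary, Finsupp.linearCombination_single,
      Finsupp.linearCombination_single, map_smul, map_sum]
    congr 1
    refine Finset.sum_congr rfl fun i _ => ?_
    rw [map_smul, zpE, Finsupp.linearCombination_single, one_smul, smul_eq_mul]
    congr 1
    congr 1
    funext l j
    have h3 : faceMap p i (stdSimplex.vertex l) = stdSimplex.vertex (i.succAbove l) :=
      stdSimplex.map_vertex _ _
    rw [ContinuousMap.comp_apply, h3]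
  rw [key]
  rfl

theorem zp_cell {n p : ℕ} (P : Fin n → Fin 3 → ℍ) (y : Fin p → Fin (n * 2) → Bool) (k : Fin p)
    (j : Fin n) : cell (fun j => zpS (P j)) y (stdSimplex.vertex k) j = P j (ty (y k) j) := by
  show zpS (P j) (tri y j (stdSimplex.vertex k)) = _
  rw [tri_vertex, zpS_vertex]

theorem zp_edgeMap (b : Bool) : edgeMap (if b = true then 1 else 0) =
    stdSimplex.vertex (if b = true then 1 else 0 : Fin 2) := by
  apply stdSimplex.ext
  funext k
  rw [AF_edgeMap_apply, stdSimplex.vertex_coe]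
  cases b <;> fin_cases k <;> simp

theorem zp_ecell {n p : ℕ} (P : Fin n → Fin 3 → ℍ) (j : Fin n) (a : Fin 3)
    (y : Fin p → Fin (n * 2) → Bool) (k : Fin p) (i : Fin n) :
    ecell j (fun j => zpS (P j)) ((zpS (P j)).comp (faceMap 2 a)) y (stdSimplex.vertex k) i =
      ept P j (P j (a.succAbove 0)) (P j (a.succAbove 1)) y k i := by
  show (Function.update (fun i => (zpS (P i)).comp (tri y i)) j
    (((zpS (P j)).comp (faceMap 2 a)).comp
      (edgeMap.comp (col fun k => y k (finProdFinEquiv (j, 1)))))) i (stdSimplex.vertex k) = _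
  unfold ept
  by_cases h : i = j
  · subst h
    rw [Function.update_self, if_pos rfl]
    show zpS (P i) (faceMap 2 a (edgeMap (col (fun k => y k (finProdFinEquiv (i, 1)))
      (stdSimplex.vertex k)))) = _
    rw [col_vertex, zp_edgeMap]
    have h3 : ∀ l : Fin 2, faceMap 2 a (stdSimplex.vertex l) = stdSimplex.vertex (a.succAbove l) :=
      fun l => stdSimplex.map_vertex _ _
    rw [h3, zpS_vertex]
    split_ifs <;> rfl
  · rw [Function.update_of_ne h, if_neg h]
    show zpS (P i) (tri y i (stdSimplex.vertex k)) = _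
    rw [tri_vertex, zpS_vertex]

theorem zp_formula {n : ℕ} (hn : 1 ≤ n) (B : (Fin (n * 2) → Fin n → ℍ) → ℝ)
    (P : Fin n → Fin 3 → ℍ) :
    ∑ y : Fin (n * 2 + 1) → Fin (n * 2) → Bool, cub (n * 2) y *
      (∑ i : Fin (n * 2 + 1), (-1 : ℝ) ^ (i : ℕ) *
        B fun l j => P j (ty (y (i.succAbove l)) j)) =
    ∑ j, ∑ i : Fin 3, (-1 : ℝ) ^ (i : ℕ) *
      eev B P j (P j (i.succAbove 0)) (P j (i.succAbove 1)) := by
  have h1 : zpE (fun x => ∑ i : Fin (n * 2 + 1), (-1 : ℝ) ^ (i : ℕ) *
      B (fun l => x (i.succAbove l))) (cubeChain fun j => zpS (P j)) =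
      ∑ y : Fin (n * 2 + 1) → Fin (n * 2) → Bool, cub (n * 2) y *
      (∑ i : Fin (n * 2 + 1), (-1 : ℝ) ^ (i : ℕ) *
        B fun l j => P j (ty (y (i.succAbove l)) j)) := by
    rw [cubeChain, map_sum]
    refine Finset.sum_congr rfl fun y _ => ?_
    rw [zpE, Finsupp.linearCombination_single, smul_eq_mul]
    congr 1
    refine Finset.sum_congr rfl fun i _ => ?_
    congr 1
    congr 1
    funext l j
    exact zp_cell P y _ j
  rw [← h1, zpE_boundary, boundary_cubeChain hn, map_sum]
  refine Finset.sum_congr rfl fun j _ => ?_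
  rw [map_sum]
  refine Finset.sum_congr rfl fun i _ => ?_
  rw [map_smul, smul_eq_mul]
  congr 1
  unfold edgeChain eev
  rw [map_sum]
  refine Finset.sum_congr rfl fun y _ => ?_
  split_ifs with h
  · rw [zpE, Finsupp.linearCombination_single, smul_eq_mul]
    congr 1
    congr 1
    funext k l
    exact zp_ecell P j i y k l
  · exact map_zero _

theorem zp_vol {n : ℕ} (P : Fin n → Fin 3 → ℍ) :
    ∑ y : Fin (n * 2 + 1) → Fin (n * 2) → Bool,
      cub (n * 2) y * vol n (fun k j => P j (ty (y k) j)) =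
    ∏ j, area (P j 0) (P j 1) (P j 2) := by
  have hv : ∀ y : Fin (n * 2 + 1) → Fin (n * 2) → Bool,
      vol n (fun k j => P j (ty (y k) j)) = (∏ j, area (P j 0) (P j 1) (P j 2)) * wvol n y := by
    intro y
    unfold vol wvol
    have h1 : ∀ a b c : Fin (n * 2 + 1), ∀ j : Fin n,
        area (P j (ty (y a) j)) (P j (ty (y b) j)) (P j (ty (y c) j)) =
        or3 (ty (y a) j) (ty (y b) j) (ty (y c) j) * area (P j 0) (P j 1) (P j 2) := by
      intro a b c j
      rw [area_or3]
    simp only [h1, Finset.prod_mul_distrib]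
    rw [mul_left_comm]
    congr 1
    rw [Finset.mul_sum]
    apply Finset.sum_congr rfl
    intro π _
    ring
  simp only [hv]
  have h2 : ∀ y : Fin (n * 2 + 1) → Fin (n * 2) → Bool,
      cub (n * 2) y * ((∏ j, area (P j 0) (P j 1) (P j 2)) * wvol n y) =
      (∏ j, area (P j 0) (P j 1) (P j 2)) * (cub (n * 2) y * wvol n y) := fun y => by ring
  simp only [h2]
  rw [← Finset.mul_sum, cub_wvol, mul_one]

end SimplVol
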